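import Pool.Agent.V11276.PC

/-! Colored ternary partitions. -/

namespace Pool.Agent.V11276.PC.Three

open PowerSeries Pool.Agent.V11276.PC

theorem h3 : 2 ≤ 3 := by norm_num

/-- section -/
noncomputable abbrev S (f : ℤ⟦X⟧) : ℤ⟦X⟧ := E 3 f

theorem S_ex (a f : ℤ⟦X⟧) : S (ex h3 a * f) = a * S f := E_ex_mul h3 a f

/-- `x/(1-x)^2` -/
noncomputable def u : ℤ⟦X⟧ := X * io ^ 2

/-- `3x/(1-x)^2` -/
noncomputable def z : ℤ⟦X⟧ := 3 * u

theorem coeff_u (n : ℕ) : coeff n u = n := by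
  unfold u io
  cases n with
  | zero => simp
  | succ n =>
    rw [coeff_succ_X_mul, show (2 : ℕ) = 1 + 1 by rfl, mk_one_pow_eq_mk_choose_add, coeff_mk]
    simp [add_comm]

theorem coeff_u2 (n : ℕ) : 6 * coeff n (u ^ 2) = ((n : ℤ) + 1) * n * (n - 1) := by
  have h : u ^ 2 = X ^ 2 * io ^ 4 := by unfold u; ring
  rw [h]
  match n with
  | 0 => simp
  | 1 => rw [coeff_X_pow_mul', if_neg (by norm_num)]; norm_num
  | n + 2 =>
    rw [coeff_X_pow_mul]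
    unfold io
    rw [show (4 : ℕ) = 3 + 1 by rfl, mk_one_pow_eq_mk_choose_add, coeff_mk]
    have h2 := Nat.descFactorial_eq_factorial_mul_choose (3 + n) 3
    have h3 : (3 + n).descFactorial 3 = (n + 1) * ((n + 2) * (n + 3)) := by
      rw [Nat.descFactorial_succ, Nat.descFactorial_succ, Nat.descFactorial_one]
      congr 1
      · omega
      · congr 1
        · omega
        · omega
    rw [h3] at h2
    have h4 : (3 : ℕ).factorial = 6 := by decide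
    rw [h4] at h2
    have h5 : (((n + 1) * ((n + 2) * (n + 3)) : ℕ) : ℤ) = ((6 * (3 + n).choose 3 : ℕ) : ℤ) := by
      rw [h2]
    push_cast at h5 ⊢
    linarith

theorem S_z : S z = 3 * z := by
  ext n
  have e3 : (3 : ℤ⟦X⟧) = C 3 := (map_ofNat C 3).symm
  unfold z S
  rw [coeff_E, e3, coeff_C_mul, coeff_C_mul, coeff_C_mul, coeff_u, coeff_u]
  push_cast; ring

theorem S_z2 : S (z ^ 2) = 27 * z ^ 2 + 12 * z := by
  ext n
  have e : (27 * z ^ 2 + 12 * z : ℤ⟦X⟧) = C 243 * u ^ 2 + C 36 * u := by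
    have e1 : (C 243 : ℤ⟦X⟧) = 243 := map_ofNat C 243
    have e2 : (C 36 : ℤ⟦X⟧) = 36 := map_ofNat C 36
    rw [e1, e2]
    unfold z; ring
  have e' : z ^ 2 = C 9 * u ^ 2 := by
    have e1 : (C 9 : ℤ⟦X⟧) = 9 := map_ofNat C 9
    rw [e1]; unfold z; ring
  unfold S
  rw [coeff_E, e, e', map_add, coeff_C_mul, coeff_C_mul, coeff_C_mul, coeff_u]
  have h1 := coeff_u2 (3 * n)
  have h2 := coeff_u2 n
  push_cast at h1
  have h3 : 6 * (9 * coeff (3 * n) (u ^ 2)) = 6 * (243 * coeff n (u ^ 2) + 36 * (n : ℤ)) := by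
    linear_combination 9 * h1 - 243 * h2
  linarith

theorem f_eq : (1 - X ^ 3) * io ^ 3 = 1 + z := by
  have h := io_mul
  unfold z u
  linear_combination ((1 + X + X ^ 2) * io ^ 2 + (1 + 1 * io * (1 - X))) * h

theorem ex_io : ex h3 io * (1 - X ^ 3) = 1 := by
  have h := congrArg (ex h3) io_mul
  have hX : ex h3 X = X ^ 3 := expand_X 3 (by omega)
  unfold ex at *
  rw [map_mul, map_sub, map_one, hX] at h
  exact h

theorem z_rel : z ^ 3 = 9 * ex h3 z * (1 + z) ^ 2 := by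
  have hX : ex h3 X = X ^ 3 := expand_X 3 (by omega)
  have h2 : ex h3 z = 3 * (X ^ 3 * ex h3 io ^ 2) := by
    unfold z u ex at *
    rw [map_mul, map_mul, map_pow, map_ofNat, hX]
  rw [h2, ← f_eq]
  have h := ex_io
  unfold z u
  linear_combination (-27 * X ^ 3 * io ^ 6 * (ex h3 io * (1 - X ^ 3) + 1)) * h

theorem S_z3 (f : ℤ⟦X⟧) : S (z ^ 3 * f) = 9 * z * S ((1 + z) ^ 2 * f) := by
  have e9 : (9 : ℤ⟦X⟧) = C 9 := (map_ofNat C 9).symm
  have h : z ^ 3 * f = ex h3 z * (C 9 * ((1 + z) ^ 2 * f)) := by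
    rw [z_rel, ← e9]; ring
  rw [h, S_ex, S, E_C_mul, ← e9]
  ring

theorem S_one : S 1 = 1 := by
  have := S_ex 1 1
  have h1 : ex h3 1 = 1 := by unfold ex; rw [map_one]
  rw [h1, mul_one, one_mul] at this
  ext n
  unfold S
  rw [coeff_E, coeff_one, coeff_one]
  split_ifs <;> first | rfl | omega

/-- the algebra generated by `z` -/
noncomputable def P : Subalgebra ℤ ℤ⟦X⟧ := Algebra.adjoin ℤ {z}

theorem z_mem : z ∈ P := Algebra.subset_adjoin rfl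

theorem mem_P {f : ℤ⟦X⟧} : f ∈ P ↔ ∃ h : Polynomial ℤ, Polynomial.aeval z h = f := by
  unfold P
  rw [Algebra.adjoin_singleton_eq_range_aeval]
  rfl

theorem C_mem (c : ℤ) : (C c : ℤ⟦X⟧) ∈ P := P.algebraMap_mem c

theorem nat_mem (n : ℕ) [n.AtLeastTwo] : (OfNat.ofNat n : ℤ⟦X⟧) ∈ P := by
  have := C_mem (OfNat.ofNat n : ℤ)
  rwa [map_ofNat] at this

theorem split_P {f : ℤ⟦X⟧} (hf : f ∈ P) : ∃ c : ℤ, ∃ g ∈ P, f = C c + z * g := by
  obtain ⟨h, rfl⟩ := mem_P.1 hf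
  refine ⟨h.coeff 0, Polynomial.aeval z h.divX, mem_P.2 ⟨_, rfl⟩, ?_⟩
  conv_lhs => rw [← Polynomial.X_mul_divX_add h]
  rw [map_add, map_mul, Polynomial.aeval_X, Polynomial.aeval_C]
  rw [add_comm]
  rfl

theorem S_add (f g : ℤ⟦X⟧) : S (f + g) = S f + S g := E_add f g
theorem S_sub (f g : ℤ⟦X⟧) : S (f - g) = S f - S g := E_sub f g
theorem S_C_mul (c : ℤ) (f : ℤ⟦X⟧) : S (C c * f) = C c * S f := E_C_mul c f

theorem S_zpow_mem (j : ℕ) : S (z ^ j) ∈ P := by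
  induction j using Nat.strong_induction_on with
  | _ j ih =>
    match j with
    | 0 => rw [pow_zero, S_one]; exact P.one_mem
    | 1 => rw [pow_one, S_z]; exact P.mul_mem (nat_mem 3) z_mem
    | 2 => rw [S_z2]; exact P.add_mem (P.mul_mem (nat_mem 27) (P.pow_mem z_mem _))
            (P.mul_mem (nat_mem 12) z_mem)
    | j + 3 =>
      have : z ^ (j + 3) = z ^ 3 * z ^ j := by ring
      rw [this, S_z3]
      have e : (1 + z) ^ 2 * z ^ j = z ^ j + C 2 * z ^ (j + 1) + z ^ (j + 2) := by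
        have : (C 2 : ℤ⟦X⟧) = 2 := map_ofNat C 2
        rw [this]; ring
      rw [e, S_add, S_add, S_C_mul]
      exact P.mul_mem (P.mul_mem (nat_mem 9) z_mem) (P.add_mem (P.add_mem (ih _ (by omega))
        (P.mul_mem (C_mem 2) (ih _ (by omega)))) (ih _ (by omega)))

theorem S_mem {f : ℤ⟦X⟧} (hf : f ∈ P) : S f ∈ P := by
  obtain ⟨h, rfl⟩ := mem_P.1 hf
  induction h using Polynomial.induction_on' with
  | add p q hp hq =>
    rw [map_add, S_add]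
    exact P.add_mem (hp (mem_P.2 ⟨_, rfl⟩)) (hq (mem_P.2 ⟨_, rfl⟩))
  | monomial n a =>
    rw [Polynomial.aeval_monomial]
    have : (algebraMap ℤ ℤ⟦X⟧) a = C a := rfl
    rw [this, S_C_mul]
    exact P.mul_mem (C_mem a) (S_zpow_mem n)

theorem one_z_mem : (1 + z) ∈ P := P.add_mem P.one_mem z_mem

theorem S_zP {f : ℤ⟦X⟧} (hf : f ∈ P) : ∃ g ∈ P, S (z * f) = 3 * (z * g) := by
  obtain ⟨c, q, hq, rfl⟩ := split_P hf
  obtain ⟨c', q', hq', rfl⟩ := split_P hq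
  refine ⟨C c + C c' * (9 * z + 4) + 3 * S ((1 + z) ^ 2 * q'), ?_, ?_⟩
  · exact P.add_mem (P.add_mem (C_mem c) (P.mul_mem (C_mem c') (P.add_mem
      (P.mul_mem (nat_mem 9) z_mem) (nat_mem 4)))) (P.mul_mem (nat_mem 3)
        (S_mem (P.mul_mem (P.pow_mem one_z_mem _) hq')))
  · have : z * (C c + z * (C c' + z * q')) = C c * z + C c' * z ^ 2 + z ^ 3 * q' := by ring
    rw [this, S_add, S_add, S_C_mul, S_C_mul, S_z, S_z2, S_z3]
    ring

/-- transfer operator -/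
noncomputable def Te (m : ℕ) (f : ℤ⟦X⟧) : ℤ⟦X⟧ := S ((1 + z) ^ m * f)

theorem G_eq3 (m : ℕ) : G 3 m = ex h3 (G 3 m) * (1 + z) ^ m := by
  have h := G_eq' h3 m
  rw [h3'] at h
  exact h
where
  h3' : (1 - X ^ 3 : ℤ⟦X⟧) ^ m * io ^ (3 * m) = (1 + z) ^ m := by
    rw [pow_mul, ← mul_pow, f_eq]

theorem S_G_mul (m : ℕ) (f : ℤ⟦X⟧) : S (G 3 m * f) = G 3 m * Te m f := by
  have : G 3 m * f = ex h3 (G 3 m) * ((1 + z) ^ m * f) := by
    conv_lhs => rw [G_eq3]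
    ring
  rw [this, S_ex]; rfl

theorem iter_G_mul (m a : ℕ) (f : ℤ⟦X⟧) : S^[a] (G 3 m * f) = G 3 m * (Te m)^[a] f := by
  induction a generalizing f with
  | zero => rfl
  | succ a ih => rw [Function.iterate_succ_apply, S_G_mul, ih, Function.iterate_succ_apply]

theorem coeff_iter (a n : ℕ) (f : ℤ⟦X⟧) : coeff n (S^[a] f) = coeff (3 ^ a * n) f := by
  induction a generalizing f n with
  | zero => simp
  | succ a ih =>
    rw [Function.iterate_succ_apply, ih, S, coeff_E, ← mul_assoc, pow_succ, mul_comm (3 ^ a) 3]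

theorem Te_sub (m : ℕ) (f g : ℤ⟦X⟧) : Te m (f - g) = Te m f - Te m g := by
  unfold Te; rw [mul_sub, S_sub]

theorem Te_iter_sub (m a : ℕ) (f g : ℤ⟦X⟧) :
    (Te m)^[a] (f - g) = (Te m)^[a] f - (Te m)^[a] g := by
  induction a generalizing f g with
  | zero => rfl
  | succ a ih => rw [Function.iterate_succ_apply, Te_sub, ih]; rfl

theorem diff_eq (m a t : ℕ) : coeff (9 * (3 ^ a * t)) (G 3 m) - coeff (3 ^ a * t) (G 3 m) =
    coeff t (G 3 m * (Te m)^[a] (Te m (Te m 1) - 1)) := by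
  have h0 : ∀ b : ℕ, coeff t (G 3 m * (Te m)^[b] 1) = coeff (3 ^ b * t) (G 3 m) := by
    intro b
    rw [← iter_G_mul, mul_one, coeff_iter]
  have h : (Te m)^[a] (Te m (Te m 1)) = (Te m)^[a + 2] 1 := by
    rw [Function.iterate_add_apply]; rfl
  rw [Te_iter_sub, mul_sub, map_sub, h, h0, h0]
  congr 2
  rw [pow_add]; ring_nf

/-- divisibility class -/
def N (s : ℕ) (g : ℤ⟦X⟧) : Prop := ∃ p ∈ P, g = 3 ^ s * (z * p)

theorem S_pow3_mul (s : ℕ) (f : ℤ⟦X⟧) : S (3 ^ s * f) = 3 ^ s * S f := by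
  have : (3 ^ s : ℤ⟦X⟧) = C (3 ^ s) := by rw [map_pow, map_ofNat]
  rw [this, S_C_mul]

theorem N_Te {s : ℕ} {g : ℤ⟦X⟧} (h : N s g) (m : ℕ) : N (s + 1) (Te m g) := by
  obtain ⟨p, hp, rfl⟩ := h
  obtain ⟨g, hg, e⟩ := S_zP (P.mul_mem (P.pow_mem one_z_mem m) hp)
  refine ⟨g, hg, ?_⟩
  unfold Te
  have : (1 + z) ^ m * (3 ^ s * (z * p)) = 3 ^ s * (z * ((1 + z) ^ m * p)) := by ring
  rw [this, S_pow3_mul, e]; ring

theorem N_iter {s : ℕ} {g : ℤ⟦X⟧} (h : N s g) (m a : ℕ) : N (s + a) ((Te m)^[a] g) := by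
  induction a with
  | zero => exact h
  | succ a ih =>
    rw [Function.iterate_succ_apply']
    exact N_Te ih m

theorem N_coeff {s : ℕ} {g : ℤ⟦X⟧} (h : N s g) (m t : ℕ) :
    (3 : ℤ) ^ (s + 1) ∣ coeff t (G 3 m * g) := by
  obtain ⟨p, hp, rfl⟩ := h
  have : G 3 m * (3 ^ s * (z * p)) = C (3 ^ (s + 1)) * (G 3 m * (u * p)) := by
    have e : (C (3 ^ (s + 1)) : ℤ⟦X⟧) = 3 ^ s * 3 := by
      rw [map_pow, map_ofNat, pow_add, pow_one]
    rw [e]; unfold z; ring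
  rw [this, coeff_C_mul]
  exact dvd_mul_right _ _

/-- expansion of `(1+z)^m` -/
theorem one_z_pow (m : ℕ) : ∃ q ∈ P, (1 + z) ^ m = 1 + (m : ℤ⟦X⟧) * z +
    (m.choose 2 : ℤ⟦X⟧) * z ^ 2 + z ^ 3 * (C (m.choose 3 : ℤ) + z * q) := by
  induction m with
  | zero => exact ⟨0, P.zero_mem, by simp⟩
  | succ m ih =>
    obtain ⟨q, hq, e⟩ := ih
    refine ⟨C (m.choose 3 : ℤ) + q + z * q, P.add_mem (P.add_mem (C_mem _) hq)
      (P.mul_mem z_mem hq), ?_⟩
    have h2 : (m + 1).choose 2 = m + m.choose 2 := by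
      rw [Nat.choose_succ_succ' m 1, Nat.choose_one_right]
    have h3 : (m + 1).choose 3 = m.choose 2 + m.choose 3 := Nat.choose_succ_succ' m 2
    rw [pow_succ, e, h2, h3]
    push_cast
    rw [map_add, map_natCast, map_natCast]
    ring

theorem Te_one_form (m : ℕ) : ∃ g ∈ P, Te m 1 = 1 +
    C ((3 * m + 12 * m.choose 2 + 9 * m.choose 3 : ℕ) : ℤ) * z + 27 * (z * g) := by
  obtain ⟨q, hq, e⟩ := one_z_pow m
  have hw : (2 + z) * (C (m.choose 3 : ℤ) + z * q) + q ∈ P :=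
    P.add_mem (P.mul_mem (P.add_mem (nat_mem 2) z_mem) (P.add_mem (C_mem _)
      (P.mul_mem z_mem hq))) hq
  obtain ⟨g, hg, eg⟩ := S_zP hw
  refine ⟨C (m.choose 2 : ℤ) * z + z * g, P.add_mem (P.mul_mem (C_mem _) z_mem)
    (P.mul_mem z_mem hg), ?_⟩
  unfold Te
  rw [mul_one, e]
  have e1 : (1 + (m : ℤ⟦X⟧) * z + (m.choose 2 : ℤ⟦X⟧) * z ^ 2 +
      z ^ 3 * (C (m.choose 3 : ℤ) + z * q)) = 1 + C (m : ℤ) * z + C (m.choose 2 : ℤ) * z ^ 2 +
      z ^ 3 * (C (m.choose 3 : ℤ) + z * q) := by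
    rw [map_natCast C m, map_natCast C (m.choose 2)]
  rw [e1, S_add, S_add, S_add, S_one, S_C_mul, S_C_mul, S_z, S_z2, S_z3]
  have e2 : (1 + z) ^ 2 * (C (m.choose 3 : ℤ) + z * q) = C (m.choose 3 : ℤ) * 1 +
      z * ((2 + z) * (C (m.choose 3 : ℤ) + z * q) + q) := by ring
  rw [e2, S_add, S_C_mul, S_one, eg]
  push_cast
  simp only [map_add, map_mul, map_natCast, map_ofNat]
  ring

theorem coef_form (m : ℕ) : 2 * (3 * m + 12 * m.choose 2 + 9 * m.choose 3) =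
    3 * m ^ 2 * (m + 1) := by
  induction m with
  | zero => simp
  | succ m ih =>
    have h2 : (m + 1).choose 2 = m + m.choose 2 := by
      rw [Nat.choose_succ_succ' m 1, Nat.choose_one_right]
    have h3 : (m + 1).choose 3 = m.choose 2 + m.choose 3 := Nat.choose_succ_succ' m 2
    have h4 : 2 * m.choose 2 + m = m * m := by
      clear ih h2 h3
      induction m with
      | zero => simp
      | succ m ih =>
        have h2 : (m + 1).choose 2 = m + m.choose 2 := by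
          rw [Nat.choose_succ_succ' m 1, Nat.choose_one_right]
        rw [h2]; nlinarith
    rw [h2, h3]
    nlinarith

theorem R_of_Te {s m : ℕ} (h : ∃ g ∈ P, Te m 1 = 1 + 3 ^ s * (z * g)) :
    N s (Te m (Te m 1) - 1) := by
  obtain ⟨g, hg, e⟩ := h
  obtain ⟨g', hg', e'⟩ := S_zP (P.mul_mem (P.pow_mem one_z_mem m) hg)
  refine ⟨g + 3 * g', P.add_mem hg (P.mul_mem (nat_mem 3) hg'), ?_⟩
  have h1 : Te m (Te m 1) = Te m 1 + 3 ^ s * (3 * (z * g')) := by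
    conv_lhs => rw [e]
    unfold Te
    have : (1 + z) ^ m * (1 + 3 ^ s * (z * g)) = (1 + z) ^ m * 1 +
        3 ^ s * (z * ((1 + z) ^ m * g)) := by ring
    rw [this, S_add, S_pow3_mul, e']
  rw [h1, e]; ring

/-- `m ≡ 8 mod 9` -/
theorem bound8 (j n : ℕ) (a t : ℕ) (hnt : n = 3 ^ a * t) : (3 : ℤ) ^ (a + 4) ∣
    coeff (9 * n) (G 3 (9 * j + 8)) - coeff n (G 3 (9 * j + 8)) := by
  rw [hnt, diff_eq]
  obtain ⟨g, hg, e⟩ := Te_one_form (9 * j + 8)
  obtain ⟨w, hw⟩ : ∃ w : ℕ, 3 * (9 * j + 8) + 12 * (9 * j + 8).choose 2 +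
      9 * (9 * j + 8).choose 3 = 27 * w := by
    have h := coef_form (9 * j + 8)
    have h2 : 2 ∣ (9 * j + 8) ^ 2 * (j + 1) := by
      rcases Nat.even_or_odd' j with ⟨i, hi | hi⟩
      · exact Dvd.dvd.mul_right (Dvd.dvd.pow ⟨9 * i + 4, by rw [hi]; ring⟩ (by norm_num)) _
      · exact Dvd.dvd.mul_left ⟨i + 1, by rw [hi]; ring⟩ _
    obtain ⟨w, hw⟩ := h2
    refine ⟨w, ?_⟩
    have : 3 * (9 * j + 8) ^ 2 * (9 * j + 8 + 1) = 27 * ((9 * j + 8) ^ 2 * (j + 1)) := by ring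
    rw [this, hw] at h
    omega
  have h3 : ∃ g ∈ P, Te (9 * j + 8) 1 = 1 + 3 ^ 3 * (z * g) := by
    refine ⟨C (w : ℤ) + g, P.add_mem (C_mem _) hg, ?_⟩
    rw [e, hw]
    push_cast
    rw [map_mul, map_ofNat, map_natCast]
    ring
  have h4 := N_coeff (N_iter (R_of_Te h3) (9 * j + 8) a) (9 * j + 8) t
  rw [show a + 4 = 3 + a + 1 by ring]
  exact h4

end Pool.Agent.V11276.PC.Three
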