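import Mathlib

set_option autoImplicit false

namespace Pool.Agent.V11276.GBin

open Finset

/-- adding `a` and `b` in base `p` produces no carry -/
def NC (p a b : ℕ) : Prop := ∀ i, a % p ^ i + b % p ^ i < p ^ i

theorem not_dvd_choose_iff {p : ℕ} (hp : p.Prime) (a b : ℕ) :
    ¬ p ∣ (a + b).choose b ↔ NC p a b := by
  have h0 : (a + b).choose b ≠ 0 := (Nat.choose_pos (Nat.le_add_left b a)).ne'
  have h1 := Nat.factorization_choose' (n := a) (k := b) hp (Nat.lt_succ_self (Nat.log p (a + b)))
  constructor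
  · intro h i
    have h2 : ((a + b).choose b).factorization p = 0 := Nat.factorization_eq_zero_of_not_dvd h
    rw [h1, Finset.card_eq_zero] at h2
    by_contra hc
    push Not at hc
    have hi1 : 1 ≤ i := by
      rcases Nat.eq_zero_or_pos i with rfl | h
      · simp [Nat.mod_one] at hc
      · exact h
    by_cases hi : i < (Nat.log p (a + b)).succ
    · have : i ∈ ({i ∈ Ico 1 (Nat.log p (a + b)).succ | p ^ i ≤ b % p ^ i + a % p ^ i} : Finset ℕ) := by
        simp only [mem_filter, mem_Ico]
        exact ⟨⟨hi1, hi⟩, by omega⟩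
      rw [h2] at this
      exact absurd this (Finset.notMem_empty _)
    · have h3 : a + b < p ^ i := Nat.lt_pow_of_log_lt hp.one_lt (by omega)
      have h4 := Nat.mod_le a (p ^ i)
      have h5 := Nat.mod_le b (p ^ i)
      omega
  · intro h hd
    have h2 : ((a + b).choose b).factorization p ≠ 0 := by
      have := hp.factorization_pos_of_dvd h0 hd
      omega
    apply h2
    rw [h1, Finset.card_eq_zero, Finset.filter_eq_empty_iff]
    intro i _
    have := h i
    omega

theorem nc_of_mod {p N x M : ℕ} (hp : p.Prime) (hN : N < p ^ M)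
    (h : ∀ i ≤ M, N % p ^ i + (x % p ^ M) % p ^ i < p ^ i) : NC p N x := by
  intro i
  by_cases hi : i ≤ M
  · have := h i hi
    rwa [Nat.mod_mod_of_dvd _ (pow_dvd_pow p hi)] at this
  · push Not at hi
    obtain ⟨d, rfl⟩ := Nat.exists_eq_add_of_lt hi
    have e1 : p ^ (M + d + 1) = p ^ M * p ^ (d + 1) := by rw [← pow_add]; ring_nf
    have hx : x % (p ^ M * p ^ (d + 1)) = x % p ^ M + p ^ M * (x / p ^ M % p ^ (d + 1)) :=
      Nat.mod_mul
    rw [e1, hx]
    have h1 := h M le_rfl
    rw [Nat.mod_mod, Nat.mod_eq_of_lt hN] at h1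
    have hpos : 0 < p ^ (d + 1) := pow_pos hp.pos _
    have h2 : x / p ^ M % p ^ (d + 1) < p ^ (d + 1) := Nat.mod_lt _ hpos
    have h3 : N % (p ^ M * p ^ (d + 1)) = N :=
      Nat.mod_eq_of_lt (lt_of_lt_of_le hN (Nat.le_mul_of_pos_right _ hpos))
    rw [h3]
    have h4 : p ^ M * (x / p ^ M % p ^ (d + 1)) + p ^ M ≤ p ^ M * p ^ (d + 1) := by
      calc p ^ M * (x / p ^ M % p ^ (d + 1)) + p ^ M = p ^ M * (x / p ^ M % p ^ (d + 1) + 1) := by ring
        _ ≤ _ := Nat.mul_le_mul_left _ h2
    omega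

theorem compl_mod {a b m : ℕ} (hm : 0 < m) (h : m ∣ a + b + 1) : a % m + b % m + 1 = m := by
  have h1 : m ∣ a % m + b % m + 1 := by
    rw [Nat.dvd_iff_mod_eq_zero] at h ⊢
    rw [← h]
    have ha := Nat.mod_modEq a m
    have hb := Nat.mod_modEq b m
    exact (ha.add hb).add_right 1
  have h2 := Nat.mod_lt a hm
  have h3 := Nat.mod_lt b hm
  obtain ⟨c, hc⟩ := h1
  have : c = 1 := by
    rcases Nat.lt_or_ge c 1 with h' | h'
    · have : c = 0 := by omega
      subst this; simp at hc
    · rcases Nat.lt_or_ge 1 c with h'' | h''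
      · have : m * 2 ≤ m * c := Nat.mul_le_mul_left _ h''
        omega
      · omega
  subst this
  omega


/-- case `q = 1` -/
theorem exists_nc_one {p : ℕ} (hp : p.Prime) {N : ℕ} (hN1 : 1 ≤ N) (hN : ¬ p ∣ N + 1) :
    ∃ s, 1 ≤ s ∧ s ≤ N ∧ NC p N (s * N) := by
  set l := Nat.log p N with hl
  have hP0 : p ^ l ≤ N := Nat.pow_log_le_self p (by omega)
  have hP : N < p ^ (l + 1) := Nat.lt_pow_succ_log_self hp.one_lt N
  have hp2 : 2 ≤ p := hp.two_le
  have hP0pos : 0 < p ^ l := pow_pos hp.pos l
  have hPpos : 0 < p ^ (l + 1) := pow_pos hp.pos _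
  have hPe : p ^ (l + 1) = p ^ l * p := pow_succ p l
  by_cases hd : p ∣ N
  · refine ⟨p ^ l, hP0pos, hP0, nc_of_mod (M := l + 1) hp hP ?_⟩
    intro i _
    obtain ⟨c, hc⟩ := hd
    have : (p ^ l * N) % p ^ (l + 1) = 0 := by
      rw [hPe]
      apply Nat.mod_eq_zero_of_dvd
      exact ⟨c, by rw [hc]; ring⟩
    rw [this, Nat.zero_mod, add_zero]
    exact Nat.mod_lt _ (pow_pos hp.pos i)
  · have hcop : Nat.Coprime N (p ^ (l + 1)) :=
      Nat.Coprime.pow_right _ ((Nat.Prime.coprime_iff_not_dvd hp).2 hd).symm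
    by_cases hbig : p ^ (l + 1) ≤ 2 * N + 2
    · obtain ⟨t, ht⟩ : ∃ t, t < p ^ (l + 1) ∧ (N * t) % p ^ (l + 1) = 1 := by
        have h1P : 1 < p ^ (l + 1) := Nat.one_lt_pow (by omega) hp.one_lt
        obtain ⟨m, hm⟩ := Nat.exists_mul_mod_eq_one_of_coprime hcop h1P
        exact ⟨m, hm.1, hm.2⟩
      obtain ⟨ht1, ht2⟩ := ht
      have ht0 : 1 ≤ t := by
        rcases Nat.eq_zero_or_pos t with rfl | h
        · simp at ht2
        · exact h
      by_cases htN : t ≤ N
      · refine ⟨t, ht0, htN, nc_of_mod (M := l + 1) hp hP ?_⟩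
        intro i hi
        rw [mul_comm, ht2]
        rcases Nat.eq_zero_or_pos i with rfl | hi0
        · simp [Nat.mod_one]
        · have hpi : 1 < p ^ i := Nat.one_lt_pow (by omega) hp.one_lt
          rw [Nat.mod_eq_of_lt hpi]
          have h1 : N % p ^ i < p ^ i := Nat.mod_lt _ (by omega)
          by_contra hc
          have h2 : N % p ^ i + 1 = p ^ i := by omega
          apply hN
          have h3 : p ^ i ∣ N + 1 := by
            have := Nat.div_add_mod N (p ^ i)
            exact ⟨N / p ^ i + 1, by rw [mul_add, mul_one]; omega⟩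
          exact (dvd_pow_self p (by omega)).trans h3
      · push Not at htN
        have hs : p ^ (l + 1) - 1 - t + t + 1 = p ^ (l + 1) := by omega
        refine ⟨p ^ (l + 1) - 1 - t, ?_, by omega, nc_of_mod (M := l + 1) hp hP ?_⟩
        · by_contra hc
          have h1 : t + 1 = p ^ (l + 1) := by omega
          apply hN
          have h2 : p ^ (l + 1) ∣ N + 1 := by
            have h3 := Nat.div_add_mod (N * t) (p ^ (l + 1))
            rw [ht2] at h3
            -- N * (t+1) = N*t + N
            have h4 : N * (t + 1) = p ^ (l + 1) * (N * t / p ^ (l + 1)) + (N + 1) := by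
              rw [mul_add, mul_one]; omega
            rw [h1] at h4
            exact (Nat.dvd_add_right (Dvd.intro _ rfl)).1 (h4 ▸ Dvd.intro_left N rfl)
          exact (dvd_pow_self p (by omega)).trans h2
        · have hmod : ((p ^ (l + 1) - 1 - t) * N) % p ^ (l + 1) = p ^ (l + 1) - 1 - N := by
            have h3 := Nat.div_add_mod (N * t) (p ^ (l + 1))
            rw [ht2] at h3
            have h5 : (p ^ (l + 1) - 1 - t) * N + (t + 1) * N = p ^ (l + 1) * N := by
              rw [← add_mul]; congr 1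
            have h6 : (p ^ (l + 1) - 1 - t) * N + N + 1 + p ^ (l + 1) * (N * t / p ^ (l + 1))
                = p ^ (l + 1) * N := by
              rw [← h5]
              have : (t + 1) * N = N * t + N := by ring
              rw [this]; omega
            have h7 : p ^ (l + 1) ∣ (p ^ (l + 1) - 1 - t) * N + N + 1 := by
              have : p ^ (l + 1) ∣ (p ^ (l + 1) - 1 - t) * N + N + 1 +
                p ^ (l + 1) * (N * t / p ^ (l + 1)) := h6 ▸ Dvd.intro _ rfl
              exact (Nat.dvd_add_left (Dvd.intro _ rfl)).1 this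
            have h8 := compl_mod hPpos h7
            rw [Nat.mod_eq_of_lt hP] at h8
            omega
          intro i hi
          rw [hmod]
          have hdv : p ^ i ∣ N + (p ^ (l + 1) - 1 - N) + 1 := by
            have : N + (p ^ (l + 1) - 1 - N) + 1 = p ^ (l + 1) := by omega
            rw [this]; exact pow_dvd_pow p hi
          have := compl_mod (pow_pos hp.pos i) hdv
          omega
    · push Not at hbig
      set P0 := p ^ l with hP0def
      set n := N / P0 with hn
      have hn1 : 1 ≤ n := (Nat.one_le_div_iff hP0pos).2 hP0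
      have hnN : n * P0 ≤ N := Nat.div_mul_le_self N P0
      have hnN2 : N < (n + 1) * P0 := by
        exact Nat.lt_mul_of_div_lt (by omega) hP0pos
      have h2n : 2 * n < p := by
        by_contra hc
        push Not at hc
        have : P0 * p ≤ P0 * (2 * n) := Nat.mul_le_mul_left _ hc
        have h3 : P0 * (2 * n) = 2 * (n * P0) := by ring
        omega
      set r := N % p with hr
      have hr0 : 1 ≤ r := by
        rcases Nat.eq_zero_or_pos r with h | h
        · exact absurd (Nat.dvd_of_mod_eq_zero h) hd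
        · exact h
      have hrp : r < p := Nat.mod_lt _ hp.pos
      have hr1 : r + 1 ≠ p := by
        intro h
        apply hN
        have := Nat.div_add_mod N p
        exact ⟨N / p + 1, by rw [mul_add, mul_one]; omega⟩
      obtain ⟨a, ha1, han, har⟩ : ∃ a, 1 ≤ a ∧ a ≤ n ∧ (a * r) % p + n < p := by
        by_contra hcon
        push Not at hcon
        have key : ∀ a, 1 ≤ a → a ≤ n → a * (p - r) ≤ n := by
          intro a
          induction a with
          | zero => intro h; omega
          | succ a ih =>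
            intro _ ha
            have hlt : (a + 1) * (p - r) < p := by
              rcases Nat.eq_zero_or_pos a with rfl | ha0
              · simp; omega
              · have h1 := ih ha0 (by omega)
                have h2 : 1 * (p - r) ≤ a * (p - r) := Nat.mul_le_mul_right _ ha0
                rw [add_mul]; omega
            have hpos : 0 < (a + 1) * (p - r) := Nat.mul_pos (by omega) (by omega)
            have hsum : (a + 1) * r + (a + 1) * (p - r) = (a + 1) * p := by
              rw [← mul_add]; congr 1; omega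
            have hmod : ((a + 1) * r) % p = p - (a + 1) * (p - r) := by
              have h3 : (a + 1) * r = (p - (a + 1) * (p - r)) + p * a := by
                have : (a + 1) * p = p + p * a := by ring
                omega
              rw [h3, Nat.add_mul_mod_self_left]
              exact Nat.mod_eq_of_lt (by omega)
            have h4 := hcon (a + 1) (by omega) ha
            rw [hmod] at h4
            omega
        have h5 := key n hn1 le_rfl
        have h6 : n * 2 ≤ n * (p - r) := Nat.mul_le_mul_left _ (by omega)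
        omega
      refine ⟨a * P0, Nat.mul_pos (by omega) hP0pos, ?_, nc_of_mod (M := l + 1) hp hP ?_⟩
      · exact (Nat.mul_le_mul_right _ han).trans hnN
      · have hmod : (a * P0 * N) % p ^ (l + 1) = P0 * ((a * r) % p) := by
          rw [hPe]
          have : a * P0 * N = P0 * (a * N) := by ring
          rw [this, Nat.mul_mod_mul_left, hr, Nat.mul_mod_mod]
        intro i hi
        rw [hmod]
        rcases Nat.lt_or_ge l i with hil | hil
        · have hi' : i = l + 1 := by omega
          subst hi'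
          have h7 : P0 * ((a * r) % p) + (n + 1) * P0 ≤ p ^ (l + 1) := by
            rw [hPe]
            calc P0 * ((a * r) % p) + (n + 1) * P0 = P0 * ((a * r) % p + n + 1) := by ring
              _ ≤ _ := Nat.mul_le_mul_left _ (by omega)
          rw [Nat.mod_eq_of_lt hP, Nat.mod_eq_of_lt (by omega)]
          omega
        · have : (P0 * ((a * r) % p)) % p ^ i = 0 :=
            Nat.mod_eq_zero_of_dvd ((pow_dvd_pow p hil).trans (Dvd.intro _ rfl))
          rw [this, add_zero]
          exact Nat.mod_lt _ (pow_pos hp.pos i)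


/-- case `q = p ^ e`, `e ≥ 1` -/
theorem exists_nc_pow {p : ℕ} (hp : p.Prime) {e N : ℕ} (he : 1 ≤ e) (hqN : p ^ e ≤ N)
    (hN : ¬ p ∣ N + 1) :
    ∃ s, 1 ≤ s ∧ s ≤ N ∧ NC p N (s * (p ^ e * (N + 1) - 1)) := by
  have hN1 : 1 ≤ N := le_trans (pow_pos hp.pos e) hqN
  set l := Nat.log p N with hl
  have hP0 : p ^ l ≤ N := Nat.pow_log_le_self p (by omega)
  have hP : N < p ^ (l + 1) := Nat.lt_pow_succ_log_self hp.one_lt N
  have hp2 : 2 ≤ p := hp.two_le
  have hP0pos : 0 < p ^ l := pow_pos hp.pos l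
  have hPpos : 0 < p ^ (l + 1) := pow_pos hp.pos _
  have hPe : p ^ (l + 1) = p ^ l * p := pow_succ p l
  have hel : e ≤ l := Nat.le_log_of_pow_le hp.one_lt hqN
  set P0 := p ^ l with hP0def
  set n := N / P0 with hn
  set T := N % P0 with hT
  have hNnT : P0 * n + T = N := Nat.div_add_mod N P0
  have hTlt : T < P0 := Nat.mod_lt _ hP0pos
  have hn1 : 1 ≤ n := (Nat.one_le_div_iff hP0pos).2 hP0
  have hnp : n + 1 ≤ p := by
    by_contra hc
    push Not at hc
    have : P0 * p ≤ P0 * n := Nat.mul_le_mul_left _ (by omega)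
    omega
  set B := P0 - 1 - T with hB
  have hBT : B + T + 1 = P0 := by omega
  have hqpos : 0 < p ^ e := pow_pos hp.pos e
  set k := p ^ e * (N + 1) - 1 with hk
  have hk1 : k + 1 = p ^ e * (N + 1) := by
    have : 0 < p ^ e * (N + 1) := Nat.mul_pos hqpos (by omega)
    omega
  clear_value k
  have hpk1 : p ∣ k + 1 := hk1 ▸ ((dvd_pow_self p (by omega)).trans (Dvd.intro _ rfl))
  have hpk : ¬ p ∣ k := by
    intro h
    have := (Nat.dvd_add_right h).1 hpk1
    exact hp.one_lt.ne' (Nat.dvd_one.1 this)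
  have hcop : Nat.Coprime k (p ^ (l + 1)) :=
    Nat.Coprime.pow_right _ ((Nat.Prime.coprime_iff_not_dvd hp).2 hpk).symm
  have h1P : 1 < p ^ (l + 1) := Nat.one_lt_pow (by omega) hp.one_lt
  obtain ⟨t, ht1, ht2⟩ := Nat.exists_mul_mod_eq_one_of_coprime hcop h1P
  -- W = -1/k
  obtain ⟨W, hW⟩ : ∃ W, p ^ (l + 1) ∣ W * k + 1 := by
    refine ⟨p ^ (l + 1) - t, ?_⟩
    have h3 := Nat.div_add_mod (k * t) (p ^ (l + 1))
    rw [ht2] at h3
    have h4 : (p ^ (l + 1) - t) * k + t * k = p ^ (l + 1) * k := by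
      rw [← add_mul]; congr 1; omega
    have h5 : (p ^ (l + 1) - t) * k + 1 + p ^ (l + 1) * (k * t / p ^ (l + 1)) = p ^ (l + 1) * k := by
      rw [mul_comm t k] at h4; omega
    have : p ^ (l + 1) ∣ (p ^ (l + 1) - t) * k + 1 + p ^ (l + 1) * (k * t / p ^ (l + 1)) :=
      h5 ▸ Dvd.intro _ rfl
    exact (Nat.dvd_add_left (Dvd.intro _ rfl)).1 this
  -- W ≡ 1 mod p
  have hWp : W % p = 1 := by
    have h1 : p ∣ W * k + 1 := (dvd_pow_self p (by omega)).trans hW
    have h2 : p ∣ W * (k + 1) := Dvd.dvd.mul_left hpk1 W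
    have h3 : (p : ℤ) ∣ (W : ℤ) - 1 := by
      have h1' : (p : ℤ) ∣ (W : ℤ) * k + 1 := by exact_mod_cast h1
      have h2' : (p : ℤ) ∣ (W : ℤ) * (k + 1) := by exact_mod_cast h2
      have h5 := dvd_sub h2' h1'
      have e1 : (W : ℤ) * (k + 1) - (W * k + 1) = W - 1 := by ring
      rwa [e1] at h5
    have h4 : 1 ≡ W [MOD p] := Nat.modEq_iff_dvd.2 (by simpa using h3)
    have h6 : W % p = 1 % p := h4.symm
    rw [h6, Nat.mod_eq_of_lt (by omega)]
  -- W ≢ 1 mod p^(e+1)
  have hWne : ¬ ((p : ℤ) ^ (e + 1)) ∣ (W : ℤ) - 1 := by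
    intro h
    have h1 : ((p : ℤ) ^ (e + 1)) ∣ (W : ℤ) * k + 1 := by
      have : (p ^ (e + 1)) ∣ W * k + 1 := (pow_dvd_pow p (by omega)).trans hW
      exact_mod_cast this
    have h2 : ((p : ℤ) ^ (e + 1)) ∣ (W : ℤ) * (k + 1) := by
      have h5 := dvd_add h h1
      have e1 : (W : ℤ) - 1 + (W * k + 1) = W * (k + 1) := by ring
      rwa [e1] at h5
    have h3 : (p ^ (e + 1)) ∣ W * (k + 1) := by exact_mod_cast h2
    rw [hk1] at h3
    have h4 : p ^ e * p ∣ p ^ e * (W * (N + 1)) := by
      rw [← pow_succ]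
      convert h3 using 1; ring
    have h5 : p ∣ W * (N + 1) := (Nat.mul_dvd_mul_iff_left hqpos).1 h4
    rcases (Nat.Prime.dvd_mul hp).1 h5 with h6 | h6
    · have := Nat.mod_eq_zero_of_dvd h6
      omega
    · exact hN h6
  have hpP0 : p ∣ P0 := dvd_pow_self p (by omega)
  have hB0 : 1 ≤ B % p := by
    rcases Nat.eq_zero_or_pos (B % p) with h | h
    · exfalso
      apply hN
      have h1 : p ∣ B := Nat.dvd_of_mod_eq_zero h
      have h2 : p ∣ T + 1 := by
        have h3 : p ∣ B + (T + 1) := by rw [← add_assoc, hBT]; exact hpP0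
        exact (Nat.dvd_add_right h1).1 h3
      have h4 : N + 1 = P0 * n + (T + 1) := by omega
      rw [h4]
      exact dvd_add (hpP0.trans (Dvd.intro _ rfl)) h2
    · exact h
  have hBlt : B < P0 := by omega
  have h2B : 2 * B < p ^ (l + 1) := by
    have : P0 * 2 ≤ P0 * p := Nat.mul_le_mul_left _ hp2
    omega
  obtain ⟨c, hcB, hcW⟩ : ∃ c, (∀ i, c % p ^ i ≤ B % p ^ i) ∧ B < (c * W) % p ^ (l + 1) := by
    by_contra hcon
    push Not at hcon
    have key : ∀ j, 1 ≤ j → j ≤ l → B % p ^ j + 1 ≤ ((B % p ^ j) * W) % p ^ (l + 1) := by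
      intro j hj1
      induction j, hj1 using Nat.le_induction with
      | base =>
        intro _
        rw [pow_one]
        set b := B % p with hb
        have hbp : b < p := Nat.mod_lt _ hp.pos
        clear_value b
        have h1 : ((b * W) % p ^ (l + 1)) % p = b := by
          rw [Nat.mod_mod_of_dvd _ (dvd_pow_self p (by omega)), Nat.mul_mod, hWp, mul_one,
            Nat.mod_mod, Nat.mod_eq_of_lt hbp]
        have h2 : b ≤ (b * W) % p ^ (l + 1) := by
          calc b = ((b * W) % p ^ (l + 1)) % p := h1.symm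
            _ ≤ _ := Nat.mod_le _ _
        have h3 : (b * W) % p ^ (l + 1) ≠ b := by
          intro h
          apply hWne
          have h4 : b ≡ b * W [MOD p ^ (l + 1)] := by
            rw [Nat.ModEq, h]
            exact Nat.mod_eq_of_lt (lt_of_lt_of_le hbp (Nat.le_self_pow (by omega) p))
          have h5 := (Nat.modEq_iff_dvd).1 h4
          push_cast at h5
          have h6 : (p : ℤ) ^ (e + 1) ∣ (b : ℤ) * ((W : ℤ) - 1) := by
            refine (pow_dvd_pow (p : ℤ) (by omega : e + 1 ≤ l + 1)).trans ?_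
            have e2 : (b : ℤ) * ((W : ℤ) - 1) = (b : ℤ) * W - b := by ring
            rw [e2]; exact h5
          have hcb : IsCoprime ((p : ℤ) ^ (e + 1)) (b : ℤ) := by
            have : Nat.Coprime (p ^ (e + 1)) b := by
              apply Nat.Coprime.pow_left
              rw [Nat.Prime.coprime_iff_not_dvd hp]
              intro h
              have := Nat.le_of_dvd hB0 h
              omega
            have h7 := Nat.isCoprime_iff_coprime.2 this
            push_cast at h7
            exact h7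
          exact hcb.dvd_of_dvd_mul_left h6
        omega
      | succ j hj ih =>
        intro hjl
        have ih := ih (by omega)
        set x := B % p ^ j with hx
        set b := B / p ^ j % p with hb
        have hbp : b < p := Nat.mod_lt _ hp.pos
        have hxs : B % p ^ (j + 1) = x + p ^ j * b := Nat.mod_pow_succ
        have hD1 : ∀ i, x % p ^ i ≤ B % p ^ i := by
          intro i
          rcases Nat.le_total i j with h | h
          · rw [hx, Nat.mod_mod_of_dvd _ (pow_dvd_pow p h)]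
          · have h1 : (B % p ^ i) % p ^ j = x := Nat.mod_mod_of_dvd _ (pow_dvd_pow p h)
            calc x % p ^ i ≤ x := Nat.mod_le _ _
              _ = (B % p ^ i) % p ^ j := h1.symm
              _ ≤ _ := Nat.mod_le _ _
        have hD2 : ∀ i, (p ^ j * b) % p ^ i ≤ B % p ^ i := by
          intro i
          rcases Nat.lt_or_ge j i with h | h
          · have h1 : (B % p ^ i) % p ^ (j + 1) = B % p ^ (j + 1) :=
              Nat.mod_mod_of_dvd _ (pow_dvd_pow p h)
            calc (p ^ j * b) % p ^ i ≤ p ^ j * b := Nat.mod_le _ _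
              _ ≤ B % p ^ (j + 1) := by rw [hxs]; exact Nat.le_add_left _ _
              _ = (B % p ^ i) % p ^ (j + 1) := h1.symm
              _ ≤ _ := Nat.mod_le _ _
          · have : (p ^ j * b) % p ^ i = 0 :=
              Nat.mod_eq_zero_of_dvd ((pow_dvd_pow p h).trans (Dvd.intro _ rfl))
            rw [this]; exact Nat.zero_le _
        have h1 := hcon x hD1
        have h2 := hcon (p ^ j * b) hD2
        have h3 : p ^ j * b ≤ ((p ^ j * b) * W) % p ^ (l + 1) := by
          have h4 : (((p ^ j * b) * W) % p ^ (l + 1)) % p ^ (j + 1) = p ^ j * b := by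
            rw [Nat.mod_mod_of_dvd _ (pow_dvd_pow p (by omega)), pow_succ, mul_assoc,
              Nat.mul_mod_mul_left, Nat.mul_mod, hWp, mul_one, Nat.mod_mod, Nat.mod_eq_of_lt hbp]
          calc p ^ j * b = _ := h4.symm
            _ ≤ _ := Nat.mod_le _ _
        have h5 : ((x + p ^ j * b) * W) % p ^ (l + 1) =
            (x * W) % p ^ (l + 1) + ((p ^ j * b) * W) % p ^ (l + 1) := by
          rw [add_mul, Nat.add_mod]
          exact Nat.mod_eq_of_lt (by omega)
        rw [hxs, h5]
        omega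
    have h1 := key l (by omega) le_rfl
    have h2 : B % p ^ l = B := Nat.mod_eq_of_lt hBlt
    rw [h2] at h1
    have h3 := hcon B (fun i => le_rfl)
    omega
  have hcB' : c ≤ B := by
    have h1 := hcB (l + 1 + c)
    have h2 : c < p ^ (l + 1 + c) :=
      lt_of_lt_of_le (Nat.lt_pow_self hp.one_lt) (Nat.pow_le_pow_right hp.pos (by omega))
    have h3 : B < p ^ (l + 1 + c) :=
      lt_of_lt_of_le (by omega : B < p ^ (l + 1)) (Nat.pow_le_pow_right hp.pos (by omega))
    rwa [Nat.mod_eq_of_lt h2, Nat.mod_eq_of_lt h3] at h1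
  set z := (c * W) % p ^ (l + 1) with hz
  have hzlt : z < p ^ (l + 1) := Nat.mod_lt _ hPpos
  obtain ⟨d, hd1, hd2, hd3⟩ : ∃ d, d + n + 1 ≤ p ∧ z + d * P0 < p ^ (l + 1) ∧
      p ^ (l + 1) ≤ z + d * P0 + N := by
    by_cases hc : z + (p - 1 - n) * P0 < p ^ (l + 1)
    · refine ⟨p - 1 - n, by omega, hc, ?_⟩
      have h1 : P0 * n + P0 + (p - 1 - n) * P0 = P0 * p := by
        calc P0 * n + P0 + (p - 1 - n) * P0 = P0 * (n + 1 + (p - 1 - n)) := by ring
          _ = _ := by congr 1; omega
      omega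
    · push Not at hc
      refine ⟨(p ^ (l + 1) - 1 - z) / P0, ?_, ?_, ?_⟩
      · have h1 : (p ^ (l + 1) - 1 - z) / P0 < p - 1 - n := by
          rw [Nat.div_lt_iff_lt_mul hP0pos]; omega
        omega
      · have := Nat.div_mul_le_self (p ^ (l + 1) - 1 - z) P0
        omega
      · have h1 : p ^ (l + 1) - 1 - z < ((p ^ (l + 1) - 1 - z) / P0 + 1) * P0 :=
          Nat.lt_mul_of_div_lt (by omega) hP0pos
        rw [add_mul, one_mul] at h1
        omega
  have hres : ((p ^ (l + 1) - (z + d * P0)) * k) % p ^ (l + 1) = c + d * P0 := by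
    have hlt : c + d * P0 < p ^ (l + 1) := by
      have h1 : d * P0 + P0 ≤ p ^ (l + 1) := by
        rw [hPe]
        calc d * P0 + P0 = P0 * (d + 1) := by ring
          _ ≤ _ := Nat.mul_le_mul_left _ (by omega)
      omega
    have h2 : c + d * P0 ≡ (p ^ (l + 1) - (z + d * P0)) * k [MOD p ^ (l + 1)] := by
      rw [Nat.modEq_iff_dvd]
      obtain ⟨u, hu⟩ : ∃ u, z + p ^ (l + 1) * u = c * W :=
        ⟨c * W / p ^ (l + 1), Nat.mod_add_div _ _⟩
      obtain ⟨v, hv⟩ := hW
      obtain ⟨w, hw⟩ := hpk1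
      have hu' : (z : ℤ) + (p : ℤ) ^ (l + 1) * u = c * W := by exact_mod_cast hu
      have hv' : (W : ℤ) * k + 1 = (p : ℤ) ^ (l + 1) * v := by exact_mod_cast hv
      have hw' : (k : ℤ) + 1 = p * w := by exact_mod_cast hw
      have hPe' : (p : ℤ) ^ (l + 1) = (P0 : ℤ) * p := by exact_mod_cast hPe
      rw [Nat.cast_mul, Nat.cast_sub hd2.le]
      refine ⟨k - c * v + u * k - d * w, ?_⟩
      push_cast
      linear_combination (-(k : ℤ)) * hu' - (c : ℤ) * hv' - (d : ℤ) * P0 * hw' +
        (d : ℤ) * w * hPe'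
    rw [Nat.ModEq, Nat.mod_eq_of_lt hlt] at h2
    exact h2.symm
  refine ⟨p ^ (l + 1) - (z + d * P0), by omega, by omega, nc_of_mod (M := l + 1) hp hP ?_⟩
  intro i hi
  rw [hres]
  rcases Nat.lt_or_ge l i with hil | hil
  · have hi' : i = l + 1 := by omega
    subst hi'
    have h7 : d * P0 + (n + 1) * P0 ≤ p ^ (l + 1) := by
      rw [hPe]
      calc d * P0 + (n + 1) * P0 = P0 * (d + n + 1) := by ring
        _ ≤ _ := Nat.mul_le_mul_left _ hd1
    have h8 : (n + 1) * P0 = P0 * n + P0 := by ring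
    rw [Nat.mod_eq_of_lt hP, Nat.mod_eq_of_lt (by omega)]
    omega
  · have h1 : (c + d * P0) % p ^ i = c % p ^ i := by
      obtain ⟨g, hg⟩ := pow_dvd_pow p hil
      rw [hP0def, hg, mul_left_comm, Nat.add_mul_mod_self_left]
    rw [h1]
    have h2 : p ^ i ∣ N + B + 1 := by
      have : N + B + 1 = P0 * (n + 1) := by rw [mul_add, mul_one]; omega
      rw [this]
      exact (pow_dvd_pow p hil).trans (Dvd.intro _ rfl)
    have h3 := compl_mod (pow_pos hp.pos i) h2
    have h4 := hcB i
    omega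


theorem exists_nc {p : ℕ} (hp : p.Prime) {e N : ℕ} (hqN : p ^ e ≤ N) (hN : ¬ p ∣ N + 1) :
    ∃ s, 1 ≤ s ∧ s ≤ N ∧ NC p N (s * (p ^ e * (N + 1) - 1)) := by
  rcases Nat.eq_zero_or_pos e with rfl | he
  · obtain ⟨s, h1, h2, h3⟩ := exists_nc_one hp (by simpa using hqN) hN
    exact ⟨s, h1, h2, by simpa using h3⟩
  · exact exists_nc_pow hp he hqN hN

/-- if `k + 1 = p ^ e * m` with `p ∤ m` and `m > p ^ e` then `p` misses some `C(jk, k)` -/
theorem exists_not_dvd {p : ℕ} (hp : p.Prime) {e m k : ℕ} (hk : k + 1 = p ^ e * m)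
    (hm : ¬ p ∣ m) (hlt : p ^ e < m) :
    ∃ j, 2 ≤ j ∧ j ≤ k + 1 ∧ ¬ p ∣ (j * k).choose k := by
  obtain ⟨N, rfl⟩ : ∃ N, m = N + 1 := ⟨m - 1, by omega⟩
  have hqpos : 0 < p ^ e := pow_pos hp.pos e
  obtain ⟨s, hs1, hs2, hnc⟩ := exists_nc hp (e := e) (N := N) (by omega) hm
  have hk' : p ^ e * (N + 1) - 1 = k := by omega
  rw [hk'] at hnc
  refine ⟨p ^ e * s + 1, ?_, ?_, ?_⟩
  · have : 0 < p ^ e * s := Nat.mul_pos hqpos hs1
    omega
  · have h1 : p ^ e * s ≤ p ^ e * N := Nat.mul_le_mul_left _ hs2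
    rw [mul_add] at hk
    omega
  · have h1 : (p ^ e * s + 1) * k = p ^ e * s * k + k := by ring
    rw [h1, not_dvd_choose_iff hp]
    intro i
    rcases Nat.le_total i e with hi | hi
    · have h2 : (p ^ e * s * k) % p ^ i = 0 := by
        rw [mul_assoc]
        exact Nat.mod_eq_zero_of_dvd ((pow_dvd_pow p hi).trans (Dvd.intro _ rfl))
      rw [h2, zero_add]
      exact Nat.mod_lt _ (pow_pos hp.pos i)
    · obtain ⟨g, rfl⟩ := Nat.exists_eq_add_of_le hi
      rw [pow_add]
      have h2 : (p ^ e * s * k) % (p ^ e * p ^ g) = p ^ e * ((s * k) % p ^ g) := by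
        rw [mul_assoc, Nat.mul_mod_mul_left]
      have hkN : k = (p ^ e - 1) + p ^ e * N := by rw [mul_add] at hk; omega
      have h3 : k % p ^ e = p ^ e - 1 := by
        rw [hkN, Nat.add_mul_mod_self_left]
        exact Nat.mod_eq_of_lt (by omega)
      have h4 : k / p ^ e = N := by
        rw [hkN, Nat.add_mul_div_left _ _ hqpos, Nat.div_eq_of_lt (by omega), zero_add]
      have h5 : k % (p ^ e * p ^ g) = (p ^ e - 1) + p ^ e * (N % p ^ g) := by
        rw [Nat.mod_mul, h3, h4]
      rw [h2, h5]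
      have h6 := hnc g
      have h7 : p ^ e * (N % p ^ g + s * k % p ^ g + 1) ≤ p ^ e * p ^ g :=
        Nat.mul_le_mul_left _ h6
      rw [mul_add, mul_add] at h7
      omega

/-- if `k + 1 = p ^ e * m` with `p ∤ m` and `m ≤ p ^ e` then `p` divides every `C(jk, k)`,
`2 ≤ j ≤ k + 1` -/
theorem all_dvd {p : ℕ} (hp : p.Prime) {e m k : ℕ} (hk1 : 1 ≤ k) (hk : k + 1 = p ^ e * m)
    (hle : m ≤ p ^ e) {j : ℕ} (hj2 : 2 ≤ j) (hjk : j ≤ k + 1) : p ∣ (j * k).choose k := by
  by_contra hcon
  have hqpos : 0 < p ^ e := pow_pos hp.pos e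
  have hm0 : 1 ≤ m := by
    rcases Nat.eq_zero_or_pos m with rfl | h
    · simp at hk
    · exact h
  obtain ⟨t, rfl⟩ : ∃ t, j = t + 1 := ⟨j - 1, by omega⟩
  have h1 : (t + 1) * k = t * k + k := by ring
  rw [h1, not_dvd_choose_iff hp] at hcon
  have hmod : k % p ^ e = p ^ e - 1 := by
    have : k = (p ^ e - 1) + p ^ e * (m - 1) := by
      have : p ^ e * m = p ^ e * (m - 1) + p ^ e := by
        rw [← Nat.mul_succ]; congr 1; omega
      omega
    rw [this, Nat.add_mul_mod_self_left]
    exact Nat.mod_eq_of_lt (by omega)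
  have h2 := hcon e
  rw [hmod] at h2
  have h3 : (t * k) % p ^ e = 0 := by
    generalize (t * k) % p ^ e = g at h2 ⊢
    omega
  have hcop : Nat.Coprime (p ^ e) k := by
    have h4 : Nat.Coprime (k + 1) k := by simp
    exact Nat.Coprime.coprime_dvd_left (hk ▸ Dvd.intro _ rfl) h4
  have h5 : p ^ e ∣ t := by
    have := Nat.dvd_of_mod_eq_zero h3
    exact hcop.dvd_of_dvd_mul_right this
  obtain ⟨s, rfl⟩ := h5
  have hs1 : 1 ≤ s := by
    rcases Nat.eq_zero_or_pos s with rfl | h
    · simp at hj2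
    · exact h
  have hsm : s < m := by
    have : p ^ e * s < p ^ e * m := by omega
    exact Nat.lt_of_mul_lt_mul_left this
  have h6 := hcon (e + e)
  rw [pow_add] at h6
  have h7 : k % (p ^ e * p ^ e) = k := by
    apply Nat.mod_eq_of_lt
    have : p ^ e * m ≤ p ^ e * p ^ e := Nat.mul_le_mul_left _ hle
    omega
  have h8 : (p ^ e * s * k) % (p ^ e * p ^ e) = p ^ e * ((s * k) % p ^ e) := by
    rw [mul_assoc, Nat.mul_mod_mul_left]
  have h9 : (s * k) % p ^ e + s = p ^ e := by
    have hd : p ^ e ∣ s * k + (s - 1) + 1 := by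
      have : s * k + (s - 1) + 1 = s * (k + 1) := by rw [mul_add]; omega
      rw [this, hk]
      exact Dvd.dvd.mul_left (Dvd.intro _ rfl) s
    have := compl_mod hqpos hd
    rw [Nat.mod_eq_of_lt (show s - 1 < p ^ e by omega)] at this
    omega
  rw [h7, h8] at h6
  have h10 : p ^ e * ((s * k) % p ^ e) + p ^ e * s = p ^ e * p ^ e := by
    rw [← mul_add, h9]
  have h11 : p ^ e * s + p ^ e ≤ p ^ e * m := by
    rw [← Nat.mul_succ]; exact Nat.mul_le_mul_left _ hsm
  omega

end Pool.Agent.V11276.GBin
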