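import Pool.Agent.V11276.TM

/-! Colored binary partitions: section operator and the algebra generated by `4x/(1-x)^2`. -/

namespace Pool.Agent.V11276.CB

open PowerSeries

/-- even section -/
noncomputable def E (f : ℤ⟦X⟧) : ℤ⟦X⟧ := mk fun n => coeff (2 * n) f

theorem coeff_E (f : ℤ⟦X⟧) (n : ℕ) : coeff n (E f) = coeff (2 * n) f := by
  unfold E; rw [coeff_mk]

theorem E_add (f g : ℤ⟦X⟧) : E (f + g) = E f + E g := by
  ext n; rw [coeff_E, map_add, map_add, coeff_E, coeff_E]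

theorem E_sub (f g : ℤ⟦X⟧) : E (f - g) = E f - E g := by
  ext n; rw [coeff_E, map_sub, map_sub, coeff_E, coeff_E]

/-- `expand` by two -/
noncomputable def ex (f : ℤ⟦X⟧) : ℤ⟦X⟧ := expand 2 two_ne_zero f

theorem E_ex (f : ℤ⟦X⟧) : E (ex f) = f := by
  ext n
  rw [coeff_E]
  exact coeff_expand_mul 2 two_ne_zero f n

theorem E_X_ex (f : ℤ⟦X⟧) : E (X * ex f) = 0 := by
  ext n
  rw [coeff_E, map_zero]
  cases n with
  | zero => simp
  | succ n =>
    rw [show 2 * (n + 1) = 2 * n + 1 + 1 by ring, coeff_succ_X_mul]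
    exact coeff_expand_of_not_dvd 2 two_ne_zero f (by omega)

theorem decomp (f : ℤ⟦X⟧) : f = ex (E f) + X * ex (mk fun n => coeff (2 * n + 1) f) := by
  ext n
  rcases Nat.even_or_odd' n with ⟨k, h | h⟩
  · subst h
    rw [map_add]
    have h1 : coeff (2 * k) (ex (E f)) = coeff (2 * k) f := by
      rw [← coeff_E (ex (E f)), E_ex, coeff_E]
    have h2 : coeff (2 * k) (X * ex (mk fun n => coeff (2 * n + 1) f)) = 0 := by
      rw [← coeff_E, E_X_ex, map_zero]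
    rw [h1, h2, add_zero]
  · subst h
    rw [map_add, coeff_succ_X_mul]
    have h1 : coeff (2 * k + 1) (ex (E f)) = 0 :=
      coeff_expand_of_not_dvd 2 two_ne_zero _ (by omega)
    have h2 : coeff (2 * k) (ex (mk fun n => coeff (2 * n + 1) f)) = coeff (2 * k + 1) f := by
      have := coeff_expand_mul 2 two_ne_zero (mk fun n => coeff (2 * n + 1) f) k
      rw [coeff_mk] at this
      exact this
    rw [h1, h2, zero_add]

theorem ex_mul (f g : ℤ⟦X⟧) : ex (f * g) = ex f * ex g := map_mul _ _ _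
theorem ex_add (f g : ℤ⟦X⟧) : ex (f + g) = ex f + ex g := map_add _ _ _
theorem ex_sub (f g : ℤ⟦X⟧) : ex (f - g) = ex f - ex g := map_sub _ _ _
theorem ex_one : ex 1 = 1 := map_one _
theorem ex_pow (f : ℤ⟦X⟧) (n : ℕ) : ex (f ^ n) = ex f ^ n := map_pow _ _ _

theorem E_ex_mul (a f : ℤ⟦X⟧) : E (ex a * f) = a * E f := by
  conv_lhs => rw [decomp f]
  have : ex a * (ex (E f) + X * ex (mk fun n => coeff (2 * n + 1) f)) =
      ex (a * E f) + X * ex (a * (mk fun n => coeff (2 * n + 1) f)) := by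
    rw [ex_mul, ex_mul]; ring
  rw [this, E_add, E_ex, E_X_ex, add_zero]

theorem ex_C (c : ℤ) : ex (C c) = C c := expand_C 2 two_ne_zero c

theorem E_C_mul (c : ℤ) (f : ℤ⟦X⟧) : E (C c * f) = C c * E f := by
  have := E_ex_mul (C c) f
  rwa [ex_C] at this

theorem E_one : E 1 = 1 := by
  have := E_ex 1
  rwa [ex_one] at this

/-- `1/(1-x)` -/
noncomputable def io : ℤ⟦X⟧ := mk 1

theorem io_mul : io * (1 - X) = 1 := mk_one_mul_one_sub_eq_one ℤ

/-- `(1+x)/(1-x)` -/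
noncomputable def v : ℤ⟦X⟧ := (1 + X) * io

/-- `4x/(1-x)^2` -/
noncomputable def z : ℤ⟦X⟧ := 4 * (X * io ^ 2)

theorem v_sq : v ^ 2 = 1 + z := by
  unfold v z
  linear_combination (io * (1 - X) + 1) * io_mul

theorem ex_io : ex io * (1 + X) = io := by
  have h := congrArg ex io_mul
  have hX : ex X = X ^ 2 := expand_X 2 two_ne_zero
  rw [ex_mul, ex_sub, ex_one, hX] at h
  linear_combination io * h - (ex io * (1 + X)) * io_mul

theorem v_rel : v ^ 2 = 2 * ex v * v - 1 := by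
  have hX : ex X = X ^ 2 := expand_X 2 two_ne_zero
  have h : ex v = (1 + X ^ 2) * ex io := by
    unfold v; rw [ex_mul, ex_add, ex_one, hX]
  rw [h]
  unfold v
  have h1 := ex_io
  have h2 := io_mul
  linear_combination (-2 * (1 + X ^ 2) * io) * h1 + (-io * (1 - X) - 1) * h2

theorem E_v : E v = v := by
  have h : v = 1 + 2 * (X * io) := by
    unfold v
    linear_combination io_mul
  have h2 : E (X * io) = X * io := by
    ext n
    rw [coeff_E]
    cases n with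
    | zero => simp
    | succ n =>
      rw [show 2 * (n + 1) = 2 * n + 1 + 1 by ring, coeff_succ_X_mul, coeff_succ_X_mul]
      unfold io
      simp
  have e2 : (2 : ℤ⟦X⟧) = C 2 := (map_ofNat C 2).symm
  rw [h, E_add, E_one, e2, E_C_mul, h2]

theorem E_z : E z = 2 * z := by
  have h : z = ex v * (C 2 * v) - C 2 := by
    have e2 : (2 : ℤ⟦X⟧) = C 2 := (map_ofNat C 2).symm
    rw [← e2]
    linear_combination -v_sq + v_rel
  have e2 : (2 : ℤ⟦X⟧) = C 2 := (map_ofNat C 2).symm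
  have e3 : E (C 2) = C 2 := by
    have := E_C_mul 2 1
    rwa [mul_one, E_one, mul_one] at this
  conv_lhs => rw [h]
  rw [E_sub, E_ex_mul, E_C_mul, E_v, e3, ← e2]
  linear_combination 2 * v_sq

theorem z_rel : z ^ 2 = 4 * ex z * (z + 1) := by
  have h1 := v_sq
  have h2 := v_rel
  have h3 := congrArg ex v_sq
  rw [ex_pow, ex_add, ex_one] at h3
  generalize ex v = V at *
  generalize ex z = Z at *
  have hz : z = v ^ 2 - 1 := by linear_combination -h1
  rw [hz]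
  linear_combination (v ^ 2 + 1 + 2 * V * v) * h2 + (4 * v ^ 2) * h3

theorem E_zsq (f : ℤ⟦X⟧) : E (z ^ 2 * f) = 4 * z * (E (z * f) + E f) := by
  have e4 : (4 : ℤ⟦X⟧) = C 4 := (map_ofNat C 4).symm
  have h : z ^ 2 * f = ex z * (C 4 * (z * f) + C 4 * f) := by
    rw [z_rel, ← e4]; ring
  rw [h, E_ex_mul, E_add, E_C_mul, E_C_mul, ← e4]
  ring

theorem E_vz : E (v * z) = 4 * (v * z) := by
  have e2 : (2 : ℤ⟦X⟧) = C 2 := (map_ofNat C 2).symm
  have h : v * z = ex v * (ex v * (C 4 * v) - C 4 * 1) + ex 1 * (C 2 * v) - ex v * (C 2 * 1) +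
      ex v * (C 4 * 1) - ex 1 * (C 4 * v) := by
    have e4 : (4 : ℤ⟦X⟧) = C 4 := (map_ofNat C 4).symm
    rw [← e4, ← e2, ex_one]
    have h1 := v_sq
    have h2 := v_rel
    generalize ex v = V at *
    linear_combination (-v) * h1 + (v + 2 * V) * h2
  rw [h]
  simp only [E_add, E_sub, E_ex_mul, E_C_mul, E_v, E_one]
  have e4 : (4 : ℤ⟦X⟧) = C 4 := (map_ofNat C 4).symm
  have h1 := v_sq
  rw [← h, ← e2, ← e4]
  linear_combination (4 * v) * h1

/-- the algebra generated by `z` -/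
noncomputable def P : Subalgebra ℤ ℤ⟦X⟧ := Algebra.adjoin ℤ {z}

theorem z_mem : z ∈ P := Algebra.subset_adjoin rfl

theorem mem_P {f : ℤ⟦X⟧} : f ∈ P ↔ ∃ h : Polynomial ℤ, Polynomial.aeval z h = f := by
  unfold P
  rw [Algebra.adjoin_singleton_eq_range_aeval]
  rfl

theorem C_mem (c : ℤ) : (C c : ℤ⟦X⟧) ∈ P := P.algebraMap_mem c

theorem two_mem : (2 : ℤ⟦X⟧) ∈ P := by
  have := C_mem 2
  rwa [map_ofNat] at this

theorem four_mem : (4 : ℤ⟦X⟧) ∈ P := by
  have := C_mem 4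
  rwa [map_ofNat] at this

theorem split_P {f : ℤ⟦X⟧} (hf : f ∈ P) : ∃ c : ℤ, ∃ g ∈ P, f = C c + z * g := by
  obtain ⟨h, rfl⟩ := mem_P.1 hf
  refine ⟨h.coeff 0, Polynomial.aeval z h.divX, mem_P.2 ⟨_, rfl⟩, ?_⟩
  conv_lhs => rw [← Polynomial.X_mul_divX_add h]
  rw [map_add, map_mul, Polynomial.aeval_X, Polynomial.aeval_C]
  rw [add_comm]
  rfl

theorem E_zpow_mem (j : ℕ) : E (z ^ j) ∈ P := by
  induction j using Nat.strong_induction_on with
  | _ j ih =>
    match j with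
    | 0 => rw [pow_zero, E_one]; exact P.one_mem
    | 1 => rw [pow_one, E_z]; exact P.mul_mem two_mem z_mem
    | j + 2 =>
      have : z ^ (j + 2) = z ^ 2 * z ^ j := by ring
      rw [this, E_zsq]
      have e : z * z ^ j = z ^ (j + 1) := by ring
      rw [e]
      exact P.mul_mem (P.mul_mem four_mem z_mem) (P.add_mem (ih _ (by omega)) (ih _ (by omega)))

theorem E_mem {f : ℤ⟦X⟧} (hf : f ∈ P) : E f ∈ P := by
  obtain ⟨h, rfl⟩ := mem_P.1 hf
  induction h using Polynomial.induction_on' with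
  | add p q hp hq =>
    rw [map_add, E_add]
    exact P.add_mem (hp (mem_P.2 ⟨_, rfl⟩)) (hq (mem_P.2 ⟨_, rfl⟩))
  | monomial n a =>
    rw [Polynomial.aeval_monomial]
    have : (algebraMap ℤ ℤ⟦X⟧) a = C a := rfl
    rw [this, E_C_mul]
    exact P.mul_mem (C_mem a) (E_zpow_mem n)

theorem E_vzpow_mem (j : ℕ) : ∃ g ∈ P, E (v * z ^ j) = v * g := by
  induction j using Nat.strong_induction_on with
  | _ j ih =>
    match j with
    | 0 => exact ⟨1, P.one_mem, by rw [pow_zero, mul_one, E_v]⟩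
    | 1 => exact ⟨4 * z, P.mul_mem four_mem z_mem, by rw [pow_one, E_vz]; ring⟩
    | j + 2 =>
      obtain ⟨g1, h1, e1⟩ := ih (j + 1) (by omega)
      obtain ⟨g0, h0, e0⟩ := ih j (by omega)
      refine ⟨4 * z * (g1 + g0), P.mul_mem (P.mul_mem four_mem z_mem) (P.add_mem h1 h0), ?_⟩
      have : v * z ^ (j + 2) = z ^ 2 * (v * z ^ j) := by ring
      rw [this, E_zsq]
      have e : z * (v * z ^ j) = v * z ^ (j + 1) := by ring
      rw [e, e1, e0]; ring

theorem Ev_mem {f : ℤ⟦X⟧} (hf : f ∈ P) : ∃ g ∈ P, E (v * f) = v * g := by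
  obtain ⟨h, rfl⟩ := mem_P.1 hf
  induction h using Polynomial.induction_on' with
  | add p q hp hq =>
    obtain ⟨g1, h1, e1⟩ := hp (mem_P.2 ⟨_, rfl⟩)
    obtain ⟨g2, h2, e2⟩ := hq (mem_P.2 ⟨_, rfl⟩)
    refine ⟨g1 + g2, P.add_mem h1 h2, ?_⟩
    rw [map_add, mul_add, E_add, e1, e2]; ring
  | monomial n a =>
    obtain ⟨g, h, e⟩ := E_vzpow_mem n
    refine ⟨C a * g, P.mul_mem (C_mem a) h, ?_⟩
    rw [Polynomial.aeval_monomial]
    have h2 : (algebraMap ℤ ℤ⟦X⟧) a = C a := rfl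
    have h3 : v * (C a * z ^ n) = C a * (v * z ^ n) := by ring
    rw [h2, h3, E_C_mul, e]; ring

/-- `E (z (b + z q)) = 2 z (b + 2 q')` -/
theorem E_zP (b : ℤ) {q : ℤ⟦X⟧} (hq : q ∈ P) :
    ∃ q' ∈ P, E (z * (C b + z * q)) = 2 * z * (C b + 2 * q') := by
  refine ⟨E (z * q) + E q, P.add_mem (E_mem (P.mul_mem z_mem hq)) (E_mem hq), ?_⟩
  have : z * (C b + z * q) = C b * z + z ^ 2 * q := by ring
  rw [this, E_add, E_C_mul, E_z, E_zsq]; ring

theorem E_zP' {f : ℤ⟦X⟧} (hf : f ∈ P) : ∃ g ∈ P, E (z * f) = 2 * (z * g) := by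
  obtain ⟨c, q, hq, rfl⟩ := split_P hf
  obtain ⟨q', h', e⟩ := E_zP c hq
  exact ⟨C c + 2 * q', P.add_mem (C_mem c) (P.mul_mem two_mem h'), by rw [e]; ring⟩

theorem E_vzP {f : ℤ⟦X⟧} (hf : f ∈ P) : ∃ g ∈ P, E (v * (z * f)) = 4 * (v * (z * g)) := by
  obtain ⟨c, q, hq, rfl⟩ := split_P hf
  obtain ⟨g1, h1, e1⟩ := Ev_mem (P.mul_mem z_mem hq)
  obtain ⟨g0, h0, e0⟩ := Ev_mem hq
  refine ⟨C c + (g1 + g0), P.add_mem (C_mem c) (P.add_mem h1 h0), ?_⟩
  have : v * (z * (C c + z * q)) = C c * (v * z) + z ^ 2 * (v * q) := by ring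
  have e : z * (v * q) = v * (z * q) := by ring
  rw [this, E_add, E_C_mul, E_vz, E_zsq, e, e1, e0]; ring

end Pool.Agent.V11276.CB
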