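import Pool.Agent.V11276.TM

/-! The fifth power of the Thue-Morse product. -/

namespace Pool.Agent.V11276.TM

theorem t5e (q : ℕ) : t 5 (2 * q + 4) = t 5 (q + 2) + 10 * t 5 (q + 1) + 5 * t 5 q := by
  have h := t_even 2 q
  rw [show 2 * (q + 2) = 2 * q + 4 by ring] at h
  norm_num [Finset.sum_range_succ, Nat.choose] at h
  rw [h]

theorem t5o (q : ℕ) : t 5 (2 * q + 5) = -(5 * t 5 (q + 2) + 10 * t 5 (q + 1) + t 5 q) := by
  have h := t_odd 2 q
  rw [show 2 * (q + 2) + 1 = 2 * q + 5 by ring] at h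
  norm_num [Finset.sum_range_succ, Nat.choose] at h
  rw [h]; ring

theorem t5_1 : t 5 1 = -5 := by
  rw [t_rec]; norm_num [Finset.sum_range_succ, Nat.choose, t_zero]

theorem t5_2 : t 5 2 = 5 := by
  rw [t_rec]; norm_num [Finset.sum_range_succ, Nat.choose, t_zero, t5_1]

theorem t5_3 : t 5 3 = 15 := by
  rw [t_rec]; norm_num [Finset.sum_range_succ, Nat.choose, t_zero, t5_1]

/-- class of even blocks -/
def I0 (a b c d : ℤ) : Prop :=
  (a + b + c + d) % 32 = 16 ∧ (b + 3 * d) % 16 = 8 ∧ (c + 5 * d) % 16 = 0 ∧ d % 2 = 1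

/-- class of odd blocks -/
def I1 (a b c d : ℤ) : Prop :=
  (a + b + c + d) % 32 = 0 ∧ (b + 3 * d) % 16 = 0 ∧ (c + 5 * d) % 16 = 0 ∧ d % 2 = 0

theorem I_odd_of0 {a b c d : ℤ} (h : I0 a b c d) :
    I1 (c + 10 * b + 5 * a) (-(5 * c + 10 * b + a)) (d + 10 * c + 5 * b) (-(5 * d + 10 * c + b)) := by
  unfold I0 I1 at *; omega

theorem I_odd_of1 {a b c d : ℤ} (h : I1 a b c d) :
    I1 (c + 10 * b + 5 * a) (-(5 * c + 10 * b + a)) (d + 10 * c + 5 * b) (-(5 * d + 10 * c + b)) := by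
  unfold I1 at *; omega

theorem I_even_of01 {a b c d a' b' c' d' : ℤ} (h : I0 a b c d) (h' : I1 a' b' c' d') :
    I0 (a + 10 * d' + 5 * c') (-(5 * a + 10 * d' + c')) (b + 10 * a + 5 * d')
      (-(5 * b + 10 * a + d')) := by
  unfold I0 I1 at *; omega

theorem I_even_of10 {a b c d a' b' c' d' : ℤ} (h : I1 a b c d) (h' : I0 a' b' c' d') :
    I0 (a + 10 * d' + 5 * c') (-(5 * a + 10 * d' + c')) (b + 10 * a + 5 * d')
      (-(5 * b + 10 * a + d')) := by
  unfold I0 I1 at *; omega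

theorem inv5 (N : ℕ) :
    (N % 2 = 0 → I0 (t 5 (4 * N)) (t 5 (4 * N + 1)) (t 5 (4 * N + 2)) (t 5 (4 * N + 3))) ∧
    (N % 2 = 1 → I1 (t 5 (4 * N)) (t 5 (4 * N + 1)) (t 5 (4 * N + 2)) (t 5 (4 * N + 3))) := by
  induction N using Nat.strong_induction_on with
  | _ N ih =>
    rcases Nat.even_or_odd' N with ⟨M, h | h⟩
    · subst h
      refine ⟨fun _ => ?_, fun h => by omega⟩
      cases M with
      | zero =>
        norm_num [t_zero, t5_1, t5_2, t5_3, I0]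
      | succ M =>
        have e0 : t 5 (4 * (2 * (M + 1))) = t 5 (4 * (M + 1)) + 10 * t 5 (4 * M + 3) +
            5 * t 5 (4 * M + 2) := by
          have := t5e (4 * M + 2)
          rw [show 4 * (2 * (M + 1)) = 2 * (4 * M + 2) + 4 by ring, this]
          rfl
        have e1 : t 5 (4 * (2 * (M + 1)) + 1) = -(5 * t 5 (4 * (M + 1)) + 10 * t 5 (4 * M + 3) +
            t 5 (4 * M + 2)) := by
          have := t5o (4 * M + 2)
          rw [show 4 * (2 * (M + 1)) + 1 = 2 * (4 * M + 2) + 5 by ring, this]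
          rfl
        have e2 : t 5 (4 * (2 * (M + 1)) + 2) = t 5 (4 * (M + 1) + 1) + 10 * t 5 (4 * (M + 1)) +
            5 * t 5 (4 * M + 3) := by
          have := t5e (4 * M + 3)
          rw [show 4 * (2 * (M + 1)) + 2 = 2 * (4 * M + 3) + 4 by ring, this]
          rfl
        have e3 : t 5 (4 * (2 * (M + 1)) + 3) = -(5 * t 5 (4 * (M + 1) + 1) +
            10 * t 5 (4 * (M + 1)) + t 5 (4 * M + 3)) := by
          have := t5o (4 * M + 3)
          rw [show 4 * (2 * (M + 1)) + 3 = 2 * (4 * M + 3) + 5 by ring, this]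
          rfl
        rw [e0, e1, e2, e3]
        have i1 := ih (M + 1) (by omega)
        have i2 := ih M (by omega)
        rcases Nat.mod_two_eq_zero_or_one M with hM | hM
        · exact I_even_of10 (i1.2 (by omega)) (i2.1 hM)
        · exact I_even_of01 (i1.1 (by omega)) (i2.2 hM)
    · subst h
      refine ⟨fun h => by omega, fun _ => ?_⟩
      have e0 : t 5 (4 * (2 * M + 1)) = t 5 (4 * M + 2) + 10 * t 5 (4 * M + 1) +
          5 * t 5 (4 * M) := by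
        have := t5e (4 * M)
        rw [show 4 * (2 * M + 1) = 2 * (4 * M) + 4 by ring, this]
      have e1 : t 5 (4 * (2 * M + 1) + 1) = -(5 * t 5 (4 * M + 2) + 10 * t 5 (4 * M + 1) +
          t 5 (4 * M)) := by
        have := t5o (4 * M)
        rw [show 4 * (2 * M + 1) + 1 = 2 * (4 * M) + 5 by ring, this]
      have e2 : t 5 (4 * (2 * M + 1) + 2) = t 5 (4 * M + 3) + 10 * t 5 (4 * M + 2) +
          5 * t 5 (4 * M + 1) := by
        have := t5e (4 * M + 1)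
        rw [show 4 * (2 * M + 1) + 2 = 2 * (4 * M + 1) + 4 by ring, this]
      have e3 : t 5 (4 * (2 * M + 1) + 3) = -(5 * t 5 (4 * M + 3) + 10 * t 5 (4 * M + 2) +
          t 5 (4 * M + 1)) := by
        have := t5o (4 * M + 1)
        rw [show 4 * (2 * M + 1) + 3 = 2 * (4 * M + 1) + 5 by ring, this]
      rw [e0, e1, e2, e3]
      have i2 := ih M (by omega)
      rcases Nat.mod_two_eq_zero_or_one M with hM | hM
      · exact I_odd_of0 (i2.1 hM)
      · exact I_odd_of1 (i2.2 hM)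

end Pool.Agent.V11276.TM

namespace Pool.Agent.V11276.TM

/-- normalised class, even level -/
def P0 (a b c d : ℤ) : Prop :=
  (a + b + 11 * c + 3 * d) % 32 = 0 ∧ (b + 2 * c + 5 * d) % 16 = 0 ∧ c % 2 = 1 ∧ d % 2 = 1

/-- normalised class, odd level -/
def P1 (a b c d : ℤ) : Prop :=
  (a + 5 * b + 3 * c + 7 * d) % 32 = 16 ∧ (b + d) % 4 = 0 ∧ c % 2 = 1 ∧ d % 2 = 1

theorem P0_of_I0 {a b c d : ℤ} (h : I0 a b c d) : P0 a b c d := by
  unfold I0 P0 at *; omega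

theorem P0_odd {a b c d : ℤ} (h : P0 a b c d) : a % 2 = 1 ∧ b % 2 = 1 ∧ c % 2 = 1 ∧ d % 2 = 1 := by
  unfold P0 at *; omega

theorem P1_odd {a b c d : ℤ} (h : P1 a b c d) : a % 2 = 1 ∧ b % 2 = 1 ∧ c % 2 = 1 ∧ d % 2 = 1 := by
  unfold P1 at *; omega

theorem P0_step {a b c d : ℤ} (h : P0 a b c d) : ∃ a' b' c' d' : ℤ,
    c + 10 * b + 5 * a = 8 * a' ∧ -(5 * c + 10 * b + a) = 8 * b' ∧ d + 10 * c + 5 * b = 8 * c' ∧
    -(5 * d + 10 * c + b) = 8 * d' ∧ P1 a' b' c' d' := by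
  refine ⟨(c + 10 * b + 5 * a) / 8, (-(5 * c + 10 * b + a)) / 8, (d + 10 * c + 5 * b) / 8,
    (-(5 * d + 10 * c + b)) / 8, ?_⟩
  unfold P0 P1 at *; omega

theorem P1_step {a b c d : ℤ} (h : P1 a b c d) : ∃ a' b' c' d' : ℤ,
    c + 10 * b + 5 * a = 2 * a' ∧ -(5 * c + 10 * b + a) = 2 * b' ∧ d + 10 * c + 5 * b = 2 * c' ∧
    -(5 * d + 10 * c + b) = 2 * d' ∧ P0 a' b' c' d' := by
  refine ⟨(c + 10 * b + 5 * a) / 2, (-(5 * c + 10 * b + a)) / 2, (d + 10 * c + 5 * b) / 2,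
    (-(5 * d + 10 * c + b)) / 2, ?_⟩
  unfold P0 P1 at *; omega

/-- the exact valuation -/
def A5 (r : ℕ) : ℕ := 4 * ((r + 1) / 2) - r % 2

/-- scaled block -/
def B5 (n e : ℕ) (a b c d : ℤ) : Prop :=
  t 5 (4 * n) = 2 ^ e * a ∧ t 5 (4 * n + 1) = 2 ^ e * b ∧ t 5 (4 * n + 2) = 2 ^ e * c ∧
    t 5 (4 * n + 3) = 2 ^ e * d

theorem B5_step {M e f : ℕ} {a b c d a' b' c' d' : ℤ} (h : B5 M e a b c d)
    (h0 : c + 10 * b + 5 * a = 2 ^ f * a') (h1 : -(5 * c + 10 * b + a) = 2 ^ f * b')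
    (h2 : d + 10 * c + 5 * b = 2 ^ f * c') (h3 : -(5 * d + 10 * c + b) = 2 ^ f * d') :
    B5 (2 * M + 1) (e + f) a' b' c' d' := by
  obtain ⟨g0, g1, g2, g3⟩ := h
  refine ⟨?_, ?_, ?_, ?_⟩
  · have := t5e (4 * M)
    rw [show 4 * (2 * M + 1) = 2 * (4 * M) + 4 by ring, this, g0, g1, g2, pow_add, mul_assoc, ← h0]
    ring
  · have := t5o (4 * M)
    rw [show 4 * (2 * M + 1) + 1 = 2 * (4 * M) + 5 by ring, this, g0, g1, g2, pow_add, mul_assoc,
      ← h1]
    ring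
  · have := t5e (4 * M + 1)
    rw [show 4 * (2 * M + 1) + 2 = 2 * (4 * M + 1) + 4 by ring, this, add_assoc (4 * M) 1 2,
      add_assoc (4 * M) 1 1]
    norm_num
    rw [g1, g2, g3, pow_add, mul_assoc, ← h2]
    ring
  · have := t5o (4 * M + 1)
    rw [show 4 * (2 * M + 1) + 3 = 2 * (4 * M + 1) + 5 by ring, this, add_assoc (4 * M) 1 2,
      add_assoc (4 * M) 1 1]
    norm_num
    rw [g1, g2, g3, pow_add, mul_assoc, ← h3]
    ring

theorem level5 (r : ℕ) : ∀ n o : ℕ, n + 1 = 2 ^ r * (2 * o + 1) →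
    ∃ a b c d : ℤ, B5 n (A5 r) a b c d ∧ (r % 2 = 0 → P0 a b c d) ∧ (r % 2 = 1 → P1 a b c d) := by
  induction r with
  | zero =>
    intro n o h
    have hn : n % 2 = 0 := by rw [pow_zero, one_mul] at h; omega
    refine ⟨_, _, _, _, ⟨?_, ?_, ?_, ?_⟩, fun _ => P0_of_I0 ((inv5 n).1 hn), fun h => by omega⟩ <;>
    simp [A5]
  | succ r ih =>
    intro n o h
    obtain ⟨M, rfl⟩ : ∃ M, n = 2 * M + 1 := by
      rw [pow_succ] at h
      exact ⟨2 ^ r * (2 * o + 1) - 1, by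
        have : 0 < 2 ^ r * (2 * o + 1) := by positivity
        have e : 2 ^ r * 2 * (2 * o + 1) = 2 * (2 ^ r * (2 * o + 1)) := by ring
        omega⟩
    have hM : M + 1 = 2 ^ r * (2 * o + 1) := by
      rw [pow_succ] at h
      have e : 2 ^ r * 2 * (2 * o + 1) = 2 * (2 ^ r * (2 * o + 1)) := by ring
      omega
    obtain ⟨a, b, c, d, hB, hP0, hP1⟩ := ih M o hM
    rcases Nat.mod_two_eq_zero_or_one r with hr | hr
    · obtain ⟨a', b', c', d', h0, h1, h2, h3, hP⟩ := P0_step (hP0 hr)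
      refine ⟨a', b', c', d', ?_, fun h => by omega, fun _ => hP⟩
      have := B5_step (f := 3) hB h0 h1 h2 h3
      have e : A5 (r + 1) = A5 r + 3 := by unfold A5; omega
      rw [e]; exact this
    · obtain ⟨a', b', c', d', h0, h1, h2, h3, hP⟩ := P1_step (hP1 hr)
      refine ⟨a', b', c', d', ?_, fun _ => hP, fun h => by omega⟩
      have := B5_step (f := 1) hB h0 h1 h2 h3
      have e : A5 (r + 1) = A5 r + 1 := by unfold A5; omega
      rw [e]; exact this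

theorem emult_of_odd {x a : ℤ} {e : ℕ} (h : x = 2 ^ e * a) (ha : a % 2 = 1) :
    emultiplicity 2 x = e := by
  rw [emultiplicity_eq_coe]
  refine ⟨⟨a, h⟩, ?_⟩
  rintro ⟨b, hb⟩
  rw [h, pow_succ, mul_assoc] at hb
  have := mul_left_cancel₀ (pow_ne_zero e (by norm_num : (2 : ℤ) ≠ 0)) hb
  omega

theorem exists_odd_part (n : ℕ) : ∃ o, n + 1 = 2 ^ (padicValNat 2 (n + 1)) * (2 * o + 1) := by
  obtain ⟨k, m, hm, h⟩ := Nat.exists_eq_two_pow_mul_odd (n := n + 1) (by omega)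
  obtain ⟨o, rfl⟩ := hm
  have : padicValNat 2 (n + 1) = k := by
    rw [h, padicValNat.mul (by positivity) (by omega), padicValNat.prime_pow,
      padicValNat.eq_zero_of_not_dvd (by omega), add_zero]
  exact ⟨o, by rw [this]; exact h⟩

theorem val5 (n j : ℕ) (hj : j < 4) :
    emultiplicity (2 : ℤ) (t 5 (4 * n + j)) = (A5 (padicValNat 2 (n + 1)) : ℕ) := by
  obtain ⟨o, ho⟩ := exists_odd_part n
  obtain ⟨a, b, c, d, ⟨h0, h1, h2, h3⟩, hP0, hP1⟩ := level5 _ n o ho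
  have hodd : a % 2 = 1 ∧ b % 2 = 1 ∧ c % 2 = 1 ∧ d % 2 = 1 := by
    rcases Nat.mod_two_eq_zero_or_one (padicValNat 2 (n + 1)) with hr | hr
    · exact P0_odd (hP0 hr)
    · exact P1_odd (hP1 hr)
  obtain ⟨ha, hb, hc, hd⟩ := hodd
  interval_cases j
  · exact emult_of_odd h0 ha
  · exact emult_of_odd h1 hb
  · exact emult_of_odd h2 hc
  · exact emult_of_odd h3 hd

end Pool.Agent.V11276.TM
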