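import Pool.Agent.V11276.CB
import Pool.Agent.V11276.TM2

/-! Colored binary partitions: the generating function and the even case. -/

namespace Pool.Agent.V11276.CB

open PowerSeries

/-- `(1-x) ∏ (1 - x^(2^i))` -/
noncomputable def H : ℤ⟦X⟧ := (1 - X) * TM.F

theorem H_eq : (1 + X) * H = (1 - X) * ex H := by
  have h : TM.F = (1 - X) * ex TM.F := TM.F_eq
  have hX : ex X = X ^ 2 := expand_X 2 two_ne_zero
  have h2 : ex H = (1 - X ^ 2) * ex TM.F := by
    unfold H; rw [ex_mul, ex_sub, ex_one, hX]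
  rw [h2]
  unfold H
  linear_combination (1 + X) * (1 - X) * h

theorem F_const : constantCoeff TM.F = 1 := by
  have := TM.t_zero 1
  unfold TM.t at this
  rwa [pow_one, coeff_zero_eq_constantCoeff_apply] at this

theorem H_const : constantCoeff H = 1 := by
  unfold H; rw [map_mul, F_const]; simp

theorem H_v : H * v = ex H := by
  have h := H_eq
  unfold v
  linear_combination io * h + ex H * io_mul

/-- generating function of colored binary partitions -/
noncomputable def G (m : ℕ) : ℤ⟦X⟧ := invOfUnit (H ^ m) 1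

theorem G_spec (m : ℕ) : H ^ m * G m = 1 :=
  mul_invOfUnit _ _ (by rw [map_pow, H_const]; simp)

theorem G_eq (m : ℕ) : G m = v ^ m * ex (G m) := by
  have h1 := G_spec m
  have h2 : H ^ m * (v ^ m * ex (G m)) = 1 := by
    rw [← mul_assoc, ← mul_pow, H_v, ← ex_pow, ← ex_mul, h1, ex_one]
  linear_combination (v ^ m * ex (G m)) * h1 - G m * h2

/-- transfer operator -/
noncomputable def Te (m : ℕ) (f : ℤ⟦X⟧) : ℤ⟦X⟧ := E (v ^ m * f)

theorem E_G_mul (m : ℕ) (f : ℤ⟦X⟧) : E (G m * f) = G m * Te m f := by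
  have : G m * f = ex (G m) * (v ^ m * f) := by
    conv_lhs => rw [G_eq]
    ring
  rw [this, E_ex_mul]; rfl

theorem iter_G_mul (m a : ℕ) (f : ℤ⟦X⟧) : E^[a] (G m * f) = G m * (Te m)^[a] f := by
  induction a generalizing f with
  | zero => rfl
  | succ a ih => rw [Function.iterate_succ_apply, E_G_mul, ih, Function.iterate_succ_apply]

theorem coeff_iter (a n : ℕ) (f : ℤ⟦X⟧) : coeff n (E^[a] f) = coeff (2 ^ a * n) f := by
  induction a generalizing f n with
  | zero => simp
  | succ a ih =>
    rw [Function.iterate_succ_apply, ih, coeff_E, ← mul_assoc, pow_succ, mul_comm (2 ^ a) 2]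

theorem Te_sub (m : ℕ) (f g : ℤ⟦X⟧) : Te m (f - g) = Te m f - Te m g := by
  unfold Te; rw [mul_sub, E_sub]

theorem Te_iter_sub (m a : ℕ) (f g : ℤ⟦X⟧) :
    (Te m)^[a] (f - g) = (Te m)^[a] f - (Te m)^[a] g := by
  induction a generalizing f g with
  | zero => rfl
  | succ a ih => rw [Function.iterate_succ_apply, Te_sub, ih]; rfl

theorem diff_eq (m a t : ℕ) : coeff (4 * (2 ^ a * t)) (G m) - coeff (2 ^ a * t) (G m) =
    coeff t (G m * (Te m)^[a] (Te m (Te m 1) - 1)) := by
  have h0 : ∀ b : ℕ, coeff t (G m * (Te m)^[b] 1) = coeff (2 ^ b * t) (G m) := by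
    intro b
    rw [← iter_G_mul, mul_one, coeff_iter]
  have h : (Te m)^[a] (Te m (Te m 1)) = (Te m)^[a + 2] 1 := by
    rw [Function.iterate_add_apply]; rfl
  rw [Te_iter_sub, mul_sub, map_sub, h, h0, h0]
  congr 2
  rw [pow_add]; ring_nf

/-- `x/(1-x)^2` -/
noncomputable def u : ℤ⟦X⟧ := X * io ^ 2

theorem z_eq : z = 4 * u := rfl

theorem coeff_u (n : ℕ) : coeff n u = n := by
  unfold u io
  cases n with
  | zero => simp
  | succ n =>
    rw [coeff_succ_X_mul, show (2 : ℕ) = 1 + 1 by rfl, mk_one_pow_eq_mk_choose_add, coeff_mk]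
    simp [add_comm]

theorem G_const (m : ℕ) : constantCoeff (G m) = 1 := by
  have h := congrArg constantCoeff (G_spec m)
  rw [map_mul, map_pow, H_const, one_pow, one_mul, map_one] at h
  exact h

/-- reduction mod 2 -/
noncomputable def red : ℤ⟦X⟧ →+* (ZMod 2)⟦X⟧ := PowerSeries.map (Int.castRingHom (ZMod 2))

theorem red_two : red 2 = 0 := by
  rw [map_ofNat]
  have : (2 : (ZMod 2)⟦X⟧) = C (2 : ZMod 2) := (map_ofNat C 2).symm
  rw [this]
  have h : (2 : ZMod 2) = 0 := by decide
  rw [h, map_zero]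

theorem red_v : red v = 1 := by
  have h : v = 1 + 2 * (X * io) := by
    unfold v
    linear_combination io_mul
  rw [h, map_add, map_mul, red_two, map_one]; simp

theorem red_z : red z = 0 := by
  have : z = 2 * (2 * u) := by rw [z_eq]; ring
  rw [this, map_mul, red_two, zero_mul]

theorem G_even (m n : ℕ) (hn : 0 < n) : (2 : ℤ) ∣ coeff n (G m) := by
  induction n using Nat.strong_induction_on with
  | _ n ih =>
    have h : red (G m) = red (ex (G m)) := by
      conv_lhs => rw [G_eq]
      rw [map_mul, map_pow, red_v, one_pow, one_mul]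
    have h2 := congrArg (coeff n) h
    unfold red at h2
    rw [coeff_map, coeff_map] at h2
    have h3 : (2 : ℤ) ∣ coeff n (G m) - coeff n (ex (G m)) := by
      exact (ZMod.intCast_eq_intCast_iff_dvd_sub _ _ 2).1 h2.symm
    rcases Nat.even_or_odd' n with ⟨k, hk | hk⟩
    · subst hk
      have e : coeff (2 * k) (ex (G m)) = coeff k (G m) := coeff_expand_mul 2 two_ne_zero _ k
      rw [e] at h3
      have := ih k (by omega) (by omega)
      omega
    · subst hk
      have e : coeff (2 * k + 1) (ex (G m)) = 0 :=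
        coeff_expand_of_not_dvd 2 two_ne_zero _ (by omega)
      rw [e, sub_zero] at h3
      exact h3

theorem red_G (m : ℕ) : red (G m) = 1 := by
  ext n
  unfold red
  rw [coeff_map, coeff_one]
  split_ifs with h
  · subst h
    rw [coeff_zero_eq_constantCoeff_apply, G_const]; simp
  · have := G_even m n (by omega)
    simpa using (ZMod.intCast_zmod_eq_zero_iff_dvd _ 2).2 (by exact_mod_cast this)

/-- key class -/
def K (s : ℕ) (g : ℤ⟦X⟧) : Prop := ∃ b : ℤ, ∃ q ∈ P, Odd b ∧ g = 2 ^ s * (z * (C b + z * q))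

theorem K_coeff {s : ℕ} {g : ℤ⟦X⟧} (h : K s g) (m t : ℕ) (ht : Odd t) :
    emultiplicity 2 (coeff t (G m * g)) = (s + 2 : ℕ) := by
  obtain ⟨b, q, hq, hb, rfl⟩ := h
  refine TM.emult_of_odd (a := coeff t (G m * (u * (C b + z * q)))) ?_ ?_
  · have : G m * (2 ^ s * (z * (C b + z * q))) = C (2 ^ (s + 2)) * (G m * (u * (C b + z * q))) := by
      have e : (C (2 ^ (s + 2)) : ℤ⟦X⟧) = 2 ^ s * 4 := by
        rw [map_pow, map_ofNat, pow_add]; norm_num
      rw [e]
      conv_lhs => rw [show z * (C b + z * q) = 4 * u * (C b + z * q) by rw [← z_eq]]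
      ring
    rw [this, coeff_C_mul]
  · have h1 : red (G m * (u * (C b + z * q))) = red u := by
      rw [map_mul, map_mul, map_add, map_mul, red_G, red_z]
      have : red (C b) = 1 := by
        unfold red
        rw [map_C]
        have : (Int.castRingHom (ZMod 2)) b = 1 := by
          rcases hb with ⟨c, rfl⟩
          simp
          left
          decide
        rw [this, map_one]
      rw [this]; ring
    have h2 := congrArg (coeff t) h1
    unfold red at h2
    rw [coeff_map, coeff_map, coeff_u] at h2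
    have h3 : ((coeff t (G m * (u * (C b + z * q))) : ℤ) : ZMod 2) = ((t : ℤ) : ZMod 2) := h2
    have h4 := (ZMod.intCast_eq_intCast_iff_dvd_sub _ _ 2).1 h3
    rcases ht with ⟨c, rfl⟩
    push_cast at h4
    omega

end Pool.Agent.V11276.CB
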