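import Pool.Agent.V11276.CB2

/-! Colored binary partitions: even number of colors. -/

namespace Pool.Agent.V11276.CB

open PowerSeries

theorem one_add_z_pow (k : ℕ) : ∃ r ∈ P, (1 + z) ^ k = 1 + z * r := by
  induction k with
  | zero => exact ⟨0, P.zero_mem, by ring⟩
  | succ k ih =>
    obtain ⟨r, hr, e⟩ := ih
    exact ⟨r + 1 + z * r, P.add_mem (P.add_mem hr P.one_mem) (P.mul_mem z_mem hr), by
      rw [pow_succ, e]; ring⟩

theorem v_pow_even (k : ℕ) : v ^ (2 * k) = (1 + z) ^ k := by rw [pow_mul, v_sq]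
theorem v_pow_odd (k : ℕ) : v ^ (2 * k + 1) = v * (1 + z) ^ k := by
  rw [pow_succ, v_pow_even, mul_comm]

theorem E_pow2_mul (s : ℕ) (f : ℤ⟦X⟧) : E (2 ^ s * f) = 2 ^ s * E f := by
  have : (2 ^ s : ℤ⟦X⟧) = C (2 ^ s) := by rw [map_pow, map_ofNat]
  rw [this, E_C_mul]

theorem K_Te {s : ℕ} {g : ℤ⟦X⟧} (h : K s g) (k : ℕ) : K (s + 1) (Te (2 * k) g) := by
  obtain ⟨b, q, hq, hb, rfl⟩ := h
  obtain ⟨r, hr, e⟩ := one_add_z_pow k
  unfold Te
  rw [v_pow_even, e]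
  have e1 : (1 + z * r) * (2 ^ s * (z * (C b + z * q))) =
      2 ^ s * (z * (C b + z * (q + C b * r + z * q * r))) := by ring
  have hq' : q + C b * r + z * q * r ∈ P :=
    P.add_mem (P.add_mem hq (P.mul_mem (C_mem b) hr)) (P.mul_mem (P.mul_mem z_mem hq) hr)
  obtain ⟨q2, hq2, e2⟩ := E_zP b hq'
  obtain ⟨c, q3, hq3, e3⟩ := split_P hq2
  refine ⟨b + 2 * c, 2 * q3, P.mul_mem two_mem hq3, ?_, ?_⟩
  · rcases hb with ⟨d, rfl⟩
    exact ⟨d + c, by ring⟩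
  · rw [e1, E_pow2_mul, e2, e3, map_add, map_mul, map_ofNat]
    ring

theorem K_iter {s : ℕ} {g : ℤ⟦X⟧} (h : K s g) (k a : ℕ) : K (s + a) ((Te (2 * k))^[a] g) := by
  induction a with
  | zero => exact h
  | succ a ih =>
    rw [Function.iterate_succ_apply']
    exact K_Te ih k

/-- `E ((1+z)^k)` -/
noncomputable def tau (k : ℕ) : ℤ⟦X⟧ := E ((1 + z) ^ k)

theorem tau_zero : tau 0 = 1 := by unfold tau; rw [pow_zero, E_one]
theorem tau_one : tau 1 = 1 + 2 * z := by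
  unfold tau; rw [pow_one, E_add, E_one, E_z]

theorem E_two_mul (f : ℤ⟦X⟧) : E (2 * f) = 2 * E f := by
  have := E_pow2_mul 1 f
  rwa [pow_one] at this

theorem step_rel (f : ℤ⟦X⟧) (k : ℕ) : E ((1 + z) ^ (k + 2) * f) =
    (2 + 4 * z) * E ((1 + z) ^ (k + 1) * f) - E ((1 + z) ^ k * f) := by
  have h : (1 + z) ^ (k + 2) * f = 2 * ((1 + z) ^ (k + 1) * f) +
      ex z * (2 ^ 2 * ((1 + z) ^ (k + 1) * f)) - (1 + z) ^ k * f := by
    have := z_rel
    rw [pow_succ, pow_succ]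
    linear_combination ((1 + z) ^ k * f) * this
  rw [h, E_sub, E_add, E_two_mul, E_ex_mul, E_pow2_mul]
  ring

theorem tau_rec (k : ℕ) : tau (k + 2) = (2 + 4 * z) * tau (k + 1) - tau k := by
  have := step_rel 1 k
  simp only [mul_one] at this
  exact this

theorem tau_cheb (k : ℕ) : tau k = Polynomial.aeval (1 + 2 * z) (Polynomial.Chebyshev.T ℤ k) := by
  induction k using Nat.twoStepInduction with
  | zero => rw [tau_zero]; simp
  | one => rw [tau_one]; simp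
  | more k ih1 ih2 =>
    have h := Polynomial.Chebyshev.T_add_two ℤ (k : ℤ)
    have e : (((k + 2 : ℕ)) : ℤ) = (k : ℤ) + 2 := by push_cast; ring
    rw [tau_rec, ih1, ih2, e, h]
    rw [map_sub, map_mul, map_mul, Polynomial.aeval_X]
    push_cast
    rw [map_ofNat]
    ring

theorem tau_double (k : ℕ) : tau (2 * k) = 2 * tau k ^ 2 - 1 := by
  rw [tau_cheb, tau_cheb]
  have h := Polynomial.Chebyshev.T_mul ℤ 2 (k : ℤ)
  have e : (((2 * k : ℕ)) : ℤ) = 2 * (k : ℤ) := by push_cast; ring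
  rw [e, h, Polynomial.aeval_comp, Polynomial.Chebyshev.T_two, map_sub, map_mul, map_pow,
    Polynomial.aeval_X, map_one, map_ofNat]

theorem tau_form (k : ℕ) : ∃ q ∈ P, tau k = 1 + 2 * (z * (C ((k : ℤ) ^ 2) + z * q)) := by
  induction k using Nat.twoStepInduction with
  | zero => exact ⟨0, P.zero_mem, by rw [tau_zero]; simp⟩
  | one => exact ⟨0, P.zero_mem, by rw [tau_one]; simp⟩
  | more k ih1 ih2 =>
    obtain ⟨q0, h0, e0⟩ := ih1
    obtain ⟨q1, h1, e1⟩ := ih2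
    refine ⟨2 * q1 + C (4 * ((k : ℤ) + 1) ^ 2) + 4 * z * q1 - q0,
      P.sub_mem (P.add_mem (P.add_mem (P.mul_mem two_mem h1) (C_mem _))
        (P.mul_mem (P.mul_mem four_mem z_mem) h1)) h0, ?_⟩
    rw [tau_rec, e0, e1]
    have c0 : (C ((k : ℤ) ^ 2) : ℤ⟦X⟧) = (k : ℤ⟦X⟧) ^ 2 := by rw [map_pow, map_natCast]
    have c1 : (C (((k + 1 : ℕ) : ℤ) ^ 2) : ℤ⟦X⟧) = ((k : ℤ⟦X⟧) + 1) ^ 2 := by
      rw [map_pow, map_natCast]; push_cast; ring
    have c2 : (C (((k + 2 : ℕ) : ℤ) ^ 2) : ℤ⟦X⟧) = ((k : ℤ⟦X⟧) + 2) ^ 2 := by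
      rw [map_pow, map_natCast]; push_cast; ring
    have c3 : (C (4 * ((k : ℤ) + 1) ^ 2) : ℤ⟦X⟧) = 4 * ((k : ℤ⟦X⟧) + 1) ^ 2 := by
      rw [map_mul, map_pow, map_add, map_natCast, map_ofNat, map_one]
    rw [c0, c1, c2, c3]
    ring

theorem K_tau (e o : ℕ) (ho : Odd o) : K (1 + 2 * e) (tau (2 ^ e * o) - 1) := by
  induction e with
  | zero =>
    obtain ⟨q, hq, h⟩ := tau_form o
    refine ⟨(o : ℤ) ^ 2, q, hq, ?_, ?_⟩
    · have : Odd (o : ℤ) := by exact_mod_cast ho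
      exact this.pow
    · rw [pow_zero, one_mul, h]; ring
  | succ e ih =>
    obtain ⟨b, q, hq, hb, h⟩ := ih
    have e1 : 2 ^ (e + 1) * o = 2 * (2 ^ e * o) := by ring
    refine ⟨b, q + 4 ^ e * (C b + z * q) ^ 2, P.add_mem hq (P.mul_mem (P.pow_mem four_mem _)
      (P.pow_mem (P.add_mem (C_mem b) (P.mul_mem z_mem hq)) _)), hb, ?_⟩
    rw [e1, tau_double]
    have h2 : tau (2 ^ e * o) = 1 + 2 ^ (1 + 2 * e) * (z * (C b + z * q)) := by
      linear_combination h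
    rw [h2]
    have h4 : (4 : ℤ⟦X⟧) ^ e = (2 ^ e) ^ 2 := by
      rw [← pow_mul, mul_comm e 2, pow_mul]; norm_num
    rw [h4]
    have h5 : (2 : ℤ⟦X⟧) ^ (1 + 2 * e) = 2 * (2 ^ e) ^ 2 := by
      rw [pow_add, pow_one, mul_comm 2 e, pow_mul]
    have h6 : (2 : ℤ⟦X⟧) ^ (1 + 2 * (e + 1)) = 8 * (2 ^ e) ^ 2 := by
      rw [show 1 + 2 * (e + 1) = 3 + e * 2 by ring, pow_add, pow_mul]; norm_num
    rw [h5, h6]
    ring

theorem Te_add (m : ℕ) (f g : ℤ⟦X⟧) : Te m (f + g) = Te m f + Te m g := by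
  unfold Te; rw [mul_add, E_add]

theorem K_self_add {s : ℕ} {g g' : ℤ⟦X⟧} (h : K s g) (h' : K (s + 1) g') : K s (g + g') := by
  obtain ⟨b, q, hq, hb, rfl⟩ := h
  obtain ⟨b', q', hq', hb', rfl⟩ := h'
  refine ⟨b + 2 * b', q + 2 * q', P.add_mem hq (P.mul_mem two_mem hq'), ?_, ?_⟩
  · rcases hb with ⟨d, rfl⟩
    exact ⟨d + b', by ring⟩
  · rw [map_add, map_mul, map_ofNat]; ring

theorem even_case (k : ℕ) (hk : 0 < k) (n : ℕ) (hn : 0 < n) :
    emultiplicity 2 (coeff (4 * n) (G (2 * k)) - coeff n (G (2 * k))) =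
      (padicValNat 2 n + 2 * padicValNat 2 k + 3 : ℕ) := by
  have key : ∀ N : ℕ, 0 < N → ∃ o, Odd o ∧ N = 2 ^ (padicValNat 2 N) * o := by
    intro N hN
    obtain ⟨e, o, ho, h⟩ := Nat.exists_eq_two_pow_mul_odd (n := N) (by omega)
    have : padicValNat 2 N = e := by
      have ho' : ¬ 2 ∣ o := by
        rcases ho with ⟨c, rfl⟩
        omega
      have ho0 : o ≠ 0 := by
        rintro rfl
        exact ho' (dvd_zero 2)
      rw [h, padicValNat.mul (by positivity) ho0, padicValNat.prime_pow,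
        padicValNat.eq_zero_of_not_dvd ho', add_zero]
    exact ⟨o, ho, by rw [this]; exact h⟩
  obtain ⟨o, ho, hko⟩ := key k hk
  obtain ⟨t, ht, hnt⟩ := key n hn
  set e := padicValNat 2 k
  set a := padicValNat 2 n
  have h1 := diff_eq (2 * k) a t
  rw [← hnt] at h1
  rw [h1]
  have hK := K_tau e o ho
  rw [← hko] at hK
  have hT : Te (2 * k) 1 = tau k := by
    unfold Te tau
    rw [v_pow_even, mul_one]
  have hR : Te (2 * k) (Te (2 * k) 1) - 1 = (tau k - 1) + Te (2 * k) (tau k - 1) := by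
    have : Te (2 * k) (tau k) = Te (2 * k) (tau k - 1) + Te (2 * k) 1 := by
      rw [← Te_add]; congr 1; ring
    rw [hT, this, hT]; ring
  rw [hR]
  have hK2 := K_iter (K_self_add hK (K_Te hK k)) k a
  rw [K_coeff hK2 _ _ ht]
  congr 1
  omega

end Pool.Agent.V11276.CB
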