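import Pool.Agent.V11276.CB3

/-! Colored binary partitions: odd number of colors. -/

namespace Pool.Agent.V11276.CB

open PowerSeries

/-- second class: multiples of `2^s z`, possibly times `v` -/
def N (s : ℕ) (g : ℤ⟦X⟧) : Prop := ∃ p ∈ P, g = 2 ^ s * (z * p) ∨ g = 2 ^ s * (v * (z * p))

theorem N_coeff {s : ℕ} {g : ℤ⟦X⟧} (h : N s g) (m t : ℕ) :
    (2 : ℤ) ^ (s + 2) ∣ coeff t (G m * g) := by
  obtain ⟨p, hp, h | h⟩ := h
  · have : G m * g = C (2 ^ (s + 2)) * (G m * (u * p)) := by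
      have e : (C (2 ^ (s + 2)) : ℤ⟦X⟧) = 2 ^ s * 4 := by
        rw [map_pow, map_ofNat, pow_add]; norm_num
      rw [e, h, z_eq]; ring
    rw [this, coeff_C_mul]
    exact dvd_mul_right _ _
  · have : G m * g = C (2 ^ (s + 2)) * (G m * (v * (u * p))) := by
      have e : (C (2 ^ (s + 2)) : ℤ⟦X⟧) = 2 ^ s * 4 := by
        rw [map_pow, map_ofNat, pow_add]; norm_num
      rw [e, h, z_eq]; ring
    rw [this, coeff_C_mul]
    exact dvd_mul_right _ _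

theorem one_z_mem : (1 + z) ∈ P := P.add_mem P.one_mem z_mem

theorem N_Te1 {s : ℕ} {p : ℤ⟦X⟧} (hp : p ∈ P) (k : ℕ) :
    ∃ g ∈ P, Te (2 * k + 1) (2 ^ s * (z * p)) = 2 ^ (s + 2) * (v * (z * g)) := by
  obtain ⟨g, hg, e⟩ := E_vzP (P.mul_mem (P.pow_mem one_z_mem k) hp)
  refine ⟨g, hg, ?_⟩
  unfold Te
  rw [v_pow_odd]
  have : v * (1 + z) ^ k * (2 ^ s * (z * p)) = 2 ^ s * (v * (z * ((1 + z) ^ k * p))) := by ring
  rw [this, E_pow2_mul, e]; ring

theorem N_Te {s : ℕ} {g : ℤ⟦X⟧} (h : N s g) (k : ℕ) : N (s + 1) (Te (2 * k + 1) g) := by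
  obtain ⟨p, hp, h | h⟩ := h
  · obtain ⟨g', hg, e⟩ := N_Te1 (s := s) hp k
    refine ⟨2 * g', P.mul_mem two_mem hg, Or.inr ?_⟩
    rw [h, e]; ring
  · obtain ⟨g', hg, e⟩ := E_zP' (P.mul_mem (P.pow_mem one_z_mem (k + 1)) hp)
    refine ⟨g', hg, Or.inl ?_⟩
    unfold Te
    rw [v_pow_odd, h]
    have : v * (1 + z) ^ k * (2 ^ s * (v * (z * p))) = 2 ^ s * (z * ((1 + z) ^ (k + 1) * p)) := by
      have := v_sq
      rw [pow_succ]
      linear_combination (2 ^ s * (1 + z) ^ k * z * p) * this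
    rw [this, E_pow2_mul, e]; ring

theorem N_iter {s : ℕ} {g : ℤ⟦X⟧} (h : N s g) (k a : ℕ) :
    N (s + a) ((Te (2 * k + 1))^[a] g) := by
  induction a with
  | zero => exact h
  | succ a ih =>
    rw [Function.iterate_succ_apply']
    exact N_Te ih k

/-- triangular numbers -/
def tri (k : ℕ) : ℤ := ∑ i ∈ Finset.range (k + 1), (i : ℤ)

theorem tri_succ (k : ℕ) : tri (k + 1) = tri k + (k + 1) := by
  unfold tri; rw [Finset.sum_range_succ]; push_cast; ring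

theorem two_tri (k : ℕ) : 2 * tri k = k * (k + 1) := by
  induction k with
  | zero => simp [tri]
  | succ k ih => rw [tri_succ]; push_cast; linear_combination ih

theorem E_v_form (k : ℕ) : ∃ a ∈ P, E ((1 + z) ^ k * v) =
    v * (1 + 4 * (z * (C (tri k) + 4 * (z * a)))) := by
  induction k using Nat.twoStepInduction with
  | zero => exact ⟨0, P.zero_mem, by rw [pow_zero, one_mul, E_v]; simp [tri]⟩
  | one =>
    refine ⟨0, P.zero_mem, ?_⟩
    have : (1 + z) ^ 1 * v = v + v * z := by ring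
    rw [this, E_add, E_v, E_vz]
    have : tri 1 = 1 := by simp [tri, Finset.sum_range_succ]
    rw [this, map_one]; ring
  | more k ih1 ih2 =>
    obtain ⟨a0, h0, e0⟩ := ih1
    obtain ⟨a1, h1, e1⟩ := ih2
    refine ⟨2 * a1 + C (tri (k + 1)) + 4 * z * a1 - a0, P.sub_mem (P.add_mem (P.add_mem
      (P.mul_mem two_mem h1) (C_mem _)) (P.mul_mem (P.mul_mem four_mem z_mem) h1)) h0, ?_⟩
    rw [step_rel, e0, e1]
    have c2 : (C (tri (k + 2)) : ℤ⟦X⟧) = 1 + 2 * C (tri (k + 1)) - C (tri k) := by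
      have : tri (k + 2) = 1 + 2 * tri (k + 1) - tri k := by
        rw [tri_succ (k + 1), tri_succ k]; push_cast; ring
      rw [this, map_sub, map_add, map_mul, map_one, map_ofNat]
    rw [c2]
    ring

/-- the basic function -/
noncomputable def R (m : ℕ) : ℤ⟦X⟧ := Te m (Te m 1) - 1

theorem R_form (k : ℕ) : ∃ a ∈ P, R (2 * k + 1) =
    (tau (k + 1) - 1) + 4 * E (z * ((1 + z) ^ (k + 1) * (C (tri k) + 4 * (z * a)))) := by
  obtain ⟨a, ha, e⟩ := E_v_form k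
  refine ⟨a, ha, ?_⟩
  unfold R
  have h1 : Te (2 * k + 1) 1 = v * (1 + 4 * (z * (C (tri k) + 4 * (z * a)))) := by
    unfold Te
    rw [v_pow_odd, mul_one, mul_comm v, e]
  rw [h1]
  unfold Te tau
  rw [v_pow_odd]
  have h2 : v * (1 + z) ^ k * (v * (1 + 4 * (z * (C (tri k) + 4 * (z * a))))) =
      (1 + z) ^ (k + 1) + 2 ^ 2 * (z * ((1 + z) ^ (k + 1) * (C (tri k) + 4 * (z * a)))) := by
    have := v_sq
    rw [pow_succ]
    linear_combination ((1 + z) ^ k * (1 + 4 * (z * (C (tri k) + 4 * (z * a))))) * this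
  rw [h2, E_add, E_pow2_mul]
  ring

/-- general form of `R` -/
theorem R_form2 (k : ℕ) : ∃ c : ℤ, ∃ q ∈ P, R (2 * k + 1) =
    (tau (k + 1) - 1) + 8 * (z * (C (tri k + 2 * c) + 2 * (z * q))) := by
  obtain ⟨a, ha, e⟩ := R_form k
  obtain ⟨r, hr, er⟩ := one_add_z_pow (k + 1)
  have hq : 4 * a + r * (C (tri k) + 4 * (z * a)) ∈ P :=
    P.add_mem (P.mul_mem four_mem ha) (P.mul_mem hr (P.add_mem (C_mem _)
      (P.mul_mem four_mem (P.mul_mem z_mem ha))))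
  obtain ⟨q', hq', e'⟩ := E_zP (tri k) hq
  obtain ⟨c, q'', hq'', e''⟩ := split_P hq'
  refine ⟨c, q'', hq'', ?_⟩
  have h1 : (1 + z) ^ (k + 1) * (C (tri k) + 4 * (z * a)) =
      C (tri k) + z * (4 * a + r * (C (tri k) + 4 * (z * a))) := by
    rw [er]; ring
  rw [e, h1, e', e'', map_add, map_mul, map_ofNat]
  ring

theorem K_R1 (k : ℕ) (hk : k % 2 = 0) : K 1 (R (2 * k + 1)) := by
  obtain ⟨c, q, hq, e⟩ := R_form2 k
  obtain ⟨q1, hq1, e1⟩ := tau_form (k + 1)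
  refine ⟨((k + 1 : ℕ) : ℤ) ^ 2 + 4 * (tri k + 2 * c), q1 + 8 * q, ?_, ?_, ?_⟩
  · have h8 : (8 : ℤ⟦X⟧) ∈ P := by
      have := C_mem 8
      rwa [map_ofNat] at this
    exact P.add_mem hq1 (P.mul_mem h8 hq)
  · have h1 : Odd (((k + 1 : ℕ) : ℤ)) := by
      have : Odd (k + 1) := Nat.odd_iff.2 (by omega)
      exact_mod_cast this
    have h2 : Even (4 * (tri k + 2 * c)) := ⟨2 * (tri k + 2 * c), by ring⟩
    exact (h1.pow).add_even h2
  · rw [e, e1, map_add (C) (((k + 1 : ℕ) : ℤ) ^ 2), map_mul C 4, map_ofNat]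
    ring

theorem N_of_K {s : ℕ} {g : ℤ⟦X⟧} (h : K s g) : N s g := by
  obtain ⟨b, q, hq, _, e⟩ := h
  exact ⟨C b + z * q, P.add_mem (C_mem b) (P.mul_mem z_mem hq), Or.inl e⟩

theorem tau_form2 (k : ℕ) : ∃ q ∈ P, tau (2 * k) - 1 =
    8 * (z * (C ((k : ℤ) ^ 2) + z * (q + (C ((k : ℤ) ^ 2) + z * q) ^ 2))) ∧
    tau k = 1 + 2 * (z * (C ((k : ℤ) ^ 2) + z * q)) := by
  obtain ⟨q, hq, e⟩ := tau_form k
  refine ⟨q, hq, ?_, e⟩
  rw [tau_double, e]; ring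

/-- for `m ≡ 3 mod 4` -/
theorem R_form3 (j : ℕ) : ∃ b : ℤ, ∃ q ∈ P, Even b ∧ R (2 * (2 * j + 1) + 1) =
    8 * (z * (C b + z * q)) := by
  obtain ⟨c, q, hq, e⟩ := R_form2 (2 * j + 1)
  obtain ⟨q1, hq1, e1, _⟩ := tau_form2 (j + 1)
  refine ⟨((j + 1 : ℕ) : ℤ) ^ 2 + (tri (2 * j + 1) + 2 * c),
    q1 + (C (((j + 1 : ℕ) : ℤ) ^ 2) + z * q1) ^ 2 + 2 * q, ?_, ?_, ?_⟩
  · exact P.add_mem (P.add_mem hq1 (P.pow_mem (P.add_mem (C_mem _) (P.mul_mem z_mem hq1)) _))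
      (P.mul_mem two_mem hq)
  · have h1 : tri (2 * j + 1) = (2 * j + 1) * (j + 1) := by
      have := two_tri (2 * j + 1)
      push_cast at this
      linarith
    rw [h1]
    push_cast
    have : ((j : ℤ) + 1) ^ 2 + ((2 * j + 1) * (j + 1) + 2 * c) =
        (j + 1) * (3 * j + 2) + 2 * c := by ring
    rw [this]
    have h2 : Even (((j : ℤ) + 1) * (3 * j + 2)) := by
      rcases Int.even_or_odd (j : ℤ) with ⟨i, hi⟩ | ⟨i, hi⟩
      · rw [hi]
        exact ⟨((i + i) + 1) * (3 * i + 1), by ring⟩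
      · rw [hi]
        exact ⟨(i + 1) * (3 * (2 * i + 1) + 2), by ring⟩
    exact h2.add ⟨c, by ring⟩
  · rw [show 2 * (2 * j + 1) + 1 = 2 * (2 * j + 1) + 1 from rfl, e,
      show 2 * j + 1 + 1 = 2 * (j + 1) by ring, e1, map_add C (((j + 1 : ℕ) : ℤ) ^ 2)]
    ring

theorem odd_key (m : ℕ) (N : ℕ) (hN : 0 < N) : ∃ o, Odd o ∧ N = 2 ^ (padicValNat 2 N) * o := by
  obtain ⟨e, o, ho, h⟩ := Nat.exists_eq_two_pow_mul_odd (n := N) (by omega)
  have : padicValNat 2 N = e := by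
    have ho' : ¬ 2 ∣ o := by
      rcases ho with ⟨c, rfl⟩
      omega
    have ho0 : o ≠ 0 := by
      rintro rfl
      exact ho' (dvd_zero 2)
    rw [h, padicValNat.mul (by positivity) ho0, padicValNat.prime_pow,
      padicValNat.eq_zero_of_not_dvd ho', add_zero]
  exact ⟨o, ho, by rw [this]; exact h⟩

/-- `m ≡ 1 mod 4`: lower bound -/
theorem bound1 (k n : ℕ) (hn : 0 < n) : (2 : ℤ) ^ (padicValNat 2 n + 3) ∣
    coeff (4 * n) (G (4 * k + 1)) - coeff n (G (4 * k + 1)) := by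
  obtain ⟨t, ht, hnt⟩ := odd_key 0 n hn
  set a := padicValNat 2 n
  have h1 := diff_eq (4 * k + 1) a t
  rw [← hnt] at h1
  rw [h1]
  have e : 4 * k + 1 = 2 * (2 * k) + 1 := by ring
  have h2 := N_coeff (N_iter (N_of_K (K_R1 (2 * k) (by omega))) (2 * k) a) (4 * k + 1) t
  rw [← e] at h2
  rw [show a + 3 = 1 + a + 2 by ring]
  exact h2

/-- `m ≡ 1 mod 4`: equality for odd `n` -/
theorem eq1 (k t : ℕ) (ht : Odd t) : emultiplicity 2
    (coeff (4 * t) (G (4 * k + 1)) - coeff t (G (4 * k + 1))) = (3 : ℕ) := by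
  have h1 := diff_eq (4 * k + 1) 0 t
  rw [pow_zero, one_mul] at h1
  rw [h1]
  have e : 4 * k + 1 = 2 * (2 * k) + 1 := by ring
  have h2 := K_coeff (K_R1 (2 * k) (by omega)) (4 * k + 1) t ht
  rw [← e] at h2
  exact h2

/-- `m ≡ 3 mod 4`: lower bound -/
theorem bound3 (k n : ℕ) (hn : 0 < n) : (2 : ℤ) ^ (padicValNat 2 n + 6) ∣
    coeff (4 * n) (G (4 * k + 3)) - coeff n (G (4 * k + 3)) := by
  obtain ⟨t, ht, hnt⟩ := odd_key 0 n hn
  set a := padicValNat 2 n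
  have h1 := diff_eq (4 * k + 3) a t
  rw [← hnt] at h1
  rw [h1]
  have e : 4 * k + 3 = 2 * (2 * k + 1) + 1 := by ring
  obtain ⟨b, q, hq, hb, hR⟩ := R_form3 k
  rw [← e] at hR
  change (2 : ℤ) ^ (a + 6) ∣ coeff t (G (4 * k + 3) * (Te (4 * k + 3))^[a] (R (4 * k + 3)))
  cases a with
  | zero =>
    rw [Function.iterate_zero_apply, hR]
    obtain ⟨b', rfl⟩ := hb
    have : G (4 * k + 3) * (8 * (z * (C (b' + b') + z * q))) =
        C (2 ^ 6) * (G (4 * k + 3) * (u * (C b' + 2 * (u * q)))) := by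
      have e : (C (2 ^ 6) : ℤ⟦X⟧) = 64 := by
        rw [map_pow, map_ofNat]; norm_num
      rw [e, z_eq, map_add]; ring
    rw [this, coeff_C_mul]
    exact dvd_mul_right _ _
  | succ a =>
    rw [Function.iterate_succ_apply]
    have hp : C b + z * q ∈ P := P.add_mem (C_mem b) (P.mul_mem z_mem hq)
    obtain ⟨g, hg, eg⟩ := N_Te1 (s := 3) hp (2 * k + 1)
    have hN : N 5 (Te (4 * k + 3) (R (4 * k + 3))) := by
      refine ⟨g, hg, Or.inr ?_⟩
      rw [hR]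
      rw [← e] at eg
      rw [show (8 : ℤ⟦X⟧) = 2 ^ 3 by norm_num, eg]
    have h2 := N_iter hN (2 * k + 1) a
    rw [← e] at h2
    have h3 := N_coeff h2 (4 * k + 3) t
    rw [show a + 1 + 6 = 5 + a + 2 by ring]
    exact h3

end Pool.Agent.V11276.CB
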