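import Pool.Agent.V11276.CB4

/-! Colored binary partitions: `m ≡ 15, 7 mod 16` and `m ≡ 3 mod 8`. -/

namespace Pool.Agent.V11276.CB

open PowerSeries

theorem tau_dvd_step {s k : ℕ} (hs : 1 ≤ s) (h : ∃ p ∈ P, tau k - 1 = 2 ^ s * (z * p)) :
    ∃ p ∈ P, tau (2 * k) - 1 = 2 ^ (s + 2) * (z * p) := by
  obtain ⟨p, hp, e⟩ := h
  obtain ⟨s, rfl⟩ := Nat.exists_eq_add_of_le hs
  refine ⟨p + 2 ^ s * (z * p ^ 2), P.add_mem hp (P.mul_mem (P.pow_mem two_mem _)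
    (P.mul_mem z_mem (P.pow_mem hp _))), ?_⟩
  have e' : tau k = 1 + 2 ^ (1 + s) * (z * p) := by linear_combination e
  rw [tau_double, e', pow_add, pow_add, pow_add]
  ring

theorem tau_8 (j : ℕ) : ∃ p ∈ P, tau (8 * j) - 1 = 2 ^ 7 * (z * p) := by
  obtain ⟨q, hq, e⟩ := tau_form j
  have h1 : ∃ p ∈ P, tau j - 1 = 2 ^ 1 * (z * p) :=
    ⟨C ((j : ℤ) ^ 2) + z * q, P.add_mem (C_mem _) (P.mul_mem z_mem hq), by rw [e]; ring⟩
  have h2 := tau_dvd_step (by norm_num) (tau_dvd_step (by norm_num) (tau_dvd_step le_rfl h1))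
  rw [show 8 * j = 2 * (2 * (2 * j)) by ring]
  exact h2

theorem N_R5 (j : ℕ) : N 5 (R (16 * j + 15)) := by
  obtain ⟨a, ha, e⟩ := R_form (8 * j + 7)
  obtain ⟨p, hp, ep⟩ := tau_8 (j + 1)
  obtain ⟨w, hw⟩ : ∃ w : ℤ, w = (8 * j + 7) * (j + 1) := ⟨_, rfl⟩
  have ht : tri (8 * j + 7) = 4 * w := by
    have := two_tri (8 * j + 7)
    push_cast at this
    rw [hw]
    linarith
  have h1 : z * ((1 + z) ^ (8 * j + 7 + 1) * (C (tri (8 * j + 7)) + 4 * (z * a))) =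
      2 ^ 2 * (z * ((1 + z) ^ (8 * j + 7 + 1) * (C w + z * a))) := by
    rw [ht, map_mul C 4, map_ofNat]; ring
  obtain ⟨g, hg, eg⟩ := E_zP' (P.mul_mem (P.pow_mem one_z_mem (8 * j + 7 + 1))
    (P.add_mem (C_mem w) (P.mul_mem z_mem ha)))
  refine ⟨4 * p + g, P.add_mem (P.mul_mem four_mem hp) hg, Or.inl ?_⟩
  rw [show 16 * j + 15 = 2 * (8 * j + 7) + 1 by ring, e, h1, E_pow2_mul, eg,
    show 8 * j + 7 + 1 = 8 * (j + 1) by ring, ep]
  ring

/-- `m ≡ 15 mod 16`: improved lower bound -/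
theorem bound15 (j n : ℕ) (hn : 0 < n) : (2 : ℤ) ^ (padicValNat 2 n + 7) ∣
    coeff (4 * n) (G (16 * j + 15)) - coeff n (G (16 * j + 15)) := by
  obtain ⟨t, ht, hnt⟩ := odd_key 0 n hn
  set a := padicValNat 2 n
  have h1 := diff_eq (16 * j + 15) a t
  rw [← hnt] at h1
  rw [h1]
  have e : 16 * j + 15 = 2 * (8 * j + 7) + 1 := by ring
  have h2 := N_coeff (N_iter (N_R5 j) (8 * j + 7) a) (16 * j + 15) t
  rw [← e] at h2
  rw [show a + 7 = 5 + a + 2 by ring]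
  exact h2

theorem K_R7 (j : ℕ) : K 4 (R (16 * j + 7)) := by
  obtain ⟨a, ha, e⟩ := R_form (8 * j + 3)
  have hK := K_tau 2 (2 * j + 1) ⟨j, rfl⟩
  obtain ⟨w, hw⟩ : ∃ w : ℤ, w = (8 * j + 3) * (2 * j + 1) := ⟨_, rfl⟩
  have ht : tri (8 * j + 3) = 2 * w := by
    have := two_tri (8 * j + 3)
    push_cast at this
    rw [hw]
    linarith
  have h1 : z * ((1 + z) ^ (8 * j + 3 + 1) * (C (tri (8 * j + 3)) + 4 * (z * a))) =
      2 * (z * ((1 + z) ^ (8 * j + 3 + 1) * (C w + 2 * (z * a)))) := by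
    rw [ht, map_mul C 2, map_ofNat]; ring
  obtain ⟨r, hr, er⟩ := one_add_z_pow (8 * j + 3 + 1)
  have hq : 2 * a + r * (C w + 2 * (z * a)) ∈ P :=
    P.add_mem (P.mul_mem two_mem ha) (P.mul_mem hr (P.add_mem (C_mem _)
      (P.mul_mem two_mem (P.mul_mem z_mem ha))))
  obtain ⟨q', hq', e'⟩ := E_zP w hq
  obtain ⟨c, q'', hq'', e''⟩ := split_P hq'
  have h2 : (1 + z) ^ (8 * j + 3 + 1) * (C w + 2 * (z * a)) =
      C w +
        z * (2 * a + r * (C w + 2 * (z * a))) := by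
    rw [er]; ring
  have hK4 : K 4 (4 * E (z * ((1 + z) ^ (8 * j + 3 + 1) *
      (C (tri (8 * j + 3)) + 4 * (z * a))))) := by
    refine ⟨w + 2 * c, 2 * q'', P.mul_mem two_mem hq'', ?_, ?_⟩
    · rw [hw]; exact ⟨8 * j ^ 2 + 7 * j + 1 + c, by ring⟩
    · rw [h1, E_two_mul, h2, e', e'', map_add C w, map_mul C 2,
        map_ofNat]
      ring
  rw [show 16 * j + 7 = 2 * (8 * j + 3) + 1 by ring, e, add_comm]
  rw [show 8 * j + 3 + 1 = 2 ^ 2 * (2 * j + 1) by ring] at hK4 ⊢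
  exact K_self_add hK4 hK

/-- `m ≡ 7 mod 16`: equality for odd `n` -/
theorem eq7 (j t : ℕ) (ht : Odd t) : emultiplicity 2
    (coeff (4 * t) (G (16 * j + 7)) - coeff t (G (16 * j + 7))) = (6 : ℕ) := by
  have h1 := diff_eq (16 * j + 7) 0 t
  rw [pow_zero, one_mul] at h1
  rw [h1]
  exact K_coeff (K_R7 j) (16 * j + 7) t ht

theorem tau_rec2 (k : ℕ) : tau (k + 4) = (2 + 16 * z + 16 * z ^ 2) * tau (k + 2) - tau k := by
  have h1 := tau_rec (k + 2)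
  have h2 := tau_rec (k + 1)
  have h3 := tau_rec k
  rw [show k + 4 = k + 2 + 2 by ring]
  linear_combination h1 + (2 + 4 * z) * h2 + h3

theorem tau_three : tau 3 = 1 + 18 * z + 48 * z ^ 2 + 32 * z ^ 3 := by
  have h1 := tau_rec 1
  have h2 := tau_rec 0
  norm_num at h1 h2
  rw [h1, h2, tau_one, tau_zero]; ring

theorem tau_odd_form (j : ℕ) : ∃ q ∈ P, tau (2 * j + 1) =
    1 + 2 * (z * (C (((2 * j + 1 : ℕ) : ℤ) ^ 2) + 8 * (z * q))) := by
  induction j using Nat.twoStepInduction with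
  | zero => exact ⟨0, P.zero_mem, by rw [show 2 * 0 + 1 = 1 by rfl, tau_one]; simp⟩
  | one =>
    have h3 : (3 : ℤ⟦X⟧) ∈ P := by
      have := C_mem 3
      rwa [map_ofNat] at this
    refine ⟨3 + 2 * z, P.add_mem h3 (P.mul_mem two_mem z_mem), ?_⟩
    rw [show 2 * 1 + 1 = 3 by rfl, tau_three]
    have : (C (((3 : ℕ) : ℤ) ^ 2) : ℤ⟦X⟧) = 9 := by
      rw [map_pow, map_natCast]; norm_num
    rw [this]; ring
  | more j ih1 ih2 =>
    obtain ⟨q0, h0, e0⟩ := ih1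
    obtain ⟨q1, h1, e1⟩ := ih2
    have h16 : (16 : ℤ⟦X⟧) ∈ P := by
      have := C_mem 16
      rwa [map_ofNat] at this
    refine ⟨2 * q1 + C (2 * ((2 * (j + 1) + 1 : ℕ) : ℤ) ^ 2 + 1) - q0 + z * (16 * q1 +
      C (2 * ((2 * (j + 1) + 1 : ℕ) : ℤ) ^ 2)) + 16 * (z ^ 2 * q1), ?_, ?_⟩
    · exact P.add_mem (P.add_mem (P.sub_mem (P.add_mem (P.mul_mem two_mem h1) (C_mem _)) h0)
        (P.mul_mem z_mem (P.add_mem (P.mul_mem h16 h1) (C_mem _))))
        (P.mul_mem h16 (P.mul_mem (P.pow_mem z_mem _) h1))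
    · have hr := tau_rec2 (2 * j + 1)
      rw [show 2 * (j + 2) + 1 = 2 * j + 1 + 4 by ring, hr,
        show 2 * j + 1 + 2 = 2 * (j + 1) + 1 by ring, e0, e1]
      have c0 : (C (((2 * j + 1 : ℕ) : ℤ) ^ 2) : ℤ⟦X⟧) = (2 * (j : ℤ⟦X⟧) + 1) ^ 2 := by
        rw [map_pow, map_natCast]; push_cast; ring
      have c1 : (C (((2 * (j + 1) + 1 : ℕ) : ℤ) ^ 2) : ℤ⟦X⟧) = (2 * (j : ℤ⟦X⟧) + 3) ^ 2 := by
        rw [map_pow, map_natCast]; push_cast; ring
      have c2 : (C (((2 * j + 1 + 4 : ℕ) : ℤ) ^ 2) : ℤ⟦X⟧) = (2 * (j : ℤ⟦X⟧) + 5) ^ 2 := by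
        rw [map_pow, map_natCast]; push_cast; ring
      have c3 : (C (2 * ((2 * (j + 1) + 1 : ℕ) : ℤ) ^ 2 + 1) : ℤ⟦X⟧) =
          2 * (2 * (j : ℤ⟦X⟧) + 3) ^ 2 + 1 := by
        rw [map_add, map_mul, map_pow, map_natCast, map_ofNat, map_one]; push_cast; ring
      have c4 : (C (2 * ((2 * (j + 1) + 1 : ℕ) : ℤ) ^ 2) : ℤ⟦X⟧) = 2 * (2 * (j : ℤ⟦X⟧) + 3) ^ 2 := by
        rw [map_mul, map_pow, map_natCast, map_ofNat]; push_cast; ring
      rw [c0, c1, c2, c3, c4]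
      ring

/-- `m ≡ 3 mod 8`: precise form of `R` -/
theorem R_form8 (j : ℕ) : ∃ b c : ℤ, ∃ q ∈ P, Even b ∧ Odd c ∧ R (8 * j + 3) =
    8 * (z * (C b + z * (C c + 1 * (z * q)))) := by
  obtain ⟨c, q, hq, e⟩ := R_form2 (4 * j + 1)
  obtain ⟨q1, hq1, e1⟩ := tau_odd_form j
  obtain ⟨c2, q2, hq2, e2⟩ := split_P hq
  have hd := tau_double (2 * j + 1)
  set o : ℤ := ((2 * j + 1 : ℕ) : ℤ) with ho
  have h4 : tau (2 * (2 * j + 1)) - 1 = 8 * (z * (C (o ^ 2) + z * (C (o ^ 4) +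
      z * (8 * q1 + 0) + (8 * q1 - 8 * (z * q1)) + 16 * (z * (C (o ^ 2) * q1)) +
      64 * (z ^ 2 * q1 ^ 2)))) := by
    rw [hd, e1, map_pow C o 4, map_pow C o 2]
    ring
  have h8 : (8 : ℤ⟦X⟧) ∈ P := by
    have := C_mem 8
    rwa [map_ofNat] at this
  have h16 : (16 : ℤ⟦X⟧) ∈ P := by
    have := C_mem 16
    rwa [map_ofNat] at this
  have h64 : (64 : ℤ⟦X⟧) ∈ P := by
    have := C_mem 64
    rwa [map_ofNat] at this
  obtain ⟨c3, q3, hq3, e3⟩ := split_P hq1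
  refine ⟨o ^ 2 + (tri (4 * j + 1) + 2 * c), o ^ 4 + 8 * c3 + 2 * c2,
    8 * q3 + 16 * (C (o ^ 2) * q1) + 64 * (z * q1 ^ 2) + 2 * q2, ?_, ?_, ?_, ?_⟩
  · exact P.add_mem (P.add_mem (P.add_mem (P.mul_mem h8 hq3)
      (P.mul_mem h16 (P.mul_mem (C_mem _) hq1))) (P.mul_mem h64 (P.mul_mem z_mem
        (P.pow_mem hq1 _)))) (P.mul_mem two_mem hq2)
  · have h1 : tri (4 * j + 1) = (4 * j + 1) * (2 * j + 1) := by
      have := two_tri (4 * j + 1)
      push_cast at this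
      linarith
    rw [h1, ho]
    push_cast
    exact ⟨(2 * j + 1) * (3 * j + 1) + c, by ring⟩
  · rw [ho]
    push_cast
    have h1 : Odd ((2 * (j : ℤ) + 1) ^ 4) := Odd.pow ⟨j, rfl⟩
    have h2 : Even (8 * c3 + 2 * c2) := ⟨4 * c3 + c2, by ring⟩
    rw [add_assoc]
    exact h1.add_even h2
  · rw [show 8 * j + 3 = 2 * (4 * j + 1) + 1 by ring, e,
      show 4 * j + 1 + 1 = 2 * (2 * j + 1) by ring, h4, e2, map_add C (o ^ 2),
      map_add C (o ^ 4 + 8 * c3), map_add C (o ^ 4), map_mul C 8, map_mul C 2, map_ofNat,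
      map_ofNat]
    linear_combination (64 * z ^ 2) * e3

/-- `m ≡ 3 mod 8`: equality for `n = 2t`, `t` odd -/
theorem eq3 (j t : ℕ) (ht : Odd t) : emultiplicity 2
    (coeff (4 * (2 * t)) (G (8 * j + 3)) - coeff (2 * t) (G (8 * j + 3))) = (7 : ℕ) := by
  have h1 := diff_eq (8 * j + 3) 1 t
  rw [pow_one, Function.iterate_one] at h1
  rw [h1]
  change emultiplicity 2 (coeff t (G (8 * j + 3) * Te (8 * j + 3) (R (8 * j + 3)))) = (7 : ℕ)
  obtain ⟨b, c, q, hq, hb, hc, e⟩ := R_form8 j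
  obtain ⟨r, hr, er⟩ := one_add_z_pow (4 * j + 1)
  obtain ⟨c1, r1, hr1, er1⟩ := split_P hr
  -- the argument of E
  have hq1 : q + C b * r1 + r * (C c + z * q) ∈ P := P.add_mem (P.add_mem hq
    (P.mul_mem (C_mem b) hr1)) (P.mul_mem hr (P.add_mem (C_mem c) (P.mul_mem z_mem hq)))
  set Q := q + C b * r1 + r * (C c + z * q) with hQ
  have h2 : v ^ (8 * j + 3) * R (8 * j + 3) = 2 ^ 3 * (C b * (v * z) +
      z ^ 2 * (v * (C (c + b * c1) + z * Q))) := by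
    rw [show 8 * j + 3 = 2 * (4 * j + 1) + 1 by ring, v_pow_odd,
      show 2 * (4 * j + 1) + 1 = 8 * j + 3 by ring, e, er, hQ, map_add, map_mul]
    linear_combination (8 * v * z ^ 2 * C b) * er1
  obtain ⟨g1, hg1, eg1⟩ := E_vzP (P.add_mem (C_mem (c + b * c1)) (P.mul_mem z_mem hq1))
  obtain ⟨g2, hg2, eg2⟩ := E_vzP hq1
  have h3 : Te (8 * j + 3) (R (8 * j + 3)) = 2 ^ 5 * (v * (z * (C (b + (c + b * c1)) +
      4 * (z * (g1 + g2))))) := by
    unfold Te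
    rw [h2, E_pow2_mul, E_add, E_C_mul, E_vz, E_zsq]
    have e1 : z * (v * (C (c + b * c1) + z * Q)) = v * (z * (C (c + b * c1) + z * Q)) := by ring
    have e2 : v * (C (c + b * c1) + z * Q) = C (c + b * c1) * v + v * (z * Q) := by ring
    rw [e1, eg1, e2, E_add, E_C_mul, E_v, eg2, map_add C b]
    ring
  rw [h3]
  have hodd : Odd (b + (c + b * c1)) := by
    obtain ⟨b', rfl⟩ := hb
    obtain ⟨c', rfl⟩ := hc
    exact ⟨b' + c' + b' * c1, by ring⟩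
  refine TM.emult_of_odd (a := coeff t (G (8 * j + 3) * (v * (u * (C (b + (c + b * c1)) +
      4 * (z * (g1 + g2))))))) ?_ ?_
  · have : G (8 * j + 3) * (2 ^ 5 * (v * (z * (C (b + (c + b * c1)) + 4 * (z * (g1 + g2)))))) =
        C (2 ^ 7) * (G (8 * j + 3) * (v * (u * (C (b + (c + b * c1)) +
          4 * (z * (g1 + g2)))))) := by
      have e : (C (2 ^ 7) : ℤ⟦X⟧) = 2 ^ 5 * 4 := by
        rw [map_pow, map_ofNat]; norm_num
      rw [e]
      conv_lhs => rw [show v * (z * (C (b + (c + b * c1)) + 4 * (z * (g1 + g2)))) =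
        v * (4 * u * (C (b + (c + b * c1)) + 4 * (z * (g1 + g2)))) by rw [← z_eq]]
      ring
    rw [this, coeff_C_mul]
  · generalize b + (c + b * c1) = B at *
    have h4 : red (G (8 * j + 3) * (v * (u * (C B + 4 * (z * (g1 + g2)))))) = red u := by
      rw [map_mul, map_mul, map_mul, map_add, map_mul, map_mul, red_G, red_z, red_v]
      have : red (C B) = 1 := by
        unfold red
        rw [map_C]
        have : (Int.castRingHom (ZMod 2)) B = 1 := by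
          rcases hodd with ⟨d, rfl⟩
          simp
          left
          decide
        rw [this, map_one]
      rw [this]; ring
    have h5 := congrArg (coeff t) h4
    unfold red at h5
    rw [coeff_map, coeff_map, coeff_u] at h5
    have h6 : ((coeff t (G (8 * j + 3) * (v * (u * (C B + 4 * (z * (g1 + g2)))))) : ℤ) :
        ZMod 2) = ((t : ℤ) : ZMod 2) := h5
    have h7 := (ZMod.intCast_eq_intCast_iff_dvd_sub _ _ 2).1 h6
    rcases ht with ⟨d, rfl⟩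
    push_cast at h7
    omega

end Pool.Agent.V11276.CB
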