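import Mathlib

namespace Pool.Agent.V11276.DC

open Finset Complex

lemma subsum {ι : Type*} [DecidableEq ι] (r : ι → ℝ) (ρ : ℝ) (hρ : 0 ≤ ρ) (W : Finset ι) :
    (∀ i ∈ W, 0 ≤ r i) → (∀ i ∈ W, r i ≤ ρ) → ∀ t : ℝ, 0 ≤ t → t ≤ ∑ i ∈ W, r i →
    ∃ T ⊆ W, t - ρ ≤ ∑ i ∈ T, r i ∧ ∑ i ∈ T, r i ≤ t := by
  induction W using Finset.induction_on with
  | empty =>
    intro _ _ t ht0 ht
    simp only [Finset.sum_empty] at ht
    refine ⟨∅, Finset.Subset.refl _, ?_, ?_⟩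
    · simp only [Finset.sum_empty]; linarith
    · simpa using ht0
  | insert a W ha ih =>
    intro h0 h1 t ht0 ht
    have h0' : ∀ i ∈ W, 0 ≤ r i := fun i hi => h0 i (Finset.mem_insert_of_mem hi)
    have h1' : ∀ i ∈ W, r i ≤ ρ := fun i hi => h1 i (Finset.mem_insert_of_mem hi)
    by_cases h : t ≤ ∑ i ∈ W, r i
    · obtain ⟨T, hT, h2, h3⟩ := ih h0' h1' t ht0 h
      exact ⟨T, hT.trans (Finset.subset_insert _ _), h2, h3⟩
    · push Not at h
      rw [Finset.sum_insert ha] at ht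
      have := h1 a (Finset.mem_insert_self _ _)
      exact ⟨W, Finset.subset_insert _ _, by linarith, h.le⟩

/-- real and imaginary parts in the basis `e, i e` -/
noncomputable def re' (e z : ℂ) : ℝ := (z * (starRingEnd ℂ) e).re
noncomputable def im' (e z : ℂ) : ℝ := (z * (starRingEnd ℂ) e).im

lemma re'_sub (e z w : ℂ) : re' e (z - w) = re' e z - re' e w := by
  unfold re'; rw [sub_mul, sub_re]
lemma im'_sub (e z w : ℂ) : im' e (z - w) = im' e z - im' e w := by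
  unfold im'; rw [sub_mul, sub_im]
lemma re'_add (e z w : ℂ) : re' e (z + w) = re' e z + re' e w := by
  unfold re'; rw [add_mul, add_re]
lemma im'_add (e z w : ℂ) : im' e (z + w) = im' e z + im' e w := by
  unfold im'; rw [add_mul, add_im]
lemma re'_sum {ι : Type*} (e : ℂ) (T : Finset ι) (u : ι → ℂ) :
    re' e (∑ i ∈ T, u i) = ∑ i ∈ T, re' e (u i) := by
  unfold re'; rw [Finset.sum_mul, re_sum]
lemma im'_sum {ι : Type*} (e : ℂ) (T : Finset ι) (u : ι → ℂ) :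
    im' e (∑ i ∈ T, u i) = ∑ i ∈ T, im' e (u i) := by
  unfold im'; rw [Finset.sum_mul, im_sum]

lemma re'_rot (e z : ℂ) : re' (I * e) z = im' e z := by
  unfold re' im'; simp; ring
lemma im'_rot (e z : ℂ) : im' (I * e) z = - re' e z := by
  unfold re' im'; simp
lemma re'_neg (e z : ℂ) : re' (-e) z = - re' e z := by
  unfold re'; simp
lemma im'_neg (e z : ℂ) : im' (-e) z = - im' e z := by
  unfold im'; simp

lemma norm_le' (e z : ℂ) (he : ‖e‖ = 1) : ‖z‖ ≤ |re' e z| + |im' e z| := by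
  have : ‖z‖ = ‖z * (starRingEnd ℂ) e‖ := by rw [norm_mul, RCLike.norm_conj, he, mul_one]
  rw [this]; exact norm_le_abs_re_add_abs_im _
lemma re'_le (e z : ℂ) (he : ‖e‖ = 1) : |re' e z| ≤ ‖z‖ := by
  have : ‖z‖ = ‖z * (starRingEnd ℂ) e‖ := by rw [norm_mul, RCLike.norm_conj, he, mul_one]
  rw [this]; exact abs_re_le_norm _
lemma im'_le (e z : ℂ) (he : ‖e‖ = 1) : |im' e z| ≤ ‖z‖ := by
  have : ‖z‖ = ‖z * (starRingEnd ℂ) e‖ := by rw [norm_mul, RCLike.norm_conj, he, mul_one]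
  rw [this]; exact abs_im_le_norm _

/-- `z'` is obtained from `z` by subtracting a signed sum of distinct `u q`, `q` prime in `(y, Y]`. -/
def Step (u : ℕ → ℂ) (y Y : ℕ) (z z' : ℂ) : Prop :=
  ∃ T1 T2 : Finset ℕ, (∀ q ∈ T1, q.Prime ∧ y < q ∧ q ≤ Y) ∧ (∀ q ∈ T2, q.Prime ∧ y < q ∧ q ≤ Y) ∧
    z' = z - ∑ q ∈ T1, u q + ∑ q ∈ T2, u q

lemma Step.refl (u : ℕ → ℂ) (y Y : ℕ) (z : ℂ) : Step u y Y z z :=
  ⟨∅, ∅, by simp, by simp, by simp⟩

lemma Step.mono {u : ℕ → ℂ} {y Y y' Y' : ℕ} {z z' : ℂ} (h : Step u y Y z z') (h1 : y' ≤ y) (h2 : Y ≤ Y') :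
    Step u y' Y' z z' := by
  obtain ⟨T1, T2, a, b, c⟩ := h
  exact ⟨T1, T2, fun q hq => ⟨(a q hq).1, by have := (a q hq).2.1; omega, by have := (a q hq).2.2; omega⟩,
    fun q hq => ⟨(b q hq).1, by have := (b q hq).2.1; omega, by have := (b q hq).2.2; omega⟩, c⟩

lemma Step.trans {u : ℕ → ℂ} {y Y Y' : ℕ} {z z' z'' : ℂ} (h : Step u y Y z z') (h' : Step u Y Y' z' z'')
    (h1 : y ≤ Y) (h2 : Y ≤ Y') : Step u y Y' z z'' := by
  obtain ⟨T1, T2, a, b, c⟩ := h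
  obtain ⟨S1, S2, a', b', c'⟩ := h'
  refine ⟨T1 ∪ S1, T2 ∪ S2, ?_, ?_, ?_⟩
  · intro q hq
    rcases Finset.mem_union.mp hq with h | h
    · have := a q h; exact ⟨this.1, this.2.1, by omega⟩
    · have := a' q h; exact ⟨this.1, by omega, this.2.2⟩
  · intro q hq
    rcases Finset.mem_union.mp hq with h | h
    · have := b q h; exact ⟨this.1, this.2.1, by omega⟩
    · have := b' q h; exact ⟨this.1, by omega, this.2.2⟩
  · have d1 : Disjoint T1 S1 := by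
      rw [Finset.disjoint_left]; intro q hq hq'
      have := a q hq; have := a' q hq'; omega
    have d2 : Disjoint T2 S2 := by
      rw [Finset.disjoint_left]; intro q hq hq'
      have := b q hq; have := b' q hq'; omega
    rw [Finset.sum_union d1, Finset.sum_union d2, c', c]; ring

/-- abstract window step -/
lemma window (u : ℕ → ℂ) (y Y : ℕ) (e : ℂ) (W : Finset ℕ) (hW : ∀ q ∈ W, q.Prime ∧ y < q ∧ q ≤ Y)
    (ρ η : ℝ) (hρ : 0 ≤ ρ) (h0 : ∀ q ∈ W, 0 ≤ re' e (u q)) (h1 : ∀ q ∈ W, re' e (u q) ≤ ρ)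
    (h2 : ∀ q ∈ W, |im' e (u q)| ≤ η * re' e (u q)) (z : ℂ) (t : ℝ) (ht0 : 0 ≤ t)
    (ht1 : t ≤ |re' e z|) (ht2 : t ≤ ∑ q ∈ W, re' e (u q)) (hη : 0 ≤ η) :
    ∃ z', Step u y Y z z' ∧ |re' e z'| ≤ |re' e z| - t + ρ ∧ |im' e z'| ≤ |im' e z| + η * t := by
  obtain ⟨T, hT, h3, h4⟩ := subsum (fun q => re' e (u q)) ρ hρ W h0 h1 t ht0 ht2
  have hT0 : 0 ≤ ∑ q ∈ T, re' e (u q) := Finset.sum_nonneg (fun q hq => h0 q (hT hq))
  have him : |im' e (∑ q ∈ T, u q)| ≤ η * t := by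
    rw [im'_sum]
    calc |∑ q ∈ T, im' e (u q)| ≤ ∑ q ∈ T, |im' e (u q)| := Finset.abs_sum_le_sum_abs _ _
      _ ≤ ∑ q ∈ T, η * re' e (u q) := Finset.sum_le_sum (fun q hq => h2 q (hT hq))
      _ = η * ∑ q ∈ T, re' e (u q) := by rw [Finset.mul_sum]
      _ ≤ η * t := mul_le_mul_of_nonneg_left h4 hη
  rcases le_total 0 (re' e z) with hz | hz
  · refine ⟨z - ∑ q ∈ T, u q, ⟨T, ∅, fun q hq => hW q (hT hq), by simp, by simp⟩, ?_, ?_⟩
    · rw [re'_sub, re'_sum, abs_of_nonneg hz]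
      rw [abs_of_nonneg hz] at ht1
      rw [abs_of_nonneg (by linarith)]
      linarith
    · rw [im'_sub]
      calc |im' e z - im' e (∑ q ∈ T, u q)| ≤ |im' e z| + |im' e (∑ q ∈ T, u q)| := abs_sub _ _
        _ ≤ _ := by linarith
  · refine ⟨z + ∑ q ∈ T, u q, ⟨∅, T, by simp, fun q hq => hW q (hT hq), by simp⟩, ?_, ?_⟩
    · rw [re'_add, re'_sum, abs_of_nonpos hz]
      rw [abs_of_nonpos hz] at ht1
      rw [abs_of_nonpos (by linarith)]
      linarith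
    · rw [im'_add]
      calc |im' e z + im' e (∑ q ∈ T, u q)| ≤ |im' e z| + |im' e (∑ q ∈ T, u q)| := abs_add_le _ _
        _ ≤ _ := by linarith

end Pool.Agent.V11276.DC
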