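import Pool.Agent.V11276.DC1

namespace Pool.Agent.V11276.DC

open Finset Complex

/-- primes in `(y, 4y]` -/
def Win (y : ℕ) : Finset ℕ := (Finset.Ioc y (4 * y)).filter Nat.Prime

lemma Win_log (y : ℕ) : ∑ q ∈ Win y, Real.log q = Chebyshev.theta ((4 * y : ℕ) : ℝ) - Chebyshev.theta (y : ℝ) := by
  unfold Chebyshev.theta Win
  rw [Nat.floor_natCast, Nat.floor_natCast]
  have h : (Finset.Ioc 0 (4 * y)).filter Nat.Prime =
      (Finset.Ioc 0 y).filter Nat.Prime ∪ (Finset.Ioc y (4 * y)).filter Nat.Prime := by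
    rw [← Finset.filter_union]
    congr 1
    ext q
    simp only [Finset.mem_Ioc, Finset.mem_union]
    omega
  rw [h, Finset.sum_union]
  · ring
  · rw [Finset.disjoint_left]
    intro q h1 h2
    simp only [Finset.mem_filter, Finset.mem_Ioc] at h1 h2
    omega

lemma cheb : ∃ Y0 : ℕ, ∀ y : ℕ, Y0 ≤ y → (y : ℝ) ≤ ∑ q ∈ Win y, Real.log q := by
  have h1 : ∀ᶠ x : ℝ in Filter.atTop, Real.log x ≤ (1 / 100) * x ^ (1 / 4 : ℝ) := by
    have := (isLittleO_log_rpow_atTop (by norm_num : (0:ℝ) < 1 / 4)).bound (by norm_num : (0:ℝ) < 1 / 100)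
    filter_upwards [this, Filter.eventually_ge_atTop 1] with x hx hx1
    rw [Real.norm_of_nonneg (Real.log_nonneg hx1), Real.norm_of_nonneg (by positivity)] at hx
    exact hx
  obtain ⟨X0, hX0⟩ := Filter.eventually_atTop.mp h1
  refine ⟨max 100 (Nat.ceil X0), fun y hy => ?_⟩
  have hy1 : 100 ≤ y := le_trans (le_max_left _ _) hy
  have hy2 : X0 ≤ y := le_trans (Nat.le_ceil _) (by exact_mod_cast le_trans (le_max_right _ _) hy)
  have hy1' : (100:ℝ) ≤ y := by exact_mod_cast hy1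
  rw [Win_log]
  have h2 := Chebyshev.theta_ge (4 * y)
  have h3 := Chebyshev.theta_le_log4_mul_x (x := (y:ℝ)) (by positivity)
  have h4 : Real.log 4 = 2 * Real.log 2 := by
    rw [show (4:ℝ) = 2 ^ 2 by norm_num, Real.log_pow]; norm_num
  have hl2 : 0.69 < Real.log 2 := by have := Real.log_two_gt_d9; linarith
  push_cast at h2 ⊢
  -- bound the logs
  have h5 : Real.log (4 * (y:ℝ)) ≤ (1 / 100) * (4 * (y:ℝ)) ^ (1 / 4 : ℝ) := hX0 _ (by linarith)
  have h6 : Real.log (4 * (y:ℝ) + 1) ≤ Real.log (4 * (y:ℝ)) + 1 := by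
    have h7 : Real.log (4 * (y:ℝ) + 1) = Real.log (4 * (y:ℝ)) + Real.log (1 + 1 / (4 * (y:ℝ))) := by
      rw [← Real.log_mul (by positivity) (by positivity)]; congr 1; field_simp
    have h8 : Real.log (1 + 1 / (4 * (y:ℝ))) ≤ 1 / (4 * (y:ℝ)) := by
      have := Real.log_le_sub_one_of_pos (x := 1 + 1 / (4 * (y:ℝ))) (by positivity)
      linarith
    have h9 : 1 / (4 * (y:ℝ)) ≤ 1 := by
      rw [div_le_one (by positivity)]; linarith
    linarith
  have hs : √(4 * (y:ℝ)) * √(4 * (y:ℝ)) = 4 * (y:ℝ) := Real.mul_self_sqrt (by positivity)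
  have hq : (4 * (y:ℝ)) ^ (1 / 4 : ℝ) ≤ √(4 * (y:ℝ)) := by
    rw [Real.sqrt_eq_rpow]
    exact Real.rpow_le_rpow_of_exponent_le (by linarith) (by norm_num)
  have hs20 : 20 ≤ √(4 * (y:ℝ)) := by
    apply Real.le_sqrt_of_sq_le; norm_num; linarith
  have hlog0 : 0 ≤ Real.log (4 * (y:ℝ)) := Real.log_nonneg (by linarith)
  have h10 : 2 * √(4 * (y:ℝ)) * Real.log (4 * (y:ℝ)) ≤ 2 * √(4 * (y:ℝ)) * ((1 / 100) * √(4 * (y:ℝ))) := by
    apply mul_le_mul_of_nonneg_left _ (by positivity)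
    linarith
  have h11 : Real.log (4 * (y:ℝ)) ≤ (1 / 100) * √(4 * (y:ℝ)) := by linarith
  nlinarith

noncomputable def cc (a b : ℝ) : ℂ := -(a : ℂ) + b * I

noncomputable def XX (a b : ℝ) (q : ℕ) : ℂ := (q : ℂ) ^ (cc a b)

noncomputable def uu (a b : ℝ) (q : ℕ) : ℂ := Complex.log (1 + XX a b q)

noncomputable def dir (b : ℝ) (y : ℕ) : ℂ := Complex.exp (((b * Real.log y : ℝ) : ℂ) * I)

lemma norm_dir (b : ℝ) (y : ℕ) : ‖dir b y‖ = 1 := by
  unfold dir; exact Complex.norm_exp_ofReal_mul_I _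

lemma XX_eq (a b : ℝ) (q : ℕ) (hq : 0 < q) :
    XX a b q = (((q:ℝ) ^ (-a) : ℝ) : ℂ) * Complex.exp (((b * Real.log q : ℝ) : ℂ) * I) := by
  unfold XX cc
  have hq' : (q:ℂ) ≠ 0 := by exact_mod_cast hq.ne'
  rw [Complex.cpow_def_of_ne_zero hq', Real.rpow_def_of_pos (by exact_mod_cast hq)]
  rw [← Complex.natCast_log, Complex.ofReal_exp, ← Complex.exp_add]
  congr 1
  push_cast
  ring

lemma XX_norm (a b : ℝ) (q : ℕ) (hq : 0 < q) : ‖XX a b q‖ = (q:ℝ) ^ (-a) := by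
  rw [XX_eq a b q hq, norm_mul, Complex.norm_exp_ofReal_mul_I, mul_one, Complex.norm_real]
  exact Real.norm_of_nonneg (by positivity)

lemma XX_dir (a b : ℝ) (q y : ℕ) (hq : 0 < q) :
    XX a b q * (starRingEnd ℂ) (dir b y) =
      (((q:ℝ) ^ (-a) : ℝ) : ℂ) * Complex.exp (((b * (Real.log q - Real.log y) : ℝ) : ℂ) * I) := by
  rw [XX_eq a b q hq, dir, ← Complex.exp_conj, mul_assoc, ← Complex.exp_add]
  congr 2
  simp only [map_mul, Complex.conj_ofReal, Complex.conj_I]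
  push_cast
  ring

lemma re_XX (a b : ℝ) (q y : ℕ) (hq : 0 < q) :
    re' (dir b y) (XX a b q) = (q:ℝ) ^ (-a) * Real.cos (b * (Real.log q - Real.log y)) := by
  unfold re'
  rw [XX_dir a b q y hq, Complex.re_ofReal_mul, Complex.exp_ofReal_mul_I_re]

lemma im_XX (a b : ℝ) (q y : ℕ) (hq : 0 < q) :
    im' (dir b y) (XX a b q) = (q:ℝ) ^ (-a) * Real.sin (b * (Real.log q - Real.log y)) := by
  unfold im'
  rw [XX_dir a b q y hq, Complex.im_ofReal_mul, Complex.exp_ofReal_mul_I_im]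

lemma uu_close (a b : ℝ) (q : ℕ) (hq : 0 < q) (h : (q:ℝ) ^ (-a) ≤ 1 / 2) :
    ‖uu a b q - XX a b q‖ ≤ ((q:ℝ) ^ (-a)) ^ 2 := by
  have hn := XX_norm a b q hq
  have h1 := Complex.norm_log_one_add_sub_self_le (z := XX a b q) (by rw [hn]; linarith)
  rw [hn] at h1
  unfold uu
  refine le_trans h1 ?_
  have h0 : 0 ≤ (q:ℝ) ^ (-a) := by positivity
  have h2 : (1 - (q:ℝ) ^ (-a))⁻¹ ≤ 2 := by
    rw [inv_le_comm₀ (by linarith) (by norm_num)]; linarith
  have h3 : 0 ≤ ((q:ℝ) ^ (-a)) ^ 2 := by positivity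
  nlinarith

/-- capacity lower bound -/
noncomputable def cap (a : ℝ) (y : ℕ) : ℝ := (y:ℝ) ^ (1 - a) / (64 * Real.log y)

lemma uu_bounds (a b : ℝ) (ha : 1 ≤ a) (hb : 0 ≤ b) (hb4 : b * Real.log 4 ≤ 1 / 100)
    (y q : ℕ) (hy : 200 ≤ y) (hq : y < q) (hq4 : q ≤ 4 * y) :
    (1 / 2) * (q:ℝ) ^ (-a) ≤ re' (dir b y) (uu a b q) ∧ re' (dir b y) (uu a b q) ≤ 2 * (y:ℝ) ^ (-a) ∧
    |im' (dir b y) (uu a b q)| ≤ (1 / 40) * re' (dir b y) (uu a b q) := by
  have hq0 : 0 < q := by omega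
  have hqR : (y:ℝ) ≤ q := by exact_mod_cast hq.le
  have hyR : (200:ℝ) ≤ y := by exact_mod_cast hy
  have hy0 : (0:ℝ) < y := by linarith
  have hr0 : 0 < (q:ℝ) ^ (-a) := by positivity
  have hr1 : (q:ℝ) ^ (-a) ≤ (y:ℝ) ^ (-a) := Real.rpow_le_rpow_of_nonpos hy0 hqR (by linarith)
  have hr2 : (y:ℝ) ^ (-a) ≤ 1 / 200 := by
    have h1 : (y:ℝ) ^ (-a) ≤ (y:ℝ) ^ (-1:ℝ) := Real.rpow_le_rpow_of_exponent_le (by linarith) (by linarith)
    have h2 : (y:ℝ) ^ (-1:ℝ) = 1 / y := by rw [Real.rpow_neg_one]; simp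
    rw [h2] at h1
    exact le_trans h1 (one_div_le_one_div_of_le (by norm_num) hyR)
  set φ := b * (Real.log q - Real.log y) with hφ
  have hl0 : 0 ≤ Real.log q - Real.log y := by
    have := Real.log_le_log hy0 hqR; linarith
  have hl1 : Real.log q - Real.log y ≤ Real.log 4 := by
    have h1 : Real.log q ≤ Real.log (4 * y) :=
      Real.log_le_log (by exact_mod_cast hq0) (by exact_mod_cast hq4)
    rw [Real.log_mul (by norm_num) hy0.ne'] at h1; linarith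
  have hφ0 : 0 ≤ φ := mul_nonneg hb hl0
  have hφ1 : φ ≤ 1 / 100 := le_trans (mul_le_mul_of_nonneg_left hl1 hb) hb4
  have hcos : 99 / 100 ≤ Real.cos φ := by
    have := Real.one_sub_sq_div_two_le_cos (x := φ); nlinarith
  have hcos1 := Real.cos_le_one φ
  have hsin : |Real.sin φ| ≤ 1 / 100 := by
    have := Real.abs_sin_le_abs (x := φ)
    rw [abs_of_nonneg hφ0] at this; linarith
  have hcl := uu_close a b q hq0 (by linarith)
  have hre : |re' (dir b y) (uu a b q - XX a b q)| ≤ ((q:ℝ) ^ (-a)) ^ 2 :=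
    le_trans (re'_le _ _ (norm_dir b y)) hcl
  have him : |im' (dir b y) (uu a b q - XX a b q)| ≤ ((q:ℝ) ^ (-a)) ^ 2 :=
    le_trans (im'_le _ _ (norm_dir b y)) hcl
  rw [re'_sub, re_XX a b q y hq0, ← hφ] at hre
  rw [im'_sub, im_XX a b q y hq0, ← hφ] at him
  set r := (q:ℝ) ^ (-a) with hr
  have hr3 : r ≤ 1 / 200 := by linarith
  have hr4 : r ^ 2 ≤ r * (1 / 200) := by nlinarith
  have hc1 : r * (99 / 100) ≤ r * Real.cos φ := mul_le_mul_of_nonneg_left hcos hr0.le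
  have hc2 : r * Real.cos φ ≤ r * 1 := mul_le_mul_of_nonneg_left hcos1 hr0.le
  have hs1 : |r * Real.sin φ| ≤ r * (1 / 100) := by
    rw [abs_mul, abs_of_pos hr0]; exact mul_le_mul_of_nonneg_left hsin hr0.le
  rw [abs_le] at hre
  have him2 : |im' (dir b y) (uu a b q)| ≤ r * (1 / 100) + r * (1 / 200) := by
    have : im' (dir b y) (uu a b q) = (im' (dir b y) (uu a b q) - r * Real.sin φ) + r * Real.sin φ := by ring
    rw [this]
    refine le_trans (abs_add_le _ _) ?_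
    linarith
  refine ⟨by linarith [hre.1], by linarith [hre.2], ?_⟩
  linarith [hre.1]

lemma cap_le (a b : ℝ) (ha : 1 ≤ a) (ha2 : a ≤ 2) (hb : 0 ≤ b) (hb4 : b * Real.log 4 ≤ 1 / 100)
    (y : ℕ) (hy : 200 ≤ y) (hch : (y : ℝ) ≤ ∑ q ∈ Win y, Real.log q) :
    cap a y ≤ ∑ q ∈ Win y, re' (dir b y) (uu a b q) := by
  have hyR : (200:ℝ) ≤ y := by exact_mod_cast hy
  have hy0 : (0:ℝ) < y := by linarith
  have hlogy : 0 < Real.log y := Real.log_pos (by linarith)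
  have h4y : Real.log (4 * (y:ℝ)) ≤ 2 * Real.log y := by
    rw [Real.log_mul (by norm_num) hy0.ne']
    have : Real.log 4 ≤ Real.log y := Real.log_le_log (by norm_num) (by linarith)
    linarith
  have hterm : ∀ q ∈ Win y, Real.log q * ((4 * (y:ℝ)) ^ (-a) / (4 * Real.log y)) ≤
      re' (dir b y) (uu a b q) := by
    intro q hq
    simp only [Win, Finset.mem_filter, Finset.mem_Ioc] at hq
    have hb := (uu_bounds a b ha hb hb4 y q hy hq.1.1 hq.1.2).1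
    refine le_trans ?_ hb
    have hq0 : (0:ℝ) < q := by exact_mod_cast (by omega : 0 < q)
    have hq4 : (q:ℝ) ≤ 4 * y := by exact_mod_cast hq.1.2
    have hlq : Real.log q ≤ 2 * Real.log y := le_trans (Real.log_le_log hq0 hq4) h4y
    have hpw : (4 * (y:ℝ)) ^ (-a) ≤ (q:ℝ) ^ (-a) := Real.rpow_le_rpow_of_nonpos hq0 hq4 (by linarith)
    have h4 : 0 ≤ (4 * (y:ℝ)) ^ (-a) := by positivity
    calc Real.log q * ((4 * (y:ℝ)) ^ (-a) / (4 * Real.log y))
        ≤ (2 * Real.log y) * ((4 * (y:ℝ)) ^ (-a) / (4 * Real.log y)) :=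
          mul_le_mul_of_nonneg_right hlq (by positivity)
      _ = (1 / 2) * (4 * (y:ℝ)) ^ (-a) := by field_simp; ring
      _ ≤ _ := by linarith
  have h5 : cap a y ≤ (∑ q ∈ Win y, Real.log q) * ((4 * (y:ℝ)) ^ (-a) / (4 * Real.log y)) := by
    have h6 : (4 * (y:ℝ)) ^ (-a) = (4:ℝ) ^ (-a) * (y:ℝ) ^ (-a) := Real.mul_rpow (by norm_num) hy0.le
    have h7 : (1:ℝ) / 16 ≤ (4:ℝ) ^ (-a) := by
      have : (4:ℝ) ^ (-2:ℝ) ≤ (4:ℝ) ^ (-a) := Real.rpow_le_rpow_of_exponent_le (by norm_num) (by linarith)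
      have h8 : (4:ℝ) ^ (-2:ℝ) = 1 / 16 := by
        rw [show (-2:ℝ) = ((-2:ℤ):ℝ) by norm_num, Real.rpow_intCast]; norm_num
      rw [h8] at this; exact this
    have h9 : (y:ℝ) ^ (1 - a) = y * (y:ℝ) ^ (-a) := by
      rw [sub_eq_add_neg, Real.rpow_add hy0, Real.rpow_one]
    unfold cap
    rw [h9]
    calc (y:ℝ) * (y:ℝ) ^ (-a) / (64 * Real.log y) = (y:ℝ) * ((1 / 16 * (y:ℝ) ^ (-a)) / (4 * Real.log y)) := by
          field_simp; ring
      _ ≤ (y:ℝ) * ((4 * (y:ℝ)) ^ (-a) / (4 * Real.log y)) := by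
          apply mul_le_mul_of_nonneg_left _ hy0.le
          apply div_le_div_of_nonneg_right _ (by positivity)
          rw [h6]
          exact mul_le_mul_of_nonneg_right h7 (by positivity)
      _ ≤ _ := mul_le_mul_of_nonneg_right hch (by positivity)
  rw [Finset.sum_mul] at h5
  exact le_trans h5 (Finset.sum_le_sum hterm)

/-- one window step at scale `y` in direction `dir b y` -/
lemma wstep (a b : ℝ) (ha : 1 ≤ a) (ha2 : a ≤ 2) (hb : 0 ≤ b) (hb4 : b * Real.log 4 ≤ 1 / 100)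
    (y : ℕ) (hy : 200 ≤ y) (hch : (y : ℝ) ≤ ∑ q ∈ Win y, Real.log q) (z : ℂ) (t : ℝ) (ht0 : 0 ≤ t)
    (ht1 : t ≤ |re' (dir b y) z|) (ht2 : t ≤ cap a y) :
    ∃ z', Step (uu a b) y (4 * y) z z' ∧ |re' (dir b y) z'| ≤ |re' (dir b y) z| - t + 2 * (y:ℝ) ^ (-a) ∧
      |im' (dir b y) z'| ≤ |im' (dir b y) z| + (1 / 40) * t := by
  have hmem : ∀ q ∈ Win y, q.Prime ∧ y < q ∧ q ≤ 4 * y := by
    intro q hq
    simp only [Win, Finset.mem_filter, Finset.mem_Ioc] at hq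
    exact ⟨hq.2, hq.1.1, hq.1.2⟩
  have hB := fun q hq => uu_bounds a b ha hb hb4 y q hy (hmem q hq).2.1 (hmem q hq).2.2
  apply window (uu a b) y (4 * y) (dir b y) (Win y) hmem (2 * (y:ℝ) ^ (-a)) (1 / 40) (by positivity)
    (fun q hq => le_trans (by positivity) (hB q hq).1) (fun q hq => (hB q hq).2.1)
    (fun q hq => (hB q hq).2.2) z t ht0 ht1 (le_trans ht2 (cap_le a b ha ha2 hb hb4 y hy hch)) (by norm_num)

end Pool.Agent.V11276.DC
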