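import Pool.Agent.V11276.DC2

namespace Pool.Agent.V11276.DC

open Finset Complex

lemma log4_pos : 0 < Real.log 4 := Real.log_pos (by norm_num)
lemma log4_le : Real.log 4 ≤ 2 := by
  have h4 : Real.log 4 = 2 * Real.log 2 := by
    rw [show (4:ℝ) = 2 ^ 2 by norm_num, Real.log_pow]; norm_num
  have := Real.log_two_lt_d9; linarith
lemma log4_ge : 1 ≤ Real.log 4 := by
  have h4 : Real.log 4 = 2 * Real.log 2 := by
    rw [show (4:ℝ) = 2 ^ 2 by norm_num, Real.log_pow]; norm_num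
  have := Real.log_two_gt_d9; linarith

structure Par (M : ℕ) (b : ℝ) : Prop where
  hM : 200 ≤ M
  hb : b = Real.pi / (2 * M * Real.log 4)

lemma Par.b_pos {M : ℕ} {b : ℝ} (h : Par M b) : 0 < b := by
  rw [h.hb]
  have : (0:ℝ) < M := by exact_mod_cast (by have := h.hM; omega : 0 < M)
  have := log4_pos
  positivity

lemma Par.b4 {M : ℕ} {b : ℝ} (h : Par M b) : b * Real.log 4 ≤ 1 / 100 := by
  have hM : (200:ℝ) ≤ M := by exact_mod_cast h.hM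
  have hl := log4_pos
  have e : b * Real.log 4 = Real.pi / (2 * M) := by rw [h.hb]; field_simp
  rw [e, div_le_div_iff₀ (by positivity) (by norm_num)]
  have := Real.pi_lt_four
  linarith

lemma Par.rot {M : ℕ} {b : ℝ} (h : Par M b) (y : ℕ) (hy : 0 < y) : dir b (4 ^ M * y) = I * dir b y := by
  unfold dir
  have hM : (0:ℝ) < M := by exact_mod_cast (by have := h.hM; omega : 0 < M)
  have hl := log4_pos
  have e : b * Real.log ((4 ^ M * y : ℕ) : ℝ) = Real.pi / 2 + b * Real.log y := by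
    push_cast
    rw [Real.log_mul (by positivity) (by positivity), Real.log_pow, mul_add, h.hb]
    field_simp
  rw [e]
  push_cast
  rw [add_mul, Complex.exp_add]
  have : Complex.exp ((Real.pi : ℂ) / 2 * I) = I := Complex.exp_pi_div_two_mul_I
  rw [this]

lemma Par.rot2 {M : ℕ} {b : ℝ} (h : Par M b) (y : ℕ) (hy : 0 < y) :
    dir b (4 ^ M * (4 ^ M * y)) = - dir b y := by
  rw [h.rot _ (by positivity), h.rot y hy, ← mul_assoc, I_mul_I]; ring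

/-- norm-like size in the basis of scale `y` -/
noncomputable def Ph (b : ℝ) (y : ℕ) (z : ℂ) : ℝ := |re' (dir b y) z| + |im' (dir b y) z|

def ChebAt (y : ℕ) : Prop := (y : ℝ) ≤ ∑ q ∈ Win y, Real.log q

lemma fourM (M : ℕ) (hM : 200 ≤ M) : 4 ≤ 4 ^ M := by
  calc 4 = 4 ^ 1 := by norm_num
    _ ≤ 4 ^ M := Nat.pow_le_pow_right (by norm_num) (by omega)

lemma pow_neg_mono (a : ℝ) (ha : 0 ≤ a) (y Y : ℕ) (hy : 0 < y) (h : y ≤ Y) : (Y:ℝ) ^ (-a) ≤ (y:ℝ) ^ (-a) :=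
  Real.rpow_le_rpow_of_nonpos (by exact_mod_cast hy) (by exact_mod_cast h) (by linarith)

lemma dstep {M : ℕ} {b : ℝ} (h : Par M b) (a : ℝ) (ha : 1 ≤ a) (ha2 : a ≤ 2) (y : ℕ) (hy : 200 ≤ y)
    (hc1 : ChebAt y) (hc2 : ChebAt (4 ^ M * y)) (z : ℂ) (f1 f2 : ℝ → ℝ)
    (hf1 : 0 ≤ f1 |re' (dir b y) z| ∧ f1 |re' (dir b y) z| ≤ |re' (dir b y) z| ∧
      f1 |re' (dir b y) z| ≤ cap a y)
    (hf2 : ∀ z1 : ℂ, |re' (dir b y) z1| ≤ |re' (dir b y) z| - f1 |re' (dir b y) z| + 2 * (y:ℝ) ^ (-a) →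
      |im' (dir b y) z1| ≤ |im' (dir b y) z| + (1 / 40) * f1 |re' (dir b y) z| →
      0 ≤ f2 |im' (dir b y) z1| ∧ f2 |im' (dir b y) z1| ≤ |im' (dir b y) z1| ∧
      f2 |im' (dir b y) z1| ≤ cap a (4 ^ M * y)) :
    ∃ z1 z2, Step (uu a b) y (4 ^ M * (4 ^ M * y)) z z2 ∧
      |re' (dir b y) z1| ≤ |re' (dir b y) z| - f1 |re' (dir b y) z| + 2 * (y:ℝ) ^ (-a) ∧
      |im' (dir b y) z1| ≤ |im' (dir b y) z| + (1 / 40) * f1 |re' (dir b y) z| ∧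
      |im' (dir b y) z2| ≤ |im' (dir b y) z1| - f2 |im' (dir b y) z1| + 2 * (y:ℝ) ^ (-a) ∧
      |re' (dir b y) z2| ≤ |re' (dir b y) z1| + (1 / 40) * f2 |im' (dir b y) z1| := by
  have hb := h.b_pos
  have h4M := fourM M h.hM
  obtain ⟨z1, s1, r1, i1⟩ := wstep a b ha ha2 hb.le h.b4 y hy hc1 z _ hf1.1 hf1.2.1 hf1.2.2
  obtain ⟨g0, g1, g2⟩ := hf2 z1 r1 i1
  have hy' : 200 ≤ 4 ^ M * y := by nlinarith
  have hrot := h.rot y (by omega)
  have hre : |re' (dir b (4 ^ M * y)) z1| = |im' (dir b y) z1| := by rw [hrot, re'_rot]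
  obtain ⟨z2, s2, r2, i2⟩ := wstep a b ha ha2 hb.le h.b4 (4 ^ M * y) hy' hc2 z1 (f2 |im' (dir b y) z1|) g0
    (by rw [hre]; exact g1) g2
  rw [hrot, re'_rot, re'_rot, im'_rot, im'_rot, abs_neg, abs_neg] at *
  refine ⟨z1, z2, ?_, r1, i1, ?_, i2⟩
  · have e1 : 4 * y ≤ 4 ^ M * y := Nat.mul_le_mul_right y h4M
    have e2 : 4 * (4 ^ M * y) ≤ 4 ^ M * (4 ^ M * y) := Nat.mul_le_mul_right _ h4M
    exact Step.trans (s1.mono le_rfl e1) (s2.mono le_rfl e2) (by nlinarith) (by nlinarith)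
  · have := pow_neg_mono a (by linarith) y (4 ^ M * y) (by omega) (by nlinarith)
    linarith

/-- version 1: both components are reduced by a factor 20 -/
lemma dstep1 {M : ℕ} {b : ℝ} (h : Par M b) (a : ℝ) (ha : 1 ≤ a) (ha2 : a ≤ 2) (y : ℕ) (hy : 200 ≤ y)
    (hc1 : ChebAt y) (hc2 : ChebAt (4 ^ M * y)) (z : ℂ) (r : ℝ)
    (hr1 : |re' (dir b y) z| ≤ r) (hr2 : |im' (dir b y) z| ≤ r) (h1 : 2 * r ≤ cap a y)
    (h2 : 2 * r ≤ cap a (4 ^ M * y)) :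
    ∃ z2, Step (uu a b) y (4 ^ M * (4 ^ M * y)) z z2 ∧
      |re' (dir b (4 ^ M * (4 ^ M * y))) z2| ≤ r / 20 + 2 * (y:ℝ) ^ (-a) ∧
      |im' (dir b (4 ^ M * (4 ^ M * y))) z2| ≤ r / 20 + 2 * (y:ℝ) ^ (-a) := by
  have hr0 : 0 ≤ r := le_trans (abs_nonneg _) hr1
  obtain ⟨z1, z2, s, e1, e2, e3, e4⟩ := dstep h a ha ha2 y hy hc1 hc2 z id id
    ⟨abs_nonneg _, le_rfl, by simp only [id]; linarith⟩
    (fun z1 _ hz1 => ⟨abs_nonneg _, le_rfl, by simp only [id] at hz1 ⊢; linarith⟩)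
  simp only [id] at e1 e2 e3 e4
  refine ⟨z2, s, ?_, ?_⟩
  · rw [h.rot2 y (by omega), re'_neg, abs_neg]; linarith
  · rw [h.rot2 y (by omega), im'_neg, abs_neg]; linarith

/-- version 2: `Ph` decreases -/
lemma dstep2 {M : ℕ} {b : ℝ} (h : Par M b) (a : ℝ) (ha : 1 ≤ a) (ha2 : a ≤ 2) (y : ℕ) (hy : 200 ≤ y)
    (hc1 : ChebAt y) (hc2 : ChebAt (4 ^ M * y)) (z : ℂ) (c : ℝ) (hc0 : 0 ≤ c)
    (hc : c ≤ Ph b y z / 4) (h1 : c ≤ cap a y) (h2 : c ≤ cap a (4 ^ M * y)) :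
    ∃ z2, Step (uu a b) y (4 ^ M * (4 ^ M * y)) z z2 ∧
      Ph b (4 ^ M * (4 ^ M * y)) z2 ≤ Ph b y z - c / 2 + 4 * (y:ℝ) ^ (-a) := by
  obtain ⟨z1, z2, s, e1, e2, e3, e4⟩ := dstep h a ha ha2 y hy hc1 hc2 z (fun x => min x c) (fun x => min x c)
    ⟨le_min (abs_nonneg _) hc0, min_le_left _ _, le_trans (min_le_right _ _) h1⟩
    (fun z1 _ hz1 => ⟨le_min (abs_nonneg _) hc0, min_le_left _ _, le_trans (min_le_right _ _) h2⟩)
  beta_reduce at e1 e2 e3 e4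
  refine ⟨z2, s, ?_⟩
  have hPh : Ph b (4 ^ M * (4 ^ M * y)) z2 = |re' (dir b y) z2| + |im' (dir b y) z2| := by
    unfold Ph
    rw [h.rot2 y (by omega), re'_neg, im'_neg, abs_neg, abs_neg]
  rw [hPh]
  unfold Ph at hc ⊢
  have hy0 : 0 ≤ (y:ℝ) ^ (-a) := by positivity
  have hA := abs_nonneg (re' (dir b y) z)
  have hB := abs_nonneg (im' (dir b y) z)
  rcases le_total c |re' (dir b y) z| with hcA | hcA
  · rw [min_eq_right hcA] at e1 e2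
    have hm0 : 0 ≤ min |im' (dir b y) z1| c := le_min (abs_nonneg _) hc0
    linarith
  · rw [min_eq_left hcA] at e1 e2
    rcases le_total c |im' (dir b y) z1| with hcB | hcB
    · rw [min_eq_right hcB] at e3 e4
      linarith
    · rw [min_eq_left hcB] at e3 e4
      linarith

end Pool.Agent.V11276.DC
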