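import Pool.Agent.V11276.DC3

namespace Pool.Agent.V11276.DC

open Finset Complex

def Reach (a b : ℝ) (y : ℕ) (z : ℂ) : Prop :=
  ∀ δ : ℝ, 0 < δ → ∃ Y z', y ≤ Y ∧ Step (uu a b) y Y z z' ∧ ‖z'‖ < δ

/-- the admissible radius -/
noncomputable def rad (M : ℕ) (a : ℝ) (y : ℕ) : ℝ := (1 / (1024 * M)) * ((y:ℝ) ^ (1 - a) / Real.log y)

lemma cap_lower (M : ℕ) (hM : 200 ≤ M) (a : ℝ) (ha : 1 ≤ a) (ha2 : a ≤ 1 + 1 / (2 * M)) (y : ℕ) (hy : 200 ≤ y)
    (j k : ℕ) (hk : k ≤ (2 * j + 1) * M) :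
    2 * (rad M a y * (1 / 10) ^ j) ≤ cap a (4 ^ k * y) := by
  have hMR : (200:ℝ) ≤ M := by exact_mod_cast hM
  have hyR : (200:ℝ) ≤ y := by exact_mod_cast hy
  have hy0 : (0:ℝ) < y := by linarith
  have hl4 := log4_pos
  have hl4' := log4_le
  have hl4'' := log4_ge
  have hlogy : 1 ≤ Real.log y := by
    have : Real.log 4 ≤ Real.log y := Real.log_le_log (by norm_num) (by linarith)
    linarith
  have hkR : (k:ℝ) ≤ (2 * j + 1) * M := by exact_mod_cast hk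
  have hk0 : (0:ℝ) ≤ k := by positivity
  have hj0 : (0:ℝ) ≤ j := by positivity
  -- log bound
  have hlog : Real.log ((4 ^ k * y : ℕ) : ℝ) ≤ 4 * (j + 1) * M * Real.log y := by
    push_cast
    rw [Real.log_mul (by positivity) (by positivity), Real.log_pow]
    have h1 : (k:ℝ) * Real.log 4 ≤ ((2 * j + 1) * M) * 2 := mul_le_mul hkR hl4' hl4.le (by positivity)
    have h2 : ((2 * j + 1) * M) * 2 ≤ ((2 * j + 1) * M) * 2 * Real.log y :=
      le_mul_of_one_le_right (by positivity) hlogy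
    have h3 : Real.log y ≤ 2 * M * Real.log y := by
      apply le_mul_of_one_le_left (by linarith); linarith
    calc _ ≤ ((2 * j + 1) * M) * 2 * Real.log y + 2 * M * Real.log y := by linarith
      _ = _ := by ring
  have hlogpos : 0 < Real.log ((4 ^ k * y : ℕ) : ℝ) := by
    apply Real.log_pos
    have : (1:ℕ) ≤ 4 ^ k := Nat.one_le_pow _ _ (by norm_num)
    have : 200 ≤ 4 ^ k * y := by nlinarith
    have : (200:ℝ) ≤ ((4 ^ k * y : ℕ) : ℝ) := by exact_mod_cast this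
    linarith
  -- power bound
  have hpow : (1 / 2) * (1 / 4 : ℝ) ^ j * (y:ℝ) ^ (1 - a) ≤ ((4 ^ k * y : ℕ) : ℝ) ^ (1 - a) := by
    push_cast
    rw [Real.mul_rpow (by positivity) (by positivity)]
    apply mul_le_mul_of_nonneg_right _ (by positivity)
    rw [← Real.rpow_natCast (4:ℝ) k, ← Real.rpow_mul (by norm_num)]
    have h1 : -((2 * j + 1 : ℝ) / 2) ≤ (k:ℝ) * (1 - a) := by
      have h2 : (k:ℝ) * (a - 1) ≤ ((2 * j + 1) * M) * (1 / (2 * M)) :=
        mul_le_mul hkR (by linarith) (by linarith) (by positivity)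
      have h3 : ((2 * j + 1) * M) * (1 / (2 * M)) = (2 * j + 1 : ℝ) / 2 := by field_simp
      linarith
    refine le_trans ?_ (Real.rpow_le_rpow_of_exponent_le (by norm_num) h1)
    have h4 : (4:ℝ) ^ (-((2 * j + 1 : ℝ) / 2)) = (1 / 2) * (1 / 4) ^ j := by
      have h5 : -((2 * j + 1 : ℝ) / 2) = -(1 / 2) + -(j:ℝ) := by ring
      rw [h5, Real.rpow_add (by norm_num), Real.rpow_neg (by norm_num), Real.rpow_neg (by norm_num),
        Real.rpow_natCast, ← Real.sqrt_eq_rpow, show (4:ℝ) = 2 ^ 2 by norm_num,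
        Real.sqrt_sq (by norm_num), one_div_pow]
      norm_num
    rw [h4]
  have hbern : (j + 1 : ℝ) ≤ (5 / 2) ^ j := by
    have := one_add_mul_le_pow (a := (3/2 : ℝ)) (by norm_num) j
    norm_num at this ⊢
    linarith
  unfold cap rad
  have h6 : (1 / 2) * (1 / 4 : ℝ) ^ j * (y:ℝ) ^ (1 - a) / (64 * (4 * (j + 1) * M * Real.log y)) ≤
      ((4 ^ k * y : ℕ) : ℝ) ^ (1 - a) / (64 * Real.log ((4 ^ k * y : ℕ) : ℝ)) := by
    apply div_le_div₀ (by positivity) hpow (by positivity)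
    linarith
  refine le_trans ?_ h6
  have h7 : (1 / 10 : ℝ) ^ j * (j + 1) ≤ (1 / 4) ^ j := by
    calc (1 / 10 : ℝ) ^ j * (j + 1) ≤ (1 / 10 : ℝ) ^ j * (5 / 2) ^ j :=
          mul_le_mul_of_nonneg_left hbern (by positivity)
      _ = (1 / 4) ^ j := by rw [← mul_pow]; norm_num
  have h8 : (1 / 10 : ℝ) ^ j ≤ (1 / 4) ^ j / (j + 1) := by
    rw [le_div_iff₀ (by positivity)]; exact h7
  have h9 : (1 / 2) * (1 / 4 : ℝ) ^ j * (y:ℝ) ^ (1 - a) / (64 * (4 * (j + 1) * M * Real.log y)) =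
      2 * ((1 / (1024 * M)) * ((y:ℝ) ^ (1 - a) / Real.log y) * ((1 / 4) ^ j / (j + 1))) := by
    field_simp; norm_num
  rw [h9]
  apply mul_le_mul_of_nonneg_left _ (by norm_num)
  apply mul_le_mul_of_nonneg_left h8 (by positivity)

lemma small_err (M : ℕ) (hM : 200 ≤ M) (a : ℝ) (ha : 1 ≤ a) (y : ℕ) (hy : 200 ≤ y)
    (hlog : 40 * (1024 * M) * Real.log y ≤ y) (j : ℕ) :
    2 * ((4 ^ (2 * M * j) * y : ℕ) : ℝ) ^ (-a) ≤ rad M a y * (1 / 10) ^ j / 20 := by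
  have hMR : (200:ℝ) ≤ M := by exact_mod_cast hM
  have hyR : (200:ℝ) ≤ y := by exact_mod_cast hy
  have hy0 : (0:ℝ) < y := by linarith
  have hlogy : 0 < Real.log y := Real.log_pos (by linarith)
  have h1 : ((4 ^ (2 * M * j) * y : ℕ) : ℝ) ^ (-a) ≤ (1 / 10) ^ j * (y:ℝ) ^ (-a) := by
    push_cast
    rw [Real.mul_rpow (by positivity) (by positivity)]
    apply mul_le_mul_of_nonneg_right _ (by positivity)
    have h2 : ((4:ℝ) ^ (2 * M * j)) ^ (-a) ≤ ((4:ℝ) ^ (2 * M * j)) ^ (-1:ℝ) :=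
      Real.rpow_le_rpow_of_exponent_le (one_le_pow₀ (by norm_num)) (by linarith)
    refine le_trans h2 ?_
    rw [Real.rpow_neg_one, one_div, inv_pow]
    apply inv_anti₀ (by positivity)
    rw [pow_mul]
    apply pow_le_pow_left₀ (by norm_num)
    calc (10:ℝ) ≤ 4 ^ 2 := by norm_num
      _ ≤ 4 ^ (2 * M) := pow_le_pow_right₀ (by norm_num) (by omega)
  have h3 : 40 * (y:ℝ) ^ (-a) ≤ rad M a y := by
    unfold rad
    have h9 : (y:ℝ) ^ (1 - a) = y * (y:ℝ) ^ (-a) := by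
      rw [sub_eq_add_neg, Real.rpow_add hy0, Real.rpow_one]
    rw [h9]
    have h10 : (1 / (1024 * M)) * (y * (y:ℝ) ^ (-a) / Real.log y) =
        (y / ((1024 * M) * Real.log y)) * (y:ℝ) ^ (-a) := by field_simp
    rw [h10]
    apply mul_le_mul_of_nonneg_right _ (by positivity)
    rw [le_div_iff₀ (by positivity)]
    linarith
  have h4 : 0 ≤ (1 / 10 : ℝ) ^ j := by positivity
  calc 2 * ((4 ^ (2 * M * j) * y : ℕ) : ℝ) ^ (-a) ≤ 2 * ((1 / 10) ^ j * (y:ℝ) ^ (-a)) := by linarith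
    _ = (40 * (y:ℝ) ^ (-a)) * (1 / 10) ^ j / 20 := by ring
    _ ≤ _ := by
      apply div_le_div_of_nonneg_right _ (by norm_num)
      exact mul_le_mul_of_nonneg_right h3 h4

lemma iter {M : ℕ} {b : ℝ} (h : Par M b) (Y0 : ℕ) (hY0 : ∀ y, Y0 ≤ y → ChebAt y)
    (a : ℝ) (ha : 1 ≤ a) (ha2 : a ≤ 1 + 1 / (2 * M)) (y : ℕ) (hy : 200 ≤ y) (hyY : Y0 ≤ y)
    (hlog : 40 * (1024 * M) * Real.log y ≤ y) (z : ℂ) (hz : ‖z‖ ≤ rad M a y) (j : ℕ) :
    ∃ z', Step (uu a b) y (4 ^ (2 * M * j) * y) z z' ∧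
      |re' (dir b (4 ^ (2 * M * j) * y)) z'| ≤ rad M a y * (1 / 10) ^ j ∧
      |im' (dir b (4 ^ (2 * M * j) * y)) z'| ≤ rad M a y * (1 / 10) ^ j := by
  have hM := h.hM
  have ha3 : a ≤ 2 := by
    have hMR : (200:ℝ) ≤ M := by exact_mod_cast hM
    have : 1 / (2 * (M:ℝ)) ≤ 1 := by rw [div_le_one (by positivity)]; linarith
    linarith
  induction j with
  | zero =>
    refine ⟨z, Step.refl _ _ _ _, ?_, ?_⟩
    · rw [pow_zero, mul_one]; exact le_trans (re'_le _ _ (norm_dir b _)) hz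
    · rw [pow_zero, mul_one]; exact le_trans (im'_le _ _ (norm_dir b _)) hz
  | succ j ih =>
    obtain ⟨z1, s1, r1, i1⟩ := ih
    have hpos : 1 ≤ 4 ^ (2 * M * j) := Nat.one_le_pow _ _ (by norm_num)
    have hge : y ≤ 4 ^ (2 * M * j) * y := Nat.le_mul_of_pos_left y (by omega)
    have e1 : 4 ^ M * (4 ^ (2 * M * j) * y) = 4 ^ ((2 * j + 1) * M) * y := by
      rw [← mul_assoc, ← pow_add]; congr 2; ring
    have e2 : 4 ^ M * (4 ^ M * (4 ^ (2 * M * j) * y)) = 4 ^ (2 * M * (j + 1)) * y := by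
      rw [← mul_assoc, ← mul_assoc, ← pow_add, ← pow_add]; congr 2; ring
    have hge2 : y ≤ 4 ^ M * (4 ^ (2 * M * j) * y) := by
      rw [e1]; exact Nat.le_mul_of_pos_left y (by positivity)
    have c1 := cap_lower M hM a ha ha2 y hy j (2 * M * j) (by nlinarith)
    have c2 := cap_lower M hM a ha ha2 y hy j ((2 * j + 1) * M) le_rfl
    rw [← e1] at c2
    obtain ⟨z2, s2, r2, i2⟩ := dstep1 h a ha ha3 (4 ^ (2 * M * j) * y) (le_trans hy hge)
      (hY0 _ (le_trans hyY hge)) (hY0 _ (le_trans hyY hge2)) z1 _ r1 i1 c1 c2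
    have herr := small_err M hM a ha y hy hlog j
    rw [e2] at s2 r2 i2
    refine ⟨z2, Step.trans s1 s2 hge ?_, ?_, ?_⟩
    · exact Nat.mul_le_mul_right y (Nat.pow_le_pow_right (by norm_num) (by nlinarith))
    · refine le_trans r2 ?_
      rw [pow_succ]; linarith
    · refine le_trans i2 ?_
      rw [pow_succ]; linarith

lemma local_reach {M : ℕ} {b : ℝ} (h : Par M b) :
    ∃ Y1 : ℕ, 200 ≤ Y1 ∧ ∀ a : ℝ, 1 ≤ a → a ≤ 1 + 1 / (2 * M) → ∀ y : ℕ, Y1 ≤ y → ∀ z : ℂ,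
      ‖z‖ ≤ rad M a y → Reach a b y z := by
  obtain ⟨Y0, hY0⟩ := cheb
  have h1 : ∀ᶠ x : ℝ in Filter.atTop, 40 * (1024 * M) * Real.log x ≤ x := by
    have hMR : (200:ℝ) ≤ M := by exact_mod_cast h.hM
    have := (Real.isLittleO_log_id_atTop).bound (show (0:ℝ) < 1 / (40 * (1024 * M)) by positivity)
    filter_upwards [this, Filter.eventually_ge_atTop 1] with x hx hx1
    rw [Real.norm_of_nonneg (Real.log_nonneg hx1), id, Real.norm_of_nonneg (by positivity)] at hx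
    rw [div_mul_eq_mul_div, one_mul, le_div_iff₀ (by positivity)] at hx
    linarith
  obtain ⟨X0, hX0⟩ := Filter.eventually_atTop.mp h1
  refine ⟨max 200 (max Y0 (Nat.ceil X0)), le_max_left _ _, fun a ha ha2 y hy z hz δ hδ => ?_⟩
  have hy1 : 200 ≤ y := le_trans (le_max_left _ _) hy
  have hy2 : Y0 ≤ y := le_trans (le_trans (le_max_left _ _) (le_max_right _ _)) hy
  have hy3 : X0 ≤ y := le_trans (Nat.le_ceil _)
    (by exact_mod_cast le_trans (le_trans (le_max_right _ _) (le_max_right _ _)) hy)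
  have hlog := hX0 _ hy3
  have ht : Filter.Tendsto (fun j : ℕ => 2 * (rad M a y * (1 / 10 : ℝ) ^ j)) Filter.atTop (nhds 0) := by
    have := tendsto_pow_atTop_nhds_zero_of_lt_one (r := (1/10:ℝ)) (by norm_num) (by norm_num)
    have := (this.const_mul (rad M a y)).const_mul 2
    simpa using this
  obtain ⟨j, hj⟩ := (ht.eventually (gt_mem_nhds hδ)).exists
  obtain ⟨z', s, r1, i1⟩ := iter h Y0 hY0 a ha ha2 y hy1 hy2 hlog z hz j
  refine ⟨_, z', Nat.le_mul_of_pos_left y (by positivity), s, ?_⟩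
  have := norm_le' (dir b (4 ^ (2 * M * j) * y)) z' (norm_dir b _)
  linarith

end Pool.Agent.V11276.DC
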