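import Pool.Agent.V11276.DC4

namespace Pool.Agent.V11276.DC

open Finset Complex

lemma cap_one (y : ℕ) : cap 1 y = 1 / (64 * Real.log y) := by
  unfold cap; rw [sub_self, Real.rpow_zero]

lemma Ph_nonneg (b : ℝ) (y : ℕ) (z : ℂ) : 0 ≤ Ph b y z := by
  unfold Ph; exact add_nonneg (abs_nonneg _) (abs_nonneg _)

/-- one decrease step at `a = 1` with explicit amount -/
lemma dec_step {M : ℕ} {b : ℝ} (h : Par M b) (κ : ℝ) (hκ0 : 0 < κ) (hκ1 : κ ≤ 1 / 64)
    (y : ℕ) (hy : 200 ≤ y) (hc1 : ChebAt y) (hc2 : ChebAt (4 ^ M * y))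
    (hlog : 16 * Real.log ((4 ^ M * y : ℕ) : ℝ) ≤ κ * y) (z : ℂ) (hz : 4 * κ / Real.log y ≤ Ph b y z) :
    ∃ z2, Step (uu 1 b) y (4 ^ M * (4 ^ M * y)) z z2 ∧
      Ph b (4 ^ M * (4 ^ M * y)) z2 ≤ Ph b y z - (κ / 4) / Real.log ((4 ^ M * y : ℕ) : ℝ) := by
  have hyR : (200:ℝ) ≤ y := by exact_mod_cast hy
  have hy0 : (0:ℝ) < y := by linarith
  have hlogy : 0 < Real.log y := Real.log_pos (by linarith)
  have hle : y ≤ 4 ^ M * y := Nat.le_mul_of_pos_left y (by positivity)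
  have hleR : (y:ℝ) ≤ ((4 ^ M * y : ℕ) : ℝ) := by exact_mod_cast hle
  have hlogle : Real.log y ≤ Real.log ((4 ^ M * y : ℕ) : ℝ) := Real.log_le_log hy0 hleR
  obtain ⟨L, hL⟩ : ∃ L, L = Real.log ((4 ^ M * y : ℕ) : ℝ) := ⟨_, rfl⟩
  have hcapy := cap_one y
  have hcapY := cap_one (4 ^ M * y)
  rw [← hL] at hlog hlogle hcapY ⊢
  have hLpos : 0 < L := by linarith
  have hcL : κ / L ≤ κ / Real.log y := div_le_div_of_nonneg_left hκ0.le hlogy hlogle
  have hc0 : 0 ≤ κ / L := by positivity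
  have hc : κ / L ≤ Ph b y z / 4 := by
    have : 4 * κ / Real.log y = 4 * (κ / Real.log y) := by ring
    rw [this] at hz
    linarith
  have k1 : κ / L ≤ cap 1 y := by
    rw [hcapy]
    refine le_trans hcL ?_
    rw [div_le_div_iff₀ hlogy (by positivity)]
    nlinarith
  have k2 : κ / L ≤ cap 1 (4 ^ M * y) := by
    rw [hcapY, div_le_div_iff₀ hLpos (by positivity)]
    nlinarith
  obtain ⟨z2, s, hP⟩ := dstep2 h 1 le_rfl (by norm_num) y hy hc1 hc2 z (κ / L) hc0 hc k1 k2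
  refine ⟨z2, s, le_trans hP ?_⟩
  have h5 : 4 * (y:ℝ) ^ (-1:ℝ) ≤ (κ / 4) / L := by
    rw [Real.rpow_neg_one, ← div_eq_mul_inv, div_le_div_iff₀ hy0 hLpos]
    linarith
  have h6 : κ / L / 2 - (κ / 4) / L = (κ / 4) / L := by ring
  linarith

lemma descend {M : ℕ} {b : ℝ} (h : Par M b) (ρ : ℝ) (hρ : 0 < ρ) :
    ∃ Y0 : ℕ, 200 ≤ Y0 ∧ ∀ y : ℕ, Y0 ≤ y → ∀ z : ℂ, ∃ Y z', y ≤ Y ∧ Step (uu 1 b) y Y z z' ∧
      ‖z'‖ ≤ ρ / Real.log Y := by
  obtain ⟨Y0, hY0⟩ := cheb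
  obtain ⟨κ, hκ⟩ : ∃ κ : ℝ, κ = min (ρ / 4) (1 / 64) := ⟨_, rfl⟩
  have hκ0 : 0 < κ := by rw [hκ]; exact lt_min (by positivity) (by norm_num)
  have hκ1 : κ ≤ 1 / 64 := by rw [hκ]; exact min_le_right _ _
  have hκ2 : 4 * κ ≤ ρ := by
    have : κ ≤ ρ / 4 := by rw [hκ]; exact min_le_left _ _
    linarith
  have h1 : ∀ᶠ x : ℝ in Filter.atTop, 16 * ((M * Real.log 4 + 1) * Real.log x) ≤ κ * x := by
    have hM : (0:ℝ) ≤ M := by positivity
    have hl4 := log4_pos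
    have hpos : 0 < 16 * (M * Real.log 4 + 1) := by positivity
    have := (Real.isLittleO_log_id_atTop).bound
      (show (0:ℝ) < κ / (16 * (M * Real.log 4 + 1)) from div_pos hκ0 hpos)
    filter_upwards [this, Filter.eventually_ge_atTop 1] with x hx hx1
    rw [Real.norm_of_nonneg (Real.log_nonneg hx1), id, Real.norm_of_nonneg (by positivity)] at hx
    rw [div_mul_eq_mul_div, le_div_iff₀ hpos] at hx
    linarith
  obtain ⟨X0, hX0⟩ := Filter.eventually_atTop.mp h1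
  refine ⟨max 200 (max Y0 (Nat.ceil X0)), le_max_left _ _, fun y hy z => ?_⟩
  have hy1 : 200 ≤ y := le_trans (le_max_left _ _) hy
  have hy2 : Y0 ≤ y := le_trans (le_trans (le_max_left _ _) (le_max_right _ _)) hy
  have hy3 : X0 ≤ y := le_trans (Nat.le_ceil _)
    (by exact_mod_cast le_trans (le_trans (le_max_right _ _) (le_max_right _ _)) hy)
  by_contra hcon
  push Not at hcon
  -- main induction
  obtain ⟨C0, hC0⟩ : ∃ C0 : ℝ, C0 = 2 * M * Real.log 4 + Real.log y := ⟨_, rfl⟩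
  have hl4 := log4_pos
  have hyR : (200:ℝ) ≤ y := by exact_mod_cast hy1
  have hlogy : 1 ≤ Real.log y := by
    have : Real.log 4 ≤ Real.log y := Real.log_le_log (by norm_num) (by linarith)
    linarith [log4_ge]
  have hC0pos : 0 < C0 := by rw [hC0]; positivity
  have key : ∀ J : ℕ, ∃ z', Step (uu 1 b) y (4 ^ (2 * M * J) * y) z z' ∧
      Ph b (4 ^ (2 * M * J) * y) z' ≤ Ph b y z - (κ / 4 / C0) * ∑ j ∈ Finset.range J, (1 / ((j:ℝ) + 1)) := by
    intro J
    induction J with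
    | zero => exact ⟨z, Step.refl _ _ _ _, by simp⟩
    | succ J ih =>
      obtain ⟨z1, s1, P1⟩ := ih
      have hge : y ≤ 4 ^ (2 * M * J) * y := Nat.le_mul_of_pos_left y (by positivity)
      have hgeR : (y:ℝ) ≤ ((4 ^ (2 * M * J) * y : ℕ) : ℝ) := by exact_mod_cast hge
      have e1 : 4 ^ M * (4 ^ (2 * M * J) * y) = 4 ^ ((2 * J + 1) * M) * y := by
        rw [← mul_assoc, ← pow_add]; congr 2; ring
      have e2 : 4 ^ M * (4 ^ M * (4 ^ (2 * M * J) * y)) = 4 ^ (2 * M * (J + 1)) * y := by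
        rw [← mul_assoc, ← mul_assoc, ← pow_add, ← pow_add]; congr 2; ring
      have hge2 : y ≤ 4 ^ M * (4 ^ (2 * M * J) * y) := by
        rw [e1]; exact Nat.le_mul_of_pos_left y (by positivity)
      have hPh : 4 * κ / Real.log ((4 ^ (2 * M * J) * y : ℕ) : ℝ) ≤ Ph b (4 ^ (2 * M * J) * y) z1 := by
        have := hcon _ z1 hge s1
        have h3 : ‖z1‖ ≤ Ph b (4 ^ (2 * M * J) * y) z1 := norm_le' _ z1 (norm_dir b _)
        have h4 : 0 < Real.log ((4 ^ (2 * M * J) * y : ℕ) : ℝ) := Real.log_pos (by linarith)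
        have h5 : 4 * κ / Real.log ((4 ^ (2 * M * J) * y : ℕ) : ℝ) ≤ ρ / Real.log ((4 ^ (2 * M * J) * y : ℕ) : ℝ) :=
          div_le_div_of_nonneg_right hκ2 h4.le
        linarith
      have hlogge : 1 ≤ Real.log ((4 ^ (2 * M * J) * y : ℕ) : ℝ) :=
        le_trans hlogy (Real.log_le_log (by linarith) hgeR)
      have hlog : 16 * Real.log ((4 ^ M * (4 ^ (2 * M * J) * y) : ℕ) : ℝ) ≤
          κ * ((4 ^ (2 * M * J) * y : ℕ) : ℝ) := by
        have h6 := hX0 _ (le_trans hy3 hgeR)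
        have h7 : Real.log ((4 ^ M * (4 ^ (2 * M * J) * y) : ℕ) : ℝ) =
            M * Real.log 4 + Real.log ((4 ^ (2 * M * J) * y : ℕ) : ℝ) := by
          rw [Nat.cast_mul, Real.log_mul (by positivity) (by positivity), Nat.cast_pow, Real.log_pow]
          norm_num
        rw [h7]
        refine le_trans ?_ h6
        have h8 : (0:ℝ) ≤ M * Real.log 4 := by positivity
        nlinarith
      obtain ⟨z2, s2, P2⟩ := dec_step h κ hκ0 hκ1 (4 ^ (2 * M * J) * y) (le_trans hy1 hge)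
        (hY0 _ (le_trans hy2 hge)) (hY0 _ (le_trans hy2 hge2)) hlog z1 hPh
      have h9 : (κ / 4 / C0) * (1 / ((J:ℝ) + 1)) ≤
          (κ / 4) / Real.log ((4 ^ M * (4 ^ (2 * M * J) * y) : ℕ) : ℝ) := by
        have h10 : Real.log ((4 ^ M * (4 ^ (2 * M * J) * y) : ℕ) : ℝ) ≤ C0 * (J + 1) := by
          rw [e1, Nat.cast_mul, Real.log_mul (by positivity) (by positivity), Nat.cast_pow, Real.log_pow, hC0]
          push_cast
          have hM0 : (0:ℝ) ≤ M * Real.log 4 := by positivity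
          have hJ0 : (0:ℝ) ≤ J := by positivity
          nlinarith
        have h11 : 0 < Real.log ((4 ^ M * (4 ^ (2 * M * J) * y) : ℕ) : ℝ) := by
          apply Real.log_pos
          have : (200:ℝ) ≤ ((4 ^ M * (4 ^ (2 * M * J) * y) : ℕ) : ℝ) := by
            exact_mod_cast le_trans hy1 hge2
          linarith
        have h12 : (κ / 4 / C0) * (1 / ((J:ℝ) + 1)) = (κ / 4) / (C0 * (J + 1)) := by
          field_simp
        rw [h12]
        exact div_le_div_of_nonneg_left (by positivity) h11 h10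
      rw [e2] at s2 P2
      refine ⟨z2, Step.trans s1 s2 hge ?_, ?_⟩
      · exact Nat.mul_le_mul_right y (Nat.pow_le_pow_right (by norm_num) (by nlinarith))
      · rw [Finset.sum_range_succ, mul_add (κ / 4 / C0)]
        linarith
  have ht := (Real.tendsto_sum_range_one_div_nat_succ_atTop).const_mul_atTop
    (show 0 < κ / 4 / C0 by positivity)
  obtain ⟨J, hJ⟩ := (ht.eventually (Filter.eventually_gt_atTop (Ph b y z))).exists
  obtain ⟨z', -, hP⟩ := key J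
  have := Ph_nonneg b (4 ^ (2 * M * J) * y) z'
  linarith

end Pool.Agent.V11276.DC
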