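import Pool.Agent.V11276.DC5

namespace Pool.Agent.V11276.DC

open Finset Complex

/-- `σ(p^k)` -/
noncomputable def SS (a b : ℝ) (p k : ℕ) : ℂ := ∑ i ∈ Finset.range (k + 1), XX a b p ^ i

noncomputable def PP (a b : ℝ) (T : Finset ℕ) : ℂ := ∏ q ∈ T, (1 + XX a b q)

def RLk (a b : ℝ) (p k : ℕ) : Prop :=
  ∀ δ : ℝ, 0 < δ → ∃ T1 T2 : Finset ℕ, (∀ q ∈ T1, q.Prime ∧ p < q) ∧ (∀ q ∈ T2, q.Prime ∧ p < q) ∧
    ‖SS a b p (k + 1) * PP a b T2 - SS a b p k * PP a b T1‖ < δ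

lemma XX_half (a b : ℝ) (ha : 1 ≤ a) (p : ℕ) (hp : 2 ≤ p) : ‖XX a b p‖ ≤ 1 / 2 := by
  rw [XX_norm a b p (by omega)]
  have hpR : (2:ℝ) ≤ p := by exact_mod_cast hp
  have h1 : (p:ℝ) ^ (-a) ≤ (p:ℝ) ^ (-1:ℝ) := Real.rpow_le_rpow_of_exponent_le (by linarith) (by linarith)
  have h2 : (p:ℝ) ^ (-1:ℝ) = 1 / p := by rw [Real.rpow_neg_one]; simp
  rw [h2] at h1
  exact le_trans h1 (one_div_le_one_div_of_le (by norm_num) hpR)

lemma one_add_ne {w : ℂ} (h : ‖w‖ ≤ 1 / 2) : 1 + w ≠ 0 := by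
  intro h0
  have : w = -1 := by linear_combination h0
  rw [this, norm_neg, norm_one] at h
  norm_num at h

lemma exp_uu (a b : ℝ) (ha : 1 ≤ a) (q : ℕ) (hq : 2 ≤ q) : Complex.exp (uu a b q) = 1 + XX a b q := by
  unfold uu
  exact Complex.exp_log (one_add_ne (XX_half a b ha q hq))

lemma PP_ne (a b : ℝ) (ha : 1 ≤ a) (T : Finset ℕ) (hT : ∀ q ∈ T, 2 ≤ q) : PP a b T ≠ 0 := by
  unfold PP
  rw [Finset.prod_ne_zero_iff]
  intro q hq
  exact one_add_ne (XX_half a b ha q (hT q hq))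

lemma exp_sum_uu (a b : ℝ) (ha : 1 ≤ a) (T : Finset ℕ) (hT : ∀ q ∈ T, 2 ≤ q) :
    Complex.exp (∑ q ∈ T, uu a b q) = PP a b T := by
  rw [Complex.exp_sum]
  unfold PP
  exact Finset.prod_congr rfl (fun q hq => exp_uu a b ha q (hT q hq))

lemma PP_union (a b : ℝ) (T S : Finset ℕ) (h : Disjoint T S) : PP a b (T ∪ S) = PP a b T * PP a b S := by
  unfold PP; exact Finset.prod_union h

lemma SS_succ (a b : ℝ) (p k : ℕ) : SS a b p (k + 1) = SS a b p k + XX a b p ^ (k + 1) := by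
  unfold SS; rw [Finset.sum_range_succ]

lemma SS_lower (a b : ℝ) (ha : 1 ≤ a) (p : ℕ) (hp : 2 ≤ p) (k : ℕ) : 1 / 3 ≤ ‖SS a b p k‖ := by
  have h := XX_half a b ha p hp
  have h1 : SS a b p k * (1 - XX a b p) = 1 - XX a b p ^ (k + 1) := by
    unfold SS; rw [geom_sum_mul_neg]
  have h2 : ‖1 - XX a b p‖ ≤ 3 / 2 := by
    calc ‖1 - XX a b p‖ ≤ ‖(1:ℂ)‖ + ‖XX a b p‖ := norm_sub_le _ _
      _ ≤ 3 / 2 := by rw [norm_one]; linarith
  have h3 : 1 / 2 ≤ ‖1 - XX a b p ^ (k + 1)‖ := by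
    have h4 : ‖XX a b p ^ (k + 1)‖ ≤ 1 / 2 := by
      rw [norm_pow, pow_succ]
      have : ‖XX a b p‖ ^ k ≤ 1 := pow_le_one₀ (norm_nonneg _) (by linarith)
      nlinarith [norm_nonneg (XX a b p)]
    have h5 : ‖(1:ℂ)‖ - ‖XX a b p ^ (k + 1)‖ ≤ ‖1 - XX a b p ^ (k + 1)‖ := norm_sub_norm_le _ _
    rw [norm_one] at h5; linarith
  rw [← h1, norm_mul] at h3
  have := norm_nonneg (SS a b p k)
  nlinarith

lemma SS_ne (a b : ℝ) (ha : 1 ≤ a) (p : ℕ) (hp : 2 ≤ p) (k : ℕ) : SS a b p k ≠ 0 := by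
  have := SS_lower a b ha p hp k
  intro h
  rw [h, norm_zero] at this
  norm_num at this

lemma ratio_close (a b : ℝ) (ha : 1 ≤ a) (p : ℕ) (hp : 2 ≤ p) (k : ℕ) :
    ‖SS a b p (k + 1) / SS a b p k - 1‖ ≤ 3 * ((p:ℝ) ^ (-a)) ^ (k + 1) := by
  have h0 := SS_ne a b ha p hp k
  have h1 : SS a b p (k + 1) / SS a b p k - 1 = XX a b p ^ (k + 1) / SS a b p k := by
    rw [SS_succ, add_div, div_self h0]; ring
  rw [h1, norm_div, norm_pow, XX_norm a b p (by omega)]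
  have h2 := SS_lower a b ha p hp k
  rw [div_le_iff₀ (by linarith)]
  have h3 : 0 ≤ ((p:ℝ) ^ (-a)) ^ (k + 1) := by positivity
  nlinarith

lemma bound_SP (a b : ℝ) (ha : 1 < a) (p k : ℕ) :
    ∃ B : ℝ, 0 < B ∧ ∀ T : Finset ℕ, (∀ q ∈ T, q.Prime ∧ p < q) → ‖SS a b p k * PP a b T‖ ≤ B := by
  have hs : Summable (fun n : ℕ => (n:ℝ) ^ (-a)) := Real.summable_nat_rpow.mpr (by linarith)
  refine ⟨‖SS a b p k‖ * Real.exp (∑' n : ℕ, (n:ℝ) ^ (-a)) + 1, by positivity, fun T hT => ?_⟩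
  rw [norm_mul]
  have h1 : ‖PP a b T‖ ≤ Real.exp (∑' n : ℕ, (n:ℝ) ^ (-a)) := by
    unfold PP
    rw [norm_prod]
    calc ∏ q ∈ T, ‖1 + XX a b q‖ ≤ ∏ q ∈ T, Real.exp ((q:ℝ) ^ (-a)) := by
          apply Finset.prod_le_prod (fun _ _ => norm_nonneg _)
          intro q hq
          have hq0 : 0 < q := (hT q hq).1.pos
          calc ‖1 + XX a b q‖ ≤ ‖(1:ℂ)‖ + ‖XX a b q‖ := norm_add_le _ _
            _ = (q:ℝ) ^ (-a) + 1 := by rw [norm_one, XX_norm a b q hq0]; ring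
            _ ≤ _ := Real.add_one_le_exp _
      _ = Real.exp (∑ q ∈ T, (q:ℝ) ^ (-a)) := by rw [Real.exp_sum]
      _ ≤ _ := by
          apply Real.exp_le_exp.mpr
          exact hs.sum_le_tsum T (fun _ _ => by positivity)
  have := mul_le_mul_of_nonneg_left h1 (norm_nonneg (SS a b p k))
  linarith

lemma core (a b : ℝ) (ha : 1 < a) (p k y : ℕ) (hp : 2 ≤ p) (hpy : p ≤ y) (T1 T2 : Finset ℕ)
    (hT1 : ∀ q ∈ T1, q.Prime ∧ p < q ∧ q ≤ y) (hT2 : ∀ q ∈ T2, q.Prime ∧ p < q ∧ q ≤ y)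
    (hr : Reach a b y (Complex.log (SS a b p (k + 1) * PP a b T2 / (SS a b p k * PP a b T1)))) :
    RLk a b p k := by
  intro δ hδ
  have ha' := ha.le
  obtain ⟨B, hB0, hB⟩ := bound_SP a b ha p k
  obtain ⟨Y, z', hY, ⟨S1, S2, hS1, hS2, hz'⟩, hz⟩ := hr (min 1 (δ / (2 * B))) (lt_min one_pos (by positivity))
  have g1 : ∀ q ∈ T1, 2 ≤ q := fun q hq => (hT1 q hq).1.two_le
  have g2 : ∀ q ∈ T2, 2 ≤ q := fun q hq => (hT2 q hq).1.two_le
  have g3 : ∀ q ∈ S1, 2 ≤ q := fun q hq => (hS1 q hq).1.two_le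
  have g4 : ∀ q ∈ S2, 2 ≤ q := fun q hq => (hS2 q hq).1.two_le
  have n1 := PP_ne a b ha' T1 g1
  have n2 := PP_ne a b ha' T2 g2
  have n3 := PP_ne a b ha' S1 g3
  have n4 := PP_ne a b ha' S2 g4
  have m1 := SS_ne a b ha' p hp k
  have m2 := SS_ne a b ha' p hp (k + 1)
  have hexp : Complex.exp z' * (SS a b p k * PP a b T1 * PP a b S1) = SS a b p (k + 1) * PP a b T2 * PP a b S2 := by
    rw [hz', Complex.exp_add, Complex.exp_sub, exp_sum_uu a b ha' S1 g3, exp_sum_uu a b ha' S2 g4,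
      Complex.exp_log (div_ne_zero (mul_ne_zero m2 n2) (mul_ne_zero m1 n1))]
    field_simp
  have d1 : Disjoint T1 S1 := by
    rw [Finset.disjoint_left]; intro q hq hq'
    have := hT1 q hq; have := hS1 q hq'; omega
  have d2 : Disjoint T2 S2 := by
    rw [Finset.disjoint_left]; intro q hq hq'
    have := hT2 q hq; have := hS2 q hq'; omega
  have hU1 : ∀ q ∈ T1 ∪ S1, q.Prime ∧ p < q := by
    intro q hq
    rcases Finset.mem_union.mp hq with h | h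
    · exact ⟨(hT1 q h).1, (hT1 q h).2.1⟩
    · have := hS1 q h; exact ⟨this.1, by omega⟩
  have hU2 : ∀ q ∈ T2 ∪ S2, q.Prime ∧ p < q := by
    intro q hq
    rcases Finset.mem_union.mp hq with h | h
    · exact ⟨(hT2 q h).1, (hT2 q h).2.1⟩
    · have := hS2 q h; exact ⟨this.1, by omega⟩
  refine ⟨T1 ∪ S1, T2 ∪ S2, hU1, hU2, ?_⟩
  have hBd := hB (T1 ∪ S1) hU1
  have heq : SS a b p (k + 1) * PP a b (T2 ∪ S2) - SS a b p k * PP a b (T1 ∪ S1) =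
      (Complex.exp z' - 1) * (SS a b p k * PP a b (T1 ∪ S1)) := by
    rw [PP_union _ _ _ _ d2, PP_union _ _ _ _ d1]
    linear_combination -hexp
  rw [heq, norm_mul]
  have hz1 : ‖z'‖ < 1 := lt_of_lt_of_le hz (min_le_left _ _)
  have hz2 : ‖z'‖ < δ / (2 * B) := lt_of_lt_of_le hz (min_le_right _ _)
  have he := Complex.norm_exp_sub_one_le hz1.le
  calc ‖Complex.exp z' - 1‖ * ‖SS a b p k * PP a b (T1 ∪ S1)‖ ≤ (2 * ‖z'‖) * B :=
        mul_le_mul he hBd (norm_nonneg _) (by positivity)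
    _ < (2 * (δ / (2 * B))) * B := by
        apply mul_lt_mul_of_pos_right _ hB0; linarith
    _ = δ := by field_simp

lemma core2 {M : ℕ} (a b : ℝ) (ha : 1 < a) (p k y : ℕ) (hp : 2 ≤ p) (hpy : p ≤ y) (T1 T2 : Finset ℕ)
    (hT1 : ∀ q ∈ T1, q.Prime ∧ p < q ∧ q ≤ y) (hT2 : ∀ q ∈ T2, q.Prime ∧ p < q ∧ q ≤ y)
    (hR : ∀ z : ℂ, ‖z‖ ≤ rad M a y → Reach a b y z)
    (hsm : ‖SS a b p (k + 1) * PP a b T2 / (SS a b p k * PP a b T1) - 1‖ ≤ rad M a y / 2)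
    (hhalf : rad M a y ≤ 1) :
    RLk a b p k := by
  apply core a b ha p k y hp hpy T1 T2 hT1 hT2
  apply hR
  have h1 := Complex.norm_log_one_add_half_le_self
    (z := SS a b p (k + 1) * PP a b T2 / (SS a b p k * PP a b T1) - 1) (by linarith)
  have h2 : 1 + (SS a b p (k + 1) * PP a b T2 / (SS a b p k * PP a b T1) - 1) =
      SS a b p (k + 1) * PP a b T2 / (SS a b p k * PP a b T1) := by ring
  rw [h2] at h1
  have h3 := norm_nonneg (SS a b p (k + 1) * PP a b T2 / (SS a b p k * PP a b T1) - 1)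
  linarith

end Pool.Agent.V11276.DC
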