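import Pool.Agent.V11276.DC6

namespace Pool.Agent.V11276.DC

open Finset Complex Filter Topology

lemma rad_le_one (M : ℕ) (hM : 200 ≤ M) (a : ℝ) (ha : 1 ≤ a) (y : ℕ) (hy : 200 ≤ y) : rad M a y ≤ 1 := by
  have hMR : (200:ℝ) ≤ M := by exact_mod_cast hM
  have hyR : (200:ℝ) ≤ y := by exact_mod_cast hy
  have hlogy : 1 ≤ Real.log y := by
    have : Real.log 4 ≤ Real.log y := Real.log_le_log (by norm_num) (by linarith)
    linarith [log4_ge]
  have h1 : (y:ℝ) ^ (1 - a) ≤ 1 := Real.rpow_le_one_of_one_le_of_nonpos (by linarith) (by linarith)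
  have h2 : (y:ℝ) ^ (1 - a) / Real.log y ≤ 1 := by
    rw [div_le_one (by linarith)]; linarith
  have h3 : 1 / (1024 * (M:ℝ)) ≤ 1 := by rw [div_le_one (by positivity)]; linarith
  unfold rad
  exact mul_le_one₀ h3 (by positivity) h2

lemma setup {M : ℕ} {b : ℝ} (h : Par M b) :
    ∃ Y1 : ℕ, 200 ≤ Y1 ∧ (∀ a : ℝ, 1 ≤ a → a ≤ 1 + 1 / (2 * M) → ∀ y : ℕ, Y1 ≤ y → ∀ z : ℂ,
      ‖z‖ ≤ rad M a y → Reach a b y z) ∧
      ∀ a : ℝ, 1 ≤ a → ∀ y : ℕ, Y1 ≤ y → 3 * (y:ℝ) ^ (-a) ≤ rad M a y / 2 := by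
  obtain ⟨Y1, hY1, hR⟩ := local_reach h
  have hMR : (200:ℝ) ≤ M := by exact_mod_cast h.hM
  have h1 : ∀ᶠ x : ℝ in Filter.atTop, 6 * (1024 * M) * Real.log x ≤ x := by
    have := (Real.isLittleO_log_id_atTop).bound (show (0:ℝ) < 1 / (6 * (1024 * M)) by positivity)
    filter_upwards [this, Filter.eventually_ge_atTop 1] with x hx hx1
    rw [Real.norm_of_nonneg (Real.log_nonneg hx1), id, Real.norm_of_nonneg (by positivity)] at hx
    rw [div_mul_eq_mul_div, one_mul, le_div_iff₀ (by positivity)] at hx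
    linarith
  obtain ⟨X0, hX0⟩ := Filter.eventually_atTop.mp h1
  refine ⟨max Y1 (Nat.ceil X0), le_trans hY1 (le_max_left _ _),
    fun a ha ha2 y hy => hR a ha ha2 y (le_trans (le_max_left _ _) hy), fun a ha y hy => ?_⟩
  have hy1 : 200 ≤ y := le_trans hY1 (le_trans (le_max_left _ _) hy)
  have hy3 : X0 ≤ y := le_trans (Nat.le_ceil _) (by exact_mod_cast le_trans (le_max_right _ _) hy)
  have hlog := hX0 _ hy3
  have hyR : (200:ℝ) ≤ y := by exact_mod_cast hy1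
  have hy0 : (0:ℝ) < y := by linarith
  have hlogy : 0 < Real.log y := Real.log_pos (by linarith)
  unfold rad
  have h9 : (y:ℝ) ^ (1 - a) = y * (y:ℝ) ^ (-a) := by
    rw [sub_eq_add_neg, Real.rpow_add hy0, Real.rpow_one]
  rw [h9]
  have h10 : (1 / (1024 * M)) * (y * (y:ℝ) ^ (-a) / Real.log y) / 2 =
      (y / ((1024 * M) * Real.log y) / 2) * (y:ℝ) ^ (-a) := by field_simp
  rw [h10]
  apply mul_le_mul_of_nonneg_right _ (by positivity)
  rw [div_div, le_div_iff₀ (by positivity)]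
  linarith

lemma PP_empty (a b : ℝ) : PP a b ∅ = 1 := by unfold PP; simp

lemma large_case {M : ℕ} (a b : ℝ) (ha : 1 < a) (p k y : ℕ) (hp : 2 ≤ p) (hpy : p ≤ y)
    (hR : ∀ z : ℂ, ‖z‖ ≤ rad M a y → Reach a b y z)
    (hsm : 3 * ((p:ℝ) ^ (-a)) ^ (k + 1) ≤ rad M a y / 2)
    (hhalf : rad M a y ≤ 1) : RLk a b p k := by
  apply core2 a b ha p k y hp hpy ∅ ∅ (by simp) (by simp) hR _ hhalf
  rw [PP_empty, mul_one, mul_one]
  exact le_trans (ratio_close a b ha.le p hp k) hsm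

lemma pow_neg_half (a : ℝ) (ha : 1 ≤ a) (p : ℕ) (hp : 2 ≤ p) : (p:ℝ) ^ (-a) ≤ 1 / 2 := by
  have := XX_half a 0 ha p hp
  rwa [XX_norm a 0 p (by omega)] at this

lemma cont_XX (b : ℝ) (q : ℕ) (hq : 2 ≤ q) : Continuous (fun a : ℝ => XX a b q) := by
  unfold XX cc
  have hq' : (q:ℂ) ≠ 0 := by exact_mod_cast (by omega : q ≠ 0)
  apply Continuous.const_cpow
  · fun_prop
  · left; exact hq'

lemma cont_SS (b : ℝ) (p k : ℕ) (hp : 2 ≤ p) : Continuous (fun a : ℝ => SS a b p k) := by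
  unfold SS
  apply continuous_finset_sum
  intro i _
  exact (cont_XX b p hp).pow i

lemma cont_PP (b : ℝ) (T : Finset ℕ) (hT : ∀ q ∈ T, 2 ≤ q) : Continuous (fun a : ℝ => PP a b T) := by
  unfold PP
  apply continuous_finset_prod
  intro q hq
  exact continuous_const.add (cont_XX b q (hT q hq))

lemma cont_rad (M y : ℕ) (hy : 200 ≤ y) : Continuous (fun a : ℝ => rad M a y) := by
  unfold rad
  have hyR : (200:ℝ) ≤ y := by exact_mod_cast hy
  apply Continuous.mul continuous_const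
  apply Continuous.div_const
  apply Continuous.rpow continuous_const (by fun_prop)
  intro x; left; linarith

lemma pair_case {M : ℕ} {b : ℝ} (h : Par M b) (p k : ℕ) (hp : 2 ≤ p) :
    ∀ᶠ a in 𝓝[>] (1:ℝ), RLk a b p k := by
  have hMR : (200:ℝ) ≤ M := by exact_mod_cast h.hM
  obtain ⟨Y1, hY1, hR, -⟩ := setup h
  obtain ⟨YD, hYD, hD⟩ := descend h ((1 / (1024 * M)) / 8) (by positivity)
  obtain ⟨Y, z', hY, ⟨T1, T2, hT1, hT2, hz'⟩, hzn⟩ := hD (max Y1 (max YD p))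
    (le_trans (le_max_left _ _) (le_max_right _ _))
    (Complex.log (SS 1 b p (k + 1) / SS 1 b p k))
  have hYY1 : Y1 ≤ Y := le_trans (le_max_left _ _) hY
  have hYp : p ≤ Y := le_trans (le_trans (le_max_right _ _) (le_max_right _ _)) hY
  have hpm : p ≤ max Y1 (max YD p) := le_trans (le_max_right _ _) (le_max_right _ _)
  have hY200 : 200 ≤ Y := le_trans hY1 hYY1
  have g1 : ∀ q ∈ T1, 2 ≤ q := fun q hq => (hT1 q hq).1.two_le
  have g2 : ∀ q ∈ T2, 2 ≤ q := fun q hq => (hT2 q hq).1.two_le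
  have m1 := SS_ne 1 b le_rfl p hp k
  have m2 := SS_ne 1 b le_rfl p hp (k + 1)
  have n1 := PP_ne 1 b le_rfl T1 g1
  have n2 := PP_ne 1 b le_rfl T2 g2
  have hexp : SS 1 b p (k + 1) * PP 1 b T2 / (SS 1 b p k * PP 1 b T1) = Complex.exp z' := by
    rw [hz', Complex.exp_add, Complex.exp_sub, exp_sum_uu 1 b le_rfl T1 g1, exp_sum_uu 1 b le_rfl T2 g2,
      Complex.exp_log (div_ne_zero m2 m1)]
    field_simp
  have hYR : (200:ℝ) ≤ Y := by exact_mod_cast hY200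
  have hlogY : 1 ≤ Real.log Y := by
    have : Real.log 4 ≤ Real.log Y := Real.log_le_log (by norm_num) (by linarith)
    linarith [log4_ge]
  have hz1 : ‖z'‖ ≤ 1 := by
    refine le_trans hzn ?_
    rw [div_le_one (by linarith), div_div, div_le_iff₀ (by positivity)]
    nlinarith
  have hlt : ‖SS 1 b p (k + 1) * PP 1 b T2 / (SS 1 b p k * PP 1 b T1) - 1‖ < rad M 1 Y / 2 := by
    rw [hexp]
    refine lt_of_le_of_lt (Complex.norm_exp_sub_one_le hz1) ?_
    unfold rad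
    rw [sub_self, Real.rpow_zero]
    have h5 : (1 / (1024 * (M:ℝ))) * (1 / Real.log Y) / 2 = 4 * ((1 / (1024 * M)) / 8 / Real.log Y) := by
      ring
    rw [h5]
    have h6 : 0 < (1 / (1024 * (M:ℝ))) / 8 / Real.log Y := by positivity
    linarith
  have hc1 : ContinuousAt (fun a : ℝ => ‖SS a b p (k + 1) * PP a b T2 / (SS a b p k * PP a b T1) - 1‖) 1 := by
    apply ContinuousAt.norm
    apply ContinuousAt.sub _ continuousAt_const
    apply ContinuousAt.div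
    · exact ((cont_SS b p (k + 1) hp).mul (cont_PP b T2 g2)).continuousAt
    · exact ((cont_SS b p k hp).mul (cont_PP b T1 g1)).continuousAt
    · exact mul_ne_zero m1 n1
  have hc2 : ContinuousAt (fun a : ℝ => rad M a Y / 2) 1 := ((cont_rad M Y hY200).div_const 2).continuousAt
  have hev := ContinuousAt.eventually_lt hc1 hc2 hlt
  have hM2 : (1:ℝ) < 1 + 1 / (2 * M) := by
    have : 0 < 1 / (2 * (M:ℝ)) := by positivity
    linarith
  have hev2 : ∀ᶠ a : ℝ in 𝓝[>] (1:ℝ), a ≤ 1 + 1 / (2 * (M:ℝ)) :=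
    nhdsWithin_le_nhds ((eventually_lt_nhds hM2).mono (fun _ hx => hx.le))
  filter_upwards [nhdsWithin_le_nhds hev, hev2, self_mem_nhdsWithin] with a h1 h2 h3
  have h3' : 1 < a := h3
  exact core2 a b h3' p k Y hp hYp T1 T2
    (fun q hq => ⟨(hT1 q hq).1, by have := (hT1 q hq).2.1; omega, (hT1 q hq).2.2⟩)
    (fun q hq => ⟨(hT2 q hq).1, by have := (hT2 q hq).2.1; omega, (hT2 q hq).2.2⟩)
    (hR a h3'.le h2 Y hYY1) h1.le (rad_le_one M h.hM a h3'.le Y hY200)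

theorem all_RL {M : ℕ} {b : ℝ} (h : Par M b) :
    ∀ᶠ a in 𝓝[>] (1:ℝ), ∀ p : ℕ, p.Prime → ∀ k : ℕ, RLk a b p k := by
  have hMR : (200:ℝ) ≤ M := by exact_mod_cast h.hM
  obtain ⟨Y1, hY1, hR, hs⟩ := setup h
  have hY1R : (200:ℝ) ≤ Y1 := by exact_mod_cast hY1
  have hlogY : 1 ≤ Real.log Y1 := by
    have : Real.log 4 ≤ Real.log Y1 := Real.log_le_log (by norm_num) (by linarith)
    linarith [log4_ge]
  obtain ⟨c, hc⟩ : ∃ c : ℝ, c = (1 / (1024 * M)) * ((Y1:ℝ) ^ (-1:ℝ) / Real.log Y1) := ⟨_, rfl⟩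
  have hc0 : 0 < c := by rw [hc]; positivity
  have hcr : ∀ a : ℝ, a ≤ 2 → c ≤ rad M a Y1 := by
    intro a ha
    rw [hc]; unfold rad
    apply mul_le_mul_of_nonneg_left _ (by positivity)
    apply div_le_div_of_nonneg_right _ (by linarith)
    exact Real.rpow_le_rpow_of_exponent_le (by linarith) (by linarith)
  obtain ⟨k0, hk0⟩ : ∃ k0 : ℕ, 3 * (1 / 2 : ℝ) ^ k0 < c / 2 := by
    have ht : Tendsto (fun j : ℕ => 3 * (1 / 2 : ℝ) ^ j) atTop (𝓝 0) := by
      have := (tendsto_pow_atTop_nhds_zero_of_lt_one (r := (1/2:ℝ)) (by norm_num) (by norm_num)).const_mul 3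
      simpa using this
    exact (ht.eventually (gt_mem_nhds (by positivity : 0 < c / 2))).exists
  have hfin : ∀ᶠ a in 𝓝[>] (1:ℝ), ∀ x ∈ (Finset.range Y1 ×ˢ Finset.range k0), 2 ≤ x.1 → RLk a b x.1 x.2 := by
    rw [Filter.eventually_all_finset]
    intro x _
    by_cases hx : 2 ≤ x.1
    · exact (pair_case h x.1 x.2 hx).mono (fun a ha _ => ha)
    · exact Filter.Eventually.of_forall (fun a h2 => absurd h2 hx)
  have hM2 : (1:ℝ) < 1 + 1 / (2 * M) := by
    have : 0 < 1 / (2 * (M:ℝ)) := by positivity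
    linarith
  have hev2 : ∀ᶠ a : ℝ in 𝓝[>] (1:ℝ), a ≤ 1 + 1 / (2 * (M:ℝ)) :=
    nhdsWithin_le_nhds ((eventually_lt_nhds hM2).mono (fun _ hx => hx.le))
  filter_upwards [hfin, hev2, self_mem_nhdsWithin] with a h1 h2 h3 p hp k
  have h3' : 1 < a := h3
  have ha2 : a ≤ 2 := by
    have : 1 / (2 * (M:ℝ)) ≤ 1 := by rw [div_le_one (by positivity)]; linarith
    linarith
  rcases Nat.lt_or_ge p Y1 with hpY | hpY
  · rcases Nat.lt_or_ge k k0 with hk | hk
    · exact h1 (p, k) (Finset.mem_product.mpr ⟨Finset.mem_range.mpr hpY, Finset.mem_range.mpr hk⟩) hp.two_le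
    · apply large_case a b h3' p k Y1 hp.two_le hpY.le (hR a h3'.le h2 Y1 le_rfl) _
        (rad_le_one M h.hM a h3'.le Y1 hY1)
      have h4 := hcr a ha2
      have h5 := pow_neg_half a h3'.le p hp.two_le
      have h6 : ((p:ℝ) ^ (-a)) ^ (k + 1) ≤ (1 / 2 : ℝ) ^ (k + 1) :=
        pow_le_pow_left₀ (by positivity) h5 _
      have h7 : (1 / 2 : ℝ) ^ (k + 1) ≤ (1 / 2 : ℝ) ^ k0 :=
        pow_le_pow_of_le_one (by norm_num) (by norm_num) (by omega)
      linarith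
  · apply large_case a b h3' p k p hp.two_le le_rfl (hR a h3'.le h2 p hpY) _
      (rad_le_one M h.hM a h3'.le p (le_trans hY1 hpY))
    have h4 := hs a h3'.le p hpY
    have h5 := pow_neg_half a h3'.le p hp.two_le
    have h6 : ((p:ℝ) ^ (-a)) ^ (k + 1) ≤ (p:ℝ) ^ (-a) := by
      rw [pow_succ]
      have h7 : ((p:ℝ) ^ (-a)) ^ k ≤ 1 := pow_le_one₀ (by positivity) (by linarith)
      have h8 : 0 ≤ (p:ℝ) ^ (-a) := by positivity
      nlinarith
    linarith

end Pool.Agent.V11276.DC
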