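import Pool.Agent.V11276.DC7

namespace Pool.Agent.V11276.DC

open Finset Complex Filter Topology

/-- the complex divisor function -/
noncomputable def sg (c : ℂ) (n : ℕ) : ℂ := ∑ d ∈ n.divisors, (d : ℂ) ^ c

lemma sg_mul (c : ℂ) (m n : ℕ) (h : m.Coprime n) : sg c (m * n) = sg c m * sg c n := by
  unfold sg
  rw [Nat.divisors_mul, Finset.mul_def, Finset.sum_image h.mul_injOn_divisors, Finset.sum_product,
    Finset.sum_mul_sum]
  apply Finset.sum_congr rfl
  intro x _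
  apply Finset.sum_congr rfl
  intro y _
  push_cast
  exact Complex.natCast_mul_natCast_cpow x y c

lemma sg_one (c : ℂ) : sg c 1 = 1 := by unfold sg; simp

lemma cpow_pow (c : ℂ) (p i : ℕ) : ((p ^ i : ℕ) : ℂ) ^ c = ((p:ℂ) ^ c) ^ i := by
  induction i with
  | zero => simp
  | succ i ih =>
    rw [pow_succ, Nat.cast_mul, Complex.natCast_mul_natCast_cpow, ih, pow_succ]

lemma sg_pow (a b : ℝ) (p k : ℕ) (hp : p.Prime) : sg (cc a b) (p ^ k) = SS a b p k := by
  unfold sg SS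
  rw [Nat.sum_divisors_prime_pow hp]
  apply Finset.sum_congr rfl
  intro i _
  rw [cpow_pow]
  rfl

lemma sg_prime (a b : ℝ) (p : ℕ) (hp : p.Prime) : sg (cc a b) p = 1 + XX a b p := by
  have := sg_pow a b p 1 hp
  rw [pow_one] at this
  rw [this]
  unfold SS
  rw [Finset.sum_range_succ, Finset.sum_range_one, pow_zero, pow_one]

lemma sg_prod (a b : ℝ) (T : Finset ℕ) (hT : ∀ q ∈ T, q.Prime) : sg (cc a b) (∏ q ∈ T, q) = PP a b T := by
  induction T using Finset.induction_on with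
  | empty => simp [sg_one, PP]
  | insert q T hq ih =>
    have hcop : Nat.Coprime q (∏ x ∈ T, x) := by
      apply Nat.Coprime.prod_right
      intro x hx
      rw [Nat.coprime_primes (hT q (Finset.mem_insert_self _ _)) (hT x (Finset.mem_insert_of_mem hx))]
      rintro rfl; exact hq hx
    rw [Finset.prod_insert hq, sg_mul _ _ _ hcop, ih (fun x hx => hT x (Finset.mem_insert_of_mem hx)),
      sg_prime a b q (hT q (Finset.mem_insert_self _ _))]
    unfold PP
    rw [Finset.prod_insert hq]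

lemma norm_term (a b : ℝ) (d : ℕ) (hd : 0 < d) : ‖(d:ℂ) ^ (cc a b)‖ = (d:ℝ) ^ (-a) := XX_norm a b d hd

lemma sg_bound (a b : ℝ) (ha : 1 < a) : ∃ B : ℝ, 0 < B ∧ ∀ n : ℕ, ‖sg (cc a b) n‖ ≤ B := by
  have hs : Summable (fun n : ℕ => (n:ℝ) ^ (-a)) := Real.summable_nat_rpow.mpr (by linarith)
  have h0 : 0 ≤ ∑' n : ℕ, (n:ℝ) ^ (-a) := tsum_nonneg (fun _ => by positivity)
  refine ⟨∑' n : ℕ, (n:ℝ) ^ (-a) + 1, by linarith, fun n => ?_⟩
  unfold sg
  calc ‖∑ d ∈ n.divisors, (d:ℂ) ^ (cc a b)‖ ≤ ∑ d ∈ n.divisors, ‖(d:ℂ) ^ (cc a b)‖ := norm_sum_le _ _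
    _ = ∑ d ∈ n.divisors, (d:ℝ) ^ (-a) := by
        apply Finset.sum_congr rfl
        intro d hd
        exact norm_term a b d (Nat.pos_of_mem_divisors hd)
    _ ≤ ∑' n : ℕ, (n:ℝ) ^ (-a) := hs.sum_le_tsum _ (fun _ _ => by positivity)
    _ ≤ _ := by linarith

lemma sg_rough (a b : ℝ) (ha : 1 < a) (η : ℝ) (hη : 0 < η) :
    ∃ P : ℕ, ∀ n : ℕ, 0 < n → (∀ q : ℕ, q.Prime → q ∣ n → P < q) → ‖sg (cc a b) n - 1‖ < η := by
  have hs : Summable (fun n : ℕ => (n:ℝ) ^ (-a)) := Real.summable_nat_rpow.mpr (by linarith)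
  obtain ⟨s, hs'⟩ := summable_iff_vanishing_norm.mp hs η hη
  refine ⟨s.sup id, fun n hn hq => ?_⟩
  have h1 : sg (cc a b) n - 1 = ∑ d ∈ n.divisors.erase 1, (d:ℂ) ^ (cc a b) := by
    unfold sg
    rw [← Finset.add_sum_erase _ _ (Nat.one_mem_divisors.mpr hn.ne')]
    simp
  rw [h1]
  have h2 : Disjoint (n.divisors.erase 1) s := by
    rw [Finset.disjoint_left]
    intro d hd hds
    rw [Finset.mem_erase, Nat.mem_divisors] at hd
    have h3 := hq _ (Nat.minFac_prime hd.1) ((Nat.minFac_dvd d).trans hd.2.1)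
    have h4 : d.minFac ≤ d := Nat.minFac_le (Nat.pos_of_dvd_of_pos hd.2.1 hn)
    have h5 : id d ≤ s.sup id := Finset.le_sup hds
    simp only [id] at h5
    omega
  have h6 := hs' _ h2
  rw [Real.norm_of_nonneg (Finset.sum_nonneg (fun _ _ => by positivity))] at h6
  refine lt_of_le_of_lt ?_ h6
  calc ‖∑ d ∈ n.divisors.erase 1, (d:ℂ) ^ (cc a b)‖ ≤ ∑ d ∈ n.divisors.erase 1, ‖(d:ℂ) ^ (cc a b)‖ :=
        norm_sum_le _ _
    _ = ∑ d ∈ n.divisors.erase 1, (d:ℝ) ^ (-a) := by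
        apply Finset.sum_congr rfl
        intro d hd
        rw [Finset.mem_erase] at hd
        exact norm_term a b d (Nat.pos_of_mem_divisors hd.2)

def HH (Q : ℕ → Prop) (P : ℕ) : Prop :=
  ∀ s r : ℕ, 0 < s → 0 < r → (∀ q : ℕ, q.Prime → q ∣ s → q ≤ P) → (∀ q : ℕ, q.Prime → q ∣ r → P < q) →
    (Q (s * r) ↔ Q s)

lemma coprime_of (P s r : ℕ) (hs0 : 0 < s) (hs : ∀ q : ℕ, q.Prime → q ∣ s → q ≤ P)
    (hr : ∀ q : ℕ, q.Prime → q ∣ r → P < q) : s.Coprime r := by
  apply Nat.Coprime.symm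
  rw [Nat.coprime_iff_gcd_eq_one]
  by_contra h
  obtain ⟨q, hq, hd⟩ := Nat.exists_prime_and_dvd h
  have h1 := hs q hq (hd.trans (Nat.gcd_dvd_right _ _))
  have h2 := hr q hq (hd.trans (Nat.gcd_dvd_left _ _))
  omega

lemma prod_props (p : ℕ) (T : Finset ℕ) (hT : ∀ q ∈ T, q.Prime ∧ p < q) :
    0 < ∏ q ∈ T, q ∧ ∀ q : ℕ, q.Prime → q ∣ ∏ x ∈ T, x → p < q := by
  refine ⟨Finset.prod_pos (fun q hq => (hT q hq).1.pos), fun q hq hd => ?_⟩
  obtain ⟨x, hx, hdx⟩ := (hq.prime.dvd_finset_prod_iff _).mp hd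
  rw [(Nat.prime_dvd_prime_iff_eq hq (hT x hx).1).mp hdx]
  exact (hT x hx).2

lemma chain (a b : ℝ) (ha : 1 < a) (hRL : ∀ p : ℕ, p.Prime → ∀ k : ℕ, RLk a b p k) (ε : ℝ) (hε : 0 < ε)
    (Q : ℕ → Prop) (hQ : ∀ n m : ℕ, 0 < n → 0 < m → ‖sg (cc a b) n - sg (cc a b) m‖ < ε → (Q n ↔ Q m)) :
    ∀ n : ℕ, 0 < n → (Q n ↔ Q 1) := by
  obtain ⟨B, hB0, hB⟩ := sg_bound a b ha
  obtain ⟨P0, hP0⟩ := sg_rough a b ha (ε / B) (by positivity)
  have base : HH Q P0 := by
    intro s r hs0 hr0 hs hr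
    apply hQ _ _ (Nat.mul_pos hs0 hr0) hs0
    rw [sg_mul _ _ _ (coprime_of P0 s r hs0 hs hr)]
    have h1 : sg (cc a b) s * sg (cc a b) r - sg (cc a b) s = sg (cc a b) s * (sg (cc a b) r - 1) := by ring
    rw [h1, norm_mul]
    have h2 := hP0 r hr0 hr
    calc ‖sg (cc a b) s‖ * ‖sg (cc a b) r - 1‖ ≤ B * ‖sg (cc a b) r - 1‖ :=
          mul_le_mul_of_nonneg_right (hB s) (norm_nonneg _)
      _ < B * (ε / B) := mul_lt_mul_of_pos_left h2 hB0
      _ = ε := by field_simp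
  have step : ∀ P : ℕ, HH Q (P + 1) → HH Q P := by
    intro P hP s r hs0 hr0 hs hr
    by_cases hp : (P + 1).Prime
    · have hpow : ∀ k : ℕ, ∀ q : ℕ, q.Prime → q ∣ s * (P + 1) ^ k → q ≤ P + 1 := by
        intro k q hq hd
        rcases (hq.dvd_mul).mp hd with h | h
        · have := hs q hq h; omega
        · have := hq.dvd_of_dvd_pow h
          exact Nat.le_of_dvd (by omega) this
      have hcopk : ∀ k : ℕ, s.Coprime ((P + 1) ^ k) := by
        intro k
        apply coprime_of P s _ hs0 hs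
        intro q hq hd
        have := hq.dvd_of_dvd_pow hd
        rw [(Nat.prime_dvd_prime_iff_eq hq hp).mp this]; omega
      have hpos : ∀ k : ℕ, 0 < s * (P + 1) ^ k := fun k => Nat.mul_pos hs0 (pow_pos (by omega) k)
      have link : ∀ k : ℕ, (Q (s * (P + 1) ^ k) ↔ Q s) := by
        intro k
        induction k with
        | zero => rw [pow_zero, mul_one]
        | succ k ih =>
          rw [← ih]
          obtain ⟨T1, T2, hT1, hT2, hlt⟩ := hRL (P + 1) hp k (ε / B) (by positivity)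
          obtain ⟨p1, q1⟩ := prod_props (P + 1) T1 hT1
          obtain ⟨p2, q2⟩ := prod_props (P + 1) T2 hT2
          have e1 := hP (s * (P + 1) ^ k) _ (hpos k) p1 (hpow k) q1
          have e2 := hP (s * (P + 1) ^ (k + 1)) _ (hpos (k + 1)) p2 (hpow (k + 1)) q2
          rw [← e1, ← e2]
          apply hQ _ _ (Nat.mul_pos (hpos _) p2) (Nat.mul_pos (hpos _) p1)
          rw [sg_mul _ _ _ (coprime_of (P + 1) _ _ (hpos (k + 1)) (hpow (k + 1)) q2),
            sg_mul _ _ _ (coprime_of (P + 1) _ _ (hpos k) (hpow k) q1),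
            sg_mul _ _ _ (hcopk k), sg_mul _ _ _ (hcopk (k + 1)), sg_pow a b _ _ hp, sg_pow a b _ _ hp,
            sg_prod a b T1 (fun q hq => (hT1 q hq).1), sg_prod a b T2 (fun q hq => (hT2 q hq).1)]
          have h1 : sg (cc a b) s * SS a b (P + 1) (k + 1) * PP a b T2 - sg (cc a b) s * SS a b (P + 1) k * PP a b T1 =
              sg (cc a b) s * (SS a b (P + 1) (k + 1) * PP a b T2 - SS a b (P + 1) k * PP a b T1) := by ring
          rw [h1, norm_mul]
          calc ‖sg (cc a b) s‖ * ‖SS a b (P + 1) (k + 1) * PP a b T2 - SS a b (P + 1) k * PP a b T1‖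
              ≤ B * ‖SS a b (P + 1) (k + 1) * PP a b T2 - SS a b (P + 1) k * PP a b T1‖ :=
                mul_le_mul_of_nonneg_right (hB s) (norm_nonneg _)
            _ < B * (ε / B) := mul_lt_mul_of_pos_left hlt hB0
            _ = ε := by field_simp
      obtain ⟨k, r', hr', hrr⟩ := Nat.exists_eq_pow_mul_and_not_dvd hr0.ne' (P + 1) (by have := hp.two_le; omega)
      have hr'0 : 0 < r' := by
        rcases Nat.eq_zero_or_pos r' with h | h
        · rw [h, mul_zero] at hrr; omega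
        · exact h
      have e3 := hP (s * (P + 1) ^ k) r' (hpos k) hr'0 (hpow k) (by
        intro q hq hd
        have h1 := hr q hq (by rw [hrr]; exact Dvd.dvd.mul_left hd _)
        have h2 : q ≠ P + 1 := by rintro rfl; exact hr' hd
        omega)
      rw [hrr, ← mul_assoc, e3, link k]
    · apply hP s r hs0 hr0 (fun q hq hd => by have := hs q hq hd; omega)
      intro q hq hd
      have h1 := hr q hq hd
      have h2 : q ≠ P + 1 := by rintro rfl; exact hp hq
      omega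
  have all : ∀ j : ℕ, HH Q (P0 - j) := by
    intro j
    induction j with
    | zero => exact base
    | succ j ih =>
      rcases Nat.eq_zero_or_pos (P0 - j) with h | h
      · rw [show P0 - (j + 1) = P0 - j by omega]; exact ih
      · apply step
        rw [show P0 - (j + 1) + 1 = P0 - j by omega]; exact ih
  intro n hn
  have h0 := all P0
  rw [Nat.sub_self] at h0
  have := h0 1 n one_pos hn (fun q hq hd => by
    rw [Nat.dvd_one] at hd
    rw [hd] at hq; exact absurd hq Nat.not_prime_one) (fun q hq _ => hq.pos)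
  rwa [one_mul] at this

def KK (c : ℂ) : Set ℂ := closure {z : ℂ | ∃ n : ℕ, 0 < n ∧ z = sg c n}

theorem connected (a b : ℝ) (ha : 1 < a) (hRL : ∀ p : ℕ, p.Prime → ∀ k : ℕ, RLk a b p k) :
    IsConnected (KK (cc a b)) := by
  have hmem : ∀ n : ℕ, 0 < n → sg (cc a b) n ∈ KK (cc a b) := fun n hn => subset_closure ⟨n, hn, rfl⟩
  have hcpt : IsCompact (KK (cc a b)) := by
    obtain ⟨B, -, hB⟩ := sg_bound a b ha
    apply Metric.isCompact_of_isClosed_isBounded isClosed_closure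
    apply Bornology.IsBounded.closure
    rw [isBounded_iff_forall_norm_le]
    refine ⟨B, ?_⟩
    rintro z ⟨n, -, rfl⟩
    exact hB n
  have key : ∀ t t' : Set ℂ, IsClosed t → IsClosed t' → KK (cc a b) ⊆ t ∪ t' →
      KK (cc a b) ∩ (t ∩ t') = ∅ → sg (cc a b) 1 ∈ t → KK (cc a b) ⊆ t := by
    intro t t' ht ht' hsub hdis h1
    have hd : Disjoint (KK (cc a b) ∩ t) (KK (cc a b) ∩ t') := by
      rw [Set.disjoint_left]
      rintro z ⟨hz, hzt⟩ ⟨-, hzt'⟩
      have : z ∈ KK (cc a b) ∩ (t ∩ t') := ⟨hz, hzt, hzt'⟩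
      rw [hdis] at this; exact this
    obtain ⟨δ, hδ, hth⟩ := hd.exists_thickenings (hcpt.inter_right ht) (isClosed_closure.inter ht')
    rw [Set.disjoint_left] at hth
    have hQ : ∀ n m : ℕ, 0 < n → 0 < m → ‖sg (cc a b) n - sg (cc a b) m‖ < δ →
        (sg (cc a b) n ∈ t → sg (cc a b) m ∈ t) := by
      intro n m hn hm hlt hnt
      by_contra hmt
      have hm' : sg (cc a b) m ∈ t' := (hsub (hmem m hm)).resolve_left hmt
      apply hth (a := sg (cc a b) m)
      · rw [Metric.mem_thickening_iff]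
        exact ⟨sg (cc a b) n, ⟨hmem n hn, hnt⟩, by rw [dist_comm, dist_eq_norm]; exact hlt⟩
      · exact Metric.self_subset_thickening hδ _ ⟨hmem m hm, hm'⟩
    have hall := chain a b ha hRL δ hδ (fun n => sg (cc a b) n ∈ t) (fun n m hn hm hlt =>
      ⟨hQ n m hn hm hlt, hQ m n hm hn (by rw [norm_sub_rev]; exact hlt)⟩)
    apply closure_minimal _ ht
    rintro z ⟨n, hn, rfl⟩
    exact (hall n hn).mpr h1
  refine ⟨⟨_, hmem 1 one_pos⟩, ?_⟩
  rw [isPreconnected_closed_iff]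
  intro t t' ht ht' hsub hn1 hn2
  by_contra hne
  rw [Set.not_nonempty_iff_eq_empty] at hne
  rcases hsub (hmem 1 one_pos) with h | h
  · have hK := key t t' ht ht' hsub hne h
    obtain ⟨z, hz, hz'⟩ := hn2
    have : z ∈ KK (cc a b) ∩ (t ∩ t') := ⟨hz, hK hz, hz'⟩
    rw [hne] at this; exact this
  · have hK := key t' t ht' ht (by rw [Set.union_comm]; exact hsub) (by rw [Set.inter_comm t' t]; exact hne) h
    obtain ⟨z, hz, hz'⟩ := hn1
    have : z ∈ KK (cc a b) ∩ (t ∩ t') := ⟨hz, hz', hK hz⟩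
    rw [hne] at this; exact this

end Pool.Agent.V11276.DC
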