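import Mathlib

namespace Pool.Agent.V11276.HU

open Finset

/-! ### Abel's identity -/

/-- Abel polynomials divided by `n!`: `a (a + n)^(n-1) / n!` -/
noncomputable def ab : ℕ → ℝ → ℝ
  | 0, _ => 1
  | (n + 1), a => a * (a + (n + 1)) ^ n / ((n + 1).factorial : ℝ)

lemma hasDerivAt_ab (n : ℕ) (a : ℝ) : HasDerivAt (ab (n + 1)) (ab n (a + 1)) a := by
  have h0 : ab (n + 1) = fun a => a * (a + (n + 1)) ^ n / ((n + 1).factorial : ℝ) := by
    ext; rw [ab]
  rw [h0]
  have hf : ((n + 1).factorial : ℝ) ≠ 0 := by positivity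
  cases n with
  | zero =>
    rw [ab]
    have h1 := (hasDerivAt_id' a)
    have h2 := h1.div_const (1 : ℝ)
    simpa using h1
  | succ m =>
    have h1 : HasDerivAt (fun a : ℝ => a + (((m + 1 : ℕ) : ℝ) + 1)) 1 a := (hasDerivAt_id' a).add_const _
    have h2 := h1.pow (m + 1)
    have h3 := ((hasDerivAt_id' a).mul h2).div_const (((m + 1 + 1).factorial : ℝ))
    refine HasDerivAt.congr_deriv h3 ?_
    rw [ab, div_eq_div_iff (by positivity) (by positivity), Nat.factorial_succ (m + 1)]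
    simp only [Nat.add_sub_cancel, Pi.pow_apply]
    push_cast
    ring

lemma ab_zero_right (n : ℕ) : ab (n + 1) 0 = 0 := by rw [ab]; simp

lemma abel (n : ℕ) : ∀ a b : ℝ, ∑ p ∈ antidiagonal n, ab p.1 a * ab p.2 b = ab n (a + b) := by
  induction n with
  | zero => intro a b; simp [ab]
  | succ n ih =>
    intro a b
    rw [Finset.Nat.sum_antidiagonal_succ]
    obtain ⟨F, hF⟩ : ∃ F : ℝ → ℝ, F = fun a => ab 0 a * ab (n + 1) b +
      ∑ p ∈ antidiagonal n, ab (p.1 + 1) a * ab p.2 b - ab (n + 1) (a + b) := ⟨_, rfl⟩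
    have hd : ∀ a, HasDerivAt F 0 a := by
      intro a
      rw [hF]
      have h1 : HasDerivAt (fun a : ℝ => ab 0 a * ab (n + 1) b) 0 a := by
        have : (fun a : ℝ => ab 0 a * ab (n + 1) b) = fun _ => ab (n + 1) b := by
          ext; rw [ab, one_mul]
        rw [this]; exact hasDerivAt_const _ _
      have h2 : HasDerivAt (fun a : ℝ => ∑ p ∈ antidiagonal n, ab (p.1 + 1) a * ab p.2 b)
          (∑ p ∈ antidiagonal n, ab p.1 (a + 1) * ab p.2 b) a := by
        apply HasDerivAt.fun_sum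
        intro p _
        exact (hasDerivAt_ab p.1 a).mul_const _
      have h3 : HasDerivAt (fun a : ℝ => ab (n + 1) (a + b)) (ab n (a + b + 1)) a := by
        exact (hasDerivAt_ab n (a + b)).comp_add_const a b
      have h4 := (h1.add h2).sub h3
      rw [ih (a + 1) b, show a + 1 + b = a + b + 1 by ring,
        show 0 + ab n (a + b + 1) - ab n (a + b + 1) = 0 by ring] at h4
      exact h4
    have hc := is_const_of_deriv_eq_zero (fun x => (hd x).differentiableAt) (fun x => (hd x).deriv) a 0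
    have h0 : F 0 = 0 := by
      rw [hF]
      have : ∑ p ∈ antidiagonal n, ab (p.1 + 1) 0 * ab p.2 b = 0 := by
        apply sum_eq_zero; intro p _; rw [ab_zero_right, zero_mul]
      show ab 0 0 * ab (n + 1) b + ∑ p ∈ antidiagonal n, ab (p.1 + 1) 0 * ab p.2 b - ab (n + 1) (0 + b) = 0
      rw [this, zero_add, ab, one_mul]; ring
    rw [h0, hF] at hc
    have hc : ab 0 a * ab (n + 1) b + ∑ p ∈ antidiagonal n, ab (p.1 + 1) a * ab p.2 b - ab (n + 1) (a + b) = 0 := hc
    linarith

/-- the exponential type series `exp (a T)` -/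
noncomputable def E (a : ℝ) : PowerSeries ℝ := PowerSeries.mk (fun n => ab n a)

lemma E_mul (a b : ℝ) : E a * E b = E (a + b) := by
  ext n
  rw [PowerSeries.coeff_mul]
  simp only [E, PowerSeries.coeff_mk]
  exact abel n a b

lemma E_zero : E 0 = 1 := by
  ext n
  cases n with
  | zero => simp [E, ab]
  | succ n => rw [E, PowerSeries.coeff_mk, ab_zero_right, PowerSeries.coeff_one, if_neg (by omega)]

lemma E_pow (k : ℕ) : (E 1) ^ k = E k := by
  induction k with
  | zero => rw [pow_zero, Nat.cast_zero, E_zero]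
  | succ k ih => rw [pow_succ, ih, E_mul]; push_cast; rfl

/-- the tree function `T = x exp T` -/
noncomputable def T : PowerSeries ℝ := PowerSeries.X * E 1

lemma coeff_T_pow (k p : ℕ) (hkp : k ≤ p) : PowerSeries.coeff p (T ^ k) = ab (p - k) k := by
  rw [T, mul_pow, E_pow, PowerSeries.coeff_X_pow_mul', if_pos hkp, E, PowerSeries.coeff_mk]

lemma ab_formula (k i : ℕ) (hk : 1 ≤ k) : ab i k = (k : ℝ) / ((k : ℝ) + i) * (((k : ℝ) + i) ^ i / (i.factorial : ℝ)) := by
  have hk0 : (0 : ℝ) < k := by exact_mod_cast hk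
  cases i with
  | zero => rw [ab]; field_simp; simp
  | succ i =>
    rw [ab]
    have : (k : ℝ) + ((i + 1 : ℕ) : ℝ) ≠ 0 := by positivity
    field_simp
    push_cast
    ring

/-! ### Geometric series of a power series without constant term -/

lemma coeff_pow_zero (Y : PowerSeries ℝ) (h0 : PowerSeries.constantCoeff Y = 0) (k j : ℕ) (hj : j < k) :
    PowerSeries.coeff j (Y ^ k) = 0 := by
  obtain ⟨Z, rfl⟩ := PowerSeries.X_dvd_iff.mpr h0
  rw [mul_pow, PowerSeries.coeff_X_pow_mul', if_neg (by omega)]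

/-- `1 + Y + Y^2 + ...` -/
noncomputable def Qs (Y : PowerSeries ℝ) : PowerSeries ℝ :=
  PowerSeries.mk (fun p => ∑ k ∈ range (p + 1), PowerSeries.coeff p (Y ^ k))

lemma coeff_Qs (Y : PowerSeries ℝ) (h0 : PowerSeries.constantCoeff Y = 0) (j K : ℕ) (hj : j ≤ K) :
    PowerSeries.coeff j (Qs Y) = PowerSeries.coeff j (∑ k ∈ range (K + 1), Y ^ k) := by
  rw [Qs, PowerSeries.coeff_mk, map_sum]
  apply sum_subset
  · intro x hx; rw [mem_range] at *; omega
  · intro x _ hx
    rw [mem_range] at hx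
    exact coeff_pow_zero Y h0 x j (by omega)

lemma coeff_mul_Qs (Y Z : PowerSeries ℝ) (h0 : PowerSeries.constantCoeff Y = 0) (q : ℕ) :
    PowerSeries.coeff q (Z * Qs Y) = PowerSeries.coeff q (Z * ∑ k ∈ range (q + 1), Y ^ k) := by
  rw [PowerSeries.coeff_mul, PowerSeries.coeff_mul]
  apply sum_congr rfl
  intro p hp
  rw [Finset.HasAntidiagonal.mem_antidiagonal] at hp
  rw [coeff_Qs Y h0 p.2 q (by omega)]

lemma one_sub_mul_Qs (Y : PowerSeries ℝ) (h0 : PowerSeries.constantCoeff Y = 0) : (1 - Y) * Qs Y = 1 := by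
  ext q
  rw [coeff_mul_Qs Y (1 - Y) h0 q, mul_comm, geom_sum_mul_neg, map_sub,
    coeff_pow_zero Y h0 (q + 1) q (by omega), sub_zero]

lemma coeff_deriv_Qs (Y : PowerSeries ℝ) (h0 : PowerSeries.constantCoeff Y = 0) (q : ℕ) :
    PowerSeries.coeff q ((1 - Y) * PowerSeries.derivative ℝ (Qs Y)) =
      ∑ k ∈ range (q + 1), ((q : ℝ) + 1) / ((k : ℝ) + 1) * PowerSeries.coeff (q + 1) (Y ^ (k + 1)) := by
  have h1 : (1 - Y) * PowerSeries.derivative ℝ (Qs Y) = PowerSeries.derivative ℝ Y * Qs Y := by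
    have h2 := congrArg (PowerSeries.derivative ℝ) (one_sub_mul_Qs Y h0)
    rw [Derivation.leibniz, map_sub] at h2
    simp only [smul_eq_mul, Derivation.map_one_eq_zero, zero_sub] at h2
    linear_combination h2
  rw [h1, coeff_mul_Qs Y _ h0 q, mul_sum, map_sum]
  apply sum_congr rfl
  intro k _
  have h3 : PowerSeries.derivative ℝ (Y ^ (k + 1)) = PowerSeries.C ((k : ℝ) + 1) * (PowerSeries.derivative ℝ Y * Y ^ k) := by
    rw [Derivation.leibniz_pow]
    simp only [Nat.add_sub_cancel, smul_eq_mul, nsmul_eq_mul]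
    rw [map_add, map_one, map_natCast]
    push_cast
    ring
  have h4 := congrArg (PowerSeries.coeff q) h3
  rw [PowerSeries.coeff_C_mul, PowerSeries.coeff_derivative] at h4
  have h5 : ((k : ℝ) + 1) ≠ 0 := by positivity
  rw [div_mul_eq_mul_div, eq_div_iff h5, mul_comm _ ((k : ℝ) + 1), ← h4]
  ring

end Pool.Agent.V11276.HU
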