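import Pool.Agent.V11276.HU9

namespace Pool.Agent.V11276.HU

open Finset Matrix
open scoped Matrix.Norms.L2Operator

variable {N : ℕ}

/-- squared singular values of `B`, i.e. eigenvalues of `Bᴴ B` -/
noncomputable def sqSing (B : Matrix (Fin N) (Fin N) ℂ) : Fin N → ℝ :=
  (isHermitian_conjTranspose_mul_self B).eigenvalues

lemma trace_pow_herm (A : Matrix (Fin N) (Fin N) ℂ) (hA : A.IsHermitian) (p : ℕ) :
    trace (A ^ p) = ((∑ k, (hA.eigenvalues k) ^ p : ℝ) : ℂ) := by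
  have h1 : A ^ p = Unitary.conjStarAlgAut ℂ _ hA.eigenvectorUnitary
      ((diagonal (RCLike.ofReal ∘ hA.eigenvalues)) ^ p) := by
    rw [map_pow, ← hA.spectral_theorem]
  rw [h1, Unitary.conjStarAlgAut_apply, trace_mul_cycle, diagonal_pow]
  have h2 : (star (hA.eigenvectorUnitary : unitaryGroup (Fin N) ℂ) : Matrix (Fin N) (Fin N) ℂ) *
      (hA.eigenvectorUnitary : Matrix (Fin N) (Fin N) ℂ) = 1 := by
    exact Unitary.coe_star_mul_self _
  rw [h2, one_mul, trace_diagonal]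
  push_cast
  rfl

lemma pow_comm' (B : Matrix (Fin N) (Fin N) ℂ) (p : ℕ) :
    (Bᴴ * B) ^ (p + 1) = Bᴴ * ((B * Bᴴ) ^ p * B) := by
  induction p with
  | zero => simp
  | succ p ih =>
    rw [pow_succ, ih, pow_succ (B * Bᴴ)]
    noncomm_ring

lemma eig_moment [NeZero N] (B : Matrix (Fin N) (Fin N) ℂ) (p : ℕ) :
    (∑ k, (sqSing B k) ^ p) / N = D p (B * Bᴴ) := by
  have h1 := trace_pow_herm _ (isHermitian_conjTranspose_mul_self B) p
  have h2 : trace ((Bᴴ * B) ^ p) = trace ((B * Bᴴ) ^ p) := by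
    cases p with
    | zero => simp
    | succ p =>
      rw [pow_comm', trace_mul_comm, pow_succ (B * Bᴴ), mul_assoc]
  rw [h2] at h1
  unfold D sqSing
  rw [h1, Complex.ofReal_re, Fintype.card_fin]

open scoped ComplexOrder in
lemma sqSing_mem (B : Matrix (Fin N) (Fin N) ℂ) (hB : ‖B * Bᴴ‖ ≤ 1) (k : Fin N) :
    sqSing B k ∈ Set.Icc (0 : ℝ) 1 := by
  constructor
  · exact (posSemidef_conjTranspose_mul_self B).eigenvalues_nonneg k
  · unfold sqSing
    have hA := isHermitian_conjTranspose_mul_self B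
    have h1 : ‖Bᴴ * B‖ ≤ 1 := by
      have e1 := l2_opNorm_conjTranspose_mul_self B
      have e2 := l2_opNorm_conjTranspose_mul_self Bᴴ
      rw [conjTranspose_conjTranspose, l2_opNorm_conjTranspose] at e2
      rw [e1, ← e2]; exact hB
    rw [hA.eigenvalues_eq k]
    obtain ⟨x, hx⟩ : ∃ x : EuclideanSpace ℂ (Fin N), x = hA.eigenvectorBasis k := ⟨_, rfl⟩
    have hu : star (x : Fin N → ℂ) ⬝ᵥ (x : Fin N → ℂ) = 1 := by
      have h3 : inner ℂ x x = (1 : ℂ) := by
        rw [hx]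
        have := orthonormal_iff_ite.mp hA.eigenvectorBasis.orthonormal k k
        simpa using this
      rw [EuclideanSpace.inner_eq_star_dotProduct, dotProduct_comm] at h3
      exact h3
    have h4 := phi_bound (x : Fin N → ℂ) hu (Bᴴ * B)
    rw [← hx]
    exact (RCLike.re_le_norm _).trans (h4.trans h1)

lemma proj_eq (hN : 1 ≤ N) (P : Matrix (Fin N) (Fin N) ℂ) (hH : Pᴴ = P) (hI : P * P = P) (hr : P.rank = N - 1) :
    ∃ v : Fin N → ℂ, star v ⬝ᵥ v = 1 ∧ P = 1 - rk v := by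
  have h1 := LinearMap.finrank_range_add_finrank_ker P.mulVecLin
  have h2 : Module.finrank ℂ (LinearMap.range P.mulVecLin) = N - 1 := hr
  rw [h2, Module.finrank_fin_fun] at h1
  have h3 : Module.finrank ℂ (LinearMap.ker P.mulVecLin) = 1 := by omega
  obtain ⟨v0, hv0, hall⟩ := finrank_eq_one_iff'.mp h3
  obtain ⟨x, hx⟩ : ∃ x : EuclideanSpace ℂ (Fin N), x = WithLp.toLp 2 (v0 : Fin N → ℂ) := ⟨_, rfl⟩
  have hx' : (x : Fin N → ℂ) = v0 := by rw [hx]
  have hx0 : x ≠ 0 := by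
    intro h
    apply hv0
    apply Subtype.ext
    rw [← hx', h]; rfl
  have hnx : ‖x‖ ≠ 0 := norm_ne_zero_iff.mpr hx0
  have hd : star (v0 : Fin N → ℂ) ⬝ᵥ (v0 : Fin N → ℂ) = ((‖x‖ ^ 2 : ℝ) : ℂ) := by
    have h4 := inner_self_eq_norm_sq_to_K (𝕜 := ℂ) x
    rw [EuclideanSpace.inner_eq_star_dotProduct, dotProduct_comm, hx'] at h4
    rw [h4]; simp
  obtain ⟨r, hr'⟩ : ∃ r : ℝ, r = ‖x‖⁻¹ := ⟨_, rfl⟩
  have hrx : r ^ 2 * ‖x‖ ^ 2 = 1 := by rw [hr']; field_simp
  have hr0 : r ≠ 0 := by rw [hr']; exact inv_ne_zero hnx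
  have hPv0 : P *ᵥ (v0 : Fin N → ℂ) = 0 := by
    have := v0.2
    rwa [LinearMap.mem_ker, mulVecLin_apply] at this
  refine ⟨(r : ℂ) • (v0 : Fin N → ℂ), ?_, ?_⟩
  · rw [star_smul, smul_dotProduct, dotProduct_smul, hd]
    have : star (r : ℂ) = r := Complex.conj_ofReal r
    rw [this, smul_eq_mul, smul_eq_mul, ← mul_assoc, ← Complex.ofReal_mul, ← Complex.ofReal_mul, ← pow_two, hrx,
      Complex.ofReal_one]
  · obtain ⟨v, hv⟩ : ∃ v : Fin N → ℂ, v = (r : ℂ) • (v0 : Fin N → ℂ) := ⟨_, rfl⟩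
    have hvv : star v ⬝ᵥ v = 1 := by
      rw [hv, star_smul, smul_dotProduct, dotProduct_smul, hd]
      have : star (r : ℂ) = r := Complex.conj_ofReal r
      rw [this, smul_eq_mul, smul_eq_mul, ← mul_assoc, ← Complex.ofReal_mul, ← Complex.ofReal_mul, ← pow_two, hrx,
        Complex.ofReal_one]
    rw [← hv]
    have hPv : P *ᵥ v = 0 := by rw [hv, mulVec_smul, hPv0, smul_zero]
    have key : ∀ w : Fin N → ℂ, w - P *ᵥ w = rk v *ᵥ w := by
      intro w
      have hk : w - P *ᵥ w ∈ LinearMap.ker P.mulVecLin := by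
        rw [LinearMap.mem_ker, mulVecLin_apply, mulVec_sub, mulVec_mulVec, hI, sub_self]
      obtain ⟨c, hc⟩ := hall ⟨_, hk⟩
      have hc' : c • (v0 : Fin N → ℂ) = w - P *ᵥ w := congrArg Subtype.val hc
      have hc2 : (c * (r : ℂ)⁻¹) • v = w - P *ᵥ w := by
        rw [hv, smul_smul, mul_assoc, inv_mul_cancel₀ (by exact_mod_cast hr0), mul_one, hc']
      have h5 : star v ⬝ᵥ (w - P *ᵥ w) = star v ⬝ᵥ w := by
        rw [dotProduct_sub, dotProduct_mulVec]
        have : star v ᵥ* P = 0 := by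
          have e := star_mulVec P v
          rw [hH, hPv, star_zero] at e
          exact e.symm
        rw [this, zero_dotProduct, sub_zero]
      have h6 : star v ⬝ᵥ w = c * (r : ℂ)⁻¹ := by
        rw [← h5, ← hc2, dotProduct_smul, hvv, smul_eq_mul, mul_one]
      unfold rk
      rw [vecMulVec_mulVec, h6, ← hc2]
      ext i
      simp [mul_comm]
    have h7 : (1 - P) = rk v := by
      apply Matrix.ext_of_mulVec_single
      intro i
      rw [sub_mulVec, one_mulVec, key]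
    rw [← h7]; abel

end Pool.Agent.V11276.HU
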