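import Pool.Agent.V11276.HU2
import Mathlib

namespace Pool.Agent.V11276.HU

open Finset MeasureTheory ProbabilityTheory Filter Topology

/-- `μ` is the measure `μ_τ` : a probability measure on `[0,1]` with moments `m_p(τ)` -/
structure IsMuTau (τ : ℝ) (μ : Measure ℝ) : Prop where
  prob : IsProbabilityMeasure μ
  supp : μ (Set.Icc (0 : ℝ) 1)ᶜ = 0
  moments : ∀ p : ℕ, 1 ≤ p → ∫ x, x ^ p ∂μ = mom p τ

lemma moment_limit (m : ℕ → ℝ) (h : ∀ K : ℕ, ∃ ν : ProbabilityMeasure (Set.Icc (0 : ℝ) 1),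
    ∀ p ≤ K, |∫ x, (x : ℝ) ^ p ∂(ν : Measure (Set.Icc (0 : ℝ) 1)) - m p| ≤ 1 / (K + 1)) :
    ∃ ν : ProbabilityMeasure (Set.Icc (0 : ℝ) 1), ∀ p, ∫ x, (x : ℝ) ^ p ∂(ν : Measure (Set.Icc (0 : ℝ) 1)) = m p := by
  choose ν hν using h
  obtain ⟨μ, -, hμ⟩ := (isCompact_univ (X := ProbabilityMeasure (Set.Icc (0 : ℝ) 1))).ultrafilter_le_nhds
    ((hyperfilter ℕ).map ν) (by rw [le_principal_iff]; exact univ_mem)
  refine ⟨μ, fun p => ?_⟩
  have ht : Tendsto ν (hyperfilter ℕ : Filter ℕ) (𝓝 μ) := hμ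
  have h1 := ProbabilityMeasure.tendsto_iff_forall_integral_tendsto.mp ht
    (BoundedContinuousFunction.mkOfCompact ⟨fun x : Set.Icc (0 : ℝ) 1 => (x : ℝ) ^ p, by fun_prop⟩)
  have h2 : Tendsto (fun K => ∫ x, (x : ℝ) ^ p ∂(ν K : Measure (Set.Icc (0 : ℝ) 1))) atTop (𝓝 (m p)) := by
    rw [tendsto_iff_norm_sub_tendsto_zero]
    refine squeeze_zero' (Eventually.of_forall fun _ => norm_nonneg _) ?_ tendsto_one_div_add_atTop_nhds_zero_nat
    filter_upwards [eventually_ge_atTop p] with K hK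
    exact hν K p hK
  exact tendsto_nhds_unique h1 (h2.mono_left Nat.hyperfilter_le_atTop)

lemma empirical {N : ℕ} [NeZero N] (T : Fin N → ℝ) (hT : ∀ k, T k ∈ Set.Icc (0 : ℝ) 1) :
    ∃ ν : ProbabilityMeasure (Set.Icc (0 : ℝ) 1), ∀ p : ℕ,
      ∫ x, (x : ℝ) ^ p ∂(ν : Measure (Set.Icc (0 : ℝ) 1)) = (∑ k, (T k) ^ p) / N := by
  have hN : (N : ENNReal) ≠ 0 := by exact_mod_cast NeZero.ne N
  have hp : IsProbabilityMeasure ((N : ENNReal)⁻¹ • ∑ k : Fin N, Measure.dirac (⟨T k, hT k⟩ : Set.Icc (0 : ℝ) 1)) := by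
    constructor
    rw [Measure.smul_apply, Measure.finsetSum_apply]
    simp only [measure_univ, sum_const, card_univ, Fintype.card_fin, nsmul_eq_mul, mul_one, smul_eq_mul]
    exact ENNReal.inv_mul_cancel hN (ENNReal.natCast_ne_top N)
  refine ⟨⟨_, hp⟩, fun p => ?_⟩
  show ∫ x, (x : ℝ) ^ p ∂((N : ENNReal)⁻¹ • ∑ k : Fin N, Measure.dirac (⟨T k, hT k⟩ : Set.Icc (0 : ℝ) 1)) = _
  rw [integral_smul_measure, integral_finsetSum_measure]
  · simp only [integral_dirac]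
    rw [ENNReal.toReal_inv, ENNReal.toReal_natCast, smul_eq_mul, inv_mul_eq_div]
  · intro k _
    exact integrable_dirac (by simp)

lemma exists_mu (τ : ℝ) (h : ∀ K : ℕ, ∀ δ > 0, ∃ (N : ℕ) (_ : NeZero N) (T : Fin N → ℝ), (∀ k, T k ∈ Set.Icc (0 : ℝ) 1) ∧
    ∑ p ∈ range (K + 1), ((∑ k, (T k) ^ p) / N - mm p τ) ^ 2 ≤ δ) : ∃ μ : Measure ℝ, IsMuTau τ μ := by
  obtain ⟨ν, hν⟩ := moment_limit (fun p => mm p τ) (by
    intro K
    obtain ⟨N, _, T, hT, hs⟩ := h K ((1 / (K + 1)) ^ 2) (by positivity)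
    obtain ⟨ν, hν⟩ := empirical T hT
    refine ⟨ν, fun p hp => ?_⟩
    rw [hν]
    have h1 : ((∑ k, (T k) ^ p) / N - mm p τ) ^ 2 ≤ (1 / ((K : ℝ) + 1)) ^ 2 := by
      refine le_trans ?_ hs
      exact single_le_sum (f := fun p => ((∑ k, (T k) ^ p) / N - mm p τ) ^ 2) (fun _ _ => sq_nonneg _)
        (mem_range.mpr (by omega))
    exact abs_le_of_sq_le_sq h1 (by positivity))
  refine ⟨(ν : Measure (Set.Icc (0 : ℝ) 1)).map Subtype.val, ?_, ?_, ?_⟩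
  · exact Measure.isProbabilityMeasure_map measurable_subtype_coe.aemeasurable
  · rw [Measure.map_apply measurable_subtype_coe measurableSet_Icc.compl]
    have : (Subtype.val ⁻¹' (Set.Icc (0 : ℝ) 1)ᶜ : Set (Set.Icc (0 : ℝ) 1)) = ∅ := by
      ext x; simp [x.2.1, x.2.2]
    rw [this, measure_empty]
  · intro p hp
    rw [integral_map measurable_subtype_coe.aemeasurable (by fun_prop), hν]
    unfold mm
    rw [if_neg (by omega)]

lemma approx (τ : ℝ) (μ : Measure ℝ) (hμ : IsMuTau τ μ) (f : ℝ → ℝ) (hf : ContinuousOn f (Set.Icc 0 1))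
    (ε : ℝ) (hε : 0 < ε) : ∃ Q : ℕ, ∃ δ > 0, ∀ (N : ℕ) [NeZero N] (T : Fin N → ℝ), (∀ k, T k ∈ Set.Icc (0 : ℝ) 1) →
      ε < |(∑ k, f (T k)) / N - ∫ x, f x ∂μ| →
      δ ≤ ∑ p ∈ range (Q + 1), ((∑ k, (T k) ^ p) / N - mm p τ) ^ 2 := by
  haveI := hμ.prob
  obtain ⟨g, hg⟩ := exists_polynomial_near_of_continuousOn 0 1 f hf (ε / 4) (by linarith)
  have hae : ∀ᵐ x ∂μ, x ∈ Set.Icc (0 : ℝ) 1 := hμ.supp
  have hres : μ.restrict (Set.Icc (0 : ℝ) 1) = μ := Measure.restrict_eq_self_of_ae_mem hae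
  have hci : ∀ u : ℝ → ℝ, ContinuousOn u (Set.Icc 0 1) → Integrable u μ := by
    intro u hu
    have := hu.integrableOn_Icc (μ := μ)
    rwa [IntegrableOn, hres] at this
  have hif := hci f hf
  have hig := hci (fun x => g.eval x) g.continuous.continuousOn
  have hmm : ∀ p : ℕ, ∫ x, x ^ p ∂μ = mm p τ := by
    intro p
    unfold mm
    split_ifs with h
    · rw [h]; simp
    · exact hμ.moments p (by omega)
  have hgi : ∫ x, g.eval x ∂μ = ∑ p ∈ range (g.natDegree + 1), g.coeff p * mm p τ := by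
    simp_rw [Polynomial.eval_eq_sum_range]
    rw [integral_finsetSum _ (fun p _ => (hci (fun x => x ^ p) (by fun_prop)).const_mul _)]
    apply sum_congr rfl
    intro p _
    rw [integral_const_mul, hmm]
  have hd1 : |∫ x, g.eval x ∂μ - ∫ x, f x ∂μ| ≤ ε / 4 := by
    rw [← integral_sub hig hif]
    have := norm_integral_le_of_norm_le_const (μ := μ) (f := fun x => g.eval x - f x) (C := ε / 4) (by
      filter_upwards [hae] with x hx
      exact (hg x hx).le)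
    simpa using this
  obtain ⟨A, hA⟩ : ∃ A, A = ∑ p ∈ range (g.natDegree + 1), (g.coeff p) ^ 2 := ⟨_, rfl⟩
  have hA0 : 0 ≤ A := by rw [hA]; exact sum_nonneg fun _ _ => sq_nonneg _
  refine ⟨g.natDegree, ε ^ 2 / 4 / (A + 1), by positivity, ?_⟩
  intro N _ T hT hlt
  have hN : (0 : ℝ) < N := by exact_mod_cast Nat.pos_of_ne_zero (NeZero.ne N)
  have hd2 : |(∑ k, f (T k)) / N - (∑ k, g.eval (T k)) / N| ≤ ε / 4 := by
    rw [← sub_div, ← sum_sub_distrib, abs_div, abs_of_pos hN, div_le_iff₀ hN]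
    calc |∑ k, (f (T k) - g.eval (T k))| ≤ ∑ k, |f (T k) - g.eval (T k)| := abs_sum_le_sum_abs _ _
      _ ≤ ∑ k : Fin N, ε / 4 := by
          apply sum_le_sum
          intro k _
          rw [abs_sub_comm]
          exact (hg _ (hT k)).le
      _ = ε / 4 * N := by rw [sum_const, card_univ, Fintype.card_fin, nsmul_eq_mul]; ring
  have he : (∑ k, g.eval (T k)) / N = ∑ p ∈ range (g.natDegree + 1), g.coeff p * ((∑ k, (T k) ^ p) / N) := by
    simp_rw [Polynomial.eval_eq_sum_range]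
    rw [sum_comm, sum_div]
    apply sum_congr rfl
    intro p _
    rw [← mul_sum]; ring
  have hdiff : (∑ k, g.eval (T k)) / N - ∫ x, g.eval x ∂μ =
      ∑ p ∈ range (g.natDegree + 1), g.coeff p * ((∑ k, (T k) ^ p) / N - mm p τ) := by
    rw [he, hgi, ← sum_sub_distrib]
    apply sum_congr rfl
    intro p _
    ring
  have hbig : ε / 2 < |(∑ k, g.eval (T k)) / N - ∫ x, g.eval x ∂μ| := by
    have e1 : (∑ k, f (T k)) / N - ∫ x, f x ∂μ = ((∑ k, f (T k)) / N - (∑ k, g.eval (T k)) / N) +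
      ((∑ k, g.eval (T k)) / N - ∫ x, g.eval x ∂μ) + (∫ x, g.eval x ∂μ - ∫ x, f x ∂μ) := by ring
    have e2 := abs_add_le (((∑ k, f (T k)) / N - (∑ k, g.eval (T k)) / N) +
      ((∑ k, g.eval (T k)) / N - ∫ x, g.eval x ∂μ)) (∫ x, g.eval x ∂μ - ∫ x, f x ∂μ)
    have e3 := abs_add_le ((∑ k, f (T k)) / N - (∑ k, g.eval (T k)) / N)
      ((∑ k, g.eval (T k)) / N - ∫ x, g.eval x ∂μ)
    rw [e1] at hlt
    linarith
  rw [hdiff] at hbig
  have hcs := sum_mul_sq_le_sq_mul_sq (range (g.natDegree + 1)) (fun p => g.coeff p)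
    (fun p => (∑ k, (T k) ^ p) / N - mm p τ)
  rw [← hA] at hcs
  obtain ⟨W, hW⟩ : ∃ W, W = ∑ p ∈ range (g.natDegree + 1), ((∑ k, (T k) ^ p) / N - mm p τ) ^ 2 := ⟨_, rfl⟩
  obtain ⟨Δ, hΔ⟩ : ∃ Δ, Δ = ∑ p ∈ range (g.natDegree + 1), g.coeff p * ((∑ k, (T k) ^ p) / N - mm p τ) := ⟨_, rfl⟩
  have hW0 : 0 ≤ W := by rw [hW]; exact sum_nonneg fun _ _ => sq_nonneg _
  have hcs' : Δ ^ 2 ≤ A * W := by rw [hΔ, hW]; exact hcs
  rw [← hΔ] at hbig
  rw [← hW]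
  have h5 : (ε / 2) ^ 2 < Δ ^ 2 := by
    rw [← sq_abs Δ]
    exact pow_lt_pow_left₀ hbig (by linarith) (by norm_num)
  rw [div_le_iff₀ (by linarith)]
  nlinarith

end Pool.Agent.V11276.HU
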