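import Pool.Agent.V11276.HU10
import Pool.Agent.V11276.HU11

namespace Pool.Agent.V11276.HU

open Finset Matrix MeasureTheory ProbabilityTheory Filter Topology

universe u

section fixedN
variable {N : ℕ} {Ω : Type*} [MeasurableSpace Ω] {Pm : Measure Ω}

/-- distance of the first moments of the empirical measure to those of `μ_τ` -/
noncomputable def er (P : Matrix (Fin N) (Fin N) ℂ) (S : ℕ → Ω → Matrix (Fin N) (Fin N) ℂ) (τ : ℝ) (Q L : ℕ)
    (ω : Ω) : ℝ := ∑ p ∈ range (Q + 1), (D p (Ms P (fun i => S i ω) L) - mm p τ) ^ 2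

lemma er_eq [NeZero N] (P : Matrix (Fin N) (Fin N) ℂ) (S : ℕ → Ω → Matrix (Fin N) (Fin N) ℂ) (τ : ℝ) (Q L : ℕ)
    (ω : Ω) : er P S τ Q L ω =
      ∑ p ∈ range (Q + 1), ((∑ k, (sqSing (Bs P (fun i => S i ω) L) k) ^ p) / N - mm p τ) ^ 2 := by
  unfold er
  apply sum_congr rfl
  intro p _
  rw [eig_moment]
  rfl

lemma er_int [NeZero N] [IsProbabilityMeasure Pm] (v : Fin N → ℂ) (hv : star v ⬝ᵥ v = 1)
    (S : ℕ → Ω → Matrix (Fin N) (Fin N) ℂ) (hS : ∀ i, Measurable (S i)) (hH : ∀ i, IsHaar (Pm.map (S i)))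
    (τ : ℝ) (Q L : ℕ) : Integrable (er (1 - rk v) S τ Q L) Pm ∧
      ∫ ω, er (1 - rk v) S τ Q L ω ∂Pm ≤ 2 * ∫ ω, err (1 - rk v) S Q L ω ∂Pm +
        2 * ∑ p ∈ range (Q + 1), (mm p ((L : ℝ) / N) - mm p τ) ^ 2 := by
  have hle : ∀ ω, er (1 - rk v) S τ Q L ω ≤ 2 * err (1 - rk v) S Q L ω +
        2 * ∑ p ∈ range (Q + 1), (mm p ((L : ℝ) / N) - mm p τ) ^ 2 := by
    intro ω
    unfold er err
    rw [mul_sum, mul_sum, ← sum_add_distrib]
    apply sum_le_sum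
    intro p _
    nlinarith [sq_nonneg ((D p (Ms (1 - rk v) (fun i => S i ω) L) - mm p ((L : ℝ) / N)) -
      (mm p ((L : ℝ) / N) - mm p τ))]
  have h0 : ∀ ω, 0 ≤ er (1 - rk v) S τ Q L ω := fun ω => sum_nonneg fun _ _ => sq_nonneg _
  have hi := (err_intg v hv S hS hH Q L).const_mul 2
  have hi2 := hi.add (integrable_const (μ := Pm) (2 * ∑ p ∈ range (Q + 1), (mm p ((L : ℝ) / N) - mm p τ) ^ 2))
  have hm : Measurable (er (1 - rk v) S τ Q L) := by
    unfold er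
    refine Finset.measurable_sum _ fun p _ => ?_
    exact (((D_cont p).measurable.comp (Ms_meas _ S hS L)).sub_const _).pow_const 2
  have hie : Integrable (er (1 - rk v) S τ Q L) Pm := by
    refine hi2.mono hm.aestronglyMeasurable ?_
    filter_upwards with ω
    rw [Real.norm_eq_abs, abs_of_nonneg (h0 ω)]
    exact (hle ω).trans (le_abs_self _)
  refine ⟨hie, ?_⟩
  calc ∫ ω, er (1 - rk v) S τ Q L ω ∂Pm ≤ ∫ ω, (2 * err (1 - rk v) S Q L ω +
        2 * ∑ p ∈ range (Q + 1), (mm p ((L : ℝ) / N) - mm p τ) ^ 2) ∂Pm :=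
        integral_mono hie hi2 hle
    _ = _ := by
        rw [integral_add hi (integrable_const _), integral_const_mul]
        simp

lemma sing_mem [NeZero N] (v : Fin N → ℂ) (hv : star v ⬝ᵥ v = 1)
    (s : ℕ → Matrix (Fin N) (Fin N) ℂ) (hs : ∀ i, s i ∈ unitaryGroup (Fin N) ℂ) (L : ℕ) (k : Fin N) :
    sqSing (Bs (1 - rk v) s L) k ∈ Set.Icc (0 : ℝ) 1 :=
  sqSing_mem _ (Ms_K v hv s hs L).2 k

end fixedN

variable (Ω : ℕ → Type u) [∀ N, MeasurableSpace (Ω N)] (Pm : ∀ N, Measure (Ω N))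
  (P : ∀ N, Matrix (Fin N) (Fin N) ℂ) (S : ∀ N, ℕ → Ω N → Matrix (Fin N) (Fin N) ℂ) (L : ℕ → ℕ)

/-- the standing assumptions for each `N ≥ 2` -/
structure Data : Prop where
  prob : ∀ N, 2 ≤ N → IsProbabilityMeasure (Pm N)
  proj : ∀ N, 2 ≤ N → ∃ v : Fin N → ℂ, star v ⬝ᵥ v = 1 ∧ P N = 1 - rk v
  meas : ∀ N, 2 ≤ N → ∀ i, Measurable (S N i)
  indep : ∀ N, 2 ≤ N → iIndepFun (S N) (Pm N)
  haar : ∀ N, 2 ≤ N → ∀ i, IsHaar ((Pm N).map (S N i))

variable {Ω Pm P S L}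

lemma er_tendsto (hd : Data Ω Pm P S) (τ : ℝ) (hL : Tendsto (fun N => (L N : ℝ) / N) atTop (𝓝 τ)) (Q : ℕ) :
    Tendsto (fun N => ∫ ω, er (P N) (S N) τ Q (L N) ω ∂(Pm N)) atTop (𝓝 0) := by
  obtain ⟨c, hc, h⟩ := main_bound.{u} Q
  have hb : Tendsto (fun N : ℕ => 2 * (c * (1 / (N : ℝ)) * ((L N : ℝ) / N) * Real.exp (c * ((L N : ℝ) / N))) +
      2 * ∑ p ∈ range (Q + 1), (mm p ((L N : ℝ) / N) - mm p τ) ^ 2) atTop (𝓝 0) := by
    have h1 : Tendsto (fun N : ℕ => 2 * (c * (1 / (N : ℝ)) * ((L N : ℝ) / N) * Real.exp (c * ((L N : ℝ) / N)))) atTop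
        (𝓝 (2 * (c * 0 * τ * Real.exp (c * τ)))) := by
      refine Tendsto.const_mul 2 ?_
      refine ((tendsto_one_div_atTop_nhds_zero_nat.const_mul c).mul hL).mul ?_
      exact (Real.continuous_exp.tendsto _).comp (hL.const_mul c)
    have h2 : Tendsto (fun N : ℕ => 2 * ∑ p ∈ range (Q + 1), (mm p ((L N : ℝ) / N) - mm p τ) ^ 2) atTop
        (𝓝 (2 * ∑ p ∈ range (Q + 1), (mm p τ - mm p τ) ^ 2)) := by
      refine Tendsto.const_mul 2 (tendsto_finset_sum _ fun p _ => ?_)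
      exact (((((mm_continuous p).tendsto τ).comp hL).sub_const _).pow 2)
    have h3 := h1.add h2
    simpa using h3
  refine tendsto_of_tendsto_of_tendsto_of_le_of_le' tendsto_const_nhds hb ?_ ?_
  · filter_upwards with N
    exact integral_nonneg fun ω => sum_nonneg fun _ _ => sq_nonneg _
  · filter_upwards [eventually_ge_atTop 2] with N hN
    haveI : NeZero N := ⟨by omega⟩
    haveI := hd.prob N hN
    obtain ⟨v, hv, hPv⟩ := hd.proj N hN
    have h4 := (er_int v hv (S N) (hd.meas N hN) (hd.haar N hN) τ Q (L N)).2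
    have h5 := h N (Ω N) (Pm N) v (S N) hv (hd.meas N hN) (hd.indep N hN) (hd.haar N hN) (L N)
    rw [hPv]
    refine h4.trans ?_
    have e1 : c * (1 / (N : ℝ)) ^ 2 * (L N) * Real.exp (c * (1 / N) * (L N)) =
        c * (1 / (N : ℝ)) * ((L N : ℝ) / N) * Real.exp (c * ((L N : ℝ) / N)) := by
      have : c * (1 / (N : ℝ)) * (L N) = c * ((L N : ℝ) / N) := by ring
      rw [this]; ring
    rw [e1] at h5
    linarith

/-- existence of `μ_τ` -/
lemma mu_exists (hd : Data Ω Pm P S) (τ : ℝ) (hL : Tendsto (fun N => (L N : ℝ) / N) atTop (𝓝 τ)) :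
    ∃ μ : Measure ℝ, IsMuTau τ μ := by
  apply exists_mu
  intro K δ hδ
  have h1 := er_tendsto hd τ hL K
  have h2 := (h1.eventually (gt_mem_nhds hδ)).and (eventually_ge_atTop 2)
  obtain ⟨N, hlt, hN⟩ := h2.exists
  haveI : NeZero N := ⟨by omega⟩
  haveI := hd.prob N hN
  obtain ⟨v, hv, hPv⟩ := hd.proj N hN
  have hi := (er_int v hv (S N) (hd.meas N hN) (hd.haar N hN) τ K (L N)).1
  rw [← hPv] at hi
  have hae := ae_unit (S N) (hd.meas N hN) (hd.haar N hN)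
  obtain ⟨ω, hω, hle⟩ := exists_notMem_null_le_integral hi hae
  have hω' : ∀ i, S N i ω ∈ unitaryGroup (Fin N) ℂ := by
    by_contra hcon
    exact hω hcon
  refine ⟨N, inferInstance, sqSing (Bs (P N) (fun i => S N i ω) (L N)), ?_, ?_⟩
  · intro k
    rw [hPv]
    exact sing_mem v hv _ hω' (L N) k
  · rw [← er_eq]
    exact hle.trans hlt.le

/-- convergence in probability -/
lemma conv (hd : Data Ω Pm P S) (τ : ℝ) (hL : Tendsto (fun N => (L N : ℝ) / N) atTop (𝓝 τ))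
    (μ : Measure ℝ) (hμ : IsMuTau τ μ) (f : ℝ → ℝ) (hf : ContinuousOn f (Set.Icc 0 1)) (ε : ℝ) (hε : 0 < ε) :
    Tendsto (fun N => Pm N {ω | ε < |(∑ k, f (sqSing (Bs (P N) (fun i => S N i ω) (L N)) k)) / N - ∫ x, f x ∂μ|})
      atTop (𝓝 0) := by
  obtain ⟨Q, δ, hδ, h⟩ := approx τ μ hμ f hf ε hε
  have h1 := er_tendsto hd τ hL Q
  have h2 : Tendsto (fun N => ENNReal.ofReal ((∫ ω, er (P N) (S N) τ Q (L N) ω ∂(Pm N)) / δ)) atTop (𝓝 0) := by
    have := ENNReal.tendsto_ofReal (h1.div_const δ)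
    simpa using this
  refine tendsto_of_tendsto_of_tendsto_of_le_of_le' tendsto_const_nhds h2 (Eventually.of_forall fun _ => by simp) ?_
  filter_upwards [eventually_ge_atTop 2] with N hN
  haveI : NeZero N := ⟨by omega⟩
  haveI := hd.prob N hN
  obtain ⟨v, hv, hPv⟩ := hd.proj N hN
  have hi := (er_int v hv (S N) (hd.meas N hN) (hd.haar N hN) τ Q (L N)).1
  rw [← hPv] at hi
  have hmk := mul_meas_ge_le_integral_of_nonneg
    (Eventually.of_forall fun ω => (sum_nonneg fun _ _ => sq_nonneg _ : 0 ≤ er (P N) (S N) τ Q (L N) ω)) hi δ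
  have h3 : Pm N {ω | ε < |(∑ k, f (sqSing (Bs (P N) (fun i => S N i ω) (L N)) k)) / N - ∫ x, f x ∂μ|} ≤
      Pm N {ω | δ ≤ er (P N) (S N) τ Q (L N) ω} := by
    apply measure_mono_ae
    filter_upwards [ae_unit (S N) (hd.meas N hN) (hd.haar N hN)] with ω hω hlt
    show δ ≤ er (P N) (S N) τ Q (L N) ω
    rw [er_eq]
    apply h N _ _ hlt
    intro k
    rw [hPv]
    exact sing_mem v hv _ hω (L N) k
  refine h3.trans ?_
  have h4 : (Pm N).real {ω | δ ≤ er (P N) (S N) τ Q (L N) ω} ≤ (∫ ω, er (P N) (S N) τ Q (L N) ω ∂(Pm N)) / δ := by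
    rw [le_div_iff₀ hδ, mul_comm]; exact hmk
  calc Pm N {ω | δ ≤ er (P N) (S N) τ Q (L N) ω} = ENNReal.ofReal ((Pm N).real {ω | δ ≤ er (P N) (S N) τ Q (L N) ω}) := by
        rw [measureReal_def, ENNReal.ofReal_toReal (measure_ne_top _ _)]
    _ ≤ _ := ENNReal.ofReal_le_ofReal h4

end Pool.Agent.V11276.HU
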