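import Pool.Agent.V11276.HU1

namespace Pool.Agent.V11276.HU

open Finset

/-- the moments `m_p(t)` for `p ≥ 1` -/
noncomputable def mom (p : ℕ) (t : ℝ) : ℝ :=
  Real.exp (-(p * t)) * ∑ k ∈ range p, (1 - (k : ℝ) / p) * (p * t) ^ k / (k.factorial : ℝ)

/-- the moments, with `m_0 = 1` -/
noncomputable def mm (p : ℕ) (t : ℝ) : ℝ := if p = 0 then 1 else mom p t

/-- the series `y(z)` -/
noncomputable def Y (t : ℝ) : PowerSeries ℝ :=
  PowerSeries.C t⁻¹ * PowerSeries.rescale (t * Real.exp (-t)) T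

lemma Y_zero (t : ℝ) : PowerSeries.constantCoeff (Y t) = 0 := by
  rw [Y, map_mul]
  have : PowerSeries.constantCoeff (PowerSeries.rescale (t * Real.exp (-t)) T) = 0 := by
    rw [← PowerSeries.coeff_zero_eq_constantCoeff_apply, PowerSeries.coeff_rescale, T,
      PowerSeries.coeff_zero_X_mul, mul_zero]
  rw [this, mul_zero]

lemma coeff_Y_pow (t : ℝ) (ht : 0 < t) (p i : ℕ) (hi : i < p) :
    PowerSeries.coeff p ((Y t) ^ (p - i)) =
      (1 - (i : ℝ) / p) * (p * t) ^ i / (i.factorial : ℝ) * Real.exp (-(p * t)) := by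
  have hpp : (0 : ℝ) < p := by exact_mod_cast (by omega : 0 < p)
  rw [Y, mul_pow, ← map_pow, ← map_pow, PowerSeries.coeff_C_mul, PowerSeries.coeff_rescale,
    coeff_T_pow (p - i) p (by omega), show p - (p - i) = i by omega, ab_formula (p - i) i (by omega),
    Nat.cast_sub hi.le]
  have e1 : (p : ℝ) - i + i = p := by ring
  rw [e1, mul_pow t]
  have e2 : Real.exp (-t) ^ p = Real.exp (-(p * t)) := by
    rw [← Real.exp_nat_mul]; congr 1; ring
  have e3 : t⁻¹ ^ (p - i) * t ^ p = t ^ i := by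
    obtain ⟨j, rfl⟩ : ∃ j, p = i + j := ⟨p - i, by omega⟩
    rw [show i + j - i = j by omega, pow_add, inv_pow]
    field_simp
  rw [e2, mul_pow]
  have e4 : (1 : ℝ) - i / p = (p - i) / p := by field_simp
  rw [e4]
  calc t⁻¹ ^ (p - i) * (t ^ p * Real.exp (-(p * t)) * (((p : ℝ) - i) / p * ((p : ℝ) ^ i / (i.factorial : ℝ))))
      = (t⁻¹ ^ (p - i) * t ^ p) * (Real.exp (-(p * t)) * (((p : ℝ) - i) / p * ((p : ℝ) ^ i / (i.factorial : ℝ)))) := by ring
    _ = _ := by rw [e3]; ring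

lemma coeff_Qs_eq (t : ℝ) (ht : 0 < t) (p : ℕ) : PowerSeries.coeff p (Qs (Y t)) = mm p t := by
  rw [Qs, PowerSeries.coeff_mk, mm]
  split_ifs with hp
  · subst hp; simp
  · rw [sum_range_succ', pow_zero, PowerSeries.coeff_one, if_neg hp, add_zero, mom, mul_sum,
      ← sum_range_reflect]
    apply sum_congr rfl
    intro i hi
    rw [mem_range] at hi
    rw [show p - 1 - i + 1 = p - i by omega, coeff_Y_pow t ht p i hi]
    ring

lemma coeff_d (t : ℝ) (ht : 0 < t) (q : ℕ) :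
    PowerSeries.coeff q ((1 - Y t) * PowerSeries.derivative ℝ (Qs (Y t))) =
      Real.exp (-(((q + 1 : ℕ) : ℝ) * t)) * ∑ k ∈ range (q + 1), (((q + 1 : ℕ) : ℝ) * t) ^ k / (k.factorial : ℝ) := by
  rw [coeff_deriv_Qs (Y t) (Y_zero t) q, mul_sum, ← sum_range_reflect]
  apply sum_congr rfl
  intro i hi
  rw [mem_range] at hi
  rw [show q + 1 - 1 - i + 1 = (q + 1) - i by omega, coeff_Y_pow t ht (q + 1) i hi]
  have h1 : ((q + 1 - 1 - i : ℕ) : ℝ) + 1 = (((q + 1 : ℕ) : ℝ)) - i := by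
    rw [show q + 1 - 1 - i = q - i by omega, Nat.cast_sub (by omega)]; push_cast; ring
  rw [h1]
  have h2 : (((q + 1 : ℕ) : ℝ)) - i ≠ 0 := by
    have : (i : ℝ) < ((q + 1 : ℕ) : ℝ) := by exact_mod_cast hi
    linarith
  have h3 : ((q : ℝ) + 1) = ((q + 1 : ℕ) : ℝ) := by push_cast; ring
  rw [h3]
  have h4 : (((q + 1 : ℕ) : ℝ)) ≠ 0 := by positivity
  have h5 : (1 : ℝ) - i / ((q + 1 : ℕ) : ℝ) = (((q + 1 : ℕ) : ℝ) - i) / ((q + 1 : ℕ) : ℝ) := by field_simp
  rw [h5]
  field_simp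

lemma hasDerivAt_mom (q : ℕ) (t : ℝ) : HasDerivAt (mom (q + 1))
    (-(Real.exp (-(((q + 1 : ℕ) : ℝ) * t)) * ∑ k ∈ range (q + 1), (((q + 1 : ℕ) : ℝ) * t) ^ k / (k.factorial : ℝ))) t := by
  obtain ⟨P, hP⟩ : ∃ P : ℝ, P = ((q + 1 : ℕ) : ℝ) := ⟨_, rfl⟩
  have hP0 : P ≠ 0 := by rw [hP]; positivity
  have hfun : mom (q + 1) = fun t => Real.exp (-(P * t)) *
      ∑ k ∈ range (q + 1), (1 - (k : ℝ) / P) * (P * t) ^ k / (k.factorial : ℝ) := by
    ext s; rw [mom, hP]
  rw [hfun, ← hP]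
  have h1 : HasDerivAt (fun t => Real.exp (-(P * t))) (Real.exp (-(P * t)) * (-P)) t := by
    have := ((hasDerivAt_id' t).const_mul P).neg.exp
    simpa using this
  have h2 : HasDerivAt (fun t : ℝ => ∑ k ∈ range (q + 1), (1 - (k : ℝ) / P) * (P * t) ^ k / (k.factorial : ℝ))
      (∑ k ∈ range (q + 1), (1 - (k : ℝ) / P) * (k * (P * t) ^ (k - 1) * P) / (k.factorial : ℝ)) t := by
    apply HasDerivAt.fun_sum
    intro k _
    have h3 : HasDerivAt (fun t : ℝ => (P * t) ^ k) (k * (P * t) ^ (k - 1) * P) t := by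
      have := ((hasDerivAt_id' t).const_mul P).fun_pow k
      simpa using this
    exact (h3.const_mul _).div_const _
  refine (h1.mul h2).congr_deriv ?_
  have h4 : ∑ k ∈ range (q + 1), (1 - (k : ℝ) / P) * (k * (P * t) ^ (k - 1) * P) / (k.factorial : ℝ) =
      ∑ k ∈ range q, (P - k - 1) * (P * t) ^ k / (k.factorial : ℝ) := by
    rw [sum_range_succ']
    simp only [Nat.cast_zero, zero_mul, mul_zero, zero_div, add_zero]
    apply sum_congr rfl
    intro k _
    rw [Nat.factorial_succ]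
    push_cast
    have h5 : (k.factorial : ℝ) ≠ 0 := by positivity
    have h6 : ((k : ℝ) + 1) ≠ 0 := by positivity
    try simp only [Nat.add_sub_cancel]
    field_simp
    ring
  have h7 : P * ∑ k ∈ range (q + 1), (1 - (k : ℝ) / P) * (P * t) ^ k / (k.factorial : ℝ) =
      ∑ k ∈ range q, (P - k) * (P * t) ^ k / (k.factorial : ℝ) + (P * t) ^ q / (q.factorial : ℝ) := by
    rw [mul_sum, sum_range_succ]
    congr 1
    · apply sum_congr rfl
      intro k _
      field_simp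
    · have : P - q = 1 := by rw [hP]; push_cast; ring
      have h8 : (1 - (q : ℝ) / P) = 1 / P := by
        rw [eq_div_iff hP0, sub_mul, div_mul_cancel₀ _ hP0, one_mul]; exact this
      rw [h8]; field_simp
  have h9 : ∑ k ∈ range q, (P - k - 1) * (P * t) ^ k / (k.factorial : ℝ) =
      ∑ k ∈ range q, (P - k) * (P * t) ^ k / (k.factorial : ℝ) - ∑ k ∈ range q, (P * t) ^ k / (k.factorial : ℝ) := by
    rw [← sum_sub_distrib]
    apply sum_congr rfl
    intro k _
    ring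
  rw [h4, h9, sum_range_succ (fun k => (P * t) ^ k / (k.factorial : ℝ))]
  linear_combination (-Real.exp (-(P * t))) * h7

lemma mom_zero (p : ℕ) (hp : 1 ≤ p) : mom p 0 = 1 := by
  obtain ⟨q, rfl⟩ : ∃ q, p = q + 1 := ⟨p - 1, by omega⟩
  rw [mom, sum_range_succ']
  simp

lemma mom_nonneg (p : ℕ) (t : ℝ) (ht : 0 ≤ t) : 0 ≤ mom p t := by
  rw [mom]
  apply mul_nonneg (Real.exp_pos _).le
  apply sum_nonneg
  intro k hk
  rw [mem_range] at hk
  have h1 : (k : ℝ) / p ≤ 1 := by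
    rw [div_le_one (by exact_mod_cast (by omega : 0 < p))]; exact_mod_cast hk.le
  have h2 : (0 : ℝ) ≤ 1 - (k : ℝ) / p := by linarith
  positivity

lemma mom_le_one (p : ℕ) (t : ℝ) (ht : 0 ≤ t) : mom p t ≤ 1 := by
  rw [mom, Real.exp_neg, inv_mul_le_iff₀ (Real.exp_pos _), mul_one]
  have h0 : (0 : ℝ) ≤ p * t := by positivity
  refine le_trans ?_ (Real.sum_le_exp_of_nonneg h0 p)
  apply sum_le_sum
  intro k _
  apply div_le_div_of_nonneg_right _ (by positivity)
  have h1 : (1 : ℝ) - (k : ℝ) / p ≤ 1 := by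
    have : (0 : ℝ) ≤ (k : ℝ) / p := by positivity
    linarith
  calc (1 - (k : ℝ) / p) * (p * t) ^ k ≤ 1 * (p * t) ^ k := mul_le_mul_of_nonneg_right h1 (by positivity)
    _ = _ := one_mul _

lemma mm_abs (p : ℕ) (t : ℝ) (ht : 0 ≤ t) : |mm p t| ≤ 1 := by
  rw [mm]
  split_ifs
  · simp
  · rw [abs_of_nonneg (mom_nonneg p t ht)]; exact mom_le_one p t ht

/-! ### The universal polynomials -/

/-- `g_l(x) = x_(l+1) - ∑_{i<l} g_i(x) x_(l-i)` -/
def gg {R : Type*} [CommRing R] (x : ℕ → R) (l : ℕ) : R :=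
  x (l + 1) - ∑ i : Fin l, gg x i * x (l - i)
termination_by l
decreasing_by exact i.2

lemma gg_eq {R : Type*} [CommRing R] (x : ℕ → R) (l : ℕ) :
    gg x l = x (l + 1) - ∑ i ∈ range l, gg x i * x (l - i) := by
  rw [gg, Finset.sum_range (fun i => gg x i * x (l - i))]

/-- `G_(q+1)(x)` -/
def GG {R : Type*} [CommRing R] (x : ℕ → R) (q : ℕ) : R :=
  -((q : R) + 1) * x (q + 1) + ∑ l ∈ range q, ((q : R) - l) * gg x l * x (q - l)

lemma gg_mm (t : ℝ) (ht : 0 < t) (l : ℕ) : gg (fun p => mm p t) l = PowerSeries.coeff (l + 1) (Y t) := by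
  induction l using Nat.strong_induction_on with
  | _ l ih =>
    have h1 := congrArg (PowerSeries.coeff (l + 1)) (one_sub_mul_Qs (Y t) (Y_zero t))
    rw [sub_mul, one_mul, map_sub, PowerSeries.coeff_one, if_neg (by omega), coeff_Qs_eq t ht,
      PowerSeries.coeff_mul, Finset.Nat.sum_antidiagonal_succ,
      PowerSeries.coeff_zero_eq_constantCoeff_apply, Y_zero, zero_mul, zero_add,
      Finset.Nat.sum_antidiagonal_eq_sum_range_succ_mk, sum_range_succ, Nat.sub_self] at h1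
    simp only [coeff_Qs_eq t ht] at h1
    have h2 : mm 0 t = 1 := by simp [mm]
    rw [h2, mul_one] at h1
    rw [gg_eq]
    have h3 : ∑ i ∈ range l, gg (fun p => mm p t) i * mm (l - i) t =
        ∑ i ∈ range l, PowerSeries.coeff (i + 1) (Y t) * mm (l - i) t := by
      apply sum_congr rfl
      intro i hi
      rw [mem_range] at hi
      rw [ih i hi]
    rw [h3]
    linarith

lemma GG_mm (t : ℝ) (ht : 0 < t) (q : ℕ) : GG (fun p => mm p t) q =
    -(Real.exp (-(((q + 1 : ℕ) : ℝ) * t)) * ∑ k ∈ range (q + 1), (((q + 1 : ℕ) : ℝ) * t) ^ k / (k.factorial : ℝ)) := by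
  rw [← coeff_d t ht q, sub_mul, one_mul, map_sub, PowerSeries.coeff_derivative, coeff_Qs_eq t ht]
  have h1 : PowerSeries.coeff q (Y t * PowerSeries.derivative ℝ (Qs (Y t))) =
      ∑ l ∈ range q, ((q : ℝ) - l) * gg (fun p => mm p t) l * mm (q - l) t := by
    cases q with
    | zero =>
      rw [PowerSeries.coeff_mul]
      simp [Y_zero]
    | succ q =>
      rw [PowerSeries.coeff_mul, Finset.Nat.sum_antidiagonal_succ,
        PowerSeries.coeff_zero_eq_constantCoeff_apply, Y_zero, zero_mul, zero_add,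
        Finset.Nat.sum_antidiagonal_eq_sum_range_succ_mk]
      apply sum_congr rfl
      intro l hl
      rw [mem_range] at hl
      rw [gg_mm t ht, PowerSeries.coeff_derivative, coeff_Qs_eq t ht, show q + 1 - l = q - l + 1 by omega]
      have : ((q - l : ℕ) : ℝ) = (q : ℝ) - l := by rw [Nat.cast_sub (by omega)]
      rw [this]
      push_cast
      ring
  rw [h1, GG]
  ring

lemma mm_hasDerivAt (t : ℝ) (ht : 0 < t) (q : ℕ) : HasDerivAt (mm (q + 1)) (GG (fun p => mm p t) q) t := by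
  have h1 : mm (q + 1) = mom (q + 1) := by ext s; rw [mm, if_neg (by omega)]
  rw [h1, GG_mm t ht q]
  exact hasDerivAt_mom q t

lemma mm_continuous (p : ℕ) : Continuous (mm p) := by
  cases p with
  | zero =>
    have : mm 0 = fun _ => 1 := by ext s; simp [mm]
    rw [this]; exact continuous_const
  | succ q =>
    have h1 : mm (q + 1) = mom (q + 1) := by ext s; rw [mm, if_neg (by omega)]
    rw [h1]
    exact continuous_iff_continuousAt.mpr fun t => (hasDerivAt_mom q t).continuousAt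

end Pool.Agent.V11276.HU
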