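import Pool.Agent.V11276.HU2

namespace Pool.Agent.V11276.HU

open Finset Matrix

/-! ### bounds for the universal polynomials -/

lemma gg_lip (L : ℕ) : ∃ C : ℝ, 0 ≤ C ∧ ∀ l < L, ∀ x y : ℕ → ℝ, (∀ j, |x j| ≤ 1) → (∀ j, |y j| ≤ 1) →
    |gg x l| ≤ C ∧ |gg x l - gg y l| ≤ C * ∑ j ∈ range (l + 2), |x j - y j| := by
  induction L with
  | zero => exact ⟨0, le_rfl, fun l hl => absurd hl (by omega)⟩
  | succ L ih =>
    obtain ⟨C, hC, h⟩ := ih
    refine ⟨C + 1 + 2 * L * C, by positivity, fun l hl x y hx hy => ?_⟩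
    have hL : (0 : ℝ) ≤ L := Nat.cast_nonneg L
    rcases Nat.lt_succ_iff_lt_or_eq.mp hl with hl' | rfl
    · obtain ⟨h1, h2⟩ := h l hl' x y hx hy
      have h3 : C ≤ C + 1 + 2 * L * C := by nlinarith [mul_nonneg hL hC]
      refine ⟨h1.trans h3, h2.trans (mul_le_mul_of_nonneg_right h3 (sum_nonneg fun _ _ => abs_nonneg _))⟩
    · obtain ⟨S, hS⟩ : ∃ S, S = ∑ j ∈ range (l + 2), |x j - y j| := ⟨_, rfl⟩
      have hS0 : 0 ≤ S := by rw [hS]; exact sum_nonneg fun _ _ => abs_nonneg _
      have hle : ∀ j, j < l + 2 → |x j - y j| ≤ S := fun j hj => by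
        rw [hS]
        exact single_le_sum (f := fun j => |x j - y j|) (fun _ _ => abs_nonneg _) (mem_range.mpr hj)
      have hsub : ∀ i, i < l → ∑ j ∈ range (i + 2), |x j - y j| ≤ S := fun i hi => by
        rw [hS]
        exact sum_le_sum_of_subset_of_nonneg (range_subset_range.mpr (by omega)) fun _ _ _ => abs_nonneg _
      rw [← hS]
      constructor
      · rw [gg_eq]
        have h1 : |∑ i ∈ range l, gg x i * x (l - i)| ≤ l * C := by
          calc |∑ i ∈ range l, gg x i * x (l - i)| ≤ ∑ i ∈ range l, |gg x i * x (l - i)| := abs_sum_le_sum_abs _ _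
            _ ≤ ∑ i ∈ range l, C := by
                apply sum_le_sum
                intro i hi
                rw [abs_mul]
                have := (h i (mem_range.mp hi) x y hx hy).1
                calc |gg x i| * |x (l - i)| ≤ C * 1 := mul_le_mul this (hx _) (abs_nonneg _) hC
                  _ = C := mul_one C
            _ = l * C := by rw [sum_const, card_range, nsmul_eq_mul]
        have h2 := abs_sub (x (l + 1)) (∑ i ∈ range l, gg x i * x (l - i))
        have h3 := hx (l + 1)
        nlinarith [mul_nonneg hL hC]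
      · rw [gg_eq x, gg_eq y]
        have e1 : x (l + 1) - ∑ i ∈ range l, gg x i * x (l - i) - (y (l + 1) - ∑ i ∈ range l, gg y i * y (l - i)) =
            (x (l + 1) - y (l + 1)) - ∑ i ∈ range l, ((gg x i - gg y i) * x (l - i) + gg y i * (x (l - i) - y (l - i))) := by
          rw [show ∑ i ∈ range l, ((gg x i - gg y i) * x (l - i) + gg y i * (x (l - i) - y (l - i))) =
            ∑ i ∈ range l, gg x i * x (l - i) - ∑ i ∈ range l, gg y i * y (l - i) by
              rw [← sum_sub_distrib]; apply sum_congr rfl; intro i _; ring]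
          ring
        rw [e1]
        have h1 : |∑ i ∈ range l, ((gg x i - gg y i) * x (l - i) + gg y i * (x (l - i) - y (l - i)))| ≤ l * (2 * C * S) := by
          calc _ ≤ ∑ i ∈ range l, |(gg x i - gg y i) * x (l - i) + gg y i * (x (l - i) - y (l - i))| := abs_sum_le_sum_abs _ _
            _ ≤ ∑ i ∈ range l, (2 * C * S) := by
                apply sum_le_sum
                intro i hi
                have hi := mem_range.mp hi
                have g1 := (h i hi x y hx hy).2
                have g2 := (h i hi y x hy hx).1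
                have g3 := abs_add_le ((gg x i - gg y i) * x (l - i)) (gg y i * (x (l - i) - y (l - i)))
                rw [abs_mul, abs_mul] at g3
                have g4 : |gg x i - gg y i| * |x (l - i)| ≤ (C * S) * 1 :=
                  mul_le_mul (g1.trans (mul_le_mul_of_nonneg_left (hsub i hi) hC)) (hx _) (abs_nonneg _) (by positivity)
                have g5 : |gg y i| * |x (l - i) - y (l - i)| ≤ C * S :=
                  mul_le_mul g2 (hle _ (by omega)) (abs_nonneg _) hC
                linarith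
            _ = l * (2 * C * S) := by rw [sum_const, card_range, nsmul_eq_mul]
        have h2 := abs_sub (x (l + 1) - y (l + 1)) (∑ i ∈ range l, ((gg x i - gg y i) * x (l - i) + gg y i * (x (l - i) - y (l - i))))
        have h3 := hle (l + 1) (by omega)
        nlinarith [mul_nonneg hC hS0]

lemma GG_lip (q : ℕ) : ∃ C : ℝ, 0 ≤ C ∧ ∀ x y : ℕ → ℝ, (∀ j, |x j| ≤ 1) → (∀ j, |y j| ≤ 1) →
    |GG x q| ≤ C ∧ |GG x q - GG y q| ≤ C * ∑ j ∈ range (q + 2), |x j - y j| := by
  obtain ⟨C, hC, h⟩ := gg_lip q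
  have hq : (0 : ℝ) ≤ q := Nat.cast_nonneg q
  refine ⟨(q + 1) + 2 * (q * (q * C)), by positivity, fun x y hx hy => ?_⟩
  obtain ⟨S, hS⟩ : ∃ S, S = ∑ j ∈ range (q + 2), |x j - y j| := ⟨_, rfl⟩
  have hS0 : 0 ≤ S := by rw [hS]; exact sum_nonneg fun _ _ => abs_nonneg _
  have hle : ∀ j, j < q + 2 → |x j - y j| ≤ S := fun j hj => by
    rw [hS]
    exact single_le_sum (f := fun j => |x j - y j|) (fun _ _ => abs_nonneg _) (mem_range.mpr hj)
  have hsub : ∀ i, i < q → ∑ j ∈ range (i + 2), |x j - y j| ≤ S := fun i hi => by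
    rw [hS]
    exact sum_le_sum_of_subset_of_nonneg (range_subset_range.mpr (by omega)) fun _ _ _ => abs_nonneg _
  have hcoef : ∀ l ∈ range q, |(q : ℝ) - l| ≤ q := by
    intro l hl
    have hl : (l : ℝ) < q := by exact_mod_cast mem_range.mp hl
    have hl0 : (0 : ℝ) ≤ l := Nat.cast_nonneg l
    rw [abs_le]; constructor <;> linarith
  rw [← hS]
  constructor
  · rw [GG]
    have h1 : |∑ l ∈ range q, ((q : ℝ) - l) * gg x l * x (q - l)| ≤ q * (q * C) := by
      calc _ ≤ ∑ l ∈ range q, |((q : ℝ) - l) * gg x l * x (q - l)| := abs_sum_le_sum_abs _ _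
        _ ≤ ∑ l ∈ range q, (q * C) := by
            apply sum_le_sum
            intro l hl
            rw [abs_mul, abs_mul]
            have g1 := (h l (mem_range.mp hl) x y hx hy).1
            have g2 : |(q : ℝ) - l| * |gg x l| ≤ q * C := mul_le_mul (hcoef l hl) g1 (abs_nonneg _) hq
            calc |(q : ℝ) - l| * |gg x l| * |x (q - l)| ≤ (q * C) * 1 :=
                  mul_le_mul g2 (hx _) (abs_nonneg _) (by positivity)
              _ = q * C := mul_one _
        _ = q * (q * C) := by rw [sum_const, card_range, nsmul_eq_mul]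
    have h2 := abs_add_le (-((q : ℝ) + 1) * x (q + 1)) (∑ l ∈ range q, ((q : ℝ) - l) * gg x l * x (q - l))
    have h3 : |-((q : ℝ) + 1) * x (q + 1)| ≤ q + 1 := by
      rw [abs_mul, abs_neg, abs_of_nonneg (by positivity : (0 : ℝ) ≤ (q : ℝ) + 1)]
      calc ((q : ℝ) + 1) * |x (q + 1)| ≤ (q + 1) * 1 := mul_le_mul_of_nonneg_left (hx _) (by positivity)
        _ = _ := mul_one _
    have h4 : 0 ≤ (q : ℝ) * (q * C) := by positivity
    linarith
  · rw [GG, GG]
    have e1 : -((q : ℝ) + 1) * x (q + 1) + ∑ l ∈ range q, ((q : ℝ) - l) * gg x l * x (q - l) -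
        (-((q : ℝ) + 1) * y (q + 1) + ∑ l ∈ range q, ((q : ℝ) - l) * gg y l * y (q - l)) =
        -((q : ℝ) + 1) * (x (q + 1) - y (q + 1)) +
        ∑ l ∈ range q, ((q : ℝ) - l) * ((gg x l - gg y l) * x (q - l) + gg y l * (x (q - l) - y (q - l))) := by
      rw [show ∑ l ∈ range q, ((q : ℝ) - l) * ((gg x l - gg y l) * x (q - l) + gg y l * (x (q - l) - y (q - l))) =
        ∑ l ∈ range q, ((q : ℝ) - l) * gg x l * x (q - l) - ∑ l ∈ range q, ((q : ℝ) - l) * gg y l * y (q - l) by
          rw [← sum_sub_distrib]; apply sum_congr rfl; intro i _; ring]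
      ring
    rw [e1]
    have h1 : |∑ l ∈ range q, ((q : ℝ) - l) * ((gg x l - gg y l) * x (q - l) + gg y l * (x (q - l) - y (q - l)))| ≤
        q * (q * (2 * C * S)) := by
      calc _ ≤ ∑ l ∈ range q, |((q : ℝ) - l) * ((gg x l - gg y l) * x (q - l) + gg y l * (x (q - l) - y (q - l)))| :=
            abs_sum_le_sum_abs _ _
        _ ≤ ∑ l ∈ range q, (q * (2 * C * S)) := by
            apply sum_le_sum
            intro l hl
            have hl' := mem_range.mp hl
            rw [abs_mul]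
            have g1 := (h l hl' x y hx hy).2
            have g2 := (h l hl' y x hy hx).1
            have g3 := abs_add_le ((gg x l - gg y l) * x (q - l)) (gg y l * (x (q - l) - y (q - l)))
            rw [abs_mul, abs_mul] at g3
            have g4 : |gg x l - gg y l| * |x (q - l)| ≤ (C * S) * 1 :=
              mul_le_mul (g1.trans (mul_le_mul_of_nonneg_left (hsub l hl') hC)) (hx _) (abs_nonneg _) (by positivity)
            have g5 : |gg y l| * |x (q - l) - y (q - l)| ≤ C * S :=
              mul_le_mul g2 (hle _ (by omega)) (abs_nonneg _) hC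
            exact mul_le_mul (hcoef l hl) (by linarith) (abs_nonneg _) hq
        _ = q * (q * (2 * C * S)) := by rw [sum_const, card_range, nsmul_eq_mul]
    have h2 := abs_add_le (-((q : ℝ) + 1) * (x (q + 1) - y (q + 1)))
      (∑ l ∈ range q, ((q : ℝ) - l) * ((gg x l - gg y l) * x (q - l) + gg y l * (x (q - l) - y (q - l))))
    have h3 : |-((q : ℝ) + 1) * (x (q + 1) - y (q + 1))| ≤ (q + 1) * S := by
      rw [abs_mul, abs_neg, abs_of_nonneg (by positivity : (0 : ℝ) ≤ (q : ℝ) + 1)]
      exact mul_le_mul_of_nonneg_left (hle _ (by omega)) (by positivity)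
    have h4 : ((q : ℝ) + 1 + 2 * (q * (q * C))) * S = (q + 1) * S + q * (q * (2 * C * S)) := by ring
    linarith

lemma gg_map {R S' : Type*} [CommRing R] [CommRing S'] (f : R →+* S') (x : ℕ → R) (l : ℕ) :
    gg (fun j => f (x j)) l = f (gg x l) := by
  induction l using Nat.strong_induction_on with
  | _ l ih =>
    rw [gg_eq, gg_eq, map_sub, map_sum]
    congr 1
    apply sum_congr rfl
    intro i hi
    rw [ih i (mem_range.mp hi), map_mul]

lemma GG_map {R S' : Type*} [CommRing R] [CommRing S'] (f : R →+* S') (x : ℕ → R) (q : ℕ) :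
    GG (fun j => f (x j)) q = f (GG x q) := by
  rw [GG, GG, map_add, map_mul, map_neg, map_add, map_one, map_natCast, map_sum]
  congr 1
  apply sum_congr rfl
  intro i _
  rw [gg_map, map_mul, map_mul, map_sub, map_natCast, map_natCast]

/-! ### The trace recursion -/

section alg
variable {n : Type*} [Fintype n] [DecidableEq n]

/-- the quadratic form `v* A v` -/
def phi (v : n → ℂ) (A : Matrix n n ℂ) : ℂ := star v ⬝ᵥ (A *ᵥ v)

/-- the rank one matrix `v v*` -/
def rk (v : n → ℂ) : Matrix n n ℂ := vecMulVec v (star v)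

lemma phi_add (v : n → ℂ) (A B : Matrix n n ℂ) : phi v (A + B) = phi v A + phi v B := by
  unfold phi; rw [add_mulVec, dotProduct_add]

lemma phi_sub (v : n → ℂ) (A B : Matrix n n ℂ) : phi v (A - B) = phi v A - phi v B := by
  unfold phi; rw [sub_mulVec, dotProduct_sub]

lemma phi_mul (v : n → ℂ) (A B : Matrix n n ℂ) : phi v (A * rk v * B) = phi v A * phi v B := by
  unfold phi rk
  rw [← mulVec_mulVec, ← mulVec_mulVec, vecMulVec_mulVec, mulVec_smul, dotProduct_smul]
  simp [mul_comm]

lemma phi_one (v : n → ℂ) : phi v 1 = star v ⬝ᵥ v := by unfold phi; rw [one_mulVec]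

lemma trace_rk (v : n → ℂ) (A : Matrix n n ℂ) : trace (A * rk v) = phi v A := by
  unfold phi rk
  rw [mul_vecMulVec, trace_vecMulVec, dotProduct_comm]

lemma rk_mul_rk (v : n → ℂ) (hv : star v ⬝ᵥ v = 1) : rk v * rk v = rk v := by
  unfold rk
  rw [vecMulVec_mul_vecMulVec, hv, one_smul]

lemma cform (v : n → ℂ) (W : Matrix n n ℂ) (r : ℕ) : ∀ s : ℕ, phi v ((W * (1 - rk v)) ^ r * W ^ s) =
    phi v (W ^ (s + r)) - ∑ i ∈ range r, phi v ((W * (1 - rk v)) ^ i * W ^ 1) * phi v (W ^ (s + (r - 1 - i))) := by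
  induction r with
  | zero => intro s; simp
  | succ r ih =>
    intro s
    have h1 : (W * (1 - rk v)) ^ (r + 1) * W ^ s = (W * (1 - rk v)) ^ r * W ^ (s + 1) -
        ((W * (1 - rk v)) ^ r * W ^ 1) * rk v * W ^ s := by
      rw [pow_succ, pow_succ' W s, pow_one]
      noncomm_ring
    rw [h1, phi_sub, phi_mul, ih (s + 1), sum_range_succ]
    have h2 : s + (r + 1 - 1 - r) = s := by omega
    have h3 : s + 1 + r = s + (r + 1) := by ring
    rw [h2, h3]
    have h4 : ∑ i ∈ range r, phi v ((W * (1 - rk v)) ^ i * W ^ 1) * phi v (W ^ (s + 1 + (r - 1 - i))) =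
        ∑ i ∈ range r, phi v ((W * (1 - rk v)) ^ i * W ^ 1) * phi v (W ^ (s + (r + 1 - 1 - i))) := by
      apply sum_congr rfl
      intro i hi
      rw [mem_range] at hi
      rw [show s + 1 + (r - 1 - i) = s + (r + 1 - 1 - i) by omega]
    rw [h4]
    ring

lemma gg_phi (v : n → ℂ) (W : Matrix n n ℂ) (l : ℕ) :
    gg (fun j => phi v (W ^ j)) l = phi v ((W * (1 - rk v)) ^ l * W ^ 1) := by
  induction l using Nat.strong_induction_on with
  | _ l ih =>
    rw [gg_eq, cform, add_comm 1 l]
    congr 1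
    apply sum_congr rfl
    intro i hi
    rw [mem_range] at hi
    rw [ih i hi, show 1 + (l - 1 - i) = l - i by omega]

lemma Z_pow (v : n → ℂ) (W : Matrix n n ℂ) (p : ℕ) : (W * (1 - rk v)) ^ p = W ^ p -
    ∑ i ∈ range p, W ^ (i + 1) * rk v * (W * (1 - rk v)) ^ (p - 1 - i) := by
  induction p with
  | zero => simp
  | succ p ih =>
    have h1 : (W * (1 - rk v)) ^ (p + 1) = W * (W * (1 - rk v)) ^ p - W * rk v * (W * (1 - rk v)) ^ p := by
      rw [pow_succ']; noncomm_ring
    rw [h1]
    nth_rewrite 1 [ih]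
    rw [sum_range_succ', mul_sub, mul_sum, ← pow_succ']
    have h2 : ∑ i ∈ range p, W * (W ^ (i + 1) * rk v * (W * (1 - rk v)) ^ (p - 1 - i)) =
        ∑ i ∈ range p, W ^ (i + 1 + 1) * rk v * (W * (1 - rk v)) ^ (p + 1 - 1 - (i + 1)) := by
      apply sum_congr rfl
      intro i _
      rw [pow_succ' W (i + 1), show p + 1 - 1 - (i + 1) = p - 1 - i by omega]
      noncomm_ring
    rw [h2]
    have h3 : W ^ (0 + 1) * rk v * (W * (1 - rk v)) ^ (p + 1 - 1 - 0) = W * rk v * (W * (1 - rk v)) ^ p := by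
      rw [zero_add, pow_one, Nat.sub_zero, Nat.add_sub_cancel]
    rw [h3, sub_sub]

lemma swap_sum (f : ℕ → ℂ) (m : ℕ) : ∑ i ∈ range (m + 1), ∑ l ∈ range i, f l = ∑ l ∈ range m, ((m : ℂ) - l) * f l := by
  induction m with
  | zero => simp
  | succ m ih =>
    rw [sum_range_succ, ih, sum_range_succ (fun l => (((m + 1 : ℕ) : ℂ) - l) * f l), sum_range_succ f, ← add_assoc,
      ← sum_add_distrib]
    congr 1
    · apply sum_congr rfl
      intro l _
      push_cast; ring
    · push_cast; ring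

lemma trace_Z (v : n → ℂ) (W : Matrix n n ℂ) (q : ℕ) : trace ((W * (1 - rk v)) ^ (q + 1)) =
    trace (W ^ (q + 1)) + GG (fun j => phi v (W ^ j)) q := by
  rw [Z_pow, trace_sub, trace_sum]
  have h1 : ∀ i ∈ range (q + 1), trace (W ^ (i + 1) * rk v * (W * (1 - rk v)) ^ (q + 1 - 1 - i)) =
      phi v (W ^ (q + 1)) - ∑ l ∈ range (q - i), gg (fun j => phi v (W ^ j)) l * phi v (W ^ (q - l)) := by
    intro i hi
    rw [mem_range] at hi
    rw [trace_mul_comm, ← mul_assoc, trace_rk, cform, show q + 1 - 1 - i = q - i by omega,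
      show i + 1 + (q - i) = q + 1 by omega]
    congr 1
    apply sum_congr rfl
    intro l hl
    rw [mem_range] at hl
    rw [gg_phi, show i + 1 + (q - i - 1 - l) = q - l by omega]
  rw [sum_congr rfl h1, sum_sub_distrib, sum_const, card_range, nsmul_eq_mul]
  have h2 : ∑ i ∈ range (q + 1), ∑ l ∈ range (q - i), gg (fun j => phi v (W ^ j)) l * phi v (W ^ (q - l)) =
      ∑ l ∈ range q, ((q : ℂ) - l) * (gg (fun j => phi v (W ^ j)) l * phi v (W ^ (q - l))) := by
    rw [← swap_sum, ← sum_range_reflect]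
    apply sum_congr rfl
    intro i hi
    rw [mem_range] at hi
    rw [show q - (q + 1 - 1 - i) = i by omega]
  rw [h2, GG]
  have h3 : ∑ l ∈ range q, ((q : ℂ) - l) * (gg (fun j => phi v (W ^ j)) l * phi v (W ^ (q - l))) =
      ∑ l ∈ range q, ((q : ℂ) - l) * gg (fun j => phi v (W ^ j)) l * phi v (W ^ (q - l)) := by
    apply sum_congr rfl; intro l _; ring
  rw [h3]
  push_cast
  ring

lemma trace_PWP (v : n → ℂ) (hv : star v ⬝ᵥ v = 1) (W : Matrix n n ℂ) (q : ℕ) :
    trace (((1 - rk v) * W * (1 - rk v)) ^ (q + 1)) = trace (W ^ (q + 1)) + GG (fun j => phi v (W ^ j)) q := by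
  rw [← trace_Z]
  have hP : (1 - rk v) * (1 - rk v) = 1 - rk v := by
    have := rk_mul_rk v hv
    rw [mul_sub, sub_mul, sub_mul, one_mul, mul_one, this]; simp
  obtain ⟨P, hPd⟩ : ∃ P, P = 1 - rk v := ⟨_, rfl⟩
  rw [← hPd] at hP ⊢
  have h1 : ∀ m : ℕ, (P * W * P) ^ (m + 1) = P * (W * P) ^ (m + 1) := by
    intro m
    induction m with
    | zero => rw [zero_add, pow_one, pow_one, mul_assoc]
    | succ m ih =>
      rw [pow_succ, ih, pow_succ (W * P) (m + 1), pow_succ (W * P) m]
      calc P * ((W * P) ^ m * (W * P)) * (P * W * P) = P * ((W * P) ^ m * W * (P * P) * W * P) := by noncomm_ring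
        _ = P * ((W * P) ^ m * (W * P) * (W * P)) := by rw [hP]; noncomm_ring
  rw [h1, trace_mul_comm, pow_succ, mul_assoc, mul_assoc, hP]

end alg

end Pool.Agent.V11276.HU
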