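import Pool.Agent.V11276.HU3

namespace Pool.Agent.V11276.HU

open Finset Matrix
open scoped Matrix.Norms.L2Operator

section norms
variable {n : Type*} [Fintype n] [DecidableEq n]

lemma norm_le_one_of_proj (A : Matrix n n ℂ) (h : Aᴴ * A = A) : ‖A‖ ≤ 1 := by
  have h1 := l2_opNorm_conjTranspose_mul_self A
  rw [h] at h1
  have h2 := norm_nonneg A
  by_contra hc
  have hc := not_le.mp hc
  nlinarith

lemma norm_one_le : ‖(1 : Matrix n n ℂ)‖ ≤ 1 := norm_le_one_of_proj 1 (by simp)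

lemma norm_unitary_le (U : Matrix n n ℂ) (h : U ∈ unitaryGroup n ℂ) : ‖U‖ ≤ 1 := by
  have h1 := l2_opNorm_conjTranspose_mul_self U
  have h2 : Uᴴ * U = 1 := mem_unitaryGroup_iff'.mp h
  rw [h2] at h1
  have h3 := norm_nonneg U
  have h4 := norm_one_le (n := n)
  by_contra hc
  have hc := not_le.mp hc
  nlinarith

lemma norm_pow_le' (A : Matrix n n ℂ) (hA : ‖A‖ ≤ 1) (j : ℕ) : ‖A ^ j‖ ≤ 1 := by
  induction j with
  | zero => rw [pow_zero]; exact norm_one_le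
  | succ j ih =>
    rw [pow_succ]
    calc ‖A ^ j * A‖ ≤ ‖A ^ j‖ * ‖A‖ := l2_opNorm_mul _ _
      _ ≤ 1 * 1 := mul_le_mul ih hA (norm_nonneg _) zero_le_one
      _ = 1 := one_mul 1

lemma phi_bound (v : n → ℂ) (hv : star v ⬝ᵥ v = 1) (A : Matrix n n ℂ) : ‖phi v A‖ ≤ ‖A‖ := by
  obtain ⟨x, hx⟩ : ∃ x : EuclideanSpace ℂ n, x = WithLp.toLp 2 v := ⟨_, rfl⟩
  have hx' : (x : n → ℂ) = v := by rw [hx]
  have h1 := l2_opNorm_mulVec A x
  have h2 : ‖x‖ = 1 := by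
    have h3 : inner ℂ x x = 1 := by
      rw [EuclideanSpace.inner_eq_star_dotProduct, dotProduct_comm, hx', hv]
    have h4 := inner_self_eq_norm_sq_to_K (𝕜 := ℂ) x
    rw [h3] at h4
    have h5 : (1 : ℂ) = ((‖x‖ ^ 2 : ℝ) : ℂ) := by rw [h4]; simp
    have h6 : (1 : ℝ) = ‖x‖ ^ 2 := by exact_mod_cast h5
    have h7 := norm_nonneg x
    nlinarith
  have h8 : phi v A = inner ℂ x ((EuclideanSpace.equiv n ℂ).symm (A *ᵥ x)) := by
    rw [EuclideanSpace.inner_eq_star_dotProduct, dotProduct_comm, phi, hx']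
    rfl
  rw [h8]
  have h9 := norm_inner_le_norm (𝕜 := ℂ) x ((EuclideanSpace.equiv n ℂ).symm (A *ᵥ x))
  rw [h2, mul_one] at h1
  rw [h2, one_mul] at h9
  exact h9.trans h1

lemma entry_eq_phi (A : Matrix n n ℂ) (i : n) : A i i = phi (Pi.single i 1) A := by
  unfold phi
  rw [← Pi.single_star, star_one, single_one_dotProduct, mulVec_single_one]
  rfl

lemma single_unit (i : n) : star (Pi.single i (1 : ℂ) : n → ℂ) ⬝ᵥ (Pi.single i 1 : n → ℂ) = 1 := by
  rw [← Pi.single_star, star_one, single_one_dotProduct]; simp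

lemma trace_bound (A : Matrix n n ℂ) : ‖trace A‖ ≤ Fintype.card n * ‖A‖ := by
  unfold trace
  calc ‖∑ i, diag A i‖ ≤ ∑ i : n, ‖diag A i‖ := norm_sum_le _ _
    _ ≤ ∑ i : n, ‖A‖ := by
        apply sum_le_sum
        intro i _
        have h := entry_eq_phi A i
        calc ‖diag A i‖ = ‖phi (Pi.single i 1) A‖ := by rw [← h]; rfl
          _ ≤ ‖A‖ := phi_bound _ (single_unit i) A
    _ = _ := by rw [sum_const, card_univ, nsmul_eq_mul]

lemma phi_real (v : n → ℂ) (A : Matrix n n ℂ) (hA : A.IsHermitian) : phi v A = ((phi v A).re : ℂ) := by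
  apply Complex.ext
  · rfl
  · rw [Complex.ofReal_im]; exact hA.im_star_dotProduct_mulVec_self v

lemma isHermitian_pow (A : Matrix n n ℂ) (hA : A.IsHermitian) (j : ℕ) : (A ^ j).IsHermitian := by
  unfold IsHermitian
  rw [conjTranspose_pow, hA.eq]

lemma rk_herm (v : n → ℂ) : (rk v)ᴴ = rk v := by
  unfold rk
  rw [conjTranspose_vecMulVec, star_star]

lemma P_herm (v : n → ℂ) : (1 - rk v)ᴴ = 1 - rk v := by
  rw [conjTranspose_sub, conjTranspose_one, rk_herm]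

lemma P_sq (v : n → ℂ) (hv : star v ⬝ᵥ v = 1) : (1 - rk v) * (1 - rk v) = 1 - rk v := by
  have := rk_mul_rk v hv
  rw [mul_sub, sub_mul, sub_mul, one_mul, mul_one, this]; simp

lemma P_norm (v : n → ℂ) (hv : star v ⬝ᵥ v = 1) : ‖(1 - rk v : Matrix n n ℂ)‖ ≤ 1 :=
  norm_le_one_of_proj _ (by rw [P_herm, P_sq v hv])

/-- Hermitian contractions -/
def K (M : Matrix n n ℂ) : Prop := M.IsHermitian ∧ ‖M‖ ≤ 1

lemma K_one : K (1 : Matrix n n ℂ) := ⟨isHermitian_one, norm_one_le⟩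

lemma conj_pow (S M : Matrix n n ℂ) (hS : S ∈ unitaryGroup n ℂ) (j : ℕ) :
    (S * M * Sᴴ) ^ j = S * M ^ j * Sᴴ := by
  have h2 : Sᴴ * S = 1 := mem_unitaryGroup_iff'.mp hS
  have h3 : S * Sᴴ = 1 := mem_unitaryGroup_iff.mp hS
  induction j with
  | zero => rw [pow_zero, pow_zero, mul_one, h3]
  | succ j ih =>
    rw [pow_succ, ih, pow_succ]
    calc S * M ^ j * Sᴴ * (S * M * Sᴴ) = S * M ^ j * (Sᴴ * S) * M * Sᴴ := by noncomm_ring
      _ = S * (M ^ j * M) * Sᴴ := by rw [h2]; noncomm_ring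

lemma conj_K (S M : Matrix n n ℂ) (hS : S ∈ unitaryGroup n ℂ) (hM : K M) : K (S * M * Sᴴ) := by
  constructor
  · unfold IsHermitian
    rw [conjTranspose_mul, conjTranspose_mul, conjTranspose_conjTranspose, hM.1.eq, mul_assoc]
  · have h1 := norm_unitary_le S hS
    calc ‖S * M * Sᴴ‖ ≤ ‖S * M‖ * ‖Sᴴ‖ := l2_opNorm_mul _ _
      _ ≤ (‖S‖ * ‖M‖) * ‖Sᴴ‖ := mul_le_mul_of_nonneg_right (l2_opNorm_mul _ _) (norm_nonneg _)
      _ ≤ (1 * 1) * 1 := by
          rw [l2_opNorm_conjTranspose]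
          exact mul_le_mul (mul_le_mul h1 hM.2 (norm_nonneg _) zero_le_one) h1 (norm_nonneg _) (by norm_num)
      _ = 1 := by norm_num

lemma K_step (v : n → ℂ) (hv : star v ⬝ᵥ v = 1) (W : Matrix n n ℂ) (hW : K W) :
    K ((1 - rk v) * W * (1 - rk v)) := by
  constructor
  · unfold IsHermitian
    rw [conjTranspose_mul, conjTranspose_mul, P_herm, hW.1.eq, mul_assoc]
  · have h1 := P_norm v hv
    calc ‖(1 - rk v) * W * (1 - rk v)‖ ≤ ‖(1 - rk v) * W‖ * ‖(1 - rk v : Matrix n n ℂ)‖ := l2_opNorm_mul _ _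
      _ ≤ (‖(1 - rk v : Matrix n n ℂ)‖ * ‖W‖) * ‖(1 - rk v : Matrix n n ℂ)‖ :=
          mul_le_mul_of_nonneg_right (l2_opNorm_mul _ _) (norm_nonneg _)
      _ ≤ (1 * 1) * 1 := mul_le_mul (mul_le_mul h1 hW.2 (norm_nonneg _) zero_le_one) h1 (norm_nonneg _) (by norm_num)
      _ = 1 := by norm_num

/-- normalised trace moment -/
noncomputable def D (p : ℕ) (M : Matrix n n ℂ) : ℝ := (trace (M ^ p)).re / Fintype.card n

/-- the quadratic forms `v* (S M S*)^j v` -/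
noncomputable def Xq (v : n → ℂ) (M S : Matrix n n ℂ) (j : ℕ) : ℝ := (phi v (S * M ^ j * Sᴴ)).re

lemma Xq_bound (v : n → ℂ) (hv : star v ⬝ᵥ v = 1) (M S : Matrix n n ℂ) (hM : K M) (hS : S ∈ unitaryGroup n ℂ)
    (j : ℕ) : |Xq v M S j| ≤ 1 := by
  unfold Xq
  rw [← conj_pow S M hS]
  refine (Complex.abs_re_le_norm _).trans ?_
  exact (phi_bound v hv _).trans (norm_pow_le' _ (conj_K S M hS hM).2 j)

lemma D_bound [Nonempty n] (M : Matrix n n ℂ) (hM : K M) (p : ℕ) : |D p M| ≤ 1 := by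
  unfold D
  have hc : (0 : ℝ) < Fintype.card n := by exact_mod_cast Fintype.card_pos
  rw [abs_div, abs_of_pos hc, div_le_one hc]
  refine (Complex.abs_re_le_norm _).trans ((trace_bound _).trans ?_)
  calc (Fintype.card n : ℝ) * ‖M ^ p‖ ≤ Fintype.card n * 1 :=
        mul_le_mul_of_nonneg_left (norm_pow_le' M hM.2 p) hc.le
    _ = _ := mul_one _

lemma D_zero [Nonempty n] (M : Matrix n n ℂ) : D 0 M = 1 := by
  unfold D
  have hc : (Fintype.card n : ℝ) ≠ 0 := by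
    have : (0 : ℝ) < Fintype.card n := by exact_mod_cast Fintype.card_pos
    exact this.ne'
  rw [pow_zero, trace_one, Complex.natCast_re, div_self hc]

lemma Xq_zero (v : n → ℂ) (hv : star v ⬝ᵥ v = 1) (M S : Matrix n n ℂ) (hS : S ∈ unitaryGroup n ℂ) :
    Xq v M S 0 = 1 := by
  unfold Xq
  have h3 : S * Sᴴ = 1 := mem_unitaryGroup_iff.mp hS
  rw [pow_zero, mul_one, h3, phi_one, hv, Complex.one_re]

lemma D_step [Nonempty n] (v : n → ℂ) (hv : star v ⬝ᵥ v = 1) (M S : Matrix n n ℂ) (hM : K M)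
    (hS : S ∈ unitaryGroup n ℂ) (q : ℕ) :
    D (q + 1) ((1 - rk v) * (S * M * Sᴴ) * (1 - rk v)) = D (q + 1) M + GG (Xq v M S) q / Fintype.card n := by
  have h1 := trace_PWP v hv (S * M * Sᴴ) q
  have hW := conj_K S M hS hM
  have h2 : (fun j => phi v ((S * M * Sᴴ) ^ j)) = fun j => Complex.ofRealHom (Xq v M S j) := by
    ext j
    rw [phi_real v _ (isHermitian_pow _ hW.1 j), conj_pow S M hS]
    rfl
  have h3 : trace ((S * M * Sᴴ) ^ (q + 1)) = trace (M ^ (q + 1)) := by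
    rw [conj_pow S M hS, trace_mul_comm, ← mul_assoc]
    have h4 : Sᴴ * S = 1 := mem_unitaryGroup_iff'.mp hS
    rw [h4, one_mul]
  rw [h2, GG_map, h3] at h1
  unfold D
  rw [h1, Complex.add_re, add_div]
  rfl

end norms

end Pool.Agent.V11276.HU
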