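import Pool.Agent.V11276.HU4

namespace Pool.Agent.V11276.HU

open Finset Matrix MeasureTheory

noncomputable instance matMeas (N : ℕ) : MeasurableSpace (Matrix (Fin N) (Fin N) ℂ) :=
  inferInstanceAs (MeasurableSpace (Fin N → Fin N → ℂ))

instance matBorel (N : ℕ) : BorelSpace (Matrix (Fin N) (Fin N) ℂ) :=
  inferInstanceAs (BorelSpace (Fin N → Fin N → ℂ))

instance matSC (N : ℕ) : SecondCountableTopology (Matrix (Fin N) (Fin N) ℂ) :=
  inferInstanceAs (SecondCountableTopology (Fin N → Fin N → ℂ))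

/-- `μ` is the Haar probability measure of the unitary group -/
structure IsHaar {N : ℕ} (μ : Measure (Matrix (Fin N) (Fin N) ℂ)) : Prop where
  prob : IsProbabilityMeasure μ
  unit : ∀ᵐ S ∂μ, S ∈ unitaryGroup (Fin N) ℂ
  inv : ∀ U ∈ unitaryGroup (Fin N) ℂ, μ.map (fun S => U * S) = μ

variable {N : ℕ}

lemma exists_V (v : Fin N → ℂ) (hv : star v ⬝ᵥ v = 1) (i0 : Fin N) :
    ∃ V ∈ unitaryGroup (Fin N) ℂ, V *ᵥ Pi.single i0 1 = v := by
  obtain ⟨x, hx⟩ : ∃ x : EuclideanSpace ℂ (Fin N), x = WithLp.toLp 2 v := ⟨_, rfl⟩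
  have hx' : (x : Fin N → ℂ) = v := by rw [hx]
  have h2 : ‖x‖ = 1 := by
    have h3 : inner ℂ x x = 1 := by
      rw [EuclideanSpace.inner_eq_star_dotProduct, dotProduct_comm, hx', hv]
    have h4 := inner_self_eq_norm_sq_to_K (𝕜 := ℂ) x
    rw [h3] at h4
    have h5 : (1 : ℂ) = ((‖x‖ ^ 2 : ℝ) : ℂ) := by rw [h4]; simp
    have h6 : (1 : ℝ) = ‖x‖ ^ 2 := by exact_mod_cast h5
    have h7 := norm_nonneg x
    nlinarith
  have hon : Orthonormal ℂ (({i0} : Set (Fin N)).restrict (fun _ : Fin N => x)) := by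
    constructor
    · intro i; exact h2
    · intro i j hij
      exact absurd (Subsingleton.elim i j) hij
  obtain ⟨b, hb⟩ := hon.exists_orthonormalBasis_extension_of_card_eq (by simp)
  have hb0 : b i0 = x := hb i0 (Set.mem_singleton i0)
  refine ⟨Matrix.of (fun i j => b j i), ?_, ?_⟩
  · rw [mem_unitaryGroup_iff', star_eq_conjTranspose]
    ext j k
    rw [mul_apply]
    have h3 : inner ℂ (b j) (b k) = if j = k then (1 : ℂ) else 0 := orthonormal_iff_ite.mp b.orthonormal j k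
    rw [EuclideanSpace.inner_eq_star_dotProduct] at h3
    rw [one_apply, ← h3, dotProduct]
    apply sum_congr rfl
    intro i _
    simp [conjTranspose_apply, mul_comm]
  · rw [mulVec_single_one]
    ext i
    show (b i0) i = v i
    rw [hb0, hx']

lemma phi_conj (V W : Matrix (Fin N) (Fin N) ℂ) (e : Fin N → ℂ) :
    phi (V *ᵥ e) W = phi e (Vᴴ * W * V) := by
  unfold phi
  rw [star_mulVec, ← dotProduct_mulVec, mulVec_mulVec, mulVec_mulVec, mul_assoc]

lemma continuous_W (A : Matrix (Fin N) (Fin N) ℂ) : Continuous fun S : Matrix (Fin N) (Fin N) ℂ => S * A * Sᴴ :=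
  (continuous_id.matrix_mul continuous_const).matrix_mul continuous_id.matrix_conjTranspose

lemma continuous_phi (v : Fin N → ℂ) : Continuous fun W : Matrix (Fin N) (Fin N) ℂ => (phi v W).re :=
  Complex.continuous_re.comp (continuous_const.dotProduct (continuous_id.matrix_mulVec continuous_const))

lemma bound_of_entries (f : Matrix (Fin N) (Fin N) ℂ → ℝ) (hf : Continuous f) :
    ∃ C : ℝ, ∀ S : Matrix (Fin N) (Fin N) ℂ, (∀ i j, ‖S i j‖ ≤ 1) → ‖f S‖ ≤ C := by
  have hc : IsCompact (Set.pi Set.univ (fun _ : Fin N => Set.pi Set.univ (fun _ : Fin N => Metric.closedBall (0 : ℂ) 1))) :=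
    isCompact_univ_pi fun _ => isCompact_univ_pi fun _ => isCompact_closedBall 0 1
  obtain ⟨C, hC⟩ := hc.exists_bound_of_continuousOn (f := f) hf.continuousOn
  refine ⟨C, fun S hS => hC S ?_⟩
  rw [Set.mem_univ_pi]
  intro i
  rw [Set.mem_univ_pi]
  intro j
  rw [mem_closedBall_zero_iff]
  exact hS i j

lemma intg {μ : Measure (Matrix (Fin N) (Fin N) ℂ)} (hμ : IsHaar μ) (f : Matrix (Fin N) (Fin N) ℂ → ℝ)
    (hf : Continuous f) : Integrable f μ := by
  haveI := hμ.prob
  obtain ⟨C, hC⟩ := bound_of_entries f hf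
  refine Integrable.of_bound hf.measurable.aestronglyMeasurable C ?_
  filter_upwards [hμ.unit] with S hS
  exact hC S fun i j => entry_norm_bound_of_unitary hS i j

lemma law_phi {μ : Measure (Matrix (Fin N) (Fin N) ℂ)} (hμ : IsHaar μ) (A : Matrix (Fin N) (Fin N) ℂ)
    (v : Fin N → ℂ) (hv : star v ⬝ᵥ v = 1) (i0 : Fin N) (g : ℝ → ℝ) (hg : Continuous g) :
    ∫ S, g (phi v (S * A * Sᴴ)).re ∂μ = ∫ S, g (phi (Pi.single i0 1) (S * A * Sᴴ)).re ∂μ := by
  obtain ⟨V, hV, hVv⟩ := exists_V v hv i0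
  have hVs : Vᴴ ∈ unitaryGroup (Fin N) ℂ := by
    rw [← star_eq_conjTranspose]; exact Unitary.star_mem hV
  have hG : Continuous fun S : Matrix (Fin N) (Fin N) ℂ => g (phi (Pi.single i0 1) (S * A * Sᴴ)).re :=
    hg.comp ((continuous_phi _).comp (continuous_W A))
  have h1 : ∀ S : Matrix (Fin N) (Fin N) ℂ, g (phi v (S * A * Sᴴ)).re =
      g (phi (Pi.single i0 1) ((Vᴴ * S) * A * (Vᴴ * S)ᴴ)).re := by
    intro S
    rw [← hVv, phi_conj]
    congr 3
    rw [conjTranspose_mul, conjTranspose_conjTranspose]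
    noncomm_ring
  have hm : Measurable fun S : Matrix (Fin N) (Fin N) ℂ => Vᴴ * S :=
    (continuous_const.matrix_mul continuous_id).measurable
  calc ∫ S, g (phi v (S * A * Sᴴ)).re ∂μ
      = ∫ S, g (phi (Pi.single i0 1) ((Vᴴ * S) * A * (Vᴴ * S)ᴴ)).re ∂μ := by
        apply integral_congr_ae; exact Filter.Eventually.of_forall h1
    _ = ∫ S, g (phi (Pi.single i0 1) (S * A * Sᴴ)).re ∂(μ.map (fun S => Vᴴ * S)) := by
        rw [integral_map hm.aemeasurable hG.measurable.aestronglyMeasurable]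
    _ = _ := by rw [hμ.inv _ hVs]

lemma phi_two (a b : Fin N) (x y : ℂ) (W : Matrix (Fin N) (Fin N) ℂ) :
    phi (Pi.single a x + Pi.single b y) W =
      star x * W a a * x + star x * W a b * y + star y * W b a * x + star y * W b b * y := by
  unfold phi
  rw [star_add, ← Pi.single_star, ← Pi.single_star, mulVec_add, add_dotProduct, dotProduct_add, dotProduct_add,
    single_dotProduct, single_dotProduct, single_dotProduct, single_dotProduct, mulVec_single, mulVec_single]
  simp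
  ring

/-- the vectors `(e_a + c e_b) / √2` -/
noncomputable def vc (a b : Fin N) (c : ℂ) : Fin N → ℂ :=
  Pi.single a ((1 / √2 : ℝ) : ℂ) + Pi.single b (((1 / √2 : ℝ) : ℂ) * c)

lemma r_sq : (((1 / √2 : ℝ) : ℂ)) * ((1 / √2 : ℝ) : ℂ) = 1 / 2 := by
  rw [← Complex.ofReal_mul]
  have : (1 / √2 : ℝ) * (1 / √2) = 1 / 2 := by
    rw [div_mul_div_comm, Real.mul_self_sqrt (by norm_num)]; norm_num
  rw [this]; norm_num

lemma phi_vc (a b : Fin N) (c : ℂ) (hc : star c * c = 1) (W : Matrix (Fin N) (Fin N) ℂ) :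
    phi (vc a b c) W = 1 / 2 * (W a a + c * W a b + star c * W b a + W b b) := by
  rw [vc, phi_two]
  have h1 : star (((1 / √2 : ℝ) : ℂ)) = ((1 / √2 : ℝ) : ℂ) := Complex.conj_ofReal _
  rw [star_mul, h1]
  have h2 := r_sq
  obtain ⟨r, hr⟩ : ∃ r : ℂ, r = ((1 / √2 : ℝ) : ℂ) := ⟨_, rfl⟩
  rw [← hr] at h2 ⊢
  linear_combination (W a a + c * W a b + star c * W b a + star c * c * W b b) * h2 + 1 / 2 * W b b * hc

lemma vc_unit (a b : Fin N) (hab : a ≠ b) (c : ℂ) (hc : star c * c = 1) : star (vc a b c) ⬝ᵥ vc a b c = 1 := by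
  have h := phi_vc a b c hc 1
  rw [phi_one] at h
  rw [h, one_apply_eq, one_apply_eq, one_apply_ne hab, one_apply_ne hab.symm]
  ring

lemma rot (a b : Fin N) (W : Matrix (Fin N) (Fin N) ℂ) (hW : W.IsHermitian) :
    (phi (vc a b 1) W).re ^ 2 + (phi (vc a b Complex.I) W).re ^ 2 + (phi (vc a b (-1)) W).re ^ 2 +
      (phi (vc a b (-Complex.I)) W).re ^ 2 = ((W a a).re + (W b b).re) ^ 2 + 2 * Complex.normSq (W a b) := by
  have hba : W b a = star (W a b) := by
    have := congrFun (congrFun hW.eq b) a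
    rw [conjTranspose_apply] at this
    exact this.symm
  rw [phi_vc a b 1 (by simp), phi_vc a b Complex.I (by simp), phi_vc a b (-1) (by simp),
    phi_vc a b (-Complex.I) (by simp), hba]
  obtain ⟨z, hz⟩ : ∃ z, z = W a b := ⟨_, rfl⟩
  rw [← hz, Complex.normSq_apply]
  simp only [Complex.star_def, map_neg, map_one, Complex.conj_I, Complex.mul_re, Complex.add_re, Complex.mul_im,
    Complex.add_im, Complex.one_re, Complex.one_im, Complex.neg_re, Complex.neg_im, Complex.I_re, Complex.I_im,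
    Complex.conj_re, Complex.conj_im]
  norm_num
  ring

end Pool.Agent.V11276.HU
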