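import Pool.Agent.V11276.HU5

namespace Pool.Agent.V11276.HU

open Finset Matrix MeasureTheory

variable {N : ℕ}

lemma conj_herm (A S : Matrix (Fin N) (Fin N) ℂ) (hA : A.IsHermitian) : (S * A * Sᴴ).IsHermitian := by
  unfold IsHermitian
  rw [conjTranspose_mul, conjTranspose_mul, conjTranspose_conjTranspose, hA.eq, mul_assoc]

lemma entry_re (W : Matrix (Fin N) (Fin N) ℂ) (a : Fin N) : (W a a).re = (phi (Pi.single a 1) W).re := by
  have h := entry_eq_phi W a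
  rw [← h]

lemma cont_entry_re (A : Matrix (Fin N) (Fin N) ℂ) (a b : Fin N) :
    Continuous fun S : Matrix (Fin N) (Fin N) ℂ => ((S * A * Sᴴ) a b).re :=
  Complex.continuous_re.comp ((continuous_W A).matrix_elem a b)

lemma cont_entry_sq (A : Matrix (Fin N) (Fin N) ℂ) (a b : Fin N) :
    Continuous fun S : Matrix (Fin N) (Fin N) ℂ => Complex.normSq ((S * A * Sᴴ) a b) :=
  Complex.continuous_normSq.comp ((continuous_W A).matrix_elem a b)

lemma int4 {α : Type*} [MeasurableSpace α] {μ : Measure α} {f1 f2 f3 f4 : α → ℝ} (h1 : Integrable f1 μ)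
    (h2 : Integrable f2 μ) (h3 : Integrable f3 μ) (h4 : Integrable f4 μ) :
    ∫ x, (f1 x + f2 x + f3 x + f4 x) ∂μ = ∫ x, f1 x ∂μ + ∫ x, f2 x ∂μ + ∫ x, f3 x ∂μ + ∫ x, f4 x ∂μ := by
  have a : Integrable (fun x => f1 x + f2 x) μ := h1.add h2
  have b : Integrable (fun x => f1 x + f2 x + f3 x) μ := a.add h3
  rw [integral_add b h4, integral_add a h3, integral_add h1 h2]

lemma int_lin {α : Type*} [MeasurableSpace α] {μ : Measure α} {f g h : α → ℝ} (h1 : Integrable f μ)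
    (h2 : Integrable g μ) (h3 : Integrable h μ) :
    ∫ x, ((f x + g x) + 2 * h x) ∂μ = (∫ x, f x ∂μ + ∫ x, g x ∂μ) + 2 * ∫ x, h x ∂μ := by
  have a : Integrable (fun x => f x + g x) μ := h1.add h2
  have b : Integrable (fun x => 2 * h x) μ := h3.const_mul 2
  rw [integral_add a b, integral_add h1 h2, integral_const_mul]

lemma int_quad {α : Type*} [MeasurableSpace α] {μ : Measure α} [IsProbabilityMeasure μ] {f g : α → ℝ}
    (h1 : Integrable f μ) (h2 : Integrable g μ) (c d : ℝ) :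
    ∫ x, (f x - c * g x + d) ∂μ = ∫ x, f x ∂μ - c * ∫ x, g x ∂μ + d := by
  have b : Integrable (fun x => c * g x) μ := h2.const_mul c
  have a : Integrable (fun x => f x - c * g x) μ := h1.sub b
  rw [integral_add a (integrable_const _), integral_sub h1 b, integral_const_mul, integral_const]
  simp

section second
variable {μ : Measure (Matrix (Fin N) (Fin N) ℂ)}

/-- the common value of the second moment -/
noncomputable def beta (μ : Measure (Matrix (Fin N) (Fin N) ℂ)) (A : Matrix (Fin N) (Fin N) ℂ) (i0 : Fin N) : ℝ :=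
  ∫ S, ((S * A * Sᴴ) i0 i0).re ^ 2 ∂μ

noncomputable def alpha (μ : Measure (Matrix (Fin N) (Fin N) ℂ)) (A : Matrix (Fin N) (Fin N) ℂ) (i0 : Fin N) : ℝ :=
  ∫ S, ((S * A * Sᴴ) i0 i0).re ∂μ

lemma int_phi_sq (hμ : IsHaar μ) (A : Matrix (Fin N) (Fin N) ℂ) (i0 : Fin N) (v : Fin N → ℂ)
    (hv : star v ⬝ᵥ v = 1) : ∫ S, (phi v (S * A * Sᴴ)).re ^ 2 ∂μ = beta μ A i0 := by
  rw [law_phi hμ A v hv i0 (fun x => x ^ 2) (continuous_pow 2), beta]
  apply integral_congr_ae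
  filter_upwards with S
  rw [entry_re]

lemma int_phi (hμ : IsHaar μ) (A : Matrix (Fin N) (Fin N) ℂ) (i0 : Fin N) (v : Fin N → ℂ)
    (hv : star v ⬝ᵥ v = 1) : ∫ S, (phi v (S * A * Sᴴ)).re ∂μ = alpha μ A i0 := by
  rw [law_phi hμ A v hv i0 (fun x => x) continuous_id, alpha]
  apply integral_congr_ae
  filter_upwards with S
  rw [entry_re]

lemma int_entry_sq (hμ : IsHaar μ) (A : Matrix (Fin N) (Fin N) ℂ) (i0 a : Fin N) :
    ∫ S, ((S * A * Sᴴ) a a).re ^ 2 ∂μ = beta μ A i0 := by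
  rw [← int_phi_sq hμ A i0 _ (single_unit a)]
  apply integral_congr_ae
  filter_upwards with S
  rw [entry_re]

lemma int_entry (hμ : IsHaar μ) (A : Matrix (Fin N) (Fin N) ℂ) (i0 a : Fin N) :
    ∫ S, ((S * A * Sᴴ) a a).re ∂μ = alpha μ A i0 := by
  rw [← int_phi hμ A i0 _ (single_unit a)]
  apply integral_congr_ae
  filter_upwards with S
  rw [entry_re]

lemma intg_phi_sq (hμ : IsHaar μ) (A : Matrix (Fin N) (Fin N) ℂ) (v : Fin N → ℂ) :
    Integrable (fun S => (phi v (S * A * Sᴴ)).re ^ 2) μ :=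
  intg hμ _ (((continuous_phi v).comp (continuous_W A)).pow 2)

/-- for `a ≠ b`: `E[W_aa W_bb + |W_ab|²] = β` -/
lemma int_pair (hμ : IsHaar μ) (A : Matrix (Fin N) (Fin N) ℂ) (hA : A.IsHermitian) (i0 a b : Fin N) (hab : a ≠ b) :
    ∫ S, (((S * A * Sᴴ) a a).re * ((S * A * Sᴴ) b b).re + Complex.normSq ((S * A * Sᴴ) a b)) ∂μ = beta μ A i0 := by
  have i1 : star (1 : ℂ) * 1 = 1 := by simp
  have i2 : star Complex.I * Complex.I = 1 := by simp
  have i3 : star (-1 : ℂ) * (-1) = 1 := by simp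
  have i4 : star (-Complex.I) * (-Complex.I) = 1 := by simp
  have h1 := int_phi_sq hμ A i0 _ (vc_unit a b hab 1 i1)
  have h2 := int_phi_sq hμ A i0 _ (vc_unit a b hab Complex.I i2)
  have h3 := int_phi_sq hμ A i0 _ (vc_unit a b hab (-1) i3)
  have h4 := int_phi_sq hμ A i0 _ (vc_unit a b hab (-Complex.I) i4)
  have ha := int_entry_sq hμ A i0 a
  have hb := int_entry_sq hμ A i0 b
  have hsum : ∫ S, ((phi (vc a b 1) (S * A * Sᴴ)).re ^ 2 + (phi (vc a b Complex.I) (S * A * Sᴴ)).re ^ 2 +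
      (phi (vc a b (-1)) (S * A * Sᴴ)).re ^ 2 + (phi (vc a b (-Complex.I)) (S * A * Sᴴ)).re ^ 2) ∂μ =
      4 * beta μ A i0 := by
    rw [int4 (intg_phi_sq hμ A _) (intg_phi_sq hμ A _) (intg_phi_sq hμ A _) (intg_phi_sq hμ A _), h1, h2, h3, h4]
    ring
  have hc1 := cont_entry_re A a a
  have hc2 := cont_entry_re A b b
  have hc3 := cont_entry_sq A a b
  have ig1 : Integrable (fun S : Matrix (Fin N) (Fin N) ℂ => ((S * A * Sᴴ) a a).re ^ 2) μ := intg hμ _ (hc1.pow 2)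
  have ig2 : Integrable (fun S : Matrix (Fin N) (Fin N) ℂ => ((S * A * Sᴴ) b b).re ^ 2) μ := intg hμ _ (hc2.pow 2)
  have ig3 : Integrable (fun S : Matrix (Fin N) (Fin N) ℂ =>
    ((S * A * Sᴴ) a a).re * ((S * A * Sᴴ) b b).re + Complex.normSq ((S * A * Sᴴ) a b)) μ :=
    intg hμ _ ((hc1.mul hc2).add hc3)
  have hpt : ∀ S : Matrix (Fin N) (Fin N) ℂ,
      (phi (vc a b 1) (S * A * Sᴴ)).re ^ 2 + (phi (vc a b Complex.I) (S * A * Sᴴ)).re ^ 2 +
      (phi (vc a b (-1)) (S * A * Sᴴ)).re ^ 2 + (phi (vc a b (-Complex.I)) (S * A * Sᴴ)).re ^ 2 =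
      (((S * A * Sᴴ) a a).re ^ 2 + ((S * A * Sᴴ) b b).re ^ 2) +
      2 * (((S * A * Sᴴ) a a).re * ((S * A * Sᴴ) b b).re + Complex.normSq ((S * A * Sᴴ) a b)) := by
    intro S
    rw [rot a b _ (conj_herm A S hA)]
    ring
  have hsum2 : ∫ S, ((phi (vc a b 1) (S * A * Sᴴ)).re ^ 2 + (phi (vc a b Complex.I) (S * A * Sᴴ)).re ^ 2 +
      (phi (vc a b (-1)) (S * A * Sᴴ)).re ^ 2 + (phi (vc a b (-Complex.I)) (S * A * Sᴴ)).re ^ 2) ∂μ =
      (beta μ A i0 + beta μ A i0) +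
      2 * ∫ S, (((S * A * Sᴴ) a a).re * ((S * A * Sᴴ) b b).re + Complex.normSq ((S * A * Sᴴ) a b)) ∂μ := by
    rw [integral_congr_ae (Filter.Eventually.of_forall hpt), int_lin ig1 ig2 ig3, ha, hb]
  rw [hsum] at hsum2
  linarith

lemma int_diag (hμ : IsHaar μ) (A : Matrix (Fin N) (Fin N) ℂ) (hA : A.IsHermitian) (i0 a : Fin N) :
    ∫ S, (((S * A * Sᴴ) a a).re * ((S * A * Sᴴ) a a).re + Complex.normSq ((S * A * Sᴴ) a a)) ∂μ = 2 * beta μ A i0 := by
  rw [← int_entry_sq hμ A i0 a, ← integral_const_mul]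
  apply integral_congr_ae
  filter_upwards with S
  have h := conj_herm A S hA
  have him : ((S * A * Sᴴ) a a).im = 0 := by
    have h1 := entry_eq_phi (S * A * Sᴴ) a
    rw [h1, phi_real _ _ h, Complex.ofReal_im]
  rw [Complex.normSq_apply, him]
  ring

lemma sum_pt (A S : Matrix (Fin N) (Fin N) ℂ) (hA : A.IsHermitian) (hS : S ∈ unitaryGroup (Fin N) ℂ) :
    ∑ a, ∑ b, (((S * A * Sᴴ) a a).re * ((S * A * Sᴴ) b b).re + Complex.normSq ((S * A * Sᴴ) a b)) =
      (trace A).re ^ 2 + (trace (A ^ 2)).re := by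
  have h2 : Sᴴ * S = 1 := mem_unitaryGroup_iff'.mp hS
  have hW := conj_herm A S hA
  have ht1 : trace (S * A * Sᴴ) = trace A := by
    rw [trace_mul_comm, ← mul_assoc, h2, one_mul]
  have ht2 : trace ((S * A * Sᴴ) * (S * A * Sᴴ)) = trace (A ^ 2) := by
    rw [show (S * A * Sᴴ) * (S * A * Sᴴ) = S * A * (Sᴴ * S) * A * Sᴴ by noncomm_ring, h2, mul_one, trace_mul_comm,
      pow_two]
    rw [show Sᴴ * (S * A * A) = (Sᴴ * S) * (A * A) by noncomm_ring, h2, one_mul]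
  obtain ⟨W, hWd⟩ : ∃ W, W = S * A * Sᴴ := ⟨_, rfl⟩
  rw [← hWd] at hW ht1 ht2 ⊢
  have e1 : ∑ a, ∑ b, ((W a a).re * (W b b).re + Complex.normSq (W a b)) =
      (∑ a, (W a a).re) * (∑ b, (W b b).re) + ∑ a, ∑ b, Complex.normSq (W a b) := by
    rw [sum_mul_sum, ← sum_add_distrib]
    apply sum_congr rfl; intro a _
    rw [← sum_add_distrib]
  have e2 : ∑ a, (W a a).re = (trace A).re := by
    rw [← ht1, trace, Complex.re_sum]
    apply sum_congr rfl; intro a _; rfl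
  have e3 : ∑ a, ∑ b, Complex.normSq (W a b) = (trace (A ^ 2)).re := by
    rw [← ht2, trace, Complex.re_sum]
    apply sum_congr rfl; intro a _
    rw [diag_apply, mul_apply, Complex.re_sum]
    apply sum_congr rfl; intro b _
    have hba : W b a = star (W a b) := by
      have := congrFun (congrFun hW.eq b) a
      rw [conjTranspose_apply] at this
      exact this.symm
    rw [hba, Complex.star_def, Complex.mul_conj, Complex.ofReal_re]
  rw [e1, e2, e3]; ring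

lemma beta_eq (hμ : IsHaar μ) (A : Matrix (Fin N) (Fin N) ℂ) (hA : A.IsHermitian) (i0 : Fin N) :
    (N : ℝ) * (N + 1) * beta μ A i0 = (trace A).re ^ 2 + (trace (A ^ 2)).re := by
  haveI := hμ.prob
  have h1 : ∫ S, (∑ a, ∑ b, (((S * A * Sᴴ) a a).re * ((S * A * Sᴴ) b b).re + Complex.normSq ((S * A * Sᴴ) a b))) ∂μ =
      (trace A).re ^ 2 + (trace (A ^ 2)).re := by
    have h2 : (fun S : Matrix (Fin N) (Fin N) ℂ => ∑ a, ∑ b, (((S * A * Sᴴ) a a).re * ((S * A * Sᴴ) b b).re + Complex.normSq ((S * A * Sᴴ) a b)))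
        =ᵐ[μ] fun _ => (trace A).re ^ 2 + (trace (A ^ 2)).re := by
      filter_upwards [hμ.unit] with S hS
      exact sum_pt A S hA hS
    rw [integral_congr_ae h2, integral_const]
    simp
  have hint : ∀ a b : Fin N, Integrable (fun S : Matrix (Fin N) (Fin N) ℂ =>
      ((S * A * Sᴴ) a a).re * ((S * A * Sᴴ) b b).re + Complex.normSq ((S * A * Sᴴ) a b)) μ := fun a b =>
    intg hμ _ (((cont_entry_re A a a).mul (cont_entry_re A b b)).add (cont_entry_sq A a b))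
  rw [integral_finset_sum _ (fun a _ => integrable_finset_sum _ (fun b _ => hint a b))] at h1
  have h3 : ∀ a ∈ (univ : Finset (Fin N)), ∫ S, (∑ b, (((S * A * Sᴴ) a a).re * ((S * A * Sᴴ) b b).re +
      Complex.normSq ((S * A * Sᴴ) a b))) ∂μ = (N + 1) * beta μ A i0 := by
    intro a _
    rw [integral_finset_sum _ (fun b _ => hint a b)]
    have h4 : ∀ b ∈ (univ : Finset (Fin N)), ∫ S, (((S * A * Sᴴ) a a).re * ((S * A * Sᴴ) b b).re +
        Complex.normSq ((S * A * Sᴴ) a b)) ∂μ = beta μ A i0 + if a = b then beta μ A i0 else 0 := by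
      intro b _
      split_ifs with h
      · subst h
        rw [int_diag hμ A hA i0 a]; ring
      · rw [int_pair hμ A hA i0 a b h, add_zero]
    rw [sum_congr rfl h4, sum_add_distrib, sum_const, card_univ, Fintype.card_fin, nsmul_eq_mul, sum_ite_eq]
    simp
    ring
  rw [sum_congr rfl h3, sum_const, card_univ, Fintype.card_fin, nsmul_eq_mul] at h1
  rw [← h1]; ring

lemma alpha_eq (hμ : IsHaar μ) (A : Matrix (Fin N) (Fin N) ℂ) (i0 : Fin N) :
    (N : ℝ) * alpha μ A i0 = (trace A).re := by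
  haveI := hμ.prob
  have h1 : ∫ S, (∑ a, ((S * A * Sᴴ) a a).re) ∂μ = (trace A).re := by
    have h2 : (fun S : Matrix (Fin N) (Fin N) ℂ => ∑ a, ((S * A * Sᴴ) a a).re) =ᵐ[μ] fun _ => (trace A).re := by
      filter_upwards [hμ.unit] with S hS
      have h2 : Sᴴ * S = 1 := mem_unitaryGroup_iff'.mp hS
      have ht1 : trace (S * A * Sᴴ) = trace A := by
        rw [trace_mul_comm, ← mul_assoc, h2, one_mul]
      rw [← ht1, trace, Complex.re_sum]
      apply sum_congr rfl; intro a _; rfl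
    rw [integral_congr_ae h2, integral_const]
    simp
  rw [integral_finset_sum _ (fun a _ => intg hμ _ (cont_entry_re A a a)), sum_congr rfl (fun a _ => int_entry hμ A i0 a),
    sum_const, card_univ, Fintype.card_fin, nsmul_eq_mul] at h1
  exact h1

/-- variance bound -/
lemma var_bound [NeZero N] (hμ : IsHaar μ) (A : Matrix (Fin N) (Fin N) ℂ) (hA : K A) (v : Fin N → ℂ)
    (hv : star v ⬝ᵥ v = 1) :
    ∫ S, ((phi v (S * A * Sᴴ)).re - (trace A).re / N) ^ 2 ∂μ ≤ 1 / N := by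
  haveI := hμ.prob
  have hN : (0 : ℝ) < N := by exact_mod_cast Nat.pos_of_ne_zero (NeZero.ne N)
  obtain ⟨i0⟩ : Nonempty (Fin N) := ⟨⟨0, Nat.pos_of_ne_zero (NeZero.ne N)⟩⟩
  obtain ⟨t, ht⟩ : ∃ t, t = (trace A).re / N := ⟨_, rfl⟩
  rw [← ht]
  have i1 := intg_phi_sq hμ A v
  have i2 : Integrable (fun S : Matrix (Fin N) (Fin N) ℂ => (phi v (S * A * Sᴴ)).re) μ :=
    intg hμ _ ((continuous_phi v).comp (continuous_W A))
  have h1 : ∫ S, ((phi v (S * A * Sᴴ)).re - t) ^ 2 ∂μ = beta μ A i0 - 2 * t * alpha μ A i0 + t ^ 2 := by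
    have h2 : ∀ S : Matrix (Fin N) (Fin N) ℂ, ((phi v (S * A * Sᴴ)).re - t) ^ 2 =
        ((phi v (S * A * Sᴴ)).re ^ 2 - 2 * t * (phi v (S * A * Sᴴ)).re) + t ^ 2 := by intro S; ring
    rw [integral_congr_ae (Filter.Eventually.of_forall h2), int_quad i1 i2 (2 * t) (t ^ 2),
      int_phi_sq hμ A i0 v hv, int_phi hμ A i0 v hv]
  rw [h1]
  have h3 := beta_eq hμ A hA.1 i0
  have h4 := alpha_eq hμ A i0
  have h5 : (trace (A ^ 2)).re ≤ (N : ℝ) := by
    refine (Complex.re_le_norm _).trans ((trace_bound _).trans ?_)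
    rw [Fintype.card_fin]
    calc (N : ℝ) * _ ≤ N * 1 := mul_le_mul_of_nonneg_left (norm_pow_le' A hA.2 2) hN.le
      _ = N := mul_one _
  have h6 : (trace A).re = N * t := by rw [ht]; field_simp
  rw [h6] at h3 h4
  have h7 : alpha μ A i0 = t := mul_left_cancel₀ hN.ne' h4
  rw [h7]
  have h8 : (N : ℝ) * (N + 1) * (beta μ A i0 - 2 * t * t + t ^ 2) ≤ N := by
    have : (N : ℝ) * (N + 1) * (beta μ A i0 - 2 * t * t + t ^ 2) =
        (N * (N + 1) * beta μ A i0) - N * (N + 1) * t ^ 2 := by ring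
    rw [this, h3]
    nlinarith [sq_nonneg t]
  rw [le_div_iff₀ hN]
  obtain ⟨y, hy⟩ : ∃ y, y = beta μ A i0 - 2 * t * t + t ^ 2 := ⟨_, rfl⟩
  rw [← hy] at h8 ⊢
  have h9 : (N : ℝ) * ((N + 1) * y) ≤ N * 1 := by linarith
  have h10 := le_of_mul_le_mul_left h9 hN
  by_contra hc
  have hc := not_le.mp hc
  have hy0 : 0 < y := by
    by_contra h0
    have h0 := not_lt.mp h0
    nlinarith
  nlinarith

end second

end Pool.Agent.V11276.HU
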