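import Pool.Agent.V11276.HU6

namespace Pool.Agent.V11276.HU

open Finset Matrix

lemma GG_lip_unif (Q : ℕ) : ∃ C : ℝ, 0 ≤ C ∧ ∀ q < Q, ∀ x y : ℕ → ℝ, (∀ j, |x j| ≤ 1) → (∀ j, |y j| ≤ 1) →
    |GG x q| ≤ C ∧ |GG x q - GG y q| ≤ C * ∑ j ∈ range (Q + 1), |x j - y j| := by
  induction Q with
  | zero => exact ⟨0, le_rfl, fun q hq => absurd hq (by omega)⟩
  | succ Q ih =>
    obtain ⟨C, hC, h⟩ := ih
    obtain ⟨C', hC', h'⟩ := GG_lip Q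
    refine ⟨C + C', by positivity, fun q hq x y hx hy => ?_⟩
    have hS0 : 0 ≤ ∑ j ∈ range (Q + 1 + 1), |x j - y j| := sum_nonneg fun _ _ => abs_nonneg _
    rcases Nat.lt_succ_iff_lt_or_eq.mp hq with hq' | rfl
    · obtain ⟨h1, h2⟩ := h q hq' x y hx hy
      refine ⟨by linarith, h2.trans ?_⟩
      have h3 : ∑ j ∈ range (Q + 1), |x j - y j| ≤ ∑ j ∈ range (Q + 1 + 1), |x j - y j| :=
        sum_le_sum_of_subset_of_nonneg (range_subset_range.mpr (by omega)) fun _ _ _ => abs_nonneg _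
      calc C * ∑ j ∈ range (Q + 1), |x j - y j| ≤ C * ∑ j ∈ range (Q + 1 + 1), |x j - y j| :=
            mul_le_mul_of_nonneg_left h3 hC
        _ ≤ (C + C') * ∑ j ∈ range (Q + 1 + 1), |x j - y j| := mul_le_mul_of_nonneg_right (by linarith) hS0
    · obtain ⟨h1, h2⟩ := h' x y hx hy
      refine ⟨by linarith, h2.trans ?_⟩
      exact mul_le_mul_of_nonneg_right (by linarith) hS0

lemma mm_lip (Q : ℕ) (C : ℝ) (hC : 0 ≤ C) (h : ∀ q < Q, ∀ x y : ℕ → ℝ, (∀ j, |x j| ≤ 1) → (∀ j, |y j| ≤ 1) →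
    |GG x q| ≤ C ∧ |GG x q - GG y q| ≤ C * ∑ j ∈ range (Q + 1), |x j - y j|)
    (p : ℕ) (hp : p < Q + 1) (s t : ℝ) (hs : 0 ≤ s) (hst : s < t) : |mm p t - mm p s| ≤ C * (t - s) := by
  cases p with
  | zero =>
    have : mm 0 t - mm 0 s = 0 := by simp [mm]
    rw [this, abs_zero]
    exact mul_nonneg hC (by linarith)
  | succ q =>
    obtain ⟨c, hc1, hc2⟩ := exists_hasDerivAt_eq_slope (mm (q + 1)) (fun t => GG (fun p => mm p t) q) hst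
      (mm_continuous _).continuousOn (fun x hx => mm_hasDerivAt x (lt_of_le_of_lt hs hx.1) q)
    have h1 := (h q (by omega) (fun p => mm p c) (fun p => mm p c)
      (fun j => mm_abs j c (le_of_lt (lt_of_le_of_lt hs hc1.1))) (fun j => mm_abs j c (le_of_lt (lt_of_le_of_lt hs hc1.1)))).1
    have h2 : 0 < t - s := by linarith
    rw [eq_div_iff h2.ne'] at hc2
    rw [← hc2, abs_mul, abs_of_pos h2]
    exact mul_le_mul_of_nonneg_right h1 h2.le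

lemma mm_step (Q : ℕ) (C : ℝ) (hC : 0 ≤ C) (h : ∀ q < Q, ∀ x y : ℕ → ℝ, (∀ j, |x j| ≤ 1) → (∀ j, |y j| ≤ 1) →
    |GG x q| ≤ C ∧ |GG x q - GG y q| ≤ C * ∑ j ∈ range (Q + 1), |x j - y j|)
    (q : ℕ) (hq : q < Q) (t η : ℝ) (ht : 0 ≤ t) (hη : 0 < η) :
    |mm (q + 1) (t + η) - mm (q + 1) t - η * GG (fun p => mm p t) q| ≤ C * ((Q + 1) * C) * η * η := by
  obtain ⟨c, hc1, hc2⟩ := exists_hasDerivAt_eq_slope (mm (q + 1)) (fun t => GG (fun p => mm p t) q)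
    (show t < t + η by linarith)
    (mm_continuous _).continuousOn (fun x hx => mm_hasDerivAt x (lt_of_le_of_lt ht hx.1) q)
  have hc0 : 0 ≤ c := le_of_lt (lt_of_le_of_lt ht hc1.1)
  rw [show t + η - t = η by ring, eq_div_iff hη.ne'] at hc2
  rw [← hc2]
  have h1 := (h q hq (fun p => mm p c) (fun p => mm p t) (fun j => mm_abs j c hc0) (fun j => mm_abs j t ht)).2
  have h2 : ∑ j ∈ range (Q + 1), |mm j c - mm j t| ≤ (Q + 1) * (C * η) := by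
    calc ∑ j ∈ range (Q + 1), |mm j c - mm j t| ≤ ∑ j ∈ range (Q + 1), C * η := by
          apply sum_le_sum
          intro j hj
          refine (mm_lip Q C hC h j (mem_range.mp hj) t c ht hc1.1).trans ?_
          exact mul_le_mul_of_nonneg_left (by linarith [hc1.2]) hC
      _ = _ := by rw [sum_const, card_range, nsmul_eq_mul]; push_cast; ring
  have h3 : GG (fun p => mm p c) q * η - η * GG (fun p => mm p t) q = (GG (fun p => mm p c) q - GG (fun p => mm p t) q) * η := by ring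
  rw [h3, abs_mul, abs_of_pos hη]
  have h4 : |GG (fun p => mm p c) q - GG (fun p => mm p t) q| ≤ C * ((Q + 1) * (C * η)) :=
    h1.trans (mul_le_mul_of_nonneg_left h2 hC)
  calc |GG (fun p => mm p c) q - GG (fun p => mm p t) q| * η ≤ (C * ((Q + 1) * (C * η))) * η :=
        mul_le_mul_of_nonneg_right h4 hη.le
    _ = _ := by ring

lemma scalar_step (d g R η a c1 : ℝ) (hη0 : 0 < η) (hη1 : η ≤ 1) (hg : |g| ≤ a) (hR : |R| ≤ c1 * η * η) :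
    (d + η * g - R) ^ 2 ≤ (1 + η) * d ^ 2 + 2 * η * (2 * a ^ 2 + 2 * c1 ^ 2 * η ^ 2) := by
  obtain ⟨u, hu⟩ : ∃ u, u = g - R / η := ⟨_, rfl⟩
  have h1 : d + η * g - R = d + η * u := by rw [hu]; field_simp; ring
  have h2 : |R / η| ≤ c1 * η := by
    rw [abs_div, abs_of_pos hη0, div_le_iff₀ hη0]; exact hR
  have h3 : u ^ 2 ≤ 2 * a ^ 2 + 2 * c1 ^ 2 * η ^ 2 := by
    have e1 : u ^ 2 ≤ 2 * g ^ 2 + 2 * (R / η) ^ 2 := by rw [hu]; nlinarith [sq_nonneg (g + R / η)]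
    have e2 : g ^ 2 ≤ a ^ 2 := by rw [← sq_abs]; exact pow_le_pow_left₀ (abs_nonneg _) hg 2
    have e3 : (R / η) ^ 2 ≤ (c1 * η) ^ 2 := by rw [← sq_abs]; exact pow_le_pow_left₀ (abs_nonneg _) h2 2
    nlinarith
  rw [h1]
  have h4 : (d + η * u) ^ 2 ≤ (1 + η) * d ^ 2 + 2 * η * u ^ 2 := by
    have e1 : 2 * (d * u) ≤ d ^ 2 + u ^ 2 := by nlinarith [sq_nonneg (d - u)]
    have e2 : η ^ 2 ≤ η := by nlinarith
    have e3 : η ^ 2 * u ^ 2 ≤ η * u ^ 2 := mul_le_mul_of_nonneg_right e2 (sq_nonneg u)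
    have e4 : η * (2 * (d * u)) ≤ η * (d ^ 2 + u ^ 2) := mul_le_mul_of_nonneg_left e1 hη0.le
    nlinarith
  have h5 : 2 * η * u ^ 2 ≤ 2 * η * (2 * a ^ 2 + 2 * c1 ^ 2 * η ^ 2) := mul_le_mul_of_nonneg_left h3 (by linarith)
  linarith

lemma sq_sum_le (Q : ℕ) (f : ℕ → ℝ) : (∑ j ∈ range (Q + 1), f j) ^ 2 ≤ (Q + 1) * ∑ j ∈ range (Q + 1), f j ^ 2 := by
  have := sq_sum_le_card_mul_sum_sq (s := range (Q + 1)) (f := f)
  rw [card_range] at this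
  push_cast at this
  exact this

/-- deterministic one step inequality -/
lemma det_step (Q : ℕ) : ∃ C : ℝ, 0 ≤ C ∧ ∀ (N : ℕ) [NeZero N] (v : Fin N → ℂ) (M S : Matrix (Fin N) (Fin N) ℂ) (t : ℝ),
    star v ⬝ᵥ v = 1 → K M → S ∈ unitaryGroup (Fin N) ℂ → 0 ≤ t →
    ∑ p ∈ range (Q + 1), (D p ((1 - rk v) * (S * M * Sᴴ) * (1 - rk v)) - mm p (t + 1 / N)) ^ 2 ≤
      (1 + C * (1 / N)) * ∑ p ∈ range (Q + 1), (D p M - mm p t) ^ 2 +
      C * (1 / N) * ∑ p ∈ range (Q + 1), (Xq v M S p - D p M) ^ 2 + C * (1 / N) ^ 3 := by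
  obtain ⟨C0, hC0, h⟩ := GG_lip_unif Q
  obtain ⟨C1, hC1d⟩ : ∃ C1 : ℝ, C1 = C0 * ((Q + 1) * C0) := ⟨_, rfl⟩
  have hC1 : 0 ≤ C1 := by rw [hC1d]; positivity
  refine ⟨1 + 8 * Q * (Q + 1) * C0 ^ 2 + 4 * Q * C1 ^ 2, by positivity, ?_⟩
  intro N _ v M S t hv hM hS ht
  have hN : (0 : ℝ) < N := by exact_mod_cast Nat.pos_of_ne_zero (NeZero.ne N)
  have hN1 : (1 : ℝ) ≤ N := by exact_mod_cast Nat.pos_of_ne_zero (NeZero.ne N)
  obtain ⟨η, hη⟩ : ∃ η : ℝ, η = 1 / N := ⟨_, rfl⟩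
  have hη0 : 0 < η := by rw [hη]; positivity
  have hη1 : η ≤ 1 := by rw [hη, div_le_one hN]; exact hN1
  rw [← hη]
  obtain ⟨M', hM'⟩ : ∃ M', M' = (1 - rk v) * (S * M * Sᴴ) * (1 - rk v) := ⟨_, rfl⟩
  rw [← hM']
  obtain ⟨E, hE⟩ : ∃ E, E = ∑ p ∈ range (Q + 1), (D p M - mm p t) ^ 2 := ⟨_, rfl⟩
  obtain ⟨V, hV⟩ : ∃ V, V = ∑ p ∈ range (Q + 1), (Xq v M S p - D p M) ^ 2 := ⟨_, rfl⟩
  have hE0 : 0 ≤ E := by rw [hE]; exact sum_nonneg fun _ _ => sq_nonneg _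
  have hV0 : 0 ≤ V := by rw [hV]; exact sum_nonneg fun _ _ => sq_nonneg _
  rw [← hE, ← hV]
  haveI : Nonempty (Fin N) := ⟨⟨0, Nat.pos_of_ne_zero (NeZero.ne N)⟩⟩
  -- the total distance
  obtain ⟨A, hA⟩ : ∃ A, A = ∑ j ∈ range (Q + 1), |Xq v M S j - mm j t| := ⟨_, rfl⟩
  have hA2 : A ^ 2 ≤ 2 * (Q + 1) * (V + E) := by
    have h1 := sq_sum_le Q (fun j => |Xq v M S j - mm j t|)
    rw [← hA] at h1
    have h2 : ∑ j ∈ range (Q + 1), |Xq v M S j - mm j t| ^ 2 ≤ 2 * (V + E) := by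
      rw [hV, hE, ← sum_add_distrib, mul_sum]
      apply sum_le_sum
      intro j _
      rw [sq_abs]
      nlinarith [sq_nonneg ((Xq v M S j - D j M) - (D j M - mm j t))]
    have h3 : ((Q : ℝ) + 1) * ∑ j ∈ range (Q + 1), |Xq v M S j - mm j t| ^ 2 ≤ (Q + 1) * (2 * (V + E)) :=
      mul_le_mul_of_nonneg_left h2 (by positivity)
    linarith
  have hterm : ∀ q ∈ range Q, (D (q + 1) M' - mm (q + 1) (t + η)) ^ 2 ≤
      (1 + η) * (D (q + 1) M - mm (q + 1) t) ^ 2 + 2 * η * (2 * (C0 * A) ^ 2 + 2 * C1 ^ 2 * η ^ 2) := by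
    intro q hq
    have hq := mem_range.mp hq
    have hd := D_step v hv M S hM hS q
    rw [← hM', Fintype.card_fin] at hd
    have hx : ∀ j, |Xq v M S j| ≤ 1 := fun j => Xq_bound v hv M S hM hS j
    have hy : ∀ j, |mm j t| ≤ 1 := fun j => mm_abs j t ht
    have hg := (h q hq (Xq v M S) (fun p => mm p t) hx hy).2
    have hR := mm_step Q C0 hC0 h q hq t η ht hη0
    rw [← hA] at hg
    rw [← hC1d] at hR
    have key := scalar_step (D (q + 1) M - mm (q + 1) t) (GG (Xq v M S) q - GG (fun p => mm p t) q)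
      (mm (q + 1) (t + η) - mm (q + 1) t - η * GG (fun p => mm p t) q) η (C0 * A) C1 hη0 hη1 hg hR
    have e1 : D (q + 1) M' - mm (q + 1) (t + η) = D (q + 1) M - mm (q + 1) t +
        η * (GG (Xq v M S) q - GG (fun p => mm p t) q) -
        (mm (q + 1) (t + η) - mm (q + 1) t - η * GG (fun p => mm p t) q) := by
      rw [hd, hη]; ring
    rw [e1]
    exact key
  rw [sum_range_succ']
  have h0 : (D 0 M' - mm 0 (t + η)) ^ 2 = 0 := by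
    rw [D_zero]; simp [mm]
  rw [h0, add_zero]
  have hsum := sum_le_sum hterm
  rw [sum_add_distrib, ← mul_sum, sum_const, card_range, nsmul_eq_mul] at hsum
  have hE' : ∑ q ∈ range Q, (D (q + 1) M - mm (q + 1) t) ^ 2 ≤ E := by
    rw [hE, sum_range_succ' (fun p => (D p M - mm p t) ^ 2)]
    linarith [sq_nonneg (D 0 M - mm 0 t)]
  have h5 : (1 + η) * ∑ q ∈ range Q, (D (q + 1) M - mm (q + 1) t) ^ 2 ≤ (1 + η) * E :=
    mul_le_mul_of_nonneg_left hE' (by linarith)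
  have hQ : (0 : ℝ) ≤ Q := Nat.cast_nonneg Q
  have h6 : (C0 * A) ^ 2 ≤ C0 ^ 2 * (2 * (Q + 1) * (V + E)) := by
    rw [mul_pow]; exact mul_le_mul_of_nonneg_left hA2 (sq_nonneg _)
  have h7 : (Q : ℝ) * (2 * η * (2 * (C0 * A) ^ 2 + 2 * C1 ^ 2 * η ^ 2)) ≤
      Q * (2 * η * (2 * (C0 ^ 2 * (2 * (Q + 1) * (V + E))) + 2 * C1 ^ 2 * η ^ 2)) := by
    apply mul_le_mul_of_nonneg_left _ hQ
    apply mul_le_mul_of_nonneg_left _ (by linarith)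
    linarith
  have h8 : (Q : ℝ) * (2 * η * (2 * (C0 ^ 2 * (2 * (Q + 1) * (V + E))) + 2 * C1 ^ 2 * η ^ 2)) =
      (8 * Q * (Q + 1) * C0 ^ 2) * η * V + (8 * Q * (Q + 1) * C0 ^ 2) * η * E + 4 * Q * C1 ^ 2 * η ^ 3 := by ring
  obtain ⟨c1, hc1⟩ : ∃ c1 : ℝ, c1 = 8 * Q * (Q + 1) * C0 ^ 2 := ⟨_, rfl⟩
  obtain ⟨c2, hc2⟩ : ∃ c2 : ℝ, c2 = 4 * Q * C1 ^ 2 := ⟨_, rfl⟩
  have hc10 : 0 ≤ c1 := by rw [hc1]; positivity
  have hc20 : 0 ≤ c2 := by rw [hc2]; positivity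
  rw [← hc1, ← hc2] at h8 ⊢
  have g1 : 0 ≤ η * V := mul_nonneg hη0.le hV0
  have g2 : 0 ≤ η * E := mul_nonneg hη0.le hE0
  have g3 : 0 ≤ η ^ 3 := by positivity
  have g4 : 0 ≤ c2 * (η * V) := mul_nonneg hc20 g1
  have g5 : 0 ≤ c2 * (η * E) := mul_nonneg hc20 g2
  have g6 : 0 ≤ c1 * η ^ 3 := mul_nonneg hc10 g3
  nlinarith

end Pool.Agent.V11276.HU
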