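import Pool.Agent.V11276.HU7
import Mathlib.Probability.Independence.Basic

namespace Pool.Agent.V11276.HU

open Finset Matrix MeasureTheory ProbabilityTheory

section process
variable {N : ℕ}

/-- the product `(P S_{L-1}) ⋯ (P S_0)` -/
noncomputable def Bs (P : Matrix (Fin N) (Fin N) ℂ) (s : ℕ → Matrix (Fin N) (Fin N) ℂ) :
    ℕ → Matrix (Fin N) (Fin N) ℂ
  | 0 => 1
  | L + 1 => P * s L * Bs P s L

noncomputable def Ms (P : Matrix (Fin N) (Fin N) ℂ) (s : ℕ → Matrix (Fin N) (Fin N) ℂ) (L : ℕ) :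
    Matrix (Fin N) (Fin N) ℂ := Bs P s L * (Bs P s L)ᴴ

lemma Ms_zero (P : Matrix (Fin N) (Fin N) ℂ) (s : ℕ → Matrix (Fin N) (Fin N) ℂ) : Ms P s 0 = 1 := by
  simp [Ms, Bs]

lemma Ms_succ (P : Matrix (Fin N) (Fin N) ℂ) (hP : Pᴴ = P) (s : ℕ → Matrix (Fin N) (Fin N) ℂ) (L : ℕ) :
    Ms P s (L + 1) = P * (s L * Ms P s L * (s L)ᴴ) * P := by
  unfold Ms
  show P * s L * Bs P s L * (P * s L * Bs P s L)ᴴ = _
  rw [conjTranspose_mul, conjTranspose_mul, hP]
  noncomm_ring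

lemma Bs_congr (P : Matrix (Fin N) (Fin N) ℂ) (s s' : ℕ → Matrix (Fin N) (Fin N) ℂ) (L : ℕ)
    (h : ∀ i < L, s i = s' i) : Bs P s L = Bs P s' L := by
  induction L with
  | zero => rfl
  | succ L ih =>
    show P * s L * Bs P s L = P * s' L * Bs P s' L
    rw [h L (by omega), ih (fun i hi => h i (by omega))]

lemma Bs_cont (P : Matrix (Fin N) (Fin N) ℂ) (L : ℕ) : Continuous fun s : ℕ → Matrix (Fin N) (Fin N) ℂ => Bs P s L := by
  induction L with
  | zero => exact continuous_const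
  | succ L ih =>
    show Continuous fun s : ℕ → Matrix (Fin N) (Fin N) ℂ => P * s L * Bs P s L
    exact (continuous_const.matrix_mul (continuous_apply L)).matrix_mul ih

lemma Ms_cont (P : Matrix (Fin N) (Fin N) ℂ) (L : ℕ) : Continuous fun s : ℕ → Matrix (Fin N) (Fin N) ℂ => Ms P s L :=
  (Bs_cont P L).matrix_mul (Bs_cont P L).matrix_conjTranspose

lemma Ms_K (v : Fin N → ℂ) (hv : star v ⬝ᵥ v = 1) (s : ℕ → Matrix (Fin N) (Fin N) ℂ)
    (hs : ∀ i, s i ∈ unitaryGroup (Fin N) ℂ) (L : ℕ) : K (Ms (1 - rk v) s L) := by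
  induction L with
  | zero => rw [Ms_zero]; exact K_one
  | succ L ih =>
    rw [Ms_succ _ (P_herm v)]
    exact K_step v hv _ (conj_K _ _ (hs L) ih)

/-- extension of a finite family by ones -/
noncomputable def ext1 (L : ℕ) (x : (i : (range L : Finset ℕ)) → Matrix (Fin N) (Fin N) ℂ) :
    ℕ → Matrix (Fin N) (Fin N) ℂ := fun i => if h : i ∈ range L then x ⟨i, h⟩ else 1

lemma ext1_cont (L : ℕ) : Continuous (ext1 (N := N) L) := by
  refine continuous_pi fun i => ?_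
  unfold ext1
  by_cases h : i ∈ range L
  · simp only [h, dif_pos]
    exact continuous_apply _
  · simp only [h, dif_neg, not_false_iff]
    exact continuous_const

variable {Ω : Type*} [MeasurableSpace Ω] {Pm : Measure Ω}

lemma Ms_factor (P : Matrix (Fin N) (Fin N) ℂ) (S : ℕ → Ω → Matrix (Fin N) (Fin N) ℂ) (L : ℕ) :
    (fun ω => Ms P (fun i => S i ω) L) =
      (fun x => Ms P (ext1 L x) L) ∘ (fun ω (i : (range L : Finset ℕ)) => S i ω) := by
  funext ω
  show Ms P (fun i => S i ω) L = Ms P (ext1 L fun i : (range L : Finset ℕ) => S i ω) L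
  unfold Ms
  have h : Bs P (fun i => S i ω) L = Bs P (ext1 L fun i : (range L : Finset ℕ) => S i ω) L := by
    apply Bs_congr
    intro i hi
    simp [ext1, hi]
  rw [h]

lemma Ms_meas (P : Matrix (Fin N) (Fin N) ℂ) (S : ℕ → Ω → Matrix (Fin N) (Fin N) ℂ) (hS : ∀ i, Measurable (S i))
    (L : ℕ) : Measurable fun ω => Ms P (fun i => S i ω) L := by
  rw [Ms_factor]
  have h1 : Continuous fun x : ((i : (range L : Finset ℕ)) → Matrix (Fin N) (Fin N) ℂ) => Ms P (ext1 L x) L :=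
    (Ms_cont P L).comp (ext1_cont L)
  exact h1.measurable.comp (measurable_pi_lambda _ fun i => hS i)

lemma Ms_indep (P : Matrix (Fin N) (Fin N) ℂ) (S : ℕ → Ω → Matrix (Fin N) (Fin N) ℂ) (hS : ∀ i, Measurable (S i))
    (hI : iIndepFun S Pm) (L : ℕ) : IndepFun (fun ω => Ms P (fun i => S i ω) L) (S L) Pm := by
  rw [Ms_factor]
  have h1 : Continuous fun x : ((i : (range L : Finset ℕ)) → Matrix (Fin N) (Fin N) ℂ) => Ms P (ext1 L x) L :=
    (Ms_cont P L).comp (ext1_cont L)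
  have h2 := iIndepFun.indepFun_finset (range L) {L} (by simp) hI hS
  have h3 := h2.comp h1.measurable
    (measurable_pi_apply (⟨L, mem_singleton_self L⟩ : ({L} : Finset ℕ)) : Measurable
      fun x : ((i : ({L} : Finset ℕ)) → Matrix (Fin N) (Fin N) ℂ) => x ⟨L, mem_singleton_self L⟩)
  exact h3

lemma D_cont (p : ℕ) : Continuous fun M : Matrix (Fin N) (Fin N) ℂ => D p M := by
  unfold D
  exact (Complex.continuous_re.comp (continuous_id.pow p).matrix_trace).div_const _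

lemma Xq_cont (v : Fin N → ℂ) (j : ℕ) :
    Continuous fun x : Matrix (Fin N) (Fin N) ℂ × Matrix (Fin N) (Fin N) ℂ => Xq v x.1 x.2 j := by
  unfold Xq
  refine (continuous_phi v).comp ?_
  exact (continuous_snd.matrix_mul (continuous_fst.pow j)).matrix_mul continuous_snd.matrix_conjTranspose

lemma K_pow (M : Matrix (Fin N) (Fin N) ℂ) (hM : K M) (j : ℕ) : K (M ^ j) :=
  ⟨isHermitian_pow M hM.1 j, norm_pow_le' M hM.2 j⟩

lemma ae_unit (S : ℕ → Ω → Matrix (Fin N) (Fin N) ℂ) (hS : ∀ i, Measurable (S i))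
    (hH : ∀ i, IsHaar (Pm.map (S i))) : ∀ᵐ ω ∂Pm, ∀ i, S i ω ∈ unitaryGroup (Fin N) ℂ := by
  rw [ae_all_iff]
  intro i
  exact ae_of_ae_map (hS i).aemeasurable (hH i).unit

/-- the key expectation bound -/
lemma step_var [NeZero N] [IsProbabilityMeasure Pm] (v : Fin N → ℂ) (hv : star v ⬝ᵥ v = 1)
    (S : ℕ → Ω → Matrix (Fin N) (Fin N) ℂ) (hS : ∀ i, Measurable (S i))
    (hI : iIndepFun S Pm) (hH : ∀ i, IsHaar (Pm.map (S i))) (L j : ℕ) :
    Integrable (fun ω => (Xq v (Ms (1 - rk v) (fun i => S i ω) L) (S L ω) j -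
      D j (Ms (1 - rk v) (fun i => S i ω) L)) ^ 2) Pm ∧
    ∫ ω, (Xq v (Ms (1 - rk v) (fun i => S i ω) L) (S L ω) j -
      D j (Ms (1 - rk v) (fun i => S i ω) L)) ^ 2 ∂Pm ≤ 1 / N := by
  haveI : Nonempty (Fin N) := ⟨⟨0, Nat.pos_of_ne_zero (NeZero.ne N)⟩⟩
  obtain ⟨X, hX⟩ : ∃ X : Ω → Matrix (Fin N) (Fin N) ℂ, X = fun ω => Ms (1 - rk v) (fun i => S i ω) L := ⟨_, rfl⟩
  obtain ⟨g, hg⟩ : ∃ g : Matrix (Fin N) (Fin N) ℂ × Matrix (Fin N) (Fin N) ℂ → ℝ,
    g = fun x => (Xq v x.1 x.2 j - D j x.1) ^ 2 := ⟨_, rfl⟩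
  have hgc : Continuous g := by
    rw [hg]
    exact ((Xq_cont v j).sub ((D_cont j).comp continuous_fst)).pow 2
  have hXm : Measurable X := by rw [hX]; exact Ms_meas _ S hS L
  have hind : IndepFun X (S L) Pm := by rw [hX]; exact Ms_indep _ S hS hI L
  have hu := ae_unit S hS hH
  have hXK : ∀ᵐ ω ∂Pm, K (X ω) := by
    filter_upwards [hu] with ω hω
    rw [hX]
    exact Ms_K v hv _ hω L
  have hform : (fun ω => (Xq v (Ms (1 - rk v) (fun i => S i ω) L) (S L ω) j -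
      D j (Ms (1 - rk v) (fun i => S i ω) L)) ^ 2) = fun ω => g (X ω, S L ω) := by
    rw [hg, hX]
  have hpm : Measurable fun ω => (X ω, S L ω) := hXm.prodMk (hS L)
  have hint : Integrable (fun ω => g (X ω, S L ω)) Pm := by
    refine Integrable.of_bound (hgc.measurable.comp hpm).aestronglyMeasurable 4 ?_
    filter_upwards [hu, hXK] with ω hω hK
    have h1 := abs_le.mp (Xq_bound v hv (X ω) (S L ω) hK (hω L) j)
    have h2 := abs_le.mp (D_bound (X ω) hK j)
    rw [hg, Real.norm_eq_abs, abs_of_nonneg (sq_nonneg _)]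
    show (Xq v (X ω) (S L ω) j - D j (X ω)) ^ 2 ≤ 4
    nlinarith [h1.1, h1.2, h2.1, h2.2]
  rw [hform]
  refine ⟨hint, ?_⟩
  have hmap := (indepFun_iff_map_prod_eq_prod_map_map hXm.aemeasurable (hS L).aemeasurable).mp hind
  have e1 : ∫ ω, g (X ω, S L ω) ∂Pm = ∫ x, g x ∂(Pm.map fun ω => (X ω, S L ω)) := by
    rw [integral_map hpm.aemeasurable hgc.measurable.aestronglyMeasurable]
  have hint2 : Integrable g (Pm.map fun ω => (X ω, S L ω)) :=
    (integrable_map_measure hgc.measurable.aestronglyMeasurable hpm.aemeasurable).mpr hint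
  haveI hp1 : IsProbabilityMeasure (Pm.map X) := Measure.isProbabilityMeasure_map hXm.aemeasurable
  haveI hp2 : IsProbabilityMeasure (Pm.map (S L)) := (hH L).prob
  rw [hmap] at hint2 e1
  rw [e1, integral_prod _ hint2]
  have hsm : StronglyMeasurable fun x => ∫ y, g (x, y) ∂(Pm.map (S L)) :=
    hgc.measurable.stronglyMeasurable.integral_prod_right'
  rw [integral_map hXm.aemeasurable hsm.aestronglyMeasurable]
  have hbd : ∀ᵐ ω ∂Pm, ∫ y, g (X ω, y) ∂(Pm.map (S L)) ≤ 1 / N := by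
    filter_upwards [hXK] with ω hK
    have h3 := var_bound (hH L) ((X ω) ^ j) (K_pow _ hK j) v hv
    rw [hg]
    unfold Xq D
    rw [Fintype.card_fin]
    exact h3
  have hint3 : Integrable (fun ω => ∫ y, g (X ω, y) ∂(Pm.map (S L))) Pm := by
    have := hint2.integral_prod_left
    exact (integrable_map_measure hsm.aestronglyMeasurable hXm.aemeasurable).mp this
  calc ∫ ω, ∫ y, g (X ω, y) ∂(Pm.map (S L)) ∂Pm ≤ ∫ ω, (1 / N : ℝ) ∂Pm :=
        integral_mono_ae hint3 (integrable_const _) hbd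
    _ = 1 / N := by simp

/-- error functional -/
noncomputable def err (P : Matrix (Fin N) (Fin N) ℂ) (S : ℕ → Ω → Matrix (Fin N) (Fin N) ℂ) (Q L : ℕ) (ω : Ω) : ℝ :=
  ∑ p ∈ range (Q + 1), (D p (Ms P (fun i => S i ω) L) - mm p ((L : ℝ) / N)) ^ 2

lemma err_nonneg (P : Matrix (Fin N) (Fin N) ℂ) (S : ℕ → Ω → Matrix (Fin N) (Fin N) ℂ) (Q L : ℕ) (ω : Ω) :
    0 ≤ err P S Q L ω := sum_nonneg fun _ _ => sq_nonneg _

lemma err_meas (P : Matrix (Fin N) (Fin N) ℂ) (S : ℕ → Ω → Matrix (Fin N) (Fin N) ℂ) (hS : ∀ i, Measurable (S i))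
    (Q L : ℕ) : Measurable (err P S Q L) := by
  unfold err
  refine Finset.measurable_sum _ fun p _ => ?_
  exact (((D_cont p).measurable.comp (Ms_meas P S hS L)).sub_const _).pow_const 2

lemma err_intg [NeZero N] [IsProbabilityMeasure Pm] (v : Fin N → ℂ) (hv : star v ⬝ᵥ v = 1)
    (S : ℕ → Ω → Matrix (Fin N) (Fin N) ℂ) (hS : ∀ i, Measurable (S i)) (hH : ∀ i, IsHaar (Pm.map (S i)))
    (Q L : ℕ) : Integrable (err (1 - rk v) S Q L) Pm := by
  haveI : Nonempty (Fin N) := ⟨⟨0, Nat.pos_of_ne_zero (NeZero.ne N)⟩⟩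
  refine Integrable.of_bound (err_meas _ S hS Q L).aestronglyMeasurable ((Q + 1) * 4) ?_
  filter_upwards [ae_unit S hS hH] with ω hω
  have hK := Ms_K v hv _ hω L
  rw [Real.norm_eq_abs, abs_of_nonneg (err_nonneg _ S Q L ω)]
  unfold err
  calc ∑ p ∈ range (Q + 1), (D p (Ms (1 - rk v) (fun i => S i ω) L) - mm p ((L : ℝ) / N)) ^ 2
      ≤ ∑ p ∈ range (Q + 1), (4 : ℝ) := by
        apply sum_le_sum
        intro p _
        have h1 := abs_le.mp (D_bound _ hK p)
        have h2 := abs_le.mp (mm_abs p ((L : ℝ) / N) (by positivity))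
        nlinarith [h1.1, h1.2, h2.1, h2.2]
    _ = _ := by rw [sum_const, card_range, nsmul_eq_mul]; push_cast; ring

end process

end Pool.Agent.V11276.HU
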