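import Pool.Agent.V11276.HU8

namespace Pool.Agent.V11276.HU

open Finset Matrix MeasureTheory ProbabilityTheory

universe u

lemma D_one {N : ℕ} [NeZero N] (p : ℕ) : D p (1 : Matrix (Fin N) (Fin N) ℂ) = 1 := by
  haveI : Nonempty (Fin N) := ⟨⟨0, Nat.pos_of_ne_zero (NeZero.ne N)⟩⟩
  have := D_zero (1 : Matrix (Fin N) (Fin N) ℂ)
  unfold D at *
  rw [one_pow]
  rwa [pow_zero] at this

lemma mm_zero_t (p : ℕ) : mm p 0 = 1 := by
  unfold mm
  split_ifs with h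
  · rfl
  · exact mom_zero p (by omega)

lemma err_zero {N : ℕ} [NeZero N] {Ω : Type*} (P : Matrix (Fin N) (Fin N) ℂ)
    (S : ℕ → Ω → Matrix (Fin N) (Fin N) ℂ) (Q : ℕ) (ω : Ω) : err P S Q 0 ω = 0 := by
  unfold err
  apply sum_eq_zero
  intro p _
  rw [Ms_zero, D_one, Nat.cast_zero, zero_div, mm_zero_t]
  norm_num

lemma rec_bound (c h : ℝ) (hc : 0 ≤ c) (hh : 0 ≤ h) (e : ℕ → ℝ) (h0 : e 0 ≤ 0)
    (hs : ∀ L, e (L + 1) ≤ (1 + c * h) * e L + c * h ^ 2) (L : ℕ) :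
    e L ≤ c * h ^ 2 * L * Real.exp (c * h * L) := by
  induction L with
  | zero => simpa using h0
  | succ L ih =>
    have h1 : 1 + c * h ≤ Real.exp (c * h) := by
      have := Real.add_one_le_exp (c * h); linarith
    have h2 : (0 : ℝ) ≤ c * h := mul_nonneg hc hh
    have h3 : Real.exp (c * h * ((L + 1 : ℕ) : ℝ)) = Real.exp (c * h) * Real.exp (c * h * L) := by
      rw [← Real.exp_add]; congr 1; push_cast; ring
    have h4 : 1 ≤ Real.exp (c * h * ((L + 1 : ℕ) : ℝ)) := Real.one_le_exp (mul_nonneg h2 (Nat.cast_nonneg _))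
    have h5 : 0 ≤ c * h ^ 2 := by positivity
    have h6 : 0 ≤ c * h ^ 2 * L * Real.exp (c * h * L) := by positivity
    calc e (L + 1) ≤ (1 + c * h) * e L + c * h ^ 2 := hs L
      _ ≤ (1 + c * h) * (c * h ^ 2 * L * Real.exp (c * h * L)) + c * h ^ 2 := by
          have := mul_le_mul_of_nonneg_left ih (show 0 ≤ 1 + c * h by linarith)
          linarith
      _ ≤ Real.exp (c * h) * (c * h ^ 2 * L * Real.exp (c * h * L)) + c * h ^ 2 * Real.exp (c * h * ((L + 1 : ℕ) : ℝ)) := by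
          have e1 := mul_le_mul_of_nonneg_right h1 h6
          have e2 := mul_le_mul_of_nonneg_left h4 h5
          linarith
      _ = c * h ^ 2 * ((L + 1 : ℕ) : ℝ) * Real.exp (c * h * ((L + 1 : ℕ) : ℝ)) := by
          rw [h3]; push_cast; ring

lemma main_bound (Q : ℕ) : ∃ c : ℝ, 0 ≤ c ∧ ∀ (N : ℕ) [NeZero N] (Ω : Type u) [MeasurableSpace Ω] (Pm : Measure Ω)
    [IsProbabilityMeasure Pm] (v : Fin N → ℂ) (S : ℕ → Ω → Matrix (Fin N) (Fin N) ℂ),
    star v ⬝ᵥ v = 1 → (∀ i, Measurable (S i)) → iIndepFun S Pm → (∀ i, IsHaar (Pm.map (S i))) → ∀ L : ℕ,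
    ∫ ω, err (1 - rk v) S Q L ω ∂Pm ≤ c * (1 / N) ^ 2 * L * Real.exp (c * (1 / N) * L) := by
  obtain ⟨C, hC, h⟩ := det_step Q
  refine ⟨C * (Q + 2), by positivity, ?_⟩
  intro N _ Ω _ Pm _ v S hv hS hI hH L
  have hN : (0 : ℝ) < N := by exact_mod_cast Nat.pos_of_ne_zero (NeZero.ne N)
  have hN1 : (1 : ℝ) ≤ N := by exact_mod_cast Nat.pos_of_ne_zero (NeZero.ne N)
  have hcN : (0 : ℝ) ≤ 1 / N := by positivity
  have hc1 : (1 / N : ℝ) ≤ 1 := by rw [div_le_one hN]; exact hN1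
  refine rec_bound (C * (Q + 2)) (1 / N) (by positivity) hcN (fun L => ∫ ω, err (1 - rk v) S Q L ω ∂Pm) ?_ ?_ L
  · simp only [err_zero]
    simp
  · intro L
    show ∫ ω, err (1 - rk v) S Q (L + 1) ω ∂Pm ≤ (1 + C * (Q + 2) * (1 / N)) * ∫ ω, err (1 - rk v) S Q L ω ∂Pm +
      C * (Q + 2) * (1 / N) ^ 2
    have hV : ∀ j ∈ range (Q + 1), Integrable (fun ω => (Xq v (Ms (1 - rk v) (fun i => S i ω) L) (S L ω) j -
      D j (Ms (1 - rk v) (fun i => S i ω) L)) ^ 2) Pm := fun j _ => (step_var v hv S hS hI hH L j).1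
    have hpt : ∀ᵐ ω ∂Pm, err (1 - rk v) S Q (L + 1) ω ≤ (1 + C * (1 / N)) * err (1 - rk v) S Q L ω +
        C * (1 / N) * ∑ j ∈ range (Q + 1), (Xq v (Ms (1 - rk v) (fun i => S i ω) L) (S L ω) j -
      D j (Ms (1 - rk v) (fun i => S i ω) L)) ^ 2 + C * (1 / N) ^ 3 := by
      filter_upwards [ae_unit S hS hH] with ω hω
      have h1 := h N v (Ms (1 - rk v) (fun i => S i ω) L) (S L ω) ((L : ℝ) / N) hv (Ms_K v hv _ hω L) (hω L)
        (by positivity)
      unfold err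
      rw [Ms_succ _ (P_herm v)]
      have e : (L : ℝ) / N + 1 / N = ((L + 1 : ℕ) : ℝ) / N := by push_cast; ring
      rw [e] at h1
      exact h1
    have hi1 := err_intg v hv S hS hH Q L
    have hi2 := integrable_finset_sum (range (Q + 1)) hV
    have hle := integral_mono_ae (err_intg v hv S hS hH Q (L + 1))
      (((hi1.const_mul (1 + C * (1 / N))).add (hi2.const_mul (C * (1 / N)))).add (integrable_const (C * (1 / N) ^ 3))) hpt
    refine hle.trans ?_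
    rw [integral_add' ((hi1.const_mul (1 + C * (1 / N))).add (hi2.const_mul (C * (1 / N)))) (integrable_const _),
      integral_add' (hi1.const_mul (1 + C * (1 / N))) (hi2.const_mul (C * (1 / N)))]
    rw [integral_const_mul, integral_const_mul, integral_finset_sum _ hV]
    have hsum : ∑ j ∈ range (Q + 1), ∫ ω, (Xq v (Ms (1 - rk v) (fun i => S i ω) L) (S L ω) j -
      D j (Ms (1 - rk v) (fun i => S i ω) L)) ^ 2 ∂Pm ≤ (Q + 1) * (1 / N) := by
      calc _ ≤ ∑ j ∈ range (Q + 1), (1 / N : ℝ) := sum_le_sum fun j _ => (step_var v hv S hS hI hH L j).2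
        _ = _ := by rw [sum_const, card_range, nsmul_eq_mul]; push_cast; ring
    have hcst : ∫ ω, C * (1 / N : ℝ) ^ 3 ∂Pm = C * (1 / N) ^ 3 := by simp
    rw [hcst]
    have he0 : 0 ≤ ∫ ω, err (1 - rk v) S Q L ω ∂Pm := integral_nonneg fun ω => err_nonneg _ S Q L ω
    obtain ⟨E, hE⟩ : ∃ E, E = ∫ ω, err (1 - rk v) S Q L ω ∂Pm := ⟨_, rfl⟩
    rw [← hE] at he0 ⊢
    obtain ⟨η, hη⟩ : ∃ η : ℝ, η = 1 / N := ⟨_, rfl⟩
    rw [← hη] at hsum hcN hc1 ⊢
    obtain ⟨Sg, hSg⟩ : ∃ x, x = ∑ j ∈ range (Q + 1), ∫ ω, (Xq v (Ms (1 - rk v) (fun i => S i ω) L) (S L ω) j -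
      D j (Ms (1 - rk v) (fun i => S i ω) L)) ^ 2 ∂Pm := ⟨_, rfl⟩
    rw [← hSg] at hsum ⊢
    have hQ : (0 : ℝ) ≤ Q := Nat.cast_nonneg Q
    have a1 : C * η * Sg ≤ C * η * ((Q + 1) * η) := mul_le_mul_of_nonneg_left hsum (mul_nonneg hC hcN)
    have a2 : C * η ^ 3 ≤ C * η ^ 2 := by
      apply mul_le_mul_of_nonneg_left _ hC
      nlinarith [sq_nonneg η, mul_nonneg (sq_nonneg η) (sub_nonneg.mpr hc1)]
    have a3 : C * η * E ≤ C * (Q + 2) * η * E := by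
      have : C * (Q + 2) * η * E = C * η * E + (Q + 1) * (C * η * E) := by ring
      rw [this]
      have : 0 ≤ (Q + 1) * (C * η * E) := mul_nonneg (by linarith) (mul_nonneg (mul_nonneg hC hcN) he0)
      linarith
    show (1 + C * η) * E + C * η * Sg + C * η ^ 3 ≤ (1 + C * (Q + 2) * η) * E + C * (Q + 2) * η ^ 2
    nlinarith [a1, a2, a3]

end Pool.Agent.V11276.HU
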