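import Mathlib

/-! 2-adic integrality of quotients of Gauss hypergeometric series: basic tools. -/

namespace Pool.Agent.V11276.HypQuot

open PowerSeries

/-- The rational numbers with odd denominator. -/
def Z2 : Subring ℚ where
  carrier := {q | ¬ 2 ∣ q.den}
  mul_mem' := by
    intro a b ha hb h
    have h1 := dvd_trans h (Rat.mul_den_dvd a b)
    rcases (Nat.prime_two.dvd_mul).1 h1 with h | h
    · exact ha h
    · exact hb h
  one_mem' := by
    show ¬ 2 ∣ (1 : ℚ).den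
    simp
  add_mem' := by
    intro a b ha hb h
    have h1 := dvd_trans h (Rat.add_den_dvd a b)
    rcases (Nat.prime_two.dvd_mul).1 h1 with h | h
    · exact ha h
    · exact hb h
  zero_mem' := by
    show ¬ 2 ∣ (0 : ℚ).den
    simp
  neg_mem' := by
    intro a ha
    show ¬ 2 ∣ (-a).den
    simpa using ha

theorem mem_Z2 {q : ℚ} : q ∈ Z2 ↔ ¬ 2 ∣ q.den := Iff.rfl

theorem inv_odd_mem {k : ℤ} (hk : Odd k) : ((k : ℚ))⁻¹ ∈ Z2 := by
  rw [mem_Z2]
  intro h
  have h1 : (k : ℚ)⁻¹ = Rat.divInt 1 k := by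
    rw [Rat.divInt_eq_div]; simp
  rw [h1] at h
  have h2 := Rat.den_dvd 1 k
  have h3 : (2 : ℤ) ∣ k := dvd_trans (by exact_mod_cast h) h2
  rcases hk with ⟨m, hm⟩
  omega

theorem inv_odd_mem_nat {k : ℕ} (hk : Odd k) : ((k : ℚ))⁻¹ ∈ Z2 := by
  have := inv_odd_mem (k := (k : ℤ)) (by exact_mod_cast hk)
  simpa using this

theorem div_odd_mem {k : ℤ} (hk : Odd k) {q : ℚ} (hq : q ∈ Z2) : q / k ∈ Z2 := by
  rw [div_eq_mul_inv]
  exact Z2.mul_mem hq (inv_odd_mem hk)

theorem of_odd_mul_mem {k : ℤ} (hk : Odd k) {q : ℚ} (hq : (k : ℚ) * q ∈ Z2) : q ∈ Z2 := by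
  have hk0 : (k : ℚ) ≠ 0 := by
    rcases hk with ⟨m, hm⟩
    have : k ≠ 0 := by omega
    exact_mod_cast this
  have h := div_odd_mem hk hq
  rwa [mul_comm, mul_div_assoc, div_self hk0, mul_one] at h

/-- power series with coefficients of odd denominator -/
def Z2S : Subring ℚ⟦X⟧ where
  carrier := {f | ∀ n, coeff n f ∈ Z2}
  mul_mem' := by
    intro a b ha hb n
    rw [coeff_mul]
    exact Z2.sum_mem fun x _ => Z2.mul_mem (ha _) (hb _)
  one_mem' := by
    intro n
    rw [coeff_one]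
    split_ifs
    · exact Z2.one_mem
    · exact Z2.zero_mem
  add_mem' := by
    intro a b ha hb n
    rw [map_add]
    exact Z2.add_mem (ha n) (hb n)
  zero_mem' := by
    intro n
    simp
  neg_mem' := by
    intro a ha n
    rw [map_neg]
    exact Z2.neg_mem (ha n)

theorem mem_Z2S {f : ℚ⟦X⟧} : f ∈ Z2S ↔ ∀ n, coeff n f ∈ Z2 := Iff.rfl

theorem X_mem : (X : ℚ⟦X⟧) ∈ Z2S := by
  intro n
  rw [coeff_X]
  split_ifs
  · exact Z2.one_mem
  · exact Z2.zero_mem

theorem C_mem {q : ℚ} (hq : q ∈ Z2) : (C q : ℚ⟦X⟧) ∈ Z2S := by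
  intro n
  rw [coeff_C]
  split_ifs
  · exact hq
  · exact Z2.zero_mem

theorem inv_mem {f : ℚ⟦X⟧} (hf : f ∈ Z2S) (h1 : constantCoeff f = 1) : f⁻¹ ∈ Z2S := by
  intro n
  induction n using Nat.strong_induction_on with
  | _ n ih =>
    rw [PowerSeries.coeff_inv]
    split_ifs with h
    · rw [h1]; simp
    · rw [h1]
      refine Z2.mul_mem (by simp) (Z2.sum_mem fun x _ => ?_)
      split_ifs with h2
      · exact Z2.mul_mem (hf _) (ih _ h2)
      · exact Z2.zero_mem

/-- the Euler operator -/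
noncomputable def th (f : ℚ⟦X⟧) : ℚ⟦X⟧ := X * derivative ℚ f

theorem coeff_th (f : ℚ⟦X⟧) (n : ℕ) : coeff n (th f) = n * coeff n f := by
  unfold th
  cases n with
  | zero => simp
  | succ n =>
    rw [coeff_succ_X_mul, coeff_derivative]
    push_cast
    ring

theorem th_add (f g : ℚ⟦X⟧) : th (f + g) = th f + th g := by
  unfold th; rw [map_add]; ring

theorem th_sub (f g : ℚ⟦X⟧) : th (f - g) = th f - th g := by
  unfold th; rw [map_sub]; ring

theorem th_mul (f g : ℚ⟦X⟧) : th (f * g) = th f * g + f * th g := by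
  unfold th
  rw [Derivation.leibniz, smul_eq_mul, smul_eq_mul]; ring

theorem th_C (q : ℚ) : th (C q) = 0 := by
  unfold th; rw [derivative_C]; ring

theorem th_one : th 1 = 0 := by
  have := th_C 1
  simpa using this

theorem th_ofNat (n : ℕ) [n.AtLeastTwo] : th (OfNat.ofNat n : ℚ⟦X⟧) = 0 := by
  have := th_C (OfNat.ofNat n : ℚ)
  rwa [map_ofNat] at this

theorem th_X : th X = X := by
  unfold th; rw [derivative_X]; ring

theorem th_pow (f : ℚ⟦X⟧) (n : ℕ) : th (f ^ n) = n * f ^ (n - 1) * th f := by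
  unfold th
  rw [derivative_pow]; ring

theorem th_mem {f : ℚ⟦X⟧} (hf : f ∈ Z2S) : th f ∈ Z2S := by
  intro n
  rw [coeff_th]
  exact Z2.mul_mem (by exact_mod_cast natCast_mem Z2 n) (hf n)

theorem eq_C_of_th_eq_zero {f : ℚ⟦X⟧} (h : th f = 0) : f = C (constantCoeff f) := by
  ext n
  rw [coeff_C]
  split_ifs with hn
  · subst hn; simp
  · have := congrArg (coeff n) h
    rw [coeff_th] at this
    simp at this
    rcases this with h | h
    · exact absurd h hn
    · exact h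

theorem th_subst {f g : ℚ⟦X⟧} (hg : HasSubst g) :
    th (f.subst g) = (derivative ℚ f).subst g * th g := by
  unfold th
  rw [derivative_subst hg]; ring

/-- truncated integrality -/
def IU (n : ℕ) (f : ℚ⟦X⟧) : Prop := ∀ m < n, coeff m f ∈ Z2

theorem IU.mul {n : ℕ} {f g : ℚ⟦X⟧} (hf : IU n f) (hg : IU n g) : IU n (f * g) := by
  intro m hm
  rw [coeff_mul]
  refine Z2.sum_mem fun x hx => Z2.mul_mem (hf _ ?_) (hg _ ?_)
  · have := Finset.HasAntidiagonal.mem_antidiagonal.1 hx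
    omega
  · have := Finset.HasAntidiagonal.mem_antidiagonal.1 hx
    omega

theorem IU.add {n : ℕ} {f g : ℚ⟦X⟧} (hf : IU n f) (hg : IU n g) : IU n (f + g) := by
  intro m hm
  rw [map_add]
  exact Z2.add_mem (hf m hm) (hg m hm)

theorem IU.sub {n : ℕ} {f g : ℚ⟦X⟧} (hf : IU n f) (hg : IU n g) : IU n (f - g) := by
  intro m hm
  rw [map_sub]
  exact Z2.sub_mem (hf m hm) (hg m hm)

theorem IU.th {n : ℕ} {f : ℚ⟦X⟧} (hf : IU n f) : IU n (th f) := by
  intro m hm
  rw [coeff_th]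
  exact Z2.mul_mem (by exact_mod_cast natCast_mem Z2 m) (hf m hm)

theorem IU.of_mem {f : ℚ⟦X⟧} (hf : f ∈ Z2S) (n : ℕ) : IU n f := fun m _ => hf m

theorem IU.X_mul {n : ℕ} {f : ℚ⟦X⟧} (hf : IU n f) : IU (n + 1) (X * f) := by
  intro m hm
  cases m with
  | zero => simp
  | succ m =>
    rw [coeff_succ_X_mul]
    exact hf m (by omega)

end Pool.Agent.V11276.HypQuot
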