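import Pool.Agent.V11276.HypA

/-! 2-adic integrality of quotients of Gauss hypergeometric series: the series. -/

namespace Pool.Agent.V11276.HypQuot

open PowerSeries

/-- `2F1(al, be; ga; 4 t)` -/
noncomputable def F (al be ga : ℚ) : ℚ⟦X⟧ :=
  mk fun n => (ascPochhammer ℚ n).eval al * (ascPochhammer ℚ n).eval be /
    ((ascPochhammer ℚ n).eval ga * n.factorial) * 4 ^ n

theorem coeff_F (al be ga : ℚ) (n : ℕ) :
    coeff n (F al be ga) = (ascPochhammer ℚ n).eval al * (ascPochhammer ℚ n).eval be /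
    ((ascPochhammer ℚ n).eval ga * n.factorial) * 4 ^ n := by
  unfold F; rw [coeff_mk]

theorem const_F (al be ga : ℚ) : constantCoeff (F al be ga) = 1 := by
  rw [← coeff_zero_eq_constantCoeff_apply, coeff_F]; simp

theorem poch_ne {ga : ℚ} (h : ∀ n : ℕ, ga + n ≠ 0) (n : ℕ) :
    (ascPochhammer ℚ n).eval ga ≠ 0 := by
  induction n with
  | zero => simp
  | succ n ih =>
    rw [ascPochhammer_succ_eval]
    exact mul_ne_zero ih (h n)

theorem poch_shift (x : ℚ) (n : ℕ) :
    x * (ascPochhammer ℚ n).eval (x + 1) = (ascPochhammer ℚ n).eval x * (x + n) := by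
  induction n with
  | zero => simp
  | succ n ih =>
    rw [ascPochhammer_succ_eval, ascPochhammer_succ_eval]
    push_cast
    linear_combination (x + 1 + n) * ih

theorem F_rec {al be ga : ℚ} (h : ∀ n : ℕ, ga + n ≠ 0) (n : ℕ) :
    ((n : ℚ) + 1) * (ga + n) * coeff (n + 1) (F al be ga) =
      4 * (al + n) * (be + n) * coeff n (F al be ga) := by
  rw [coeff_F, coeff_F, ascPochhammer_succ_eval, ascPochhammer_succ_eval,
    ascPochhammer_succ_eval, Nat.factorial_succ]
  have h1 := poch_ne h n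
  have h2 := h n
  have h3 : ((n : ℚ) + 1) ≠ 0 := by positivity
  have h4 : ((n.factorial : ℕ) : ℚ) ≠ 0 := by exact_mod_cast Nat.factorial_ne_zero n
  push_cast
  field_simp
  ring

theorem const_th (f : ℚ⟦X⟧) : constantCoeff (th f) = 0 := by
  rw [← coeff_zero_eq_constantCoeff_apply, coeff_th]; simp

theorem F_ode {al be ga : ℚ} (h : ∀ n : ℕ, ga + n ≠ 0) :
    th (th (F al be ga)) + C (ga - 1) * th (F al be ga) =
      X * (4 * (th (th (F al be ga)) + C (al + be) * th (F al be ga) +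
        C (al * be) * F al be ga)) := by
  ext n
  cases n with
  | zero => simp [const_th]
  | succ n =>
    rw [coeff_succ_X_mul]
    have e4 : (4 : ℚ⟦X⟧) = C 4 := (map_ofNat C 4).symm
    obtain ⟨s, hs⟩ : ∃ s, s = al + be := ⟨_, rfl⟩
    rw [e4, ← hs]
    simp only [map_add, coeff_C_mul, coeff_th]
    have := F_rec (al := al) (be := be) h n
    rw [hs]
    push_cast
    linear_combination this

theorem F_al {al be ga : ℚ} :
    C al * F (al + 1) be ga = C al * F al be ga + th (F al be ga) := by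
  ext n
  simp only [map_add, coeff_C_mul, coeff_th, coeff_F]
  have := poch_shift al n
  rw [div_mul_eq_mul_div, div_mul_eq_mul_div, ← mul_div_assoc, ← mul_div_assoc,
    ← mul_div_assoc, ← add_div]
  congr 1
  linear_combination (ascPochhammer ℚ n).eval be * 4 ^ n * this

theorem F_symm {al be ga : ℚ} : F al be ga = F be al ga := by
  ext n
  rw [coeff_F, coeff_F, mul_comm ((ascPochhammer ℚ n).eval al)]

theorem F_ga {al be ga : ℚ} (h : ∀ n : ℕ, ga + n ≠ 0) :
    C ga * F al be ga = C ga * F al be (ga + 1) + th (F al be (ga + 1)) := by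
  ext n
  simp only [map_add, coeff_C_mul, coeff_th, coeff_F]
  have h0 := poch_shift ga n
  have h1 := poch_ne h n
  have h2 : (ascPochhammer ℚ n).eval (ga + 1) ≠ 0 :=
    poch_ne (fun m => by have := h (m + 1); push_cast at this; intro h'; apply this; linarith) n
  have h4 : ((n.factorial : ℕ) : ℚ) ≠ 0 := by exact_mod_cast Nat.factorial_ne_zero n
  have h5 : ga ≠ 0 := by simpa using h 0
  field_simp
  linear_combination (ascPochhammer ℚ n).eval al * (ascPochhammer ℚ n).eval be * h0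

/-- twice the logarithmic derivative -/
noncomputable def y (f : ℚ⟦X⟧) : ℚ⟦X⟧ := 2 * derivative ℚ f * f⁻¹

theorem y_spec {f : ℚ⟦X⟧} (hf : constantCoeff f = 1) : 2 * th f = X * y f * f := by
  unfold y th
  have := PowerSeries.inv_mul_cancel f (by rw [hf]; exact one_ne_zero)
  linear_combination (-(X * 2 * derivative ℚ f)) * this

/-- Riccati -/
theorem y_riccati {A B G : ℚ} (h : ∀ n : ℕ, G / 2 + n ≠ 0) :
    C G * y (F (A / 4) (B / 4) (G / 2)) + 2 * th (y (F (A / 4) (B / 4) (G / 2))) =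
      C (A * B) + X * (8 * y (F (A / 4) (B / 4) (G / 2)) +
        8 * th (y (F (A / 4) (B / 4) (G / 2))) + 4 * (X * (y (F (A / 4) (B / 4) (G / 2))) ^ 2) +
        2 * C (A + B) * y (F (A / 4) (B / 4) (G / 2)) - y (F (A / 4) (B / 4) (G / 2)) ^ 2) := by
  have hode := F_ode (al := A / 4) (be := B / 4) h
  have h1 := const_F (A / 4) (B / 4) (G / 2)
  generalize F (A / 4) (B / 4) (G / 2) = f at *
  have hy := y_spec h1
  generalize y f = w at *
  have hf0 : f ≠ 0 := by
    intro h0; rw [h0] at h1; simp at h1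
  have h2 := congrArg th hy
  rw [th_mul, th_ofNat, th_mul, th_mul, th_X] at h2
  -- 4 th th f
  have e1 : C (G / 2 - 1) * 2 = (C G - 2 : ℚ⟦X⟧) := by
    have : (2 : ℚ⟦X⟧) = C 2 := (map_ofNat C 2).symm
    rw [this, ← map_mul, ← map_sub]; congr 1; ring
  have e2 : C (A / 4 + B / 4) * 4 = (C (A + B) : ℚ⟦X⟧) := by
    have : (4 : ℚ⟦X⟧) = C 4 := (map_ofNat C 4).symm
    rw [this, ← map_mul]; congr 1; ring
  have e3 : C (A / 4 * (B / 4)) * 16 = (C (A * B) : ℚ⟦X⟧) := by
    have : (16 : ℚ⟦X⟧) = C 16 := (map_ofNat C 16).symm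
    rw [this, ← map_mul]; congr 1; ring
  have hX : (X : ℚ⟦X⟧) ≠ 0 := X_ne_zero
  apply mul_left_cancel₀ (mul_ne_zero hX hf0)
  set a := C (G / 2 - 1) with ha
  set b := (C (A / 4 + B / 4) : ℚ⟦X⟧) with hb
  set c := (C (A / 4 * (B / 4)) : ℚ⟦X⟧) with hc
  rw [← e2, ← e3]
  have e1' : C G = a * 2 + 2 := by rw [e1]; ring
  rw [e1']
  linear_combination (4 : ℚ⟦X⟧) * hode + (8 * X * 1 - 2) * h2 + (X * w * (4 * X - 1) + 8 * X * b - 2 * a) * hy

end Pool.Agent.V11276.HypQuot
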