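import Pool.Agent.V11276.HypB

/-! 2-adic integrality of quotients of Gauss hypergeometric series: contiguous functions. -/

namespace Pool.Agent.V11276.HypQuot

open PowerSeries

theorem ga_ne {G : ℤ} (hG : Odd G) (n : ℕ) : (G : ℚ) / 2 + n ≠ 0 := by
  intro h
  have h1 : (G : ℚ) = -(2 * n : ℤ) := by push_cast; linarith
  have h2 : G = -(2 * n : ℤ) := by exact_mod_cast h1
  rcases hG with ⟨m, hm⟩
  omega

theorem int_mem (k : ℤ) : (k : ℚ) ∈ Z2 := by exact_mod_cast intCast_mem Z2 k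

theorem ofNat_memS (n : ℕ) [n.AtLeastTwo] : (OfNat.ofNat n : ℚ⟦X⟧) ∈ Z2S := by
  have := C_mem (int_mem (OfNat.ofNat n : ℤ))
  have h : ((OfNat.ofNat n : ℤ) : ℚ) = OfNat.ofNat n := by norm_cast
  rw [h, map_ofNat] at this
  exact this

theorem y_mem {A B G : ℤ} (hG : Odd G) : y (F (A / 4) (B / 4) (G / 2)) ∈ Z2S := by
  have hr := y_riccati (A := A) (B := B) (ga_ne hG)
  generalize y (F (A / 4) (B / 4) (G / 2)) = w at *
  have key : ∀ n, IU n w := by
    intro n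
    induction n with
    | zero => intro m hm; omega
    | succ n ih =>
      intro m hm
      rcases Nat.lt_succ_iff_lt_or_eq.1 hm with h | h
      · exact ih m h
      subst h
      have i8 : IU m (8 : ℚ⟦X⟧) := IU.of_mem (ofNat_memS 8) m
      have i4 : IU m (4 : ℚ⟦X⟧) := IU.of_mem (ofNat_memS 4) m
      have i2 : IU m (2 : ℚ⟦X⟧) := IU.of_mem (ofNat_memS 2) m
      have iX : IU m (X : ℚ⟦X⟧) := IU.of_mem X_mem m
      have iC : IU m (C ((A : ℚ) + B) : ℚ⟦X⟧) :=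
        IU.of_mem (C_mem (Z2.add_mem (int_mem A) (int_mem B))) m
      have iw2 : IU m (w ^ 2) := by rw [sq]; exact ih.mul ih
      have ir : IU (m + 1) (C ((A : ℚ) * B) + X * (8 * w +
        8 * th w + 4 * (X * w ^ 2) +
        2 * C ((A : ℚ) + B) * w - w ^ 2)) := by
        refine IU.add (IU.of_mem (C_mem (Z2.mul_mem (int_mem A) (int_mem B))) _) (IU.X_mul ?_)
        exact ((((i8.mul ih).add (i8.mul ih.th)).add (i4.mul (iX.mul iw2))).add
          ((i2.mul iC).mul ih)).sub iw2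
      rw [← hr] at ir
      have h1 := ir m (by omega)
      have e2 : (2 : ℚ⟦X⟧) = C 2 := (map_ofNat C 2).symm
      rw [e2, map_add, coeff_C_mul, coeff_C_mul, coeff_th] at h1
      refine of_odd_mul_mem (k := G + 2 * m) ?_ ?_
      · rcases hG with ⟨k, hk⟩
        exact ⟨k + m, by omega⟩
      · push_cast
        have : ((G : ℚ) + 2 * m) * coeff m w = G * coeff m w + 2 * (m * coeff m w) := by ring
        rw [this]
        exact h1
  intro n
  exact key (n + 1) n (by omega)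

/-- equality up to a 2-integral unit -/
def UEq (f g : ℚ⟦X⟧) : Prop := ∃ u ∈ Z2S, constantCoeff u = 1 ∧ f = u * g

theorem UEq.refl (f : ℚ⟦X⟧) : UEq f f := ⟨1, Z2S.one_mem, by simp, by simp⟩

theorem UEq.symm {f g : ℚ⟦X⟧} (h : UEq f g) : UEq g f := by
  obtain ⟨u, hu, h1, rfl⟩ := h
  refine ⟨u⁻¹, inv_mem hu h1, ?_, ?_⟩
  · rw [PowerSeries.constantCoeff_inv, h1]; simp
  · rw [← mul_assoc, PowerSeries.inv_mul_cancel u (by rw [h1]; exact one_ne_zero), one_mul]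

theorem UEq.trans {f g h : ℚ⟦X⟧} (h1 : UEq f g) (h2 : UEq g h) : UEq f h := by
  obtain ⟨u, hu, hu1, rfl⟩ := h1
  obtain ⟨v, hv, hv1, rfl⟩ := h2
  refine ⟨u * v, Z2S.mul_mem hu hv, ?_, ?_⟩
  · rw [map_mul, hu1, hv1]; simp
  · rw [mul_assoc]

theorem UEq_al {A B G : ℤ} (hA : Odd A) (hG : Odd G) :
    UEq (F ((A + 4 : ℤ) / 4) (B / 4) (G / 2)) (F (A / 4) (B / 4) (G / 2)) := by
  have h0 := F_al (al := (A : ℚ) / 4) (be := B / 4) (ga := G / 2)
  have h1 := const_F ((A : ℚ) / 4) (B / 4) (G / 2)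
  have hy := y_spec h1
  have hm := y_mem (A := A) (B := B) hG
  have e : (((A + 4 : ℤ) : ℚ)) / 4 = (A : ℚ) / 4 + 1 := by push_cast; ring
  rw [e]
  have hA0 : (A : ℚ) ≠ 0 := by
    rcases hA with ⟨m, hm⟩
    have : A ≠ 0 := by omega
    exact_mod_cast this
  refine ⟨1 + C (2 * (A : ℚ)⁻¹) * (X * y (F (A / 4) (B / 4) (G / 2))), ?_, ?_, ?_⟩
  · exact Z2S.add_mem Z2S.one_mem (Z2S.mul_mem
      (C_mem (Z2.mul_mem (by exact_mod_cast int_mem 2) (inv_odd_mem hA)))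
      (Z2S.mul_mem X_mem hm))
  · simp
  · have e1 : (C (4 * (A : ℚ)⁻¹) * C ((A : ℚ) / 4) : ℚ⟦X⟧) = 1 := by
      rw [← map_mul, ← map_one C]; congr 1; field_simp
    have e2 : (C (4 * (A : ℚ)⁻¹) : ℚ⟦X⟧) = 2 * C (2 * (A : ℚ)⁻¹) := by
      have : (2 : ℚ⟦X⟧) = C 2 := (map_ofNat C 2).symm
      rw [this, ← map_mul]; congr 1; ring
    generalize y (F (A / 4) (B / 4) (G / 2)) = w at *
    generalize F (A / 4) (B / 4) (G / 2) = f at *
    generalize F (A / 4 + 1) (B / 4) (G / 2) = f' at *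
    linear_combination (-f' + f) * e1 + (C (4 * (A : ℚ)⁻¹)) * h0 + C (2 * (A : ℚ)⁻¹) * hy +
      th f * e2

theorem UEq_be {A B G : ℤ} (hB : Odd B) (hG : Odd G) :
    UEq (F (A / 4) ((B + 4 : ℤ) / 4) (G / 2)) (F (A / 4) (B / 4) (G / 2)) := by
  rw [F_symm (al := (A : ℚ) / 4), F_symm (al := (A : ℚ) / 4)]
  exact UEq_al hB hG

theorem UEq_ga {A B G : ℤ} (hG : Odd G) :
    UEq (F (A / 4) (B / 4) ((G + 2 : ℤ) / 2)) (F (A / 4) (B / 4) (G / 2)) := by
  apply UEq.symm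
  have h0 := F_ga (al := (A : ℚ) / 4) (be := B / 4) (ga_ne hG)
  have e : (((G + 2 : ℤ) : ℚ)) / 2 = (G : ℚ) / 2 + 1 := by push_cast; ring
  rw [e]
  have hG' : Odd (G + 2) := by
    rcases hG with ⟨m, hm⟩
    exact ⟨m + 1, by omega⟩
  have hm := y_mem (A := A) (B := B) hG'
  rw [e] at hm
  have h1 := const_F ((A : ℚ) / 4) (B / 4) (G / 2 + 1)
  have hy := y_spec h1
  have hG0 : (G : ℚ) ≠ 0 := by
    rcases hG with ⟨m, hm⟩
    have : G ≠ 0 := by omega
    exact_mod_cast this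
  refine ⟨1 + C ((G : ℚ)⁻¹) * (X * y (F (A / 4) (B / 4) (G / 2 + 1))), ?_, ?_, ?_⟩
  · exact Z2S.add_mem Z2S.one_mem (Z2S.mul_mem
      (C_mem (inv_odd_mem hG)) (Z2S.mul_mem X_mem hm))
  · simp
  · have e1 : (C (2 * (G : ℚ)⁻¹) * C ((G : ℚ) / 2) : ℚ⟦X⟧) = 1 := by
      rw [← map_mul, ← map_one C]; congr 1; field_simp
    have e2 : (C (2 * (G : ℚ)⁻¹) : ℚ⟦X⟧) = 2 * C ((G : ℚ)⁻¹) := by
      have : (2 : ℚ⟦X⟧) = C 2 := (map_ofNat C 2).symm
      rw [this, ← map_mul]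
    generalize y (F (A / 4) (B / 4) (G / 2 + 1)) = w at *
    generalize F (A / 4) (B / 4) (G / 2 + 1) = f at *
    generalize F (A / 4) (B / 4) (G / 2) = f' at *
    linear_combination (-f' + f) * e1 + (C (2 * (G : ℚ)⁻¹)) * h0 + C ((G : ℚ)⁻¹) * hy +
      th f * e2

theorem UEq_all {A B G : ℤ} (hA : Odd A) (hB : Odd B) (hG : Odd G) (a b c : ℕ) :
    UEq (F ((A + 4 * a : ℤ) / 4) ((B + 4 * b : ℤ) / 4) ((G + 2 * c : ℤ) / 2))
      (F (A / 4) (B / 4) (G / 2)) := by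
  have oddA : ∀ a : ℕ, Odd (A + 4 * a) := fun a => by
    rcases hA with ⟨m, hm⟩
    exact ⟨m + 2 * a, by omega⟩
  have oddB : ∀ a : ℕ, Odd (B + 4 * a) := fun a => by
    rcases hB with ⟨m, hm⟩
    exact ⟨m + 2 * a, by omega⟩
  have oddG : ∀ a : ℕ, Odd (G + 2 * a) := fun a => by
    rcases hG with ⟨m, hm⟩
    exact ⟨m + a, by omega⟩
  have s1 : UEq (F ((A + 4 * a : ℤ) / 4) ((B + 4 * b : ℤ) / 4) ((G + 2 * c : ℤ) / 2))
      (F (A / 4) ((B + 4 * b : ℤ) / 4) ((G + 2 * c : ℤ) / 2)) := by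
    induction a with
    | zero => simpa using UEq.refl _
    | succ a ih =>
      refine UEq.trans ?_ ih
      have := UEq_al (B := B + 4 * b) (oddA a) (oddG c)
      have e : (A + 4 * ((a + 1 : ℕ) : ℤ)) = (A + 4 * a + 4 : ℤ) := by push_cast; ring
      rw [e]
      exact this
  have s2 : UEq (F (A / 4) ((B + 4 * b : ℤ) / 4) ((G + 2 * c : ℤ) / 2))
      (F (A / 4) (B / 4) ((G + 2 * c : ℤ) / 2)) := by
    clear s1
    induction b with
    | zero => simpa using UEq.refl _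
    | succ b ih =>
      refine UEq.trans ?_ ih
      have := UEq_be (A := A) (oddB b) (oddG c)
      have e : (B + 4 * ((b + 1 : ℕ) : ℤ)) = (B + 4 * b + 4 : ℤ) := by push_cast; ring
      rw [e]
      exact this
  have s3 : UEq (F (A / 4) (B / 4) ((G + 2 * c : ℤ) / 2))
      (F (A / 4) (B / 4) (G / 2)) := by
    clear s1 s2
    induction c with
    | zero => simpa using UEq.refl _
    | succ c ih =>
      refine UEq.trans ?_ ih
      have := UEq_ga (A := A) (B := B) (oddG c)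
      have e : (G + 2 * ((c + 1 : ℕ) : ℤ)) = (G + 2 * c + 2 : ℤ) := by push_cast; ring
      rw [e]
      exact this
  exact s1.trans (s2.trans s3)

end Pool.Agent.V11276.HypQuot
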