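import Pool.Agent.V11276.HypC

/-! 2-adic integrality of quotients of Gauss hypergeometric series: the base case. -/

namespace Pool.Agent.V11276.HypQuot

open PowerSeries

/-- Catalan series -/
noncomputable def cc : ℚ⟦X⟧ := map (Nat.castRingHom ℚ) catalanSeries

theorem cc_eq : cc ^ 2 * X + 1 = cc := by
  have := congrArg (map (Nat.castRingHom ℚ)) catalanSeries_sq_mul_X_add_one
  simpa [cc] using this

theorem cc_mem : cc ∈ Z2S := by
  intro n
  unfold cc
  rw [coeff_map]
  exact natCast_mem Z2 _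

theorem cc_const : constantCoeff cc = 1 := by
  have := congrArg constantCoeff cc_eq
  simpa using this.symm

/-- square root of `1 - 4 X` -/
noncomputable def S : ℚ⟦X⟧ := 1 - 2 * X * cc

theorem S_sq : S ^ 2 = 1 - 4 * X := by
  unfold S
  linear_combination (4 * X) * cc_eq

theorem S_const : constantCoeff S = 1 := by
  unfold S; simp

theorem S_mem : S ∈ Z2S := by
  unfold S
  exact Z2S.sub_mem Z2S.one_mem (Z2S.mul_mem (Z2S.mul_mem (ofNat_memS 2) X_mem) cc_mem)

/-- inverse square root of `1 - 4 X` -/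
noncomputable def r : ℚ⟦X⟧ := S⁻¹

theorem rS : r * S = 1 := PowerSeries.inv_mul_cancel S (by rw [S_const]; exact one_ne_zero)

theorem r_mem : r ∈ Z2S := inv_mem S_mem S_const

theorem r_const : constantCoeff r = 1 := by
  unfold r; rw [PowerSeries.constantCoeff_inv, S_const]; simp

theorem th_S : 2 * th S = S - r := by
  have h := congrArg th S_sq
  rw [th_pow, th_sub, th_one, th_mul, th_ofNat, th_X] at h
  norm_num at h
  have h2 := rS
  have h3 := S_sq
  linear_combination r * h - (2 * th S) * h2 - r * h3 + S * h2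

theorem th_r : 2 * th r = r ^ 3 - r := by
  have h := congrArg th rS
  rw [th_mul, th_one] at h
  have h2 := rS
  have h3 := th_S
  linear_combination 2 * r * h - r ^ 2 * h3 - (2 * th r) * h2 - r * h2

/-- `X^2 / (1 - 4 X)` -/
noncomputable def tau : ℚ⟦X⟧ := X ^ 2 * r ^ 2

theorem tau16 : 16 * tau = (r - S) ^ 2 := by
  unfold tau
  have h2 := rS
  have h3 := S_sq
  linear_combination (r ^ 2 * (4 * X + 1 - S ^ 2)) * h3 -
    (S * (2 * r - r * S ^ 2 - S)) * h2

theorem th_tau : th tau = tau * (r ^ 2 + 1) := by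
  have h := congrArg th tau16
  rw [th_mul, th_ofNat, th_pow, th_sub] at h
  norm_num at h
  have h1 := rS
  have h2 := th_S
  have h3 := th_r
  have h4 := tau16
  have h5 : (16 : ℚ⟦X⟧) * th tau = 16 * (tau * (r ^ 2 + 1)) := by
    linear_combination h + (r - S) * h3 - (r - S) * h2 - (r ^ 2 + 1) * h4 + (r - S) * r * h1
  have h16 : (16 : ℚ⟦X⟧) ≠ 0 := by
    intro h
    have := congrArg constantCoeff h
    rw [map_ofNat, map_zero] at this
    norm_num at this
  exact mul_left_cancel₀ h16 h5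

theorem tau_const : constantCoeff tau = 0 := by
  unfold tau; simp

theorem tau_subst : HasSubst tau := HasSubst.of_constantCoeff_zero' tau_const

/-- the odd part of the coefficients -/
noncomputable def w (n : ℕ) : ℚ :=
  ∏ j ∈ Finset.range n, (-(2 * j + 1 : ℚ) ^ 3 * ((((4 * j + 3) * (4 * j + 5) : ℕ) : ℚ))⁻¹)

theorem w_mem (n : ℕ) : w n ∈ Z2 := by
  unfold w
  refine Z2.prod_mem fun j _ => Z2.mul_mem ?_ (inv_odd_mem_nat ?_)
  · have h := int_mem (-(2 * (j : ℤ) + 1) ^ (3 : ℕ))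
    push_cast at h
    exact h
  · exact Odd.mul ⟨2 * j + 1, by ring⟩ ⟨2 * j + 2, by ring⟩

theorem two_pow_fact (n : ℕ) : (2 : ℚ) ^ n / (n + 1).factorial ∈ Z2 := by
  have h1 : ¬ (2 ^ (n + 1) ∣ (n + 1).factorial) := by
    have := Nat.emultiplicity_two_factorial_lt (n := n + 1) (by omega)
    intro h
    have := pow_dvd_iff_le_emultiplicity.1 h
    exact absurd this (not_le.2 (by assumption))
  obtain ⟨k, m, hm, hkm⟩ := Nat.exists_eq_two_pow_mul_odd (n := (n + 1).factorial)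
    (Nat.factorial_ne_zero _)
  have hk : k ≤ n := by
    by_contra hk
    apply h1
    rw [hkm]
    exact Dvd.dvd.mul_right (pow_dvd_pow 2 (by omega)) m
  obtain ⟨d, rfl⟩ := Nat.exists_eq_add_of_le hk
  have e : (2 : ℚ) ^ (k + d) / ((k + d + 1).factorial : ℕ) = 2 ^ d * (m : ℚ)⁻¹ := by
    rw [hkm]
    push_cast
    rw [pow_add]
    have h2 : (m : ℚ) ≠ 0 := by
      rcases hm with ⟨t, ht⟩
      have : m ≠ 0 := by omega
      exact_mod_cast this
    field_simp
  rw [e]
  exact Z2.mul_mem (Z2.pow_mem (by exact_mod_cast int_mem 2) _) (inv_odd_mem_nat hm)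

/-- the coefficients after rescaling -/
noncomputable def H0 : ℚ⟦X⟧ := mk fun n => 2 ^ n / n.factorial * w n

/-- `(H0 - 1) / 2` -/
noncomputable def M0 : ℚ⟦X⟧ := mk fun n => if n = 0 then 0 else 2 ^ (n - 1) / n.factorial * w n

theorem M0_mem : M0 ∈ Z2S := by
  intro n
  unfold M0
  rw [coeff_mk]
  split_ifs with h
  · exact Z2.zero_mem
  · obtain ⟨m, rfl⟩ := Nat.exists_eq_succ_of_ne_zero h
    exact Z2.mul_mem (two_pow_fact m) (w_mem _)

theorem w_zero : w 0 = 1 := by unfold w; simp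

theorem H0_eq : H0 = 1 + 2 * M0 := by
  ext n
  have : (2 : ℚ⟦X⟧) = C 2 := (map_ofNat C 2).symm
  rw [map_add, this, coeff_C_mul]
  unfold H0 M0
  rw [coeff_mk, coeff_mk, coeff_one]
  split_ifs with h
  · subst h; simp [w_zero]
  · obtain ⟨m, rfl⟩ := Nat.exists_eq_succ_of_ne_zero h
    simp only [Nat.succ_eq_add_one, Nat.add_sub_cancel, pow_succ]
    ring

theorem M0_const : constantCoeff M0 = 0 := by
  rw [← coeff_zero_eq_constantCoeff_apply]
  unfold M0
  rw [coeff_mk]; simp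

theorem H0_const : constantCoeff H0 = 1 := by
  rw [H0_eq, map_add, map_mul, M0_const]; simp

theorem H0_mem : H0 ∈ Z2S := by
  rw [H0_eq]
  exact Z2S.add_mem Z2S.one_mem (Z2S.mul_mem (ofNat_memS 2) M0_mem)

theorem H0_inv : H0 * H0⁻¹ = 1 :=
  PowerSeries.mul_inv_cancel H0 (by rw [H0_const]; exact one_ne_zero)

/-- `(1 - 1/H0)/2` up to sign -/
noncomputable def e0 : ℚ⟦X⟧ := -(M0 * H0⁻¹)

theorem e0_mem : e0 ∈ Z2S :=
  Z2S.neg_mem (Z2S.mul_mem M0_mem (inv_mem H0_mem H0_const))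

theorem e0_const : constantCoeff e0 = 0 := by
  unfold e0; rw [map_neg, map_mul, M0_const]; simp

theorem e0_eq : H0⁻¹ = 1 + 2 * e0 := by
  unfold e0
  have h1 := H0_inv
  have h2 := H0_eq
  linear_combination h1 - H0⁻¹ * h2

/-- `3F2(1/2,1/2,1/2;3/4,5/4;-4Y)` -/
noncomputable def H : ℚ⟦X⟧ := rescale 4 H0

/-- its inverse -/
noncomputable def K : ℚ⟦X⟧ := rescale 4 H0⁻¹

theorem HK : H * K = 1 := by
  unfold H K
  rw [← map_mul, H0_inv, map_one]

theorem H_const : constantCoeff H = 1 := by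
  have h := coeff_rescale H0 4 0
  rw [← coeff_zero_eq_constantCoeff_apply]
  unfold H
  rw [h]
  simp [H0_const]

theorem coeff_H (n : ℕ) : coeff n H = 8 ^ n / n.factorial * w n := by
  unfold H
  rw [coeff_rescale]
  unfold H0
  rw [coeff_mk]
  have : (8 : ℚ) = 4 * 2 := by norm_num
  rw [this, mul_pow]; ring

theorem w_succ (n : ℕ) : w (n + 1) =
    w n * (-(2 * n + 1 : ℚ) ^ 3 * ((((4 * n + 3) * (4 * n + 5) : ℕ) : ℚ))⁻¹) := by
  unfold w
  rw [Finset.prod_range_succ]

theorem H_rec (n : ℕ) : (4 * n + 3 : ℚ) * (4 * n + 5) * (n + 1) * coeff (n + 1) H =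
    -(8 * (2 * n + 1) ^ 3 * coeff n H) := by
  rw [coeff_H, coeff_H, w_succ, Nat.factorial_succ]
  have h3 : ((n : ℚ) + 1) ≠ 0 := by positivity
  have h4 : ((n.factorial : ℕ) : ℚ) ≠ 0 := by exact_mod_cast Nat.factorial_ne_zero n
  have h5 : (4 * (n : ℚ) + 3) ≠ 0 := by positivity
  have h6 : (4 * (n : ℚ) + 5) ≠ 0 := by positivity
  push_cast
  field_simp
  ring

theorem H_ode : 16 * th (th (th H)) - th H +
    X * (8 * (8 * th (th (th H)) + 12 * th (th H) + 6 * th H + H)) = 0 := by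
  ext n
  have e16 : (16 : ℚ⟦X⟧) = C 16 := (map_ofNat C 16).symm
  have e8 : (8 : ℚ⟦X⟧) = C 8 := (map_ofNat C 8).symm
  have e12 : (12 : ℚ⟦X⟧) = C 12 := (map_ofNat C 12).symm
  have e6 : (6 : ℚ⟦X⟧) = C 6 := (map_ofNat C 6).symm
  cases n with
  | zero =>
    rw [e16, map_add, map_sub, coeff_C_mul, coeff_th, coeff_th]
    simp [const_th]
  | succ n =>
    rw [e16, e8, e12, e6, map_add, coeff_succ_X_mul]
    simp only [map_add, map_sub, coeff_C_mul, coeff_th, map_zero]
    have := H_rec n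
    push_cast
    linear_combination this

end Pool.Agent.V11276.HypQuot
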