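import Pool.Agent.V11276.HypD

/-! 2-adic integrality of quotients of Gauss hypergeometric series: Clausen type identity. -/

namespace Pool.Agent.V11276.HypQuot

open PowerSeries

theorem th_subst_tau (f : ℚ⟦X⟧) :
    th (f.subst tau) = (r ^ 2 + 1) * (th f).subst tau := by
  rw [th_subst tau_subst, th_tau]
  unfold th
  rw [subst_mul tau_subst, subst_X tau_subst]
  ring

/-- the composed series -/
noncomputable def P0 : ℚ⟦X⟧ := H.subst tau
/-- composed series -/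
noncomputable def P1 : ℚ⟦X⟧ := (th H).subst tau
/-- composed series -/
noncomputable def P2 : ℚ⟦X⟧ := (th (th H)).subst tau
/-- composed series -/
noncomputable def P3 : ℚ⟦X⟧ := (th (th (th H))).subst tau

theorem th_P0 : th P0 = (r ^ 2 + 1) * P1 := th_subst_tau _
theorem th_P1 : th P1 = (r ^ 2 + 1) * P2 := th_subst_tau _
theorem th_P2 : th P2 = (r ^ 2 + 1) * P3 := th_subst_tau _

theorem subst_ofNat (n : ℕ) [n.AtLeastTwo] :
    (OfNat.ofNat n : ℚ⟦X⟧).subst tau = (OfNat.ofNat n : ℚ⟦X⟧) := by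
  have := map_ofNat (substAlgHom (R := ℚ) tau_subst) n
  rwa [coe_substAlgHom] at this

theorem P_ode : 8 * (r + S) ^ 2 * P3 + 12 * (r - S) ^ 2 * P2 + (6 * (r - S) ^ 2 - 2) * P1 +
    (r - S) ^ 2 * P0 = 0 := by
  have h := congrArg (fun f => (substAlgHom (R := ℚ) tau_subst) f) H_ode
  simp only [map_add, map_sub, map_mul, map_ofNat, map_zero, coe_substAlgHom,
    subst_X tau_subst] at h
  have h' : 16 * P3 - P1 + tau * (8 * (8 * P3 + 12 * P2 + 6 * P1 + P0)) = 0 := h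
  have h1 := tau16
  have h2 := rS
  linear_combination 2 * h' - (8 * P3 + 12 * P2 + 6 * P1 + P0) * h1 + 32 * P3 * h2

/-- third order operator -/
noncomputable def LL (f : ℚ⟦X⟧) : ℚ⟦X⟧ :=
  4 * (1 - 4 * X) ^ 2 * th (th (th f)) - 48 * X * (1 - 4 * X) * th (th f) +
  (192 * X ^ 2 - 28 * X - 1) * th f + (64 * X ^ 2 - 6 * X) * f

theorem two_ne : (2 : ℚ⟦X⟧) ≠ 0 := by
  intro h
  have := congrArg constantCoeff h
  rw [map_ofNat, map_zero] at this
  norm_num at this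

theorem th_two : th 2 = 0 := th_ofNat 2
theorem th_four : th 4 = 0 := th_ofNat 4
theorem th_three : th 3 = 0 := th_ofNat 3
theorem th_eight : th 8 = 0 := th_ofNat 8

theorem LL_G1 : LL (r * P0) = 0 := by
  have hr := th_r
  have h0 := th_P0
  have h1 := th_P1
  have h2 := th_P2
  have E1 : 2 * th (r * P0) = (r ^ 3 - r) * P0 + 2 * (r * P1) + 2 * (r ^ 3 * P1) := by
    rw [th_mul]
    linear_combination P0 * hr + 2 * r * h0
  unfold LL
  generalize th (r * P0) = g1 at *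
  have E2 : 4 * th g1 = (r - 4 * r ^ 3 + 3 * r ^ 5) * P0 +
      4 * ((-r - r ^ 3 + 2 * r ^ 5) * P1) + 4 * ((r + 2 * r ^ 3 + r ^ 5) * P2) := by
    have h := congrArg th E1
    simp only [th_add, th_sub, th_mul, th_two, th_pow] at h
    norm_num at h
    linear_combination 2 * h + ((3 * r ^ 2 - 1) * P0 + 2 * P1 + 6 * r ^ 2 * P1) * hr +
      (2 * (r ^ 3 - r)) * h0 + (4 * r + 4 * r ^ 3) * h1
  generalize th g1 = g2 at *
  have E3 : 8 * th g2 = (-r + 13 * r ^ 3 - 27 * r ^ 5 + 15 * r ^ 7) * P0 +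
      (6 * r + 2 * r ^ 3 - 54 * r ^ 5 + 46 * r ^ 7) * P1 +
      (-12 * r - 36 * r ^ 3 + 12 * r ^ 5 + 36 * r ^ 7) * P2 +
      (8 * r + 24 * r ^ 3 + 24 * r ^ 5 + 8 * r ^ 7) * P3 := by
    have h := congrArg th E2
    simp only [th_add, th_sub, th_mul, th_two, th_four, th_three, th_pow] at h
    have hneg : th (-r) = - th r := by unfold th; rw [map_neg]; ring
    rw [hneg] at h
    norm_num at h
    linear_combination 2 * h + ((1 - 12 * r ^ 2 + 15 * r ^ 4) * P0 + 4 * (-1 - 3 * r ^ 2 +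
      10 * r ^ 4) * P1 + 4 * (1 + 6 * r ^ 2 + 5 * r ^ 4) * P2) * hr +
      (2 * (r - 4 * r ^ 3 + 3 * r ^ 5)) * h0 + (8 * (-r - r ^ 3 + 2 * r ^ 5)) * h1 +
      (8 * (r + 2 * r ^ 3 + r ^ 5)) * h2
  generalize th g2 = g3 at *
  have hO := P_ode
  have hS := S_sq
  have hrS := rS
  apply mul_left_cancel₀ two_ne
  rw [mul_zero]
  have key : 2 * (4 * (S ^ 2) ^ 2 * g3 - 12 * (1 - S ^ 2) * S ^ 2 * g2 +
      (12 * (1 - S ^ 2) ^ 2 - 7 * (1 - S ^ 2) - 1) * g1) + (8 * (1 - S ^ 2) ^ 2 -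
      3 * (1 - S ^ 2)) * (r * P0) = 0 := by
    linear_combination S ^ 4 * E3 - 6 * (1 - S ^ 2) * S ^ 2 * E2 +
      (-1 - 7 * (1 - S ^ 2) + 12 * (1 - S ^ 2) ^ 2) * E1 + (r + S) * hO +
      (((1*S^3) + (-1*r^1) + (1*r^1*S^2) + (-2*r^2*S^1) + (1*r^2*S^3) + (-3*r^3) + (-9*r^3*S^2) + (-3*r^4*S^1) + (-9*r^4*S^3) + (15*r^5*S^2) + (15*r^6*S^3))*P0 + ((-2*S^1) + (6*S^3) + (-10*r^1) + (2*r^1*S^2) + (-16*r^2*S^1) + (2*r^2*S^3) + (-2*r^3) + (-6*r^3*S^2) + (-2*r^4*S^1) + (-6*r^4*S^3) + (46*r^5*S^2) + (46*r^6*S^3))*P1 + ((12*S^3) + (12*r^1*S^2) + (-12*r^2*S^1) + (12*r^2*S^3) + (12*r^3) + (36*r^3*S^2) + (12*r^4*S^1) + (36*r^4*S^3) + (36*r^5*S^2) + (36*r^6*S^3))*P2 + ((8*S^3) + (24*r^1*S^2) + (24*r^2*S^1) + (24*r^2*S^3) + (8*r^3) + (24*r^3*S^2) + (8*r^4*S^1) + (24*r^4*S^3) + (8*r^5*S^2) + (8*r^6*S^3))*P3) * hrS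
  rw [hS] at key
  linear_combination key

/-- `2F1(1/4,1/4;1/2;4t)` -/
noncomputable def D : ℚ⟦X⟧ := F (1 / 4) (1 / 4) (1 / 2)

/-- `2F1(3/4,3/4;3/2;4t)` -/
noncomputable def N : ℚ⟦X⟧ := F (3 / 4) (3 / 4) (3 / 2)

theorem D_const : constantCoeff D = 1 := const_F _ _ _
theorem N_const : constantCoeff N = 1 := const_F _ _ _

theorem D_ode : 4 * (1 - 4 * X) * th (th D) = (2 + 8 * X) * th D + X * D := by
  have h := F_ode (al := 1 / 4) (be := 1 / 4) (ga := 1 / 2) (fun n => by positivity)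
  have e1 : (C ((1 : ℚ) / 2 - 1) * 2 : ℚ⟦X⟧) = -1 := by
    have : (2 : ℚ⟦X⟧) = C 2 := (map_ofNat C 2).symm
    rw [this, ← map_mul, ← map_one C, ← map_neg]; congr 1; norm_num
  have e2 : (C ((1 : ℚ) / 4 + 1 / 4) * 2 : ℚ⟦X⟧) = 1 := by
    have : (2 : ℚ⟦X⟧) = C 2 := (map_ofNat C 2).symm
    rw [this, ← map_mul, ← map_one C]; congr 1; norm_num
  have e3 : (C ((1 : ℚ) / 4 * (1 / 4)) * 16 : ℚ⟦X⟧) = 1 := by
    have : (16 : ℚ⟦X⟧) = C 16 := (map_ofNat C 16).symm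
    rw [this, ← map_mul, ← map_one C]; congr 1; norm_num
  change th (th D) + C ((1 : ℚ) / 2 - 1) * th D =
    X * (4 * (th (th D) + C ((1 : ℚ) / 4 + 1 / 4) * th D + C ((1 : ℚ) / 4 * (1 / 4)) * D)) at h
  linear_combination 4 * h - 2 * th D * e1 + 8 * X * th D * e2 + X * D * e3

theorem N_ode : 4 * (1 - 4 * X) * th (th N) = (24 * X - 2) * th N + 9 * X * N := by
  have h := F_ode (al := 3 / 4) (be := 3 / 4) (ga := 3 / 2) (fun n => by positivity)
  have e1 : (C ((3 : ℚ) / 2 - 1) * 2 : ℚ⟦X⟧) = 1 := by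
    have : (2 : ℚ⟦X⟧) = C 2 := (map_ofNat C 2).symm
    rw [this, ← map_mul, ← map_one C]; congr 1; norm_num
  have e2 : (C ((3 : ℚ) / 4 + 3 / 4) * 2 : ℚ⟦X⟧) = 3 := by
    have : (2 : ℚ⟦X⟧) = C 2 := (map_ofNat C 2).symm
    have h3 : (3 : ℚ⟦X⟧) = C 3 := (map_ofNat C 3).symm
    rw [this, h3, ← map_mul]; congr 1; norm_num
  have e3 : (C ((3 : ℚ) / 4 * (3 / 4)) * 16 : ℚ⟦X⟧) = 9 := by
    have : (16 : ℚ⟦X⟧) = C 16 := (map_ofNat C 16).symm
    have h3 : (9 : ℚ⟦X⟧) = C 9 := (map_ofNat C 9).symm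
    rw [this, h3, ← map_mul]; congr 1; norm_num
  change th (th N) + C ((3 : ℚ) / 2 - 1) * th N =
    X * (4 * (th (th N) + C ((3 : ℚ) / 4 + 3 / 4) * th N + C ((3 : ℚ) / 4 * (3 / 4)) * N)) at h
  linear_combination 4 * h - 2 * th N * e1 + 8 * X * th N * e2 + X * N * e3

theorem D_ode3 : 4 * (1 - 4 * X) * th (th (th D)) =
    (2 + 24 * X) * th (th D) + 9 * X * th D + X * D := by
  have h := congrArg th D_ode
  simp only [th_add, th_sub, th_mul, th_two, th_four, th_X, th_eight, th_one] at h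
  linear_combination h

theorem th_24 : th 24 = 0 := th_ofNat 24
theorem th_9 : th 9 = 0 := th_ofNat 9

theorem N_ode3 : 4 * (1 - 4 * X) * th (th (th N)) =
    (40 * X - 2) * th (th N) + 33 * X * th N + 9 * X * N := by
  have h := congrArg th N_ode
  simp only [th_add, th_sub, th_mul, th_two, th_four, th_X, th_24, th_9, th_one] at h
  linear_combination h

theorem four_ne : (4 : ℚ⟦X⟧) ≠ 0 := by
  intro h
  have := congrArg constantCoeff h
  rw [map_ofNat, map_zero] at this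
  norm_num at this

theorem LL_G2 : LL (D * N) = 0 := by
  have d2 := D_ode
  have n2 := N_ode
  have d3 := D_ode3
  have n3 := N_ode3
  unfold LL
  simp only [th_mul, th_add]
  generalize th (th (th D)) = D3 at *
  generalize th (th (th N)) = N3 at *
  generalize th (th D) = D2 at *
  generalize th (th N) = N2 at *
  generalize th D = D1 at *
  generalize th N = N1 at *
  generalize D = D0 at *
  generalize N = N0 at *
  apply mul_left_cancel₀ four_ne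
  rw [mul_zero]
  linear_combination (4 * (1 - 4 * X) * N0) * d3 + (4 * (1 - 4 * X) * D0) * n3 +
    ((2 + 24 * X) * N0 + 12 * (1 - 4 * X) * N1 - 48 * X * N0) * d2 +
    ((40 * X - 2) * D0 + 12 * (1 - 4 * X) * D1 - 48 * X * D0) * n2

end Pool.Agent.V11276.HypQuot
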