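import Pool.Agent.V11276.HypE

/-! 2-adic integrality of quotients of Gauss hypergeometric series: conclusion. -/

namespace Pool.Agent.V11276.HypQuot

open PowerSeries

/-- vanishing of low coefficients -/
def Zr (n : ℕ) (f : ℚ⟦X⟧) : Prop := ∀ m < n, coeff m f = 0

theorem Zr.mul {n : ℕ} {f : ℚ⟦X⟧} (hf : Zr n f) (g : ℚ⟦X⟧) : Zr n (g * f) := by
  intro m hm
  rw [coeff_mul]
  refine Finset.sum_eq_zero fun x hx => ?_
  have := Finset.HasAntidiagonal.mem_antidiagonal.1 hx
  rw [hf x.2 (by omega), mul_zero]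

theorem Zr.add {n : ℕ} {f g : ℚ⟦X⟧} (hf : Zr n f) (hg : Zr n g) : Zr n (f + g) := by
  intro m hm
  rw [map_add, hf m hm, hg m hm, add_zero]

theorem Zr.th {n : ℕ} {f : ℚ⟦X⟧} (hf : Zr n f) : Zr n (th f) := by
  intro m hm
  rw [coeff_th, hf m hm, mul_zero]

theorem LL_unique {f : ℚ⟦X⟧} (h : LL f = 0) (h0 : constantCoeff f = 0) : f = 0 := by
  have key : ∀ n, Zr n f := by
    intro n
    induction n with
    | zero => intro m hm; omega
    | succ n ih =>
      intro m hm
      rcases Nat.lt_succ_iff_lt_or_eq.1 hm with hlt | heq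
      · exact ih m hlt
      subst heq
      cases m with
      | zero => simpa using h0
      | succ n =>
        have e : LL f = 4 * th (th (th f)) + (-1) * th f + X * ((64 * X - 32) * th (th (th f)) +
            (192 * X - 48) * th (th f) + (192 * X - 28) * th f + (64 * X - 6) * f) := by
          unfold LL; ring
        rw [h] at e
        have e1 := congrArg (coeff (n + 1)) e
        have hz : Zr (n + 1) ((64 * X - 32) * th (th (th f)) +
            (192 * X - 48) * th (th f) + (192 * X - 28) * th f + (64 * X - 6) * f) :=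
          (((ih.th.th.th.mul _).add (ih.th.th.mul _)).add (ih.th.mul _)).add (ih.mul _)
        have e4 : (4 : ℚ⟦X⟧) = C 4 := (map_ofNat C 4).symm
        have e2 : (-1 : ℚ⟦X⟧) = C (-1) := by rw [map_neg, map_one]
        rw [map_zero, map_add, coeff_succ_X_mul, hz n (by omega), map_add, e4, e2,
          coeff_C_mul, coeff_C_mul, coeff_th, coeff_th, coeff_th] at e1
        have e3 : ((n : ℚ) + 1) * (2 * n + 1) * (2 * n + 3) * coeff (n + 1) f = 0 := by
          push_cast at e1
          linear_combination -e1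
        rcases mul_eq_zero.1 e3 with h' | h'
        · exfalso
          have : ((n : ℚ) + 1) * (2 * n + 1) * (2 * n + 3) ≠ 0 := by positivity
          exact this h'
        · exact h'
  ext n
  rw [map_zero]
  exact key (n + 1) n (by omega)

theorem LL_sub (f g : ℚ⟦X⟧) : LL (f - g) = LL f - LL g := by
  unfold LL
  simp only [th_sub]
  ring

theorem P0_const : constantCoeff P0 = 1 := by
  have h : H = 1 + X * (mk fun n => coeff (n + 1) H) := by
    ext n
    cases n with
    | zero => simp [H_const]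
    | succ n =>
      rw [map_add, coeff_succ_X_mul, coeff_mk, coeff_one]
      simp
  have h1 : P0 = 1 + tau * (mk fun n => coeff (n + 1) H).subst tau := by
    unfold P0
    conv_lhs => rw [h]
    rw [subst_add tau_subst, subst_mul tau_subst, subst_X tau_subst]
    congr 1
    have := map_one (substAlgHom (R := ℚ) tau_subst)
    rwa [coe_substAlgHom] at this
  rw [h1, map_add, map_mul, tau_const]
  simp

theorem clausen : D * N = r * P0 := by
  have h : LL (D * N - r * P0) = 0 := by
    rw [LL_sub, LL_G1, LL_G2, sub_zero]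
  have h0 : constantCoeff (D * N - r * P0) = 0 := by
    rw [map_sub, map_mul, map_mul, D_const, N_const, r_const, P0_const]
    norm_num
  exact sub_eq_zero.1 (LL_unique h h0)

theorem wronskian : (1 - 4 * X) * (D * N + 2 * (D * th N) - 2 * (N * th D)) = 1 := by
  have d2 := D_ode
  have n2 := N_ode
  have h : th ((1 - 4 * X) * (D * N + 2 * (D * th N) - 2 * (N * th D))) = 0 := by
    simp only [th_mul, th_add, th_sub, th_two, th_four, th_X, th_one]
    generalize th (th D) = D2 at *
    generalize th (th N) = N2 at *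
    generalize th D = D1 at *
    generalize th N = N1 at *
    generalize D = D0 at *
    generalize N = N0 at *
    apply mul_left_cancel₀ two_ne
    rw [mul_zero]
    linear_combination D0 * n2 - N0 * d2
  have h2 := eq_C_of_th_eq_zero h
  rw [h2]
  have : constantCoeff ((1 - 4 * X) * (D * N + 2 * (D * th N) - 2 * (N * th D)) : ℚ⟦X⟧) = 1 := by
    simp [D_const, N_const, const_th]
  rw [this, map_one]

/-- `K ∘ tau` -/
noncomputable def Kt : ℚ⟦X⟧ := K.subst tau

theorem P0_Kt : P0 * Kt = 1 := by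
  unfold P0 Kt
  rw [← subst_mul tau_subst, HK]
  have := map_one (substAlgHom (R := ℚ) tau_subst)
  rwa [coe_substAlgHom] at this

/-- the quotient -/
noncomputable def Q : ℚ⟦X⟧ := N * D⁻¹

theorem D_ne : D ≠ 0 := by
  intro h
  have := D_const
  rw [h] at this
  simp at this

theorem DQ : Q * D = N := by
  unfold Q
  rw [mul_assoc, PowerSeries.inv_mul_cancel D (by rw [D_const]; exact one_ne_zero), mul_one]

theorem th_Q : 2 * th Q = (r * Kt - 1) * Q := by
  have h1 := congrArg th DQ
  rw [th_mul] at h1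
  have h2 := DQ
  have h3 := wronskian
  have h4 := S_sq
  have h5 := rS
  have h6 := clausen
  have h7 := P0_Kt
  apply mul_left_cancel₀ (mul_ne_zero D_ne D_ne)
  have h8 : D * N + 2 * (D * th N) - 2 * (N * th D) = r ^ 2 := by
    linear_combination r ^ 2 * h3 + (D * N + 2 * (D * th N) - 2 * (N * th D)) *
      (r ^ 2 * h4 - (r * S + 1) * h5)
  linear_combination 2 * D * h1 - 2 * th D * h2 + h8 - (r * Kt - 1) * D * h2 -
    r * Kt * h6 - r ^ 2 * h7

theorem th_cc : 2 * th cc = (r - 1) * cc := by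
  have h := congrArg th cc_eq
  rw [th_add, th_mul, th_pow, th_X, th_one] at h
  norm_num at h
  have h1 : S = 1 - 2 * X * cc := rfl
  have h2 := rS
  linear_combination -2 * r * h + 2 * th cc * (r * h1 - h2) + r * cc * h1 - cc * h2

/-- the quotient by the Catalan series -/
noncomputable def E : ℚ⟦X⟧ := Q * cc⁻¹

theorem cc_ne : cc ≠ 0 := by
  intro h
  have := cc_const
  rw [h] at this
  simp at this

theorem E_cc : E * cc = Q := by
  unfold E
  rw [mul_assoc, PowerSeries.inv_mul_cancel cc (by rw [cc_const]; exact one_ne_zero), mul_one]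

theorem th_E : 2 * th E = r * (Kt - 1) * E := by
  have h1 := congrArg th E_cc
  rw [th_mul] at h1
  have h2 := th_cc
  have h3 := th_Q
  have h4 := E_cc
  apply mul_left_cancel₀ cc_ne
  linear_combination 2 * h1 - E * h2 + h3 - (r * Kt - 1) * h4

theorem Q_const : constantCoeff Q = 1 := by
  unfold Q
  rw [map_mul, PowerSeries.constantCoeff_inv, D_const, N_const]; simp

theorem E_const : constantCoeff E = 1 := by
  unfold E
  rw [map_mul, PowerSeries.constantCoeff_inv, Q_const, cc_const]; simp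

/-- auxiliary antiderivatives -/
noncomputable def U : ℕ → ℚ⟦X⟧
  | 0 => X * (cc - 1) * r
  | k + 1 => C (((2 * k + 3 : ℕ) : ℚ)⁻¹) *
      (C (2 ^ k) * ((1 - 2 * X) * r * tau ^ (k + 1)) - C ((k + 1 : ℕ) : ℚ) * U k)

theorem U_mem (k : ℕ) : U k ∈ Z2S := by
  induction k with
  | zero =>
    unfold U
    exact Z2S.mul_mem (Z2S.mul_mem X_mem (Z2S.sub_mem cc_mem Z2S.one_mem)) r_mem
  | succ k ih =>
    unfold U
    refine Z2S.mul_mem (C_mem (inv_odd_mem_nat ⟨k + 1, by ring⟩)) (Z2S.sub_mem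
      (Z2S.mul_mem (C_mem (Z2.pow_mem (by exact_mod_cast int_mem 2) _)) (Z2S.mul_mem (Z2S.mul_mem
        (Z2S.sub_mem Z2S.one_mem (Z2S.mul_mem (ofNat_memS 2) X_mem)) r_mem) (Z2S.pow_mem ?_ _)))
      (Z2S.mul_mem (C_mem (natCast_mem Z2 _)) ih))
    unfold tau
    exact Z2S.mul_mem (Z2S.pow_mem X_mem _) (Z2S.pow_mem r_mem _)

theorem th_aux (k : ℕ) : th ((1 - 2 * X) * r * tau ^ (k + 1)) =
    2 * r * ((k + 1) * tau ^ (k + 1) + (4 * k + 6) * tau ^ (k + 2)) := by
  have h1 : 2 * ((1 - 2 * X) * r) = r + S := by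
    have h4 := S_sq
    have h5 := rS
    linear_combination (-r) * h4 + S * h5
  have h2 := congrArg th h1
  rw [th_mul, th_two, th_add] at h2
  rw [th_mul, th_pow, th_tau]
  have h3 := th_r
  have h4 := th_S
  have h5 := rS
  have h6 := tau16
  generalize (1 - 2 * X) * r = b at *
  simp only [Nat.add_sub_cancel]
  push_cast
  apply mul_left_cancel₀ four_ne
  have h7 : 4 * th b = r ^ 3 - 2 * r + S := by
    linear_combination 2 * h2 + h3 + h4
  rw [pow_succ tau (k + 1)]
  have h8 : 2 * (b * (r ^ 2 + 1)) = r ^ 3 + 2 * r + S := by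
    linear_combination (r ^ 2 + 1) * h1 + r * h5
  linear_combination tau ^ (k + 1) * h7 + 2 * (k + 1) * tau ^ (k + 1) * h8 -
    (2 * k + 3) * r * tau ^ (k + 1) * h6 + tau ^ (k + 1) * (2 * k + 3) * (2 * r - S) * h5

theorem th_C_mul (a : ℚ) (f : ℚ⟦X⟧) : th (C a * f) = C a * th f := by
  rw [th_mul, th_C]; ring

theorem th_U (k : ℕ) : th (U k) = C (2 ^ (k + 1)) * (r * tau ^ (k + 1)) := by
  induction k with
  | zero =>
    unfold U
    rw [th_mul, th_mul, th_sub, th_one, th_X]
    have h1 := th_cc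
    have h2 := th_r
    have h3 : S = 1 - 2 * X * cc := rfl
    have h5 := rS
    have h6 : tau = X ^ 2 * r ^ 2 := rfl
    have h7 := S_sq
    apply mul_left_cancel₀ (mul_ne_zero two_ne four_ne)
    rw [h6]
    have e2 : (C (2 ^ (0 + 1)) : ℚ⟦X⟧) = 2 := by
      rw [zero_add, pow_one]; exact map_ofNat C 2
    rw [e2]
    linear_combination 4 * X * r * h1 + 4 * X * (cc - 1) * h2 + 2 * (r ^ 2 + r ^ 3) * h3 -
      (r + r ^ 3) * h7 - (4 * X + 1 - S ^ 2) * r ^ 3 * h7 +
      (-2 * r ^ 2 + r * (3 * r * S + 1) - S * (r * S) * (r * S + 1)) * h5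
  | succ k ih =>
    unfold U
    rw [th_C_mul, th_sub, th_C_mul, th_C_mul, ih, th_aux]
    have e1 : (C (((2 * k + 3 : ℕ) : ℚ)⁻¹) : ℚ⟦X⟧) * (2 * k + 3) = 1 := by
      have h : (2 * k + 3 : ℚ⟦X⟧) = C ((2 * k + 3 : ℕ) : ℚ) := by
        rw [map_natCast]; push_cast; rfl
      rw [h, ← map_mul, inv_mul_cancel₀ (by positivity), map_one]
    have e2 : (C ((k + 1 : ℕ) : ℚ) : ℚ⟦X⟧) = k + 1 := by
      rw [map_natCast]; push_cast; rfl
    have e3 : (C (2 ^ (k + 1)) : ℚ⟦X⟧) = 2 * C (2 ^ k) := by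
      have : (2 : ℚ⟦X⟧) = C 2 := (map_ofNat C 2).symm
      rw [this, ← map_mul]; congr 1; ring
    have e4 : (C (2 ^ (k + 1 + 1)) : ℚ⟦X⟧) = 4 * C (2 ^ k) := by
      have : (4 : ℚ⟦X⟧) = C 4 := (map_ofNat C 4).symm
      rw [this, ← map_mul]; congr 1; ring
    rw [e2, e3, e4]
    linear_combination (4 * C (2 ^ k) * r * tau ^ (k + 2)) * e1

/-- half of `K - 1` -/
noncomputable def Jr : ℚ⟦X⟧ := rescale 4 e0

/-- its composition with `tau` -/
noncomputable def Jt : ℚ⟦X⟧ := Jr.subst tau

theorem K_eq : K = 1 + 2 * Jr := by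
  unfold K Jr
  rw [e0_eq, map_add, map_mul, map_one, map_ofNat]

theorem Kt_eq : Kt = 1 + 2 * Jt := by
  unfold Kt Jt
  have h := congrArg (fun f => (substAlgHom (R := ℚ) tau_subst) f) K_eq
  simp only [map_add, map_mul, map_ofNat, map_one, coe_substAlgHom] at h
  exact h

theorem th_E' : th E = r * Jt * E := by
  have h := th_E
  rw [Kt_eq] at h
  apply mul_left_cancel₀ two_ne
  linear_combination h

theorem subst_C' (q : ℚ) : (C q : ℚ⟦X⟧).subst tau = C q := by
  have := (substAlgHom (R := ℚ) tau_subst).commutes q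
  rw [coe_substAlgHom] at this
  exact this

/-- shifts of `Jr` -/
noncomputable def sh (m : ℕ) : ℚ⟦X⟧ := mk fun i => coeff (m + i) Jr

theorem sh_succ (m : ℕ) : sh m = C (coeff m Jr) + X * sh (m + 1) := by
  ext n
  unfold sh
  cases n with
  | zero => simp
  | succ n =>
    rw [map_add, coeff_succ_X_mul, coeff_mk, coeff_mk, coeff_C, if_neg (by omega), zero_add,
      show m + (n + 1) = m + 1 + n by ring]

theorem Jt_expand (m : ℕ) : Jt = ∑ n ∈ Finset.range m, C (coeff n Jr) * tau ^ n +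
    tau ^ m * (sh m).subst tau := by
  induction m with
  | zero =>
    have : sh 0 = Jr := by
      ext n; unfold sh; rw [coeff_mk, zero_add]
    rw [this]; simp [Jt]
  | succ m ih =>
    rw [Finset.sum_range_succ, ih]
    conv_lhs => rw [sh_succ m]
    rw [subst_add tau_subst, subst_mul tau_subst, subst_X tau_subst, subst_C']
    ring

theorem Jt_const : constantCoeff Jt = 0 := by
  have h := Jt_expand 1
  rw [h]
  have h1 : coeff 0 Jr = 0 := by
    unfold Jr
    rw [coeff_rescale, coeff_zero_eq_constantCoeff_apply, e0_const]; simp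
  rw [Finset.sum_range_one, h1]
  simp [tau_const]

/-- the logarithm of `E`, halved -/
noncomputable def M1 : ℚ⟦X⟧ := mk fun m => coeff m (r * Jt) / (2 * m)

theorem M1_const : constantCoeff M1 = 0 := by
  rw [← coeff_zero_eq_constantCoeff_apply]
  unfold M1
  rw [coeff_mk]; simp

theorem th_M1 : 2 * th M1 = r * Jt := by
  ext m
  have : (2 : ℚ⟦X⟧) = C 2 := (map_ofNat C 2).symm
  rw [this, coeff_C_mul, coeff_th]
  unfold M1
  rw [coeff_mk]
  cases m with
  | zero => simp [Jt_const]
  | succ m =>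
    have : ((m + 1 : ℕ) : ℚ) ≠ 0 := by positivity
    field_simp

theorem coeff_rtau (m k : ℕ) : 2 ^ (k + 1) * coeff m (r * tau ^ (k + 1)) = m * coeff m (U k) := by
  rw [← coeff_th, th_U, coeff_C_mul]

theorem coeff_low {m n : ℕ} (h : m < n) (g : ℚ⟦X⟧) : coeff m (r * (tau ^ n * g)) = 0 := by
  have : r * (tau ^ n * g) = X ^ n * (r * ((X * r ^ 2) ^ n * g)) := by
    unfold tau
    ring
  rw [this, coeff_X_pow_mul']
  rw [if_neg (by omega)]

theorem M1_mem : M1 ∈ Z2S := by
  intro m
  cases m with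
  | zero => rw [coeff_zero_eq_constantCoeff_apply, M1_const]; exact Z2.zero_mem
  | succ m =>
    unfold M1
    rw [coeff_mk, Jt_expand (m + 2), mul_add, map_add, coeff_low (by omega), add_zero,
      Finset.mul_sum, map_sum, Finset.sum_div]
    refine Z2.sum_mem fun n _ => ?_
    have e1 : r * (C (coeff n Jr) * tau ^ n) = C (coeff n Jr) * (r * tau ^ n) := by ring
    rw [e1, coeff_C_mul]
    unfold Jr
    rw [coeff_rescale]
    cases n with
    | zero =>
      rw [coeff_zero_eq_constantCoeff_apply, e0_const]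
      simp
    | succ k =>
      have h := coeff_rtau (m + 1) k
      have e2 : (4 : ℚ) ^ (k + 1) * coeff (k + 1) e0 * coeff (m + 1) (r * tau ^ (k + 1)) /
          (2 * ((m + 1 : ℕ) : ℚ)) = 2 ^ k * coeff (k + 1) e0 * coeff (m + 1) (U k) := by
        have h4 : (4 : ℚ) ^ (k + 1) = 2 ^ (k + 1) * 2 ^ (k + 1) := by
          rw [← mul_pow]; norm_num
        have hm : ((m + 1 : ℕ) : ℚ) ≠ 0 := by positivity
        rw [h4, div_eq_iff (by positivity)]
        have h2 : (2 : ℚ) ^ (k + 1) = 2 * 2 ^ k := by ring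
        linear_combination (2 ^ (k + 1) * coeff (k + 1) e0) * h +
          ((m + 1 : ℕ) : ℚ) * coeff (k + 1) e0 * coeff (m + 1) (U k) * h2
      rw [e2]
      exact Z2.mul_mem (Z2.mul_mem (Z2.pow_mem (by exact_mod_cast int_mem 2) _) (e0_mem _))
        (U_mem k _)

theorem M1_subst : HasSubst M1 := HasSubst.of_constantCoeff_zero' M1_const

/-- `exp (2 X)` -/
noncomputable def ex : ℚ⟦X⟧ := rescale 2 (exp ℚ)

theorem coeff_ex (n : ℕ) : coeff n ex = 2 ^ n / n.factorial := by
  unfold ex
  rw [coeff_rescale, coeff_exp]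
  simp [div_eq_mul_inv]

theorem ex_mem : ex ∈ Z2S := by
  intro n
  rw [coeff_ex]
  cases n with
  | zero => simp
  | succ n =>
    have := two_pow_fact n
    rw [pow_succ, mul_comm, mul_div_assoc]
    exact Z2.mul_mem (by exact_mod_cast int_mem 2) this

theorem d_ex : derivative ℚ ex = 2 * ex := by
  ext n
  have : (2 : ℚ⟦X⟧) = C 2 := (map_ofNat C 2).symm
  rw [this, coeff_C_mul, coeff_derivative, coeff_ex, coeff_ex, Nat.factorial_succ]
  have h4 : ((n.factorial : ℕ) : ℚ) ≠ 0 := by exact_mod_cast Nat.factorial_ne_zero n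
  have h3 : ((n : ℚ) + 1) ≠ 0 := by positivity
  push_cast
  field_simp
  ring

theorem subst_mem {f g : ℚ⟦X⟧} (hf : f ∈ Z2S) (hg : g ∈ Z2S) (h : HasSubst g) :
    f.subst g ∈ Z2S := by
  intro n
  rw [coeff_subst' h]
  refine finsum_induction (p := fun x => x ∈ Z2) Z2.zero_mem (fun x y => Z2.add_mem) fun i => ?_
  rw [smul_eq_mul]
  exact Z2.mul_mem (hf _) (Z2S.pow_mem hg _ _)

/-- candidate for `E` -/
noncomputable def V : ℚ⟦X⟧ := ex.subst M1

theorem V_mem : V ∈ Z2S := subst_mem ex_mem M1_mem M1_subst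

theorem th_V : th V = 2 * (th M1 * V) := by
  unfold V
  rw [th_subst M1_subst, d_ex]
  have h := map_mul (substAlgHom (R := ℚ) M1_subst) 2 ex
  rw [map_ofNat] at h
  simp only [coe_substAlgHom] at h
  rw [h]; ring

theorem V_const : constantCoeff V = 1 := by
  have h : ex = 1 + X * (mk fun n => coeff (n + 1) ex) := by
    ext n
    cases n with
    | zero => rw [coeff_ex]; simp
    | succ n =>
      rw [map_add, coeff_succ_X_mul, coeff_mk, coeff_one]
      simp
  have h1 : V = 1 + M1 * (mk fun n => coeff (n + 1) ex).subst M1 := by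
    unfold V
    conv_lhs => rw [h]
    rw [subst_add M1_subst, subst_mul M1_subst, subst_X M1_subst]
    congr 1
    have := map_one (substAlgHom (R := ℚ) M1_subst)
    rwa [coe_substAlgHom] at this
  rw [h1, map_add, map_mul, M1_const]
  simp

theorem E_eq_V : E = V := by
  have hV : V * V⁻¹ = 1 := PowerSeries.mul_inv_cancel V (by rw [V_const]; exact one_ne_zero)
  have hV0 : V ≠ 0 := by
    intro h
    have := V_const
    rw [h] at this
    simp at this
  have h1 := congrArg th hV
  rw [th_mul, th_one] at h1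
  have h2 : th (E * V⁻¹) = 0 := by
    rw [th_mul]
    apply mul_left_cancel₀ hV0
    rw [mul_zero]
    have h3 := th_V
    have h4 := th_E'
    have h5 := th_M1
    linear_combination V * V⁻¹ * h4 + E * h1 - E * V⁻¹ * h3 - E * V * V⁻¹ * h5
  have h3 := eq_C_of_th_eq_zero h2
  have h4 : constantCoeff (E * V⁻¹) = 1 := by
    rw [map_mul, PowerSeries.constantCoeff_inv, E_const, V_const]; simp
  rw [h4, map_one] at h3
  linear_combination V * h3 - E * hV

theorem Q_mem : Q ∈ Z2S := by
  rw [← E_cc, E_eq_V]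
  exact Z2S.mul_mem V_mem cc_mem

/-- The general theorem. -/
theorem quot_mem (a b c d e f : ℕ) :
    F (3 / 4 + a) (3 / 4 + b) (3 / 2 + c) * (F (1 / 4 + d) (1 / 4 + e) (1 / 2 + f))⁻¹ ∈ Z2S := by
  have h1 : UEq (F (3 / 4 + a) (3 / 4 + b) (3 / 2 + c)) N := by
    have := UEq_all (A := 3) (B := 3) (G := 3) ⟨1, by norm_num⟩ ⟨1, by norm_num⟩
      ⟨1, by norm_num⟩ a b c
    have e1 : (((3 + 4 * a : ℤ) : ℚ)) / 4 = 3 / 4 + a := by push_cast; ring
    have e2 : (((3 + 4 * b : ℤ) : ℚ)) / 4 = 3 / 4 + b := by push_cast; ring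
    have e3 : (((3 + 2 * c : ℤ) : ℚ)) / 2 = 3 / 2 + c := by push_cast; ring
    rw [e1, e2, e3] at this
    push_cast at this
    exact this
  have h2 : UEq (F (1 / 4 + d) (1 / 4 + e) (1 / 2 + f)) D := by
    have := UEq_all (A := 1) (B := 1) (G := 1) ⟨0, by norm_num⟩ ⟨0, by norm_num⟩
      ⟨0, by norm_num⟩ d e f
    have e1 : (((1 + 4 * d : ℤ) : ℚ)) / 4 = 1 / 4 + d := by push_cast; ring
    have e2 : (((1 + 4 * e : ℤ) : ℚ)) / 4 = 1 / 4 + e := by push_cast; ring
    have e3 : (((1 + 2 * f : ℤ) : ℚ)) / 2 = 1 / 2 + f := by push_cast; ring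
    rw [e1, e2, e3] at this
    push_cast at this
    exact this
  obtain ⟨u, hu, hu1, hu2⟩ := h1
  obtain ⟨v, hv, hv1, hv2⟩ := h2
  rw [hu2, hv2, PowerSeries.mul_inv_rev]
  have e : u * N * (D⁻¹ * v⁻¹) = u * v⁻¹ * Q := by unfold Q; ring
  rw [e]
  exact Z2S.mul_mem (Z2S.mul_mem hu (inv_mem hv hv1)) Q_mem

end Pool.Agent.V11276.HypQuot
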