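import Mathlib

namespace Pool.Agent.V11276.KR

open Finset

/-- generalized binomial coefficient `x (x-1) ... (x-j+1) / j!` -/
noncomputable def bin (x : ℝ) (j : ℕ) : ℝ := (∏ i ∈ range j, (x - i)) / (j.factorial : ℝ)

/-- the Krawtchouk polynomial -/
noncomputable def K (m : ℕ) (x n : ℝ) : ℝ :=
  ∑ j ∈ range (m + 1), (-1) ^ j * bin x j * bin (n - x) (m - j)

lemma bin_zero (x : ℝ) : bin x 0 = 1 := by simp [bin]

lemma bin_succ (x : ℝ) (j : ℕ) : ((j : ℝ) + 1) * bin x (j + 1) = (x - j) * bin x j := by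
  unfold bin
  rw [prod_range_succ, Nat.factorial_succ]
  push_cast
  have h1 : (j.factorial : ℝ) ≠ 0 := by positivity
  field_simp

lemma pascal (x : ℝ) (j : ℕ) : bin (x + 1) (j + 1) = bin x (j + 1) + bin x j := by
  induction j with
  | zero =>
    have h1 := bin_succ (x + 1) 0
    have h2 := bin_succ x 0
    simp only [bin_zero] at *
    push_cast at *
    linarith
  | succ j ih =>
    have h1 := bin_succ (x + 1) (j + 1)
    have h2 := bin_succ x (j + 1)
    have h3 := bin_succ x j
    rw [ih] at h1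
    push_cast at *
    have h4 : ((j : ℝ) + 1 + 1) ≠ 0 := by positivity
    apply mul_left_cancel₀ h4
    rw [h1]
    linear_combination -h2 - h3

lemma bin_nat (a j : ℕ) : bin (a : ℝ) j = (a.choose j : ℝ) := by
  induction j with
  | zero => simp [bin_zero]
  | succ j ih =>
    have h1 := bin_succ (a : ℝ) j
    rw [ih] at h1
    have h2 := Nat.choose_succ_right_eq a j
    have h4 : ((j : ℝ) + 1) ≠ 0 := by positivity
    apply mul_left_cancel₀ h4
    rw [h1]
    rcases le_or_gt j a with h | h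
    · have h3 : ((a.choose (j + 1) * (j + 1) : ℕ) : ℝ) = ((a.choose j * (a - j) : ℕ) : ℝ) := by rw [h2]
      push_cast [Nat.cast_sub h] at h3
      linarith
    · rw [Nat.choose_eq_zero_of_lt h, Nat.choose_eq_zero_of_lt (by omega)]
      simp

open PowerSeries in
noncomputable def fS (A : ℝ) : PowerSeries ℝ := PowerSeries.mk (fun j => (-1) ^ j * bin A j)
noncomputable def gS (B : ℝ) : PowerSeries ℝ := PowerSeries.mk (fun j => bin B j)

lemma K_eq_coeff (m : ℕ) (x n : ℝ) : K m x n = PowerSeries.coeff m (fS x * gS (n - x)) := by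
  rw [PowerSeries.coeff_mul, Finset.Nat.sum_antidiagonal_eq_sum_range_succ_mk]
  unfold K fS gS
  simp only [PowerSeries.coeff_mk]

lemma f_ode (A : ℝ) : (1 - PowerSeries.X) * PowerSeries.derivative ℝ (fS A) = - (PowerSeries.C A * fS A) := by
  ext j
  rw [sub_mul, one_mul, map_sub, map_neg, PowerSeries.coeff_C_mul]
  cases j with
  | zero =>
    rw [PowerSeries.coeff_zero_X_mul]
    simp only [PowerSeries.coeff_derivative, fS, PowerSeries.coeff_mk]
    have h := bin_succ A 0
    simp only [bin_zero] at *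
    push_cast at *
    linear_combination -h
  | succ j =>
    rw [PowerSeries.coeff_succ_X_mul]
    simp only [PowerSeries.coeff_derivative, fS, PowerSeries.coeff_mk]
    have h := bin_succ A (j + 1)
    push_cast at *
    linear_combination (-1) ^ (j + 1 + 1) * h

lemma g_ode (B : ℝ) : (1 + PowerSeries.X) * PowerSeries.derivative ℝ (gS B) = PowerSeries.C B * gS B := by
  ext j
  rw [add_mul, one_mul, map_add, PowerSeries.coeff_C_mul]
  cases j with
  | zero =>
    rw [PowerSeries.coeff_zero_X_mul]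
    simp only [PowerSeries.coeff_derivative, gS, PowerSeries.coeff_mk]
    have h := bin_succ B 0
    simp only [bin_zero] at *
    push_cast at *
    linear_combination h
  | succ j =>
    rw [PowerSeries.coeff_succ_X_mul]
    simp only [PowerSeries.coeff_derivative, gS, PowerSeries.coeff_mk]
    have h := bin_succ B (j + 1)
    push_cast at *
    linear_combination h

lemma F_ode (A B : ℝ) : (1 + PowerSeries.X) * ((1 - PowerSeries.X) * PowerSeries.derivative ℝ (fS A * gS B)) =
    (PowerSeries.C (B - A) - PowerSeries.C (A + B) * PowerSeries.X) * (fS A * gS B) := by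
  have h1 := f_ode A
  have h2 := g_ode B
  have h3 : PowerSeries.derivative ℝ (fS A * gS B) =
      fS A * PowerSeries.derivative ℝ (gS B) + gS B * PowerSeries.derivative ℝ (fS A) := by
    rw [Derivation.leibniz]; simp [smul_eq_mul]
  rw [h3, map_sub, map_add]
  linear_combination ((1 + PowerSeries.X) * gS B) * h1 + ((1 - PowerSeries.X) * fS A) * h2

lemma K_zero (x n : ℝ) : K 0 x n = 1 := by
  unfold K; simp [bin_zero]

lemma bin_one (x : ℝ) : bin x 1 = x := by
  have := bin_succ x 0
  simp only [bin_zero] at this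
  push_cast at this
  linarith

lemma K_one (x n : ℝ) : K 1 x n = n - 2 * x := by
  unfold K; simp [sum_range_succ, bin_zero, bin_one]; ring

lemma K_rec (m : ℕ) (x n : ℝ) :
    ((m : ℝ) + 2) * K (m + 2) x n = (n - 2 * x) * K (m + 1) x n - (n - m) * K m x n := by
  have h := congrArg (PowerSeries.coeff (m + 1)) (F_ode x (n - x))
  rw [add_mul, one_mul, map_add, PowerSeries.coeff_succ_X_mul, sub_mul, one_mul, map_sub, map_sub,
    PowerSeries.coeff_succ_X_mul, sub_mul, map_sub, PowerSeries.coeff_C_mul, mul_assoc, PowerSeries.coeff_C_mul,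
    PowerSeries.coeff_succ_X_mul] at h
  simp only [PowerSeries.coeff_derivative, ← K_eq_coeff] at h
  cases m with
  | zero =>
    rw [PowerSeries.coeff_zero_X_mul] at h
    push_cast at *
    linear_combination h
  | succ m =>
    rw [PowerSeries.coeff_succ_X_mul] at h
    simp only [PowerSeries.coeff_derivative, ← K_eq_coeff] at h
    push_cast at *
    linear_combination h

lemma fS_succ (A : ℝ) : fS (A + 1) = (1 - PowerSeries.X) * fS A := by
  ext j
  rw [sub_mul, one_mul, map_sub]
  cases j with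
  | zero => rw [PowerSeries.coeff_zero_X_mul]; simp [fS, bin_zero]
  | succ j =>
    rw [PowerSeries.coeff_succ_X_mul]
    simp only [fS, PowerSeries.coeff_mk]
    rw [pascal]; ring

lemma gS_succ (B : ℝ) : gS (B + 1) = (1 + PowerSeries.X) * gS B := by
  ext j
  rw [add_mul, one_mul, map_add]
  cases j with
  | zero => rw [PowerSeries.coeff_zero_X_mul]; simp [gS, bin_zero]
  | succ j =>
    rw [PowerSeries.coeff_succ_X_mul]
    simp only [gS, PowerSeries.coeff_mk]
    rw [pascal]

lemma K_diff (m : ℕ) (x n : ℝ) : K (m + 1) (x + 1) n - K (m + 1) x n = -2 * K m x (n - 1) := by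
  rw [K_eq_coeff, K_eq_coeff, K_eq_coeff]
  have h1 : n - (x + 1) = n - 1 - x := by ring
  have h2 : gS (n - x) = (1 + PowerSeries.X) * gS (n - 1 - x) := by
    rw [← gS_succ]; congr 1; ring
  rw [h1, h2, fS_succ, ← map_sub]
  have h3 : (1 - PowerSeries.X) * fS x * gS (n - 1 - x) - fS x * ((1 + PowerSeries.X) * gS (n - 1 - x)) =
      PowerSeries.X * (PowerSeries.C (-2 : ℝ) * (fS x * gS (n - 1 - x))) := by
    have h4 : (PowerSeries.C (-2 : ℝ) : PowerSeries ℝ) = -2 := by
      rw [map_neg, map_ofNat]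
    rw [h4]
    ring
  rw [h3, PowerSeries.coeff_succ_X_mul, PowerSeries.coeff_C_mul]

/-- the normalised two-variable polynomials -/
noncomputable def Q : ℕ → ℝ → ℝ → ℝ
  | 0, _, _ => 1
  | 1, _, t => t
  | (m + 2), h, t => (t * Q (m + 1) h t - (1 - m * h) * Q m h t) / (m + 2)

lemma Q_rec (m : ℕ) (h t : ℝ) : ((m : ℝ) + 2) * Q (m + 2) h t = t * Q (m + 1) h t - (1 - m * h) * Q m h t := by
  have : ((m : ℝ) + 2) ≠ 0 := by positivity
  rw [Q]; field_simp

lemma K_Q (m : ℕ) (x n : ℝ) (hn : 0 < n) :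
    K m x n = (√n) ^ m * Q m (1 / n) ((n - 2 * x) / √n) := by
  have hs : 0 < √n := Real.sqrt_pos.mpr hn
  have hs2 : √n * √n = n := Real.mul_self_sqrt hn.le
  have key : ∀ m, K m x n = (√n) ^ m * Q m (1 / n) ((n - 2 * x) / √n) ∧
      K (m + 1) x n = (√n) ^ (m + 1) * Q (m + 1) (1 / n) ((n - 2 * x) / √n) := by
    intro m
    induction m with
    | zero =>
      refine ⟨by rw [K_zero, Q]; simp, ?_⟩
      rw [K_one, Q]
      field_simp
      ring
    | succ m ih =>
      refine ⟨ih.2, ?_⟩
      have h1 := K_rec m x n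
      have h2 := Q_rec m (1 / n) ((n - 2 * x) / √n)
      rw [ih.1, ih.2] at h1
      have h4 : ((m : ℝ) + 2) ≠ 0 := by positivity
      apply mul_left_cancel₀ h4
      rw [show m + 1 + 1 = m + 2 by ring, h1]
      have h5 : ((m : ℝ) + 2) * ((√n) ^ (m + 2) * Q (m + 2) (1 / n) ((n - 2 * x) / √n)) =
          (√n) ^ (m + 2) * (((m : ℝ) + 2) * Q (m + 2) (1 / n) ((n - 2 * x) / √n)) := by ring
      rw [h5, h2]
      have h6 : (√n) ^ (m + 2) = (√n) ^ m * n := by rw [pow_add, pow_two, hs2]
      have h7 : (√n) ^ (m + 2) * (((n - 2 * x) / √n) * Q (m + 1) (1 / n) ((n - 2 * x) / √n)) =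
          (n - 2 * x) * ((√n) ^ (m + 1) * Q (m + 1) (1 / n) ((n - 2 * x) / √n)) := by
        rw [pow_succ (√n) (m + 1)]; field_simp
      rw [mul_sub, h7, h6]
      field_simp
  exact (key m).1

lemma Q_neg (m : ℕ) (h t : ℝ) : Q m h (-t) = (-1) ^ m * Q m h t := by
  have key : ∀ m, Q m h (-t) = (-1) ^ m * Q m h t ∧ Q (m + 1) h (-t) = (-1) ^ (m + 1) * Q (m + 1) h t := by
    intro m
    induction m with
    | zero => refine ⟨by rw [Q, Q]; simp, by rw [Q, Q]; simp⟩
    | succ m ih =>
      refine ⟨ih.2, ?_⟩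
      rw [show m + 1 + 1 = m + 2 by ring, Q, Q, ih.1, ih.2]
      ring
  exact (key m).1

/-- number of edges of the complete oddly bipartite `2k`-graph -/
def ek (k n a : ℕ) : ℕ :=
  ∑ i ∈ (range (2 * k + 1)).filter Odd, a.choose i * (n - a).choose (2 * k - i)

lemma ek_K (k n a : ℕ) (ha : a ≤ n) : (ek k n a : ℝ) = ((n.choose (2 * k) : ℝ) - K (2 * k) a n) / 2 := by
  have h1 : (n.choose (2 * k) : ℝ) = ∑ j ∈ range (2 * k + 1), (a.choose j : ℝ) * ((n - a).choose (2 * k - j) : ℝ) := by
    have h := Nat.add_choose_eq a (n - a) (2 * k)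
    rw [Nat.add_sub_cancel' ha, Finset.Nat.sum_antidiagonal_eq_sum_range_succ_mk] at h
    rw [h]; push_cast; rfl
  have h2 : K (2 * k) a n = ∑ j ∈ range (2 * k + 1), (-1) ^ j * ((a.choose j : ℝ) * ((n - a).choose (2 * k - j) : ℝ)) := by
    unfold K
    apply sum_congr rfl
    intro j _
    rw [bin_nat, ← Nat.cast_sub ha, bin_nat]; ring
  rw [h1, h2, ← sum_sub_distrib, ek, sum_filter]
  push_cast
  rw [sum_div]
  apply sum_congr rfl
  intro j _
  by_cases hj : Odd j
  · rw [if_pos hj, hj.neg_one_pow]; ring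
  · rw [if_neg hj, (Nat.not_odd_iff_even.mp hj).neg_one_pow]; ring

end Pool.Agent.V11276.KR
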