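import Pool.Agent.V11276.KR1

namespace Pool.Agent.V11276.KR

/-- `t`-derivative of `Q` -/
noncomputable def DQ : ℕ → ℝ → ℝ → ℝ
  | 0, _, _ => 0
  | 1, _, _ => 1
  | (m + 2), h, t => (Q (m + 1) h t + t * DQ (m + 1) h t - (1 - m * h) * DQ m h t) / (m + 2)

lemma hasDerivAt_Q (m : ℕ) (h t : ℝ) : HasDerivAt (Q m h) (DQ m h t) t := by
  have key : ∀ m, HasDerivAt (Q m h) (DQ m h t) t ∧ HasDerivAt (Q (m + 1) h) (DQ (m + 1) h t) t := by
    intro m
    induction m with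
    | zero =>
      constructor
      · have h1 : Q 0 h = fun _ => 1 := by ext; rw [Q]
        rw [h1, DQ]; exact hasDerivAt_const _ _
      · have h1 : Q 1 h = fun t => t := by ext; rw [Q]
        rw [show 0 + 1 = 1 by ring, h1, DQ]; exact hasDerivAt_id' _
    | succ m ih =>
      refine ⟨ih.2, ?_⟩
      have h0 : Q (m + 2) h = fun t => (t * Q (m + 1) h t - (1 - m * h) * Q m h t) / (m + 2) := by
        ext; rw [Q]
      rw [show m + 1 + 1 = m + 2 by ring, h0, DQ]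
      have h1 := ((hasDerivAt_id' t).mul ih.2).sub (ih.1.const_mul (1 - m * h))
      have h2 := h1.div_const ((m : ℝ) + 2)
      rw [one_mul] at h2
      exact h2
  exact (key m).1

lemma continuous_Q (m : ℕ) (h : ℝ) : Continuous (Q m h) :=
  continuous_iff_continuousAt.mpr fun t => (hasDerivAt_Q m h t).continuousAt

lemma DQ_zero (m : ℕ) (t : ℝ) : DQ (m + 1) 0 t = Q m 0 t := by
  have key : ∀ m, DQ (m + 1) 0 t = Q m 0 t ∧ DQ (m + 2) 0 t = Q (m + 1) 0 t := by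
    intro m
    induction m with
    | zero =>
      constructor
      · simp [DQ, Q]
      · simp [DQ, Q]
    | succ m ih =>
      refine ⟨ih.2, ?_⟩
      rw [show m + 1 + 2 = (m + 1) + 2 by ring, DQ, ih.2, ih.1, show m + 1 + 1 = m + 2 by ring]
      have h1 := Q_rec m 0 t
      have h2 : (((m + 1 : ℕ) : ℝ) + 2) ≠ 0 := by positivity
      rw [div_eq_iff h2]
      push_cast
      linear_combination -h1
  exact (key m).1

lemma abs_div_le (m : ℕ) (x : ℝ) : |x / ((m : ℝ) + 2)| ≤ |x| := by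
  rw [abs_div, abs_of_pos (by positivity : (0 : ℝ) < (m : ℝ) + 2)]
  apply div_le_self (abs_nonneg x)
  have : (0 : ℝ) ≤ m := Nat.cast_nonneg m
  linarith

lemma coef_bd (m : ℕ) (h : ℝ) (h0 : 0 ≤ h) (h1 : h ≤ 1) : |1 - (m : ℝ) * h| ≤ 1 + m := by
  have hm : (0 : ℝ) ≤ m := Nat.cast_nonneg m
  rw [abs_le]
  have : (m : ℝ) * h ≤ m := mul_le_of_le_one_right hm h1
  have : 0 ≤ (m : ℝ) * h := mul_nonneg hm h0
  constructor <;> linarith

lemma mul_bd {x y X Y : ℝ} (hx : |x| ≤ X) (hy : |y| ≤ Y) : |x * y| ≤ X * Y := by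
  rw [abs_mul]
  exact mul_le_mul hx hy (abs_nonneg _) (le_trans (abs_nonneg _) hx)

lemma tri3 (x y z : ℝ) : |x + y - z| ≤ |x| + |y| + |z| := by
  have h1 := abs_sub (x + y) z
  have h2 := abs_add_le x y
  linarith

def BD (m : ℕ) (C h t : ℝ) : Prop :=
  |Q m h t| ≤ C ∧ |DQ m h t| ≤ C ∧ |Q m h t - Q m 0 t| ≤ C * h ∧ |DQ m h t - DQ m 0 t| ≤ C * h

lemma BD_mono {m : ℕ} {C C' h t : ℝ} (hh : 0 ≤ h) (hC : C ≤ C') (hb : BD m C h t) : BD m C' h t := by
  obtain ⟨h1, h2, h3, h4⟩ := hb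
  have h5 : C * h ≤ C' * h := mul_le_mul_of_nonneg_right hC hh
  exact ⟨h1.trans hC, h2.trans hC, h3.trans h5, h4.trans h5⟩

lemma BD_step (m : ℕ) (C T h t : ℝ) (hC : 0 < C) (hT : 0 ≤ T) (h0 : 0 ≤ h) (h1 : h ≤ 1) (ht : |t| ≤ T)
    (b0 : BD m C h t) (b1 : BD (m + 1) C h t) : BD (m + 2) (C * (T + 2 + m)) h t := by
  obtain ⟨a1, a2, a3, a4⟩ := b0
  obtain ⟨c1, c2, c3, c4⟩ := b1
  have hco := coef_bd m h h0 h1
  have hm : (0 : ℝ) ≤ m := Nat.cast_nonneg m
  have hCh : 0 ≤ C * h := mul_nonneg hC.le h0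
  refine ⟨?_, ?_, ?_, ?_⟩
  · rw [Q]
    refine (abs_div_le m _).trans ?_
    have e1 := abs_sub (t * Q (m + 1) h t) ((1 - m * h) * Q m h t)
    have e2 := mul_bd ht c1
    have e3 := mul_bd hco a1
    nlinarith
  · rw [DQ]
    refine (abs_div_le m _).trans ?_
    have e1 := tri3 (Q (m + 1) h t) (t * DQ (m + 1) h t) ((1 - m * h) * DQ m h t)
    have e2 := mul_bd ht c2
    have e3 := mul_bd hco a2
    nlinarith
  · rw [Q, Q, ← sub_div]
    refine (abs_div_le m _).trans ?_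
    have e0 : t * Q (m + 1) h t - (1 - m * h) * Q m h t - (t * Q (m + 1) 0 t - (1 - m * 0) * Q m 0 t) =
      t * (Q (m + 1) h t - Q (m + 1) 0 t) + (m * h) * Q m h t - (Q m h t - Q m 0 t) := by ring
    rw [e0]
    have e1 := tri3 (t * (Q (m + 1) h t - Q (m + 1) 0 t)) ((m * h) * Q m h t) (Q m h t - Q m 0 t)
    have e2 := mul_bd ht c3
    have e4 : |(m : ℝ) * h| ≤ m * h := by rw [abs_of_nonneg (mul_nonneg hm h0)]
    have e3 := mul_bd e4 a1
    nlinarith
  · rw [DQ, DQ, ← sub_div]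
    refine (abs_div_le m _).trans ?_
    have e0 : Q (m + 1) h t + t * DQ (m + 1) h t - (1 - m * h) * DQ m h t -
        (Q (m + 1) 0 t + t * DQ (m + 1) 0 t - (1 - m * 0) * DQ m 0 t) =
      (Q (m + 1) h t - Q (m + 1) 0 t) + (t * (DQ (m + 1) h t - DQ (m + 1) 0 t) + (m * h) * DQ m h t)
        - (DQ m h t - DQ m 0 t) := by ring
    rw [e0]
    have e1 := tri3 (Q (m + 1) h t - Q (m + 1) 0 t)
      (t * (DQ (m + 1) h t - DQ (m + 1) 0 t) + (m * h) * DQ m h t) (DQ m h t - DQ m 0 t)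
    have e5 := abs_add_le (t * (DQ (m + 1) h t - DQ (m + 1) 0 t)) ((m * h) * DQ m h t)
    have e2 := mul_bd ht c4
    have e4 : |(m : ℝ) * h| ≤ m * h := by rw [abs_of_nonneg (mul_nonneg hm h0)]
    have e3 := mul_bd e4 a2
    nlinarith

lemma Q_bounds (m : ℕ) (T : ℝ) (hT : 0 ≤ T) : ∃ C : ℝ, 0 < C ∧ ∀ h t : ℝ, 0 ≤ h → h ≤ 1 → |t| ≤ T →
    BD m C h t := by
  have key : ∀ m : ℕ, ∃ C : ℝ, 0 < C ∧ ∀ h t : ℝ, 0 ≤ h → h ≤ 1 → |t| ≤ T →
      BD m C h t ∧ BD (m + 1) C h t := by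
    intro m
    induction m with
    | zero =>
      refine ⟨T + 1, by linarith, fun h t h0 h1 ht => ?_⟩
      have hh : 0 ≤ (T + 1) * h := mul_nonneg (by linarith) h0
      constructor
      · refine ⟨?_, ?_, ?_, ?_⟩ <;> simp [Q, DQ] <;> linarith
      · refine ⟨?_, ?_, ?_, ?_⟩ <;> simp [Q, DQ] <;> linarith
    | succ m ih =>
      obtain ⟨C, hC, hb⟩ := ih
      have hm : (0 : ℝ) ≤ m := Nat.cast_nonneg m
      refine ⟨C * (T + 2 + m), by positivity, fun h t h0 h1 ht => ?_⟩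
      obtain ⟨b0, b1⟩ := hb h t h0 h1 ht
      refine ⟨BD_mono h0 ?_ b1, BD_step m C T h t hC hT h0 h1 ht b0 b1⟩
      nlinarith
  obtain ⟨C, hC, hb⟩ := key m
  exact ⟨C, hC, fun h t h0 h1 ht => (hb h t h0 h1 ht).1⟩

lemma Q_pos_large (M : ℕ) (h t : ℝ) (h0 : 0 ≤ h) (hM : M * h ≤ 1) (ht : (M : ℝ) + 3 ≤ t) :
    ∀ j ≤ M, 0 < Q j h t ∧ Q j h t ≤ Q (j + 1) h t := by
  intro j
  induction j with
  | zero =>
    intro _
    have : (0 : ℝ) ≤ M := Nat.cast_nonneg M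
    simp [Q]
    linarith
  | succ j ih =>
    intro hj
    obtain ⟨p1, p2⟩ := ih (by omega)
    have p3 : 0 < Q (j + 1) h t := lt_of_lt_of_le p1 p2
    refine ⟨p3, ?_⟩
    have hr := Q_rec j h t
    have hjM : ((j : ℝ) + 1) ≤ M := by exact_mod_cast hj
    have hj0 : (0 : ℝ) ≤ j := Nat.cast_nonneg j
    have q1 : (j : ℝ) * h ≤ 1 := by nlinarith
    have q2 : 0 ≤ (j : ℝ) * h := mul_nonneg hj0 h0
    have q3 : (1 - (j : ℝ) * h) * Q j h t ≤ Q (j + 1) h t := by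
      calc (1 - (j : ℝ) * h) * Q j h t ≤ 1 * Q j h t := mul_le_mul_of_nonneg_right (by linarith) p1.le
        _ ≤ _ := by linarith
    have q4 : ((j : ℝ) + 3) * Q (j + 1) h t ≤ t * Q (j + 1) h t :=
      mul_le_mul_of_nonneg_right (by linarith) p3.le
    have q5 : ((j : ℝ) + 2) * Q (j + 1) h t ≤ ((j : ℝ) + 2) * Q (j + 2) h t := by
      rw [hr]; linarith
    exact le_of_mul_le_mul_left q5 (by linarith)

lemma q_no_common (m : ℕ) (t : ℝ) (h1 : Q m 0 t = 0) (h2 : Q (m + 1) 0 t = 0) : False := by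
  induction m with
  | zero => simp [Q] at h1
  | succ m ih =>
    apply ih _ h1
    have h3 := Q_rec m 0 t
    rw [show m + 1 + 1 = m + 2 by ring] at h2
    rw [h2, h1] at h3
    linarith

/-- data of the largest zero of the (normalised) Hermite polynomial of degree `m + 1` -/
lemma hermite_zero (m : ℕ) : ∃ z : ℝ, 0 ≤ z ∧ (1 ≤ m → 0 < z) ∧ Q (m + 1) 0 z = 0 ∧
    (∀ t, z < t → 0 < Q (m + 1) 0 t) ∧ 0 < Q m 0 z := by
  induction m with
  | zero =>
    refine ⟨0, le_rfl, fun h => absurd h (by norm_num), by simp [Q], fun t ht => by simpa [Q] using ht, by simp [Q]⟩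
  | succ m ih =>
    obtain ⟨z, hz0, -, hz1, hz2, hz3⟩ := ih
    have hneg : Q (m + 2) 0 z < 0 := by
      have h3 := Q_rec m 0 z
      rw [hz1] at h3
      have h4 : (0 : ℝ) < (m : ℝ) + 2 := by positivity
      by_contra hc
      have : 0 ≤ ((m : ℝ) + 2) * Q (m + 2) 0 z := mul_nonneg h4.le (not_lt.mp hc)
      rw [h3] at this
      linarith
    obtain ⟨T, hT⟩ : ∃ T : ℝ, T = ((m + 2 : ℕ) : ℝ) + 3 + z := ⟨_, rfl⟩
    have hposT : ∀ t, T ≤ t → 0 < Q (m + 2) 0 t := fun t ht =>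
      (Q_pos_large (m + 2) 0 t le_rfl (by simp) (by linarith) (m + 2) le_rfl).1
    have hcont := continuous_Q (m + 2) 0
    -- zero set
    obtain ⟨S, hS⟩ : ∃ S : Set ℝ, S = {t | Q (m + 2) 0 t = 0 ∧ z ≤ t} := ⟨_, rfl⟩
    have hne : S.Nonempty := by
      have := intermediate_value_Icc (show z ≤ T by
        have : (0 : ℝ) ≤ ((m + 2 : ℕ) : ℝ) := Nat.cast_nonneg _
        linarith) (hcont.continuousOn)
      obtain ⟨c, hc, hc2⟩ := this ⟨hneg.le, (hposT T le_rfl).le⟩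
      rw [hS]
      exact ⟨c, hc2, hc.1⟩
    have hbdd : BddAbove S := by
      refine ⟨T, fun t ht => ?_⟩
      rw [hS] at ht
      by_contra hc
      have := hposT t (le_of_lt (not_le.mp hc))
      rw [ht.1] at this
      exact lt_irrefl _ this
    have hclosed : IsClosed S := by
      rw [hS]
      exact (isClosed_eq hcont continuous_const).inter isClosed_Ici
    have hw : sSup S ∈ S := hclosed.csSup_mem hne hbdd
    obtain ⟨w, hwdef⟩ : ∃ w, w = sSup S := ⟨_, rfl⟩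
    rw [← hwdef] at hw
    have hwS := hw
    rw [hS] at hw
    obtain ⟨hw1, hw2⟩ := hw
    have hzw : z < w := by
      rcases hw2.lt_or_eq with h | h
      · exact h
      · rw [← h] at hw1; rw [hw1] at hneg; exact absurd hneg (lt_irrefl _)
    refine ⟨w, by linarith, fun _ => by linarith, hw1, ?_, ?_⟩
    · intro t ht
      by_contra hc
      have hc := not_lt.mp hc
      have hmax : t ≤ max t T := le_max_left _ _
      obtain ⟨c, hc1, hc2⟩ := intermediate_value_Icc hmax (hcont.continuousOn)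
        ⟨hc, (hposT _ (le_max_right _ _)).le⟩
      have : c ∈ S := by rw [hS]; exact ⟨hc2, by linarith [hc1.1]⟩
      have := le_csSup hbdd this
      rw [← hwdef] at this
      linarith [hc1.1]
    · exact hz2 w hzw

end Pool.Agent.V11276.KR
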