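import Pool.Agent.V11276.KR2

namespace Pool.Agent.V11276.KR

/-- Sonin's function -/
noncomputable def Sn (m : ℕ) (t : ℝ) : ℝ := Q (m + 2) 0 t * Q (m + 2) 0 t + Q (m + 1) 0 t * Q (m + 1) 0 t / (m + 2)

lemma Sn_deriv (m : ℕ) (t : ℝ) :
    HasDerivAt (Sn m) (2 * t * (Q (m + 1) 0 t * Q (m + 1) 0 t) / (m + 2)) t := by
  have h1 := hasDerivAt_Q (m + 2) 0 t
  have h2 := hasDerivAt_Q (m + 1) 0 t
  rw [show m + 2 = (m + 1) + 1 by ring, DQ_zero, show (m + 1) + 1 = m + 2 by ring] at h1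
  rw [DQ_zero] at h2
  have h3 := (h1.mul h1).add ((h2.mul h2).div_const ((m : ℝ) + 2))
  have h4 := Q_rec m 0 t
  have h5 : ((m : ℝ) + 2) ≠ 0 := by positivity
  have h6 : Q (m + 1) 0 t * Q (m + 2) 0 t + Q (m + 2) 0 t * Q (m + 1) 0 t +
      (Q m 0 t * Q (m + 1) 0 t + Q (m + 1) 0 t * Q m 0 t) / (m + 2) =
      2 * t * (Q (m + 1) 0 t * Q (m + 1) 0 t) / (m + 2) := by
    rw [eq_div_iff h5, add_mul, div_mul_cancel₀ _ h5]
    linear_combination 2 * Q (m + 1) 0 t * h4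
  rw [← h6]
  exact h3

lemma Sn_mono (m : ℕ) : MonotoneOn (Sn m) (Set.Ici 0) := by
  apply monotoneOn_of_deriv_nonneg (convex_Ici 0)
  · exact fun t _ => (Sn_deriv m t).continuousAt.continuousWithinAt
  · exact fun t _ => (Sn_deriv m t).differentiableAt.differentiableWithinAt
  · intro t ht
    rw [interior_Ici] at ht
    rw [(Sn_deriv m t).deriv]
    have ht : (0 : ℝ) < t := ht
    have := mul_self_nonneg (Q (m + 1) 0 t)
    positivity

lemma slope_bd (f f' : ℝ → ℝ) (d a b : ℝ) (hf : ∀ t, HasDerivAt f (f' t) t)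
    (hd : ∀ t, a ≤ t → t ≤ b → d ≤ f' t) (x y : ℝ) (hx : a ≤ x) (hxy : x ≤ y) (hy : y ≤ b) :
    d * (y - x) ≤ f y - f x := by
  apply Convex.mul_sub_le_image_sub_of_le_deriv (convex_Icc a b)
    (fun t _ => (hf t).continuousAt.continuousWithinAt)
    (fun t _ => (hf t).differentiableAt.differentiableWithinAt)
  · intro t ht
    rw [interior_Icc] at ht
    rw [(hf t).deriv]
    exact hd t ht.1.le ht.2.le
  · exact ⟨hx, hxy.trans hy⟩
  · exact ⟨hx.trans hxy, hy⟩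
  · exact hxy

/-- the strict Sonin gap -/
lemma sonin_gap (m : ℕ) (z δ d : ℝ) (hδ : 0 < δ) (hδz : δ < z) (hd : 0 < d)
    (hz : Q (m + 1) 0 z = 0) (hzp : 0 < Q m 0 z) (hloc : ∀ t, z - δ ≤ t → t ≤ z + δ → d ≤ Q m 0 t) :
    ∃ ε : ℝ, 0 < ε ∧ ∀ t, 0 ≤ t → t ≤ z - δ → Q (m + 2) 0 z + ε ≤ Q (m + 2) 0 t := by
  have hr := Q_rec m 0 z
  rw [hz] at hr
  have hm2 : (0 : ℝ) < (m : ℝ) + 2 := by positivity
  have hv : Q (m + 2) 0 z < 0 := by
    by_contra hc
    have : 0 ≤ ((m : ℝ) + 2) * Q (m + 2) 0 z := mul_nonneg hm2.le (not_lt.mp hc)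
    rw [hr] at this
    linarith
  have hneg : ∀ t, z - δ ≤ t → t < z → Q (m + 1) 0 t < 0 := by
    intro t h1 h2
    have h3 := slope_bd (Q (m + 1) 0) (DQ (m + 1) 0) d (z - δ) (z + δ) (hasDerivAt_Q (m + 1) 0)
      (fun s hs1 hs2 => by rw [DQ_zero]; exact hloc s hs1 hs2) t z h1 h2.le (by linarith)
    rw [hz] at h3
    have : 0 < d * (z - t) := mul_pos hd (by linarith)
    linarith
  have hstrict : StrictMonoOn (Sn m) (Set.Icc (z - δ) z) := by
    apply strictMonoOn_of_deriv_pos (convex_Icc _ _)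
    · exact fun t _ => (Sn_deriv m t).continuousAt.continuousWithinAt
    · intro t ht
      rw [interior_Icc] at ht
      rw [(Sn_deriv m t).deriv]
      have h0 : 0 < t := by linarith [ht.1]
      have h1 := hneg t ht.1.le ht.2
      have h2 : 0 < Q (m + 1) 0 t * Q (m + 1) 0 t := mul_pos_of_neg_of_neg h1 h1
      positivity
  have hlt : Sn m (z - δ) < Sn m z := hstrict ⟨le_rfl, by linarith⟩ ⟨by linarith, le_rfl⟩ (by linarith)
  have hSz : Sn m z = Q (m + 2) 0 z * Q (m + 2) 0 z := by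
    unfold Sn; rw [hz]; simp
  obtain ⟨v, hvd⟩ : ∃ v, v = Q (m + 2) 0 z := ⟨_, rfl⟩
  obtain ⟨s, hsd⟩ : ∃ s, s = Sn m (z - δ) := ⟨_, rfl⟩
  rw [hSz, ← hvd, ← hsd] at hlt
  rw [← hvd] at hv ⊢
  have hs0 : 0 ≤ s := by
    rw [hsd]; unfold Sn
    have h1 := mul_self_nonneg (Q (m + 2) 0 (z - δ))
    have h2 := mul_self_nonneg (Q (m + 1) 0 (z - δ))
    positivity
  have hsq : √s < -v := by
    rw [Real.sqrt_lt' (by linarith)]
    nlinarith
  refine ⟨-v - √s, by linarith, fun t ht0 htz => ?_⟩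
  have h1 : Sn m t ≤ s := by
    rw [hsd]
    exact Sn_mono m (Set.mem_Ici.mpr ht0) (Set.mem_Ici.mpr (ht0.trans htz)) htz
  have h2 : Q (m + 2) 0 t * Q (m + 2) 0 t ≤ s := by
    have h3 : 0 ≤ Q (m + 1) 0 t * Q (m + 1) 0 t / (m + 2) := by
      have := mul_self_nonneg (Q (m + 1) 0 t)
      positivity
    unfold Sn at h1
    linarith
  have h3 : |Q (m + 2) 0 t| ≤ √s := by
    apply Real.abs_le_sqrt
    rw [pow_two]; exact h2
  have h4 := neg_abs_le (Q (m + 2) 0 t)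
  linarith

lemma loc_exists (m : ℕ) (z : ℝ) (hz0 : 0 < z) (hzp : 0 < Q m 0 z) :
    ∃ δ d : ℝ, 0 < δ ∧ δ < z ∧ 0 < d ∧ ∀ t, z - δ ≤ t → t ≤ z + δ → 2 * d ≤ Q m 0 t := by
  have hc := (continuous_Q m 0).continuousAt (x := z)
  have he : ∀ᶠ t : ℝ in nhds z, Q m 0 z / 2 < Q m 0 t := hc.eventually_const_lt (by linarith)
  obtain ⟨r, hr, hb⟩ := Metric.eventually_nhds_iff.mp he
  refine ⟨min (r / 2) (z / 2), Q m 0 z / 4, by positivity, ?_, by positivity, ?_⟩
  · exact lt_of_le_of_lt (min_le_right _ _) (by linarith)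
  · intro t h1 h2
    have h3 := min_le_left (r / 2) (z / 2)
    have h4 : dist t z < r := by
      rw [Real.dist_eq, abs_lt]
      constructor <;> linarith
    have := hb h4
    linarith

structure TauData (m : ℕ) (z δ C ε h0 : ℝ) : Prop where
  δpos : 0 < δ
  δz : δ < z
  Cpos : 0 < C
  εpos : 0 < ε
  h0pos : 0 < h0
  hz : Q (m + 1) 0 z = 0
  hzpos : ∀ t, z < t → 0 < Q (m + 1) 0 t
  gap : ∀ t, 0 ≤ t → t ≤ z - δ → Q (m + 2) 0 z + ε ≤ Q (m + 2) 0 t
  tau : ∀ h, 0 ≤ h → h ≤ h0 → ∃ τ, z - δ < τ ∧ τ < z + δ ∧ |τ - z| ≤ C * h ∧ Q (m + 1) h τ = 0 ∧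
    (∀ t, τ < t → 0 < Q (m + 1) h t) ∧ (∀ t, z - δ ≤ t → t < τ → Q (m + 1) h t < 0)

lemma tau_exists (m : ℕ) (hm : 1 ≤ m) : ∃ z δ C ε h0 : ℝ, TauData m z δ C ε h0 := by
  obtain ⟨z, -, hz0, hz1, hz2, hz3⟩ := hermite_zero m
  have hz0 := hz0 hm
  obtain ⟨δ, d, hδ, hδz, hd, hloc⟩ := loc_exists m z hz0 hz3
  obtain ⟨ε, hε, hgap⟩ := sonin_gap m z δ (2 * d) hδ hδz (by linarith) hz1 hz3 hloc
  obtain ⟨T, hT⟩ : ∃ T : ℝ, T = ((m + 1 : ℕ) : ℝ) + 3 + z + δ := ⟨_, rfl⟩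
  have hmn : (0 : ℝ) ≤ ((m + 1 : ℕ) : ℝ) := Nat.cast_nonneg _
  obtain ⟨C, hC, hb⟩ := Q_bounds (m + 1) T (by linarith)
  -- minimum on the compact part
  obtain ⟨w, hw1, hw2⟩ := (isCompact_Icc (a := z + δ) (b := T)).exists_isMinOn ⟨z + δ, le_rfl, by linarith⟩
    (continuous_Q (m + 1) 0).continuousOn
  obtain ⟨e, he⟩ : ∃ e, e = Q (m + 1) 0 w := ⟨_, rfl⟩
  have hepos : 0 < e := by rw [he]; exact hz2 w (by linarith [hw1.1])
  have hemin : ∀ t, z + δ ≤ t → t ≤ T → e ≤ Q (m + 1) 0 t := fun t h1 h2 => by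
    rw [he]; exact hw2 ⟨h1, h2⟩
  obtain ⟨h0, hh0⟩ : ∃ h0 : ℝ, h0 = min (min (1 / ((m + 1 : ℕ) : ℝ)) (d / C)) (min (d * δ / (2 * C)) (e / (2 * C))) := ⟨_, rfl⟩
  have hm1 : (0 : ℝ) < ((m + 1 : ℕ) : ℝ) := by positivity
  have hh0pos : 0 < h0 := by rw [hh0]; positivity
  refine ⟨z, δ, C / d, ε, h0, hδ, hδz, by positivity, hε, hh0pos, hz1, hz2, hgap, ?_⟩
  intro h hh hhle
  have a1 : h ≤ 1 / ((m + 1 : ℕ) : ℝ) := by
    rw [hh0] at hhle; exact hhle.trans ((min_le_left _ _).trans (min_le_left _ _))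
  have a2 : h ≤ d / C := by
    rw [hh0] at hhle; exact hhle.trans ((min_le_left _ _).trans (min_le_right _ _))
  have a3 : h ≤ d * δ / (2 * C) := by
    rw [hh0] at hhle; exact hhle.trans ((min_le_right _ _).trans (min_le_left _ _))
  have a4 : h ≤ e / (2 * C) := by
    rw [hh0] at hhle; exact hhle.trans ((min_le_right _ _).trans (min_le_right _ _))
  have b1 : ((m + 1 : ℕ) : ℝ) * h ≤ 1 := by
    rw [le_div_iff₀ hm1] at a1; linarith
  have b2 : C * h ≤ d := by rw [le_div_iff₀ hC] at a2; linarith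
  have b3 : C * h < d * δ := by
    rw [le_div_iff₀ (by linarith)] at a3
    have := mul_pos hd hδ
    linarith
  have b4 : C * h < e := by
    rw [le_div_iff₀ (by linarith)] at a4
    linarith
  have b5 : h ≤ 1 := by
    have : (1 : ℝ) ≤ ((m + 1 : ℕ) : ℝ) := by push_cast; linarith [(Nat.cast_nonneg m : (0 : ℝ) ≤ m)]
    nlinarith
  have hslope := slope_bd (Q (m + 1) h) (DQ (m + 1) h) d (z - δ) (z + δ) (hasDerivAt_Q (m + 1) h) (by
    intro t t1 t2
    have h1 := (hb h t hh b5 (by rw [abs_le]; constructor <;> linarith)).2.2.2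
    rw [DQ_zero] at h1
    have h2 := hloc t t1 t2
    have h3 := (abs_le.mp h1).1
    linarith)
  have hfz : |Q (m + 1) h z| ≤ C * h := by
    have h1 := (hb h z hh b5 (by rw [abs_le]; constructor <;> linarith)).2.2.1
    rwa [hz1, sub_zero] at h1
  obtain ⟨g1, g2⟩ := abs_le.mp hfz
  have s1 := hslope z (z + δ) (by linarith) (by linarith) le_rfl
  have s2 := hslope (z - δ) z le_rfl (by linarith) (by linarith)
  have s3 : z + δ - z = δ := by ring
  have s4 : z - (z - δ) = δ := by ring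
  rw [s3] at s1
  rw [s4] at s2
  have fr : 0 < Q (m + 1) h (z + δ) := by linarith
  have fl : Q (m + 1) h (z - δ) < 0 := by linarith
  obtain ⟨τ, ht1, ht2⟩ := intermediate_value_Icc (show z - δ ≤ z + δ by linarith)
    (continuous_Q (m + 1) h).continuousOn ⟨fl.le, fr.le⟩
  have ht3 : z - δ < τ := by
    rcases ht1.1.lt_or_eq with h | h
    · exact h
    · rw [← h] at ht2; rw [ht2] at fl; exact absurd fl (lt_irrefl _)
  have ht4 : τ < z + δ := by
    rcases ht1.2.lt_or_eq with h | h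
    · exact h
    · rw [h] at ht2; rw [ht2] at fr; exact absurd fr (lt_irrefl _)
  refine ⟨τ, ht3, ht4, ?_, ht2, ?_, ?_⟩
  · rw [div_mul_eq_mul_div, le_div_iff₀ hd]
    rcases le_total τ z with h | h
    · have := hslope τ z ht3.le h (by linarith)
      rw [ht2] at this
      rw [abs_of_nonpos (by linarith)]
      linarith
    · have := hslope z τ (by linarith) h ht4.le
      rw [ht2] at this
      rw [abs_of_nonneg (by linarith)]
      linarith
  · intro t ht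
    rcases le_or_gt t (z + δ) with h | h'
    · have := hslope τ t ht3.le ht.le h
      rw [ht2] at this
      have : 0 < d * (t - τ) := mul_pos hd (by linarith)
      linarith
    · rcases le_or_gt t T with h2 | h2
      · have h1 := (hb h t hh b5 (by rw [abs_le]; constructor <;> linarith)).2.2.1
        have h3 := hemin t h'.le h2
        have h4 := (abs_le.mp h1).1
        linarith
      · exact (Q_pos_large (m + 1) h t hh b1 (by linarith) (m + 1) le_rfl).1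
  · intro t t1 t2
    have := hslope t τ t1 t2.le ht4.le
    rw [ht2] at this
    have : 0 < d * (τ - t) := mul_pos hd (by linarith)
    linarith

end Pool.Agent.V11276.KR
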