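import Pool.Agent.V11276.KR3

namespace Pool.Agent.V11276.KR

lemma abstract_min (n : ℕ) (f : ℕ → ℝ) (ξ β : ℝ) (hξ0 : 0 ≤ ξ)
    (hdec : ∀ a : ℕ, (a : ℝ) < ξ → f (a + 1) < f a)
    (heq : ∀ a : ℕ, (a : ℝ) = ξ → f (a + 1) = f a)
    (hinc : ∀ a : ℕ, ξ < a → (a : ℝ) ≤ β → f a < f (a + 1))
    (hfar : ∀ a : ℕ, β + 1 < a → 2 * a ≤ n → ∀ b : ℕ, ξ ≤ b → (b : ℝ) ≤ ξ + 1 → f b < f a)
    (hsym : ∀ a ≤ n, f (n - a) = f a) (hmid : ξ + 1 ≤ n / 2) :
    ∀ a ≤ n, ((∀ b ≤ n, f a ≤ f b) ↔ ((ξ ≤ a ∧ (a : ℝ) ≤ ξ + 1) ∨ (ξ ≤ n - a ∧ (n : ℝ) - a ≤ ξ + 1))) := by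
  obtain ⟨c, hc⟩ : ∃ c : ℕ, c = ⌈ξ⌉₊ := ⟨_, rfl⟩
  have hc1 : ξ ≤ c := by rw [hc]; exact Nat.le_ceil ξ
  have hc2 : (c : ℝ) < ξ + 1 := by rw [hc]; exact Nat.ceil_lt_add_one hξ0
  have hlow : ∀ a : ℕ, a < c → f c < f a := by
    intro a ha
    obtain ⟨j, rfl⟩ : ∃ j, c = a + 1 + j := ⟨c - (a + 1), by omega⟩
    have hlt : ∀ i, i ≤ j → (((a + i : ℕ)) : ℝ) < ξ := by
      intro i hi
      have : a + i < ⌈ξ⌉₊ := by omega
      exact Nat.lt_ceil.mp this
    have : ∀ i, i ≤ j → f (a + 1 + i) < f a := by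
      intro i
      induction i with
      | zero => intro _; exact hdec a (by simpa using hlt 0 (by omega))
      | succ i ih =>
        intro hi
        have h1 := ih (by omega)
        have h2 := hdec (a + 1 + i) (by
          have := hlt (i + 1) hi
          rw [show a + 1 + i = a + (i + 1) by ring]; exact this)
        rw [show a + 1 + (i + 1) = a + 1 + i + 1 by ring]
        linarith
    exact this j le_rfl
  have hhigh : ∀ j : ℕ, ((c + j : ℕ) : ℝ) ≤ β + 1 → f c ≤ f (c + j) ∧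
      ((((c + j : ℕ)) : ℝ) ≤ ξ + 1 → f (c + j) = f c) ∧ (ξ + 1 < ((c + j : ℕ) : ℝ) → f c < f (c + j)) := by
    intro j
    induction j with
    | zero =>
      intro _
      refine ⟨le_rfl, fun _ => rfl, fun h => ?_⟩
      exfalso
      have h : ξ + 1 < (c : ℝ) := by simpa using h
      linarith
    | succ j ih =>
      intro hj
      have hj' : ((c + j : ℕ) : ℝ) ≤ β := by push_cast at hj ⊢; linarith
      obtain ⟨i1, i2, i3⟩ := ih (by linarith)
      have hge : ξ ≤ ((c + j : ℕ) : ℝ) := by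
        push_cast; linarith [(Nat.cast_nonneg j : (0 : ℝ) ≤ j)]
      rw [show c + (j + 1) = (c + j) + 1 by ring]
      rcases hge.lt_or_eq with h | h
      · have h1 := hinc (c + j) h hj'
        refine ⟨by linarith, fun h2 => ?_, fun _ => by linarith⟩
        exfalso
        push_cast at h2 h; linarith
      · have h1 := heq (c + j) h.symm
        have h2 := i2 (by linarith)
        refine ⟨by linarith, fun _ => by linarith, fun h3 => ?_⟩
        exfalso
        push_cast at h3 h; linarith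
  have hhalf : ∀ a : ℕ, 2 * a ≤ n → f c ≤ f a ∧ ((ξ ≤ a ∧ (a : ℝ) ≤ ξ + 1) → f a = f c) ∧
      (¬ (ξ ≤ a ∧ (a : ℝ) ≤ ξ + 1) → f c < f a) := by
    intro a ha
    rcases lt_or_ge a c with h | h
    · have h1 := hlow a h
      refine ⟨h1.le, fun h2 => ?_, fun _ => h1⟩
      exfalso
      have : c ≤ a := by rw [hc]; exact Nat.ceil_le.mpr h2.1
      omega
    · obtain ⟨j, rfl⟩ : ∃ j, a = c + j := ⟨a - c, by omega⟩
      have hge : ξ ≤ ((c + j : ℕ) : ℝ) := by
        push_cast; linarith [(Nat.cast_nonneg j : (0 : ℝ) ≤ j)]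
      rcases le_or_gt (((c + j : ℕ)) : ℝ) (β + 1) with h1 | h1
      · obtain ⟨i1, i2, i3⟩ := hhigh j h1
        refine ⟨i1, fun h2 => i2 h2.2, fun h2 => i3 ?_⟩
        by_contra hc
        exact h2 ⟨hge, not_lt.mp hc⟩
      · have h2 := hfar (c + j) h1 ha
        have h3 := h2 c hc1 hc2.le
        refine ⟨h3.le, fun h4 => ?_, fun _ => h3⟩
        exfalso
        exact lt_irrefl _ (h2 (c + j) h4.1 h4.2)
  have hcn : 2 * c ≤ n := by
    have : (2 : ℝ) * c ≤ n := by linarith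
    exact_mod_cast this
  have hall : ∀ b ≤ n, f c ≤ f b := by
    intro b hb
    rcases le_total (2 * b) n with h | h
    · exact (hhalf b h).1
    · rw [← hsym b hb]; exact (hhalf (n - b) (by omega)).1
  intro a ha
  have hcast : ((n - a : ℕ) : ℝ) = (n : ℝ) - a := by rw [Nat.cast_sub ha]
  have hfa : (∀ b ≤ n, f a ≤ f b) ↔ f a = f c := by
    constructor
    · intro h; exact le_antisymm (h c (by omega)) (hall a ha)
    · intro h b hb; rw [h]; exact hall b hb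
  rw [hfa]
  rcases le_total (2 * a) n with h | h
  · obtain ⟨-, i2, i3⟩ := hhalf a h
    constructor
    · intro h1
      left
      by_contra h2
      have := i3 h2
      rw [h1] at this; exact lt_irrefl _ this
    · rintro (h1 | h1)
      · exact i2 h1
      · -- n - a ≤ ξ + 1 ≤ n / 2, so n ≤ 2 a ≤ n
        have h3 : (2 : ℝ) * a ≤ n := by exact_mod_cast h
        have h4 : (n : ℝ) - a = a := by linarith [h1.2]
        apply i2
        rw [← h4]; exact h1
  · obtain ⟨-, i2, i3⟩ := hhalf (n - a) (by omega)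
    rw [hsym a ha, hcast] at i2 i3
    constructor
    · intro h1
      right
      by_contra h2
      have := i3 h2
      rw [h1] at this; exact lt_irrefl _ this
    · rintro (h1 | h1)
      · have h3 : (n : ℝ) ≤ 2 * a := by exact_mod_cast h
        have h4 : (n : ℝ) - a = a := by linarith [h1.2]
        apply i2
        rw [h4]; exact h1
      · exact i2 h1

/-- sign structure of `K (m+1) · N` -/
lemma near (m : ℕ) (z δ τ N s : ℝ) (hN : 0 < N) (hs : s = √N)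
    (h1 : z - δ < τ) (h0 : Q (m + 1) (1 / N) τ = 0)
    (hp : ∀ t, τ < t → 0 < Q (m + 1) (1 / N) t)
    (hn : ∀ t, z - δ ≤ t → t < τ → Q (m + 1) (1 / N) t < 0) :
    (K (m + 1) ((N - s * τ) / 2) N = 0) ∧
    (∀ x, x < (N - s * τ) / 2 → 0 < K (m + 1) x N) ∧
    (∀ x, (N - s * τ) / 2 < x → x ≤ (N - s * (z - δ)) / 2 → K (m + 1) x N < 0) := by
  have hs0 : 0 < s := by rw [hs]; exact Real.sqrt_pos.mpr hN
  have hpow : 0 < s ^ (m + 1) := pow_pos hs0 _
  refine ⟨?_, ?_, ?_⟩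
  · rw [K_Q (m + 1) _ N hN, ← hs]
    have : (N - 2 * ((N - s * τ) / 2)) / s = τ := by
      rw [div_eq_iff hs0.ne']; ring
    rw [this, h0, mul_zero]
  · intro x hx
    rw [K_Q (m + 1) _ N hN, ← hs]
    apply mul_pos hpow
    apply hp
    rw [lt_div_iff₀ hs0]; linarith
  · intro x hx1 hx2
    rw [K_Q (m + 1) _ N hN, ← hs]
    apply mul_neg_of_pos_of_neg hpow
    apply hn
    · rw [le_div_iff₀ hs0]; linarith
    · rw [div_lt_iff₀ hs0]; linarith

/-- estimate of `s τ` -/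
lemma stau_est (z C τ N n s r : ℝ) (hz : 0 ≤ z) (hN : 0 < N) (hn : n = N + 1) (hs : s = √N) (hr : r = √n)
    (hτ : |τ - z| ≤ C * (1 / N)) : |s * τ - z * r| ≤ (C + z) / s := by
  have hs0 : 0 < s := by rw [hs]; exact Real.sqrt_pos.mpr hN
  have hr0 : 0 < r := by rw [hr]; exact Real.sqrt_pos.mpr (by linarith)
  have hss : s * s = N := by rw [hs]; exact Real.mul_self_sqrt hN.le
  have hrr : r * r = n := by rw [hr]; exact Real.mul_self_sqrt (by linarith)
  have hsr : s ≤ r := by rw [hs, hr]; exact Real.sqrt_le_sqrt (by linarith)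
  have e1 : s * τ - z * r = s * (τ - z) - z * (r - s) := by ring
  have e2 : |s * (τ - z)| ≤ C / s := by
    rw [abs_mul, abs_of_pos hs0]
    calc s * |τ - z| ≤ s * (C * (1 / N)) := mul_le_mul_of_nonneg_left hτ hs0.le
      _ = C / s := by rw [← hss]; field_simp
  have e3 : r - s ≤ 1 / s := by
    rw [le_div_iff₀ hs0]
    nlinarith
  have e4 : |z * (r - s)| ≤ z / s := by
    rw [abs_of_nonneg (mul_nonneg hz (by linarith))]
    calc z * (r - s) ≤ z * (1 / s) := mul_le_mul_of_nonneg_left e3 hz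
      _ = z / s := by ring
  rw [e1, add_div]
  exact (abs_sub _ _).trans (add_le_add e2 e4)

lemma far (m : ℕ) (z δ ε ρ C C2 T τ N n s r : ℝ) (hz : 0 < z) (hC : 0 < C) (hδ : 0 < δ) (hδz : δ < z)
    (hρT : z + ρ ≤ T)
    (hgap : ∀ t, 0 ≤ t → t ≤ z - δ → Q (m + 2) 0 z + ε ≤ Q (m + 2) 0 t)
    (hρ : ∀ t, |t - z| ≤ ρ → Q (m + 2) 0 t < Q (m + 2) 0 z + ε / 2) (hρ0 : 0 < ρ)
    (hb : ∀ h t : ℝ, 0 ≤ h → h ≤ 1 → |t| ≤ T → |Q (m + 2) h t - Q (m + 2) 0 t| ≤ C2 * h)
    (hN : 1 ≤ N) (hn : n = N + 1) (hs : s = √N) (hr : r = √n)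
    (hτ : |τ - z| ≤ C * (1 / N)) (hsbig : (1 + C + z) / ρ ≤ s) (hC2 : 4 * C2 / ε ≤ n) (hε : 0 < ε)
    (a b : ℝ) (ha1 : (N - s * (z - δ)) / 2 + 1 < a) (ha2 : 2 * a ≤ n)
    (hb1 : (N - s * τ) / 2 ≤ b) (hb2 : b ≤ (N - s * τ) / 2 + 1) :
    K (m + 2) b n < K (m + 2) a n := by
  have hn0 : 0 < n := by linarith
  have hs0 : 0 < s := by rw [hs]; exact Real.sqrt_pos.mpr (by linarith)
  have hs1 : 1 ≤ s := by rw [hs]; exact Real.one_le_sqrt.mpr hN
  have hr0 : 0 < r := by rw [hr]; exact Real.sqrt_pos.mpr (by linarith)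
  have hsr : s ≤ r := by rw [hs, hr]; exact Real.sqrt_le_sqrt (by linarith)
  rw [K_Q (m + 2) _ n hn0, K_Q (m + 2) _ n hn0, ← hr]
  apply mul_lt_mul_of_pos_left _ (pow_pos hr0 _)
  have hh0 : 0 ≤ 1 / n := by positivity
  have hh1 : 1 / n ≤ 1 := by rw [div_le_one hn0]; linarith
  have hC2n : C2 * (1 / n) ≤ ε / 4 := by
    rw [div_le_iff₀ hε] at hC2
    rw [mul_one_div, div_le_iff₀ hn0]; linarith
  -- the far value
  have ta0 : 0 ≤ (n - 2 * a) / r := div_nonneg (by linarith) hr0.le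
  have ta1 : (n - 2 * a) / r ≤ z - δ := by
    rw [div_le_iff₀ hr0]
    have : s * (z - δ) ≤ r * (z - δ) := mul_le_mul_of_nonneg_right hsr (by linarith)
    linarith
  have ta2 := hgap _ ta0 ta1
  have ta3 := (abs_le.mp (hb (1 / n) _ hh0 hh1 (by rw [abs_of_nonneg ta0]; linarith : |(n - 2 * a) / r| ≤ T))).1
  -- the near value
  have e1 := stau_est z C τ N n s r hz.le (by linarith) hn hs hr hτ
  have e2 : (C + z) / s ≤ C + z := div_le_self (by linarith) hs1
  have e3 := abs_le.mp (e1.trans e2)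
  have e4 : |(n - 2 * b) / r - z| ≤ ρ := by
    have e5 : (n - 2 * b) / r - z = (n - 2 * b - z * r) / r := by field_simp
    rw [e5, abs_div, abs_of_pos hr0, div_le_iff₀ hr0]
    have e6 : |n - 2 * b - z * r| ≤ 1 + C + z := by
      rw [abs_le]; constructor <;> linarith [e3.1, e3.2]
    have e7 : 1 + C + z ≤ ρ * s := by
      rw [div_le_iff₀ hρ0] at hsbig; linarith
    have e8 : ρ * s ≤ ρ * r := mul_le_mul_of_nonneg_left hsr hρ0.le
    linarith
  have e9 := hρ _ e4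
  have e10 : |(n - 2 * b) / r| ≤ T := by
    have h1 := abs_le.mp e4
    rw [abs_le]; constructor <;> linarith [h1.1, h1.2]
  have e11 := (abs_le.mp (hb (1 / n) _ hh0 hh1 e10)).2
  linarith

end Pool.Agent.V11276.KR
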