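import Pool.Agent.V11276.KR4

namespace Pool.Agent.V11276.KR

open Polynomial in
lemma hermite_Q (m : ℕ) : ∀ t : ℝ, aeval t (hermite m) = (m.factorial : ℝ) * Q m 0 t := by
  induction m with
  | zero => intro t; simp [Q]
  | succ m ih =>
    intro t
    have h1 : HasDerivAt (fun t : ℝ => aeval t (hermite m)) (aeval t (derivative (hermite m))) t :=
      Polynomial.hasDerivAt_aeval _ _
    have h2 : (fun t : ℝ => aeval t (hermite m)) = fun t => (m.factorial : ℝ) * Q m 0 t := by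
      ext s; exact ih s
    rw [h2] at h1
    have h3 := (hasDerivAt_Q m 0 t).const_mul (m.factorial : ℝ)
    have h4 := h1.unique h3
    rw [hermite_succ, map_sub, map_mul, aeval_X, ih t, h4, Nat.factorial_succ]
    cases m with
    | zero => simp [Q, DQ]
    | succ j =>
      rw [DQ_zero, show j + 1 + 1 = j + 2 by ring]
      have h5 := Q_rec j 0 t
      push_cast
      push_cast at h5
      linear_combination (-((j + 1).factorial : ℝ)) * h5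

lemma K_symm (m : ℕ) (hm : Even m) (n a : ℕ) (hn : 0 < n) (ha : a ≤ n) :
    K m ((n - a : ℕ) : ℝ) n = K m a n := by
  have hn' : (0 : ℝ) < n := by exact_mod_cast hn
  rw [K_Q m _ n hn', K_Q m _ n hn', Nat.cast_sub ha]
  have : ((n : ℝ) - 2 * ((n : ℝ) - a)) / √n = - (((n : ℝ) - 2 * a) / √n) := by ring
  rw [this, Q_neg, hm.neg_one_pow, one_mul]

lemma R_bounds (z δ C ρ h0 C2 ε : ℝ) (hz : 0 < z) (hδz : δ < z) (hC : 0 < C) (hρ : 0 < ρ) (hh0 : 0 < h0)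
    (hC2 : 0 < C2) (hε : 0 < ε) : ∃ R : ℝ, 1 ≤ R ∧ 2 * z ≤ R ∧ 1 / (z - δ) ≤ R ∧ (1 + C + z) / ρ ≤ R ∧
      1 / h0 ≤ R ∧ 4 * C2 / ε ≤ R := by
  have a1 : 0 < 1 / (z - δ) := by
    have : 0 < z - δ := by linarith
    positivity
  have a2 : 0 < (1 + C + z) / ρ := by positivity
  have a3 : 0 < 1 / h0 := by positivity
  have a4 : 0 < 4 * C2 / ε := by positivity
  refine ⟨1 + 2 * z + 1 / (z - δ) + (1 + C + z) / ρ + 1 / h0 + 4 * C2 / ε, ?_, ?_, ?_, ?_, ?_, ?_⟩ <;> linarith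

lemma rho_exists (m : ℕ) (z ε : ℝ) (hε : 0 < ε) : ∃ ρ : ℝ, 0 < ρ ∧ ∀ t, |t - z| ≤ ρ → Q m 0 t < Q m 0 z + ε / 2 := by
  have hc := (continuous_Q m 0).continuousAt (x := z)
  have he : ∀ᶠ t : ℝ in nhds z, Q m 0 t < Q m 0 z + ε / 2 := hc.eventually_lt_const (by linarith)
  obtain ⟨r, hr, hb⟩ := Metric.eventually_nhds_iff.mp he
  refine ⟨r / 2, by positivity, fun t ht => hb ?_⟩
  rw [Real.dist_eq]; linarith

lemma large_n (R : ℝ) (hR : 1 ≤ R) (n : ℕ) (hn : ⌈R ^ 2⌉₊ + 2 ≤ n) : R ^ 2 ≤ (n : ℝ) - 1 ∧ R ≤ √((n : ℝ) - 1) ∧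
    R ≤ (n : ℝ) - 1 ∧ (1 : ℝ) ≤ n - 1 := by
  have h1 : R ^ 2 ≤ ⌈R ^ 2⌉₊ := Nat.le_ceil _
  have h2 : ((⌈R ^ 2⌉₊ : ℝ) + 2) ≤ n := by exact_mod_cast hn
  have h3 : R ^ 2 ≤ (n : ℝ) - 1 := by linarith
  have h4 : R ≤ R ^ 2 := by nlinarith
  exact ⟨h3, Real.le_sqrt_of_sq_le h3, by linarith, by linarith⟩

lemma main_m (m : ℕ) (hm : 1 ≤ m) (hme : Even m) :
    ∃ z C : ℝ, 0 < z ∧ 0 < C ∧ Q (m + 1) 0 z = 0 ∧ (∀ t, z < t → 0 < Q (m + 1) 0 t) ∧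
      ∃ N0 : ℕ, 2 ≤ N0 ∧ ∀ n : ℕ, N0 ≤ n → ∃ ξ : ℝ, K (m + 1) ξ ((n : ℝ) - 1) = 0 ∧
        (∀ x, x < ξ → 0 < K (m + 1) x ((n : ℝ) - 1)) ∧ 0 ≤ ξ ∧ ξ + 1 ≤ n / 2 ∧
        |ξ - ((n : ℝ) - 1 - z * √n) / 2| ≤ C / √n ∧
        ∀ a ≤ n, ((∀ b ≤ n, K (m + 2) (a : ℝ) n ≤ K (m + 2) (b : ℝ) n) ↔
          ((ξ ≤ a ∧ (a : ℝ) ≤ ξ + 1) ∨ (ξ ≤ n - a ∧ (n : ℝ) - a ≤ ξ + 1))) := by
  obtain ⟨z, δ, C, ε, h0, D⟩ := tau_exists m hm
  have hz0 : 0 < z := D.δpos.trans D.δz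
  obtain ⟨ρ, hρ, hρb⟩ := rho_exists (m + 2) z ε D.εpos
  obtain ⟨C2, hC2, hb⟩ := Q_bounds (m + 2) (z + ρ) (by linarith)
  obtain ⟨R, r1, r2, r3, r4, r5, r6⟩ := R_bounds z δ C ρ h0 C2 ε hz0 D.δz D.Cpos hρ D.h0pos hC2 D.εpos
  refine ⟨z, C + z, hz0, by linarith [D.Cpos], D.hz, D.hzpos, ⌈R ^ 2⌉₊ + 2, by omega, fun n hn => ?_⟩
  obtain ⟨n1, n2, n3, n4⟩ := large_n R r1 n hn
  obtain ⟨N, hN⟩ : ∃ N : ℝ, N = (n : ℝ) - 1 := ⟨_, rfl⟩
  rw [← hN] at n1 n2 n3 n4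
  obtain ⟨s, hs⟩ : ∃ s : ℝ, s = √N := ⟨_, rfl⟩
  rw [← hs] at n2
  have hnN : (n : ℝ) = N + 1 := by rw [hN]; ring
  have hNpos : 0 < N := by linarith
  have hs0 : 0 < s := by linarith
  have hh : 1 / N ≤ h0 := by
    have h1 : 1 / h0 ≤ N := r5.trans n3
    rw [div_le_iff₀ D.h0pos] at h1
    rw [div_le_iff₀ hNpos]; linarith
  obtain ⟨τ, t1, t2, t3, t4, t5, t6⟩ := D.tau (1 / N) (by positivity) hh
  obtain ⟨k1, k2, k3⟩ := near m z δ τ N s hNpos hs t1 t4 t5 t6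
  have hτ0 : 0 < τ := by linarith [D.δz]
  have hss : s * s = N := by rw [hs]; exact Real.mul_self_sqrt hNpos.le
  have hξ0 : 0 ≤ (N - s * τ) / 2 := by
    have : s * τ ≤ s * s := mul_le_mul_of_nonneg_left (by linarith [D.δz]) hs0.le
    linarith
  have hmid : (N - s * τ) / 2 + 1 ≤ (n : ℝ) / 2 := by
    have h1 : 1 / (z - δ) ≤ s := r3.trans n2
    have h2 : 0 < z - δ := by linarith [D.δz]
    rw [div_le_iff₀ h2] at h1
    have h3 : s * (z - δ) ≤ s * τ := mul_le_mul_of_nonneg_left t1.le hs0.le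
    linarith
  refine ⟨(N - s * τ) / 2, by rw [← hN]; exact k1, by rw [← hN]; exact k2, hξ0, hmid, ?_, ?_⟩
  · have h1 := stau_est z C τ N n s (√n) hz0.le hNpos hnN hs rfl t3
    have hr0 : 0 < √(n : ℝ) := Real.sqrt_pos.mpr (by linarith)
    have h2 : √(n : ℝ) ≤ 2 * s := by
      rw [Real.sqrt_le_left (by linarith)]
      have : (2 * s) ^ 2 = 4 * N := by rw [mul_pow, pow_two s, hss]; norm_num
      rw [this]; linarith
    have h3 : (N - s * τ) / 2 - ((n : ℝ) - 1 - z * √n) / 2 = -(s * τ - z * √n) / 2 := by rw [hN]; ring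
    rw [h3, neg_div, abs_neg, abs_div, abs_of_pos (by norm_num : (0 : ℝ) < 2), div_le_iff₀ (by norm_num : (0 : ℝ) < 2)]
    refine h1.trans ?_
    rw [div_mul_eq_mul_div, div_le_div_iff₀ hs0 hr0]
    have : 0 < C + z := by linarith [D.Cpos]
    nlinarith
  · apply abstract_min n (fun a : ℕ => K (m + 2) (a : ℝ) n) ((N - s * τ) / 2) ((N - s * (z - δ)) / 2) hξ0
    · intro a ha
      have h1 := K_diff (m + 1) (a : ℝ) n
      have h2 := k2 a ha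
      rw [← hN] at h1
      show K (m + 2) ((a + 1 : ℕ) : ℝ) n < K (m + 2) (a : ℝ) n
      push_cast
      linarith
    · intro a ha
      have h1 := K_diff (m + 1) (a : ℝ) n
      rw [← ha] at k1
      rw [← hN, k1] at h1
      show K (m + 2) ((a + 1 : ℕ) : ℝ) n = K (m + 2) (a : ℝ) n
      push_cast
      linarith
    · intro a ha1 ha2
      have h1 := K_diff (m + 1) (a : ℝ) n
      have h2 := k3 a ha1 ha2
      rw [← hN] at h1
      show K (m + 2) (a : ℝ) n < K (m + 2) ((a + 1 : ℕ) : ℝ) n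
      push_cast
      linarith
    · intro a ha1 ha2 b hb1 hb2
      exact far m z δ ε ρ C C2 (z + ρ) τ N n s (√n) hz0 D.Cpos D.δpos D.δz le_rfl D.gap hρb hρ
        (fun h t p1 p2 p3 => (hb h t p1 p2 p3).2.2.1) n4 hnN hs rfl t3 (r4.trans n2)
        (by linarith) D.εpos a b ha1 (by exact_mod_cast ha2) hb1 hb2
    · intro a ha
      have hn0 : 0 < n := by omega
      have he : Even (m + 2) := hme.add even_two
      exact K_symm (m + 2) he n a hn0 ha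
    · exact hmid

end Pool.Agent.V11276.KR
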