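import Pool.Agent.V11276.KR5

namespace Pool.Agent.V11276.KR

lemma K_two (x N : ℝ) : 2 * K 2 x N = (N - 2 * x) ^ 2 - N := by
  have h := K_rec 0 x N
  rw [K_zero, show 0 + 1 = 1 by ring, K_one, show 0 + 2 = 2 by ring] at h
  push_cast at h
  linear_combination h

lemma K_three (x N : ℝ) : 6 * K 3 x N = (N - 2 * x) * ((N - 2 * x) ^ 2 - (3 * N - 2)) := by
  have h := K_rec 1 x N
  rw [show 1 + 1 = 2 by ring, K_one, show 1 + 2 = 3 by ring] at h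
  have h2 := K_two x N
  push_cast at h
  linear_combination 2 * h + (N - 2 * x) * h2

lemma K_four (x N : ℝ) : 24 * K 4 x N = (N - 2 * x) ^ 4 - (6 * N - 8) * (N - 2 * x) ^ 2 + 3 * N ^ 2 - 6 * N := by
  have h := K_rec 2 x N
  rw [show 2 + 1 = 3 by ring, show 2 + 2 = 4 by ring] at h
  have h2 := K_two x N
  have h3 := K_three x N
  push_cast at h
  linear_combination 6 * h + (N - 2 * x) * h3 - 3 * (N - 2) * h2

lemma K_five (x N : ℝ) : 120 * K 5 x N = (N - 2 * x) *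
    ((N - 2 * x) ^ 4 - (10 * N - 20) * (N - 2 * x) ^ 2 + (15 * N ^ 2 - 50 * N + 24)) := by
  have h := K_rec 3 x N
  rw [show 3 + 1 = 4 by ring, show 3 + 2 = 5 by ring] at h
  have h3 := K_three x N
  have h4 := K_four x N
  push_cast at h
  linear_combination 24 * h + (N - 2 * x) * h4 - 4 * (N - 3) * h3

lemma least_three (N ξ : ℝ) (hN : 1 ≤ N) (h0 : K 3 ξ N = 0) (hpos : ∀ x, x < ξ → 0 < K 3 x N) :
    ξ = (N - √(3 * N - 2)) / 2 := by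
  obtain ⟨r, hr⟩ : ∃ r, r = √(3 * N - 2) := ⟨_, rfl⟩
  have hr0 : 0 < r := by rw [hr]; exact Real.sqrt_pos.mpr (by linarith)
  have hr2 : r ^ 2 = 3 * N - 2 := by rw [hr]; exact Real.sq_sqrt (by linarith)
  rw [← hr]
  have h1 : K 3 ((N - r) / 2) N = 0 := by
    have h := K_three ((N - r) / 2) N
    have e : N - 2 * ((N - r) / 2) = r := by ring
    rw [e, hr2, sub_self, mul_zero] at h
    linarith
  have h2 : ξ ≤ (N - r) / 2 := by
    by_contra hc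
    have := hpos _ (not_le.mp hc)
    rw [h1] at this
    exact lt_irrefl _ this
  have h3 := K_three ξ N
  rw [h0, mul_zero, ← hr2] at h3
  have h4 : N - 2 * ξ ≠ 0 := by
    have : r ≤ N - 2 * ξ := by linarith
    linarith
  have h5 : (N - 2 * ξ) ^ 2 - r ^ 2 = 0 := by
    rcases mul_eq_zero.mp h3.symm with h | h
    · exact absurd h h4
    · exact h
  have h6 : (N - 2 * ξ - r) * (N - 2 * ξ + r) = 0 := by linear_combination h5
  rcases mul_eq_zero.mp h6 with h | h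
  · linarith
  · linarith

lemma least_five (N ξ : ℝ) (hN : 3 ≤ N) (h0 : K 5 ξ N = 0) (hpos : ∀ x, x < ξ → 0 < K 5 x N) :
    ξ = (N - √(5 * N - 10 + √(10 * N ^ 2 - 50 * N + 76))) / 2 := by
  obtain ⟨d, hd⟩ : ∃ d, d = √(10 * N ^ 2 - 50 * N + 76) := ⟨_, rfl⟩
  have hdp : 0 < 10 * N ^ 2 - 50 * N + 76 := by nlinarith [sq_nonneg (N - 5 / 2)]
  have hd0 : 0 < d := by rw [hd]; exact Real.sqrt_pos.mpr hdp
  have hd2 : d ^ 2 = 10 * N ^ 2 - 50 * N + 76 := by rw [hd]; exact Real.sq_sqrt hdp.le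
  rw [← hd]
  obtain ⟨r, hr⟩ : ∃ r, r = √(5 * N - 10 + d) := ⟨_, rfl⟩
  have hr0 : 0 < r := by rw [hr]; exact Real.sqrt_pos.mpr (by linarith)
  have hr2 : r ^ 2 = 5 * N - 10 + d := by rw [hr]; exact Real.sq_sqrt (by linarith)
  rw [← hr]
  have hfac : ∀ w : ℝ, w ^ 4 - (10 * N - 20) * w ^ 2 + (15 * N ^ 2 - 50 * N + 24) =
      (w ^ 2 - r ^ 2) * (w ^ 2 - (5 * N - 10 - d)) := by
    intro w
    rw [hr2]
    linear_combination hd2
  have h1 : K 5 ((N - r) / 2) N = 0 := by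
    have h := K_five ((N - r) / 2) N
    have e : N - 2 * ((N - r) / 2) = r := by ring
    rw [e, hfac, sub_self, zero_mul, mul_zero] at h
    linarith
  have h2 : ξ ≤ (N - r) / 2 := by
    by_contra hc
    have := hpos _ (not_le.mp hc)
    rw [h1] at this
    exact lt_irrefl _ this
  have h3 := K_five ξ N
  rw [h0, mul_zero, hfac] at h3
  have h4 : r ≤ N - 2 * ξ := by linarith
  have h7 : r ^ 2 ≤ (N - 2 * ξ) ^ 2 := by
    rw [sq_le_sq₀ hr0.le (by linarith)]; exact h4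
  have h5 : (N - 2 * ξ) ^ 2 - r ^ 2 = 0 := by
    rcases mul_eq_zero.mp h3.symm with h | h
    · exfalso; linarith
    · rcases mul_eq_zero.mp h with h | h
      · exact h
      · exfalso; linarith
  have h6 : (N - 2 * ξ - r) * (N - 2 * ξ + r) = 0 := by linear_combination h5
  rcases mul_eq_zero.mp h6 with h | h
  · linarith
  · linarith

/-- the rounding rule -/
noncomputable def rnd (n : ℕ) (ξ : ℝ) : Set ℕ := {⌈ξ⌉₊, ⌊ξ⌋₊ + 1, n - ⌈ξ⌉₊, n - (⌊ξ⌋₊ + 1)}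

lemma round_iff (ξ : ℝ) (hξ : 0 ≤ ξ) (a : ℕ) : (ξ ≤ a ∧ (a : ℝ) ≤ ξ + 1) ↔ (a = ⌈ξ⌉₊ ∨ a = ⌊ξ⌋₊ + 1) := by
  have h1 := Nat.le_ceil ξ
  have h2 := Nat.ceil_lt_add_one hξ
  have h3 := Nat.floor_le hξ
  have h4 := Nat.lt_floor_add_one ξ
  have h5 : ⌊ξ⌋₊ ≤ ⌈ξ⌉₊ := Nat.floor_le_ceil ξ
  constructor
  · rintro ⟨p1, p2⟩
    have q1 : ⌈ξ⌉₊ ≤ a := Nat.ceil_le.mpr p1
    by_cases hc : a = ⌊ξ⌋₊ + 1
    · right; exact hc
    · left
      have q2 : (a : ℝ) < ⌊ξ⌋₊ + 1 + 1 := by linarith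
      have q3 : a < ⌊ξ⌋₊ + 1 + 1 := by exact_mod_cast q2
      omega
  · rintro (h | h)
    · rw [h]; exact ⟨h1, h2.le⟩
    · rw [h]; push_cast; exact ⟨h4.le, by linarith⟩

lemma rnd_iff (n : ℕ) (ξ : ℝ) (hξ : 0 ≤ ξ) (hmid : ξ + 1 ≤ n / 2) (a : ℕ) :
    (a ≤ n ∧ ((ξ ≤ a ∧ (a : ℝ) ≤ ξ + 1) ∨ (ξ ≤ n - a ∧ (n : ℝ) - a ≤ ξ + 1))) ↔ a ∈ rnd n ξ := by
  have h2 := Nat.ceil_lt_add_one hξ
  have h3 := Nat.floor_le hξ
  have hn0 : (0 : ℝ) ≤ n := Nat.cast_nonneg n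
  have c1 : ⌈ξ⌉₊ ≤ n := by
    have : (⌈ξ⌉₊ : ℝ) ≤ n := by linarith
    exact_mod_cast this
  have c2 : ⌊ξ⌋₊ + 1 ≤ n := by
    have : ((⌊ξ⌋₊ + 1 : ℕ) : ℝ) ≤ n := by push_cast; linarith
    exact_mod_cast this
  unfold rnd
  simp only [Set.mem_insert_iff, Set.mem_singleton_iff]
  rw [round_iff ξ hξ a]
  constructor
  · rintro ⟨ha, h | h⟩
    · tauto
    · rw [← Nat.cast_sub ha, round_iff ξ hξ (n - a)] at h
      rcases h with h | h
      · right; right; left; omega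
      · right; right; right; omega
  · intro h
    have ha : a ≤ n := by omega
    refine ⟨ha, ?_⟩
    rw [← Nat.cast_sub ha, round_iff ξ hξ (n - a)]
    omega

lemma argmax_iff (k n a : ℕ) (ha : a ≤ n) : (∀ b ≤ n, ek k n b ≤ ek k n a) ↔
    (∀ b ≤ n, K (2 * k) (a : ℝ) n ≤ K (2 * k) (b : ℝ) n) := by
  have h1 := ek_K k n a ha
  constructor
  · intro h b hb
    have h2 := ek_K k n b hb
    have h3 : (ek k n b : ℝ) ≤ ek k n a := by exact_mod_cast h b hb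
    linarith
  · intro h b hb
    have h2 := ek_K k n b hb
    have h3 := h b hb
    have h4 : (ek k n b : ℝ) ≤ ek k n a := by linarith
    exact_mod_cast h4

lemma final (k : ℕ) (hk : 2 ≤ k) :
    ∃ z C : ℝ, IsGreatest {t : ℝ | Polynomial.aeval t (Polynomial.hermite (2 * k - 1)) = 0} z ∧ 0 < z ∧
      ∃ N0 : ℕ, 2 ≤ N0 ∧ ∀ n : ℕ, N0 ≤ n → ∃ ξ : ℝ, K (2 * k - 1) ξ ((n : ℝ) - 1) = 0 ∧
        (∀ x, x < ξ → 0 < K (2 * k - 1) x ((n : ℝ) - 1)) ∧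
        |ξ - ((n : ℝ) - 1 - z * √n) / 2| ≤ C / √n ∧
        {a | a ≤ n ∧ ∀ b ≤ n, ek k n b ≤ ek k n a} = rnd n ξ := by
  obtain ⟨m, hm1, hm2, hm3, hme⟩ : ∃ m, 2 * k = m + 2 ∧ 2 * k - 1 = m + 1 ∧ 1 ≤ m ∧ Even m :=
    ⟨2 * k - 2, by omega, by omega, by omega, ⟨k - 1, by omega⟩⟩
  obtain ⟨z, C, hz, hC, hz1, hz2, N0, hN0, hmain⟩ := main_m m hm3 hme
  refine ⟨z, C, ?_, hz, N0, hN0, ?_⟩
  · rw [hm2]
    constructor
    · show Polynomial.aeval z (Polynomial.hermite (m + 1)) = 0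
      rw [hermite_Q, hz1, mul_zero]
    · intro t ht
      have ht : Polynomial.aeval t (Polynomial.hermite (m + 1)) = 0 := ht
      rw [hermite_Q] at ht
      by_contra hc
      have h1 := hz2 t (not_le.mp hc)
      have h2 : (0 : ℝ) < ((m + 1).factorial : ℝ) := by positivity
      have h3 := mul_pos h2 h1
      rw [ht] at h3
      exact lt_irrefl _ h3
  · intro n hn
    obtain ⟨ξ, p1, p2, p3, p4, p5, p6⟩ := hmain n hn
    refine ⟨ξ, by rw [hm2]; exact p1, by rw [hm2]; exact p2, p5, ?_⟩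
    ext a
    rw [← rnd_iff n ξ p3 p4 a]
    show (a ≤ n ∧ ∀ b ≤ n, ek k n b ≤ ek k n a) ↔ _
    constructor
    · rintro ⟨ha, h⟩
      rw [argmax_iff k n a ha, hm1] at h
      exact ⟨ha, (p6 a ha).mp h⟩
    · rintro ⟨ha, h⟩
      refine ⟨ha, ?_⟩
      rw [argmax_iff k n a ha, hm1]
      exact (p6 a ha).mpr h

end Pool.Agent.V11276.KR
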