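import Pool.Agent.V11276.KR6

namespace Pool.Agent.V11276.KR

lemma two_all (n : ℕ) (hn : 4 ≤ n) :
    {a | a ≤ n ∧ ∀ b ≤ n, ek 2 n b ≤ ek 2 n a} = rnd n (((n : ℝ) - 1 - √(3 * n - 5)) / 2) := by
  have hn4 : (4 : ℝ) ≤ n := by exact_mod_cast hn
  obtain ⟨r, hr⟩ : ∃ r, r = √(3 * (n : ℝ) - 5) := ⟨_, rfl⟩
  have hr1 : 1 ≤ r := by rw [hr]; exact Real.one_le_sqrt.mpr (by linarith)
  have hr2 : r ^ 2 = 3 * (n : ℝ) - 5 := by rw [hr]; exact Real.sq_sqrt (by linarith)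
  have hrn : r ≤ (n : ℝ) - 1 := by
    rw [hr, Real.sqrt_le_left (by linarith)]; nlinarith
  rw [← hr]
  have hξ0 : 0 ≤ ((n : ℝ) - 1 - r) / 2 := by linarith
  have hmid : ((n : ℝ) - 1 - r) / 2 + 1 ≤ (n : ℝ) / 2 := by linarith
  have hK3 : ∀ x : ℝ, 6 * K 3 x ((n : ℝ) - 1) =
      ((n : ℝ) - 1 - 2 * x) * (((n : ℝ) - 1 - 2 * x - r) * ((n : ℝ) - 1 - 2 * x + r)) := by
    intro x
    have h := K_three x ((n : ℝ) - 1)
    have e : 3 * ((n : ℝ) - 1) - 2 = r ^ 2 := by rw [hr2]; ring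
    rw [e] at h
    linear_combination h
  have hmain := abstract_min n (fun a : ℕ => K 4 (a : ℝ) n) (((n : ℝ) - 1 - r) / 2) (((n : ℝ) - 2) / 2) hξ0
    (by
      intro a ha
      have h1 := K_diff 3 (a : ℝ) n
      have h2 := hK3 a
      have h3 : 0 < ((n : ℝ) - 1 - 2 * a) * (((n : ℝ) - 1 - 2 * a - r) * ((n : ℝ) - 1 - 2 * a + r)) := by
        apply mul_pos (by linarith) (mul_pos (by linarith) (by linarith))
      rw [show 3 + 1 = 4 by ring] at h1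
      show K 4 ((a + 1 : ℕ) : ℝ) n < K 4 (a : ℝ) n
      push_cast
      linarith)
    (by
      intro a ha
      have h1 := K_diff 3 (a : ℝ) n
      have h2 := hK3 a
      have h3 : (n : ℝ) - 1 - 2 * a - r = 0 := by linarith
      rw [h3, zero_mul, mul_zero] at h2
      rw [show 3 + 1 = 4 by ring] at h1
      show K 4 ((a + 1 : ℕ) : ℝ) n = K 4 (a : ℝ) n
      push_cast
      linarith)
    (by
      intro a ha1 ha2
      have h1 := K_diff 3 (a : ℝ) n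
      have h2 := hK3 a
      have h3 : ((n : ℝ) - 1 - 2 * a) * (((n : ℝ) - 1 - 2 * a - r) * ((n : ℝ) - 1 - 2 * a + r)) < 0 := by
        apply mul_neg_of_pos_of_neg (by linarith) (mul_neg_of_neg_of_pos (by linarith) (by linarith))
      rw [show 3 + 1 = 4 by ring] at h1
      show K 4 (a : ℝ) n < K 4 ((a + 1 : ℕ) : ℝ) n
      push_cast
      linarith)
    (by
      intro a ha1 ha2
      exfalso
      have h3 : (2 : ℝ) * a ≤ n := by exact_mod_cast ha2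
      linarith)
    (by
      intro a ha
      exact K_symm 4 ⟨2, rfl⟩ n a (by omega) ha)
    hmid
  ext a
  rw [← rnd_iff n _ hξ0 hmid a]
  show (a ≤ n ∧ ∀ b ≤ n, ek 2 n b ≤ ek 2 n a) ↔ _
  constructor
  · rintro ⟨ha, h⟩
    rw [argmax_iff 2 n a ha] at h
    exact ⟨ha, (hmain a ha).mp h⟩
  · rintro ⟨ha, h⟩
    refine ⟨ha, ?_⟩
    rw [argmax_iff 2 n a ha]
    exact (hmain a ha).mpr h

end Pool.Agent.V11276.KR
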