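import Mathlib

/-! Colored `p`-ary partitions: functional equation, sections; a Wolstenholme prime. -/

namespace Pool.Agent.V11276.PC

open PowerSeries

section general

variable (p : ℕ)

/-- partial products -/
noncomputable def PN (N : ℕ) : ℤ⟦X⟧ := ∏ i ∈ Finset.range N, (1 - X ^ (p ^ i))

/-- `∏_{i ≥ 0} (1 - X ^ (p ^ i))` -/
noncomputable def F : ℤ⟦X⟧ := PowerSeries.mk fun n => coeff n (PN p (n + 1))

variable {p}

/-- expand -/
noncomputable def ex (hp : 2 ≤ p) (f : ℤ⟦X⟧) : ℤ⟦X⟧ := expand p (by omega) f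

variable (hp : 2 ≤ p)

include hp

theorem PN_succ (N : ℕ) : PN p (N + 1) = (1 - X) * ex hp (PN p N) := by
  unfold PN ex
  rw [Finset.prod_range_succ', map_prod]
  rw [mul_comm]
  congr 1
  · simp
  · refine Finset.prod_congr rfl fun i _ => ?_
    rw [map_sub, map_one, map_pow, expand_X, ← pow_mul, pow_succ p i, mul_comm p]

theorem coeff_PN_stable {n N M : ℕ} (h : n < p ^ N) (hM : N ≤ M) :
    coeff n (PN p M) = coeff n (PN p N) := by
  induction M, hM using Nat.le_induction with
  | base => rfl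
  | succ M hM ih =>
    have e : PN p (M + 1) = PN p M - X ^ (p ^ M) * PN p M := by
      unfold PN
      rw [Finset.prod_range_succ]; ring
    rw [e, map_sub, coeff_X_pow_mul', if_neg, sub_zero, ih]
    have : p ^ N ≤ p ^ M := Nat.pow_le_pow_right (by omega) hM
    omega

theorem lt_pow_succ (n : ℕ) : n < p ^ (n + 1) :=
  lt_trans (Nat.lt_pow_self (by omega)) (Nat.pow_lt_pow_right (by omega) (by omega))

theorem coeff_F {n N : ℕ} (h : n < p ^ N) : coeff n (F p) = coeff n (PN p N) := by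
  unfold F
  rw [coeff_mk]
  rcases le_total N (n + 1) with h1 | h1
  · exact coeff_PN_stable hp h h1
  · exact (coeff_PN_stable hp (lt_pow_succ hp n) h1).symm

theorem F_eq : F p = (1 - X) * ex hp (F p) := by
  ext n
  have h2 : n < p ^ (n + 1) := lt_pow_succ hp n
  have h3 : n < p ^ (n + 1 + 1) := lt_trans h2 (Nat.pow_lt_pow_right (by omega) (by omega))
  rw [coeff_F hp h3, PN_succ hp, coeff_mul, coeff_mul]
  refine Finset.sum_congr rfl fun x hx => ?_
  congr 1
  have := Finset.HasAntidiagonal.mem_antidiagonal.1 hx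
  unfold ex
  rw [coeff_expand, coeff_expand]
  split_ifs
  · rw [coeff_F hp]
    have : x.2 / p ≤ x.2 := Nat.div_le_self _ _
    omega
  · rfl

theorem F_const : constantCoeff (F p) = 1 := by
  rw [← coeff_zero_eq_constantCoeff_apply, coeff_F hp (N := 0) (by norm_num)]
  simp [PN]

omit hp

/-- denominator -/
noncomputable def H (p m : ℕ) : ℤ⟦X⟧ := (1 - X) ^ m * F p ^ ((p - 1) * m)

include hp

theorem H_const (m : ℕ) : constantCoeff (H p m) = 1 := by
  unfold H; rw [map_mul, map_pow, map_pow, F_const hp]; simp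

theorem H_eq (m : ℕ) : (1 - X ^ p) ^ m * H p m = (1 - X) ^ (p * m) * ex hp (H p m) := by
  have hX : ex hp X = X ^ p := expand_X p (by omega)
  have h2 : ex hp (H p m) = (1 - X ^ p) ^ m * (ex hp (F p)) ^ ((p - 1) * m) := by
    unfold H ex at *
    rw [map_mul, map_pow, map_pow, map_sub, map_one, hX]
  rw [h2]
  unfold H
  conv_lhs => rw [F_eq hp]
  rw [mul_pow]
  have : p * m = m + (p - 1) * m := by
    obtain ⟨q, rfl⟩ : ∃ q, p = q + 1 := ⟨p - 1, by omega⟩
    simp; ring
  rw [this, pow_add]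
  ring

omit hp

/-- generating function of the colored partitions -/
noncomputable def G (p m : ℕ) : ℤ⟦X⟧ := invOfUnit (H p m) 1

include hp

theorem G_spec (m : ℕ) : H p m * G p m = 1 :=
  mul_invOfUnit _ _ (by rw [H_const hp]; simp)

theorem G_eq (m : ℕ) : (1 - X) ^ (p * m) * G p m = (1 - X ^ p) ^ m * ex hp (G p m) := by
  have h1 := G_spec hp m
  have h2 := H_eq hp m
  have h3 : ex hp (H p m) * ex hp (G p m) = 1 := by
    unfold ex; rw [← map_mul, h1, map_one]
  linear_combination ((1 - X) ^ (p * m) * G p m) * (-h3) + (G p m * ex hp (G p m)) * (-h2) +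
    ((1 - X ^ p) ^ m * ex hp (G p m)) * h1

omit hp

/-- `1/(1-x)` -/
noncomputable def io : ℤ⟦X⟧ := mk 1

theorem io_mul : io * (1 - X) = 1 := mk_one_mul_one_sub_eq_one ℤ

include hp

theorem G_eq' (m : ℕ) : G p m = ex hp (G p m) * ((1 - X ^ p) ^ m * io ^ (p * m)) := by
  have h := G_eq hp m
  have h2 : io ^ (p * m) * (1 - X) ^ (p * m) = 1 := by rw [← mul_pow, io_mul, one_pow]
  linear_combination io ^ (p * m) * h - G p m * h2

omit hp

/-- section -/
noncomputable def E (p : ℕ) (f : ℤ⟦X⟧) : ℤ⟦X⟧ := mk fun n => coeff (p * n) f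

theorem coeff_E (f : ℤ⟦X⟧) (n : ℕ) : coeff n (E p f) = coeff (p * n) f := by
  unfold E; rw [coeff_mk]

theorem E_add (f g : ℤ⟦X⟧) : E p (f + g) = E p f + E p g := by
  ext n; rw [coeff_E, map_add, map_add, coeff_E, coeff_E]

theorem E_sub (f g : ℤ⟦X⟧) : E p (f - g) = E p f - E p g := by
  ext n; rw [coeff_E, map_sub, map_sub, coeff_E, coeff_E]

theorem E_C_mul (c : ℤ) (f : ℤ⟦X⟧) : E p (C c * f) = C c * E p f := by
  ext n; rw [coeff_E, coeff_C_mul, coeff_C_mul, coeff_E]

include hp

theorem E_ex_mul (a f : ℤ⟦X⟧) : E p (ex hp a * f) = a * E p f := by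
  ext n
  rw [coeff_E, coeff_mul, coeff_mul]
  have hinj : Set.InjOn (fun x : ℕ × ℕ => (p * x.1, p * x.2))
      (Finset.HasAntidiagonal.antidiagonal n : Finset (ℕ × ℕ)) := by
    intro x _ y _ h
    simp only [Prod.mk.injEq] at h
    have hp0 : 0 < p := by omega
    exact Prod.ext (Nat.eq_of_mul_eq_mul_left hp0 h.1) (Nat.eq_of_mul_eq_mul_left hp0 h.2)
  symm
  refine Finset.sum_of_injOn (fun x : ℕ × ℕ => (p * x.1, p * x.2)) hinj ?_ ?_ ?_
  · intro x hx
    have hx' := Finset.HasAntidiagonal.mem_antidiagonal.1 hx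
    apply Finset.HasAntidiagonal.mem_antidiagonal.2
    show p * x.1 + p * x.2 = p * n
    rw [← mul_add, hx']
  · intro x hx hne
    have hx' := Finset.HasAntidiagonal.mem_antidiagonal.1 hx
    unfold ex
    rw [coeff_expand]
    split_ifs with hd
    · exfalso
      obtain ⟨i, hi⟩ := hd
      apply hne
      have h2 : p ∣ x.2 := by
        have : p ∣ x.1 + x.2 := by rw [hx']; exact dvd_mul_right _ _
        exact (Nat.dvd_add_right (by rw [hi]; exact dvd_mul_right _ _)).1 this
      obtain ⟨j, hj⟩ := h2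
      refine ⟨(i, j), ?_, ?_⟩
      · apply Finset.HasAntidiagonal.mem_antidiagonal.2
        have hp0 : 0 < p := by omega
        apply Nat.eq_of_mul_eq_mul_left hp0
        rw [← hx', hi, hj]; ring
      · exact Prod.ext hi.symm hj.symm
    · rw [zero_mul]
  · intro x _
    show coeff x.1 a * coeff x.2 (E p f) = coeff (p * x.1) (ex hp a) * coeff (p * x.2) f
    unfold ex
    rw [coeff_expand_mul, coeff_E]

theorem E_G (m : ℕ) : E p (G p m) = G p m * ((1 - X) ^ m * E p (io ^ (p * m))) := by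
  have hX : ex hp X = X ^ p := expand_X p (by omega)
  have h1 : (1 - X ^ p : ℤ⟦X⟧) ^ m = ex hp ((1 - X) ^ m) := by
    unfold ex at *
    rw [map_pow, map_sub, map_one, hX]
  conv_lhs => rw [G_eq' hp, h1, E_ex_mul hp, E_ex_mul hp]

end general

end Pool.Agent.V11276.PC
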