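import Pool.Agent.V11276.PC

/-! Colored `p`-ary partitions: Wolstenholme primes. -/

namespace Pool.Agent.V11276.PC

open PowerSeries

theorem prod_shape (c : ℕ → ℤ) (h : ℕ) : ∃ S : ℤ, ∀ Y : ℤ, ∃ q : ℤ,
    ∏ i ∈ Finset.range h, (Y + c i) = ∏ i ∈ Finset.range h, c i + Y * S + Y ^ 2 * q := by
  induction h with
  | zero => exact ⟨0, fun Y => ⟨0, by simp⟩⟩
  | succ h ih =>
    obtain ⟨S, hS⟩ := ih
    refine ⟨∏ i ∈ Finset.range h, c i + S * c h, fun Y => ?_⟩
    obtain ⟨q, hq⟩ := hS Y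
    refine ⟨S + q * c h + Y * q, ?_⟩
    rw [Finset.prod_range_succ, Finset.prod_range_succ, hq]
    ring

theorem prod_pair (h : ℕ) (x : ℤ) : ∏ i ∈ Finset.range (2 * h), (x + 1 + i) =
    ∏ i ∈ Finset.range h, (x * (x + (2 * h + 1)) + (1 + (i : ℤ)) * (2 * h - i)) := by
  rw [two_mul, Finset.prod_range_add, ← Finset.prod_range_reflect (fun i => x + 1 + ((h + i : ℕ) : ℤ)),
    ← Finset.prod_mul_distrib]
  refine Finset.prod_congr rfl fun i hi => ?_
  have hi := Finset.mem_range.1 hi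
  have : ((h + (h - 1 - i) : ℕ) : ℤ) = 2 * h - 1 - i := by omega
  rw [this]
  ring

/-- binomials modulo `p^4` -/
theorem choose_mod (h : ℕ) (hp : (2 * h + 1).Prime)
    (hw : ((2 * h + 1 : ℕ) : ℤ) ^ 4 ∣ ∏ i ∈ Finset.range (2 * h), (((2 * h + 1 : ℕ) : ℤ) + 1 + i) -
      ((2 * h).factorial : ℤ)) (k : ℕ) :
    ((2 * h + 1 : ℕ) : ℤ) ^ 4 ∣ ((((2 * h) + (2 * h + 1) * k).choose (2 * h) : ℕ) : ℤ) - 1 := by
  obtain ⟨S, hS⟩ := prod_shape (fun i => (1 + (i : ℤ)) * (2 * h - i)) h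
  set P : ℤ := ((2 * h + 1 : ℕ) : ℤ) with hP
  have hP' : P = 2 * h + 1 := by rw [hP]; push_cast; ring
  set A := ∏ i ∈ Finset.range h, ((1 + (i : ℤ)) * (2 * h - i)) with hA
  have hfac : ((2 * h).factorial : ℤ) = A := by
    have h0 := prod_pair h 0
    rw [zero_mul] at h0
    have h1 : ∏ i ∈ Finset.range (2 * h), ((0 : ℤ) + 1 + i) = ((2 * h).factorial : ℤ) := by
      rw [← Finset.prod_range_add_one_eq_factorial]
      push_cast
      exact Finset.prod_congr rfl fun i _ => by ring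
    rw [← h1, h0]
    exact Finset.prod_congr rfl fun i _ => by ring
  have gen : ∀ k : ℤ, ∃ q : ℤ, ∏ i ∈ Finset.range (2 * h), (P * k + 1 + i) =
      A + P ^ 2 * (k * (k + 1)) * S + P ^ 4 * (k * (k + 1)) ^ 2 * q := by
    intro k
    obtain ⟨q, hq⟩ := hS (P * k * (P * k + (2 * h + 1)))
    refine ⟨q, ?_⟩
    rw [prod_pair, hq, ← hP']
    ring
  obtain ⟨q1, h1⟩ := gen 1
  have hP0 : P ≠ 0 := by rw [hP]; exact_mod_cast hp.ne_zero
  have hS2 : P ^ 2 ∣ 2 * S := by
    rw [mul_one] at h1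
    rw [h1, hfac] at hw
    obtain ⟨w, hw⟩ := hw
    refine ⟨w - 4 * q1, ?_⟩
    apply mul_left_cancel₀ (pow_ne_zero 2 hP0)
    linear_combination hw
  obtain ⟨q, hk⟩ := gen k
  have hasc : ∏ i ∈ Finset.range (2 * h), (P * k + 1 + i) =
      ((2 * h).factorial : ℤ) * ((((2 * h) + (2 * h + 1) * k).choose (2 * h) : ℕ) : ℤ) := by
    have h2 := Nat.ascFactorial_eq_factorial_mul_choose ((2 * h + 1) * k) (2 * h)
    rw [Nat.ascFactorial_eq_prod_range] at h2
    have h3 : ((∏ i ∈ Finset.range (2 * h), ((2 * h + 1) * k + 1 + i) : ℕ) : ℤ) =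
        ((2 * h).factorial * ((2 * h + 1) * k + 2 * h).choose (2 * h) : ℕ) := by rw [h2]
    rw [add_comm (2 * h) ((2 * h + 1) * k)]
    rw [Nat.cast_mul] at h3
    rw [← h3, hP]
    push_cast
    rfl
  have hdvd : P ^ 4 ∣ ((2 * h).factorial : ℤ) *
      (((((2 * h) + (2 * h + 1) * k).choose (2 * h) : ℕ) : ℤ) - 1) := by
    have e : ((2 * h).factorial : ℤ) * (((((2 * h) + (2 * h + 1) * k).choose (2 * h) : ℕ) : ℤ) - 1)
        = P ^ 2 * (k * (k + 1)) * S + P ^ 4 * (k * (k + 1)) ^ 2 * q := by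
      linear_combination -hasc + hk - hfac
    rw [e]
    refine dvd_add ?_ ⟨(k * (k + 1)) ^ 2 * q, by ring⟩
    obtain ⟨j, hj⟩ : ∃ j : ℤ, (k : ℤ) * (k + 1) = 2 * j := by
      rcases Int.even_mul_succ_self (k : ℤ) with ⟨j, hj⟩
      exact ⟨j, by rw [hj]; ring⟩
    obtain ⟨w, hw⟩ := hS2
    refine ⟨j * w, ?_⟩
    rw [hj]
    linear_combination (P ^ 2 * j) * hw
  have hcop : IsCoprime (P ^ 4) ((2 * h).factorial : ℤ) := by
    apply IsCoprime.pow_left
    rw [hP, Nat.isCoprime_iff_coprime]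
    rw [Nat.Prime.coprime_iff_not_dvd hp, Nat.Prime.dvd_factorial hp]
    omega
  exact hcop.dvd_of_dvd_mul_left hdvd

/-- for a Wolstenholme prime, `p^4` divides `d_1(pn) - d_1(n)` -/
theorem wol_step (h : ℕ) (hp : (2 * h + 1).Prime)
    (hw : ((2 * h + 1 : ℕ) : ℤ) ^ 4 ∣ ∏ i ∈ Finset.range (2 * h), (((2 * h + 1 : ℕ) : ℤ) + 1 + i) -
      ((2 * h).factorial : ℤ)) (n : ℕ) :
    ((2 * h + 1 : ℕ) : ℤ) ^ 4 ∣ coeff ((2 * h + 1) * n) (G (2 * h + 1) 1) -
      coeff n (G (2 * h + 1) 1) := by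
  have h2 : 2 ≤ 2 * h + 1 := hp.two_le
  rw [← coeff_E, E_G h2, pow_one, mul_one]
  choose f hf using choose_mod h hp hw
  have e : E (2 * h + 1) (io ^ (2 * h + 1)) = io + C (((2 * h + 1 : ℕ) : ℤ) ^ 4) * mk f := by
    ext k
    rw [coeff_E, map_add, coeff_C_mul, coeff_mk]
    unfold io
    rw [mk_one_pow_eq_mk_choose_add, coeff_mk, coeff_mk]
    have := hf k
    simp only [Pi.one_apply]
    linarith
  have e2 : G (2 * h + 1) 1 * ((1 - X) * E (2 * h + 1) (io ^ (2 * h + 1))) = G (2 * h + 1) 1 +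
      C (((2 * h + 1 : ℕ) : ℤ) ^ 4) * (G (2 * h + 1) 1 * ((1 - X) * mk f)) := by
    rw [e]
    linear_combination (G (2 * h + 1) 1) * io_mul
  rw [e2, map_add, coeff_C_mul, add_sub_cancel_left]
  exact dvd_mul_right _ _

/-- product of `n` consecutive numbers starting at `a`, modulo `M`, by binary splitting -/
def pr (M : ℕ) : ℕ → ℕ → ℕ → ℕ
  | 0, a, n => if n = 0 then 1 % M else a % M
  | f + 1, a, n => if n = 0 then 1 % M else if n = 1 then a % M else
      (pr M f a (n / 2) * pr M f (a + n / 2) (n - n / 2)) % M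

theorem pr_spec (M : ℕ) (f a n : ℕ) (h : n ≤ 2 ^ f) :
    pr M f a n ≡ ∏ i ∈ Finset.range n, (a + i) [MOD M] := by
  induction f generalizing a n with
  | zero =>
    unfold pr
    have : n = 0 ∨ n = 1 := by
      rw [pow_zero] at h; omega
    rcases this with rfl | rfl
    · simp [Nat.ModEq]
    · simp [Nat.ModEq]
  | succ f ih =>
    unfold pr
    split_ifs with h0 h1
    · subst h0; simp [Nat.ModEq]
    · subst h1; simp [Nat.ModEq]
    · rw [pow_succ] at h
      have i1 := ih a (n / 2) (by omega)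
      have i2 := ih (a + n / 2) (n - n / 2) (by omega)
      have e : ∏ i ∈ Finset.range n, (a + i) = (∏ i ∈ Finset.range (n / 2), (a + i)) *
          ∏ i ∈ Finset.range (n - n / 2), (a + n / 2 + i) := by
        conv_lhs => rw [show n = n / 2 + (n - n / 2) by omega]
        rw [Finset.prod_range_add]
        congr 1
        exact Finset.prod_congr rfl fun i _ => by ring
      rw [e]
      exact (Nat.mod_modEq _ _).trans (i1.mul i2)

theorem wol_check : pr (16843 ^ 4) 15 16844 16842 = pr (16843 ^ 4) 15 1 16842 := by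
  decide +kernel

theorem prime_16843 : Nat.Prime 16843 := by norm_num

theorem wol : (((2 * 8421 + 1 : ℕ)) : ℤ) ^ 4 ∣ ∏ i ∈ Finset.range (2 * 8421),
    ((((2 * 8421 + 1 : ℕ)) : ℤ) + 1 + i) - ((2 * 8421).factorial : ℤ) := by
  have h1 := pr_spec (16843 ^ 4) 15 16844 16842 (by norm_num)
  have h2 := pr_spec (16843 ^ 4) 15 1 16842 (by norm_num)
  rw [wol_check] at h1
  have h3 : ∏ i ∈ Finset.range 16842, (1 + i) = Nat.factorial 16842 := by
    rw [← Finset.prod_range_add_one_eq_factorial]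
    exact Finset.prod_congr rfl fun i _ => by ring
  rw [h3] at h2
  have h4 := h2.symm.trans h1
  have h5 := (Nat.modEq_iff_dvd).1 h4
  have e : ((∏ i ∈ Finset.range 16842, (16844 + i) : ℕ) : ℤ) =
      ∏ i ∈ Finset.range (2 * 8421), ((((2 * 8421 + 1 : ℕ)) : ℤ) + 1 + i) := by
    rw [Nat.cast_prod]
    refine Finset.prod_congr (by norm_num) fun i _ => ?_
    push_cast
    ring
  rw [← e]
  exact_mod_cast h5

/-- For `p = 16843` and `m = 1`. -/
theorem wol_final (n : ℕ) : (16843 : ℤ) ^ 4 ∣ coeff (16843 ^ 2 * n) (G 16843 1) -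
    coeff n (G 16843 1) := by
  have h1 := wol_step 8421 (by norm_num) wol n
  have h2 := wol_step 8421 (by norm_num) wol (16843 * n)
  norm_num only at h1 h2
  have e : 16843 ^ 2 * n = 16843 * (16843 * n) := by ring
  rw [e]
  have h3 := dvd_add h2 h1
  have e3 : coeff (16843 * (16843 * n)) (G 16843 1) - coeff n (G 16843 1) =
      coeff (16843 * (16843 * n)) (G 16843 1) - coeff (16843 * n) (G 16843 1) +
      (coeff (16843 * n) (G 16843 1) - coeff n (G 16843 1)) := by ring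
  rw [e3]
  norm_num only
  exact h3

end Pool.Agent.V11276.PC
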