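import Mathlib

namespace Pool.Agent.V11276.PE

open Finset MeasureTheory Filter Topology

/-! ### Entropy of finite valued maps -/

section ent
variable {Ω : Type*} [MeasurableSpace Ω] {ν : Measure Ω}
variable {ι κ α β γ δ : Type*}

/-- probability that `f = i` -/
noncomputable def pr (ν : Measure Ω) (f : Ω → ι) (i : ι) : ℝ := ν.real (f ⁻¹' {i})

lemma pr_nonneg (f : Ω → ι) (i : ι) : 0 ≤ pr ν f i := measureReal_nonneg

/-- Shannon entropy of `f` -/
noncomputable def Hm [Fintype ι] (ν : Measure Ω) (f : Ω → ι) : ℝ := ∑ i, pr ν f i * (-Real.log (pr ν f i))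

lemma Hm_negMulLog [Fintype ι] (f : Ω → ι) : Hm ν f = ∑ i, Real.negMulLog (pr ν f i) := by
  unfold Hm Real.negMulLog
  apply sum_congr rfl; intro i _; ring

variable [IsProbabilityMeasure ν]

section meas
variable [Fintype ι] [MeasurableSpace ι] [MeasurableSingletonClass ι]

lemma intg_fin (f : Ω → ι) (hf : Measurable f) (φ : ι → ℝ) : Integrable (fun x => φ (f x)) ν := by
  have h1 : Integrable φ (ν.map f) := by
    haveI : IsProbabilityMeasure (ν.map f) := Measure.isProbabilityMeasure_map hf.aemeasurable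
    exact Integrable.of_finite
  exact (integrable_map_measure h1.1 hf.aemeasurable).mp h1

lemma int_fin (f : Ω → ι) (hf : Measurable f) (φ : ι → ℝ) : ∫ x, φ (f x) ∂ν = ∑ i, pr ν f i * φ i := by
  haveI : IsProbabilityMeasure (ν.map f) := Measure.isProbabilityMeasure_map hf.aemeasurable
  have h1 : Integrable φ (ν.map f) := Integrable.of_finite
  rw [← integral_map hf.aemeasurable h1.1, integral_fintype h1]
  apply sum_congr rfl
  intro i _
  rw [smul_eq_mul, pr, measureReal_def, measureReal_def, Measure.map_apply hf (measurableSet_singleton i)]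

lemma pr_sum (f : Ω → ι) (hf : Measurable f) : ∑ i, pr ν f i = 1 := by
  have := int_fin (ν := ν) f hf (fun _ => 1)
  simp at this
  exact this.symm

lemma Hm_int (f : Ω → ι) (hf : Measurable f) : Hm ν f = ∫ x, -Real.log (pr ν f (f x)) ∂ν := by
  rw [int_fin f hf (fun i => -Real.log (pr ν f i))]
  rfl

lemma ae_pr_pos (f : Ω → ι) (hf : Measurable f) : ∀ᵐ x ∂ν, 0 < pr ν f (f x) := by
  have h : ∀ i, ∀ᵐ x ∂ν, f x = i → 0 < pr ν f i := by
    intro i
    by_cases hi : 0 < pr ν f i
    · exact Eventually.of_forall fun _ _ => hi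
    · have h0 : pr ν f i = 0 := le_antisymm (not_lt.mp hi) (pr_nonneg f i)
      have h1 : ν (f ⁻¹' {i}) = 0 := by
        rw [pr, measureReal_def, ENNReal.toReal_eq_zero_iff] at h0
        rcases h0 with h0 | h0
        · exact h0
        · exact absurd h0 (measure_ne_top _ _)
      have h2 : ∀ᵐ x ∂ν, x ∉ f ⁻¹' {i} := measure_eq_zero_iff_ae_notMem.mp h1
      filter_upwards [h2] with x hx hfx
      exact absurd hfx hx
  have h' := ae_all_iff.mpr h
  filter_upwards [h'] with x hx
  exact hx (f x) rfl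

/-- Gibbs inequality -/
lemma gibbs (f : Ω → ι) (hf : Measurable f) (q : ι → ℝ) (hq : ∀ i, 0 ≤ q i) (hs : ∑ i, q i ≤ 1)
    (hpos : ∀ i, 0 < pr ν f i → 0 < q i) : Hm ν f ≤ ∫ x, -Real.log (q (f x)) ∂ν := by
  rw [int_fin f hf (fun i => -Real.log (q i)), Hm]
  have key : ∀ i, pr ν f i * (-Real.log (pr ν f i)) - pr ν f i * (-Real.log (q i)) ≤ q i - pr ν f i := by
    intro i
    rcases eq_or_lt_of_le (pr_nonneg (ν := ν) f i) with h0 | h0
    · rw [← h0]; simp; exact hq i
    · have hqi := hpos i h0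
      have h1 := Real.log_le_sub_one_of_pos (div_pos hqi h0)
      rw [Real.log_div hqi.ne' h0.ne'] at h1
      have h2 := mul_le_mul_of_nonneg_left h1 h0.le
      have h3 : pr ν f i * (q i / pr ν f i - 1) = q i - pr ν f i := by field_simp
      rw [h3] at h2
      linarith
  have h1 := sum_le_sum (fun i (_ : i ∈ univ) => key i)
  rw [sum_sub_distrib, sum_sub_distrib, pr_sum f hf] at h1
  linarith

/-- equality case of the Gibbs inequality -/
lemma gibbs_eq (f : Ω → ι) (hf : Measurable f) (q : ι → ℝ) (hq : ∀ i, 0 ≤ q i) (hs : ∑ i, q i ≤ 1)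
    (hpos : ∀ i, 0 < pr ν f i → 0 < q i) (h : ∫ x, -Real.log (q (f x)) ∂ν ≤ Hm ν f) : ∀ i, pr ν f i = q i := by
  rw [int_fin f hf (fun i => -Real.log (q i)), Hm] at h
  have key : ∀ i, pr ν f i * (-Real.log (pr ν f i)) - pr ν f i * (-Real.log (q i)) ≤ q i - pr ν f i := by
    intro i
    rcases eq_or_lt_of_le (pr_nonneg (ν := ν) f i) with h0 | h0
    · rw [← h0]; simp; exact hq i
    · have hqi := hpos i h0
      have h1 := Real.log_le_sub_one_of_pos (div_pos hqi h0)
      rw [Real.log_div hqi.ne' h0.ne'] at h1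
      have h2 := mul_le_mul_of_nonneg_left h1 h0.le
      have h3 : pr ν f i * (q i / pr ν f i - 1) = q i - pr ν f i := by field_simp
      rw [h3] at h2
      linarith
  have h0 : ∑ i, ((q i - pr ν f i) - (pr ν f i * (-Real.log (pr ν f i)) - pr ν f i * (-Real.log (q i)))) ≤ 0 := by
    rw [sum_sub_distrib, sum_sub_distrib, sum_sub_distrib, pr_sum f hf]
    linarith
  have h1 : ∀ i ∈ univ, (q i - pr ν f i) - (pr ν f i * (-Real.log (pr ν f i)) - pr ν f i * (-Real.log (q i))) = 0 := by
    rw [← sum_eq_zero_iff_of_nonneg (fun i _ => sub_nonneg.mpr (key i))]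
    exact le_antisymm h0 (sum_nonneg fun i _ => sub_nonneg.mpr (key i))
  intro i
  have h2 := h1 i (mem_univ i)
  rcases eq_or_lt_of_le (pr_nonneg (ν := ν) f i) with h3 | h3
  · rw [← h3] at h2 ⊢
    simp at h2
    exact h2.symm
  · have hqi := hpos i h3
    by_contra hne
    have hne1 : q i / pr ν f i ≠ 1 := by
      intro hc
      rw [div_eq_one_iff_eq h3.ne'] at hc
      exact hne hc.symm
    have h4 := Real.log_lt_sub_one_of_pos (div_pos hqi h3) hne1
    rw [Real.log_div hqi.ne' h3.ne'] at h4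
    have h5 := mul_lt_mul_of_pos_left h4 h3
    have h6 : pr ν f i * (q i / pr ν f i - 1) = q i - pr ν f i := by field_simp
    rw [h6] at h5
    linarith

end meas

lemma pr_congr (f : Ω → ι) (g : Ω → κ) (h : ∀ x y, f x = f y ↔ g x = g y) (x : Ω) :
    pr ν f (f x) = pr ν g (g x) := by
  unfold pr
  congr 1
  ext y
  simp only [Set.mem_preimage, Set.mem_singleton_iff]
  exact h y x

lemma Hm_congr [Fintype ι] [MeasurableSpace ι] [MeasurableSingletonClass ι] [Fintype κ] [MeasurableSpace κ]
    [MeasurableSingletonClass κ] (f : Ω → ι) (hf : Measurable f) (g : Ω → κ) (hg : Measurable g)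
    (h : ∀ x y, f x = f y ↔ g x = g y) : Hm ν f = Hm ν g := by
  rw [Hm_int f hf, Hm_int g hg]
  simp_rw [pr_congr f g h]

/-- coarser maps have smaller entropy -/
lemma Hm_mono [Fintype ι] [MeasurableSpace ι] [MeasurableSingletonClass ι] [Fintype κ] [MeasurableSpace κ]
    [MeasurableSingletonClass κ] (f : Ω → ι) (hf : Measurable f) (g : Ω → κ) (hg : Measurable g)
    (h : ∀ x y, f x = f y → g x = g y) : Hm ν g ≤ Hm ν f := by
  rw [Hm_int f hf, Hm_int g hg]
  apply integral_mono_ae (intg_fin g hg (fun i => -Real.log (pr ν g i))) (intg_fin f hf (fun i => -Real.log (pr ν f i)))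
  filter_upwards [ae_pr_pos (ν := ν) f hf] with x hx
  have : pr ν f (f x) ≤ pr ν g (g x) := by
    unfold pr
    apply measureReal_mono
    · intro y hy
      exact h y x hy
    · exact measure_ne_top _ _
  have := Real.log_le_log hx this
  show -Real.log (pr ν g (g x)) ≤ -Real.log (pr ν f (f x))
  linarith

/-- one more bit costs at most `log 2` -/
lemma Hm_bool [Fintype ι] [MeasurableSpace ι] [MeasurableSingletonClass ι] (f : Ω → ι) (hf : Measurable f)
    (b : Ω → Bool) (hb : Measurable b) : Hm ν (fun x => (f x, b x)) ≤ Hm ν f + Real.log 2 := by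
  have h1 := gibbs (ν := ν) (fun x => (f x, b x)) (hf.prodMk hb) (fun p => pr ν f p.1 * (1 / 2))
    (fun p => mul_nonneg (pr_nonneg f _) (by norm_num)) (by
      rw [Fintype.sum_prod_type]
      simp only [sum_const, card_univ, Fintype.card_bool, nsmul_eq_mul]
      have : ∑ x, ((2 : ℕ) : ℝ) * (pr ν f x * (1 / 2)) = ∑ x, pr ν f x := by
        apply sum_congr rfl; intro x _; push_cast; ring
      rw [this, pr_sum f hf]) (by
      intro p hp
      have : pr ν (fun x => (f x, b x)) p ≤ pr ν f p.1 := by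
        unfold pr
        apply measureReal_mono
        · intro y hy
          exact congrArg Prod.fst hy
        · exact measure_ne_top _ _
      have := lt_of_lt_of_le hp this
      positivity)
  refine h1.trans (le_of_eq ?_)
  rw [Hm_int f hf]
  have h2 : ∀ᵐ x ∂ν, -Real.log (pr ν f (f x) * (1 / 2)) = -Real.log (pr ν f (f x)) + Real.log 2 := by
    filter_upwards [ae_pr_pos (ν := ν) f hf] with x hx
    rw [Real.log_mul hx.ne' (by norm_num), one_div, Real.log_inv]; ring
  rw [integral_congr_ae h2, integral_add (intg_fin f hf (fun i => -Real.log (pr ν f i))) (integrable_const _)]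
  simp

lemma fib_sum [Fintype α] [MeasurableSpace α] [MeasurableSingletonClass α] [DecidableEq γ] (A : Ω → α)
    (hA : Measurable A) (u : α → γ) (c : γ) :
    ∑ a ∈ univ.filter (fun a => u a = c), pr ν A a = pr ν (fun x => u (A x)) c := by
  have h1 := int_fin (ν := ν) A hA (fun a => if u a = c then (1 : ℝ) else 0)
  have h2 : ∑ a, pr ν A a * (if u a = c then (1 : ℝ) else 0) = ∑ a ∈ univ.filter (fun a => u a = c), pr ν A a := by
    rw [sum_filter]; apply sum_congr rfl; intro a _; split_ifs <;> simp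
  rw [h2] at h1
  rw [← h1]
  have h3 : (fun x => if u (A x) = c then (1 : ℝ) else 0) = ((fun x => u (A x)) ⁻¹' {c}).indicator 1 := by
    ext x
    simp only [Set.indicator, Set.mem_preimage, Set.mem_singleton_iff, Pi.one_apply]
  have hms : MeasurableSet ((fun x => u (A x)) ⁻¹' {c}) := by
    have : (fun x => u (A x)) ⁻¹' {c} = A ⁻¹' (u ⁻¹' {c}) := rfl
    rw [this]
    exact hA (Set.Finite.measurableSet (Set.toFinite _))
  rw [h3, integral_indicator_one hms]
  rfl

lemma pr_le_comp (A : Ω → α) (u : α → γ) (a : α) : pr ν A a ≤ pr ν (fun x => u (A x)) (u a) := by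
  unfold pr
  apply measureReal_mono
  · intro y hy
    exact congrArg u hy
  · exact measure_ne_top _ _

omit [IsProbabilityMeasure ν] in
lemma int5 (f1 f2 f3 f4 f5 : Ω → ℝ) (i1 : Integrable f1 ν) (i2 : Integrable f2 ν) (i3 : Integrable f3 ν)
    (i4 : Integrable f4 ν) (i5 : Integrable f5 ν) :
    ∫ x, (f1 x + (f2 x - f3 x) + (f4 x - f5 x)) ∂ν = ∫ x, f1 x ∂ν + (∫ x, f2 x ∂ν - ∫ x, f3 x ∂ν) +
      (∫ x, f4 x ∂ν - ∫ x, f5 x ∂ν) := by
  have e1 := integral_add (i1.add (i2.sub i3)) (i4.sub i5)
  have e2 := integral_add i1 (i2.sub i3)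
  have e3 := integral_sub i2 i3
  have e4 := integral_sub i4 i5
  simp only [Pi.add_apply, Pi.sub_apply] at e1 e2 e3 e4
  rw [e1, e2, e3, e4]

/-- conditional independence bound -/
lemma Hm_cond [Fintype α] [MeasurableSpace α] [MeasurableSingletonClass α] [Fintype β] [MeasurableSpace β]
    [MeasurableSingletonClass β] [Fintype γ] [MeasurableSpace γ] [MeasurableSingletonClass γ] [Fintype δ]
    [MeasurableSpace δ] [MeasurableSingletonClass δ] [DecidableEq γ] [DecidableEq δ]
    (A : Ω → α) (hA : Measurable A) (B : Ω → β) (hB : Measurable B) (u : α → γ) (v : β → δ)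
    (hu : Measurable (fun x => u (A x))) (hv : Measurable (fun x => v (B x))) :
    Hm ν (fun x => (A x, B x)) ≤ Hm ν (fun x => (u (A x), v (B x))) + (Hm ν A - Hm ν (fun x => u (A x))) +
      (Hm ν B - Hm ν (fun x => v (B x))) := by
  have h1 := gibbs (ν := ν) (fun x => (A x, B x)) (hA.prodMk hB)
    (fun p => pr ν (fun x => (u (A x), v (B x))) (u p.1, v p.2) * (pr ν A p.1 / pr ν (fun x => u (A x)) (u p.1)) *
      (pr ν B p.2 / pr ν (fun x => v (B x)) (v p.2)))
    (fun p => mul_nonneg (mul_nonneg (pr_nonneg _ _) (div_nonneg (pr_nonneg _ _) (pr_nonneg _ _)))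
      (div_nonneg (pr_nonneg _ _) (pr_nonneg _ _))) (by
      rw [Fintype.sum_prod_type]
      have e1 : ∀ a : α, ∑ b : β, pr ν (fun x => (u (A x), v (B x))) (u a, v b) * (pr ν A a / pr ν (fun x => u (A x)) (u a)) *
          (pr ν B b / pr ν (fun x => v (B x)) (v b)) ≤
          (∑ d : δ, pr ν (fun x => (u (A x), v (B x))) (u a, d)) * (pr ν A a / pr ν (fun x => u (A x)) (u a)) := by
        intro a
        rw [← sum_fiberwise (s := univ) (g := v), sum_mul]
        apply sum_le_sum
        intro d _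
        have e2 : ∑ b ∈ univ.filter (fun b => v b = d), pr ν (fun x => (u (A x), v (B x))) (u a, v b) *
            (pr ν A a / pr ν (fun x => u (A x)) (u a)) * (pr ν B b / pr ν (fun x => v (B x)) (v b)) =
            pr ν (fun x => (u (A x), v (B x))) (u a, d) * (pr ν A a / pr ν (fun x => u (A x)) (u a)) *
            ((∑ b ∈ univ.filter (fun b => v b = d), pr ν B b) / pr ν (fun x => v (B x)) d) := by
          rw [sum_div, mul_sum]
          apply sum_congr rfl
          intro b hb
          rw [(mem_filter.mp hb).2]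
        rw [e2, fib_sum B hB v d]
        have e3 : pr ν (fun x => v (B x)) d / pr ν (fun x => v (B x)) d ≤ 1 := div_self_le_one _
        have e4 : 0 ≤ pr ν (fun x => (u (A x), v (B x))) (u a, d) * (pr ν A a / pr ν (fun x => u (A x)) (u a)) :=
          mul_nonneg (pr_nonneg _ _) (div_nonneg (pr_nonneg _ _) (pr_nonneg _ _))
        calc _ ≤ pr ν (fun x => (u (A x), v (B x))) (u a, d) * (pr ν A a / pr ν (fun x => u (A x)) (u a)) * 1 :=
              mul_le_mul_of_nonneg_left e3 e4
          _ = _ := mul_one _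
      refine (sum_le_sum fun a _ => e1 a).trans ?_
      rw [← sum_fiberwise (s := univ) (g := u)]
      have e5 : ∀ c : γ, ∑ a ∈ univ.filter (fun a => u a = c), (∑ d : δ, pr ν (fun x => (u (A x), v (B x))) (u a, d)) *
          (pr ν A a / pr ν (fun x => u (A x)) (u a)) ≤ ∑ d : δ, pr ν (fun x => (u (A x), v (B x))) (c, d) := by
        intro c
        have e6 : ∑ a ∈ univ.filter (fun a => u a = c), (∑ d : δ, pr ν (fun x => (u (A x), v (B x))) (u a, d)) *
          (pr ν A a / pr ν (fun x => u (A x)) (u a)) = (∑ d : δ, pr ν (fun x => (u (A x), v (B x))) (c, d)) *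
          ((∑ a ∈ univ.filter (fun a => u a = c), pr ν A a) / pr ν (fun x => u (A x)) c) := by
          rw [sum_div, mul_sum]
          apply sum_congr rfl
          intro a ha
          rw [(mem_filter.mp ha).2]
        rw [e6, fib_sum A hA u c]
        have e7 : 0 ≤ ∑ d : δ, pr ν (fun x => (u (A x), v (B x))) (c, d) := sum_nonneg fun _ _ => pr_nonneg _ _
        calc _ ≤ (∑ d : δ, pr ν (fun x => (u (A x), v (B x))) (c, d)) * 1 :=
              mul_le_mul_of_nonneg_left (div_self_le_one _) e7
          _ = _ := mul_one _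
      refine (sum_le_sum fun c _ => e5 c).trans ?_
      rw [← Fintype.sum_prod_type (fun p : γ × δ => pr ν (fun x => (u (A x), v (B x))) p), pr_sum _ (hu.prodMk hv)])
    (by
      intro p hp
      have g1 := lt_of_lt_of_le hp (pr_le_comp (fun x => (A x, B x)) (fun q => (u q.1, v q.2)) p)
      have g2 := lt_of_lt_of_le hp (pr_le_comp (fun x => (A x, B x)) (fun q => q.1) p)
      have g3 := lt_of_lt_of_le hp (pr_le_comp (fun x => (A x, B x)) (fun q => q.2) p)
      have g4 := lt_of_lt_of_le g2 (pr_le_comp A u p.1)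
      have g5 := lt_of_lt_of_le g3 (pr_le_comp B v p.2)
      exact mul_pos (mul_pos g1 (div_pos g2 g4)) (div_pos g3 g5))
  refine h1.trans (le_of_eq ?_)
  have hY : Measurable fun x => (u (A x), v (B x)) := hu.prodMk hv
  rw [Hm_int A hA, Hm_int B hB, Hm_int _ hu, Hm_int _ hv, Hm_int _ hY,
    ← int5 _ _ _ _ _ (intg_fin _ hY (fun i => -Real.log (pr ν (fun x => (u (A x), v (B x))) i)))
      (intg_fin A hA (fun i => -Real.log (pr ν A i))) (intg_fin _ hu (fun i => -Real.log (pr ν (fun x => u (A x)) i)))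
      (intg_fin B hB (fun i => -Real.log (pr ν B i))) (intg_fin _ hv (fun i => -Real.log (pr ν (fun x => v (B x)) i)))]
  apply integral_congr_ae
  filter_upwards [ae_pr_pos (ν := ν) A hA, ae_pr_pos (ν := ν) B hB, ae_pr_pos (ν := ν) _ hu, ae_pr_pos (ν := ν) _ hv,
    ae_pr_pos (ν := ν) _ hY] with x x1 x2 x3 x4 x5
  rw [Real.log_mul (mul_pos x5 (div_pos x1 x3)).ne' (div_pos x2 x4).ne', Real.log_mul x5.ne' (div_pos x1 x3).ne',
    Real.log_div x1.ne' x3.ne', Real.log_div x2.ne' x4.ne']
  ring

end ent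

end Pool.Agent.V11276.PE
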