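import Mathlib

namespace Pool.Agent.V11276.PE

open MeasureTheory

/-- `pq ∈ ϑ(y)`; the letters are `false = a` and `true = b` -/
def ok (y p q : Bool) : Prop := if y then p = false ∧ q = false else p ≠ q

/-- `u(0) … u(2^n - 1)` is a realisation of `ϑ^n(c)` -/
def Re : ℕ → Bool → (ℕ → Bool) → Prop
  | 0, c, u => u 0 = c
  | n + 1, c, u => ∃ u', Re n c u' ∧ ∀ i < 2 ^ n, ok (u' i) (u (2 * i)) (u (2 * i + 1))

/-- the word `v(0) … v(l-1)` is legal -/
def Leg (v : ℕ → Bool) (l : ℕ) : Prop :=
  ∃ n c u p, Re n c u ∧ p + l ≤ 2 ^ n ∧ ∀ k < l, v k = u (p + k)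

lemma ok_eq {y p q : Bool} (h : ok y p q) : y = !(p || q) := by
  revert h; cases y <;> cases p <;> cases q <;> simp [ok]

lemma ok_not {y p q : Bool} (h : ok y p q) : ¬ (p = true ∧ q = true) := by
  revert h; cases y <;> cases p <;> cases q <;> simp [ok]

lemma ok_D {p q : Bool} (h : ¬ (p = true ∧ q = true)) : ok (!(p || q)) p q := by
  revert h; cases p <;> cases q <;> simp [ok]

lemma ok_canon (y : Bool) : ok y false (!y) := by cases y <;> simp [ok]

lemma leg_congr {v v' : ℕ → Bool} {l : ℕ} (h : ∀ k < l, v k = v' k) (hv : Leg v l) : Leg v' l := by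
  obtain ⟨n, c, u, p, h1, h2, h3⟩ := hv
  exact ⟨n, c, u, p, h1, h2, fun k hk => by rw [← h k hk]; exact h3 k hk⟩

lemma leg_zero (v : ℕ → Bool) : Leg v 0 :=
  ⟨0, true, fun _ => true, 0, rfl, by simp, fun k hk => absurd hk (by omega)⟩

lemma leg_inflate (y x : ℤ → Bool) (hok : ∀ j, ok (y j) (x (2 * j)) (x (2 * j + 1))) (j0 : ℤ) (m : ℕ)
    (h : Leg (fun k => y (j0 + k)) m) (r l : ℕ) (hr : r + l ≤ 2 * m) :
    Leg (fun k => x (2 * j0 + ((r + k : ℕ) : ℤ))) l := by
  obtain ⟨n, c, u', p, hu', hp, hw⟩ := h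
  refine ⟨n + 1, c, fun t => if p ≤ t / 2 ∧ t / 2 < p + m then
    x (2 * (j0 + ((t / 2 - p : ℕ) : ℤ)) + ((t % 2 : ℕ) : ℤ)) else if t % 2 = 0 then false else !(u' (t / 2)),
    2 * p + r, ⟨u', hu', ?_⟩, ?_, ?_⟩
  · intro i hi
    have e1 : 2 * i / 2 = i := by omega
    have e2 : 2 * i % 2 = 0 := by omega
    have e3 : (2 * i + 1) / 2 = i := by omega
    have e4 : (2 * i + 1) % 2 = 1 := by omega
    beta_reduce
    rw [e1, e2, e3, e4]
    by_cases hc : p ≤ i ∧ i < p + m
    · simp only [if_pos hc]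
      have h1 := hw (i - p) (by omega)
      have h2 : p + (i - p) = i := by omega
      rw [h2] at h1
      rw [← h1]
      have h3 := hok (j0 + ((i - p : ℕ) : ℤ))
      simpa using h3
    · simp only [if_neg hc]
      simpa using ok_canon (u' i)
  · rw [pow_succ]; omega
  · intro k hk
    have e1 : (2 * p + r + k) / 2 = p + (r + k) / 2 := by omega
    have e2 : (2 * p + r + k) % 2 = (r + k) % 2 := by omega
    show x (2 * j0 + ((r + k : ℕ) : ℤ)) = if p ≤ (2 * p + r + k) / 2 ∧ (2 * p + r + k) / 2 < p + m then _ else _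
    rw [if_pos (by omega), e1, e2]
    congr 1
    omega

/-- the subshift -/
def X : Set (ℤ → Bool) := {x | ∀ (i : ℤ) (l : ℕ), Leg (fun k => x (i + k)) l}

/-- the shift -/
def Sh (x : ℤ → Bool) : ℤ → Bool := fun i => x (i + 1)

/-- desubstitution (even alignment) -/
def D (x : ℤ → Bool) : ℤ → Bool := fun j => !(x (2 * j) || x (2 * j + 1))

/-- even aligned points -/
def E : Set (ℤ → Bool) := {x | (∀ j, ¬ (x (2 * j) = true ∧ x (2 * j + 1) = true)) ∧ D x ∈ X}

lemma inflate_mem (y x : ℤ → Bool) (hok : ∀ j, ok (y j) (x (2 * j)) (x (2 * j + 1))) (hy : y ∈ X) : x ∈ X := by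
  intro i l
  have h := leg_inflate y x hok (i / 2) (l + 1) (hy _ _) (i % 2).toNat l (by omega)
  refine leg_congr (fun k _ => ?_) h
  have : 2 * (i / 2) + (((i % 2).toNat + k : ℕ) : ℤ) = i + k := by omega
  rw [this]

lemma E_sub_X {x : ℤ → Bool} (hx : x ∈ E) : x ∈ X :=
  inflate_mem (D x) x (fun j => ok_D (hx.1 j)) hx.2

lemma X_shift {x : ℤ → Bool} : Sh x ∈ X ↔ x ∈ X := by
  constructor
  · intro h i l
    refine leg_congr (fun k _ => ?_) (h (i - 1) l)
    show x (i - 1 + k + 1) = x (i + k)
    congr 1; ring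
  · intro h i l
    refine leg_congr (fun k _ => ?_) (h (i + 1) l)
    show x (i + 1 + k) = x (i + k + 1)
    congr 1; ring

lemma D_shift2 (x : ℤ → Bool) : D (Sh (Sh x)) = Sh (D x) := by
  funext j
  show (!(x (2 * j + 1 + 1) || x (2 * j + 1 + 1 + 1))) = !(x (2 * (j + 1)) || x (2 * (j + 1) + 1))
  have e1 : 2 * j + 1 + 1 = 2 * (j + 1) := by ring
  rw [e1]

lemma E_shift2 {x : ℤ → Bool} : Sh (Sh x) ∈ E ↔ x ∈ E := by
  have hkey : (∀ j : ℤ, ¬ (Sh (Sh x) (2 * j) = true ∧ Sh (Sh x) (2 * j + 1) = true)) ↔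
      ∀ j : ℤ, ¬ (x (2 * j) = true ∧ x (2 * j + 1) = true) := by
    constructor
    · intro h j
      have := h (j - 1)
      have e1 : 2 * (j - 1) + 1 + 1 = 2 * j := by ring
      have e2 : 2 * (j - 1) + 1 + 1 + 1 = 2 * j + 1 := by ring
      simp only [Sh, e1, e2] at this
      exact this
    · intro h j
      have := h (j + 1)
      have e1 : 2 * j + 1 + 1 = 2 * (j + 1) := by ring
      simp only [Sh, e1]
      exact this
  constructor
  · intro h
    refine ⟨hkey.mp h.1, ?_⟩
    have := h.2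
    rw [D_shift2, X_shift] at this
    exact this
  · intro h
    refine ⟨hkey.mpr h.1, ?_⟩
    rw [D_shift2, X_shift]
    exact h.2

/-- finite version of alignment -/
def PP (s N : ℕ) (x : ℤ → Bool) : Prop :=
  (∀ j : ℤ, -(N : ℤ) ≤ j → j < N → ¬ (x (2 * j + s) = true ∧ x (2 * j + s + 1) = true)) ∧
  ∀ (i : ℤ) (l : ℕ), -(N : ℤ) ≤ i → i + l ≤ N →
    Leg (fun k => !(x (2 * (i + k) + s) || x (2 * (i + k) + s + 1))) l

lemma PP_mono {s N N' : ℕ} {x : ℤ → Bool} (h : N ≤ N') (hx : PP s N' x) : PP s N x :=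
  ⟨fun j h1 h2 => hx.1 j (by omega) (by omega), fun i l h1 h2 => hx.2 i l (by omega) (by omega)⟩

lemma PP_of (x : ℤ → Bool) (N n : ℕ) (c : Bool) (u' u : ℕ → Bool) (hu' : Re n c u')
    (hok : ∀ i < 2 ^ n, ok (u' i) (u (2 * i)) (u (2 * i + 1))) (q s : ℕ) (hq : q + 2 * N ≤ 2 ^ n)
    (hx : ∀ t : ℕ, t < 4 * N → x (-2 * N + s + t) = u (2 * q + t)) : PP s N x := by
  have key : ∀ j : ℤ, -(N : ℤ) ≤ j → j < N → ok (u' (q + (j + N).toNat)) (x (2 * j + s)) (x (2 * j + s + 1)) := by
    intro j h1 h2
    have h3 := hok (q + (j + N).toNat) (by omega)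
    have h4 := hx (2 * (j + N).toNat) (by omega)
    have h5 := hx (2 * (j + N).toNat + 1) (by omega)
    have e1 : -2 * (N : ℤ) + s + ((2 * (j + N).toNat : ℕ) : ℤ) = 2 * j + s := by omega
    have e2 : -2 * (N : ℤ) + s + ((2 * (j + N).toNat + 1 : ℕ) : ℤ) = 2 * j + s + 1 := by omega
    have e3 : 2 * q + 2 * (j + N).toNat = 2 * (q + (j + N).toNat) := by ring
    have e4 : 2 * q + (2 * (j + N).toNat + 1) = 2 * (q + (j + N).toNat) + 1 := by ring
    rw [e1, e3] at h4
    rw [e2, e4] at h5
    rw [h4, h5]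
    exact h3
  refine ⟨fun j h1 h2 => ok_not (key j h1 h2), fun i l h1 h2 => ?_⟩
  refine ⟨n, c, u', q + (i + N).toNat, hu', by omega, fun k hk => ?_⟩
  have h3 := ok_eq (key (i + k) (by omega) (by omega))
  have e1 : q + (i + (k : ℤ) + N).toNat = q + (i + N).toNat + k := by omega
  rw [e1] at h3
  exact h3.symm

lemma PP_or {x : ℤ → Bool} (hx : x ∈ X) (N : ℕ) : PP 0 N x ∨ PP 1 N x := by
  obtain ⟨n, c, u, p, hu, hp, hw⟩ := hx (-2 * N) (4 * N + 1)
  cases n with
  | zero =>
    left
    have hN : N = 0 := by simp at hp; omega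
    subst hN
    refine ⟨fun j h1 h2 => by omega, fun i l h1 h2 => ?_⟩
    have : l = 0 := by omega
    subst this
    exact leg_zero _
  | succ n =>
    obtain ⟨u', hu', hok⟩ := hu
    rw [pow_succ] at hp
    rcases Nat.even_or_odd' p with ⟨q, hq | hq⟩
    · left
      refine PP_of x N n c u' u hu' hok q 0 (by omega) (fun t ht => ?_)
      have := hw t (by omega)
      rw [← hq, ← this]
      simp
    · right
      refine PP_of x N n c u' u hu' hok (q + 1) 1 (by omega) (fun t ht => ?_)
      have h1 := hw (t + 1) (by omega)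
      have e1 : p + (t + 1) = 2 * (q + 1) + t := by omega
      rw [e1] at h1
      rw [← h1]
      congr 1
      push_cast; ring

/-- every point of `X` is aligned -/
lemma parse {x : ℤ → Bool} (hx : x ∈ X) : x ∈ E ∨ Sh x ∈ E := by
  by_cases h : ∀ N, PP 0 N x
  · left
    constructor
    · intro j
      have := (h (j.natAbs + 1)).1 j (by omega) (by omega)
      simpa using this
    · intro i l
      have := (h (i.natAbs + l)).2 i l (by omega) (by omega)
      refine leg_congr (fun k _ => ?_) this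
      simp [D]
  · right
    push Not at h
    obtain ⟨N0, hN0⟩ := h
    have h1 : ∀ N, PP 1 N x := by
      intro N
      rcases PP_or hx (max N N0) with h2 | h2
      · exact absurd (PP_mono (le_max_right _ _) h2) hN0
      · exact PP_mono (le_max_left _ _) h2
    constructor
    · intro j
      have := (h1 (j.natAbs + 1)).1 j (by omega) (by omega)
      simpa [Sh] using this
    · intro i l
      have := (h1 (i.natAbs + l)).2 i l (by omega) (by omega)
      refine leg_congr (fun k _ => ?_) this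
      simp [D, Sh]

/-! ### topology -/

lemma Sh_cont : Continuous Sh := continuous_pi fun i => continuous_apply (i + 1)

lemma D_cont : Continuous D := by
  refine continuous_pi fun j => ?_
  have h1 : Continuous fun x : ℤ → Bool => (x (2 * j), x (2 * j + 1)) :=
    (continuous_apply _).prodMk (continuous_apply _)
  exact (continuous_of_discreteTopology (f := fun p : Bool × Bool => !(p.1 || p.2))).comp h1

lemma Sh_meas : Measurable Sh := measurable_pi_lambda _ fun i => measurable_pi_apply (i + 1)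

lemma D_meas : Measurable D := D_cont.measurable

lemma G_clopen (i : ℤ) (l : ℕ) : IsClopen {x : ℤ → Bool | Leg (fun k => x (i + k)) l} := by
  have h1 : Continuous fun x : ℤ → Bool => (fun k : Fin l => x (i + (k : ℕ))) :=
    continuous_pi fun k => continuous_apply _
  have h2 : {x : ℤ → Bool | Leg (fun k => x (i + k)) l} = (fun x : ℤ → Bool => (fun k : Fin l => x (i + (k : ℕ)))) ⁻¹'
      {w | Leg (fun k => if h : k < l then w ⟨k, h⟩ else false) l} := by
    ext x
    constructor
    · intro hx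
      refine leg_congr (fun k hk => ?_) hx
      simp [hk]
    · intro hx
      refine leg_congr (fun k hk => ?_) hx
      simp [hk]
  rw [h2]
  exact (isClopen_discrete _).preimage h1

lemma X_eq : X = ⋂ (i : ℤ), ⋂ (l : ℕ), {x : ℤ → Bool | Leg (fun k => x (i + k)) l} := by
  ext x; simp [X]

lemma X_meas : MeasurableSet X := by
  rw [X_eq]
  exact MeasurableSet.iInter fun i => MeasurableSet.iInter fun l => (G_clopen i l).1.measurableSet

lemma E_meas : MeasurableSet E := by
  have h1 : E = (⋂ j : ℤ, {x : ℤ → Bool | ¬ (x (2 * j) = true ∧ x (2 * j + 1) = true)}) ∩ D ⁻¹' X := by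
    ext x; simp [E]
  rw [h1]
  refine (MeasurableSet.iInter fun j => ?_).inter (D_meas X_meas)
  have h2 : Measurable fun x : ℤ → Bool => (x (2 * j), x (2 * j + 1)) :=
    (measurable_pi_apply _).prodMk (measurable_pi_apply _)
  have h3 : {x : ℤ → Bool | ¬ (x (2 * j) = true ∧ x (2 * j + 1) = true)} =
      (fun x : ℤ → Bool => (x (2 * j), x (2 * j + 1))) ⁻¹' {p | ¬ (p.1 = true ∧ p.2 = true)} := rfl
  rw [h3]
  exact h2 (Set.Finite.measurableSet (Set.toFinite _))

/-! ### a periodic point -/

/-- `… a a b a a b …` -/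
def z : ℤ → Bool := fun i => decide (i % 3 = 2)

lemma D_z (j : ℤ) : D z j = z (j + 2) := by
  unfold D z
  have h : j % 3 = 0 ∨ j % 3 = 1 ∨ j % 3 = 2 := by omega
  rcases h with h | h | h
  · have e1 : 2 * j % 3 = 0 := by omega
    have e2 : (2 * j + 1) % 3 = 1 := by omega
    have e3 : (j + 2) % 3 = 2 := by omega
    simp [e1, e2, e3]
  · have e1 : 2 * j % 3 = 2 := by omega
    have e3 : (j + 2) % 3 = 0 := by omega
    simp [e1, e3]
  · have e1 : 2 * j % 3 = 1 := by omega
    have e2 : (2 * j + 1) % 3 = 2 := by omega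
    have e3 : (j + 2) % 3 = 1 := by omega
    simp [e1, e2, e3]

lemma z_good (j : ℤ) : ¬ (z (2 * j) = true ∧ z (2 * j + 1) = true) := by
  unfold z
  simp only [decide_eq_true_eq]
  omega

lemma z_leg : ∀ (l : ℕ) (i : ℤ), Leg (fun k => z (i + k)) l := by
  intro l
  induction l using Nat.strong_induction_on with
  | _ l ih =>
    intro i
    have hok : ∀ j : ℤ, ok (z (j + 2)) (z (2 * j)) (z (2 * j + 1)) := by
      intro j
      have := ok_D (z_good j)
      have h2 : (!(z (2 * j) || z (2 * j + 1))) = z (j + 2) := D_z j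
      rwa [h2] at this
    by_cases h3 : 3 ≤ l
    · have h := leg_inflate (fun j => z (j + 2)) z hok (i / 2) ((l + 2) / 2) (by
        have := ih ((l + 2) / 2) (by omega) (i / 2 + 2)
        refine leg_congr (fun k _ => ?_) this
        show z (i / 2 + 2 + k) = z (i / 2 + k + 2)
        congr 1; ring) (i % 2).toNat l (by omega)
      refine leg_congr (fun k _ => ?_) h
      have : 2 * (i / 2) + (((i % 2).toNat + k : ℕ) : ℤ) = i + k := by omega
      rw [this]
    · -- words of length at most two occur in `abaa`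
      have hRe : Re 2 false (fun k => decide (k = 1)) := by
        refine ⟨fun k => decide (k = 1), ⟨fun _ => false, rfl, ?_⟩, ?_⟩
        · intro i hi
          have : i = 0 := by simpa using hi
          subst this
          simp [ok]
        · intro i hi
          have : i = 0 ∨ i = 1 := by simp at hi; omega
          rcases this with rfl | rfl <;> simp [ok]
      have h : i % 3 = 0 ∨ i % 3 = 1 ∨ i % 3 = 2 := by omega
      rcases h with h | h | h
      · refine ⟨2, false, _, 2, hRe, by omega, fun k hk => ?_⟩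
        have hk' : k = 0 ∨ k = 1 := by omega
        rcases hk' with rfl | rfl
        · simp [z, h]
        · have : (i + 1) % 3 = 1 := by omega
          simp [z, this]
      · refine ⟨2, false, _, 0, hRe, by omega, fun k hk => ?_⟩
        have hk' : k = 0 ∨ k = 1 := by omega
        rcases hk' with rfl | rfl
        · simp [z, h]
        · have : (i + 1) % 3 = 2 := by omega
          simp [z, this]
      · refine ⟨2, false, _, 1, hRe, by omega, fun k hk => ?_⟩
        have hk' : k = 0 ∨ k = 1 := by omega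
        rcases hk' with rfl | rfl
        · simp [z, h]
        · have : (i + 1) % 3 = 0 := by omega
          simp [z, this]

lemma z_mem : z ∈ X := fun i l => z_leg l i

end Pool.Agent.V11276.PE
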