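import Pool.Agent.V11276.PE1
import Pool.Agent.V11276.PE2

namespace Pool.Agent.V11276.PE

open MeasureTheory Filter Topology

/-- shift invariant probability measures on the subshift -/
structure Inv (ν : Measure (ℤ → Bool)) : Prop where
  prob : IsProbabilityMeasure ν
  supp : ν Xᶜ = 0
  inv : ν.map Sh = ν

/-- `ν₀` is an aligned lift of `ν` -/
structure Lift (ν ν₀ : Measure (ℤ → Bool)) : Prop where
  prob : IsProbabilityMeasure ν₀
  supp : ν₀ Eᶜ = 0
  inv : ν₀.map (Sh ∘ Sh) = ν₀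
  half : ∀ B, MeasurableSet B → ν.real B = (ν₀.real B + ν₀.real (Sh ⁻¹' B)) / 2

lemma Inv.apply {ν : Measure (ℤ → Bool)} (h : Inv ν) {B : Set (ℤ → Bool)} (hB : MeasurableSet B) :
    ν (Sh ⁻¹' B) = ν B := by
  rw [← Measure.map_apply Sh_meas hB, h.inv]

lemma lift_exists {ν : Measure (ℤ → Bool)} (h : Inv ν) : ∃ ν₀, Lift ν ν₀ := by
  haveI := h.prob
  obtain ⟨C, hC⟩ : ∃ C, C = E ∩ Sh ⁻¹' E := ⟨_, rfl⟩
  obtain ⟨A, hA⟩ : ∃ A, A = E \ C := ⟨_, rfl⟩
  have hCm : MeasurableSet C := by rw [hC]; exact E_meas.inter (Sh_meas E_meas)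
  have hAm : MeasurableSet A := by rw [hA]; exact E_meas.diff hCm
  have hCs : Sh ⁻¹' C = C := by
    rw [hC]; ext x
    simp only [Set.mem_preimage, Set.mem_inter_iff]
    rw [E_shift2]; tauto
  have hAs : Sh ⁻¹' (Sh ⁻¹' A) = A := by
    have : Sh ⁻¹' (Sh ⁻¹' C) = C := by rw [hCs, hCs]
    rw [hA, Set.preimage_diff, Set.preimage_diff, this]
    congr 1
    ext x
    simp only [Set.mem_preimage]
    exact E_shift2
  obtain ⟨ν₀, hν₀⟩ : ∃ ν₀, ν₀ = (2 : ENNReal) • ν.restrict A + ν.restrict C := ⟨_, rfl⟩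
  have h0 : ∀ B, MeasurableSet B → ν₀ B = 2 * ν (B ∩ A) + ν (B ∩ C) := by
    intro B hB
    rw [hν₀, Measure.add_apply, Measure.smul_apply, Measure.restrict_apply hB, Measure.restrict_apply hB, smul_eq_mul]
  have hXae : ∀ᵐ x ∂ν, x ∈ X := h.supp
  have hdec : ∀ B, MeasurableSet B → ν B = ν (B ∩ A) + ν (B ∩ Sh ⁻¹' A) + ν (B ∩ C) := by
    intro B hB
    rw [← measure_inter_add_diff B hCm, ← measure_inter_add_diff (B \ C) hAm, add_comm]
    have e1 : (B \ C) ∩ A = B ∩ A := by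
      ext x; simp only [hA, Set.mem_inter_iff, Set.mem_diff]; tauto
    have e2 : ν ((B \ C) \ A) = ν (B ∩ Sh ⁻¹' A) := by
      apply measure_congr
      filter_upwards [hXae] with x hx
      apply propext
      show (x ∈ (B \ C) \ A) ↔ (x ∈ B ∩ Sh ⁻¹' A)
      have h1 := parse hx
      have h2 : Sh (Sh x) ∈ E ↔ x ∈ E := E_shift2
      simp only [hA, hC, Set.mem_inter_iff, Set.mem_diff, Set.mem_preimage]
      tauto
    rw [e1, e2]
  have hadd : ∀ B, MeasurableSet B → ν₀ B + ν₀ (Sh ⁻¹' B) = 2 * ν B := by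
    intro B hB
    have hS1 : ν (Sh ⁻¹' B ∩ C) = ν (B ∩ C) := by
      have : Sh ⁻¹' B ∩ C = Sh ⁻¹' (B ∩ C) := by rw [Set.preimage_inter, hCs]
      rw [this, h.apply (hB.inter hCm)]
    have hS2 : ν (Sh ⁻¹' B ∩ A) = ν (B ∩ Sh ⁻¹' A) := by
      have : Sh ⁻¹' B ∩ A = Sh ⁻¹' (B ∩ Sh ⁻¹' A) := by rw [Set.preimage_inter, hAs]
      rw [this, h.apply (hB.inter (Sh_meas hAm))]
    rw [h0 B hB, h0 _ (Sh_meas hB), hS1, hS2, hdec B hB]
    ring
  have hprob : IsProbabilityMeasure ν₀ := by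
    constructor
    have := hadd Set.univ MeasurableSet.univ
    have hνu : ν Set.univ = 1 := measure_univ
    rw [Set.preimage_univ, hνu, ← two_mul] at this
    have h2 : (2 : ENNReal) * ν₀ Set.univ = 2 * 1 := this
    exact (ENNReal.mul_right_inj (by norm_num) (by norm_num)).mp h2
  refine ⟨ν₀, hprob, ?_, ?_, ?_⟩
  · rw [h0 _ E_meas.compl]
    have e1 : Eᶜ ∩ A = ∅ := by ext x; simp only [hA, Set.mem_inter_iff, Set.mem_compl_iff, Set.mem_diff, Set.mem_empty_iff_false]; tauto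
    have e2 : Eᶜ ∩ C = ∅ := by ext x; simp only [hC, Set.mem_inter_iff, Set.mem_compl_iff, Set.mem_preimage, Set.mem_empty_iff_false]; tauto
    rw [e1, e2]; simp
  · ext B hB
    rw [Measure.map_apply (Sh_meas.comp Sh_meas) hB, Set.preimage_comp, h0 _ (Sh_meas (Sh_meas hB)), h0 B hB]
    have e1 : Sh ⁻¹' (Sh ⁻¹' B) ∩ A = Sh ⁻¹' (Sh ⁻¹' (B ∩ A)) := by rw [Set.preimage_inter, Set.preimage_inter, hAs]
    have e2 : Sh ⁻¹' (Sh ⁻¹' B) ∩ C = Sh ⁻¹' (Sh ⁻¹' (B ∩ C)) := by rw [Set.preimage_inter, Set.preimage_inter, hCs, hCs]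
    rw [e1, e2, h.apply (Sh_meas (hB.inter hAm)), h.apply (hB.inter hAm), h.apply (Sh_meas (hB.inter hCm)),
      h.apply (hB.inter hCm)]
  · intro B hB
    have h1 := hadd B hB
    have h2 : (ν₀ B + ν₀ (Sh ⁻¹' B)).toReal = (2 * ν B).toReal := by rw [h1]
    rw [ENNReal.toReal_add (measure_ne_top _ _) (measure_ne_top _ _), ENNReal.toReal_mul] at h2
    simp only [measureReal_def]
    rw [h2]; simp

lemma desub {ν₀ ν : Measure (ℤ → Bool)} (h : Lift ν ν₀) : Inv (ν₀.map D) := by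
  haveI := h.prob
  refine ⟨Measure.isProbabilityMeasure_map D_meas.aemeasurable, ?_, ?_⟩
  · rw [Measure.map_apply D_meas X_meas.compl]
    refine measure_mono_null ?_ h.supp
    intro x hx hE
    exact hx hE.2
  · rw [Measure.map_map Sh_meas D_meas]
    have : Sh ∘ D = D ∘ (Sh ∘ Sh) := by funext x; exact (D_shift2 x).symm
    rw [this, ← Measure.map_map D_meas (Sh_meas.comp Sh_meas), h.inv]

lemma freq_step {ν₀ ν : Measure (ℤ → Bool)} (h : Lift ν ν₀) :
    ν.real {x | x 0 = true} = (1 - (ν₀.map D).real {x | x 0 = true}) / 2 := by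
  haveI := h.prob
  have hm : ∀ i : ℤ, MeasurableSet {x : ℤ → Bool | x i = true} := fun i =>
    measurableSet_eq_fun (measurable_pi_apply i) measurable_const
  have h1 := h.half _ (hm 0)
  have h2 : (ν₀.map D).real {x | x 0 = true} = ν₀.real (D ⁻¹' {x | x 0 = true}) := by
    rw [measureReal_def, measureReal_def, Measure.map_apply D_meas (hm 0)]
  have hE : ∀ᵐ x ∂ν₀, x ∈ E := h.supp
  have h3 : ν₀.real (D ⁻¹' {x | x 0 = true})ᶜ = ν₀.real ({x | x 0 = true} ∪ Sh ⁻¹' {x | x 0 = true}) := by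
    rw [measureReal_def, measureReal_def]
    congr 1
    apply measure_congr
    filter_upwards [hE] with x _
    apply propext
    show (x ∈ (D ⁻¹' {x | x 0 = true})ᶜ) ↔ (x ∈ ({x : ℤ → Bool | x 0 = true} ∪ Sh ⁻¹' {x | x 0 = true}))
    simp only [Set.mem_compl_iff, Set.mem_preimage, Set.mem_setOf_eq, Set.mem_union, D, Sh]
    simp
    cases x 0 <;> cases x 1 <;> simp
  have h4 : ν₀.real ({x | x 0 = true} ∪ Sh ⁻¹' {x | x 0 = true}) = ν₀.real {x | x 0 = true} + ν₀.real (Sh ⁻¹' {x | x 0 = true}) := by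
    have h5 : ν₀.real ({x | x 0 = true} ∩ Sh ⁻¹' {x | x 0 = true}) = 0 := by
      rw [measureReal_def]
      have : ν₀ ({x | x 0 = true} ∩ Sh ⁻¹' {x | x 0 = true}) = 0 := by
        refine measure_mono_null ?_ h.supp
        intro x hx hEx
        have := hEx.1 0
        apply this
        simpa [Sh] using hx
      rw [this]; rfl
    have h6 := measureReal_union_add_inter (μ := ν₀) (s := {x : ℤ → Bool | x 0 = true}) (t := Sh ⁻¹' {x | x 0 = true}) (Sh_meas (hm 0))
    rw [h5, add_zero] at h6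
    exact h6
  have h7 := probReal_compl_eq_one_sub (μ := ν₀) (s := D ⁻¹' {x | x 0 = true}) (D_meas (hm 0))
  rw [h1, h2, ← h4, ← h3, h7]

/-- letter frequencies are constant on invariant measures -/
lemma freq {ν : Measure (ℤ → Bool)} (h : Inv ν) : ν.real {x | x 0 = true} = 1 / 3 := by
  have key : ∀ n : ℕ, ∀ ν : Measure (ℤ → Bool), Inv ν → |ν.real {x | x 0 = true} - 1 / 3| ≤ (1 / 2) ^ n := by
    intro n
    induction n with
    | zero =>
      intro ν hν
      haveI := hν.prob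
      have h1 : ν.real {x | x 0 = true} ≤ 1 := measureReal_le_one
      have h2 : 0 ≤ ν.real {x | x 0 = true} := measureReal_nonneg
      rw [abs_le]; constructor <;> norm_num <;> linarith
    | succ n ih =>
      intro ν hν
      obtain ⟨ν₀, h0⟩ := lift_exists hν
      have h1 := ih _ (desub h0)
      rw [freq_step h0]
      have h2 : (1 - (ν₀.map D).real {x | x 0 = true}) / 2 - 1 / 3 = -(1 / 2) * ((ν₀.map D).real {x | x 0 = true} - 1 / 3) := by ring
      rw [h2, abs_mul, pow_succ]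
      have h3 : |(-(1 / 2) : ℝ)| = 1 / 2 := by rw [abs_neg]; norm_num
      rw [h3]
      linarith
  by_contra hne
  have hpos : 0 < |ν.real {x | x 0 = true} - 1 / 3| := abs_pos.mpr (sub_ne_zero.mpr hne)
  obtain ⟨n, hn⟩ := exists_pow_lt_of_lt_one hpos (show (1 / 2 : ℝ) < 1 by norm_num)
  exact absurd (key n ν h) (not_le.mpr hn)

/-! ### iterated shifts -/

lemma Sh_iter (k : ℕ) (x : ℤ → Bool) (j : ℤ) : Sh^[k] x j = x (j + k) := by
  induction k generalizing x with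
  | zero => simp
  | succ k ih =>
    rw [Function.iterate_succ_apply, ih]
    show x (j + k + 1) = x (j + ((k + 1 : ℕ) : ℤ))
    congr 1; push_cast; ring

lemma inv_iter {ν : Measure (ℤ → Bool)} (h : ν.map Sh = ν) (k : ℕ) : ν.map (Sh^[k]) = ν := by
  induction k with
  | zero => simp
  | succ k ih =>
    rw [Function.iterate_succ, ← Measure.map_map (Sh_meas.iterate k) Sh_meas, h, ih]

lemma inv2_iter {ν : Measure (ℤ → Bool)} (h : ν.map (Sh ∘ Sh) = ν) (k : ℕ) : ν.map (Sh^[2 * k]) = ν := by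
  induction k with
  | zero => simp
  | succ k ih =>
    have : Sh^[2 * (k + 1)] = Sh^[2 * k] ∘ (Sh ∘ Sh) := by
      have e : 2 * (k + 1) = 2 * k + 2 := by ring
      rw [e, Function.iterate_add]; rfl
    rw [this, ← Measure.map_map (Sh_meas.iterate _) (Sh_meas.comp Sh_meas), h, ih]

lemma pr_map {ι : Type*} [MeasurableSpace ι] [MeasurableSingletonClass ι] {ν : Measure (ℤ → Bool)}
    (T : (ℤ → Bool) → (ℤ → Bool)) (hT : Measurable T) (f : (ℤ → Bool) → ι) (hf : Measurable f) (i : ι) :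
    pr (ν.map T) f i = pr ν (fun x => f (T x)) i := by
  unfold pr
  rw [measureReal_def, measureReal_def, Measure.map_apply hT (hf (measurableSet_singleton i))]
  rfl

lemma Hm_map {ι : Type*} [Fintype ι] [MeasurableSpace ι] [MeasurableSingletonClass ι] {ν : Measure (ℤ → Bool)}
    (T : (ℤ → Bool) → (ℤ → Bool)) (hT : Measurable T) (f : (ℤ → Bool) → ι) (hf : Measurable f) :
    Hm (ν.map T) f = Hm ν (fun x => f (T x)) := by
  unfold Hm
  simp_rw [pr_map T hT f hf]

/-- windows -/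
def win (i : ℤ) (n : ℕ) (x : ℤ → Bool) : Fin n → Bool := fun k => x (i + (k : ℕ))

/-- windows of aligned pairs -/
def pw (i : ℤ) (n : ℕ) (x : ℤ → Bool) : Fin n → Bool × Bool := fun k => (x (2 * (i + (k : ℕ))), x (2 * (i + (k : ℕ)) + 1))

lemma win_meas (i : ℤ) (n : ℕ) : Measurable (win i n) := measurable_pi_lambda _ fun k => measurable_pi_apply _

lemma pw_meas (i : ℤ) (n : ℕ) : Measurable (pw i n) :=
  measurable_pi_lambda _ fun k => (measurable_pi_apply _).prodMk (measurable_pi_apply _)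

lemma win_iff {i : ℤ} {n : ℕ} {x y : ℤ → Bool} : win i n x = win i n y ↔ ∀ k : ℕ, k < n → x (i + k) = y (i + k) := by
  constructor
  · intro h k hk
    exact congrFun h ⟨k, hk⟩
  · intro h
    funext k
    exact h k k.2

lemma pw_iff {i : ℤ} {n : ℕ} {x y : ℤ → Bool} : pw i n x = pw i n y ↔
    ∀ k : ℕ, k < n → x (2 * (i + k)) = y (2 * (i + k)) ∧ x (2 * (i + k) + 1) = y (2 * (i + k) + 1) := by
  constructor
  · intro h k hk
    have := congrFun h ⟨k, hk⟩
    exact ⟨congrArg Prod.fst this, congrArg Prod.snd this⟩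
  · intro h
    funext k
    exact Prod.ext (h k k.2).1 (h k k.2).2

/-- desubstitution of a window of pairs -/
def du {n : ℕ} (w : Fin n → Bool × Bool) : Fin n → Bool := fun k => !((w k).1 || (w k).2)

lemma du_pw (i : ℤ) (n : ℕ) (x : ℤ → Bool) : du (pw i n x) = win i n (D x) := rfl

lemma win_shift (k : ℕ) (n : ℕ) (x : ℤ → Bool) : win k n x = win 0 n (Sh^[k] x) := by
  funext j
  show x (k + (j : ℕ)) = Sh^[k] x (0 + (j : ℕ))
  rw [Sh_iter]; congr 1; ring

lemma pw_shift (k : ℕ) (n : ℕ) (x : ℤ → Bool) : pw k n x = pw 0 n (Sh^[2 * k] x) := by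
  funext j
  show (x (2 * (k + (j : ℕ))), x (2 * (k + (j : ℕ)) + 1)) =
    (Sh^[2 * k] x (2 * (0 + (j : ℕ))), Sh^[2 * k] x (2 * (0 + (j : ℕ)) + 1))
  rw [Sh_iter, Sh_iter]
  congr 2 <;> push_cast <;> ring

lemma Hm_win_shift {ν : Measure (ℤ → Bool)} (h : ν.map Sh = ν) (k n : ℕ) : Hm ν (win k n) = Hm ν (win 0 n) := by
  have h1 := Hm_map (ν := ν) (Sh^[k]) (Sh_meas.iterate k) (win 0 n) (win_meas 0 n)
  rw [inv_iter h k] at h1
  rw [h1]
  congr 1
  funext x
  exact win_shift k n x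

lemma Hm_pw_shift {ν : Measure (ℤ → Bool)} (h : ν.map (Sh ∘ Sh) = ν) (k n : ℕ) : Hm ν (pw k n) = Hm ν (pw 0 n) := by
  have h1 := Hm_map (ν := ν) (Sh^[2 * k]) (Sh_meas.iterate _) (pw 0 n) (pw_meas 0 n)
  rw [inv2_iter h k] at h1
  rw [h1]
  congr 1
  funext x
  exact pw_shift k n x

end Pool.Agent.V11276.PE
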