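import Pool.Agent.V11276.PE3

namespace Pool.Agent.V11276.PE

open MeasureTheory Filter Topology Finset

section basic
variable {ι κ' : Type*} [Fintype ι] [MeasurableSpace ι] [MeasurableSingletonClass ι]
variable {ν ν₀ : Measure (ℤ → Bool)}

lemma pr_le_one [IsProbabilityMeasure ν] (f : (ℤ → Bool) → ι) (i : ι) : pr ν f i ≤ 1 := measureReal_le_one

lemma Hm_nonneg [IsProbabilityMeasure ν] (f : (ℤ → Bool) → ι) : 0 ≤ Hm ν f := by
  unfold Hm
  refine sum_nonneg fun i _ => mul_nonneg (pr_nonneg f i) ?_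
  have := Real.log_nonpos (pr_nonneg (ν := ν) f i) (pr_le_one f i)
  linarith

lemma Hm_unit [IsProbabilityMeasure ν] : Hm ν (fun _ => ()) = 0 := by
  unfold Hm pr
  simp

/-- entropy -/
noncomputable def ent (ν : Measure (ℤ → Bool)) : ℝ := limsup (fun n : ℕ => Hm ν (win 0 n) / n) atTop

lemma Hm_add [IsProbabilityMeasure ν] (m n : ℕ) : Hm ν (win 0 (m + n)) ≤ Hm ν (win 0 m) + Hm ν (win m n) := by
  have h1 : Hm ν (win 0 (m + n)) = Hm ν (fun x => (win 0 m x, win m n x)) := by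
    refine Hm_congr _ (win_meas _ _) _ ((win_meas _ _).prodMk (win_meas _ _)) (fun x y => ?_)
    rw [Prod.mk.injEq, win_iff, win_iff, win_iff]
    constructor
    · intro h
      refine ⟨fun k hk => h k (by omega), fun k hk => ?_⟩
      have := h (m + k) (by omega)
      have e : (0 : ℤ) + ((m + k : ℕ) : ℤ) = m + k := by push_cast; ring
      rw [e] at this; exact this
    · rintro ⟨ha, hb⟩ k hk
      by_cases hkm : k < m
      · exact ha k hkm
      · have := hb (k - m) (by omega)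
        have e : (m : ℤ) + ((k - m : ℕ) : ℤ) = 0 + k := by omega
        rw [e] at this; exact this
  rw [h1]
  have h2 := Hm_cond (ν := ν) (win 0 m) (win_meas 0 m) (win m n) (win_meas m n) (fun _ => ()) (fun _ => ())
    measurable_const measurable_const
  have h3 : Hm ν (fun _ : ℤ → Bool => ((), ())) = 0 := by
    unfold Hm pr; simp
  rw [h3, Hm_unit] at h2
  linarith

lemma sub_add {ν : Measure (ℤ → Bool)} (h : Inv ν) : Subadditive (fun n => Hm ν (win 0 n)) := by
  haveI := h.prob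
  intro m n
  have := Hm_add (ν := ν) m n
  rwa [Hm_win_shift h.inv] at this

lemma ent_spec (h : Inv ν) : Tendsto (fun n : ℕ => Hm ν (win 0 n) / n) atTop (𝓝 (ent ν)) ∧
    ∀ n : ℕ, n ≠ 0 → ent ν ≤ Hm ν (win 0 n) / n := by
  haveI := h.prob
  have hs := sub_add h
  have hb : BddBelow (Set.range fun n : ℕ => Hm ν (win 0 n) / n) :=
    ⟨0, by rintro _ ⟨n, rfl⟩; exact div_nonneg (Hm_nonneg _) (Nat.cast_nonneg n)⟩
  have ht := hs.tendsto_lim hb
  have he : ent ν = hs.lim := ht.limsup_eq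
  rw [he]
  exact ⟨ht, fun n hn => hs.lim_le_div hb hn⟩

lemma ent_nonneg (h : Inv ν) : 0 ≤ ent ν := by
  haveI := h.prob
  exact ge_of_tendsto' (ent_spec h).1 fun n => div_nonneg (Hm_nonneg _) (Nat.cast_nonneg n)

lemma ent_le_log (h : Inv ν) : ent ν ≤ Real.log 2 := by
  haveI := h.prob
  have h1 := (ent_spec h).2 1 one_ne_zero
  refine h1.trans ?_
  have h2 : Hm ν (win 0 1) = Hm ν (fun x => ((), x 0)) := by
    refine Hm_congr _ (win_meas _ _) _ (measurable_const.prodMk (measurable_pi_apply 0)) (fun x y => ?_)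
    rw [Prod.mk.injEq, win_iff]
    constructor
    · intro h; exact ⟨rfl, by simpa using h 0 (by norm_num)⟩
    · rintro ⟨-, h⟩ k hk
      have : k = 0 := by omega
      subst this; simpa using h
  have h3 := Hm_bool (ν := ν) (fun _ => ()) measurable_const (fun x => x 0) (measurable_pi_apply 0)
  rw [Hm_unit, zero_add] at h3
  rw [Nat.cast_one, div_one, h2]
  exact h3

lemma pr_half (h : Lift ν ν₀) (f : (ℤ → Bool) → ι) (hf : Measurable f) (i : ι) :
    pr ν f i = (pr ν₀ f i + pr ν₀ (fun x => f (Sh x)) i) / 2 := h.half _ (hf (measurableSet_singleton i))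

lemma Hm_mix_le (h : Lift ν ν₀) (f : (ℤ → Bool) → ι) (hf : Measurable f) :
    Hm ν f ≤ Real.log 2 + (Hm ν₀ f + Hm ν₀ (fun x => f (Sh x))) / 2 := by
  haveI := h.prob
  have hpt : ∀ a b : ℝ, 0 ≤ a → 0 ≤ b → (a + b) / 2 * (-Real.log ((a + b) / 2)) ≤
      (a * (-Real.log a) + b * (-Real.log b)) / 2 + Real.log 2 * ((a + b) / 2) := by
    have key : ∀ a b : ℝ, 0 ≤ a → 0 ≤ b → a * (-Real.log ((a + b) / 2)) ≤ a * (-Real.log a) + Real.log 2 * a := by
      intro a b ha hb
      rcases eq_or_lt_of_le ha with h0 | h0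
      · rw [← h0]; simp
      · have h1 : Real.log (a / 2) ≤ Real.log ((a + b) / 2) := Real.log_le_log (by positivity) (by linarith)
        rw [Real.log_div h0.ne' (by norm_num)] at h1
        nlinarith
    intro a b ha hb
    have h1 := key a b ha hb
    have h2 := key b a hb ha
    rw [add_comm b a] at h2
    linarith
  unfold Hm
  calc ∑ i, pr ν f i * (-Real.log (pr ν f i))
      ≤ ∑ i, ((pr ν₀ f i * (-Real.log (pr ν₀ f i)) + pr ν₀ (fun x => f (Sh x)) i * (-Real.log (pr ν₀ (fun x => f (Sh x)) i))) / 2 +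
        Real.log 2 * ((pr ν₀ f i + pr ν₀ (fun x => f (Sh x)) i) / 2)) := by
        apply sum_le_sum
        intro i _
        rw [pr_half h f hf i]
        exact hpt _ _ (pr_nonneg _ _) (pr_nonneg _ _)
    _ = _ := by
        rw [sum_add_distrib, ← sum_div, sum_add_distrib, ← mul_sum, ← sum_div, sum_add_distrib, pr_sum f hf,
          pr_sum (fun x => f (Sh x)) (hf.comp Sh_meas)]
        ring

lemma Hm_mix_ge (h : Lift ν ν₀) (f : (ℤ → Bool) → ι) (hf : Measurable f) :
    (Hm ν₀ f + Hm ν₀ (fun x => f (Sh x))) / 2 ≤ Hm ν f := by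
  rw [Hm_negMulLog, Hm_negMulLog, Hm_negMulLog, ← sum_add_distrib, sum_div]
  apply sum_le_sum
  intro i _
  rw [pr_half h f hf i]
  have h1 := Real.concaveOn_negMulLog.2 (pr_nonneg (ν := ν₀) f i) (pr_nonneg (ν := ν₀) (fun x => f (Sh x)) i)
    (show (0 : ℝ) ≤ 1 / 2 by norm_num) (show (0 : ℝ) ≤ 1 / 2 by norm_num) (by norm_num)
  simp only [smul_eq_mul] at h1
  have e1 : 1 / 2 * pr ν₀ f i + 1 / 2 * pr ν₀ (fun x => f (Sh x)) i = (pr ν₀ f i + pr ν₀ (fun x => f (Sh x)) i) / 2 := by ring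
  rw [e1] at h1
  linarith

end basic

section main
variable {ν ν₀ : Measure (ℤ → Bool)}

lemma win_pw_iff (n : ℕ) (x y : ℤ → Bool) : win 0 (2 * n + 1) x = win 0 (2 * n + 1) y ↔
    (pw 0 n x, x (2 * n)) = (pw 0 n y, y (2 * n)) := by
  rw [Prod.mk.injEq, win_iff, pw_iff]
  constructor
  · intro h
    refine ⟨fun k hk => ⟨?_, ?_⟩, ?_⟩
    · have := h (2 * k) (by omega)
      push_cast at this; simpa using this
    · have := h (2 * k + 1) (by omega)
      push_cast at this; simpa using this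
    · have := h (2 * n) (by omega)
      push_cast at this; simpa using this
  · rintro ⟨ha, hb⟩ k hk
    rcases Nat.even_or_odd' k with ⟨j, hj | hj⟩
    · by_cases hjn : j < n
      · have := (ha j hjn).1
        subst hj; push_cast; simpa using this
      · have : j = n := by omega
        subst this; subst hj; push_cast; simpa using hb
    · have := (ha j (by omega)).2
      subst hj; push_cast; simpa using this

lemma win_pw_iff' (n : ℕ) (x y : ℤ → Bool) : win 0 (2 * n + 1) (Sh x) = win 0 (2 * n + 1) (Sh y) ↔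
    (pw (1 : ℕ) n x, x 1) = (pw (1 : ℕ) n y, y 1) := by
  rw [Prod.mk.injEq, win_iff, pw_iff]
  constructor
  · intro h
    refine ⟨fun k hk => ⟨?_, ?_⟩, ?_⟩
    · have := h (2 * k + 1) (by omega)
      have e : (0 : ℤ) + ((2 * k + 1 : ℕ) : ℤ) + 1 = 2 * (((1 : ℕ) : ℤ) + k) := by push_cast; ring
      simp only [Sh, e] at this; exact this
    · have := h (2 * k + 2) (by omega)
      have e : (0 : ℤ) + ((2 * k + 2 : ℕ) : ℤ) + 1 = 2 * (((1 : ℕ) : ℤ) + k) + 1 := by push_cast; ring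
      simp only [Sh, e] at this; exact this
    · have := h 0 (by omega)
      simpa [Sh] using this
  · rintro ⟨ha, hb⟩ k hk
    rcases Nat.even_or_odd' k with ⟨j, hj | hj⟩
    · by_cases hj0 : j = 0
      · subst hj0; subst hj; simpa [Sh] using hb
      · have := (ha (j - 1) (by omega)).2
        have e : 2 * (((1 : ℕ) : ℤ) + ((j - 1 : ℕ) : ℤ)) + 1 = 0 + (k : ℤ) + 1 := by omega
        rw [e] at this; exact this
    · have := (ha j (by omega)).1
      have e : 2 * (((1 : ℕ) : ℤ) + (j : ℤ)) = 0 + (k : ℤ) + 1 := by omega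
      rw [e] at this; exact this

lemma H_upper (h : Lift ν ν₀) (n : ℕ) : Hm ν (win 0 (2 * n + 1)) ≤ 2 * Real.log 2 + Hm ν₀ (pw 0 n) := by
  haveI := h.prob
  have h1 := Hm_mix_le h (win 0 (2 * n + 1)) (win_meas _ _)
  have h2 : Hm ν₀ (win 0 (2 * n + 1)) ≤ Hm ν₀ (pw 0 n) + Real.log 2 := by
    rw [Hm_congr _ (win_meas _ _) (fun x => (pw 0 n x, x (2 * n))) ((pw_meas _ _).prodMk (measurable_pi_apply _)) (win_pw_iff n)]
    exact Hm_bool _ (pw_meas _ _) _ (measurable_pi_apply _)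
  have h3 : Hm ν₀ (fun x => win 0 (2 * n + 1) (Sh x)) ≤ Hm ν₀ (pw 0 n) + Real.log 2 := by
    rw [Hm_congr (fun x => win 0 (2 * n + 1) (Sh x)) ((win_meas _ _).comp Sh_meas) (fun x => (pw (1 : ℕ) n x, x 1)) ((pw_meas _ _).prodMk (measurable_pi_apply _)) (win_pw_iff' n)]
    refine (Hm_bool _ (pw_meas _ _) _ (measurable_pi_apply _)).trans ?_
    rw [Hm_pw_shift h.inv]
  linarith

lemma H_lower (h : Lift ν ν₀) (n : ℕ) : Hm ν₀ (pw 0 n) ≤ Hm ν (win 0 (2 * n + 1)) := by
  haveI := h.prob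
  have h1 := Hm_mix_ge h (win 0 (2 * n + 1)) (win_meas _ _)
  have h2 : Hm ν₀ (pw 0 n) ≤ Hm ν₀ (win 0 (2 * n + 1)) := by
    refine Hm_mono _ (win_meas _ _) _ (pw_meas _ _) (fun x y hxy => ?_)
    exact congrArg Prod.fst ((win_pw_iff n x y).mp hxy)
  have h3 : Hm ν₀ (pw 0 n) ≤ Hm ν₀ (fun x => win 0 (2 * n + 1) (Sh x)) := by
    rw [← Hm_pw_shift h.inv 1 n]
    refine Hm_mono _ ((win_meas _ _).comp Sh_meas) _ (pw_meas _ _) (fun x y hxy => ?_)
    exact congrArg Prod.fst ((win_pw_iff' n x y).mp hxy)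
  linarith

lemma pw_add_iff (m n : ℕ) (x y : ℤ → Bool) : pw 0 (m + n) x = pw 0 (m + n) y ↔
    (pw 0 m x, pw m n x) = (pw 0 m y, pw m n y) := by
  rw [Prod.mk.injEq, pw_iff, pw_iff, pw_iff]
  constructor
  · intro h
    refine ⟨fun k hk => h k (by omega), fun k hk => ?_⟩
    have := h (m + k) (by omega)
    have e : (0 : ℤ) + ((m + k : ℕ) : ℤ) = m + k := by push_cast; ring
    rw [e] at this; exact this
  · rintro ⟨ha, hb⟩ k hk
    by_cases hkm : k < m
    · exact ha k hkm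
    · have := hb (k - m) (by omega)
      have e : (m : ℤ) + ((k - m : ℕ) : ℤ) = 0 + k := by omega
      rw [e] at this; exact this

lemma win_add_iff (m n : ℕ) (x y : ℤ → Bool) : win 0 (m + n) x = win 0 (m + n) y ↔
    (win 0 m x, win m n x) = (win 0 m y, win m n y) := by
  rw [Prod.mk.injEq, win_iff, win_iff, win_iff]
  constructor
  · intro h
    refine ⟨fun k hk => h k (by omega), fun k hk => ?_⟩
    have := h (m + k) (by omega)
    have e : (0 : ℤ) + ((m + k : ℕ) : ℤ) = m + k := by push_cast; ring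
    rw [e] at this; exact this
  · rintro ⟨ha, hb⟩ k hk
    by_cases hkm : k < m
    · exact ha k hkm
    · have := hb (k - m) (by omega)
      have e : (m : ℤ) + ((k - m : ℕ) : ℤ) = 0 + k := by omega
      rw [e] at this; exact this

/-- entropy of the inflated block given the block -/
noncomputable def GG (ν₀ : Measure (ℤ → Bool)) (n : ℕ) : ℝ := Hm ν₀ (pw 0 n) - Hm (ν₀.map D) (win 0 n)

lemma Hm_D (ν₀ : Measure (ℤ → Bool)) (i : ℤ) (n : ℕ) : Hm (ν₀.map D) (win i n) = Hm ν₀ (fun x => du (pw i n x)) :=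
  Hm_map D D_meas (win i n) (win_meas i n)

lemma du_meas (i : ℤ) (n : ℕ) : Measurable (fun x => du (pw i n x)) := (win_meas i n).comp D_meas

lemma GG_sub (h : Lift ν ν₀) (m n : ℕ) : GG ν₀ (m + n) ≤ GG ν₀ m + GG ν₀ n := by
  haveI := h.prob
  have h1 := Hm_cond (ν := ν₀) (pw 0 m) (pw_meas 0 m) (pw m n) (pw_meas m n) du du (du_meas 0 m) (du_meas m n)
  have h2 : Hm ν₀ (fun x => (pw 0 m x, pw m n x)) = Hm ν₀ (pw 0 (m + n)) :=
    (Hm_congr _ (pw_meas _ _) _ ((pw_meas _ _).prodMk (pw_meas _ _)) (pw_add_iff m n)).symm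
  have h3 : Hm ν₀ (fun x => (du (pw 0 m x), du (pw m n x))) = Hm (ν₀.map D) (win 0 (m + n)) := by
    rw [Hm_D]
    exact (Hm_congr _ (du_meas _ _) _ ((du_meas _ _).prodMk (du_meas _ _)) (fun x y => win_add_iff m n (D x) (D y))).symm
  have h4 : Hm ν₀ (fun x => du (pw m n x)) = Hm (ν₀.map D) (win 0 n) := by
    rw [← Hm_D, Hm_win_shift (desub h).inv]
  rw [h2, h3, h4, ← Hm_D, Hm_pw_shift h.inv] at h1
  unfold GG
  linarith

lemma GG_mul (h : Lift ν ν₀) (m k : ℕ) : GG ν₀ ((k + 1) * m) ≤ (k + 1) * GG ν₀ m := by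
  induction k with
  | zero => simp
  | succ k ih =>
    have := GG_sub h ((k + 1) * m) m
    have e : (k + 1 + 1) * m = (k + 1) * m + m := by ring
    rw [e]
    push_cast
    push_cast at ih
    linarith

/-- main upper inequality -/
lemma ent_upper (hν : Inv ν) (h : Lift ν ν₀) (m : ℕ) (hm : 0 < m) :
    2 * ent ν ≤ ent (ν₀.map D) + GG ν₀ m / m := by
  haveI := h.prob
  have hν' := desub h
  have hm' : (0 : ℝ) < m := by exact_mod_cast hm
  have hn : Tendsto (fun k : ℕ => (k + 1) * m) atTop atTop :=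
    tendsto_atTop_mono (fun k => (Nat.le_mul_of_pos_right _ hm : k + 1 ≤ (k + 1) * m)) (tendsto_add_atTop_nat 1)
  have hlim : Tendsto (fun k : ℕ => 2 * Real.log 2 / (((k + 1) * m : ℕ) : ℝ) +
      Hm (ν₀.map D) (win 0 ((k + 1) * m)) / (((k + 1) * m : ℕ) : ℝ) + GG ν₀ m / m) atTop
      (𝓝 (0 + ent (ν₀.map D) + GG ν₀ m / m)) := by
    refine Tendsto.add (Tendsto.add ?_ ((ent_spec hν').1.comp hn)) tendsto_const_nhds
    exact (tendsto_const_nhds.div_atTop tendsto_natCast_atTop_atTop).comp hn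
  rw [zero_add] at hlim
  refine ge_of_tendsto' hlim fun k => ?_
  have hN : (0 : ℝ) < (((k + 1) * m : ℕ) : ℝ) := by positivity
  have h1 := (ent_spec hν).2 (2 * ((k + 1) * m) + 1) (by omega)
  have h2 := H_upper h ((k + 1) * m)
  have h3 := GG_mul h m k
  have h4 := ent_nonneg hν
  rw [le_div_iff₀ (by positivity)] at h1
  have h5 : GG ν₀ ((k + 1) * m) = Hm ν₀ (pw 0 ((k + 1) * m)) - Hm (ν₀.map D) (win 0 ((k + 1) * m)) := rfl
  have h6 : GG ν₀ m / m = ((k + 1) * GG ν₀ m) / (((k + 1) * m : ℕ) : ℝ) := by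
    push_cast; field_simp
  rw [h6, ← add_div, ← add_div, le_div_iff₀ hN]
  push_cast at h1 ⊢
  nlinarith

/-- main lower inequality -/
lemma ent_lower (hν : Inv ν) (h : Lift ν ν₀) (c : ℝ) (hc : ∀ n : ℕ, Hm (ν₀.map D) (win 0 n) + c * n ≤ Hm ν₀ (pw 0 n)) :
    (ent (ν₀.map D) + c) / 2 ≤ ent ν := by
  haveI := h.prob
  have hν' := desub h
  have h1 : Tendsto (fun n : ℕ => Hm ν (win 0 (2 * n + 1)) / ((2 * n + 1 : ℕ) : ℝ)) atTop (𝓝 (ent ν)) := by
    have hn : Tendsto (fun n : ℕ => 2 * n + 1) atTop atTop :=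
      tendsto_atTop_mono (fun n => show n ≤ 2 * n + 1 by omega) tendsto_id
    exact (ent_spec hν).1.comp hn
  have h2 : Tendsto (fun n : ℕ => (Hm (ν₀.map D) (win 0 n) / n + c) / (2 + 1 / n)) atTop (𝓝 ((ent (ν₀.map D) + c) / (2 + 0))) := by
    refine Tendsto.div ((ent_spec hν').1.add_const c) (tendsto_const_nhds.add tendsto_one_div_atTop_nhds_zero_nat) (by norm_num)
  rw [add_zero] at h2
  refine le_of_tendsto_of_tendsto h2 h1 ?_
  filter_upwards [eventually_ge_atTop 1] with n hn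
  have hn' : (0 : ℝ) < n := by exact_mod_cast hn
  have e1 : (Hm (ν₀.map D) (win 0 n) / n + c) / (2 + 1 / n) = (Hm (ν₀.map D) (win 0 n) + c * n) / ((2 * n + 1 : ℕ) : ℝ) := by
    push_cast; field_simp
  rw [e1]
  apply div_le_div_of_nonneg_right ((hc n).trans (H_lower h n)) (Nat.cast_nonneg _)

end main

end Pool.Agent.V11276.PE
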