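import Pool.Agent.V11276.PE4

namespace Pool.Agent.V11276.PE

open MeasureTheory Filter Topology Finset

/-- conditional weights of the inflation words: `ab`, `ba` with weight `1/2` and `aa` with weight `1` -/
noncomputable def kap (p : Bool × Bool) : ℝ := if p.1 ≠ p.2 then 1 / 2 else if p.1 then 0 else 1

lemma kap_nonneg (p : Bool × Bool) : 0 ≤ kap p := by
  unfold kap; split_ifs <;> norm_num

lemma kap_pos {p : Bool × Bool} (h : ¬ (p.1 = true ∧ p.2 = true)) : 0 < kap p := by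
  obtain ⟨a, b⟩ := p
  revert h
  cases a <;> cases b <;> simp [kap]

lemma kap_fib (y : Bool) : ∑ p ∈ univ.filter (fun p : Bool × Bool => (!(p.1 || p.2)) = y), kap p = 1 := by
  cases y <;> simp [sum_filter, Fintype.sum_prod_type, kap]
  norm_num

lemma sum_q {m : ℕ} (F : (Fin m → Bool) → ℝ) :
    ∑ w : Fin m → Bool × Bool, F (du w) * ∏ j, kap (w j) = ∑ y, F y := by
  rw [← sum_fiberwise (s := univ) (g := du)]
  apply sum_congr rfl
  intro y _
  have h1 : ∑ w ∈ univ.filter (fun w : Fin m → Bool × Bool => du w = y), F (du w) * ∏ j, kap (w j) =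
      F y * ∑ w ∈ univ.filter (fun w : Fin m → Bool × Bool => du w = y), ∏ j, kap (w j) := by
    rw [mul_sum]
    apply sum_congr rfl
    intro w hw
    rw [(mem_filter.mp hw).2]
  have h2 : univ.filter (fun w : Fin m → Bool × Bool => du w = y) =
      Fintype.piFinset (fun j => univ.filter (fun p : Bool × Bool => (!(p.1 || p.2)) = y j)) := by
    ext w
    simp only [mem_filter, mem_univ, true_and, Fintype.mem_piFinset, funext_iff, du]
  rw [h1, h2, ← prod_univ_sum]
  simp only [kap_fib, prod_const_one, mul_one]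

section
variable {ν ν₀ : Measure (ℤ → Bool)}

lemma freq_all (h : Inv ν) (k : ℕ) : ν.real {x | x (k : ℤ) = true} = 1 / 3 := by
  rw [← freq h]
  have hm : MeasurableSet {x : ℤ → Bool | x 0 = true} := measurableSet_eq_fun (measurable_pi_apply 0) measurable_const
  have h1 : ν.real {x | x 0 = true} = (ν.map (Sh^[k])).real {x | x 0 = true} := by rw [inv_iter h.inv k]
  rw [h1, measureReal_def, measureReal_def, Measure.map_apply (Sh_meas.iterate k) hm]
  congr 2
  ext x
  simp [Sh_iter]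

lemma D_freq (h : Lift ν ν₀) (k : ℕ) : ν₀.real {x | D x k = false} = 2 / 3 := by
  haveI := h.prob
  have hm : MeasurableSet {x : ℤ → Bool | x (k : ℤ) = true} :=
    measurableSet_eq_fun (measurable_pi_apply _) measurable_const
  have h1 := freq_all (desub h) k
  rw [measureReal_def, Measure.map_apply D_meas hm, ← measureReal_def] at h1
  have h2 := probReal_compl_eq_one_sub (μ := ν₀) (s := D ⁻¹' {x | x (k : ℤ) = true}) (D_meas hm)
  have h3 : (D ⁻¹' {x | x (k : ℤ) = true})ᶜ = {x | D x k = false} := by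
    ext x; simp
  rw [h3, h1] at h2
  rw [h2]; norm_num

lemma neg_log_kap (p : Bool × Bool) (h : ¬ (p.1 = true ∧ p.2 = true)) :
    -Real.log (kap p) = if (!(p.1 || p.2)) = false then Real.log 2 else 0 := by
  obtain ⟨a, b⟩ := p
  revert h
  cases a <;> cases b <;> simp [kap]

lemma int_kap (h : Lift ν ν₀) (m : ℕ) :
    ∫ x, (∑ j : Fin m, -Real.log (kap (pw 0 m x j))) ∂ν₀ = 2 / 3 * m * Real.log 2 := by
  haveI := h.prob
  have hE : ∀ᵐ x ∂ν₀, x ∈ E := h.supp
  have hm : ∀ k : ℤ, MeasurableSet {x | D x k = false} := fun k =>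
    D_meas (measurableSet_eq_fun (measurable_pi_apply k) measurable_const)
  have h1 : (fun x => ∑ j : Fin m, -Real.log (kap (pw 0 m x j))) =ᵐ[ν₀]
      fun x => ∑ j : Fin m, ({x | D x ((j : ℕ) : ℤ) = false}.indicator (fun _ => Real.log 2) x) := by
    filter_upwards [hE] with x hx
    apply sum_congr rfl
    intro j _
    rw [neg_log_kap _ (hx.1 _)]
    have e : (0 : ℤ) + ((j : ℕ) : ℤ) = ((j : ℕ) : ℤ) := by ring
    simp only [Set.indicator, Set.mem_setOf_eq, pw, D, e]
  rw [integral_congr_ae h1, integral_finsetSum _ (fun j _ => (integrable_const (Real.log 2)).indicator (hm _))]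
  have h2 : ∀ j : Fin m, ∫ x, {x | D x ((j : ℕ) : ℤ) = false}.indicator (fun _ => Real.log 2) x ∂ν₀ = 2 / 3 * Real.log 2 := by
    intro j
    rw [integral_indicator_const _ (hm _), D_freq h, smul_eq_mul]
  simp only [h2, sum_const, card_univ, Fintype.card_fin, nsmul_eq_mul]
  ring

/-- reference weights -/
noncomputable def qq (ν₀ : Measure (ℤ → Bool)) (m : ℕ) (w : Fin m → Bool × Bool) : ℝ :=
  pr ν₀ (fun x => du (pw 0 m x)) (du w) * ∏ j, kap (w j)

lemma qq_nonneg (m : ℕ) (w : Fin m → Bool × Bool) : 0 ≤ qq ν₀ m w :=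
  mul_nonneg (pr_nonneg _ _) (prod_nonneg fun j _ => kap_nonneg _)

lemma qq_sum (h : Lift ν ν₀) (m : ℕ) : ∑ w, qq ν₀ m w ≤ 1 := by
  haveI := h.prob
  unfold qq
  rw [sum_q, pr_sum _ (du_meas 0 m)]

lemma qq_pos (h : Lift ν ν₀) (m : ℕ) (w : Fin m → Bool × Bool) (hw : 0 < pr ν₀ (pw 0 m) w) : 0 < qq ν₀ m w := by
  haveI := h.prob
  refine mul_pos (lt_of_lt_of_le hw (pr_le_comp (pw 0 m) du w)) (prod_pos fun j _ => kap_pos ?_)
  intro hj
  have h0 : ν₀ (pw 0 m ⁻¹' {w}) = 0 := by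
    refine measure_mono_null ?_ h.supp
    intro x hx hE
    have hx' : pw 0 m x = w := hx
    apply hE.1 (0 + (j : ℕ))
    rw [← hx'] at hj
    exact hj
  unfold pr at hw
  rw [measureReal_def, h0] at hw
  simp at hw

lemma int_qq (h : Lift ν ν₀) (m : ℕ) : ∫ x, -Real.log (qq ν₀ m (pw 0 m x)) ∂ν₀ =
    Hm (ν₀.map D) (win 0 m) + 2 / 3 * m * Real.log 2 := by
  haveI := h.prob
  rw [Hm_D, Hm_int _ (du_meas 0 m), ← int_kap h m,
    ← integral_add (intg_fin _ (du_meas 0 m) (fun i => -Real.log (pr ν₀ (fun x => du (pw 0 m x)) i)))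
      (intg_fin (ν := ν₀) _ (pw_meas 0 m) (fun w => ∑ j : Fin m, -Real.log (kap (w j))))]
  apply integral_congr_ae
  have hE : ∀ᵐ x ∂ν₀, x ∈ E := h.supp
  filter_upwards [hE, ae_pr_pos (ν := ν₀) _ (du_meas 0 m)] with x hx hpos
  show -Real.log (qq ν₀ m (pw 0 m x)) = -Real.log (pr ν₀ (fun x => du (pw 0 m x)) (du (pw 0 m x))) +
    ∑ j : Fin m, -Real.log (kap (pw 0 m x j))
  have hk : ∀ j : Fin m, 0 < kap (pw 0 m x j) := fun j => kap_pos (hx.1 _)
  unfold qq
  rw [Real.log_mul hpos.ne' (prod_pos fun j _ => hk j).ne', Real.log_prod (fun j _ => (hk j).ne'), sum_neg_distrib]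
  ring

lemma K_le (h : Lift ν ν₀) (m : ℕ) : Hm ν₀ (pw 0 m) ≤ Hm (ν₀.map D) (win 0 m) + 2 / 3 * m * Real.log 2 := by
  haveI := h.prob
  rw [← int_qq h m]
  exact gibbs (pw 0 m) (pw_meas 0 m) (qq ν₀ m) (qq_nonneg m) (qq_sum h m) (qq_pos h m)

lemma K_eq (h : Lift ν ν₀) (m : ℕ) (hge : Hm (ν₀.map D) (win 0 m) + 2 / 3 * m * Real.log 2 ≤ Hm ν₀ (pw 0 m)) :
    ∀ w, pr ν₀ (pw 0 m) w = qq ν₀ m w := by
  haveI := h.prob
  rw [← int_qq h m] at hge
  exact gibbs_eq (pw 0 m) (pw_meas 0 m) (qq ν₀ m) (qq_nonneg m) (qq_sum h m) (qq_pos h m) hge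

lemma K_of_eq (h : Lift ν ν₀) (m : ℕ) (he : ∀ w, pr ν₀ (pw 0 m) w = qq ν₀ m w) :
    Hm ν₀ (pw 0 m) = Hm (ν₀.map D) (win 0 m) + 2 / 3 * m * Real.log 2 := by
  haveI := h.prob
  rw [← int_qq h m, Hm_int _ (pw_meas 0 m)]
  simp_rw [he]

lemma GG_le (h : Lift ν ν₀) (m : ℕ) : GG ν₀ m ≤ 2 / 3 * m * Real.log 2 := by
  have := K_le h m
  unfold GG
  linarith

/-- entropy bound -/
lemma ent_le (h : Inv ν) : ent ν ≤ 2 / 3 * Real.log 2 := by
  have hlog : 0 < Real.log 2 := Real.log_pos (by norm_num)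
  have key : ∀ n : ℕ, ∀ ν : Measure (ℤ → Bool), Inv ν → ent ν ≤ 2 / 3 * Real.log 2 + (1 / 2) ^ n * Real.log 2 := by
    intro n
    induction n with
    | zero =>
      intro ν hν
      have := ent_le_log hν
      simp only [pow_zero, one_mul]
      linarith
    | succ n ih =>
      intro ν hν
      obtain ⟨ν₀, h0⟩ := lift_exists hν
      have h1 := ent_upper hν h0 1 one_pos
      have h2 := GG_le h0 1
      have h3 := ih _ (desub h0)
      simp only [Nat.cast_one, div_one, mul_one] at h1 h2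
      rw [pow_succ]
      linarith
  refine le_of_forall_pos_le_add fun ε hε => ?_
  obtain ⟨n, hn⟩ := exists_pow_lt_of_lt_one (show 0 < ε / Real.log 2 by positivity) (show (1 / 2 : ℝ) < 1 by norm_num)
  have := key n ν h
  rw [lt_div_iff₀ hlog] at hn
  linarith

/-- equality case: the desubstituted measure is again maximal and the choices are independent and fair -/
lemma max_desub (h : Inv ν) (hmax : 2 / 3 * Real.log 2 ≤ ent ν) : ∃ ν₀, Lift ν ν₀ ∧
    2 / 3 * Real.log 2 ≤ ent (ν₀.map D) ∧ ∀ m w, pr ν₀ (pw 0 m) w = qq ν₀ m w := by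
  obtain ⟨ν₀, h0⟩ := lift_exists h
  have hν' := desub h0
  have hle := ent_le hν'
  refine ⟨ν₀, h0, ?_, ?_⟩
  · have h1 := ent_upper h h0 1 one_pos
    have h2 := GG_le h0 1
    simp only [Nat.cast_one, div_one, mul_one] at h1 h2
    linarith
  · intro m
    apply K_eq h0
    rcases Nat.eq_zero_or_pos m with hm | hm
    · subst hm
      haveI := h0.prob
      haveI := hν'.prob
      have e1 : Hm (ν₀.map D) (win 0 0) = 0 := by
        rw [Hm_congr (ν := ν₀.map D) (win 0 0) (win_meas 0 0) (fun _ => ()) measurable_const (fun x y => by simp [win_iff])]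
        exact Hm_unit
      rw [e1]
      simp only [Nat.cast_zero, mul_zero, zero_mul, add_zero]
      exact Hm_nonneg _
    · have h1 := ent_upper h h0 m hm
      have hm' : (0 : ℝ) < m := by exact_mod_cast hm
      have h2 : 2 / 3 * Real.log 2 ≤ GG ν₀ m / m := by linarith
      rw [le_div_iff₀ hm'] at h2
      unfold GG at h2
      linarith

end

end Pool.Agent.V11276.PE
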