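import Pool.Agent.V11276.PE5

namespace Pool.Agent.V11276.PE

open MeasureTheory Filter Topology Finset

/-- letters of a window of pairs -/
def letter {m : ℕ} (W : Fin m → Bool × Bool) (k : ℕ) : Bool :=
  if h : k / 2 < m then (if k % 2 = 0 then (W ⟨k / 2, h⟩).1 else (W ⟨k / 2, h⟩).2) else false

def rho (m s l : ℕ) (W : Fin m → Bool × Bool) : Fin l → Bool := fun k => letter W (k + s)

lemma letter_pw (m : ℕ) (x : ℤ → Bool) (k : ℕ) (hk : k < 2 * m) : letter (pw 0 m x) k = x k := by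
  unfold letter
  rw [dif_pos (by omega)]
  split_ifs with h
  · show x (2 * (0 + ((k / 2 : ℕ) : ℤ))) = x k
    congr 1; omega
  · show x (2 * (0 + ((k / 2 : ℕ) : ℤ)) + 1) = x k
    congr 1; omega

lemma rho_zero (m l : ℕ) (h : l ≤ 2 * m) (x : ℤ → Bool) : rho m 0 l (pw 0 m x) = win 0 l x := by
  funext k
  show letter (pw 0 m x) (k + 0) = x (0 + (k : ℕ))
  rw [add_zero, letter_pw m x k (by have := k.2; omega)]
  congr 1; ring

lemma rho_one (m l : ℕ) (h : l + 1 ≤ 2 * m) (x : ℤ → Bool) : rho m 1 l (pw 0 m x) = win 0 l (Sh x) := by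
  funext k
  show letter (pw 0 m x) (k + 1) = x (0 + (k : ℕ) + 1)
  rw [letter_pw m x (k + 1) (by have := k.2; omega)]
  congr 1; push_cast; ring

/-- equal laws of windows of length `n` -/
def Ag (n : ℕ) (ν μ : Measure (ℤ → Bool)) : Prop := ∀ w : Fin n → Bool, pr ν (win 0 n) w = pr μ (win 0 n) w

section
variable {ν ν₀ μ μ₀ : Measure (ℤ → Bool)}

lemma pr_win_eq (h : Lift ν ν₀) (l m : ℕ) (hlm : l + 1 ≤ 2 * m) (w : Fin l → Bool) :
    pr ν (win 0 l) w = (∑ W ∈ univ.filter (fun W => rho m 0 l W = w), pr ν₀ (pw 0 m) W +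
      ∑ W ∈ univ.filter (fun W => rho m 1 l W = w), pr ν₀ (pw 0 m) W) / 2 := by
  haveI := h.prob
  rw [pr_half h (win 0 l) (win_meas 0 l) w, fib_sum (pw 0 m) (pw_meas 0 m) (rho m 0 l) w,
    fib_sum (pw 0 m) (pw_meas 0 m) (rho m 1 l) w]
  simp only [rho_zero m l (by omega), rho_one m l hlm]

lemma Ag_step (hν : Lift ν ν₀) (hμ : Lift μ μ₀) (h1 : ∀ m w, pr ν₀ (pw 0 m) w = qq ν₀ m w)
    (h2 : ∀ m w, pr μ₀ (pw 0 m) w = qq μ₀ m w) (l m : ℕ) (hlm : l + 1 ≤ 2 * m)
    (h : Ag m (ν₀.map D) (μ₀.map D)) : Ag l ν μ := by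
  intro w
  have key : ∀ W, pr ν₀ (pw 0 m) W = pr μ₀ (pw 0 m) W := by
    intro W
    rw [h1, h2]
    unfold qq
    have e1 : pr ν₀ (fun x => du (pw 0 m x)) (du W) = pr (ν₀.map D) (win 0 m) (du W) :=
      (pr_map D D_meas (win 0 m) (win_meas 0 m) _).symm
    have e2 : pr μ₀ (fun x => du (pw 0 m x)) (du W) = pr (μ₀.map D) (win 0 m) (du W) :=
      (pr_map D D_meas (win 0 m) (win_meas 0 m) _).symm
    rw [e1, e2, h (du W)]
  rw [pr_win_eq hν l m hlm, pr_win_eq hμ l m hlm]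
  simp_rw [key]

/-- probability of `bb` -/
noncomputable def tt (ν : Measure (ℤ → Bool)) : ℝ := ν.real {x | x 0 = true ∧ x 1 = true}

lemma two (h : Inv ν) (w : Fin 2 → Bool) : pr ν (win 0 2) w =
    if w 0 then (if w 1 then tt ν else 1 / 3 - tt ν) else (if w 1 then 1 / 3 - tt ν else 1 / 3 + tt ν) := by
  haveI := h.prob
  have hm : ∀ i : ℤ, MeasurableSet {x : ℤ → Bool | x i = true} := fun i =>
    measurableSet_eq_fun (measurable_pi_apply i) measurable_const
  have f0 : ν.real {x : ℤ → Bool | x 0 = true} = 1 / 3 := freq h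
  have f1 : ν.real {x : ℤ → Bool | x 1 = true} = 1 / 3 := by
    have := freq_all h 1
    simpa using this
  have e0 : ν.real ({x : ℤ → Bool | x 0 = true} ∩ {x | x 1 = true}) = tt ν := rfl
  have e1 : ν.real ({x : ℤ → Bool | x 0 = true} \ {x | x 1 = true}) = 1 / 3 - tt ν := by
    have := measureReal_inter_add_diff (μ := ν) (s := {x : ℤ → Bool | x 0 = true}) (hm 1)
    rw [e0, f0] at this
    linarith
  have e2 : ν.real ({x : ℤ → Bool | x 1 = true} \ {x | x 0 = true}) = 1 / 3 - tt ν := by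
    have := measureReal_inter_add_diff (μ := ν) (s := {x : ℤ → Bool | x 1 = true}) (hm 0)
    rw [Set.inter_comm, e0, f1] at this
    linarith
  have e3 : ν.real ({x : ℤ → Bool | x 0 = true} ∪ {x | x 1 = true})ᶜ = 1 / 3 + tt ν := by
    rw [probReal_compl_eq_one_sub ((hm 0).union (hm 1))]
    have := measureReal_union_add_inter (μ := ν) (s := {x : ℤ → Bool | x 0 = true}) (t := {x | x 1 = true}) (hm 1)
    rw [e0, f0, f1] at this
    linarith
  have hset : win 0 2 ⁻¹' {w} = {x : ℤ → Bool | x 0 = w 0 ∧ x 1 = w 1} := by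
    ext x
    simp only [Set.mem_preimage, Set.mem_singleton_iff, Set.mem_setOf_eq, funext_iff, Fin.forall_fin_two, win]
    simp
  unfold pr
  rw [hset]
  rcases h0 : w 0 with _ | _ <;> rcases h1 : w 1 with _ | _
  · simp only [Bool.false_eq_true, if_false]
    rw [← e3]; congr 1; ext x; simp
  · simp only [Bool.false_eq_true, if_false, if_true]
    rw [← e2]; congr 1; ext x; simp [and_comm]
  · simp only [Bool.false_eq_true, if_false, if_true]
    rw [← e1]; congr 1; ext x; simp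
  · simp only [if_true]
    rfl

lemma tt_step (hν : Lift ν ν₀) (h1 : ∀ m w, pr ν₀ (pw 0 m) w = qq ν₀ m w) :
    tt ν = (1 / 3 + tt (ν₀.map D)) / 8 := by
  haveI := hν.prob
  have hm : ∀ i : ℤ, MeasurableSet {x : ℤ → Bool | x i = true} := fun i =>
    measurableSet_eq_fun (measurable_pi_apply i) measurable_const
  have hB : MeasurableSet {x : ℤ → Bool | x 0 = true ∧ x 1 = true} := (hm 0).inter (hm 1)
  have h2 : tt ν = (ν₀.real {x | x 0 = true ∧ x 1 = true} + ν₀.real (Sh ⁻¹' {x | x 0 = true ∧ x 1 = true})) / 2 :=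
    hν.half _ hB
  have h3 : ν₀.real {x | x 0 = true ∧ x 1 = true} = 0 := by
    rw [measureReal_def]
    have : ν₀ {x | x 0 = true ∧ x 1 = true} = 0 := by
      refine measure_mono_null ?_ hν.supp
      intro x hx hE
      exact hE.1 0 (by simpa using hx)
    rw [this]; rfl
  obtain ⟨W, hW⟩ : ∃ W : Fin 2 → Bool × Bool, W = ![(false, true), (true, false)] := ⟨_, rfl⟩
  have h4 : ν₀.real (Sh ⁻¹' {x | x 0 = true ∧ x 1 = true}) = pr ν₀ (pw 0 2) W := by
    unfold pr
    rw [measureReal_def, measureReal_def]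
    congr 1
    apply measure_congr
    have hE : ∀ᵐ x ∂ν₀, x ∈ E := hν.supp
    filter_upwards [hE] with x hx
    apply propext
    show (x ∈ Sh ⁻¹' {x | x 0 = true ∧ x 1 = true}) ↔ (x ∈ pw 0 2 ⁻¹' {W})
    have g0 := hx.1 0
    have g1 := hx.1 1
    simp only [Set.mem_preimage, Set.mem_singleton_iff, Set.mem_setOf_eq, funext_iff, Fin.forall_fin_two, pw, hW, Sh]
    norm_num at g0 g1 ⊢
    revert g0 g1
    cases x 0 <;> cases x 1 <;> cases x 2 <;> cases x 3 <;> simp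
  have h5 : pr ν₀ (pw 0 2) W = (1 / 3 + tt (ν₀.map D)) / 4 := by
    rw [h1]
    unfold qq
    have e1 : pr ν₀ (fun x => du (pw 0 2 x)) (du W) = pr (ν₀.map D) (win 0 2) (du W) :=
      (pr_map D D_meas (win 0 2) (win_meas 0 2) _).symm
    rw [e1, two (desub hν), Fin.prod_univ_two]
    subst hW
    simp [du, kap]
    ring
  rw [h2, h3, h4, h5]
  ring

lemma tt_eq (hν : Inv ν) (hμ : Inv μ) (h1 : 2 / 3 * Real.log 2 ≤ ent ν) (h2 : 2 / 3 * Real.log 2 ≤ ent μ) :
    tt ν = tt μ := by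
  have key : ∀ n : ℕ, ∀ ν μ : Measure (ℤ → Bool), Inv ν → Inv μ → 2 / 3 * Real.log 2 ≤ ent ν →
      2 / 3 * Real.log 2 ≤ ent μ → |tt ν - tt μ| ≤ (1 / 8) ^ n := by
    intro n
    induction n with
    | zero =>
      intro ν μ hν hμ _ _
      haveI := hν.prob
      haveI := hμ.prob
      have a1 : tt ν ≤ 1 := measureReal_le_one
      have a2 : 0 ≤ tt ν := measureReal_nonneg
      have a3 : tt μ ≤ 1 := measureReal_le_one
      have a4 : 0 ≤ tt μ := measureReal_nonneg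
      rw [pow_zero, abs_le]; constructor <;> linarith
    | succ n ih =>
      intro ν μ hν hμ h1 h2
      obtain ⟨ν₀, l1, m1, q1⟩ := max_desub hν h1
      obtain ⟨μ₀, l2, m2, q2⟩ := max_desub hμ h2
      have := ih _ _ (desub l1) (desub l2) m1 m2
      rw [tt_step l1 q1, tt_step l2 q2]
      have e : (1 / 3 + tt (ν₀.map D)) / 8 - (1 / 3 + tt (μ₀.map D)) / 8 = 1 / 8 * (tt (ν₀.map D) - tt (μ₀.map D)) := by ring
      rw [e, abs_mul, pow_succ, abs_of_pos (show (0 : ℝ) < 1 / 8 by norm_num)]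
      linarith
  by_contra hne
  have hpos : 0 < |tt ν - tt μ| := abs_pos.mpr (sub_ne_zero.mpr hne)
  obtain ⟨n, hn⟩ := exists_pow_lt_of_lt_one hpos (show (1 / 8 : ℝ) < 1 by norm_num)
  exact absurd (key n ν μ hν hμ h1 h2) (not_le.mpr hn)

lemma Ag_two (hν : Inv ν) (hμ : Inv μ) (h1 : 2 / 3 * Real.log 2 ≤ ent ν) (h2 : 2 / 3 * Real.log 2 ≤ ent μ) :
    Ag 2 ν μ := by
  intro w
  rw [two hν, two hμ, tt_eq hν hμ h1 h2]

lemma Ag_all : ∀ l : ℕ, ∀ ν μ : Measure (ℤ → Bool), Inv ν → Inv μ → 2 / 3 * Real.log 2 ≤ ent ν →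
    2 / 3 * Real.log 2 ≤ ent μ → Ag l ν μ := by
  intro l
  induction l using Nat.strong_induction_on with
  | _ l ih =>
    intro ν μ hν hμ h1 h2
    obtain ⟨ν₀, l1, m1, q1⟩ := max_desub hν h1
    obtain ⟨μ₀, l2, m2, q2⟩ := max_desub hμ h2
    by_cases h3 : 3 ≤ l
    · exact Ag_step l1 l2 q1 q2 l ((l + 2) / 2) (by omega)
        (ih ((l + 2) / 2) (by omega) _ _ (desub l1) (desub l2) m1 m2)
    · exact Ag_step l1 l2 q1 q2 l 2 (by omega) (Ag_two (desub l1) (desub l2) m1 m2)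

lemma win_neg (N n : ℕ) (x : ℤ → Bool) : win (-(N : ℤ)) n (Sh^[N] x) = win 0 n x := by
  funext k
  show Sh^[N] x (-(N : ℤ) + (k : ℕ)) = x (0 + (k : ℕ))
  rw [Sh_iter]; congr 1; ring

lemma pr_win_neg (h : Inv ν) (N n : ℕ) (w : Fin n → Bool) : pr ν (win (-(N : ℤ)) n) w = pr ν (win 0 n) w := by
  have h1 := pr_map (ν := ν) (Sh^[N]) (Sh_meas.iterate N) (win (-(N : ℤ)) n) (win_meas _ n) w
  rw [inv_iter h.inv] at h1
  rw [h1]
  simp only [win_neg]

lemma measure_fin_ext {ι : Type*} [Countable ι] [MeasurableSpace ι] [MeasurableSingletonClass ι] (ν μ : Measure (ℤ → Bool))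
    [IsProbabilityMeasure ν] [IsProbabilityMeasure μ] (f : (ℤ → Bool) → ι) (hf : Measurable f)
    (h : ∀ i, pr ν f i = pr μ f i) : ν.map f = μ.map f := by
  apply Measure.ext_of_singleton
  intro i
  rw [Measure.map_apply hf (measurableSet_singleton i), Measure.map_apply hf (measurableSet_singleton i)]
  have := h i
  unfold pr at this
  rw [measureReal_def, measureReal_def, ENNReal.toReal_eq_toReal_iff' (measure_ne_top _ _) (measure_ne_top _ _)] at this
  exact this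

/-- uniqueness -/
lemma uniq (hν : Inv ν) (hμ : Inv μ) (h1 : 2 / 3 * Real.log 2 ≤ ent ν) (h2 : 2 / 3 * Real.log 2 ≤ ent μ) : ν = μ := by
  haveI := hν.prob
  haveI := hμ.prob
  have hlim : ∀ I : Finset ℤ, ν.map I.restrict = μ.map I.restrict := by
    intro I
    obtain ⟨N, hN⟩ : ∃ N : ℕ, ∀ i ∈ I, -(N : ℤ) ≤ i ∧ i < N := by
      obtain ⟨T, hT⟩ : ∃ T, T = ∑ i ∈ I, i.natAbs := ⟨_, rfl⟩
      refine ⟨T + 1, fun i hi => ?_⟩
      have := single_le_sum (f := fun i : ℤ => i.natAbs) (fun _ _ => Nat.zero_le _) hi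
      rw [← hT] at this
      constructor <;> omega
    have hfac : (I.restrict : (ℤ → Bool) → (I → Bool)) = (fun (w : Fin (2 * N) → Bool) (i : I) =>
        if h : (i.1 + N).toNat < 2 * N then w ⟨(i.1 + N).toNat, h⟩ else false) ∘ win (-(N : ℤ)) (2 * N) := by
      funext x i
      have hi := hN i.1 i.2
      show x i = if h : (i.1 + N).toNat < 2 * N then x (-(N : ℤ) + (((i.1 + N).toNat : ℕ) : ℤ)) else false
      rw [dif_pos (by omega)]
      congr 1; omega
    have hmeas : Measurable (fun (w : Fin (2 * N) → Bool) (i : I) =>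
        if h : (i.1 + N).toNat < 2 * N then w ⟨(i.1 + N).toNat, h⟩ else false) := measurable_of_countable _
    rw [hfac, ← Measure.map_map hmeas (win_meas _ _), ← Measure.map_map hmeas (win_meas _ _)]
    congr 1
    refine measure_fin_ext ν μ _ (win_meas _ _) (fun w => ?_)
    rw [pr_win_neg hν, pr_win_neg hμ]
    exact Ag_all (2 * N) ν μ hν hμ h1 h2 w
  have hp : ∀ I : Finset ℤ, IsFiniteMeasure (μ.map (I.restrict : (ℤ → Bool) → (I → Bool))) := fun I => inferInstance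
  exact IsProjectiveLimit.unique (P := fun I : Finset ℤ => μ.map (I.restrict : (ℤ → Bool) → (I → Bool)))
    (fun I => hlim I) (fun I => rfl)

end

end Pool.Agent.V11276.PE
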