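import Pool.Agent.V11276.PE5

namespace Pool.Agent.V11276.PE

open MeasureTheory Filter Topology Finset

/-- fair coin -/
noncomputable def coin : Measure Bool := (2⁻¹ : ENNReal) • Measure.dirac false + (2⁻¹ : ENNReal) • Measure.dirac true

instance : IsProbabilityMeasure coin := by
  constructor
  rw [coin, Measure.add_apply, Measure.smul_apply, Measure.smul_apply, measure_univ, measure_univ, smul_eq_mul, mul_one]
  exact ENNReal.inv_two_add_inv_two

lemma coin_sing (b : Bool) : coin {b} = 2⁻¹ := by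
  rw [coin, Measure.add_apply, Measure.smul_apply, Measure.smul_apply]
  cases b <;> simp

/-- independent fair coins -/
noncomputable def coins : Measure (ℤ → Bool) := Measure.infinitePi (fun _ : ℤ => coin)

instance : IsProbabilityMeasure coins := by unfold coins; infer_instance

lemma coins_shift : coins.map Sh = coins := by
  have h := Measure.map_infinitePi_infinitePi_of_inj (P := fun _ : ℤ => coin) (f := fun i : ℤ => i + 1)
    (fun a b hab => by simpa using hab)
  exact h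

/-- random inflation -/
def R (p : (ℤ → Bool) × (ℤ → Bool)) : ℤ → Bool :=
  fun i => if i % 2 = 0 then !(p.1 (i / 2)) && p.2 (i / 2) else !(p.1 (i / 2)) && !(p.2 (i / 2))

lemma R_even (p : (ℤ → Bool) × (ℤ → Bool)) (j : ℤ) : R p (2 * j) = (!(p.1 j) && p.2 j) := by
  unfold R
  rw [if_pos (by omega)]
  have : 2 * j / 2 = j := by omega
  rw [this]

lemma R_odd (p : (ℤ → Bool) × (ℤ → Bool)) (j : ℤ) : R p (2 * j + 1) = (!(p.1 j) && !(p.2 j)) := by
  unfold R
  rw [if_neg (by omega)]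
  have : (2 * j + 1) / 2 = j := by omega
  rw [this]

lemma R_ok (p : (ℤ → Bool) × (ℤ → Bool)) (j : ℤ) : ok (p.1 j) (R p (2 * j)) (R p (2 * j + 1)) := by
  rw [R_even, R_odd]
  cases p.1 j <;> cases p.2 j <;> simp [ok]

lemma D_R (p : (ℤ → Bool) × (ℤ → Bool)) : D (R p) = p.1 := by
  funext j
  exact (ok_eq (R_ok p j)).symm

lemma R_mem (p : (ℤ → Bool) × (ℤ → Bool)) (h : p.1 ∈ X) : R p ∈ E :=
  ⟨fun j => ok_not (R_ok p j), by rw [D_R]; exact h⟩

lemma R_meas : Measurable R := by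
  refine measurable_pi_lambda _ fun i => ?_
  have h1 : Measurable fun p : (ℤ → Bool) × (ℤ → Bool) => (p.1 (i / 2), p.2 (i / 2)) :=
    ((measurable_pi_apply _).comp measurable_fst).prodMk ((measurable_pi_apply _).comp measurable_snd)
  exact (measurable_of_countable (fun q : Bool × Bool => if i % 2 = 0 then !(q.1) && q.2 else !(q.1) && !(q.2))).comp h1

lemma Sh_R (p : (ℤ → Bool) × (ℤ → Bool)) : Sh (Sh (R p)) = R (Sh p.1, Sh p.2) := by
  funext i
  show R p (i + 1 + 1) = R (Sh p.1, Sh p.2) i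
  unfold R
  have e1 : (i + 1 + 1) % 2 = i % 2 := by omega
  have e2 : (i + 1 + 1) / 2 = i / 2 + 1 := by omega
  rw [e1, e2]
  rfl

/-- from an aligned measure to a shift invariant one -/
lemma lift_up {ν₀ : Measure (ℤ → Bool)} (hp : IsProbabilityMeasure ν₀) (hs : ν₀ Eᶜ = 0)
    (hi : ν₀.map (Sh ∘ Sh) = ν₀) : ∃ ν, Inv ν ∧ Lift ν ν₀ := by
  have hX : ν₀ Xᶜ = 0 := measure_mono_null (fun x hx hE => hx (E_sub_X hE)) hs
  have hp2 : IsProbabilityMeasure (ν₀.map Sh) := Measure.isProbabilityMeasure_map Sh_meas.aemeasurable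
  refine ⟨(2⁻¹ : ENNReal) • (ν₀ + ν₀.map Sh), ⟨?_, ?_, ?_⟩, ⟨hp, hs, hi, ?_⟩⟩
  · constructor
    rw [Measure.smul_apply, Measure.add_apply, measure_univ, measure_univ, smul_eq_mul]
    rw [show (1 : ENNReal) + 1 = 2 by norm_num]
    exact ENNReal.inv_mul_cancel (by norm_num) (by norm_num)
  · have h1 : Sh ⁻¹' Xᶜ = Xᶜ := by
      ext x; simp only [Set.mem_preimage, Set.mem_compl_iff, X_shift]
    rw [Measure.smul_apply, Measure.add_apply, Measure.map_apply Sh_meas X_meas.compl, h1, hX]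
    simp
  · rw [Measure.map_smul, Measure.map_add _ _ Sh_meas, Measure.map_map Sh_meas Sh_meas, hi, add_comm]
  · intro B hB
    rw [measureReal_def, Measure.smul_apply, Measure.add_apply, Measure.map_apply Sh_meas hB, smul_eq_mul,
      ENNReal.toReal_mul, ENNReal.toReal_add (measure_ne_top _ _) (measure_ne_top _ _), ENNReal.toReal_inv]
    simp only [measureReal_def, ENNReal.toReal_ofNat]
    ring

lemma theta_law {ν' : Measure (ℤ → Bool)} (h : Inv ν') (m : ℕ) (W : Fin m → Bool × Bool) :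
    pr ((ν'.prod coins).map R) (pw 0 m) W = pr ν' (win 0 m) (du W) * ∏ j, kap (W j) := by
  haveI := h.prob
  have hpr : pr ((ν'.prod coins).map R) (pw 0 m) W = ((ν'.prod coins) ((fun p => pw 0 m (R p)) ⁻¹' {W})).toReal := by
    unfold pr
    rw [measureReal_def, Measure.map_apply R_meas (pw_meas 0 m (measurableSet_singleton W))]
    rfl
  rw [hpr]
  by_cases hbad : ∃ j, (W j).1 = true ∧ (W j).2 = true
  · obtain ⟨j, hj⟩ := hbad
    have h1 : ((fun p => pw 0 m (R p)) ⁻¹' {W}) = ∅ := by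
      ext p
      simp only [Set.mem_preimage, Set.mem_singleton_iff, Set.mem_empty_iff_false, iff_false]
      intro hp
      rw [← hp] at hj
      exact ok_not (R_ok p _) hj
    have h2 : kap (W j) = 0 := by
      unfold kap; rw [hj.1, hj.2]; simp
    rw [h1, prod_eq_zero (mem_univ j) h2]
    simp
  · have hgood : ∀ j, ¬ ((W j).1 = true ∧ (W j).2 = true) := fun j hj => hbad ⟨j, hj⟩
    obtain ⟨t, ht⟩ : ∃ t : ℤ → Set Bool, t = fun i => if h : 0 ≤ i ∧ i.toNat < m then
      (if (W ⟨i.toNat, h.2⟩).1 ≠ (W ⟨i.toNat, h.2⟩).2 then {(W ⟨i.toNat, h.2⟩).1} else Set.univ) else Set.univ := ⟨_, rfl⟩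
    have htj : ∀ j : Fin m, t ((j : ℕ) : ℤ) = if (W j).1 ≠ (W j).2 then {(W j).1} else Set.univ := by
      intro j
      rw [ht]
      have hc : 0 ≤ ((j : ℕ) : ℤ) ∧ (((j : ℕ) : ℤ)).toNat < m := by
        constructor
        · omega
        · have := j.2; omega
      simp only [dif_pos hc]
      have : (⟨(((j : ℕ) : ℤ)).toNat, hc.2⟩ : Fin m) = j := by ext; simp
      rw [this]
    obtain ⟨s, hs⟩ : ∃ s : Finset ℤ, s = univ.map ⟨fun j : Fin m => ((j : ℕ) : ℤ), fun a b hab => by ext; simpa using hab⟩ := ⟨_, rfl⟩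
    have hset : ((fun p => pw 0 m (R p)) ⁻¹' {W}) = (win 0 m ⁻¹' {du W}) ×ˢ (Set.pi s t) := by
      ext p
      simp only [Set.mem_preimage, Set.mem_singleton_iff, Set.mem_prod, Set.mem_pi]
      have hpw : ∀ j : Fin m, pw 0 m (R p) j = (!(p.1 (0 + (j : ℕ))) && p.2 ((j : ℕ) : ℤ), !(p.1 (0 + (j : ℕ))) && !(p.2 ((j : ℕ) : ℤ))) := by
        intro j
        show (R p (2 * (0 + (j : ℕ))), R p (2 * (0 + (j : ℕ)) + 1)) = _
        rw [R_even, R_odd]
        have e : (0 : ℤ) + ((j : ℕ) : ℤ) = ((j : ℕ) : ℤ) := by ring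
        rw [e]
      have hmem : (∀ i ∈ (s : Set ℤ), p.2 i ∈ t i) ↔ ∀ j : Fin m, p.2 ((j : ℕ) : ℤ) ∈ t ((j : ℕ) : ℤ) := by
        rw [hs]; simp
      rw [hmem, funext_iff, funext_iff, ← forall_and]
      refine forall_congr' fun j => ?_
      rw [hpw, htj]
      show _ ↔ (p.1 (0 + (j : ℕ)) = !((W j).1 || (W j).2)) ∧ _
      have hg := hgood j
      generalize W j = w at hg ⊢
      obtain ⟨a, b⟩ := w
      revert hg
      generalize p.1 (0 + ((j : ℕ) : ℤ)) = y
      generalize p.2 ((j : ℕ) : ℤ) = c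
      cases a <;> cases b <;> cases y <;> cases c <;> simp
    rw [hset, Measure.prod_prod, ENNReal.toReal_mul]
    have hb : coins (Set.pi s t) = ∏ i ∈ s, coin (t i) := by
      unfold coins
      rw [Measure.infinitePi_pi]
      intro i _
      exact MeasurableSet.of_discrete
    rw [hb, hs, prod_map, ENNReal.toReal_prod]
    congr 1
    apply prod_congr rfl
    intro j _
    show (coin (t ((j : ℕ) : ℤ))).toReal = kap (W j)
    rw [htj]
    have hg := hgood j
    generalize W j = w at hg ⊢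
    obtain ⟨a, b⟩ := w
    have hcu : coin ({false, true} : Set Bool) = 1 := by
      have : ({false, true} : Set Bool) = Set.univ := by ext b; cases b <;> simp
      rw [this, measure_univ]
    revert hg
    cases a <;> cases b <;> simp [kap, coin_sing, hcu]

/-- random inflation of an invariant measure -/
lemma theta {ν' : Measure (ℤ → Bool)} (h : Inv ν') : ∃ ν, Inv ν ∧ (ent ν' + 2 / 3 * Real.log 2) / 2 ≤ ent ν := by
  haveI := h.prob
  obtain ⟨ν₀, h0⟩ : ∃ ν₀, ν₀ = (ν'.prod coins).map R := ⟨_, rfl⟩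
  have hp : IsProbabilityMeasure ν₀ := by rw [h0]; exact Measure.isProbabilityMeasure_map R_meas.aemeasurable
  have hs : ν₀ Eᶜ = 0 := by
    rw [h0, Measure.map_apply R_meas E_meas.compl]
    refine measure_mono_null (t := Prod.fst ⁻¹' Xᶜ) ?_ ?_
    · intro p hp hpX
      exact hp (R_mem p hpX)
    · have h1 : (ν'.prod coins) (Prod.fst ⁻¹' Xᶜ) = ν' Xᶜ := by
        rw [← Measure.map_apply measurable_fst X_meas.compl, Measure.map_fst_prod, measure_univ, one_smul]
      rw [h1, h.supp]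
  have hi : ν₀.map (Sh ∘ Sh) = ν₀ := by
    rw [h0, Measure.map_map (Sh_meas.comp Sh_meas) R_meas]
    have h1 : (Sh ∘ Sh) ∘ R = R ∘ (Prod.map Sh Sh) := by funext p; exact Sh_R p
    rw [h1, ← Measure.map_map R_meas (Sh_meas.prodMap Sh_meas), ← Measure.map_prod_map _ _ Sh_meas Sh_meas,
      h.inv, coins_shift]
  have hD : ν₀.map D = ν' := by
    rw [h0, Measure.map_map D_meas R_meas]
    have h1 : D ∘ R = Prod.fst := by funext p; exact D_R p
    rw [h1, Measure.map_fst_prod, measure_univ, one_smul]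
  obtain ⟨ν, hν, hl⟩ := lift_up hp hs hi
  refine ⟨ν, hν, ?_⟩
  have hlaw : ∀ m W, pr ν₀ (pw 0 m) W = qq ν₀ m W := by
    intro m W
    unfold qq
    have e1 : pr ν₀ (fun x => du (pw 0 m x)) (du W) = pr (ν₀.map D) (win 0 m) (du W) :=
      (pr_map D D_meas (win 0 m) (win_meas 0 m) _).symm
    rw [e1, hD, h0]
    exact theta_law h m W
  have := ent_lower hν hl (2 / 3 * Real.log 2) (fun n => by
    rw [K_of_eq hl n (hlaw n)]
    linarith)
  rwa [hD] at this

lemma z_inv : ∃ ν, Inv ν := by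
  have h3 : Sh (Sh (Sh z)) = z := by
    funext i
    show z (i + 1 + 1 + 1) = z i
    unfold z
    have : (i + 1 + 1 + 1) % 3 = i % 3 := by omega
    rw [this]
  refine ⟨(3⁻¹ : ENNReal) • (Measure.dirac z + Measure.dirac (Sh z) + Measure.dirac (Sh (Sh z))), ?_, ?_, ?_⟩
  · constructor
    rw [Measure.smul_apply, Measure.add_apply, Measure.add_apply, measure_univ, measure_univ, measure_univ, smul_eq_mul,
      show (1 : ENNReal) + 1 + 1 = 3 by norm_num]
    exact ENNReal.inv_mul_cancel (by norm_num) (by norm_num)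
  · rw [Measure.smul_apply, Measure.add_apply, Measure.add_apply, Measure.dirac_apply' _ X_meas.compl,
      Measure.dirac_apply' _ X_meas.compl, Measure.dirac_apply' _ X_meas.compl]
    have m1 : Sh z ∈ X := X_shift.mpr z_mem
    have m2 : Sh (Sh z) ∈ X := X_shift.mpr m1
    simp [z_mem, m1, m2]
  · rw [Measure.map_smul, Measure.map_add _ _ Sh_meas, Measure.map_add _ _ Sh_meas, Measure.map_dirac' Sh_meas,
      Measure.map_dirac' Sh_meas, Measure.map_dirac' Sh_meas, h3]
    congr 1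
    rw [add_comm (Measure.dirac (Sh z) + Measure.dirac (Sh (Sh z))), ← add_assoc]

lemma ent_seq (k : ℕ) : ∃ ν, Inv ν ∧ 2 / 3 * Real.log 2 * (1 - (1 / 2) ^ k) ≤ ent ν := by
  induction k with
  | zero =>
    obtain ⟨ν, hν⟩ := z_inv
    exact ⟨ν, hν, by simpa using ent_nonneg hν⟩
  | succ k ih =>
    obtain ⟨ν, hν, h1⟩ := ih
    obtain ⟨μ, hμ, h2⟩ := theta hν
    refine ⟨μ, hμ, le_trans (le_of_eq_of_le ?_ (div_le_div_of_nonneg_right (add_le_add_left h1 (2 / 3 * Real.log 2)) (show (0 : ℝ) ≤ 2 by norm_num))) h2⟩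
    rw [pow_succ]; ring

end Pool.Agent.V11276.PE
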