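import Pool.Agent.V11276.PE6
import Pool.Agent.V11276.PE7

namespace Pool.Agent.V11276.PE

open MeasureTheory Filter Topology Finset

lemma ext_win (ν μ : Measure (ℤ → Bool)) [IsProbabilityMeasure ν] [IsProbabilityMeasure μ]
    (h : ∀ (N : ℕ) w, pr ν (win (-(N : ℤ)) (2 * N)) w = pr μ (win (-(N : ℤ)) (2 * N)) w) : ν = μ := by
  have hlim : ∀ I : Finset ℤ, ν.map I.restrict = μ.map I.restrict := by
    intro I
    obtain ⟨N, hN⟩ : ∃ N : ℕ, ∀ i ∈ I, -(N : ℤ) ≤ i ∧ i < N := by
      obtain ⟨T, hT⟩ : ∃ T, T = ∑ i ∈ I, i.natAbs := ⟨_, rfl⟩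
      refine ⟨T + 1, fun i hi => ?_⟩
      have := single_le_sum (f := fun i : ℤ => i.natAbs) (fun _ _ => Nat.zero_le _) hi
      rw [← hT] at this
      constructor <;> omega
    have hfac : (I.restrict : (ℤ → Bool) → (I → Bool)) = (fun (w : Fin (2 * N) → Bool) (i : I) =>
        if h : (i.1 + N).toNat < 2 * N then w ⟨(i.1 + N).toNat, h⟩ else false) ∘ win (-(N : ℤ)) (2 * N) := by
      funext x i
      have hi := hN i.1 i.2
      show x i = if h : (i.1 + N).toNat < 2 * N then x (-(N : ℤ) + (((i.1 + N).toNat : ℕ) : ℤ)) else false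
      rw [dif_pos (by omega)]
      congr 1; omega
    have hmeas : Measurable (fun (w : Fin (2 * N) → Bool) (i : I) =>
        if h : (i.1 + N).toNat < 2 * N then w ⟨(i.1 + N).toNat, h⟩ else false) := measurable_of_countable _
    rw [hfac, ← Measure.map_map hmeas (win_meas _ _), ← Measure.map_map hmeas (win_meas _ _)]
    congr 1
    exact measure_fin_ext ν μ _ (win_meas _ _) (h N)
  have hp : ∀ I : Finset ℤ, IsFiniteMeasure (μ.map (I.restrict : (ℤ → Bool) → (I → Bool))) := fun I => inferInstance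
  exact IsProjectiveLimit.unique (P := fun I : Finset ℤ => μ.map (I.restrict : (ℤ → Bool) → (I → Bool)))
    (fun I => hlim I) (fun I => rfl)

lemma clopen_lim {L : Filter ℕ} {P : ℕ → ProbabilityMeasure (ℤ → Bool)} {μ : ProbabilityMeasure (ℤ → Bool)}
    (h : Tendsto P L (𝓝 μ)) (U : Set (ℤ → Bool)) (hU : IsClopen U) :
    Tendsto (fun k => (P k : Measure (ℤ → Bool)).real U) L (𝓝 ((μ : Measure (ℤ → Bool)).real U)) := by
  have hc : Continuous (U.indicator (fun _ => (1 : ℝ))) := by
    apply continuous_indicator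
    · intro a ha
      rw [hU.frontier_eq] at ha
      exact absurd ha (Set.notMem_empty a)
    · exact continuousOn_const
  have h1 := ProbabilityMeasure.tendsto_iff_forall_integral_tendsto.mp h
    (BoundedContinuousFunction.mkOfCompact ⟨U.indicator (fun _ => (1 : ℝ)), hc⟩)
  have h2 : ∀ Q : ProbabilityMeasure (ℤ → Bool), ∫ x, (BoundedContinuousFunction.mkOfCompact
      ⟨U.indicator (fun _ => (1 : ℝ)), hc⟩) x ∂(Q : Measure (ℤ → Bool)) = (Q : Measure (ℤ → Bool)).real U := by
    intro Q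
    show ∫ x, U.indicator (fun _ => (1 : ℝ)) x ∂(Q : Measure (ℤ → Bool)) = _
    rw [integral_indicator_const _ hU.1.measurableSet, smul_eq_mul, mul_one]
  simp only [h2] at h1
  exact h1

lemma win_cont (i : ℤ) (n : ℕ) : Continuous (win i n) := continuous_pi fun k => continuous_apply _

lemma exists_max : ∃ μ, Inv μ ∧ 2 / 3 * Real.log 2 ≤ ent μ := by
  choose ν hν hent using ent_seq
  obtain ⟨P, hP⟩ : ∃ P : ℕ → ProbabilityMeasure (ℤ → Bool), P = fun k => ⟨ν k, (hν k).prob⟩ := ⟨_, rfl⟩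
  have hPk : ∀ k, (P k : Measure (ℤ → Bool)) = ν k := by intro k; rw [hP]; rfl
  obtain ⟨μ, -, hμ⟩ := (isCompact_univ (X := ProbabilityMeasure (ℤ → Bool))).ultrafilter_le_nhds
    ((hyperfilter ℕ).map P) (by rw [le_principal_iff]; exact univ_mem)
  have ht : Tendsto P (hyperfilter ℕ : Filter ℕ) (𝓝 μ) := hμ
  obtain ⟨M, hM⟩ : ∃ M : Measure (ℤ → Bool), M = (μ : Measure (ℤ → Bool)) := ⟨_, rfl⟩
  haveI hMp : IsProbabilityMeasure M := by rw [hM]; infer_instance
  have hU : ∀ U : Set (ℤ → Bool), IsClopen U → Tendsto (fun k => (ν k).real U) (hyperfilter ℕ : Filter ℕ) (𝓝 (M.real U)) := by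
    intro U hUc
    have := clopen_lim ht U hUc
    simp only [hPk, ← hM] at this
    exact this
  have hcl : ∀ (i : ℤ) (n : ℕ) (w : Fin n → Bool), IsClopen (win i n ⁻¹' {w}) := fun i n w =>
    (isClopen_discrete _).preimage (win_cont i n)
  have hInv : Inv M := by
    refine ⟨hMp, ?_, ?_⟩
    · have h1 : ∀ (i : ℤ) (l : ℕ), M ({x : ℤ → Bool | Leg (fun k => x (i + k)) l}ᶜ) = 0 := by
        intro i l
        have h2 := hU _ (G_clopen i l).compl
        have h3 : ∀ k, (ν k).real ({x : ℤ → Bool | Leg (fun k => x (i + k)) l}ᶜ) = 0 := by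
          intro k
          rw [measureReal_def]
          have hsub : ({x : ℤ → Bool | Leg (fun k => x (i + k)) l}ᶜ) ⊆ Xᶜ := by
            intro x hx hxX
            exact hx (hxX i l)
          have : ν k ({x : ℤ → Bool | Leg (fun k => x (i + k)) l}ᶜ) = 0 := measure_mono_null hsub (hν k).supp
          rw [this]; rfl
        simp only [h3] at h2
        have h4 := tendsto_nhds_unique h2 tendsto_const_nhds
        rw [measureReal_def, ENNReal.toReal_eq_zero_iff] at h4
        rcases h4 with h4 | h4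
        · exact h4
        · exact absurd h4 (measure_ne_top _ _)
      rw [X_eq]
      rw [Set.compl_iInter, measure_iUnion_null_iff]
      intro i
      rw [Set.compl_iInter, measure_iUnion_null_iff]
      intro l
      exact h1 i l
    · haveI : IsProbabilityMeasure (M.map Sh) := Measure.isProbabilityMeasure_map Sh_meas.aemeasurable
      apply ext_win
      intro N w
      have h1 := hU _ (hcl (-(N : ℤ)) (2 * N) w)
      have h2 := hU _ ((hcl (-(N : ℤ)) (2 * N) w).preimage Sh_cont)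
      have h3 : ∀ k, (ν k).real (Sh ⁻¹' (win (-(N : ℤ)) (2 * N) ⁻¹' {w})) = (ν k).real (win (-(N : ℤ)) (2 * N) ⁻¹' {w}) := by
        intro k
        rw [measureReal_def, measureReal_def, (hν k).apply (win_meas _ _ (measurableSet_singleton w))]
      simp only [h3] at h2
      have h4 := tendsto_nhds_unique h2 h1
      rw [pr_map Sh Sh_meas _ (win_meas _ _)]
      exact h4
  refine ⟨M, hInv, ?_⟩
  refine ge_of_tendsto (ent_spec hInv).1 ?_
  filter_upwards [eventually_ge_atTop 1] with n hn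
  have hn' : (0 : ℝ) < n := by exact_mod_cast hn
  have h1 : Tendsto (fun k => Hm (ν k) (win 0 n) / n) (hyperfilter ℕ : Filter ℕ) (𝓝 (Hm M (win 0 n) / n)) := by
    apply Tendsto.div_const
    simp only [Hm_negMulLog]
    refine tendsto_finset_sum _ fun w _ => ?_
    exact (Real.continuous_negMulLog.tendsto _).comp (hU _ (hcl 0 n w))
  have h2 : Tendsto (fun k : ℕ => 2 / 3 * Real.log 2 * (1 - (1 / 2 : ℝ) ^ k)) (hyperfilter ℕ : Filter ℕ) (𝓝 (2 / 3 * Real.log 2 * (1 - 0))) := by
    refine Tendsto.const_mul _ (tendsto_const_nhds.sub ?_)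
    exact (tendsto_pow_atTop_nhds_zero_of_lt_one (by norm_num) (by norm_num)).mono_left Nat.hyperfilter_le_atTop
  rw [sub_zero, mul_one] at h2
  refine le_of_tendsto_of_tendsto' h2 h1 fun k => ?_
  exact (hent k).trans ((ent_spec (hν k)).2 n (by omega))

/-- main theorem -/
lemma main : ∃! μ : Measure (ℤ → Bool), Inv μ ∧ ∀ ν, Inv ν → ent ν ≤ ent μ := by
  obtain ⟨μ, hμ, hmax⟩ := exists_max
  refine ⟨μ, ⟨hμ, fun ν hν => (ent_le hν).trans hmax⟩, ?_⟩
  rintro ν ⟨hν, hνm⟩
  exact uniq hν hμ (hmax.trans (hνm μ hμ)) hmax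

end Pool.Agent.V11276.PE
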