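import Mathlib

/-!
# Weighted sums of powers of binomial coefficients

For all `c`, `n`, `r`: `n` divides `∑_{c ≤ k < n} (-1)^(r k) (2 k - c + 1) C(k, c)^r`.
-/

set_option autoImplicit false

namespace Pool.Agent.V11276.PowBin

open Finset

/-- absorption, over the integers, without side condition -/
theorem absorb (n k : ℕ) : (n.choose (k + 1) : ℤ) * (k + 1) = n.choose k * ((n : ℤ) - k) := by
  rcases le_or_gt k n with h | h
  · have := Nat.choose_succ_right_eq n k
    have h2 : ((n - k : ℕ) : ℤ) = (n : ℤ) - k := by push_cast [h]; ring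
    rw [← h2]
    exact_mod_cast this
  · rw [Nat.choose_eq_zero_of_lt h, Nat.choose_eq_zero_of_lt (by omega)]
    simp

/-- `(n + 1 - k) C(n + 1, k) = (n + 1) C(n, k)` -/
theorem absorb' (n k : ℕ) : ((n : ℤ) + 1 - k) * (n + 1).choose k = (n + 1) * n.choose k := by
  cases k with
  | zero => simp
  | succ k =>
    have h1 : ((n + 1).choose (k + 1) : ℤ) = n.choose k + n.choose (k + 1) := by
      exact_mod_cast Nat.choose_succ_succ n k
    have h2 := absorb n k
    push_cast
    rw [h1]
    linear_combination (-1 : ℤ) * h2

/-- the summand of the Saalschütz sum -/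
def t (m i N l : ℕ) : ℚ := m.choose (i + l) * (N + m + i + l).choose (i + l) * N.choose l

/-- the certificate -/
def H (m i N : ℕ) : ℕ → ℚ
  | 0 => 0
  | l + 1 => -(2 * N + i + m + 2) * (i + l + 1) ^ 2 * m.choose (i + l + 1) *
      (N + m + i + l + 1).choose (i + l + 1) * N.choose l

theorem wz (m i N l : ℕ) :
    (N + m + 1 : ℚ) * ((N + i + 1) ^ 2 * t m i (N + 1) l -
      (N + m + 1) * (N + m + i + 1) * t m i N l) = H m i N (l + 1) - H m i N l := by
  have q1 : (m.choose (i + l + 1) : ℚ) = (m - i - l) / (i + l + 1) * m.choose (i + l) := by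
    have h := absorb m (i + l)
    have h' : (m.choose (i + l + 1) : ℚ) * (i + l + 1) = m.choose (i + l) * (m - (i + l)) := by
      exact_mod_cast h
    have : (i + l + 1 : ℚ) ≠ 0 := by positivity
    field_simp
    linear_combination h'
  have q2 : ((N + 1 + m + i + l).choose (i + l) : ℚ) =
      (N + m + i + l + 1) / (N + m + 1) * (N + m + i + l).choose (i + l) := by
    have h := absorb' (N + m + i + l) (i + l)
    have h' : ((N + m + i + l : ℚ) + 1 - (i + l)) * (N + m + i + l + 1).choose (i + l) =
        (N + m + i + l + 1) * (N + m + i + l).choose (i + l) := by exact_mod_cast h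
    have e : N + 1 + m + i + l = N + m + i + l + 1 := by ring
    rw [e]
    have : (N + m + 1 : ℚ) ≠ 0 := by positivity
    field_simp
    linear_combination h'
  have q3 : ((N + m + i + l + 1).choose (i + l + 1) : ℚ) =
      (N + m + i + l + 1) / (i + l + 1) * (N + m + i + l).choose (i + l) := by
    have h := Nat.add_one_mul_choose_eq (N + m + i + l) (i + l)
    have h' : ((N + m + i + l : ℚ) + 1) * (N + m + i + l).choose (i + l) =
        (N + m + i + l + 1).choose (i + l + 1) * (i + l + 1) := by exact_mod_cast h
    have : (i + l + 1 : ℚ) ≠ 0 := by positivity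
    field_simp
    linear_combination -h'
  have n1 : (N + m + 1 : ℚ) ≠ 0 := by positivity
  have n2 : (i + l + 1 : ℚ) ≠ 0 := by positivity
  cases l with
  | zero =>
    simp only [t, H]
    rw [q2, q1, q3]
    simp only [Nat.choose_zero_right, Nat.cast_one]
    push_cast at *
    field_simp
    ring
  | succ l =>
    have q4 : ((N + 1).choose (l + 1) : ℚ) = N.choose l + N.choose (l + 1) := by
      exact_mod_cast Nat.choose_succ_succ N l
    have q5 : (N.choose (l + 1) : ℚ) = (N - l) / (l + 1) * N.choose l := by
      have h := absorb N l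
      have h' : (N.choose (l + 1) : ℚ) * (l + 1) = N.choose l * (N - l) := by exact_mod_cast h
      have : (l + 1 : ℚ) ≠ 0 := by positivity
      field_simp
      linear_combination h'
    have n3 : (l + 1 : ℚ) ≠ 0 := by positivity
    simp only [t, H]
    rw [q4, q2, q1, q3, q5]
    have e1 : i + l + 1 = i + (l + 1) := by ring
    have e2 : N + m + i + l + 1 = N + m + i + (l + 1) := by ring
    rw [e1, e2]
    push_cast at *
    field_simp
    ring

/-- Pfaff–Saalschütz -/
theorem saal (c i N : ℕ) :
    ((N + c + i).choose c : ℚ) * (N + c + 2 * i).choose (c + i) =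
      ∑ l ∈ range (c + 1), t (c + i) i N l := by
  induction N with
  | zero =>
    rw [Finset.sum_range_succ']
    rw [Finset.sum_eq_zero]
    · simp only [t, Nat.choose_zero_right, Nat.cast_one, mul_one, zero_add, add_zero]
      have e1 : (c + i).choose c = (c + i).choose i := by
        rw [← Nat.choose_symm_add]
      have e2 : c + 2 * i = c + i + i := by ring
      have e3 : (c + i + i).choose (c + i) = (c + i + i).choose i := Nat.choose_symm_add
      rw [e1, e2, e3]
    · intro l _
      simp [t]
  | succ N ih =>
    have hsum : ∑ l ∈ range (c + 1), (H (c + i) i N (l + 1) - H (c + i) i N l) = 0 := by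
      rw [Finset.sum_range_sub]
      simp only [H]
      have : (c + i).choose (i + c + 1) = 0 := Nat.choose_eq_zero_of_lt (by omega)
      rw [this]
      simp
    have h2 : ∑ l ∈ range (c + 1), ((N + (c + i : ℕ) + 1 : ℚ) * ((N + i + 1) ^ 2 * t (c + i) i (N + 1) l -
      (N + (c + i : ℕ) + 1) * (N + (c + i : ℕ) + i + 1) * t (c + i) i N l)) = 0 := by
      rw [← hsum]
      exact Finset.sum_congr rfl fun l _ => wz (c + i) i N l
    rw [← Finset.mul_sum, Finset.sum_sub_distrib, ← Finset.mul_sum, ← Finset.mul_sum, ← ih] at h2
    have n1 : (N + (c + i : ℕ) + 1 : ℚ) ≠ 0 := by positivity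
    have n2 : ((N : ℚ) + i + 1) ^ 2 ≠ 0 := by positivity
    have h3 := (mul_eq_zero.1 h2).resolve_left n1
    apply mul_left_cancel₀ n2
    rw [← sub_eq_zero, ← neg_eq_zero]
    rw [← h3]
    have a1 : ((N : ℚ) + i + 1) * (N + 1 + c + i).choose c = (N + c + i + 1) * (N + c + i).choose c := by
      have h := absorb' (N + c + i) c
      have h' : ((N + c + i : ℚ) + 1 - c) * (N + c + i + 1).choose c =
        (N + c + i + 1) * (N + c + i).choose c := by exact_mod_cast h
      have e : N + 1 + c + i = N + c + i + 1 := by ring
      rw [e]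
      linear_combination h'
    have a2 : ((N : ℚ) + i + 1) * (N + 1 + c + 2 * i).choose (c + i) =
        (N + c + 2 * i + 1) * (N + c + 2 * i).choose (c + i) := by
      have h := absorb' (N + c + 2 * i) (c + i)
      have h' : ((N + c + 2 * i : ℚ) + 1 - (c + i)) * (N + c + 2 * i + 1).choose (c + i) =
        (N + c + 2 * i + 1) * (N + c + 2 * i).choose (c + i) := by exact_mod_cast h
      have e : N + 1 + c + 2 * i = N + c + 2 * i + 1 := by ring
      rw [e]
      linear_combination h'
    push_cast
    have a3 : ((N : ℚ) + i + 1) ^ 2 * (((N + 1 + c + i).choose c : ℚ) * (N + 1 + c + 2 * i).choose (c + i)) =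
        ((N + c + i + 1) * (N + c + i).choose c) * ((N + c + 2 * i + 1) * (N + c + 2 * i).choose (c + i)) := by
      rw [← a1, ← a2]; ring
    linear_combination (-1 : ℚ) * a3

/-- the basis functions -/
def E (c j k : ℕ) : ℤ := (k + j).choose j * k.choose (c + j)

theorem mulE (c i k : ℕ) :
    (k.choose c : ℤ) ^ 2 * E c i k =
      ∑ l ∈ range (c + 1), ((c + i).choose i * (c + i).choose (i + l) * (c + i + l).choose l : ℤ) *
        E c (i + l) k := by
  rcases lt_or_ge k (c + i) with hk | hk
  · have h0 : E c i k = 0 := by simp [E, Nat.choose_eq_zero_of_lt hk]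
    rw [h0, mul_zero, Finset.sum_eq_zero]
    intro l _
    have : k.choose (c + (i + l)) = 0 := Nat.choose_eq_zero_of_lt (by omega)
    simp [E, this]
  · obtain ⟨N, rfl⟩ := Nat.exists_eq_add_of_le hk
    have e : c + i + N = N + c + i := by ring
    rw [e]
    have h := saal c i N
    -- `C(k, c) C(k + i, i) = C(c + i, i) C(k + i, c + i)`
    have h1 : (N + c + i + i).choose (c + i) * (c + i).choose i =
        (N + c + i + i).choose i * (N + c + i).choose c := by
      have := Nat.choose_mul (n := N + c + i + i) (k := c + i) (s := i) (by omega)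
      rw [this]
      congr 2 <;> omega
    have h2 : ∀ l, (N + c + i).choose (c + (i + l)) * (c + i + l).choose l =
        (N + c + i).choose (c + i) * N.choose l := by
      intro l
      have := Nat.choose_mul (n := N + c + i) (k := c + i + l) (s := c + i) (by omega)
      have e1 : c + (i + l) = c + i + l := by ring
      rw [e1]
      have e2 : (c + i + l).choose l = (c + i + l).choose (c + i) := by
        rw [Nat.choose_symm_add]
      rw [e2, this]
      congr 2 <;> omega
    have hz : ((((N + c + i).choose c * (N + c + 2 * i).choose (c + i) : ℕ) : ℤ)) =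
        ∑ l ∈ range (c + 1), (((c + i).choose (i + l) * (N + (c + i) + i + l).choose (i + l) * N.choose l : ℕ) : ℤ) := by
      have h' : ((((N + c + i).choose c * (N + c + 2 * i).choose (c + i) : ℕ) : ℚ)) =
        ((∑ l ∈ range (c + 1), ((c + i).choose (i + l) * (N + (c + i) + i + l).choose (i + l) * N.choose l) : ℕ) : ℚ) := by
        push_cast
        rw [h]
        simp only [t]
      have h'' := Nat.cast_injective (R := ℚ) h'
      rw [h'']
      push_cast
      rfl
    have lhs : (((N + c + i).choose c : ℤ)) ^ 2 * E c i (N + c + i) =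
        (c + i).choose i * (N + c + i).choose (c + i) *
          (((N + c + i).choose c * (N + c + 2 * i).choose (c + i) : ℕ) : ℤ) := by
      have h1' : (((N + c + i + i).choose (c + i) : ℤ)) * (c + i).choose i =
        (N + c + i + i).choose i * (N + c + i).choose c := by exact_mod_cast h1
      have e3 : N + c + 2 * i = N + c + i + i := by ring
      rw [e3]
      unfold E
      push_cast
      linear_combination (-((N + c + i).choose c : ℤ) * (N + c + i).choose (c + i)) * h1'
    rw [lhs, hz, Finset.mul_sum]
    refine Finset.sum_congr rfl fun l _ => ?_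
    have h2' : (((N + c + i).choose (c + (i + l)) : ℤ)) * (c + i + l).choose l =
        (N + c + i).choose (c + i) * N.choose l := by exact_mod_cast h2 l
    have e4 : N + (c + i) + i + l = N + c + i + (i + l) := by ring
    rw [e4]
    unfold E
    push_cast
    linear_combination (-((c + i).choose i : ℤ) * (c + i).choose (i + l) *
      (N + c + i + (i + l)).choose (i + l)) * h2'

/-- the span of the basis functions -/
def M (c : ℕ) : Submodule ℤ (ℕ → ℤ) := Submodule.span ℤ (Set.range (E c))

theorem mul_mem (c : ℕ) (f : ℕ → ℤ) (hf : f ∈ M c) : (fun k => (k.choose c : ℤ) ^ 2 * f k) ∈ M c := by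
  induction hf using Submodule.span_induction with
  | mem x hx =>
    obtain ⟨i, rfl⟩ := hx
    have : (fun k => (k.choose c : ℤ) ^ 2 * E c i k) =
        ∑ l ∈ range (c + 1), ((c + i).choose i * (c + i).choose (i + l) * (c + i + l).choose l : ℤ) •
        E c (i + l) := by
      funext k
      rw [mulE]
      simp [Finset.sum_apply]
    rw [this]
    exact Submodule.sum_mem _ fun l _ => Submodule.smul_mem _ _ (Submodule.subset_span ⟨_, rfl⟩)
  | zero =>
    have : (fun k : ℕ => (k.choose c : ℤ) ^ 2 * (0 : ℕ → ℤ) k) = 0 := by
      funext k; simp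
    rw [this]
    exact (M c).zero_mem
  | add x y _ _ hx hy =>
    have : (fun k => (k.choose c : ℤ) ^ 2 * (x + y) k) =
        (fun k => (k.choose c : ℤ) ^ 2 * x k) + (fun k => (k.choose c : ℤ) ^ 2 * y k) := by
      funext k; simp [mul_add]
    rw [this]
    exact (M c).add_mem hx hy
  | smul a x _ hx =>
    have : (fun k => (k.choose c : ℤ) ^ 2 * (a • x) k) =
        a • (fun k => (k.choose c : ℤ) ^ 2 * x k) := by
      funext k; simp; ring
    rw [this]
    exact (M c).smul_mem _ hx

theorem pow_mem (c s : ℕ) : (fun k => (k.choose c : ℤ) ^ (2 * s + 1)) ∈ M c := by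
  induction s with
  | zero =>
    have : (fun k : ℕ => (k.choose c : ℤ) ^ (2 * 0 + 1)) = E c 0 := by
      funext k; simp [E]
    rw [this]
    exact Submodule.subset_span ⟨0, rfl⟩
  | succ s ih =>
    have : (fun k : ℕ => (k.choose c : ℤ) ^ (2 * (s + 1) + 1)) =
        fun k => (k.choose c : ℤ) ^ 2 * (k.choose c : ℤ) ^ (2 * s + 1) := by
      funext k; ring
    rw [this]
    exact mul_mem c _ ih

/-- odd exponents -/
theorem odd_dvd (c : ℕ) (f : ℕ → ℤ) (hf : f ∈ M c) (n : ℕ) :
    (n : ℤ) ∣ ∑ k ∈ range n, (-1) ^ k * (2 * (k : ℤ) - c + 1) * f k := by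
  induction hf using Submodule.span_induction with
  | mem x hx =>
    obtain ⟨j, rfl⟩ := hx
    have key : ∀ k : ℕ, ((k : ℤ) + 1 - (c + j)) * E c j (k + 1) = (k + 1 + j) * E c j k := by
      intro k
      have h1 := absorb' k (c + j)
      have h2 := absorb' (k + j) j
      unfold E
      have e : k + 1 + j = k + j + 1 := by ring
      rw [e]
      push_cast at h1 h2 ⊢
      linear_combination ((k + j + 1).choose j : ℤ) * h1 + (k.choose (c + j) : ℤ) * h2
    have tel : ∀ n : ℕ, ∑ k ∈ range n, (-1 : ℤ) ^ k * (2 * (k : ℤ) - c + 1) * E c j k =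
        -((-1) ^ n * ((n : ℤ) - (c + j)) * E c j n) := by
      intro n
      induction n with
      | zero =>
        rcases Nat.eq_zero_or_pos (c + j) with h | h
        · have hc : c = 0 := by omega
          have hj : j = 0 := by omega
          subst hc hj
          simp
        · have : (0 : ℕ).choose (c + j) = 0 := Nat.choose_eq_zero_of_lt h
          simp [E, this]
      | succ n ih =>
        rw [Finset.sum_range_succ, ih]
        have hk := key n
        push_cast
        rw [pow_succ]
        linear_combination ((-1 : ℤ) ^ n) * (-1) * hk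
    rw [tel]
    have h3 : ((n : ℤ) - (c + j)) * n.choose (c + j) = n * (n - 1).choose (c + j) := by
      cases n with
      | zero =>
        rcases Nat.eq_zero_or_pos (c + j) with h | h
        · have hc : c = 0 := by omega
          have hj : j = 0 := by omega
          subst hc hj
          simp
        · have : (0 : ℕ).choose (c + j) = 0 := Nat.choose_eq_zero_of_lt h
          simp [this]
      | succ n =>
        have := absorb' n (c + j)
        simpa using this
    refine ⟨-((-1) ^ n * (n + j).choose j * (n - 1).choose (c + j)), ?_⟩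
    unfold E
    linear_combination (-((-1 : ℤ) ^ n) * (n + j).choose j) * h3
  | zero => simp
  | add x y _ _ hx hy =>
    have : ∑ k ∈ range n, (-1 : ℤ) ^ k * (2 * (k : ℤ) - c + 1) * (x + y) k =
        ∑ k ∈ range n, (-1 : ℤ) ^ k * (2 * (k : ℤ) - c + 1) * x k +
        ∑ k ∈ range n, (-1 : ℤ) ^ k * (2 * (k : ℤ) - c + 1) * y k := by
      rw [← Finset.sum_add_distrib]
      exact Finset.sum_congr rfl fun k _ => by simp; ring
    rw [this]
    exact dvd_add hx hy
  | smul a x _ hx =>
    have : ∑ k ∈ range n, (-1 : ℤ) ^ k * (2 * (k : ℤ) - c + 1) * (a • x) k =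
        a * ∑ k ∈ range n, (-1 : ℤ) ^ k * (2 * (k : ℤ) - c + 1) * x k := by
      rw [Finset.mul_sum]
      exact Finset.sum_congr rfl fun k _ => by simp; ring
    rw [this]
    exact Dvd.dvd.mul_left hx a

/-- even exponents -/
theorem even_dvd (c : ℕ) (f : ℕ → ℤ) (hf : f ∈ M c) (n : ℕ) :
    (n : ℤ) ∣ ∑ k ∈ range n, (2 * (k : ℤ) - c + 1) * (k.choose c * f k) := by
  induction hf using Submodule.span_induction with
  | mem x hx =>
    obtain ⟨j, rfl⟩ := hx
    have tel : ∀ n : ℕ, ∑ k ∈ range n, (2 * (k : ℤ) - c + 1) * (k.choose c * E c j k) =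
        (c + j).choose j * ((c + j + 1) * n.choose (c + j + 1) * (n + j).choose (c + j + 1)) := by
      intro n
      induction n with
      | zero => simp
      | succ k ih =>
        rw [Finset.sum_range_succ, ih]
        have p1 : ((k + 1).choose (c + j + 1) : ℤ) = k.choose (c + j) + k.choose (c + j + 1) := by
          exact_mod_cast Nat.choose_succ_succ k (c + j)
        have p2 : ((k + 1 + j).choose (c + j + 1) : ℤ) = (k + j).choose (c + j) + (k + j).choose (c + j + 1) := by
          have e : k + 1 + j = k + j + 1 := by ring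
          rw [e]
          exact_mod_cast Nat.choose_succ_succ (k + j) (c + j)
        have a1 := absorb k (c + j)
        have a2 := absorb (k + j) (c + j)
        have h1 : ((k + j).choose (c + j) : ℤ) * (c + j).choose j = (k + j).choose j * k.choose c := by
          rcases le_or_gt c k with hck | hck
          · have := Nat.choose_mul (n := k + j) (k := c + j) (s := j) (by omega)
            have e1 : k + j - j = k := by omega
            have e2 : c + j - j = c := by omega
            rw [e1, e2] at this
            exact_mod_cast this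
          · rw [Nat.choose_eq_zero_of_lt hck, Nat.choose_eq_zero_of_lt (by omega : k + j < c + j)]
            simp
        rw [p1, p2]
        unfold E
        push_cast at a1 a2 ⊢
        linear_combination (-(2 * (k : ℤ) - c + 1) * (k.choose (c + j) : ℤ)) * h1
          - ((c + j).choose j : ℤ) * (k + j).choose (c + j) * a1
          - ((c + j).choose j : ℤ) * k.choose (c + j) * a2
    rw [tel]
    have h3 : ((c : ℤ) + j + 1) * n.choose (c + j + 1) = n * (n - 1).choose (c + j) := by
      cases n with
      | zero => simp
      | succ n =>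
        have := Nat.add_one_mul_choose_eq n (c + j)
        have h' : ((n : ℤ) + 1) * n.choose (c + j) = (n + 1).choose (c + j + 1) * (c + j + 1) := by
          exact_mod_cast this
        simp only [Nat.add_sub_cancel]
        push_cast
        linear_combination -h'
    refine ⟨(c + j).choose j * (n - 1).choose (c + j) * (n + j).choose (c + j + 1), ?_⟩
    linear_combination (((c + j).choose j : ℤ) * (n + j).choose (c + j + 1)) * h3
  | zero => simp
  | add x y _ _ hx hy =>
    have : ∑ k ∈ range n, (2 * (k : ℤ) - c + 1) * (k.choose c * (x + y) k) =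
        ∑ k ∈ range n, (2 * (k : ℤ) - c + 1) * (k.choose c * x k) +
        ∑ k ∈ range n, (2 * (k : ℤ) - c + 1) * (k.choose c * y k) := by
      rw [← Finset.sum_add_distrib]
      exact Finset.sum_congr rfl fun k _ => by simp; ring
    rw [this]
    exact dvd_add hx hy
  | smul a x _ hx =>
    have : ∑ k ∈ range n, (2 * (k : ℤ) - c + 1) * (k.choose c * (a • x) k) =
        a * ∑ k ∈ range n, (2 * (k : ℤ) - c + 1) * (k.choose c * x k) := by
      rw [Finset.mul_sum]
      exact Finset.sum_congr rfl fun k _ => by simp; ring
    rw [this]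
    exact Dvd.dvd.mul_left hx a

/-- `n` divides `∑_{c ≤ k < n} (-1)^(r k) (2 k - c + 1) C(k, c)^r` -/
theorem main (c n r : ℕ) :
    (n : ℤ) ∣ ∑ k ∈ Ico c n, (-1) ^ (r * k) * (2 * (k : ℤ) - c + 1) * (k.choose c : ℤ) ^ r := by
  rcases lt_or_ge n c with hcn | hcn
  · rw [Finset.Ico_eq_empty (by omega)]
    simp
  rcases Nat.eq_zero_or_pos r with rfl | hr
  · simp only [zero_mul, pow_zero, one_mul, mul_one]
    have : ∀ n, c ≤ n → ∑ k ∈ Ico c n, (2 * (k : ℤ) - c + 1) = n * ((n : ℤ) - c) := by
      intro n hn
      induction n, hn using Nat.le_induction with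
      | base => simp
      | succ n hn ih =>
        rw [Finset.sum_Ico_succ_top hn, ih]
        push_cast
        ring
    rw [this n hcn]
    exact dvd_mul_right _ _
  · have hext : ∑ k ∈ Ico c n, (-1 : ℤ) ^ (r * k) * (2 * (k : ℤ) - c + 1) * (k.choose c : ℤ) ^ r =
        ∑ k ∈ range n, (-1 : ℤ) ^ (r * k) * (2 * (k : ℤ) - c + 1) * (k.choose c : ℤ) ^ r := by
      apply Finset.sum_subset
      · intro k hk
        simp only [Finset.mem_Ico, Finset.mem_range] at *
        omega
      · intro k hk hk'
        simp only [Finset.mem_Ico, Finset.mem_range] at *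
        have : k.choose c = 0 := Nat.choose_eq_zero_of_lt (by omega)
        rw [this]
        simp [hr.ne']
    rw [hext]
    rcases Nat.even_or_odd' r with ⟨s, rfl | rfl⟩
    · obtain ⟨u, rfl⟩ : ∃ u, s = u + 1 := ⟨s - 1, by omega⟩
      have h := even_dvd c _ (pow_mem c u) n
      convert h using 1
      refine Finset.sum_congr rfl fun k _ => ?_
      have e1 : (-1 : ℤ) ^ (2 * (u + 1) * k) = 1 := by
        rw [mul_assoc, pow_mul]; simp
      rw [e1]
      ring
    · have h := odd_dvd c _ (pow_mem c s) n
      convert h using 1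
      refine Finset.sum_congr rfl fun k _ => ?_
      have e1 : (-1 : ℤ) ^ ((2 * s + 1) * k) = (-1) ^ k := by
        rw [add_mul, pow_add, mul_assoc, pow_mul]; simp
      rw [e1]

end Pool.Agent.V11276.PowBin
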