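import Pool.Agent.V11276.PowBin

/-!
# Sums of powers of binomial and multinomial coefficients
-/

set_option autoImplicit false

namespace Pool.Agent.V11276.PowBin

open Finset

theorem swap_dvd (n r : ℕ) (w : ℕ → ℤ) :
    (n : ℤ) ∣ ∑ k ∈ range n, (-1) ^ (r * k) *
      ∑ c ∈ range (k + 1), (2 * (k : ℤ) - c + 1) * (k.choose c : ℤ) ^ r * w c := by
  have : ∑ k ∈ range n, (-1 : ℤ) ^ (r * k) *
      ∑ c ∈ range (k + 1), (2 * (k : ℤ) - c + 1) * (k.choose c : ℤ) ^ r * w c =
      ∑ c ∈ range n, (∑ k ∈ Ico c n, (-1) ^ (r * k) * (2 * (k : ℤ) - c + 1) * (k.choose c : ℤ) ^ r) * w c := by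
    simp_rw [Finset.mul_sum, Finset.sum_mul]
    rw [Finset.sum_comm' (t' := range n) (s' := fun c => Ico c n)]
    · refine Finset.sum_congr rfl fun c _ => Finset.sum_congr rfl fun k _ => ?_
      ring
    · intro k c
      simp only [Finset.mem_range, Finset.mem_Ico]
      omega
  rw [this]
  exact Finset.dvd_sum fun c _ => Dvd.dvd.mul_right (main c n r) _

theorem two_dvd (n r : ℕ) :
    (2 * n : ℤ) ∣ ∑ k ∈ range n, (-1) ^ (r * k) * (3 * (k : ℤ) + 2) *
      ∑ j ∈ range (k + 1), (k.choose j : ℤ) ^ r := by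
  have h := swap_dvd n r (fun _ => 1)
  have h2 : ∑ k ∈ range n, (-1 : ℤ) ^ (r * k) * (3 * (k : ℤ) + 2) *
      ∑ j ∈ range (k + 1), (k.choose j : ℤ) ^ r = 2 * ∑ k ∈ range n, (-1) ^ (r * k) *
      ∑ c ∈ range (k + 1), (2 * (k : ℤ) - c + 1) * (k.choose c : ℤ) ^ r * 1 := by
    rw [Finset.mul_sum]
    refine Finset.sum_congr rfl fun k _ => ?_
    have h3 : ∑ c ∈ range (k + 1), (2 * (k : ℤ) - c + 1) * (k.choose c : ℤ) ^ r * 1 =
        ∑ c ∈ range (k + 1), ((k : ℤ) + c + 1) * (k.choose c : ℤ) ^ r := by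
      rw [← Finset.sum_range_reflect]
      refine Finset.sum_congr rfl fun c hc => ?_
      have hc' : c ≤ k := by
        have := Finset.mem_range.1 hc
        omega
      have e : k + 1 - 1 - c = k - c := by omega
      rw [e, Nat.choose_symm hc']
      push_cast [hc']
      ring
    have h4 : 2 * ∑ c ∈ range (k + 1), (2 * (k : ℤ) - c + 1) * (k.choose c : ℤ) ^ r * 1 =
        (3 * (k : ℤ) + 2) * ∑ j ∈ range (k + 1), (k.choose j : ℤ) ^ r := by
      rw [two_mul]
      nth_rewrite 2 [h3]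
      rw [← Finset.sum_add_distrib, Finset.mul_sum]
      refine Finset.sum_congr rfl fun c _ => ?_
      ring
    linear_combination (-(-1 : ℤ) ^ (r * k)) * h4
  rw [h2]
  exact mul_dvd_mul_left 2 h

/-- the sum of the `r`-th powers of the multinomial coefficients with `m` parts of sum `n` -/
def Mul (m n r : ℕ) : ℕ :=
  ∑ k ∈ Finset.Nat.antidiagonalTuple m n, Nat.multinomial univ k ^ r

theorem multinomial_perm {m : ℕ} (σ : Equiv.Perm (Fin m)) (k : Fin m → ℕ) :
    Nat.multinomial univ (k ∘ σ) = Nat.multinomial univ k := by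
  unfold Nat.multinomial
  have h1 : ∑ i, (k ∘ σ) i = ∑ i, k i := Equiv.sum_comp σ k
  have h2 : ∏ i, ((k ∘ σ) i).factorial = ∏ i, (k i).factorial :=
    Equiv.prod_comp σ fun i => (k i).factorial
  rw [h1, h2]

theorem sum_coord (m n r : ℕ) (i : Fin (m + 1)) :
    ∑ k ∈ Finset.Nat.antidiagonalTuple (m + 1) n, (k i : ℤ) * (Nat.multinomial univ k : ℤ) ^ r =
    ∑ k ∈ Finset.Nat.antidiagonalTuple (m + 1) n, (k 0 : ℤ) * (Nat.multinomial univ k : ℤ) ^ r := by
  refine Finset.sum_nbij' (fun k => k ∘ Equiv.swap 0 i) (fun k => k ∘ Equiv.swap 0 i) ?_ ?_ ?_ ?_ ?_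
  · intro k hk
    rw [Finset.Nat.mem_antidiagonalTuple] at hk ⊢
    rw [← hk]
    exact Equiv.sum_comp (Equiv.swap 0 i) k
  · intro k hk
    rw [Finset.Nat.mem_antidiagonalTuple] at hk ⊢
    rw [← hk]
    exact Equiv.sum_comp (Equiv.swap 0 i) k
  · intro k _
    funext j
    simp
  · intro k _
    funext j
    simp
  · intro k _
    rw [multinomial_perm]
    simp

theorem multinomial_cons (m a : ℕ) (t : Fin m → ℕ) :
    Nat.multinomial univ (Fin.cons a t : Fin (m + 1) → ℕ) =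
      (a + ∑ i, t i).choose a * Nat.multinomial univ t := by
  unfold Nat.multinomial
  rw [Fin.sum_univ_succ, Fin.prod_univ_succ]
  simp only [Fin.cons_zero, Fin.cons_succ]
  have hd : ∏ i, (t i).factorial ∣ (∑ i, t i).factorial := Nat.prod_factorial_dvd_factorial_sum _ _
  obtain ⟨u, hu⟩ := hd
  have hp : 0 < ∏ i, (t i).factorial := Finset.prod_pos fun i _ => Nat.factorial_pos _
  have h1 : (a + ∑ i, t i).choose a * a.factorial * (∑ i, t i).factorial = (a + ∑ i, t i).factorial := by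
    have := Nat.choose_mul_factorial_mul_factorial (Nat.le_add_right a (∑ i, t i))
    rwa [Nat.add_sub_cancel_left] at this
  rw [← h1, hu, Nat.mul_div_cancel_left _ hp]
  apply Nat.div_eq_of_eq_mul_left (Nat.mul_pos (Nat.factorial_pos _) hp)
  ring

theorem first (m n r : ℕ) :
    ∑ k ∈ Finset.Nat.antidiagonalTuple (m + 1) n, ((k 0 : ℤ) + n + 1) * (Nat.multinomial univ k : ℤ) ^ r =
    ∑ c ∈ range (n + 1), (2 * (n : ℤ) - c + 1) * (n.choose c : ℤ) ^ r * (Mul m c r : ℤ) := by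
  rw [Finset.sum_congr rfl (g := fun k => ((k 0 : ℤ) + n + 1) * (Nat.multinomial univ k : ℤ) ^ r)
    (fun _ _ => rfl)]
  have h : ∀ f : (Fin (m + 1) → ℕ) → ℤ, ∑ k ∈ Finset.Nat.antidiagonalTuple (m + 1) n, f k =
      ∑ ab ∈ antidiagonal n, ∑ t ∈ Finset.Nat.antidiagonalTuple m ab.2, f (Fin.cons ab.1 t) := by
    intro f
    rw [Finset.sum_sigma']
    refine Finset.sum_nbij' (fun k => ⟨(k 0, ∑ i, k (Fin.succ i)), Fin.tail k⟩)
      (fun x => Fin.cons x.1.1 x.2) ?_ ?_ ?_ ?_ ?_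
    · intro k hk
      rw [Finset.Nat.mem_antidiagonalTuple, Fin.sum_univ_succ] at hk
      rw [Finset.mem_sigma]
      exact ⟨Finset.HasAntidiagonal.mem_antidiagonal.2 hk, Finset.Nat.mem_antidiagonalTuple.2 rfl⟩
    · rintro ⟨⟨a, b⟩, t⟩ hx
      rw [Finset.mem_sigma] at hx
      have h1 := Finset.HasAntidiagonal.mem_antidiagonal.1 hx.1
      have h2 := Finset.Nat.mem_antidiagonalTuple.1 hx.2
      simp only at h1 h2
      rw [Finset.Nat.mem_antidiagonalTuple, Fin.sum_univ_succ]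
      simp only [Fin.cons_zero, Fin.cons_succ]
      rw [h2, h1]
    · intro k _
      exact Fin.cons_self_tail k
    · rintro ⟨⟨a, b⟩, t⟩ hx
      rw [Finset.mem_sigma] at hx
      have h2 := Finset.Nat.mem_antidiagonalTuple.1 hx.2
      simp only at h2
      simp only [Fin.cons_zero, Fin.cons_succ, Fin.tail_cons]
      rw [h2]
    · intro k _
      simp only
      rw [Fin.cons_self_tail]
  rw [h, Finset.Nat.sum_antidiagonal_eq_sum_range_succ_mk, ← Finset.sum_range_reflect]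
  refine Finset.sum_congr rfl fun c hc => ?_
  have hc' : c ≤ n := by
    have := Finset.mem_range.1 hc
    omega
  have e1 : n + 1 - 1 - c = n - c := by omega
  have e2 : n - (n - c) = c := by omega
  simp only [e1, e2]
  unfold Mul
  push_cast
  rw [Finset.mul_sum]
  refine Finset.sum_congr rfl fun t ht => ?_
  rw [Finset.Nat.mem_antidiagonalTuple] at ht
  rw [multinomial_cons, ht, Nat.sub_add_cancel hc', Nat.choose_symm hc']
  simp only [Fin.cons_zero]
  push_cast [hc']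
  ring

/-- `m n` divides `∑_{k < n} (-1)^(r k) ((m + 1) k + m) M_(m,k)^(r)` -/
theorem multi_dvd (m n r : ℕ) :
    (((m + 1 : ℕ) : ℤ) * n) ∣ ∑ k ∈ range n, (-1) ^ (r * k) *
      ((((m + 1 : ℕ) : ℤ) + 1) * k + ((m + 1 : ℕ) : ℤ)) * (Mul (m + 1) k r : ℤ) := by
  have h := swap_dvd n r (fun c => (Mul m c r : ℤ))
  have h2 : ∑ k ∈ range n, (-1 : ℤ) ^ (r * k) *
      ((((m + 1 : ℕ) : ℤ) + 1) * k + ((m + 1 : ℕ) : ℤ)) * (Mul (m + 1) k r : ℤ) =
      ((m + 1 : ℕ) : ℤ) * ∑ k ∈ range n, (-1) ^ (r * k) *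
      ∑ c ∈ range (k + 1), (2 * (k : ℤ) - c + 1) * (k.choose c : ℤ) ^ r * (Mul m c r : ℤ) := by
    rw [Finset.mul_sum]
    refine Finset.sum_congr rfl fun k _ => ?_
    rw [← first]
    have h3 : ((((m + 1 : ℕ) : ℤ) + 1) * k + ((m + 1 : ℕ) : ℤ)) * (Mul (m + 1) k r : ℤ) =
        ∑ i : Fin (m + 1), ∑ x ∈ Finset.Nat.antidiagonalTuple (m + 1) k,
          ((x i : ℤ) + k + 1) * (Nat.multinomial univ x : ℤ) ^ r := by
      rw [Finset.sum_comm]
      unfold Mul
      push_cast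
      rw [Finset.mul_sum]
      refine Finset.sum_congr rfl fun x hx => ?_
      rw [Finset.Nat.mem_antidiagonalTuple] at hx
      rw [← Finset.sum_mul, Finset.sum_add_distrib, Finset.sum_add_distrib]
      have : ∑ i, (x i : ℤ) = k := by exact_mod_cast hx
      rw [this]
      simp only [Finset.sum_const, Finset.card_univ, Fintype.card_fin, nsmul_eq_mul]
      push_cast
      ring
    have h4 : ∀ i : Fin (m + 1), ∑ x ∈ Finset.Nat.antidiagonalTuple (m + 1) k,
          ((x i : ℤ) + k + 1) * (Nat.multinomial univ x : ℤ) ^ r =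
          ∑ x ∈ Finset.Nat.antidiagonalTuple (m + 1) k,
          ((x 0 : ℤ) + k + 1) * (Nat.multinomial univ x : ℤ) ^ r := by
      intro i
      have := sum_coord m k r i
      simp_rw [add_assoc, add_mul _ (_ + _) _, Finset.sum_add_distrib]
      rw [this]
    rw [mul_assoc, h3, Finset.sum_congr rfl fun i _ => h4 i]
    simp
    ring
  rw [h2]
  exact mul_dvd_mul_left _ h

end Pool.Agent.V11276.PowBin
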