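import Pool.Agent.V11276.PC

/-! Colored 4-ary partitions: section operators on the module `s ℤ[y] + u ℤ[y]`. -/

namespace Pool.Agent.V11276.QA

open PowerSeries Pool.Agent.V11276.PC

theorem h4 : 2 ≤ 4 := by norm_num

/-- sections -/
noncomputable def Er (r : ℕ) (f : ℤ⟦X⟧) : ℤ⟦X⟧ := mk fun n => coeff (4 * n + r) f

theorem coeff_Er (r n : ℕ) (f : ℤ⟦X⟧) : coeff n (Er r f) = coeff (4 * n + r) f := by
  unfold Er; rw [coeff_mk]

theorem Er_add (r : ℕ) (f g : ℤ⟦X⟧) : Er r (f + g) = Er r f + Er r g := by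
  ext n; rw [coeff_Er, map_add, map_add, coeff_Er, coeff_Er]

theorem Er_sub (r : ℕ) (f g : ℤ⟦X⟧) : Er r (f - g) = Er r f - Er r g := by
  ext n; rw [coeff_Er, map_sub, map_sub, coeff_Er, coeff_Er]

theorem Er_zero (r : ℕ) : Er r 0 = 0 := by
  ext n; rw [coeff_Er, map_zero, map_zero]

theorem Er_C_mul (r : ℕ) (c : ℤ) (f : ℤ⟦X⟧) : Er r (C c * f) = C c * Er r f := by
  ext n; rw [coeff_Er, coeff_C_mul, coeff_C_mul, coeff_Er]

theorem Er_ex_mul (r : ℕ) (hr : r < 4) (a f : ℤ⟦X⟧) : Er r (ex h4 a * f) = a * Er r f := by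
  ext n
  rw [coeff_Er, coeff_mul, coeff_mul]
  have hinj : Set.InjOn (fun x : ℕ × ℕ => (4 * x.1, 4 * x.2 + r))
      (Finset.HasAntidiagonal.antidiagonal n : Finset (ℕ × ℕ)) := by
    intro x _ y _ h
    simp only [Prod.mk.injEq] at h
    exact Prod.ext (by omega) (by omega)
  symm
  refine Finset.sum_of_injOn (fun x : ℕ × ℕ => (4 * x.1, 4 * x.2 + r)) hinj ?_ ?_ ?_
  · intro x hx
    have hx' := Finset.HasAntidiagonal.mem_antidiagonal.1 hx
    apply Finset.HasAntidiagonal.mem_antidiagonal.2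
    show 4 * x.1 + (4 * x.2 + r) = 4 * n + r
    omega
  · intro x hx hne
    have hx' := Finset.HasAntidiagonal.mem_antidiagonal.1 hx
    unfold ex
    rw [coeff_expand]
    split_ifs with hd
    · exfalso
      obtain ⟨i, hi⟩ := hd
      apply hne
      refine ⟨(i, (x.2 - r) / 4), ?_, ?_⟩
      · apply Finset.HasAntidiagonal.mem_antidiagonal.2
        show i + (x.2 - r) / 4 = n
        omega
      · apply Prod.ext
        · exact hi.symm
        · show 4 * ((x.2 - r) / 4) + r = x.2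
          omega
    · rw [zero_mul]
  · intro x _
    show coeff x.1 a * coeff x.2 (Er r f) = coeff (4 * x.1) (ex h4 a) * coeff (4 * x.2 + r) f
    unfold ex
    rw [coeff_expand_mul, coeff_Er]

/-- basis -/
noncomputable def e (j : ℕ) : ℤ⟦X⟧ := X ^ ((j + 1) / 2) * io ^ (j + 1)

theorem coeff_e (j n : ℕ) : coeff n (e j) = (((n + j / 2).choose j : ℕ) : ℤ) := by
  unfold e io
  rw [coeff_X_pow_mul', mk_one_pow_eq_mk_choose_add, coeff_mk]
  split_ifs with h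
  · have : j + (n - (j + 1) / 2) = n + j / 2 := by omega
    rw [this]
  · rw [Nat.choose_eq_zero_of_lt (by omega)]; rfl

theorem chq (N k : ℕ) : ((N.choose (k + 1) : ℕ) : ℚ) =
    (N.choose k : ℚ) * ((N : ℚ) - k) / (k + 1) := by
  have h := Nat.choose_succ_right_eq N k
  have hk : ((k : ℚ) + 1) ≠ 0 := by positivity
  rw [eq_div_iff hk]
  rcases le_or_gt k N with h1 | h1
  · have h2 : ((N.choose (k + 1) * (k + 1) : ℕ) : ℚ) = ((N.choose k * (N - k) : ℕ) : ℚ) := by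
      rw [h]
    push_cast [Nat.cast_sub h1] at h2
    exact h2
  · rw [Nat.choose_eq_zero_of_lt h1, Nat.choose_eq_zero_of_lt (by omega)]; simp

/-- `1/(1-x)` -/
noncomputable def s : ℤ⟦X⟧ := io
/-- `x/(1-x)^2` -/
noncomputable def u : ℤ⟦X⟧ := X * io ^ 2
/-- `2x/(1-x)^2` -/
noncomputable def y : ℤ⟦X⟧ := C 2 * u

/-- evaluation of lists -/
noncomputable def ev : List (ℤ × ℤ) → ℤ⟦X⟧
  | [] => 0
  | p :: l => C p.1 * s + C p.2 * u + y * ev l

/-- the operators on short lists -/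
def lin (r : ℕ) (a0 b0 a1 b1 a2 b2 a3 b3 : ℤ) : List (ℤ × ℤ) :=
  match r with
  | 0 => [(1 * a0, 4 * b0 + (-12) * a1 + 20 * b1 + (-20) * a2 + 24 * b2 + (-8) * a3 + 8 * b3), (16 * a1 + 40 * a2 + 32 * a3, 64 * b1 + (-192) * a2 + 480 * b2 + (-800) * a3 + 1312 * b3), (256 * a2 + 1280 * a3, 1024 * b2 + (-3072) * a3 + 10240 * b3), (4096 * a3, 16384 * b3)]
  | 1 => [(1 * a0 + 1 * b0 + 2 * a1, 4 * b0 + (-4) * a1 + 8 * b1 + (-4) * a2 + 4 * b2), (16 * a1 + 16 * b1 + 72 * a2 + 40 * b2 + 112 * a3 + 32 * b3, 64 * b1 + (-64) * a2 + 288 * b2 + (-224) * a3 + 512 * b3), (256 * a2 + 256 * b2 + 1792 * a3 + 1280 * b3, 1024 * b2 + (-1024) * a3 + 7168 * b3), (4096 * a3 + 4096 * b3, 16384 * b3)]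
  | 2 => [(1 * a0 + 2 * b0 + 6 * a1 + 2 * b1 + 4 * a2, 4 * b0 + 4 * a1 + 4 * b1 + 4 * a2), (16 * a1 + 32 * b1 + 136 * a2 + 112 * b2 + 336 * a3 + 144 * b3, 64 * b1 + 64 * a2 + 224 * b2 + 224 * a3 + 288 * b3), (256 * a2 + 512 * b2 + 2816 * a3 + 3072 * b3, 1024 * b2 + 1024 * a3 + 6144 * b3), (4096 * a3 + 8192 * b3, 16384 * b3)]
  | _ => [(1 * a0 + 3 * b0 + 12 * a1 + 8 * b1 + 20 * a2 + 4 * b2 + 8 * a3, 4 * b0 + 12 * a1 + 8 * b1 + 20 * a2 + 4 * b2 + 8 * a3), (16 * a1 + 48 * b1 + 232 * a2 + 248 * b2 + 832 * a3 + 480 * b3, 64 * b1 + 192 * a2 + 288 * b2 + 800 * a3 + 512 * b3), (256 * a2 + 768 * b2 + 4352 * a3 + 5888 * b3, 1024 * b2 + 3072 * a3 + 7168 * b3), (4096 * a3 + 12288 * b3, 16384 * b3)]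

theorem ev4 (a0 b0 a1 b1 a2 b2 a3 b3 : ℤ) : ev [(a0, b0), (a1, b1), (a2, b2), (a3, b3)] =
    C a0 * e 0 + C b0 * e 1 + C (2 * a1) * e 2 + C (2 * b1) * e 3 + C (4 * a2) * e 4 +
      C (4 * b2) * e 5 + C (8 * a3) * e 6 + C (8 * b3) * e 7 := by
  simp only [ev, e, s, y, u, map_mul, map_ofNat]
  norm_num
  ring

theorem coeff_ev4 (n : ℕ) (a0 b0 a1 b1 a2 b2 a3 b3 : ℤ) :
    coeff n (ev [(a0, b0), (a1, b1), (a2, b2), (a3, b3)]) =
    a0 * (n.choose 0 : ℕ) + b0 * (n.choose 1 : ℕ) + 2 * a1 * ((n + 1).choose 2 : ℕ) +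
      2 * b1 * ((n + 1).choose 3 : ℕ) + 4 * a2 * ((n + 2).choose 4 : ℕ) +
      4 * b2 * ((n + 2).choose 5 : ℕ) + 8 * a3 * ((n + 3).choose 6 : ℕ) +
      8 * b3 * ((n + 3).choose 7 : ℕ) := by
  rw [ev4, map_add, map_add, map_add, map_add, map_add, map_add, map_add]
  simp only [coeff_C_mul, coeff_e]
  norm_num

theorem lin_spec (r : ℕ) (hr : r < 4) (a0 b0 a1 b1 a2 b2 a3 b3 : ℤ) :
    Er r (ev [(a0, b0), (a1, b1), (a2, b2), (a3, b3)]) =
      ev (lin r a0 b0 a1 b1 a2 b2 a3 b3) := by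
  interval_cases r
  all_goals
    ext n
    rw [coeff_Er, coeff_ev4]
    simp only [lin]
    rw [coeff_ev4]
    apply Int.cast_injective (α := ℚ)
    push_cast
    simp only [chq, Nat.choose_zero_right]
    push_cast
    ring

end Pool.Agent.V11276.QA
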