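import Pool.Agent.V11276.QA

/-! Colored 4-ary partitions: computable section operators, lattices, the cone. -/

namespace Pool.Agent.V11276.QA

open PowerSeries Pool.Agent.V11276.PC

theorem io2 : io ^ 2 * (1 - X) ^ 2 = (1 : ℤ⟦X⟧) := by rw [← mul_pow, io_mul, one_pow]

theorem ex_io : ex h4 io * (1 - X ^ 4) = 1 := by
  have h := congrArg (ex h4) io_mul
  have hX : ex h4 X = X ^ 4 := expand_X 4 (by omega)
  unfold ex at *
  rw [map_mul, map_sub, map_one, hX] at h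
  exact h

/-- `((1-x^4)/(1-x)^4)^2` in terms of `y` -/
noncomputable def Ψ : ℤ⟦X⟧ := 1 + C 4 * y + C 5 * y ^ 2 + C 2 * y ^ 3

theorem c2 : (C 2 : ℤ⟦X⟧) = 2 := map_ofNat C 2
theorem c4 : (C 4 : ℤ⟦X⟧) = 4 := map_ofNat C 4
theorem c5 : (C 5 : ℤ⟦X⟧) = 5 := map_ofNat C 5
theorem c8 : (C 8 : ℤ⟦X⟧) = 8 := map_ofNat C 8
theorem c10 : (C 10 : ℤ⟦X⟧) = 10 := map_ofNat C 10

theorem Ψ_fac : Ψ = (1 + 4 * u) * (1 + 2 * u) ^ 2 := by
  unfold Ψ y; rw [c2, c4, c5]; ring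

theorem w1 : 1 + 4 * u = (1 + X) ^ 2 * io ^ 2 := by
  unfold u
  linear_combination (-1 : ℤ⟦X⟧) * io2

theorem w2 : 1 + 2 * u = (1 + X ^ 2) * io ^ 2 := by
  unfold u
  linear_combination (-1 : ℤ⟦X⟧) * io2

theorem Ψ_eq : Ψ = ((1 - X ^ 4) * io ^ 4) ^ 2 := by
  rw [Ψ_fac, w1, w2]
  have h := io2
  linear_combination (-1 : ℤ⟦X⟧) * (1 + X) ^ 2 * (1 + X ^ 2) ^ 2 * io ^ 6 * h

theorem y4 : y ^ 4 = ex h4 y * (C 8 * Ψ) := by
  have hX : ex h4 X = X ^ 4 := expand_X 4 (by omega)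
  have h2 : ex h4 y = 2 * (X ^ 4 * ex h4 io ^ 2) := by
    unfold y u
    rw [c2]
    unfold ex at *
    rw [map_mul, map_mul, map_pow, map_ofNat, hX]
  rw [h2, Ψ_eq, c8]
  have h := ex_io
  unfold y u
  rw [c2]
  linear_combination (-16 * X ^ 4 * io ^ 8 * (ex h4 io * (1 - X ^ 4) + 1)) * h

theorem Er_y4 (r : ℕ) (hr : r < 4) (f : ℤ⟦X⟧) : Er r (y ^ 4 * f) = C 8 * (y * Er r (Ψ * f)) := by
  have : y ^ 4 * f = ex h4 y * (C 8 * (Ψ * f)) := by rw [y4]; ring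
  rw [this, Er_ex_mul r hr, Er_C_mul]; ring

/-! ### lists -/

/-- sum -/
def addL : List (ℤ × ℤ) → List (ℤ × ℤ) → List (ℤ × ℤ)
  | [], l => l
  | l, [] => l
  | p :: l, q :: l' => (p.1 + q.1, p.2 + q.2) :: addL l l'

/-- multiple -/
def smulL (c : ℤ) (l : List (ℤ × ℤ)) : List (ℤ × ℤ) := l.map fun p => (c * p.1, c * p.2)

theorem ev_nil : ev [] = 0 := rfl
theorem ev_cons (p : ℤ × ℤ) (l : List (ℤ × ℤ)) : ev (p :: l) = C p.1 * s + C p.2 * u + y * ev l :=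
  rfl

theorem ev_addL (l l' : List (ℤ × ℤ)) : ev (addL l l') = ev l + ev l' := by
  induction l generalizing l' with
  | nil => cases l' <;> simp [addL, ev_nil]
  | cons p l ih =>
    cases l' with
    | nil => simp [addL, ev_nil]
    | cons q l' =>
      simp only [addL, ev_cons, ih, map_add]
      ring

theorem ev_smulL (c : ℤ) (l : List (ℤ × ℤ)) : ev (smulL c l) = C c * ev l := by
  induction l with
  | nil => simp [smulL, ev_nil]
  | cons p l ih =>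
    unfold smulL at *
    rw [List.map_cons, ev_cons, ev_cons, ih, map_mul, map_mul]
    ring

/-- shift -/
def sh (l : List (ℤ × ℤ)) : List (ℤ × ℤ) := (0, 0) :: l

theorem ev_sh (l : List (ℤ × ℤ)) : ev (sh l) = y * ev l := by
  unfold sh; rw [ev_cons]; simp

/-- multiplication by `Ψ` -/
def mulP : List (ℤ × ℤ) → List (ℤ × ℤ)
  | [] => []
  | p :: l => addL (p :: l) (addL (smulL 4 (sh (p :: l))) (addL (smulL 5 (sh (sh (p :: l))))
      (smulL 2 (sh (sh (sh (p :: l)))))))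

theorem ev_mulP (l : List (ℤ × ℤ)) : ev (mulP l) = Ψ * ev l := by
  cases l with
  | nil => simp [mulP, ev_nil]
  | cons p l =>
    unfold mulP
    rw [ev_addL, ev_addL, ev_addL, ev_smulL, ev_smulL, ev_smulL, ev_sh, ev_sh, ev_sh, ev_sh,
      ev_sh, ev_sh]
    unfold Ψ
    ring

theorem length_addL (l l' : List (ℤ × ℤ)) : (addL l l').length = max l.length l'.length := by
  induction l generalizing l' with
  | nil => cases l' <;> simp [addL]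
  | cons p l ih =>
    cases l' with
    | nil => simp [addL]
    | cons q l' => simp only [addL, List.length_cons, ih]; omega

theorem length_smulL (c : ℤ) (l : List (ℤ × ℤ)) : (smulL c l).length = l.length := by
  unfold smulL; simp

theorem length_mulP (l : List (ℤ × ℤ)) : (mulP l).length = if l.length = 0 then 0 else
    l.length + 3 := by
  cases l with
  | nil => rfl
  | cons p l =>
    unfold mulP
    simp only [length_addL, length_smulL, sh, List.length_cons]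
    rw [if_neg (by omega)]
    omega

/-- operators on lists, with fuel -/
def er : ℕ → ℕ → List (ℤ × ℤ) → List (ℤ × ℤ)
  | 0, _, _ => []
  | k + 1, r, l => addL (lin r (l.getD 0 (0, 0)).1 (l.getD 0 (0, 0)).2 (l.getD 1 (0, 0)).1
      (l.getD 1 (0, 0)).2 (l.getD 2 (0, 0)).1 (l.getD 2 (0, 0)).2 (l.getD 3 (0, 0)).1
      (l.getD 3 (0, 0)).2) (smulL 8 (sh (er k r (mulP (l.drop 4)))))

theorem er_succ (k r : ℕ) (l : List (ℤ × ℤ)) : er (k + 1) r l =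
    addL (lin r (l.getD 0 (0, 0)).1 (l.getD 0 (0, 0)).2 (l.getD 1 (0, 0)).1
      (l.getD 1 (0, 0)).2 (l.getD 2 (0, 0)).1 (l.getD 2 (0, 0)).2 (l.getD 3 (0, 0)).1
      (l.getD 3 (0, 0)).2) (smulL 8 (sh (er k r (mulP (l.drop 4))))) := rfl

theorem ev_split (l : List (ℤ × ℤ)) : ev l = ev [((l.getD 0 (0, 0)).1, (l.getD 0 (0, 0)).2),
    ((l.getD 1 (0, 0)).1, (l.getD 1 (0, 0)).2), ((l.getD 2 (0, 0)).1, (l.getD 2 (0, 0)).2),
    ((l.getD 3 (0, 0)).1, (l.getD 3 (0, 0)).2)] + y ^ 4 * ev (l.drop 4) := by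
  match l with
  | [] => simp [ev_nil, ev_cons]
  | [a] => simp [ev_nil, ev_cons]
  | [a, b] => simp [ev_nil, ev_cons]
  | [a, b, c] => simp [ev_nil, ev_cons]
  | a :: b :: c :: d :: l => simp [ev_nil, ev_cons]; ring

theorem er_spec (k r : ℕ) (hr : r < 4) (l : List (ℤ × ℤ)) (hl : l.length ≤ k) :
    Er r (ev l) = ev (er k r l) := by
  induction k generalizing l with
  | zero =>
    have : l = [] := List.eq_nil_of_length_eq_zero (by omega)
    subst this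
    unfold er
    rw [ev_nil, Er_zero]
  | succ k ih =>
    rw [ev_split, Er_add, lin_spec r hr, Er_y4 r hr, ← ev_mulP, ih]
    · rw [er_succ, ev_addL, ev_smulL, ev_sh]
    · rw [length_mulP, List.length_drop]
      split_ifs <;> omega

/-- the module `s ℤ[y] + u ℤ[y]` -/
def Wy (f : ℤ⟦X⟧) : Prop := ∃ l, ev l = f

theorem Wy_add {f g : ℤ⟦X⟧} (hf : Wy f) (hg : Wy g) : Wy (f + g) := by
  obtain ⟨l, rfl⟩ := hf
  obtain ⟨l', rfl⟩ := hg
  exact ⟨_, ev_addL l l'⟩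

theorem Wy_C {f : ℤ⟦X⟧} (c : ℤ) (hf : Wy f) : Wy (C c * f) := by
  obtain ⟨l, rfl⟩ := hf
  exact ⟨_, ev_smulL c l⟩

theorem Wy_y {f : ℤ⟦X⟧} (hf : Wy f) : Wy (y * f) := by
  obtain ⟨l, rfl⟩ := hf
  exact ⟨_, ev_sh l⟩

theorem Wy_Ψ {f : ℤ⟦X⟧} (hf : Wy f) : Wy (Ψ * f) := by
  obtain ⟨l, rfl⟩ := hf
  exact ⟨_, ev_mulP l⟩

theorem Wy_zero : Wy 0 := ⟨[], rfl⟩
theorem Wy_s : Wy s := ⟨[(1, 0)], by simp [ev_cons, ev_nil]⟩
theorem Wy_u : Wy u := ⟨[(0, 1)], by simp [ev_cons, ev_nil]⟩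

theorem Wy_Er {f : ℤ⟦X⟧} (r : ℕ) (hr : r < 4) (hf : Wy f) : Wy (Er r f) := by
  obtain ⟨l, rfl⟩ := hf
  exact ⟨_, (er_spec l.length r hr l le_rfl).symm⟩

/-- integer polynomials in `y` -/
noncomputable def evp : List ℤ → ℤ⟦X⟧
  | [] => 0
  | a :: l => C a + y * evp l

/-- integer polynomials in `y` -/
def Zy (f : ℤ⟦X⟧) : Prop := ∃ l, evp l = f

theorem evp_add (l l' : List ℤ) : ∃ l'', evp l'' = evp l + evp l' := by
  induction l generalizing l' with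
  | nil => exact ⟨l', by simp [evp]⟩
  | cons p l ih =>
    cases l' with
    | nil => exact ⟨p :: l, by simp [evp]⟩
    | cons q l' =>
      obtain ⟨l'', h⟩ := ih l'
      refine ⟨(p + q) :: l'', ?_⟩
      simp only [evp, h, map_add]; ring

theorem Zy_add {f g : ℤ⟦X⟧} (hf : Zy f) (hg : Zy g) : Zy (f + g) := by
  obtain ⟨l, rfl⟩ := hf
  obtain ⟨l', rfl⟩ := hg
  exact evp_add l l'

theorem Zy_y {f : ℤ⟦X⟧} (hf : Zy f) : Zy (y * f) := by
  obtain ⟨l, rfl⟩ := hf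
  exact ⟨0 :: l, by simp [evp]⟩

theorem Zy_c (c : ℤ) : Zy (C c) := ⟨[c], by simp [evp]⟩

theorem Zy_zero : Zy 0 := ⟨[], rfl⟩

theorem Zy_C {f : ℤ⟦X⟧} (c : ℤ) (hf : Zy f) : Zy (C c * f) := by
  obtain ⟨l, rfl⟩ := hf
  induction l with
  | nil => simp only [evp, mul_zero]; exact Zy_zero
  | cons p l ih =>
    have : C c * evp (p :: l) = C (c * p) + y * (C c * evp l) := by
      simp only [evp, map_mul]; ring
    rw [this]
    exact Zy_add (Zy_c _) (Zy_y ih)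

theorem Zy_mul {f g : ℤ⟦X⟧} (hf : Zy f) (hg : Zy g) : Zy (f * g) := by
  obtain ⟨l, rfl⟩ := hf
  induction l with
  | nil => simp only [evp, zero_mul]; exact Zy_zero
  | cons p l ih =>
    have : evp (p :: l) * g = C p * g + y * (evp l * g) := by
      simp only [evp]; ring
    rw [this]
    exact Zy_add (Zy_C _ hg) (Zy_y ih)

theorem Zy_split {f : ℤ⟦X⟧} (hf : Zy f) : ∃ a : ℤ, ∃ g, Zy g ∧ f = C a + y * g := by
  obtain ⟨l, rfl⟩ := hf
  cases l with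
  | nil => exact ⟨0, 0, Zy_zero, by simp [evp]⟩
  | cons p l => exact ⟨p, evp l, ⟨l, rfl⟩, rfl⟩

theorem Zy_Wy {f g : ℤ⟦X⟧} (hf : Zy f) (hg : Wy g) : Wy (f * g) := by
  obtain ⟨l, rfl⟩ := hf
  induction l with
  | nil => simp only [evp, zero_mul]; exact Wy_zero
  | cons p l ih =>
    have : evp (p :: l) * g = C p * g + y * (evp l * g) := by
      simp only [evp]; ring
    rw [this]
    exact Wy_add (Wy_C _ hg) (Wy_y ih)

theorem Wy_split {f : ℤ⟦X⟧} (hf : Wy f) : ∃ a b : ℤ, ∃ g, Wy g ∧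
    f = C a * s + C b * u + y * g := by
  obtain ⟨l, rfl⟩ := hf
  cases l with
  | nil => exact ⟨0, 0, 0, Wy_zero, by simp [ev_nil]⟩
  | cons p l => exact ⟨p.1, p.2, ev l, ⟨l, rfl⟩, rfl⟩

theorem Zy_Ψ : Zy Ψ := by
  refine ⟨[1, 4, 5, 2], ?_⟩
  simp only [evp, Ψ, map_one]; ring

theorem Ψ_pow (j : ℕ) : ∃ Q, Zy Q ∧ Ψ ^ j = 1 + C (4 * (j : ℤ)) * y + y ^ 2 * Q := by
  induction j with
  | zero => exact ⟨0, Zy_zero, by simp⟩
  | succ j ih =>
    obtain ⟨Q, hQ, e⟩ := ih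
    refine ⟨Q * Ψ + (C 5 + C 2 * y) * (1 + C (4 * (j : ℤ)) * y) + C (16 * (j : ℤ)), ?_, ?_⟩
    · have hy : Zy y := by
        have := Zy_y (Zy_c 1); rwa [map_one, mul_one] at this
      have h1 : Zy 1 := by have := Zy_c 1; rwa [map_one] at this
      exact Zy_add (Zy_add (Zy_mul hQ Zy_Ψ) (Zy_mul (Zy_add (Zy_c _) (Zy_C _ hy))
        (Zy_add h1 (Zy_C _ hy)))) (Zy_c _)
    · rw [pow_succ, e]
      unfold Ψ
      push_cast
      have : (C (16 * (j : ℤ)) : ℤ⟦X⟧) = C 4 * C (4 * (j : ℤ)) := by rw [← map_mul]; ring_nf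
      rw [this, mul_add 4 (j : ℤ) 1, map_add, mul_one]
      ring

/-! ### lattices -/

/-- lattices -/
def Lat (A B H : ℤ) (f : ℤ⟦X⟧) : Prop := ∃ a b : ℤ, ∃ w, Wy w ∧
  f = C (A * a) * s + C (B * b) * u + C H * (y * w)

theorem Lat_add {A B H : ℤ} {f g : ℤ⟦X⟧} (hf : Lat A B H f) (hg : Lat A B H g) :
    Lat A B H (f + g) := by
  obtain ⟨a, b, w, hw, rfl⟩ := hf
  obtain ⟨a', b', w', hw', rfl⟩ := hg
  refine ⟨a + a', b + b', w + w', Wy_add hw hw', ?_⟩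
  rw [mul_add, mul_add, map_add, map_add]; ring

theorem Lat_C {A B H : ℤ} {f : ℤ⟦X⟧} (c : ℤ) (hf : Lat A B H f) : Lat A B H (C c * f) := by
  obtain ⟨a, b, w, hw, rfl⟩ := hf
  refine ⟨c * a, c * b, C c * w, Wy_C _ hw, ?_⟩
  rw [mul_left_comm A, mul_left_comm B, map_mul C c, map_mul C c]; ring

theorem Lat_Cm {A B H : ℤ} {f : ℤ⟦X⟧} (c : ℤ) (hf : Lat A B H f) :
    Lat (c * A) (c * B) (c * H) (C c * f) := by
  obtain ⟨a, b, w, hw, rfl⟩ := hf
  refine ⟨a, b, w, hw, ?_⟩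
  rw [mul_assoc c A, mul_assoc c B, map_mul C c, map_mul C c, map_mul C c]; ring

theorem Lat_mono {A B H A' B' H' : ℤ} {f : ℤ⟦X⟧} (hf : Lat A B H f) (h1 : A' ∣ A) (h2 : B' ∣ B)
    (h3 : H' ∣ H) : Lat A' B' H' f := by
  obtain ⟨a, b, w, hw, rfl⟩ := hf
  obtain ⟨x1, rfl⟩ := h1
  obtain ⟨x2, rfl⟩ := h2
  obtain ⟨x3, rfl⟩ := h3
  refine ⟨x1 * a, x2 * b, C x3 * w, Wy_C _ hw, ?_⟩
  rw [mul_assoc, mul_assoc, map_mul C H']; ring

/-- check -/
def chk (A B H : ℤ) : List (ℤ × ℤ) → Bool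
  | [] => true
  | p :: l => p.1 % A == 0 && p.2 % B == 0 && l.all fun q => q.1 % H == 0 && q.2 % H == 0

theorem all_spec (H : ℤ) (l : List (ℤ × ℤ)) (h : (l.all fun q => q.1 % H == 0 && q.2 % H == 0)) :
    ∃ w, Wy w ∧ ev l = C H * w := by
  induction l with
  | nil => exact ⟨0, Wy_zero, by simp [ev_nil]⟩
  | cons p l ih =>
    simp only [List.all_cons, Bool.and_eq_true, beq_iff_eq] at h
    obtain ⟨⟨h1, h2⟩, h3⟩ := h
    obtain ⟨w, hw, e⟩ := ih (by simpa using h3)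
    obtain ⟨x, hx⟩ := Int.dvd_of_emod_eq_zero h1
    obtain ⟨x', hx'⟩ := Int.dvd_of_emod_eq_zero h2
    refine ⟨C x * s + C x' * u + y * w, Wy_add (Wy_add (Wy_C _ Wy_s) (Wy_C _ Wy_u)) (Wy_y hw), ?_⟩
    rw [ev_cons, e, hx, hx', map_mul, map_mul]; ring

theorem chk_spec {A B H : ℤ} {l : List (ℤ × ℤ)} (h : chk A B H l = true) : Lat A B H (ev l) := by
  cases l with
  | nil => exact ⟨0, 0, 0, Wy_zero, by simp [ev_nil]⟩
  | cons p l =>
    simp only [chk, Bool.and_eq_true, beq_iff_eq] at h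
    obtain ⟨⟨h1, h2⟩, h3⟩ := h
    obtain ⟨w, hw, e⟩ := all_spec H l h3
    obtain ⟨x, hx⟩ := Int.dvd_of_emod_eq_zero h1
    obtain ⟨x', hx'⟩ := Int.dvd_of_emod_eq_zero h2
    refine ⟨x, x', w, hw, ?_⟩
    rw [ev_cons, e, hx, hx']; ring

theorem Lat_Er {A B H : ℤ} (k r : ℕ) (hr : r < 4) (l : List (ℤ × ℤ)) (hl : l.length ≤ k)
    (h : chk A B H (er k r l) = true) : Lat A B H (Er r (ev l)) := by
  rw [er_spec k r hr l hl]; exact chk_spec h

end Pool.Agent.V11276.QA
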