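import Pool.Agent.V11276.QB

/-! Colored 4-ary partitions: the cone and the starting point. -/

namespace Pool.Agent.V11276.QA

open PowerSeries Pool.Agent.V11276.PC

theorem Er_s (r : ℕ) (hr : r < 4) : Er r s = s := by
  have h := lin_spec r hr 1 0 0 0 0 0 0 0
  interval_cases r <;> simpa [ev_cons, ev_nil, lin] using h

theorem Er_u (r : ℕ) (hr : r < 4) : Er r u = C 4 * u + C (r : ℤ) * s := by
  have h := lin_spec r hr 0 1 0 0 0 0 0 0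
  interval_cases r <;> simp [ev_cons, ev_nil, lin] at h ⊢ <;> rw [h] <;> ring

theorem Er_one : Er 0 1 = 1 ∧ Er 1 1 = 0 := by
  constructor
  · ext n
    rw [coeff_Er, coeff_one, coeff_one]
    split_ifs <;> first | rfl | omega
  · ext n
    rw [coeff_Er, coeff_one, map_zero, if_neg (by omega)]

theorem Er_one' (r : ℕ) (h0 : r ≠ 0) : Er r 1 = 0 := by
  ext n
  rw [coeff_Er, coeff_one, map_zero, if_neg (by omega)]

/-- monomials -/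
def mon (i : ℕ) (a b : ℤ) : List (ℤ × ℤ) := List.replicate i (0, 0) ++ [(a, b)]

theorem ev_mon (i : ℕ) (a b : ℤ) : ev (mon i a b) = y ^ i * (C a * s + C b * u) := by
  unfold mon
  induction i with
  | zero => simp [ev_cons, ev_nil]
  | succ i ih =>
    rw [List.replicate_succ, List.cons_append, ev_cons, ih]
    simp; ring

theorem len_mon (i : ℕ) (a b : ℤ) : (mon i a b).length = i + 1 := by
  unfold mon; simp

theorem chk1 : ∀ r < 4, ∀ i < 3, ∀ t < 2,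
    chk 2 4 8 (er 10 r (mon (i + 1) (if t = 0 then 1 else 0) (if t = 0 then 0 else 1))) = true := by
  decide +kernel

theorem Er_mon (r : ℕ) (hr : r < 4) (i : ℕ) (hi : i < 3) (a b : ℤ) :
    Lat 2 4 8 (Er r (y ^ (i + 1) * (C a * s + C b * u))) := by
  have h0 := Lat_Er 10 r hr _ (by rw [len_mon]; omega) (chk1 r hr i hi 0 (by norm_num))
  have h1 := Lat_Er 10 r hr _ (by rw [len_mon]; omega) (chk1 r hr i hi 1 (by norm_num))
  rw [ev_mon] at h0 h1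
  have e : Er r (y ^ (i + 1) * (C a * s + C b * u)) =
      C a * Er r (y ^ (i + 1) * (C (if 0 = 0 then 1 else 0) * s + C (if 0 = 0 then 0 else 1) * u)) +
      C b * Er r (y ^ (i + 1) * (C (if 1 = 0 then 1 else 0) * s +
        C (if 1 = 0 then 0 else 1) * u)) := by
    rw [← Er_C_mul, ← Er_C_mul, ← Er_add]
    congr 1
    simp
    ring
  rw [e]
  exact Lat_add (Lat_C _ h0) (Lat_C _ h1)

theorem Er_yW (r : ℕ) (hr : r < 4) {w : ℤ⟦X⟧} (hw : Wy w) : Lat 2 4 8 (Er r (y * w)) := by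
  obtain ⟨a0, b0, w1, hw1, rfl⟩ := Wy_split hw
  obtain ⟨a1, b1, w2, hw2, rfl⟩ := Wy_split hw1
  obtain ⟨a2, b2, w3, hw3, rfl⟩ := Wy_split hw2
  have e : y * (C a0 * s + C b0 * u + y * (C a1 * s + C b1 * u + y * (C a2 * s + C b2 * u + y * w3)))
      = y ^ (0 + 1) * (C a0 * s + C b0 * u) + y ^ (1 + 1) * (C a1 * s + C b1 * u) +
      y ^ (2 + 1) * (C a2 * s + C b2 * u) + y ^ 4 * w3 := by ring
  rw [e, Er_add, Er_add, Er_add, Er_y4 r hr]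
  refine Lat_add (Lat_add (Lat_add (Er_mon r hr 0 (by norm_num) _ _)
    (Er_mon r hr 1 (by norm_num) _ _)) (Er_mon r hr 2 (by norm_num) _ _)) ?_
  refine ⟨0, 0, _, Wy_Er r hr (Wy_Ψ hw3), ?_⟩
  simp

theorem chk2 : ∀ r < 4, ∀ i < 2, chk 4 8 16 (er 10 r (mon (i + 2) (-(r : ℤ)) 1)) = true := by
  decide +kernel

/-- the special direction -/
noncomputable def v (r : ℕ) : ℤ⟦X⟧ := C (-(r : ℤ)) * s + C 1 * u

theorem Wy_v (r : ℕ) : Wy (v r) := Wy_add (Wy_C _ Wy_s) (Wy_C _ Wy_u)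

theorem Er_v (r : ℕ) (hr : r < 4) : Er r (v r) = C 4 * u := by
  unfold v
  rw [Er_add, Er_C_mul, Er_C_mul, Er_s r hr, Er_u r hr, map_neg, map_one]
  ring

theorem Er_y2v (r : ℕ) (hr : r < 4) {Q : ℤ⟦X⟧} (hQ : Zy Q) :
    Lat 4 8 16 (Er r (y ^ 2 * (Q * v r))) := by
  obtain ⟨q0, Q1, hQ1, rfl⟩ := Zy_split hQ
  obtain ⟨q1, Q2, hQ2, rfl⟩ := Zy_split hQ1
  obtain ⟨q2, Q3, hQ3, e3⟩ := Zy_split (Zy_mul Zy_Ψ hQ2)
  have h0 := Lat_Er 10 r hr _ (by rw [len_mon]; omega) (chk2 r hr 0 (by norm_num))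
  have h1 := Lat_Er 10 r hr _ (by rw [len_mon]; omega) (chk2 r hr 1 (by norm_num))
  rw [ev_mon] at h0 h1
  have e : y ^ 2 * ((C q0 + y * (C q1 + y * Q2)) * v r) = C q0 * (y ^ (0 + 2) * v r) +
      C q1 * (y ^ (1 + 2) * v r) + y ^ 4 * (Q2 * v r) := by ring
  have e2 : Ψ * (Q2 * v r) = C q2 * v r + y * (Q3 * v r) := by
    rw [← mul_assoc, e3]; ring
  rw [e, Er_add, Er_add, Er_C_mul, Er_C_mul, Er_y4 r hr, e2, Er_add, Er_C_mul, Er_v r hr]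
  refine Lat_add (Lat_add (Lat_C _ h0) (Lat_C _ h1)) ?_
  obtain ⟨a, b, w, hw, e4⟩ := Er_yW r hr (Zy_Wy hQ3 (Wy_v r))
  refine ⟨0, 0, C (2 * q2) * u + C a * s + C (2 * b) * u + C 4 * (y * w),
    Wy_add (Wy_add (Wy_add (Wy_C _ Wy_u) (Wy_C _ Wy_s)) (Wy_C _ Wy_u)) (Wy_C _ (Wy_y hw)), ?_⟩
  rw [e4]
  simp only [map_mul, mul_zero, map_zero, zero_mul, zero_add]
  have c16 : (C 16 : ℤ⟦X⟧) = 16 := map_ofNat C 16
  rw [c2, c4, c8, c16]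
  ring

/-- the cone -/
def Cn (f : ℤ⟦X⟧) : Prop := ∃ b c : ℤ, ∃ w, Wy w ∧ Odd c ∧
  f = C b * s + C c * u + C 4 * (y * w)

theorem cone (j : ℕ) {f : ℤ⟦X⟧} (hf : Cn f) : ∃ r < 4, ∃ g, Cn g ∧ Er r (Ψ ^ j * f) = C 4 * g := by
  obtain ⟨b, c, w, hw, hc, rfl⟩ := hf
  obtain ⟨r, hr, b1, hb⟩ : ∃ r : ℕ, r < 4 ∧ ∃ b1 : ℤ, b = 4 * b1 - r * c := by
    obtain ⟨k, hk⟩ := hc
    refine ⟨((-b * c) % 4).toNat, by omega, (b + ((-b * c) % 4).toNat * c) / 4, ?_⟩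
    have h1 : (((-b * c) % 4).toNat : ℤ) = (-b * c) % 4 := by omega
    rw [h1]
    have h2 : (4 : ℤ) ∣ b + (-b * c) % 4 * c := by
      have h3 := Int.emod_add_mul_ediv (-b * c) 4
      have h4 : (-b * c) % 4 = -b * c - 4 * (-b * c / 4) := by linarith
      rw [h4]
      refine ⟨-(b * (k * (k + 1))) - c * (-b * c / 4), ?_⟩
      generalize -b * c / 4 = t
      rw [hk]; ring
    omega
  refine ⟨r, hr, ?_⟩
  obtain ⟨Q, hQ, eQ⟩ := Ψ_pow j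
  have hQ1 : Zy (C (4 * (j : ℤ)) + y * Q) := Zy_add (Zy_c _) (Zy_y hQ)
  obtain ⟨a1, d1, w1, hw1, e1⟩ := Er_yW r hr hw
  obtain ⟨a2, d2, w2, hw2, e2⟩ := Er_yW r hr (Wy_v r)
  obtain ⟨a3, d3, w3, hw3, e3⟩ := Er_y2v r hr hQ
  obtain ⟨a4, d4, w4, hw4, e4⟩ := Er_yW r hr (Zy_Wy hQ1 Wy_s)
  obtain ⟨a5, d5, w5, hw5, e5⟩ := Er_yW r hr (Zy_Wy hQ1 (Wy_y hw))
  have ef : Ψ ^ j * (C b * s + C c * u + C 4 * (y * w)) =
      C c * v r + C (4 * b1) * s + C 4 * (y * w) + C (c * (4 * j)) * (y * v r) +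
      C c * (y ^ 2 * (Q * v r)) + C (4 * b1) * (y * ((C (4 * (j : ℤ)) + y * Q) * s)) +
      C 4 * (y * ((C (4 * (j : ℤ)) + y * Q) * (y * w))) := by
    rw [eQ]
    have eb : (C b : ℤ⟦X⟧) = C (4 * b1) - C (r : ℤ) * C c := by rw [hb, map_sub, map_mul C (r : ℤ)]
    rw [eb]
    unfold v
    rw [map_mul C c, map_neg, map_one]
    ring
  rw [ef]
  simp only [Er_add, Er_C_mul]
  rw [Er_v r hr, Er_s r hr, e1, e2, e3, e4, e5]
  refine ⟨C (b1 + 2 * a1 + c * j * 2 * a2 + c * a3 + b1 * 2 * a4 + 2 * a5) * s +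
    C (c + 4 * d1 + c * j * 4 * d2 + c * 2 * d3 + b1 * 4 * d4 + 4 * d5) * u +
    C 4 * (y * (C 2 * w1 + C (c * j * 2) * w2 + C c * w3 + C (2 * b1) * w4 + C 2 * w5)),
    ⟨_, _, _, ?_, ?_, rfl⟩, ?_⟩
  · exact Wy_add (Wy_add (Wy_add (Wy_add (Wy_C _ hw1) (Wy_C _ hw2)) (Wy_C _ hw3)) (Wy_C _ hw4))
      (Wy_C _ hw5)
  · obtain ⟨k, hk⟩ := hc
    refine ⟨k + 2 * d1 + c * j * 2 * d2 + c * d3 + b1 * 2 * d4 + 2 * d5, ?_⟩
    rw [hk]; ring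
  · simp only [map_add, map_mul, map_ofNat, map_natCast]
    ring

/-! ### the starting point -/

/-- `Ψ - 1` as a list -/
def l0 : List (ℤ × ℤ) := [(0, 8), (0, 10), (0, 4)]

theorem ev_l0 : Ψ = 1 + ev l0 := by
  unfold l0 Ψ
  simp only [ev_cons, ev_nil, map_zero, mul_zero, zero_mul, zero_add, add_zero]
  rw [c4, c5, c2, c8, c10]
  unfold y
  rw [c2]
  ring

/-- multiplication of `1 + ev l` by `Ψ` -/
def mul1 (l : List (ℤ × ℤ)) : List (ℤ × ℤ) := addL l0 (mulP l)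

theorem ev_mul1 (l : List (ℤ × ℤ)) : 1 + ev (mul1 l) = Ψ * (1 + ev l) := by
  unfold mul1
  rw [ev_addL, ev_mulP]
  linear_combination -ev_l0

theorem ev_mul1_iter (j : ℕ) (l : List (ℤ × ℤ)) : 1 + ev (mul1^[j] l) = Ψ ^ j * (1 + ev l) := by
  induction j with
  | zero => simp
  | succ j ih =>
    rw [Function.iterate_succ_apply', ev_mul1, ih]; ring

/-- multiplier -/
def μ (k : ℕ) : ℤ := if k = 1 then 4 else if k = 3 then 2 else 1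

/-- negligible multipliers -/
def K (φ : ℤ⟦X⟧) : Prop := (∃ φ', Zy φ' ∧ φ = y * φ') ∧ ∀ k : ℕ,
  Lat 128 64 64 (Er 0 (C (μ k) * (y ^ k * φ))) ∧ Lat 64 128 256 (Er 1 (C (μ k) * (y ^ k * φ))) ∧
  Lat 16 8 8 (Er 0 (C (μ k) * (y ^ k * (φ * u)))) ∧
  Lat 8 16 32 (Er 1 (C (μ k) * (y ^ k * (φ * u))))

theorem K_add {φ ψ : ℤ⟦X⟧} (h1 : K φ) (h2 : K ψ) : K (φ + ψ) := by
  obtain ⟨⟨f, hf, ef⟩, h1⟩ := h1
  obtain ⟨⟨g, hg, eg⟩, h2⟩ := h2
  refine ⟨⟨f + g, Zy_add hf hg, by rw [ef, eg]; ring⟩, fun k => ?_⟩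
  have e1 : C (μ k) * (y ^ k * (φ + ψ)) = C (μ k) * (y ^ k * φ) + C (μ k) * (y ^ k * ψ) := by ring
  have e2 : C (μ k) * (y ^ k * ((φ + ψ) * u)) = C (μ k) * (y ^ k * (φ * u)) +
      C (μ k) * (y ^ k * (ψ * u)) := by ring
  rw [e1, e2, Er_add, Er_add, Er_add, Er_add]
  obtain ⟨a1, a2, a3, a4⟩ := h1 k
  obtain ⟨b1, b2, b3, b4⟩ := h2 k
  exact ⟨Lat_add a1 b1, Lat_add a2 b2, Lat_add a3 b3, Lat_add a4 b4⟩

theorem μ_Ψ (k : ℕ) : ∃ c1 c2 c3 : ℤ, ∀ f : ℤ⟦X⟧, C (μ k) * (y ^ k * (Ψ * f)) =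
    C (μ k) * (y ^ k * f) + C c1 * (C (μ (k + 1)) * (y ^ (k + 1) * f)) +
    C c2 * (C (μ (k + 2)) * (y ^ (k + 2) * f)) + C c3 * (C (μ (k + 3)) * (y ^ (k + 3) * f)) := by
  have key : ∀ c1 c2 c3 : ℤ, μ k * 4 = c1 * μ (k + 1) → μ k * 5 = c2 * μ (k + 2) →
      μ k * 2 = c3 * μ (k + 3) → ∀ f : ℤ⟦X⟧, C (μ k) * (y ^ k * (Ψ * f)) =
    C (μ k) * (y ^ k * f) + C c1 * (C (μ (k + 1)) * (y ^ (k + 1) * f)) +
    C c2 * (C (μ (k + 2)) * (y ^ (k + 2) * f)) +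
      C c3 * (C (μ (k + 3)) * (y ^ (k + 3) * f)) := by
    intro c1 c2 c3 h1 h2 h3 f
    have e1 : (C c1 : ℤ⟦X⟧) * C (μ (k + 1)) = C (μ k) * C 4 := by rw [← map_mul, ← h1, map_mul]
    have e2 : (C c2 : ℤ⟦X⟧) * C (μ (k + 2)) = C (μ k) * C 5 := by rw [← map_mul, ← h2, map_mul]
    have e3 : (C c3 : ℤ⟦X⟧) * C (μ (k + 3)) = C (μ k) * C 2 := by rw [← map_mul, ← h3, map_mul]
    unfold Ψ
    linear_combination (-(y ^ (k + 1) * f)) * e1 + (-(y ^ (k + 2) * f)) * e2 +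
      (-(y ^ (k + 3) * f)) * e3
  match k with
  | 0 => exact ⟨1, 5, 1, key _ _ _ (by decide) (by decide) (by decide)⟩
  | 1 => exact ⟨16, 10, 8, key _ _ _ (by decide) (by decide) (by decide)⟩
  | 2 => exact ⟨2, 5, 2, key _ _ _ (by decide) (by decide) (by decide)⟩
  | 3 => exact ⟨8, 10, 4, key _ _ _ (by decide) (by decide) (by decide)⟩
  | k + 4 =>
    have h : ∀ i, μ (k + 4 + i) = 1 := fun i => by
      unfold μ; rw [if_neg (by omega), if_neg (by omega)]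
    refine ⟨4, 5, 2, key _ _ _ ?_ ?_ ?_⟩
    · rw [h 1, show μ (k + 4) = 1 from h 0]; norm_num
    · rw [h 2, show μ (k + 4) = 1 from h 0]; norm_num
    · rw [h 3, show μ (k + 4) = 1 from h 0]; norm_num

theorem K_Ψ {φ : ℤ⟦X⟧} (h : K φ) : K (Ψ * φ) := by
  obtain ⟨⟨f, hf, ef⟩, h1⟩ := h
  refine ⟨⟨Ψ * f, Zy_mul Zy_Ψ hf, by rw [ef]; ring⟩, fun k => ?_⟩
  obtain ⟨c1, c2, c3, hc⟩ := μ_Ψ k
  rw [mul_assoc Ψ φ u, hc, hc]
  simp only [Er_add, Er_C_mul] at *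
  obtain ⟨a1, a2, a3, a4⟩ := h1 k
  obtain ⟨b1, b2, b3, b4⟩ := h1 (k + 1)
  obtain ⟨d1, d2, d3, d4⟩ := h1 (k + 2)
  obtain ⟨e1, e2, e3, e4⟩ := h1 (k + 3)
  exact ⟨Lat_add (Lat_add (Lat_add a1 (Lat_C _ b1)) (Lat_C _ d1)) (Lat_C _ e1),
    Lat_add (Lat_add (Lat_add a2 (Lat_C _ b2)) (Lat_C _ d2)) (Lat_C _ e2),
    Lat_add (Lat_add (Lat_add a3 (Lat_C _ b3)) (Lat_C _ d3)) (Lat_C _ e3),
    Lat_add (Lat_add (Lat_add a4 (Lat_C _ b4)) (Lat_C _ d4)) (Lat_C _ e4)⟩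

theorem K_Ψ_pow {φ : ℤ⟦X⟧} (h : K φ) (j : ℕ) : K (Ψ ^ j * φ) := by
  induction j with
  | zero => rwa [pow_zero, one_mul]
  | succ j ih => rw [pow_succ', mul_assoc]; exact K_Ψ ih

/-- list of `y^k f` -/
def shk (k : ℕ) (l : List (ℤ × ℤ)) : List (ℤ × ℤ) := List.replicate k (0, 0) ++ l

theorem ev_shk (k : ℕ) (l : List (ℤ × ℤ)) : ev (shk k l) = y ^ k * ev l := by
  unfold shk
  induction k with
  | zero => simp
  | succ k ih => rw [List.replicate_succ, List.cons_append, ev_cons, ih]; simp; ring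

theorem len_shk (k : ℕ) (l : List (ℤ × ℤ)) : (shk k l).length = k + l.length := by
  unfold shk; simp

/-- `Ψ^8 - 1` -/
def lD : List (ℤ × ℤ) := mul1^[8] []

/-- `(Ψ^8 - 1) u` -/
def lDu : List (ℤ × ℤ) := addL (mulP^[8] [(0, 1)]) [(0, -1)]

theorem ev_lD : ev lD = Ψ ^ 8 - 1 := by
  have h := ev_mul1_iter 8 []
  rw [ev_nil, add_zero, mul_one] at h
  unfold lD
  rw [← h]; ring

theorem ev_mulP_iter (j : ℕ) (l : List (ℤ × ℤ)) : ev (mulP^[j] l) = Ψ ^ j * ev l := by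
  induction j with
  | zero => simp
  | succ j ih => rw [Function.iterate_succ_apply', ev_mulP, ih]; ring

theorem ev_lDu : ev lDu = (Ψ ^ 8 - 1) * u := by
  unfold lDu
  rw [ev_addL, ev_mulP_iter]
  simp only [ev_cons, ev_nil, map_zero, map_one, map_neg, mul_zero, zero_mul, add_zero, zero_add]
  ring

theorem len_lD : lD.length = 24 ∧ lDu.length = 25 := by decide +kernel

theorem chk3 : ∀ k < 12,
    chk 128 64 64 (er 40 0 (smulL (μ k) (shk k lD))) = true ∧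
    chk 64 128 256 (er 40 1 (smulL (μ k) (shk k lD))) = true ∧
    chk 16 8 8 (er 40 0 (smulL (μ k) (shk k lDu))) = true ∧
    chk 8 16 32 (er 40 1 (smulL (μ k) (shk k lDu))) = true := by
  decide +kernel

theorem big (r : ℕ) (hr : r < 4) {w : ℤ⟦X⟧} (hw : Wy w) (A B : ℤ) :
    Lat A B 512 (Er r (y ^ 12 * w)) := by
  have e : y ^ 12 * w = y ^ 4 * (y ^ 8 * w) := by ring
  have e2 : Ψ * (y ^ 8 * w) = y ^ 4 * (y ^ 4 * (Ψ * w)) := by ring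
  have e3 : Ψ * (y ^ 4 * (Ψ * w)) = y ^ 4 * (Ψ * (Ψ * w)) := by ring
  rw [e, Er_y4 r hr, e2, Er_y4 r hr, e3, Er_y4 r hr]
  refine ⟨0, 0, _, Wy_y (Wy_y (Wy_Er r hr (Wy_Ψ (Wy_Ψ (Wy_Ψ hw))))), ?_⟩
  have c512 : (C 512 : ℤ⟦X⟧) = 512 := map_ofNat C 512
  rw [c512, c8]
  simp
  ring

theorem K_D : K (Ψ ^ 8 - 1) := by
  refine ⟨?_, fun k => ?_⟩
  · obtain ⟨Q, hQ, e⟩ := Ψ_pow 8
    exact ⟨_, Zy_add (Zy_c (4 * ((8 : ℕ) : ℤ))) (Zy_y hQ), by rw [e]; ring⟩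
  · rcases lt_or_ge k 12 with hk | hk
    · obtain ⟨h1, h2, h3, h4⟩ := chk3 k hk
      have l1 : (smulL (μ k) (shk k lD)).length ≤ 40 := by
        rw [length_smulL, len_shk, len_lD.1]; omega
      have l2 : (smulL (μ k) (shk k lDu)).length ≤ 40 := by
        rw [length_smulL, len_shk, len_lD.2]; omega
      have h1 := Lat_Er 40 0 (by norm_num) _ l1 h1
      have h2 := Lat_Er 40 1 (by norm_num) _ l1 h2
      have h3 := Lat_Er 40 0 (by norm_num) _ l2 h3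
      have h4 := Lat_Er 40 1 (by norm_num) _ l2 h4
      rw [ev_smulL, ev_shk, ev_lD] at h1 h2
      rw [ev_smulL, ev_shk, ev_lDu] at h3 h4
      exact ⟨h1, h2, h3, h4⟩
    · obtain ⟨i, rfl⟩ := Nat.exists_eq_add_of_le hk
      have hW1 : ∀ f, Wy f → Wy (y ^ i * f) := by
        intro f hf
        clear hk
        induction i with
        | zero => rwa [pow_zero, one_mul]
        | succ i ih => rw [pow_succ', mul_assoc]; exact Wy_y ih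
      have e1 : ∀ f : ℤ⟦X⟧, y ^ (12 + i) * f = y ^ 12 * (y ^ i * f) := fun f => by ring
      have w1 : Wy (y ^ i * (Ψ ^ 8 - 1)) := hW1 _ ⟨_, ev_lD⟩
      have w2 : Wy (y ^ i * ((Ψ ^ 8 - 1) * u)) := hW1 _ ⟨_, ev_lDu⟩
      rw [e1, e1]
      simp only [Er_C_mul]
      refine ⟨Lat_C _ (Lat_mono (big 0 (by norm_num) w1 128 64) ?_ ?_ ?_),
        Lat_C _ (Lat_mono (big 1 (by norm_num) w1 64 128) ?_ ?_ ?_),
        Lat_C _ (Lat_mono (big 0 (by norm_num) w2 16 8) ?_ ?_ ?_),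
        Lat_C _ (Lat_mono (big 1 (by norm_num) w2 8 16) ?_ ?_ ?_)⟩ <;> norm_num

theorem K_D_pow (i : ℕ) : K (Ψ ^ (8 * (i + 1)) - 1) := by
  induction i with
  | zero => exact K_D
  | succ i ih =>
    have e : Ψ ^ (8 * (i + 1 + 1)) - 1 = Ψ ^ 8 * (Ψ ^ (8 * (i + 1)) - 1) + (Ψ ^ 8 - 1) := by
      rw [show 8 * (i + 1 + 1) = 8 + 8 * (i + 1) by ring, pow_add]; ring
    rw [e]
    exact K_add (K_Ψ_pow ih 8) K_D

theorem K_zero : K 0 := by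
  refine ⟨⟨0, Zy_zero, by simp⟩, fun k => ?_⟩
  simp only [mul_zero, zero_mul, Er_zero]
  have h : ∀ A B H, Lat A B H 0 := fun A B H => ⟨0, 0, 0, Wy_zero, by simp⟩
  exact ⟨h _ _ _, h _ _ _, h _ _ _, h _ _ _⟩

theorem K_pow (i j : ℕ) : ∃ φ, K φ ∧ Ψ ^ (8 * i + j) = Ψ ^ j + φ := by
  cases i with
  | zero => exact ⟨0, K_zero, by simp⟩
  | succ i =>
    refine ⟨_, K_Ψ_pow (K_D_pow i) j, ?_⟩
    rw [pow_add]; ring

/-- states -/
theorem K_St {φ f : ℤ⟦X⟧} (hφ : K φ) (hf : Lat 128 8 64 f) :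
    Lat 128 64 64 (Er 0 (φ * (1 + f))) ∧ Lat 64 128 256 (Er 1 (φ * (1 + f))) := by
  obtain ⟨⟨ψ, hψ, eψ⟩, h⟩ := hφ
  obtain ⟨h1, h2, h3, h4⟩ := h 0
  have e0 : (C (μ 0) : ℤ⟦X⟧) = 1 := by
    have : μ 0 = 1 := by decide
    rw [this, map_one]
  rw [e0, pow_zero, one_mul, one_mul] at h1 h2 h3 h4
  obtain ⟨a, b, w, hw, rfl⟩ := hf
  have e : φ * (1 + (C (128 * a) * s + C (8 * b) * u + C 64 * (y * w))) =
      φ + C 128 * (C a * (y * (ψ * s))) + C 8 * (C b * (φ * u)) + C 64 * (y * (ψ * (y * w))) := by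
    have : φ * (C (128 * a) * s) = C 128 * (C a * (y * (ψ * s))) := by
      rw [eψ, map_mul]; ring
    have h2 : φ * (C 64 * (y * w)) = C 64 * (y * (ψ * (y * w))) := by rw [eψ]; ring
    rw [mul_add, mul_add, mul_add, this, h2, map_mul C 8 b]; ring
  rw [e]
  simp only [Er_add, Er_C_mul]
  have s0 := Er_yW 0 (by norm_num) (Zy_Wy hψ Wy_s)
  have s1 := Er_yW 1 (by norm_num) (Zy_Wy hψ Wy_s)
  have t0 := Er_yW 0 (by norm_num) (Zy_Wy hψ (Wy_y hw))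
  have t1 := Er_yW 1 (by norm_num) (Zy_Wy hψ (Wy_y hw))
  constructor
  · refine Lat_add (Lat_add (Lat_add h1 ?_) ?_) ?_
    · exact Lat_mono (Lat_Cm 128 (Lat_C a s0)) (by norm_num) (by norm_num) (by norm_num)
    · exact Lat_mono (Lat_Cm 8 (Lat_C b h3)) (by norm_num) (by norm_num) (by norm_num)
    · exact Lat_mono (Lat_Cm 64 t0) (by norm_num) (by norm_num) (by norm_num)
  · refine Lat_add (Lat_add (Lat_add h2 ?_) ?_) ?_
    · exact Lat_mono (Lat_Cm 128 (Lat_C a s1)) (by norm_num) (by norm_num) (by norm_num)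
    · exact Lat_mono (Lat_Cm 8 (Lat_C b h4)) (by norm_num) (by norm_num) (by norm_num)
    · exact Lat_mono (Lat_Cm 64 t1) (by norm_num) (by norm_num) (by norm_num)

theorem M0_step {f : ℤ⟦X⟧} (hf : Lat 128 64 64 f) (j : ℕ) :
    Lat 128 64 64 (Er 0 (Ψ ^ j * f)) ∧ Lat 64 128 256 (Er 1 (Ψ ^ j * f)) := by
  obtain ⟨a, b, w, hw, rfl⟩ := hf
  obtain ⟨Q, hQ, eQ⟩ := Ψ_pow j
  have hQ1 : Zy (C (4 * (j : ℤ)) + y * Q) := Zy_add (Zy_c _) (Zy_y hQ)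
  set q := C (4 * (j : ℤ)) + y * Q with hq
  have eq : Ψ ^ j = 1 + y * q := by rw [eQ, hq]; ring
  have hw2 : Wy (w + q * (C (2 * a) * s + C b * u + y * w)) :=
    Wy_add hw (Zy_Wy hQ1 (Wy_add (Wy_add (Wy_C _ Wy_s) (Wy_C _ Wy_u)) (Wy_y hw)))
  have e : Ψ ^ j * (C (128 * a) * s + C (64 * b) * u + C 64 * (y * w)) =
      C (128 * a) * s + C (64 * b) * u +
        C 64 * (y * (w + q * (C (2 * a) * s + C b * u + y * w))) := by
    have : (C (128 * a) : ℤ⟦X⟧) = C 64 * C (2 * a) := by rw [← map_mul]; ring_nf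
    rw [eq, this, map_mul C 64 b]; ring
  rw [e]
  simp only [Er_add, Er_C_mul]
  rw [Er_s 0 (by norm_num), Er_s 1 (by norm_num), Er_u 0 (by norm_num), Er_u 1 (by norm_num)]
  have t0 := Er_yW 0 (by norm_num) hw2
  have t1 := Er_yW 1 (by norm_num) hw2
  constructor
  · refine Lat_add ?_ (Lat_mono (Lat_Cm 64 t0) (by norm_num) (by norm_num) (by norm_num))
    refine ⟨a, 4 * b, 0, Wy_zero, ?_⟩
    simp only [map_mul, map_ofNat, Nat.cast_zero, map_zero]; ring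
  · refine Lat_add ?_ (Lat_mono (Lat_Cm 64 t1) (by norm_num) (by norm_num) (by norm_num))
    refine ⟨2 * a + b, 2 * b, 0, Wy_zero, ?_⟩
    simp only [map_mul, map_add, map_ofNat, Nat.cast_one, map_one]; ring

/-- exact computation of `T_0` on `1 + ev l` -/
def t0 (j k : ℕ) (l : List (ℤ × ℤ)) : List (ℤ × ℤ) := er k 0 (mul1^[j] l)

theorem t0_spec (j k : ℕ) (l : List (ℤ × ℤ)) (h : (mul1^[j] l).length ≤ k) :
    Er 0 (Ψ ^ j * (1 + ev l)) = 1 + ev (t0 j k l) := by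
  rw [← ev_mul1_iter, Er_add, Er_one.1, er_spec k 0 (by norm_num) _ h]; rfl

theorem t1_spec (j k : ℕ) (l : List (ℤ × ℤ)) (h : (mul1^[j] l).length ≤ k) :
    Er 1 (Ψ ^ j * (1 + ev l)) = ev (er k 1 (mul1^[j] l)) := by
  rw [← ev_mul1_iter, Er_add, Er_one.2, zero_add, er_spec k 1 (by norm_num) _ h]

/-- final check -/
def chkf (l : List (ℤ × ℤ)) : Bool := chk 64 128 256 (addL l [(0, -64)])

theorem chkf_spec {l : List (ℤ × ℤ)} (h : chkf l = true) :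
    ∃ m, Lat 64 128 256 m ∧ ev l = C 64 * u + m := by
  refine ⟨_, chk_spec h, ?_⟩
  rw [ev_addL]
  simp only [ev_cons, ev_nil, map_zero, map_neg, mul_zero, zero_mul, add_zero, zero_add]
  ring

theorem Cn_of {m : ℤ⟦X⟧} (h : Lat 64 128 256 m) : ∃ g, Cn g ∧ C 64 * u + m = C 64 * g := by
  obtain ⟨a, b, w, hw, rfl⟩ := h
  refine ⟨C a * s + C (1 + 2 * b) * u + C 4 * (y * w), ⟨_, _, _, hw, ⟨b, by ring⟩, rfl⟩, ?_⟩
  simp only [map_mul, map_add, map_ofNat, map_one]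
  have c256 : (C 256 : ℤ⟦X⟧) = 256 := map_ofNat C 256
  ring

theorem check7 : chk 128 8 64 (t0 7 30 []) = true ∧ (mul1^[7] []).length ≤ 30 ∧
    (mul1^[7] (t0 7 30 [])).length ≤ 60 ∧ chkf (er 60 1 (mul1^[7] (t0 7 30 []))) = true := by
  decide +kernel

theorem check3 : chk 128 8 64 (t0 3 20 []) = true ∧ (mul1^[3] []).length ≤ 20 ∧
    (mul1^[3] (t0 3 20 [])).length ≤ 40 ∧ chk 128 8 64 (t0 3 40 (t0 3 20 [])) = true ∧
    (mul1^[3] (t0 3 40 (t0 3 20 []))).length ≤ 60 ∧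
    chkf (er 60 1 (mul1^[3] (t0 3 40 (t0 3 20 [])))) = true := by
  decide +kernel

/-- transfer operators -/
noncomputable def Te (j r : ℕ) (f : ℤ⟦X⟧) : ℤ⟦X⟧ := Er r (Ψ ^ j * f)

theorem start7 (i : ℕ) : ∃ g, Cn g ∧ Te (8 * i + 7) 1 (Te (8 * i + 7) 0 1) = C 64 * g := by
  obtain ⟨φ, hφ, e⟩ := K_pow i 7
  obtain ⟨k1, k2, k3, k4⟩ := check7
  have hz : Lat 128 8 64 (ev []) := chk_spec rfl
  have h1 : Te (8 * i + 7) 0 1 = (1 + ev (t0 7 30 [])) + Er 0 (φ * (1 + ev [])) := by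
    have : (1 : ℤ⟦X⟧) = 1 + ev [] := by rw [ev_nil, add_zero]
    unfold Te
    conv_lhs => rw [this, e, add_mul, Er_add, t0_spec 7 30 [] k2]
  have hδ := (K_St hφ hz).1
  set δ := Er 0 (φ * (1 + ev [])) with hδd
  have h2 : Te (8 * i + 7) 1 (Te (8 * i + 7) 0 1) =
      ev (er 60 1 (mul1^[7] (t0 7 30 []))) + (Er 1 (φ * (1 + ev (t0 7 30 []))) +
        Er 1 (Ψ ^ (8 * i + 7) * δ)) := by
    rw [h1]
    unfold Te
    rw [mul_add, Er_add, e, add_mul, Er_add, t1_spec 7 60 _ k3]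
    ring
  obtain ⟨m, hm, em⟩ := chkf_spec k4
  rw [h2, em, add_assoc]
  exact Cn_of (Lat_add hm (Lat_add (K_St hφ (chk_spec k1)).2 (M0_step hδ _).2))

theorem start3 (i : ℕ) : ∃ g, Cn g ∧
    Te (8 * i + 3) 1 (Te (8 * i + 3) 0 (Te (8 * i + 3) 0 1)) = C 64 * g := by
  obtain ⟨φ, hφ, e⟩ := K_pow i 3
  obtain ⟨k1, k2, k3, k4, k5, k6⟩ := check3
  have hz : Lat 128 8 64 (ev []) := chk_spec rfl
  have h1 : Te (8 * i + 3) 0 1 = (1 + ev (t0 3 20 [])) + Er 0 (φ * (1 + ev [])) := by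
    have : (1 : ℤ⟦X⟧) = 1 + ev [] := by rw [ev_nil, add_zero]
    unfold Te
    conv_lhs => rw [this, e, add_mul, Er_add, t0_spec 3 20 [] k2]
  have hδ := (K_St hφ hz).1
  set δ := Er 0 (φ * (1 + ev [])) with hδd
  have h2 : Te (8 * i + 3) 0 (Te (8 * i + 3) 0 1) =
      (1 + ev (t0 3 40 (t0 3 20 []))) + (Er 0 (φ * (1 + ev (t0 3 20 []))) +
        Er 0 (Ψ ^ (8 * i + 3) * δ)) := by
    rw [h1]
    unfold Te
    rw [mul_add, Er_add, e, add_mul, Er_add, t0_spec 3 40 _ k3]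
    ring
  have hδ2 := Lat_add (K_St hφ (chk_spec k1)).1 (M0_step hδ (8 * i + 3)).1
  set δ2 := Er 0 (φ * (1 + ev (t0 3 20 []))) + Er 0 (Ψ ^ (8 * i + 3) * δ) with hδ2d
  have h3 : Te (8 * i + 3) 1 (Te (8 * i + 3) 0 (Te (8 * i + 3) 0 1)) =
      ev (er 60 1 (mul1^[3] (t0 3 40 (t0 3 20 [])))) +
        (Er 1 (φ * (1 + ev (t0 3 40 (t0 3 20 [])))) + Er 1 (Ψ ^ (8 * i + 3) * δ2)) := by
    rw [h2]
    unfold Te
    rw [mul_add, Er_add, e, add_mul, Er_add, t1_spec 3 60 _ k5]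
    ring
  obtain ⟨m, hm, em⟩ := chkf_spec k6
  rw [h3, em, add_assoc]
  exact Cn_of (Lat_add hm (Lat_add (K_St hφ (chk_spec k4)).2 (M0_step hδ2 _).2))

/-! ### reachability -/

theorem G_Ψ (j : ℕ) : G 4 (2 * j) = ex h4 (G 4 (2 * j)) * Ψ ^ j := by
  have h := G_eq' h4 (2 * j)
  have e : (1 - X ^ 4 : ℤ⟦X⟧) ^ (2 * j) * io ^ (4 * (2 * j)) = Ψ ^ j := by
    rw [Ψ_eq, ← pow_mul, pow_mul io 4, ← mul_pow]
  rw [e] at h
  exact h

theorem Er_G (j r : ℕ) (hr : r < 4) (f : ℤ⟦X⟧) :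
    Er r (G 4 (2 * j) * f) = G 4 (2 * j) * Te j r f := by
  have : G 4 (2 * j) * f = ex h4 (G 4 (2 * j)) * (Ψ ^ j * f) := by
    conv_lhs => rw [G_Ψ]
    ring
  rw [this, Er_ex_mul r hr]; rfl

/-- reachable elements -/
def Re (j : ℕ) (f : ℤ⟦X⟧) : Prop := ∃ L n0 : ℕ, ∀ N : ℕ,
  coeff (4 ^ L * N + n0) (G 4 (2 * j)) = coeff N (G 4 (2 * j) * f)

theorem Re_one (j : ℕ) : Re j 1 := ⟨0, 0, fun N => by simp⟩

theorem Re_step {j : ℕ} {f : ℤ⟦X⟧} (h : Re j f) (r : ℕ) (hr : r < 4) : Re j (Te j r f) := by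
  obtain ⟨L, n0, h⟩ := h
  refine ⟨L + 1, 4 ^ L * r + n0, fun N => ?_⟩
  rw [← Er_G j r hr, coeff_Er, ← h]
  congr 2
  ring

theorem Te_C (j r : ℕ) (c : ℤ) (f : ℤ⟦X⟧) : Te j r (C c * f) = C c * Te j r f := by
  unfold Te
  rw [mul_left_comm, Er_C_mul]

theorem climb (j : ℕ) {g : ℤ⟦X⟧} (hg : Cn g) (hr : Re j (C 64 * g)) (k : ℕ) :
    ∃ g', Cn g' ∧ Re j (C (64 * 4 ^ k) * g') := by
  induction k with
  | zero => exact ⟨g, hg, by simpa using hr⟩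
  | succ k ih =>
    obtain ⟨g', hg', hr'⟩ := ih
    obtain ⟨r, hr4, g'', hg'', e⟩ := cone j hg'
    refine ⟨g'', hg'', ?_⟩
    have h := Re_step hr' r hr4
    rw [Te_C] at h
    have e2 : C (64 * 4 ^ k) * Te j r g' = C (64 * 4 ^ (k + 1)) * g'' := by
      have : Te j r g' = C 4 * g'' := e
      rw [this, ← mul_assoc, ← map_mul]
      congr 2
      ring
    rw [e2] at h
    exact h

theorem unbounded (j : ℕ) (hj : j % 4 = 3) (k : ℕ) :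
    ∃ n, (4 : ℤ) ^ k ∣ coeff n (G 4 (2 * j)) := by
  have hs : ∃ g, Cn g ∧ Re j (C 64 * g) := by
    have h8 : j % 8 = 7 ∨ j % 8 = 3 := by omega
    rcases h8 with h | h
    · obtain ⟨g, hg, e⟩ := start7 (j / 8)
      have ej : 8 * (j / 8) + 7 = j := by omega
      rw [ej] at e
      refine ⟨g, hg, ?_⟩
      rw [← e]
      exact Re_step (Re_step (Re_one j) 0 (by norm_num)) 1 (by norm_num)
    · obtain ⟨g, hg, e⟩ := start3 (j / 8)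
      have ej : 8 * (j / 8) + 3 = j := by omega
      rw [ej] at e
      refine ⟨g, hg, ?_⟩
      rw [← e]
      exact Re_step (Re_step (Re_step (Re_one j) 0 (by norm_num)) 0 (by norm_num)) 1 (by norm_num)
  obtain ⟨g, hg, hr⟩ := hs
  obtain ⟨g', _, L, n0, h⟩ := climb j hg hr k
  refine ⟨4 ^ L * 0 + n0, ?_⟩
  rw [h 0]
  have e : G 4 (2 * j) * (C (64 * 4 ^ k) * g') = C (4 ^ k) * (C 64 * (G 4 (2 * j) * g')) := by
    rw [map_mul]; ring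
  rw [e, coeff_C_mul]
  exact dvd_mul_right _ _

end Pool.Agent.V11276.QA
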