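import Mathlib

/-! Sums `∑ (2k+1) X_k(w) X_k(w')` for `X_k(w) = ∑ C(k+i,2i) C(2i,i) w_i`. -/

namespace Pool.Agent.V11276.RA

open Finset

/-- `∑ C(k+i,2i) C(2i,i) w_i` -/
def X (w : ℕ → ℚ) (k : ℕ) : ℚ :=
  ∑ i ∈ range (k + 1), ((k + i).choose (2 * i) : ℚ) * ((2 * i).choose i : ℚ) * w i

theorem X_ext (w : ℕ → ℚ) (k N : ℕ) (h : k + 1 ≤ N) :
    X w k = ∑ i ∈ range N, ((k + i).choose (2 * i) : ℚ) * ((2 * i).choose i : ℚ) * w i := by
  unfold X
  refine sum_subset (range_mono h) fun i _ hi => ?_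
  have hi : ¬ i < k + 1 := by simpa using hi
  rw [Nat.choose_eq_zero_of_lt (by omega)]
  simp

/-- shift -/
def sh (w : ℕ → ℚ) : ℕ → ℚ := fun i => w (i + 1)

theorem cb (i : ℕ) : ((i : ℚ) + 1) * ((2 * (i + 1)).choose (i + 1) : ℚ) =
    2 * (2 * i + 1) * ((2 * i).choose i : ℚ) := by
  have h := Nat.succ_mul_centralBinom_succ i
  rw [Nat.centralBinom_eq_two_mul_choose, Nat.centralBinom_eq_two_mul_choose] at h
  exact_mod_cast h

theorem key (k i : ℕ) : (((k : ℚ) + 2) * ((k + 2 + (i + 1)).choose (2 * (i + 1)) : ℚ) -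
    (2 * k + 3) * ((k + 1 + (i + 1)).choose (2 * (i + 1)) : ℚ) +
    (k + 1) * ((k + (i + 1)).choose (2 * (i + 1)) : ℚ)) * ((2 * (i + 1)).choose (i + 1) : ℚ) =
    2 * (2 * k + 3) * (((k + 1 + i).choose (2 * i) : ℚ) * ((2 * i).choose i : ℚ)) := by
  set M := k + 1 + i with hM
  have e1 : k + 2 + (i + 1) = M + 1 + 1 := by omega
  have e2 : k + 1 + (i + 1) = M + 1 := by omega
  have e3 : k + (i + 1) = M := by omega
  have e4 : 2 * (i + 1) = 2 * i + 1 + 1 := by omega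
  have p1 : (M + 1 + 1).choose (2 * i + 1 + 1) = M.choose (2 * i) + 2 * M.choose (2 * i + 1) +
      M.choose (2 * i + 1 + 1) := by
    rw [Nat.choose_succ_succ' (M + 1), Nat.choose_succ_succ' M, Nat.choose_succ_succ' M]; ring
  have p2 : (M + 1).choose (2 * i + 1 + 1) = M.choose (2 * i + 1) + M.choose (2 * i + 1 + 1) :=
    Nat.choose_succ_succ' M _
  have p3 : (M.choose (2 * i + 1) : ℚ) * (2 * i + 1) = (M.choose (2 * i) : ℚ) * (k + 1 - i) := by
    have h := Nat.choose_succ_right_eq M (2 * i)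
    rcases le_or_gt i (k + 1) with h1 | h1
    · have h2 : M - 2 * i = k + 1 - i := by omega
      rw [h2] at h
      have h3 : ((M.choose (2 * i + 1) * (2 * i + 1) : ℕ) : ℚ) =
        ((M.choose (2 * i) * (k + 1 - i) : ℕ) : ℚ) := by rw [h]
      push_cast [Nat.cast_sub h1] at h3
      exact h3
    · rw [Nat.choose_eq_zero_of_lt (by omega : M < 2 * i + 1),
        Nat.choose_eq_zero_of_lt (by omega : M < 2 * i)]
      simp
  have hc := cb i
  rw [e1, e2, e3, e4, p1, p2] 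
  rw [e4] at hc
  push_cast
  have hi : ((i : ℚ) + 1) ≠ 0 := by positivity
  have hi2 : (2 * (i : ℚ) + 1) ≠ 0 := by positivity
  apply mul_left_cancel₀ hi
  apply mul_left_cancel₀ hi2
  linear_combination ((2 * i + 1) * ((k + 2) * (M.choose (2 * i) : ℚ) +
    (M.choose (2 * i + 1) : ℚ))) * hc + (2 * (2 * (i : ℚ) + 1) * ((2 * i).choose i : ℚ)) * p3

/-- three-term relation -/
theorem F1 (w : ℕ → ℚ) (k : ℕ) : ((k : ℚ) + 2) * X w (k + 2) - (2 * k + 3) * X w (k + 1) +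
    (k + 1) * X w k = 2 * (2 * k + 3) * X (sh w) (k + 1) := by
  rw [X_ext w (k + 2) (k + 3) (by omega), X_ext w (k + 1) (k + 3) (by omega),
    X_ext w k (k + 3) (by omega), X_ext (sh w) (k + 1) (k + 2) (by omega)]
  rw [mul_sum, mul_sum, mul_sum, mul_sum, ← sum_sub_distrib, ← sum_add_distrib,
    sum_range_succ' _ (k + 2)]
  have h0 : ((k : ℚ) + 2) * (((k + 2 + 0).choose (2 * 0) : ℚ) * ((2 * 0).choose 0 : ℚ) * w 0) -
      (2 * k + 3) * (((k + 1 + 0).choose (2 * 0) : ℚ) * ((2 * 0).choose 0 : ℚ) * w 0) +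
      (k + 1) * (((k + 0).choose (2 * 0) : ℚ) * ((2 * 0).choose 0 : ℚ) * w 0) = 0 := by
    simp; ring
  rw [h0, add_zero]
  refine sum_congr rfl fun i _ => ?_
  have h := key k i
  unfold sh
  linear_combination (w (i + 1)) * h

theorem X_zero (w : ℕ → ℚ) : X w 0 = w 0 := by simp [X]

theorem X_one (w : ℕ → ℚ) : X w 1 = w 0 + 2 * w 1 := by
  simp [X, sum_range_succ]

/-- weights `1/(2i-c)` -/
def wc (c : ℚ) : ℕ → ℚ := fun i => 1 / (2 * i - c)

theorem sh_wc (c : ℚ) : sh (wc c) = wc (c - 2) := by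
  funext i
  unfold sh wc
  push_cast
  congr 1
  ring

/-- all weights `1` -/
def one : ℕ → ℚ := fun _ => 1

theorem sh_one : sh one = one := rfl

/-- the first order relation -/
theorem star (c : ℚ) (hc : ∀ i : ℕ, 2 * (i : ℚ) - c ≠ 0) (k : ℕ) :
    (2 * k + 2 - c) * X (wc c) (k + 1) - (2 * k + 2 + c) * X (wc c) k =
      X one (k + 1) + X one k := by
  rw [X_ext (wc c) k (k + 2) (by omega), X_ext one k (k + 2) (by omega)]
  unfold X
  rw [mul_sum, mul_sum, ← sum_sub_distrib, ← sum_add_distrib]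
  refine sum_congr rfl fun i hi => ?_
  have hi : i < k + 1 + 1 := by simpa using hi
  have h := Nat.choose_mul_succ_eq (k + i) (2 * i)
  have h1 : (k + i).choose (2 * i) * (k + i + 1) =
      (k + 1 + i).choose (2 * i) * (k + 1 - i) := by
    rw [h, show k + i + 1 = k + 1 + i by ring, show k + 1 + i - 2 * i = k + 1 - i by omega]
  have h2 : (((k + i).choose (2 * i) * (k + i + 1) : ℕ) : ℚ) =
      (((k + 1 + i).choose (2 * i) * (k + 1 - i) : ℕ) : ℚ) := by rw [h1]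
  push_cast [Nat.cast_sub (show i ≤ k + 1 by omega)] at h2
  unfold wc one
  have hi' := hc i
  field_simp
  linear_combination (-2 * ((2 * i).choose i : ℚ)) * h2

/-- sums -/
def S (w w' : ℕ → ℚ) (n : ℕ) : ℚ := ∑ k ∈ range n, (2 * (k : ℚ) + 1) * (X w k * X w' k)

theorem S_succ (w w' : ℕ → ℚ) (n : ℕ) : S w w' (n + 1) = S w w' n +
    (2 * (n : ℚ) + 1) * (X w n * X w' n) := by
  unfold S; rw [sum_range_succ]

theorem S_zero (w w' : ℕ → ℚ) : S w w' 0 = 0 := by simp [S]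

theorem S_comm (w w' : ℕ → ℚ) (n : ℕ) : S w w' n = S w' w n := by
  unfold S
  exact sum_congr rfl fun k _ => by ring

/-- Christoffel-Darboux -/
theorem CD (w w' : ℕ → ℚ) (n : ℕ) : S (sh w) w' (n + 1) - S w (sh w') (n + 1) =
    ((n : ℚ) + 1) / 2 * (X w (n + 1) * X w' n - X w n * X w' (n + 1)) := by
  induction n with
  | zero =>
    rw [S_succ, S_succ, S_zero, S_zero, X_zero, X_zero, X_zero, X_zero, X_one, X_one]
    unfold sh
    push_cast
    ring
  | succ n ih =>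
    rw [S_succ (sh w), S_succ w]
    have h1 := F1 w n
    have h2 := F1 w' n
    push_cast
    linear_combination ih + (-(1 / 2 : ℚ) * X w' (n + 1)) * h1 + ((1 / 2 : ℚ) * X w (n + 1)) * h2

/-- second order relation -/
theorem rel (c : ℚ) (hc : ∀ i : ℕ, 2 * (i : ℚ) - c ≠ 0) (n : ℕ) :
    ((n : ℚ) + 2) ^ 2 * X (wc c) (n + 2) - (n + 1) ^ 2 * X (wc c) n =
    (2 * n + 3) * ((c + 1) * X (wc c) (n + 1) + c * X (sh (wc c)) (n + 1) +
      2 * X one (n + 1)) := by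
  have h1 := F1 (wc c) n
  have h2 := F1 one n
  rw [sh_one] at h2
  have h3 := star c hc n
  have h4 := star c hc (n + 1)
  push_cast at h4
  linear_combination (c / 2) * h1 + (1 / 2 : ℚ) * h2 + ((n : ℚ) + 1) / 2 * h3 +
    ((n : ℚ) + 2) / 2 * h4

/-- the scaling relation -/
theorem scal (c c' : ℚ) (hc : ∀ i : ℕ, 2 * (i : ℚ) - c ≠ 0) (hc' : ∀ i : ℕ, 2 * (i : ℚ) - c' ≠ 0)
    (n : ℕ) : ((c + c') / 2 + 1) * S (wc c) (wc c') (n + 1) +
      c / 2 * S (sh (wc c)) (wc c') (n + 1) + c' / 2 * S (wc c) (sh (wc c')) (n + 1) +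
      S (wc c) one (n + 1) + S (wc c') one (n + 1) =
    ((n : ℚ) + 1) ^ 2 / 2 * (X (wc c) (n + 1) * X (wc c') n + X (wc c) n * X (wc c') (n + 1)) := by
  induction n with
  | zero =>
    have x1 : ∀ w, X w (0 + 1) = w 0 + 2 * w 1 := X_one
    simp only [S_succ, S_zero, X_zero, x1]
    have a0 := hc 0
    have a1 := hc 1
    have b0 := hc' 0
    have b1 := hc' 1
    unfold sh wc one
    push_cast at *
    rw [mul_zero, zero_sub] at a0 b0
    have a0' : c ≠ 0 := neg_ne_zero.1 a0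
    have b0' : c' ≠ 0 := neg_ne_zero.1 b0
    norm_num at a1 b1 ⊢
    field_simp
    ring
  | succ n ih =>
    simp only [S_succ _ _ (n + 1)]
    have h1 := rel c hc n
    have h2 := rel c' hc' n
    push_cast
    linear_combination ih + (-(1 / 2 : ℚ) * X (wc c') (n + 1)) * h1 +
      (-(1 / 2 : ℚ) * X (wc c) (n + 1)) * h2

/-- the recursion in `c` -/
theorem recur (c : ℚ) (hc : ∀ i : ℕ, 2 * (i : ℚ) - c ≠ 0)
    (hc' : ∀ i : ℕ, 2 * (i : ℚ) - (c - 2) ≠ 0) (n : ℕ) :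
    (c + 1) * S (wc c) (wc c) (n + 1) = (c - 1) * S (wc (c - 2)) (wc (c - 2)) (n + 1) +
    ((n : ℚ) + 1) * (((n : ℚ) + 1) * (X (wc c) (n + 1) * X (wc c) n) -
      ((n : ℚ) + 1) / 2 * (X (wc (c - 2)) (n + 1) * X (wc c) n +
        X (wc (c - 2)) n * X (wc c) (n + 1)) +
      (c - 2) / 4 * (X (wc (c - 2)) (n + 1) * X (wc c) n -
        X (wc (c - 2)) n * X (wc c) (n + 1)) +
      1 / 2 * (X (wc c) (n + 1) * X one n - X (wc c) n * X one (n + 1))) := by
  have e1 := scal c c hc hc n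
  have e2 := scal (c - 2) c hc' hc n
  have e3 := CD (wc (c - 2)) (wc c) n
  have e4 := CD (wc c) one n
  rw [sh_one] at e4
  rw [sh_wc] at e1 e2 e3 e4
  rw [sh_wc] at e2 e3
  rw [S_comm (wc c) (wc (c - 2))] at e1
  linear_combination e1 - e2 + (c - 2) / 2 * e3 + e4

/-! ### integrality -/

/-- a rational number is an integer -/
def Z (x : ℚ) : Prop := ∃ z : ℤ, x = z

theorem Z_add {x y : ℚ} (hx : Z x) (hy : Z y) : Z (x + y) := by
  obtain ⟨a, rfl⟩ := hx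
  obtain ⟨b, rfl⟩ := hy
  exact ⟨a + b, by push_cast; ring⟩

theorem Z_mul {x y : ℚ} (hx : Z x) (hy : Z y) : Z (x * y) := by
  obtain ⟨a, rfl⟩ := hx
  obtain ⟨b, rfl⟩ := hy
  exact ⟨a * b, by push_cast; ring⟩

theorem Z_sub {x y : ℚ} (hx : Z x) (hy : Z y) : Z (x - y) := by
  obtain ⟨a, rfl⟩ := hx
  obtain ⟨b, rfl⟩ := hy
  exact ⟨a - b, by push_cast; ring⟩

theorem Z_nat (n : ℕ) : Z (n : ℚ) := ⟨n, by push_cast; rfl⟩

theorem Z_int (n : ℤ) : Z (n : ℚ) := ⟨n, rfl⟩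

theorem Z_ofNat (n : ℕ) [n.AtLeastTwo] : Z (OfNat.ofNat n : ℚ) := ⟨OfNat.ofNat n, by simp⟩

theorem Z_one : Z 1 := ⟨1, by simp⟩

theorem Z_sum {f : ℕ → ℚ} (N : ℕ) (h : ∀ i < N, Z (f i)) : Z (∑ i ∈ range N, f i) := by
  induction N with
  | zero => exact ⟨0, by simp⟩
  | succ N ih =>
    rw [sum_range_succ]
    exact Z_add (ih fun i hi => h i (by omega)) (h N (by omega))

/-- the odd double factorial `(2r+1)!!` -/
def N (r : ℕ) : ℚ := ((2 * r + 1).doubleFactorial : ℚ)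

theorem N_zero : N 0 = 1 := by simp [N, Nat.doubleFactorial]

theorem N_succ (r : ℕ) : N (r + 1) = (2 * (r : ℚ) + 3) * N r := by
  unfold N
  rw [show 2 * (r + 1) + 1 = 2 * r + 1 + 2 by ring, Nat.doubleFactorial_add_two]
  push_cast; ring

theorem N_pos (r : ℕ) : 0 < N r := by
  unfold N; exact_mod_cast Nat.doubleFactorial_pos _

theorem Z_N (r : ℕ) : Z (N r) := Z_nat _

theorem odd_ne (r i : ℕ) : 2 * (i : ℚ) - (2 * r + 1) ≠ 0 := by
  intro h
  have h2 : ((2 * i : ℕ) : ℚ) = ((2 * r + 1 : ℕ) : ℚ) := by push_cast; linarith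
  have h3 : 2 * i = 2 * r + 1 := by exact_mod_cast h2
  omega

theorem odd_ne' (i : ℕ) : 2 * (i : ℚ) - (-1) ≠ 0 := by
  have : (0 : ℚ) ≤ i := by positivity
  intro h; linarith

theorem Z_cb (r i : ℕ) : Z (N r * (((2 * i).choose i : ℚ) * (1 / (2 * (i : ℚ) - (2 * r + 1))))) := by
  induction r generalizing i with
  | zero =>
    rw [N_zero, one_mul]
    cases i with
    | zero => exact ⟨-1, by norm_num⟩
    | succ i =>
      have h := cb i
      have hi : ((i : ℚ) + 1) ≠ 0 := by positivity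
      have hi2 : (2 * (i : ℚ) + 1) ≠ 0 := by positivity
      have e : ((2 * (i + 1)).choose (i + 1) : ℚ) * (1 / (2 * ((i + 1 : ℕ) : ℚ) -
          (2 * ((0 : ℕ) : ℚ) + 1))) = 4 * ((2 * i).choose i : ℚ) -
          ((2 * (i + 1)).choose (i + 1) : ℚ) := by
        have e1 : (2 * ((i + 1 : ℕ) : ℚ) - (2 * ((0 : ℕ) : ℚ) + 1)) = 2 * (i : ℚ) + 1 := by
          push_cast; ring
        rw [e1]
        field_simp
        linear_combination 2 * h
      rw [e]
      exact Z_sub (Z_mul (Z_ofNat 4) (Z_nat _)) (Z_nat _)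
  | succ r ih =>
    rw [N_succ]
    cases i with
    | zero =>
      have h : (2 * (r : ℚ) + 3) ≠ 0 := by positivity
      have e : (2 * (r : ℚ) + 3) * N r * (((2 * 0).choose 0 : ℚ) *
          (1 / (2 * ((0 : ℕ) : ℚ) - (2 * ((r + 1 : ℕ) : ℚ) + 1)))) = -N r := by
        have e1 : (2 * ((0 : ℕ) : ℚ) - (2 * ((r + 1 : ℕ) : ℚ) + 1)) = -(2 * (r : ℚ) + 3) := by
          push_cast; ring
        have e2 : ((2 * 0).choose 0 : ℚ) = 1 := by norm_num
        rw [e1, e2]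
        field_simp
      rw [e]
      obtain ⟨z, hz⟩ := Z_N r
      exact ⟨-z, by rw [hz]; push_cast; ring⟩
    | succ i =>
      have h := cb i
      have hi : ((i : ℚ) + 1) ≠ 0 := by positivity
      have hi2 := odd_ne r i
      have e : (2 * (r : ℚ) + 3) * N r * (((2 * (i + 1)).choose (i + 1) : ℚ) *
          (1 / (2 * ((i + 1 : ℕ) : ℚ) - (2 * ((r + 1 : ℕ) : ℚ) + 1)))) =
          N r * (4 * ((2 * i).choose i : ℚ) - ((2 * (i + 1)).choose (i + 1) : ℚ)) +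
          4 * (2 * (r : ℚ) + 2) * (N r * (((2 * i).choose i : ℚ) *
            (1 / (2 * (i : ℚ) - (2 * r + 1))))) := by
        have e1 : (2 * ((i + 1 : ℕ) : ℚ) - (2 * ((r + 1 : ℕ) : ℚ) + 1)) =
            (2 * (i : ℚ) - (2 * r + 1)) := by
          push_cast; ring
        rw [e1]
        field_simp
        linear_combination (2 * N r) * h
      rw [e]
      exact Z_add (Z_mul (Z_N r) (Z_sub (Z_mul (Z_ofNat 4) (Z_nat _)) (Z_nat _)))
        (Z_mul (Z_mul (Z_ofNat 4) (Z_add (Z_mul (Z_ofNat 2) (Z_nat _)) (Z_ofNat 2))) (ih i))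

/-- integrality of the values -/
theorem Z_X (r k : ℕ) : Z (N r * X (wc (2 * r + 1)) k) := by
  unfold X
  rw [mul_sum]
  refine Z_sum _ fun i _ => ?_
  have h := Z_cb r i
  have e : N r * (((k + i).choose (2 * i) : ℚ) * ((2 * i).choose i : ℚ) * wc (2 * r + 1) i) =
      ((k + i).choose (2 * i) : ℚ) * (N r * (((2 * i).choose i : ℚ) *
        (1 / (2 * (i : ℚ) - (2 * r + 1))))) := by
    unfold wc; ring
  rw [e]
  exact Z_mul (Z_nat _) h

theorem Z_D (k : ℕ) : Z (X one k) := by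
  unfold X one
  refine Z_sum _ fun i _ => ?_
  exact Z_mul (Z_mul (Z_nat _) (Z_nat _)) Z_one

/-- `(2k+1) U_k` is an integer -/
theorem Z_V (k : ℕ) : Z ((2 * (k : ℚ) + 1) * X (wc (-1)) k) := by
  induction k with
  | zero => exact ⟨1, by rw [X_zero]; unfold wc; norm_num⟩
  | succ k ih =>
    have h := star (-1) odd_ne' k
    have e : (2 * ((k + 1 : ℕ) : ℚ) + 1) * X (wc (-1)) (k + 1) =
        (2 * (k : ℚ) + 1) * X (wc (-1)) k + (X one (k + 1) + X one k) := by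
      push_cast
      linear_combination h
    rw [e]
    exact Z_add ih (Z_add (Z_D _) (Z_D _))

/-- the main integrality statement: `8 (r+1) ((2r+1)!!)^2 S_{n,r}` is divisible by `n`. -/
theorem main (r n : ℕ) : ∃ z : ℤ, 4 * (N r) ^ 2 * ((2 * r + 2) * S (wc (2 * r + 1))
    (wc (2 * r + 1)) (n + 1)) = ((n : ℚ) + 1) * z := by
  induction r with
  | zero =>
    have h := recur 1 (fun i => by simpa using odd_ne 0 i) (fun i => by
      have := odd_ne' i; norm_num at this ⊢; exact this) n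
    norm_num only at h
    have hx : ∀ k, Z (X (wc 1) k) := fun k => by
      have := Z_X 0 k
      rw [N_zero, one_mul] at this
      simpa using this
    obtain ⟨z, hz⟩ : Z (4 * ((n : ℚ) + 1) * (X (wc 1) (n + 1) * X (wc 1) n) -
        (((2 * ((n + 1 : ℕ) : ℚ) + 1) * X (wc (-1)) (n + 1)) * X (wc 1) n +
        ((2 * (n : ℚ) + 1) * X (wc (-1)) n) * X (wc 1) (n + 1)) +
        2 * (X (wc 1) (n + 1) * X one n - X (wc 1) n * X one (n + 1))) := by
      refine Z_add (Z_sub (Z_mul (Z_mul (Z_ofNat 4) (Z_add (Z_nat _) Z_one))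
        (Z_mul (hx _) (hx _))) (Z_add (Z_mul (Z_V _) (hx _)) (Z_mul (Z_V _) (hx _)))) ?_
      exact Z_mul (Z_ofNat 2) (Z_sub (Z_mul (hx _) (Z_D _)) (Z_mul (hx _) (Z_D _)))
    refine ⟨z, ?_⟩
    rw [← hz, N_zero]
    push_cast
    norm_num only
    linear_combination 4 * h
  | succ r ih =>
    obtain ⟨z, hz⟩ := ih
    have hc : (2 * ((r + 1 : ℕ) : ℚ) + 1) = 2 * (r : ℚ) + 3 := by push_cast; ring
    have hc2 : (2 * (r : ℚ) + 3) - 2 = 2 * (r : ℚ) + 1 := by ring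
    have h := recur (2 * (r : ℚ) + 3) (fun i => by rw [← hc]; exact odd_ne (r + 1) i)
      (fun i => by rw [hc2]; exact odd_ne r i) n
    rw [hc2] at h
    have hx : ∀ k, Z (N (r + 1) * X (wc (2 * (r : ℚ) + 3)) k) := fun k => by
      rw [← hc]; exact Z_X (r + 1) k
    have hy : ∀ k, Z (N (r + 1) * X (wc (2 * (r : ℚ) + 1)) k) := fun k => by
      rw [N_succ, mul_assoc]
      exact Z_mul (Z_add (Z_mul (Z_ofNat 2) (Z_nat _)) (Z_ofNat 3)) (Z_X r k)
    rw [hc]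
    have hN : N (r + 1) = (2 * (r : ℚ) + 3) * N r := N_succ r
    have hd := Z_D n
    have hd1 := Z_D (n + 1)
    obtain ⟨x1, hx1⟩ := hx (n + 1)
    obtain ⟨x0, hx0⟩ := hx n
    obtain ⟨y1, hy1⟩ := hy (n + 1)
    obtain ⟨y0, hy0⟩ := hy n
    obtain ⟨d1, hd1⟩ := hd1
    obtain ⟨d0, hd0⟩ := hd
    obtain ⟨m, hm⟩ := Z_N (r + 1)
    refine ⟨(2 * (r : ℤ) + 3) ^ 2 * z + (4 * ((n : ℤ) + 1) * (x1 * x0) -
      2 * ((n : ℤ) + 1) * (y1 * x0 + y0 * x1) + (2 * (r : ℤ) + 1) * (y1 * x0 - y0 * x1) +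
      2 * m * (x1 * d0 - x0 * d1)), ?_⟩
    push_cast
    rw [← hx1, ← hx0, ← hy1, ← hy0, ← hd1, ← hd0, ← hm]
    have h' : 4 * N (r + 1) ^ 2 * ((2 * (r : ℚ) + 3 - 1) *
        S (wc (2 * (r : ℚ) + 1)) (wc (2 * (r : ℚ) + 1)) (n + 1)) =
        (2 * (r : ℚ) + 3) ^ 2 * (((n : ℚ) + 1) * z) := by
      rw [← hz, hN]; ring
    linear_combination 4 * N (r + 1) ^ 2 * h + h'

end Pool.Agent.V11276.RA
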