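import Pool.Agent.V11276.RA

/-! The sequences `R_k`, `W_k`: recurrences and closed forms. -/

namespace Pool.Agent.V11276.RA

open Finset

theorem ne1 (i : ℕ) : 2 * (i : ℚ) - 1 ≠ 0 := by have := odd_ne 0 i; simpa using this
theorem ne3 (i : ℕ) : 2 * (i : ℚ) - 3 ≠ 0 := by
  have := odd_ne 1 i; norm_num at this ⊢; exact this

/-- `4 D_{n+1}` -/
theorem D_of_R (n : ℕ) : 4 * X one (n + 1) = ((n : ℚ) + 2) * X (wc 1) (n + 2) -
    3 * X (wc 1) (n + 1) - (n + 1) * X (wc 1) n := by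
  have h1 := rel 1 ne1 n
  have h2 := F1 (wc 1) n
  have h : (2 * (n : ℚ) + 3) ≠ 0 := by positivity
  apply mul_left_cancel₀ h
  linear_combination (-2 : ℚ) * h1 + h2

theorem R_rec (n : ℕ) : ((n : ℚ) + 3) * X (wc 1) (n + 3) = (7 * n + 13) * X (wc 1) (n + 2) -
    (7 * n + 15) * X (wc 1) (n + 1) + (n + 1) * X (wc 1) n := by
  have h1 := D_of_R n
  have h2 := D_of_R (n + 1)
  have h3 := star 1 ne1 (n + 1)
  push_cast at h2 h3
  linear_combination -4 * h3 - h1 - h2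

theorem R_vals : X (wc 1) 0 = -1 ∧ X (wc 1) 1 = 1 ∧ X (wc 1) 2 = 7 := by
  have h := R_rec 0
  refine ⟨?_, ?_, ?_⟩
  · rw [X_zero]; unfold wc; norm_num
  · rw [X_one]; unfold wc; norm_num
  · unfold X wc
    simp [sum_range_succ, Nat.choose]
    norm_num

/-- closed form for `∑ (2k+1) R_k^2` -/
theorem closed1 (n : ℕ) : 8 * S (wc 1) (wc 1) (n + 2) = ((n : ℚ) + 2) *
    ((7 * n + 15) * X (wc 1) (n + 1) ^ 2 - (n + 1) * (X (wc 1) (n + 2) * X (wc 1) (n + 1) +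
      X (wc 1) (n + 2) * X (wc 1) n + X (wc 1) (n + 1) * X (wc 1) n)) := by
  induction n with
  | zero =>
    obtain ⟨h0, h1, h2⟩ := R_vals
    rw [S_succ, S_succ, S_zero, zero_add, zero_add, h0, h1, h2]
    norm_num
  | succ n ih =>
    rw [S_succ _ _ (n + 2)]
    have h := R_rec n
    push_cast
    linear_combination ih + ((n : ℚ) + 2) * (X (wc 1) (n + 2) + X (wc 1) (n + 1)) * h

/-- `X^{(3)}` in terms of `R` -/
theorem X3_of_R (n : ℕ) : 18 * X (wc 3) (n + 2) =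
    (6 - 7 * ((n : ℚ) + 2) - 2 * (n + 2) ^ 2) * X (wc 1) (n + 2) +
    (3 + 24 * ((n : ℚ) + 2) + 12 * (n + 2) ^ 2) * X (wc 1) (n + 1) +
    (3 - ((n : ℚ) + 2) - 2 * (n + 2) ^ 2) * X (wc 1) n := by
  have f := F1 (wc 3) (n + 1)
  have s0 := star 3 ne3 (n + 1)
  have s1 := star 3 ne3 (n + 2)
  have t0 := star 1 ne1 (n + 1)
  have t1 := star 1 ne1 (n + 2)
  have r := R_rec n
  have e : sh (wc 3) = wc 1 := by rw [sh_wc]; norm_num
  rw [e] at f
  push_cast at f s0 s1 t0 t1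
  have h : (2 * (n : ℚ) + 5) ≠ 0 := by positivity
  apply mul_left_cancel₀ h
  linear_combination ((2 * n + 3) * (2 * n + 7)) * f - ((n + 3) * (2 * n + 7)) * s1 +
    ((n + 2) * (2 * n + 3)) * s0 + ((n + 3) * (2 * n + 7)) * t1 - ((n + 2) * (2 * n + 3)) * t0 -
    ((2 * n + 7) * (2 * n + 5)) * r

end Pool.Agent.V11276.RA
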