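import Pool.Agent.V11276.RB

/-! The sequence `R_k` modulo `256`. -/

namespace Pool.Agent.V11276.RS

open PowerSeries
open Pool.Agent.V11276.RA (wc Z_X N_zero R_vals R_rec Z)


theorem exRz : ∀ k : ℕ, ∃ z : ℤ, Pool.Agent.V11276.RA.X (wc 1) k = z := fun k => by
  have h := Z_X 0 k
  rw [N_zero, one_mul] at h
  have h2 : Z (Pool.Agent.V11276.RA.X (wc 1) k) := by simpa using h
  exact h2

/-- the integers `R_k` -/
noncomputable def Rz (k : ℕ) : ℤ := (exRz k).choose

theorem Rz_eq (k : ℕ) : Pool.Agent.V11276.RA.X (wc 1) k = Rz k := (exRz k).choose_spec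

theorem Rz_vals : Rz 0 = -1 ∧ Rz 1 = 1 ∧ Rz 2 = 7 := by
  obtain ⟨h0, h1, h2⟩ := R_vals
  rw [Rz_eq] at h0 h1 h2
  refine ⟨?_, ?_, ?_⟩
  · exact_mod_cast h0
  · exact_mod_cast h1
  · exact_mod_cast h2

theorem Rz_rec (n : ℕ) : ((n : ℤ) + 3) * Rz (n + 3) = (7 * n + 13) * Rz (n + 2) -
    (7 * n + 15) * Rz (n + 1) + (n + 1) * Rz n := by
  have h := R_rec n
  rw [Rz_eq, Rz_eq, Rz_eq, Rz_eq] at h
  exact_mod_cast h

/-- generating function -/
noncomputable def y : ℤ⟦X⟧ := mk Rz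

theorem ode : (1 - X) * (1 - 6 * X + X ^ 2) * d⁄dX ℤ y = (X ^ 2 - 8 * X - 1) * y := by
  have e1 : (1 - X) * (1 - 6 * X + X ^ 2) * d⁄dX ℤ y = d⁄dX ℤ y - C 7 * (X ^ 1 * d⁄dX ℤ y) +
      C 7 * (X ^ 2 * d⁄dX ℤ y) - X ^ 3 * d⁄dX ℤ y := by
    have : (C 7 : ℤ⟦X⟧) = 7 := map_ofNat C 7
    rw [this]; ring
  have e2 : (X ^ 2 - 8 * X - 1) * y = X ^ 2 * y - C 8 * (X ^ 1 * y) - y := by
    have : (C 8 : ℤ⟦X⟧) = 8 := map_ofNat C 8
    rw [this]; ring
  rw [e1, e2]
  obtain ⟨h0, h1, h2⟩ := Rz_vals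
  ext m
  simp only [map_sub, map_add, coeff_C_mul, coeff_X_pow_mul', coeff_derivative]
  unfold y
  simp only [coeff_mk]
  match m with
  | 0 => simp [h0, h1]
  | 1 => simp [h0, h1, h2]
  | m + 2 =>
    have h := Rz_rec m
    have i1 : 1 ≤ m + 2 := by omega
    have i2 : 2 ≤ m + 2 := by omega
    simp only [if_pos i1, if_pos i2]
    rw [show m + 2 - 1 = m + 1 by omega, show m + 2 - 2 = m by omega]
    by_cases h3 : 3 ≤ m + 2
    · rw [if_pos h3, show m + 2 - 3 = m - 1 by omega, show m - 1 + 1 = m by omega]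
      have : ((m - 1 : ℕ) : ℤ) = m - 1 := by omega
      rw [this]
      push_cast
      linear_combination h
    · have hm : m = 0 := by omega
      subst hm
      rw [if_neg h3]
      push_cast at h ⊢
      linear_combination h

theorem constantCoeff_y : constantCoeff y = -1 := by
  rw [← coeff_zero_eq_constantCoeff_apply]
  unfold y
  rw [coeff_mk]
  exact Rz_vals.1

theorem y_sq : y ^ 2 * (1 - X) ^ 4 = 1 - 6 * X + X ^ 2 := by
  set q : ℤ⟦X⟧ := 1 - 6 * X + X ^ 2 with hq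
  set Q : ℤ⟦X⟧ := y ^ 2 * (1 - X) ^ 4 with hQ
  have hq0 : constantCoeff q = 1 := by rw [hq]; simp
  have hQ0 : constantCoeff Q = 1 := by rw [hQ]; simp [constantCoeff_y]
  have hqi : q * invOfUnit q 1 = 1 := mul_invOfUnit _ _ (by rw [hq0]; simp)
  have dq : d⁄dX ℤ q = 2 * X - 6 := by
    rw [hq]
    have : (6 : ℤ⟦X⟧) = C 6 := (map_ofNat C 6).symm
    simp only [map_add, map_sub, Derivation.leibniz, Derivation.leibniz_pow, smul_eq_mul,
      derivative_X, this, derivative_C]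
    simp
    ring
  have dQ : d⁄dX ℤ Q = 2 * y * d⁄dX ℤ y * (1 - X) ^ 4 - 4 * y ^ 2 * (1 - X) ^ 3 := by
    rw [hQ]
    simp only [map_sub, Derivation.leibniz, Derivation.leibniz_pow, smul_eq_mul,
      derivative_X]
    simp
    ring
  have h1 : q * d⁄dX ℤ Q = d⁄dX ℤ q * Q := by
    rw [dQ, dq, hQ]
    linear_combination (2 * y * (1 - X) ^ 3) * ode
  have h2 : d⁄dX ℤ (q * invOfUnit q 1) = 0 := by rw [hqi]; simp
  rw [Derivation.leibniz, smul_eq_mul, smul_eq_mul] at h2
  have h3 : d⁄dX ℤ (Q * invOfUnit q 1) = 0 := by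
    rw [Derivation.leibniz, smul_eq_mul, smul_eq_mul]
    have hq1 : q ≠ 0 := fun h => by rw [h] at hq0; simp at hq0
    apply mul_left_cancel₀ hq1
    linear_combination Q * h2 + invOfUnit q 1 * h1
  have h4 : Q * invOfUnit q 1 = 1 := by
    apply derivative.ext
    · rw [h3]; simp
    · rw [map_mul, hQ0]; simp
  linear_combination q * h4 - Q * hqi

/-! ### square roots modulo powers of two -/

theorem even_iff (f : ℤ⟦X⟧) : PowerSeries.map (Int.castRingHom (ZMod 2)) f = 0 ↔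
    ∃ g, f = C 2 * g := by
  constructor
  · intro h
    have h1 : ∀ n, (2 : ℤ) ∣ coeff n f := fun n => by
      have := congrArg (coeff n) h
      rw [coeff_map, map_zero] at this
      exact (ZMod.intCast_zmod_eq_zero_iff_dvd _ 2).1 this
    choose g hg using h1
    exact ⟨mk g, by ext n; rw [coeff_C_mul, coeff_mk, hg n]⟩
  · rintro ⟨g, rfl⟩
    rw [map_mul]
    have : PowerSeries.map (Int.castRingHom (ZMod 2)) (C 2) = 0 := by
      rw [PowerSeries.map_C]
      have : (Int.castRingHom (ZMod 2)) 2 = 0 := by decide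
      rw [this, map_zero]
    rw [this, zero_mul]

theorem sqrt_mod (n : ℕ) (a b h : ℤ⟦X⟧) (e : a ^ 2 - b ^ 2 = C (2 ^ (n + 1)) * h)
    (hc : constantCoeff a = constantCoeff b) (hb : ¬ (2 : ℤ) ∣ constantCoeff b) (hn : 1 ≤ n) :
    ∀ j ≤ n, ∃ δ, a - b = C (2 ^ j) * δ := by
  have c2 : ∀ k : ℕ, (C (2 ^ k) : ℤ⟦X⟧) = 2 ^ k := fun k => by rw [map_pow, map_ofNat]
  have two : (C 2 : ℤ⟦X⟧) = 2 := map_ofNat C 2
  have h2 : (2 : ℤ⟦X⟧) ≠ 0 := by
    intro h
    have := congrArg (coeff 0) h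
    rw [← two, coeff_C] at this
    simp at this
  intro j
  induction j with
  | zero => intro _; exact ⟨a - b, by simp⟩
  | succ j ih =>
    intro hj
    obtain ⟨δ, hδ⟩ := ih (by omega)
    rw [c2] at hδ e
    obtain ⟨i, hi⟩ : ∃ i, n = j + 1 + i := ⟨n - (j + 1), by omega⟩
    have key : PowerSeries.map (Int.castRingHom (ZMod 2)) δ = 0 := by
      rcases Nat.eq_zero_or_pos j with rfl | hj0
      · have h3 : ∃ g, δ * δ = C 2 * g := by
          refine ⟨2 ^ (n) * h - b * δ, ?_⟩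
          rw [two]
          rw [pow_zero, one_mul] at hδ
          have ha : a = b + δ := by rw [← hδ]; ring
          rw [ha, pow_succ] at e
          linear_combination e
        rw [← even_iff, map_mul] at h3
        exact mul_self_eq_zero.1 h3
      · obtain ⟨k, rfl⟩ : ∃ k, j = k + 1 := ⟨j - 1, by omega⟩
        have h3 : δ * (b + 2 ^ k * δ) = C 2 * (2 ^ i * h) := by
          rw [two]
          have ha : a = b + 2 ^ (k + 1) * δ := by rw [← hδ]; ring
          apply mul_left_cancel₀ (pow_ne_zero (k + 2) h2)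
          rw [ha, hi] at e
          rw [show k + 1 + 1 + i + 1 = (k + 2) + (i + 1) by ring, pow_add 2 (k + 2) (i + 1)] at e
          rw [pow_succ 2 i] at e
          have e3 : (2 : ℤ⟦X⟧) ^ (k + 2) = 2 ^ k * 4 := by rw [pow_add]; norm_num
          have e4 : (2 : ℤ⟦X⟧) ^ (k + 1) = 2 ^ k * 2 := by rw [pow_succ]
          rw [e4, e3] at e
          rw [e3]
          linear_combination e
        have h4 := (even_iff _).2 ⟨_, h3⟩
        rw [map_mul] at h4
        rcases mul_eq_zero.1 h4 with h5 | h5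
        · exact h5
        · exfalso
          obtain ⟨g, hg⟩ := (even_iff _).1 h5
          have h6 := congrArg constantCoeff hg
          have h7 : constantCoeff δ = 0 := by
            have := congrArg constantCoeff hδ
            rw [map_sub, hc, sub_self, map_mul, map_pow, map_ofNat] at this
            have h8 : (2 : ℤ) ^ (k + 1) ≠ 0 := by positivity
            exact (mul_eq_zero.1 this.symm).resolve_left h8
          rw [map_add, map_mul, h7, mul_zero, add_zero, map_mul, constantCoeff_C] at h6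
          exact hb ⟨_, h6⟩
    obtain ⟨g, hg⟩ := (even_iff δ).1 key
    exact ⟨g, by rw [c2, hδ, hg, two, pow_succ]; ring⟩

/-- numerator -/
noncomputable def Apol : ℤ⟦X⟧ := (1 + X) ^ 10 - 4 * X * (1 + X) ^ 8 - 8 * X ^ 2 * (1 + X) ^ 6 -
  32 * X ^ 3 * (1 + X) ^ 4 - 160 * X ^ 4 * (1 + X) ^ 2 - 896 * X ^ 5

theorem yDen : ∃ δ, y * ((1 - X) ^ 2 * (1 + X) ^ 9) - (-Apol) = C (2 ^ 8) * δ := by
  refine sqrt_mod 8 _ _ (-(21 * X ^ 6 * (1 + X) ^ 8 + 48 * X ^ 7 * (1 + X) ^ 6 +
    162 * X ^ 8 * (1 + X) ^ 4 + 560 * X ^ 9 * (1 + X) ^ 2 + 1568 * X ^ 10)) ?_ ?_ ?_ (by norm_num)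
    8 le_rfl
  · have h := y_sq
    have : (C (2 ^ (8 + 1)) : ℤ⟦X⟧) = 512 := by norm_num
    rw [this]
    unfold Apol
    linear_combination ((1 + X) ^ 18) * h
  · unfold Apol
    simp [constantCoeff_y]
  · unfold Apol
    simp

/-- coefficients of the denominator -/
def dl : List ℤ := [1, 7, 19, 21, -6, -42, -42, -6, 21, 19, 7, 1]

/-- coefficients of the numerator -/
def al : List ℤ := [1, 6, 5, -72, -422, -1596, -422, -72, 5, 6, 1]

theorem Apol_eq : Apol = ∑ i ∈ Finset.range 11, C (al.getD i 0) * X ^ i := by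
  unfold Apol al
  simp only [Finset.sum_range_succ, Finset.sum_range_zero, List.getD_cons_zero,
    List.getD_cons_succ, map_neg, map_one, map_ofNat]
  ring

theorem Den_eq : ((1 - X) ^ 2 * (1 + X) ^ 9 : ℤ⟦X⟧) =
    ∑ i ∈ Finset.range 12, C (dl.getD i 0) * X ^ i := by
  unfold dl
  simp only [Finset.sum_range_succ, Finset.sum_range_zero, List.getD_cons_zero,
    List.getD_cons_succ, map_neg, map_one, map_ofNat]
  ring

theorem lin_rec (k : ℕ) : (256 : ℤ) ∣ ∑ i ∈ Finset.range 12, dl.getD i 0 * Rz (k + 11 - i) := by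
  obtain ⟨δ, h⟩ := yDen
  rw [Den_eq, Apol_eq] at h
  have h2 := congrArg (coeff (k + 11)) h
  rw [coeff_C_mul] at h2
  refine ⟨coeff (k + 11) δ, ?_⟩
  have e : ((2 : ℤ) ^ 8) = 256 := by norm_num
  rw [e] at h2
  rw [← h2, sub_neg_eq_add, map_add]
  have ha : coeff (k + 11) (∑ i ∈ Finset.range 11, C (al.getD i 0) * X ^ i : ℤ⟦X⟧) = 0 := by
    rw [map_sum]
    refine Finset.sum_eq_zero fun i hi => ?_
    have hi := Finset.mem_range.1 hi
    rw [coeff_C_mul, coeff_X_pow, if_neg (by omega), mul_zero]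
  rw [ha, add_zero, Finset.mul_sum, map_sum]
  refine Finset.sum_congr rfl fun i hi => ?_
  have hi := Finset.mem_range.1 hi
  have e3 : y * (C (dl.getD i 0) * X ^ i) = C (dl.getD i 0) * (X ^ i * y) := by ring
  rw [e3, coeff_C_mul, coeff_X_pow_mul', if_pos (by omega)]
  unfold y
  rw [coeff_mk]

/-- the values modulo `256` -/
def TB : List ℤ := [255, 1, 7, 25, 87, 73, 79, 113, 111, 81, 87, 137, 199, 153, 159, 225, 223, 161, 167, 249, 55, 233, 239, 81, 79, 241, 247, 105, 167, 57, 63, 193, 191, 65, 71, 217, 23, 137, 143, 49, 47, 145, 151, 73, 135, 217, 223, 161, 159, 225, 231, 185, 247, 41, 47, 17, 15, 49, 55, 41, 103, 121, 127, 129, 127, 129, 135, 153, 215, 201, 207, 241, 239, 209, 215, 9, 71, 25, 31, 97, 95, 33, 39, 121, 183, 105, 111, 209, 207, 113, 119, 233, 39, 185, 191, 65, 63, 193, 199, 89, 151, 9, 15, 177, 175, 17, 23, 201, 7, 89, 95, 33, 31, 97, 103, 57, 119, 169, 175, 145, 143, 177, 183, 169, 231, 249, 255, 1]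

theorem TB_rec : ∀ k < 128, (∑ i ∈ Finset.range 12, dl.getD i 0 *
    TB.getD ((k + 11 - i) % 128) 0) % 256 = 0 := by
  decide +kernel

theorem Rz_small : ∀ k < 11, (256 : ℤ) ∣ Rz k - TB.getD k 0 := by
  obtain ⟨h0, h1, h2⟩ := Rz_vals
  have r3 := Rz_rec 0
  have r4 := Rz_rec 1
  have r5 := Rz_rec 2
  have r6 := Rz_rec 3
  have r7 := Rz_rec 4
  have r8 := Rz_rec 5
  have r9 := Rz_rec 6
  have r10 := Rz_rec 7
  norm_num only [h0, h1, h2] at r3 r4 r5 r6 r7 r8 r9 r10
  have h3 : Rz 3 = 25 := by omega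
  have h4 : Rz 4 = 87 := by omega
  have h5 : Rz 5 = 329 := by omega
  have h6 : Rz 6 = 1359 := by omega
  have h7 : Rz 7 = 6001 := by omega
  have h8 : Rz 8 = 27759 := by omega
  have h9 : Rz 9 = 132689 := by omega
  have h10 : Rz 10 = 649815 := by omega
  intro k hk
  interval_cases k <;> simp only [h0, h1, h2, h3, h4, h5, h6, h7, h8, h9, h10, TB,
    List.getD_cons_zero, List.getD_cons_succ] <;> norm_num

theorem Rz_mod (k : ℕ) : (256 : ℤ) ∣ Rz k - TB.getD (k % 128) 0 := by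
  induction k using Nat.strong_induction_on with
  | _ k ih =>
    rcases lt_or_ge k 11 with h | h
    · rw [Nat.mod_eq_of_lt (by omega)]; exact Rz_small k h
    · obtain ⟨j, rfl⟩ := Nat.exists_eq_add_of_le' h
      have h1 := lin_rec j
      have h2 := Int.dvd_of_emod_eq_zero (TB_rec (j % 128) (Nat.mod_lt _ (by norm_num)))
      have h3 : ∀ i ∈ Finset.range 12, (j % 128 + 11 - i) % 128 = (j + 11 - i) % 128 := by
        intro i hi
        have hi := Finset.mem_range.1 hi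
        omega
      have h4 : ∑ i ∈ Finset.range 12, dl.getD i 0 * TB.getD ((j % 128 + 11 - i) % 128) 0 =
          ∑ i ∈ Finset.range 12, dl.getD i 0 * TB.getD ((j + 11 - i) % 128) 0 :=
        Finset.sum_congr rfl fun i hi => by rw [h3 i hi]
      rw [h4] at h2
      rw [Finset.sum_range_succ'] at h1 h2
      have h5 : (256 : ℤ) ∣ ∑ i ∈ Finset.range 11, dl.getD (i + 1) 0 * Rz (j + 11 - (i + 1)) -
          ∑ i ∈ Finset.range 11, dl.getD (i + 1) 0 * TB.getD ((j + 11 - (i + 1)) % 128) 0 := by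
        rw [← Finset.sum_sub_distrib]
        refine Finset.dvd_sum fun i hi => ?_
        have hi := Finset.mem_range.1 hi
        rw [← mul_sub]
        exact Dvd.dvd.mul_left (ih _ (by omega)) _
      have h6 : dl.getD 0 0 = 1 := rfl
      rw [h6, one_mul, Nat.sub_zero] at h1 h2
      have h7 := dvd_sub (dvd_sub h1 h2) h5
      have e : Rz (j + 11) - TB.getD ((j + 11) % 128) 0 =
        ∑ i ∈ Finset.range 11, dl.getD (i + 1) 0 * Rz (j + 11 - (i + 1)) + Rz (j + 11) -
          (∑ i ∈ Finset.range 11, dl.getD (i + 1) 0 * TB.getD ((j + 11 - (i + 1)) % 128) 0 +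
            TB.getD ((j + 11) % 128) 0) -
        (∑ i ∈ Finset.range 11, dl.getD (i + 1) 0 * Rz (j + 11 - (i + 1)) -
          ∑ i ∈ Finset.range 11, dl.getD (i + 1) 0 * TB.getD ((j + 11 - (i + 1)) % 128) 0) := by
        ring
      rw [e]
      exact h7

end Pool.Agent.V11276.RS
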