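import Pool.Agent.V11276.RC

/-! `∑ (2k+1) R_k^2` modulo `16 n` and `∑ (2k+1) W_k^2` modulo `8 n`. -/

namespace Pool.Agent.V11276.RS

open Pool.Agent.V11276.RA (wc Z_X N_zero N_succ R_vals R_rec Z Z_D D_of_R X3_of_R closed1 recur S S_succ
  S_zero one X_zero X_one ne1 ne3 D_of_R)


theorem chk1 : ∀ m : ℕ, m < 128 → ((7 * (m : ℤ) + 15) * TB.getD ((m + 1) % 128) 0 ^ 2 - ((m : ℤ) + 1) *
    (TB.getD ((m + 2) % 128) 0 * TB.getD ((m + 1) % 128) 0 +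
      TB.getD ((m + 2) % 128) 0 * TB.getD (m % 128) 0 +
      TB.getD ((m + 1) % 128) 0 * TB.getD (m % 128) 0) - 8 * ((m : ℤ) + 2)) % 128 = 0 := by
  decide +kernel

theorem cast_Rz (k m : ℕ) (h : k % 128 = m % 128) :
    ((Rz k : ℤ) : ZMod 128) = ((TB.getD (m % 128) 0 : ℤ) : ZMod 128) := by
  have h1 := Rz_mod k
  rw [h] at h1
  rw [← sub_eq_zero, ← Int.cast_sub]
  rw [ZMod.intCast_zmod_eq_zero_iff_dvd]
  exact dvd_trans (by norm_num) h1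

theorem q1 (n : ℕ) (hn : 1 ≤ n) : ∃ z : ℤ, S (wc 1) (wc 1) n = (n : ℚ) ^ 2 + 16 * n * z := by
  rcases Nat.lt_or_ge n 2 with h | h
  · have : n = 1 := by omega
    subst this
    refine ⟨0, ?_⟩
    rw [show (1 : ℕ) = 0 + 1 by rfl, S_succ, S_zero, R_vals.1]
    norm_num
  · obtain ⟨m, rfl⟩ := Nat.exists_eq_add_of_le' h
    have hc := closed1 m
    have hm := chk1 (m % 128) (Nat.mod_lt _ (by norm_num))
    have h0 := cast_Rz m (m % 128) (by omega)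
    have h1 := cast_Rz (m + 1) (m % 128 + 1) (by omega)
    have h2 := cast_Rz (m + 2) (m % 128 + 2) (by omega)
    obtain ⟨t, ht⟩ : ∃ t : ℤ, (m : ℤ) = ((m % 128 : ℕ) : ℤ) + 128 * t :=
      ⟨((m / 128 : ℕ) : ℤ), by omega⟩
    have hd : (128 : ℤ) ∣ (7 * (m : ℤ) + 15) * Rz (m + 1) ^ 2 - ((m : ℤ) + 1) *
        (Rz (m + 2) * Rz (m + 1) + Rz (m + 2) * Rz m + Rz (m + 1) * Rz m) - 8 * ((m : ℤ) + 2) := by
      have hm' := Int.dvd_of_emod_eq_zero hm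
      have e128 : (128 : ℤ) = ((128 : ℕ) : ℤ) := rfl
      rw [e128, ← ZMod.intCast_zmod_eq_zero_iff_dvd] at hm' ⊢
      rw [ht]
      generalize m % 128 = r at *
      rw [← hm']
      have h128 : (128 : ZMod 128) = 0 := by decide
      push_cast
      rw [h0, h1, h2, h128]
      ring
    obtain ⟨z, hz⟩ := hd
    refine ⟨z, ?_⟩
    rw [Pool.Agent.V11276.RS.Rz_eq, Rz_eq, Rz_eq] at hc
    have hz' : ((7 * (m : ℚ) + 15) * (Rz (m + 1) : ℚ) ^ 2 - ((m : ℚ) + 1) *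
        (Rz (m + 2) * Rz (m + 1) + Rz (m + 2) * Rz m + Rz (m + 1) * Rz m) - 8 * ((m : ℚ) + 2)) =
        128 * z := by exact_mod_cast hz
    push_cast
    linear_combination (1 / 8 : ℚ) * hc + ((m : ℚ) + 2) / 8 * hz'

theorem exD : ∀ k : ℕ, ∃ z : ℤ, Pool.Agent.V11276.RA.X one k = z := fun k => Z_D k

theorem exW : ∀ k : ℕ, ∃ z : ℤ, 3 * Pool.Agent.V11276.RA.X (wc 3) k = z := fun k => by
  have h := Z_X 1 k
  rw [show (1 : ℕ) = 0 + 1 by rfl, N_succ, N_zero] at h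
  norm_num at h
  exact h

/-- table of `4 D` -/
def tD (m : ℕ) : ℤ := ((m : ℤ) + 2) * TB.getD ((m + 2) % 128) 0 - 3 * TB.getD ((m + 1) % 128) 0 -
  ((m : ℤ) + 1) * TB.getD (m % 128) 0

/-- table of `6 W` -/
def tW (m : ℕ) : ℤ := (6 - 7 * ((m : ℤ) + 2) - 2 * (m + 2) ^ 2) * TB.getD ((m + 2) % 128) 0 +
    (3 + 24 * ((m : ℤ) + 2) + 12 * (m + 2) ^ 2) * TB.getD ((m + 1) % 128) 0 +
    (3 - ((m : ℤ) + 2) - 2 * (m + 2) ^ 2) * TB.getD (m % 128) 0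

theorem chk2 : ∀ m < 256, tD (m + 2) % 4 = 0 ∧ tD (m + 1) % 4 = 0 ∧ tW (m + 1) % 2 = 0 ∧
    tW m % 2 = 0 ∧ (648 * ((m : ℤ) + 3) + 4 * ((m : ℤ) + 3) * (tW (m + 1) / 2) * (tW m / 2) -
      18 * ((m : ℤ) + 3) * (TB.getD ((m + 3) % 128) 0 * (tW m / 2) +
        TB.getD ((m + 2) % 128) 0 * (tW (m + 1) / 2)) +
      9 * (TB.getD ((m + 3) % 128) 0 * (tW m / 2) -
        TB.getD ((m + 2) % 128) 0 * (tW (m + 1) / 2)) +
      9 * ((tW (m + 1) / 2) * (2 * (tD (m + 1) / 4)) - (tW m / 2) * (2 * (tD (m + 2) / 4))) -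
      144 * ((m : ℤ) + 3)) % 128 = 0 := by
  decide +kernel

theorem tab_D (k m : ℕ) (D : ℤ) (h : k % 256 = m % 256)
    (hD : 4 * D = ((k : ℤ) + 2) * Rz (k + 2) - 3 * Rz (k + 1) - (k + 1) * Rz k)
    (h4 : tD m % 4 = 0) : ((2 * D : ℤ) : ZMod 128) = ((2 * (tD m / 4) : ℤ) : ZMod 128) := by
  obtain ⟨x0, h0⟩ := Rz_mod k
  obtain ⟨x1, h1⟩ := Rz_mod (k + 1)
  obtain ⟨x2, h2⟩ := Rz_mod (k + 2)
  obtain ⟨t, ht⟩ : ∃ t : ℤ, (k : ℤ) = m + 256 * t := ⟨((k : ℤ) - m) / 256, by omega⟩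
  rw [show k % 128 = m % 128 by omega] at h0
  rw [show (k + 1) % 128 = (m + 1) % 128 by omega] at h1
  rw [show (k + 2) % 128 = (m + 2) % 128 by omega] at h2
  obtain ⟨q, hq⟩ := Int.dvd_of_emod_eq_zero h4
  rw [hq, Int.mul_ediv_cancel_left _ (by norm_num)]
  rw [← sub_eq_zero, ← Int.cast_sub, ZMod.intCast_zmod_eq_zero_iff_dvd]
  unfold tD at hq
  rw [ht] at hD
  have e0 : Rz k = TB.getD (m % 128) 0 + 256 * x0 := by linarith
  have e1 : Rz (k + 1) = TB.getD ((m + 1) % 128) 0 + 256 * x1 := by linarith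
  have e2 : Rz (k + 2) = TB.getD ((m + 2) % 128) 0 + 256 * x2 := by linarith
  rw [e0, e1, e2] at hD
  refine ⟨(t * TB.getD ((m + 2) % 128) 0 + ((m : ℤ) + 256 * t + 2) * x2 - 3 * x1 -
    t * TB.getD (m % 128) 0 - ((m : ℤ) + 256 * t + 1) * x0), ?_⟩
  push_cast
  have h8 : 4 * (2 * D - 2 * q) = 4 * (128 * (t * TB.getD ((m + 2) % 128) 0 +
    ((m : ℤ) + 256 * t + 2) * x2 - 3 * x1 -
    t * TB.getD (m % 128) 0 - ((m : ℤ) + 256 * t + 1) * x0)) := by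
    linear_combination 2 * hD + 2 * hq
  linarith

theorem tab_W (k m : ℕ) (w : ℤ) (h : k % 256 = m % 256)
    (hw : 2 * w = (6 - 7 * ((k : ℤ) + 2) - 2 * (k + 2) ^ 2) * Rz (k + 2) +
      (3 + 24 * ((k : ℤ) + 2) + 12 * (k + 2) ^ 2) * Rz (k + 1) +
      (3 - ((k : ℤ) + 2) - 2 * (k + 2) ^ 2) * Rz k)
    (h4 : tW m % 2 = 0) : ((w : ℤ) : ZMod 128) = ((tW m / 2 : ℤ) : ZMod 128) := by
  obtain ⟨x0, h0⟩ := Rz_mod k
  obtain ⟨x1, h1⟩ := Rz_mod (k + 1)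
  obtain ⟨x2, h2⟩ := Rz_mod (k + 2)
  obtain ⟨t, ht⟩ : ∃ t : ℤ, (k : ℤ) = m + 256 * t := ⟨((k : ℤ) - m) / 256, by omega⟩
  rw [show k % 128 = m % 128 by omega] at h0
  rw [show (k + 1) % 128 = (m + 1) % 128 by omega] at h1
  rw [show (k + 2) % 128 = (m + 2) % 128 by omega] at h2
  obtain ⟨q, hq⟩ := Int.dvd_of_emod_eq_zero h4
  rw [hq, Int.mul_ediv_cancel_left _ (by norm_num)]
  rw [← sub_eq_zero, ← Int.cast_sub, ZMod.intCast_zmod_eq_zero_iff_dvd]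
  unfold tW at hq
  rw [ht] at hw
  have e0 : Rz k = TB.getD (m % 128) 0 + 256 * x0 := by linarith
  have e1 : Rz (k + 1) = TB.getD ((m + 1) % 128) 0 + 256 * x1 := by linarith
  have e2 : Rz (k + 2) = TB.getD ((m + 2) % 128) 0 + 256 * x2 := by linarith
  rw [e0, e1, e2] at hw
  refine ⟨(-7 * t - 2 * (2 * ((m : ℤ) + 2) * t + 256 * t ^ 2)) * TB.getD ((m + 2) % 128) 0 +
    (6 - 7 * ((m : ℤ) + 256 * t + 2) - 2 * ((m : ℤ) + 256 * t + 2) ^ 2) * x2 +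
    (24 * t + 12 * (2 * ((m : ℤ) + 2) * t + 256 * t ^ 2)) * TB.getD ((m + 1) % 128) 0 +
    (3 + 24 * ((m : ℤ) + 256 * t + 2) + 12 * ((m : ℤ) + 256 * t + 2) ^ 2) * x1 +
    (-t - 2 * (2 * ((m : ℤ) + 2) * t + 256 * t ^ 2)) * TB.getD (m % 128) 0 +
    (3 - ((m : ℤ) + 256 * t + 2) - 2 * ((m : ℤ) + 256 * t + 2) ^ 2) * x0, ?_⟩
  push_cast
  apply mul_left_cancel₀ (two_ne_zero (α := ℤ))
  linear_combination hw + hq

theorem q2 (n : ℕ) (hn : 1 ≤ n) : ∃ z : ℤ, 9 * S (wc 3) (wc 3) n = (n : ℚ) ^ 2 + 8 * n * z := by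
  have w0 : Pool.Agent.V11276.RA.X (wc 3) 0 = -1 / 3 := by rw [X_zero]; unfold wc; norm_num
  have w1 : Pool.Agent.V11276.RA.X (wc 3) 1 = -7 / 3 := by rw [X_one]; unfold wc; norm_num
  rcases Nat.lt_or_ge n 3 with h | h
  · have : n = 1 ∨ n = 2 := by omega
    rcases this with rfl | rfl
    · refine ⟨0, ?_⟩
      rw [show (1 : ℕ) = 0 + 1 by rfl, S_succ, S_zero, w0]
      norm_num
    · refine ⟨9, ?_⟩
      rw [show (2 : ℕ) = 0 + 1 + 1 by rfl, S_succ, S_succ, S_zero, w0, zero_add 1, w1]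
      norm_num
  · obtain ⟨m, rfl⟩ := Nat.exists_eq_add_of_le' h
    obtain ⟨D, hD⟩ := exD (m + 3)
    obtain ⟨D', hD'⟩ := exD (m + 2)
    obtain ⟨W, hW⟩ := exW (m + 3)
    obtain ⟨W', hW'⟩ := exW (m + 2)
    obtain ⟨j, hj⟩ := q1 (m + 3) (by omega)
    have hr := recur 3 ne3 (fun i => by have := ne1 i; norm_num at this ⊢; exact this) (m + 2)
    have g1 := D_of_R (m + 2)
    have g2 := D_of_R (m + 1)
    have g3 := X3_of_R (m + 1)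
    have g4 := X3_of_R m
    rw [show m + 2 + 1 = m + 3 by ring, show m + 2 + 2 = m + 4 by ring, hD, Rz_eq, Rz_eq, Rz_eq]
      at g1
    rw [show m + 1 + 1 = m + 2 by ring, show m + 1 + 2 = m + 3 by ring, hD', Rz_eq, Rz_eq, Rz_eq]
      at g2
    rw [show m + 1 + 2 = m + 3 by ring, show m + 1 + 1 = m + 2 by ring, Rz_eq, Rz_eq, Rz_eq] at g3
    rw [Rz_eq, Rz_eq, Rz_eq] at g4
    have k1 : 4 * D = (((m + 2 : ℕ) : ℤ) + 2) * Rz (m + 2 + 2) - 3 * Rz (m + 2 + 1) -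
        (((m + 2 : ℕ) : ℤ) + 1) * Rz (m + 2) := by exact_mod_cast g1
    have k2 : 4 * D' = (((m + 1 : ℕ) : ℤ) + 2) * Rz (m + 1 + 2) - 3 * Rz (m + 1 + 1) -
        (((m + 1 : ℕ) : ℤ) + 1) * Rz (m + 1) := by exact_mod_cast g2
    have k3 : 2 * (3 * W) = (6 - 7 * (((m + 1 : ℕ) : ℤ) + 2) - 2 * (((m + 1 : ℕ) : ℤ) + 2) ^ 2) *
        Rz (m + 1 + 2) + (3 + 24 * (((m + 1 : ℕ) : ℤ) + 2) + 12 * (((m + 1 : ℕ) : ℤ) + 2) ^ 2) *
        Rz (m + 1 + 1) + (3 - (((m + 1 : ℕ) : ℤ) + 2) - 2 * (((m + 1 : ℕ) : ℤ) + 2) ^ 2) *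
        Rz (m + 1) := by
      have : (2 * (3 * W) : ℚ) = 18 * Pool.Agent.V11276.RA.X (wc 3) (m + 3) := by rw [← hW]; ring
      rw [← this] at g3
      exact_mod_cast g3
    have k4 : 2 * (3 * W') = (6 - 7 * ((m : ℤ) + 2) - 2 * ((m : ℤ) + 2) ^ 2) *
        Rz (m + 2) + (3 + 24 * ((m : ℤ) + 2) + 12 * ((m : ℤ) + 2) ^ 2) *
        Rz (m + 1) + (3 - ((m : ℤ) + 2) - 2 * ((m : ℤ) + 2) ^ 2) *
        Rz m := by
      have : (2 * (3 * W') : ℚ) = 18 * Pool.Agent.V11276.RA.X (wc 3) (m + 2) := by rw [← hW']; ring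
      rw [← this] at g4
      exact_mod_cast g4
    obtain ⟨c1, c2, c3, c4, c5⟩ := chk2 (m % 256) (Nat.mod_lt _ (by norm_num))
    have l1 := tab_D (m + 2) (m % 256 + 2) D (by omega) k1 c1
    have l2 := tab_D (m + 1) (m % 256 + 1) D' (by omega) k2 c2
    have l3 := tab_W (m + 1) (m % 256 + 1) (3 * W) (by omega) k3 c3
    have l4 := tab_W m (m % 256) (3 * W') (by omega) k4 c4
    have l5 := cast_Rz (m + 3) (m % 256 + 3) (by omega)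
    have l6 := cast_Rz (m + 2) (m % 256 + 2) (by omega)
    have hmm : ((m : ℤ) : ZMod 128) = (((m % 256 : ℕ) : ℤ) : ZMod 128) := by
      have : ((m : ℤ)) = ((m % 256 : ℕ) : ℤ) + 128 * (2 * (m / 256 : ℕ)) := by omega
      rw [this]
      push_cast
      have h128 : (128 : ZMod 128) = 0 := by decide
      rw [h128]
      ring
    have hd : (128 : ℤ) ∣ 648 * ((m : ℤ) + 3) + 4 * ((m : ℤ) + 3) * (3 * W) * (3 * W') -
      18 * ((m : ℤ) + 3) * (Rz (m + 3) * (3 * W') + Rz (m + 2) * (3 * W)) +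
      9 * (Rz (m + 3) * (3 * W') - Rz (m + 2) * (3 * W)) +
      9 * ((3 * W) * (2 * D') - (3 * W') * (2 * D)) - 144 * ((m : ℤ) + 3) := by
      have hm' := Int.dvd_of_emod_eq_zero c5
      have e128 : (128 : ℤ) = ((128 : ℕ) : ℤ) := rfl
      rw [e128, ← ZMod.intCast_zmod_eq_zero_iff_dvd] at hm' ⊢
      rw [← hm']
      rw [Int.cast_sub, Int.cast_add, Int.cast_add, Int.cast_sub, Int.cast_add,
        Int.cast_sub, Int.cast_add, Int.cast_add, Int.cast_sub, Int.cast_add]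
      generalize (3 * W) = w at *
      generalize (3 * W') = w' at *
      generalize (2 * D) = P at *
      generalize (2 * D') = P' at *
      generalize (2 * (tD (m % 256 + 2) / 4)) = Q at *
      generalize (2 * (tD (m % 256 + 1) / 4)) = Q' at *
      push_cast at hmm ⊢
      rw [hmm, l1, l2, l3, l4, l5, l6]
    obtain ⟨z, hz⟩ := hd
    have hz' : 648 * ((m : ℚ) + 3) + 4 * ((m : ℚ) + 3) * (3 * W) * (3 * W') -
      18 * ((m : ℚ) + 3) * (Rz (m + 3) * (3 * W') + Rz (m + 2) * (3 * W)) +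
      9 * (Rz (m + 3) * (3 * W') - Rz (m + 2) * (3 * W)) +
      9 * ((3 * W) * (2 * D') - (3 * W') * (2 * D)) - 144 * ((m : ℚ) + 3) = 128 * z := by
      exact_mod_cast hz
    obtain ⟨z2, hz2⟩ : ∃ z2 : ℤ, z + 81 * j = 9 * z2 := by
      have h9 : (9 : ℤ) ∣ 128 * z := by
        rw [← hz]
        refine ⟨72 * ((m : ℤ) + 3) + 4 * ((m : ℤ) + 3) * W * W' -
          6 * ((m : ℤ) + 3) * (Rz (m + 3) * W' + Rz (m + 2) * W) +
          3 * (Rz (m + 3) * W' - Rz (m + 2) * W) +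
          3 * (W * (2 * D') - W' * (2 * D)) - 16 * ((m : ℤ) + 3), by ring⟩
      obtain ⟨t, ht⟩ := h9
      exact ⟨(z + 81 * j) / 9, by omega⟩
    refine ⟨z2, ?_⟩
    have hz2' : (z : ℚ) + 81 * j = 9 * z2 := by exact_mod_cast hz2
    norm_num only at hr
    rw [show m + 2 + 1 = m + 3 by ring, hD, hD', Rz_eq, Rz_eq, hj] at hr
    have x1 : Pool.Agent.V11276.RA.X (wc 3) (m + 3) = W / 3 := by rw [← hW]; ring
    have x0 : Pool.Agent.V11276.RA.X (wc 3) (m + 2) = W' / 3 := by rw [← hW']; ring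
    rw [x1, x0] at hr
    push_cast at hr ⊢
    linear_combination (9 / 4 : ℚ) * hr + ((m : ℚ) + 3) / 144 * hz' + 8 * ((m : ℚ) + 3) / 9 * hz2'

end Pool.Agent.V11276.RS
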