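import Mathlib

/-! 3-adic properties of generalized central trinomial coefficients. -/

namespace Pool.Agent.V11276.TT

open PowerSeries

theorem unit3 (j : ℕ) (h : ¬ 3 ∣ j) : IsUnit (j : ℤ_[3]) := by
  rw [PadicInt.isUnit_iff, PadicInt.norm_natCast_eq_one_iff]
  exact (Nat.Prime.coprime_iff_not_dvd Nat.prime_three).2 h

/-- the sequence `κ` -/
def κ (b : ℤ) : ℕ → ℤ
  | 0 => 0
  | 1 => 1
  | n + 2 => -b * κ b (n + 1) - κ b n

theorem κ_zero (b : ℤ) : κ b 0 = 0 := rfl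
theorem κ_one (b : ℤ) : κ b 1 = 1 := rfl
theorem κ_add_two (b : ℤ) (n : ℕ) : κ b (n + 2) = -b * κ b (n + 1) - κ b n := rfl

theorem κ_six (b : ℤ) (j : ℕ) : κ b (j + 6) = -(b ^ 3 - 3 * b) * κ b (j + 3) - κ b j := by
  have h1 := κ_add_two b j
  have h2 := κ_add_two b (j + 1)
  have h3 := κ_add_two b (j + 2)
  have h4 := κ_add_two b (j + 3)
  have h5 := κ_add_two b (j + 4)
  rw [h5, h4, h3, h2, h1]
  ring

theorem κ_three (b : ℤ) (i : ℕ) : κ b (3 * i) = (b ^ 2 - 1) * κ (b ^ 3 - 3 * b) i := by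
  induction i using Nat.strong_induction_on with
  | _ i ih =>
    match i with
    | 0 => simp [κ_zero]
    | 1 => simp [κ]; ring
    | i + 2 =>
      rw [show 3 * (i + 2) = 3 * i + 6 by ring, κ_six,
        show 3 * i + 3 = 3 * (i + 1) by ring, ih (i + 1) (by omega), ih i (by omega),
        κ_add_two (b ^ 3 - 3 * b)]
      ring

theorem κ_congr (b b' M : ℤ) (h : M ∣ b - b') (j : ℕ) : M ∣ κ b j - κ b' j := by
  induction j using Nat.strong_induction_on with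
  | _ j ih =>
    match j with
    | 0 => simp [κ_zero]
    | 1 => simp [κ_one]
    | j + 2 =>
      rw [κ_add_two, κ_add_two]
      obtain ⟨x, hx⟩ := h
      obtain ⟨y, hy⟩ := ih (j + 1) (by omega)
      obtain ⟨z, hz⟩ := ih j (by omega)
      refine ⟨-x * κ b (j + 1) - b' * y - z, ?_⟩
      linear_combination (-κ b (j + 1)) * hx - b' * hy - hz

theorem κ_neg_two (j : ℕ) : κ (-2) j = j := by
  induction j using Nat.strong_induction_on with
  | _ j ih =>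
    match j with
    | 0 => rfl
    | 1 => rfl
    | j + 2 =>
      rw [κ_add_two, ih (j + 1) (by omega), ih j (by omega)]
      push_cast; ring

/-- values at `b = 1` -/
theorem κ_b_one (i : ℕ) : κ 1 (3 * i) = 0 ∧ κ 1 (3 * i + 1) = 1 ∧ κ 1 (3 * i + 2) = -1 := by
  induction i with
  | zero => exact ⟨rfl, rfl, rfl⟩
  | succ i ih =>
    obtain ⟨h0, h1, h2⟩ := ih
    have h3 : κ 1 (3 * i + 3) = 0 := by
      rw [show 3 * i + 3 = 3 * i + 1 + 2 by ring, κ_add_two, show 3 * i + 1 + 1 = 3 * i + 2 by ring,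
        h1, h2]; norm_num
    have h4 : κ 1 (3 * i + 4) = 1 := by
      rw [show 3 * i + 4 = 3 * i + 2 + 2 by ring, κ_add_two, show 3 * i + 2 + 1 = 3 * i + 3 by ring,
        h3, h2]; norm_num
    have h5 : κ 1 (3 * i + 5) = -1 := by
      rw [show 3 * i + 5 = 3 * i + 3 + 2 by ring, κ_add_two, show 3 * i + 3 + 1 = 3 * i + 4 by ring,
        h3, h4]; norm_num
    exact ⟨h3, h4, h5⟩

/-- divisibility of `κ b j` by `j` over the 3-adic integers -/
theorem exθ (j : ℕ) (b : ℤ) (hb : b % 3 = 1) : ∃ θ : ℤ_[3], (j : ℤ_[3]) * θ = (κ b j : ℤ_[3]) := by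
  induction j using Nat.strong_induction_on generalizing b with
  | _ j ih =>
    by_cases h3 : 3 ∣ j
    · obtain ⟨i, rfl⟩ := h3
      rcases Nat.eq_zero_or_pos i with rfl | hi
      · exact ⟨0, by simp [κ_zero]⟩
      · have hb' : (b ^ 3 - 3 * b) % 3 = 1 := by
          obtain ⟨q, hq⟩ : ∃ q, b = 3 * q + 1 := ⟨b / 3, by omega⟩
          have : b ^ 3 - 3 * b = 3 * (9 * q ^ 3 + 9 * q ^ 2 + 3 * q - b) + 1 := by rw [hq]; ring
          omega
        obtain ⟨θ, hθ⟩ := ih i (by omega) _ hb'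
        obtain ⟨q, hq⟩ : ∃ q, b ^ 2 - 1 = 3 * q := by
          obtain ⟨q, hq⟩ : ∃ q, b = 3 * q + 1 := ⟨b / 3, by omega⟩
          exact ⟨3 * q ^ 2 + 2 * q, by rw [hq]; ring⟩
        refine ⟨q * θ, ?_⟩
        rw [κ_three, hq]
        push_cast
        rw [← hθ]; ring
    · obtain ⟨u, hu⟩ := unit3 j h3
      exact ⟨↑u⁻¹ * (κ b j : ℤ_[3]), by rw [← hu]; simp⟩

theorem ncz {j : ℕ} (hj : 1 ≤ j) : (j : ℤ_[3]) ≠ 0 := by
  have : j ≠ 0 := by omega
  exact_mod_cast this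

/-- `b ≡ -2 mod 9` -/
theorem θ_neg_two (j : ℕ) (hj : 1 ≤ j) (b : ℤ) (hb : (9 : ℤ) ∣ b + 2) (θ : ℤ_[3])
    (hθ : (j : ℤ_[3]) * θ = (κ b j : ℤ_[3])) : (3 : ℤ_[3]) ∣ θ - 1 := by
  induction j using Nat.strong_induction_on generalizing b θ with
  | _ j ih =>
    by_cases h3 : 3 ∣ j
    · obtain ⟨i, rfl⟩ := h3
      obtain ⟨x, hx⟩ := hb
      have hbx : b = 9 * x - 2 := by linarith
      have hb' : (9 : ℤ) ∣ (b ^ 3 - 3 * b) + 2 :=
        ⟨81 * x ^ 3 - 54 * x ^ 2 + 9 * x, by rw [hbx]; ring⟩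
      obtain ⟨θ', hθ'⟩ := exθ i (b ^ 3 - 3 * b) (by
        obtain ⟨y, hy⟩ := hb'; omega)
      obtain ⟨y, hy⟩ := ih i (by omega) (by omega) _ hb' θ' hθ'
      have hq : b ^ 2 - 1 = 3 * (27 * x ^ 2 - 12 * x + 1) := by rw [hbx]; ring
      rw [κ_three, hq] at hθ
      push_cast at hθ
      rw [← hθ'] at hθ
      have h1 : θ = (27 * (x : ℤ_[3]) ^ 2 - 12 * x + 1) * θ' := by
        apply mul_left_cancel₀ (ncz hj)
        push_cast
        rw [hθ]; ring
      have h2 : θ' = 1 + 3 * y := by rw [← hy]; ring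
      refine ⟨(9 * (x : ℤ_[3]) ^ 2 - 4 * x) * θ' + y, ?_⟩
      rw [h1]
      linear_combination (1 : ℤ_[3]) * h2
    · obtain ⟨x, hx⟩ := κ_congr b (-2) 9 (by simpa using hb) j
      rw [κ_neg_two] at hx
      have h1 : (j : ℤ_[3]) * (θ - 1) = 3 * (3 * (x : ℤ_[3])) := by
        have h2 : (κ b j : ℤ_[3]) - j = 9 * x := by exact_mod_cast congrArg (Int.cast (R := ℤ_[3])) hx
        rw [mul_sub, hθ, mul_one, h2]; ring
      exact (unit3 j h3).dvd_mul_left.1 ⟨_, h1⟩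

theorem θ_three (i : ℕ) (hi : 1 ≤ i) (b β : ℤ) (hb : b = 1 + 3 * β) (θ : ℤ_[3])
    (hθ : ((3 * i : ℕ) : ℤ_[3]) * θ = (κ b (3 * i) : ℤ_[3])) :
    ∃ y : ℤ_[3], θ = β * (2 + 3 * β) * (1 + 3 * y) := by
  obtain ⟨θ', hθ'⟩ := exθ i (b ^ 3 - 3 * b) (by
    have : b ^ 3 - 3 * b = 3 * (9 * β ^ 3 + 9 * β ^ 2 + 3 * β - b) + 1 := by rw [hb]; ring
    omega)
  obtain ⟨y, hy⟩ := θ_neg_two i hi (b ^ 3 - 3 * b)
    ⟨3 * β ^ 3 + 3 * β ^ 2, by rw [hb]; ring⟩ θ' hθ'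
  refine ⟨y, ?_⟩
  have h2 : θ' = 1 + 3 * y := by rw [← hy]; ring
  rw [← h2]
  apply mul_left_cancel₀ (ncz (show 1 ≤ 3 * i by omega))
  rw [hθ, κ_three]
  push_cast
  rw [← hθ', hb]
  push_cast
  ring

/-! ### the polynomial `1 + b t + t²` -/

/-- `1 + b t + t²` -/
noncomputable def φ (b : ℤ) : ℤ⟦X⟧ := 1 + C b * X + X ^ 2

/-- `T_N(b)` -/
noncomputable def T (b : ℤ) (N : ℕ) : ℤ := coeff N (φ b ^ N)

/-- generating function of `κ` -/
noncomputable def Kf (b : ℤ) : ℤ⟦X⟧ := mk (κ b)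

theorem φK (b : ℤ) : φ b * Kf b = X := by
  have e : φ b * Kf b = Kf b + C b * (X ^ 1 * Kf b) + X ^ 2 * Kf b := by unfold φ; ring
  rw [e]
  unfold Kf
  ext n
  rw [map_add, map_add, coeff_C_mul, coeff_X_pow_mul', coeff_X_pow_mul', coeff_mk, coeff_X]
  match n with
  | 0 => simp [κ]
  | 1 => simp [κ]
  | n + 2 =>
    rw [if_pos (by omega), if_pos (by omega), if_neg (by omega), coeff_mk, coeff_mk,
      show n + 2 - 1 = n + 1 by omega, show n + 2 - 2 = n by omega, κ_add_two]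
    ring

/-- the coefficients `c` -/
noncomputable def cc (b : ℤ) (n i : ℕ) : ℤ := coeff i (φ b ^ (n - 1) * (1 - X ^ 2))

theorem Dlem (b : ℤ) (n i j : ℕ) (hn : 1 ≤ n) (hij : i + j = n) :
    (j : ℤ) * coeff i (φ b ^ n) = n * cc b n i := by
  obtain ⟨m, rfl⟩ := Nat.exists_eq_add_of_le' hn
  have h1 : (i : ℤ) * coeff i (φ b ^ (m + 1)) =
      ((m + 1 : ℕ) : ℤ) * coeff i (φ b ^ m * (C b * X + 2 * X ^ 2)) := by
    have h2 : X * d⁄dX ℤ (φ b ^ (m + 1)) =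
        C ((m + 1 : ℕ) : ℤ) * (φ b ^ m * (C b * X + 2 * X ^ 2)) := by
      rw [Derivation.leibniz_pow]
      have h3 : d⁄dX ℤ (φ b) = C b + 2 * X := by
        unfold φ
        simp only [map_add, Derivation.leibniz, Derivation.leibniz_pow, smul_eq_mul,
          derivative_X, derivative_C]
        simp
      rw [h3]
      simp only [nsmul_eq_mul, smul_eq_mul, Nat.add_sub_cancel, map_natCast]
      ring
    have h4 := congrArg (coeff i) h2
    rw [coeff_C_mul] at h4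
    rw [← h4]
    cases i with
    | zero => simp
    | succ i =>
      rw [coeff_succ_X_mul, coeff_derivative]
      push_cast; ring
  have h5 : coeff i (φ b ^ (m + 1)) = coeff i (φ b ^ m * (1 + C b * X + X ^ 2)) := by
    rw [pow_succ]; rfl
  have h6 : φ b ^ m * (1 - X ^ 2) = φ b ^ m * (1 + C b * X + X ^ 2) -
      φ b ^ m * (C b * X + 2 * X ^ 2) := by ring
  unfold cc
  rw [Nat.add_sub_cancel, h6, map_sub, mul_sub, ← h1, ← h5]
  have : (j : ℤ) = ((m + 1 : ℕ) : ℤ) - i := by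
    rw [← hij]; push_cast; ring
  rw [this]; ring

theorem T_sum (b : ℤ) (n : ℕ) (hn : 1 ≤ n) : T b (n - 1) =
    ∑ j ∈ Finset.range (n + 1), κ b j * coeff (n - j) (φ b ^ n) := by
  obtain ⟨m, rfl⟩ := Nat.exists_eq_add_of_le' hn
  have h1 : Kf b * φ b ^ (m + 1) = X * φ b ^ m := by
    rw [pow_succ]
    linear_combination (φ b ^ m) * φK b
  have h2 := congrArg (coeff (m + 1)) h1
  rw [coeff_succ_X_mul, coeff_mul, Finset.Nat.sum_antidiagonal_eq_sum_range_succ_mk] at h2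
  rw [Nat.add_sub_cancel]
  unfold T
  rw [← h2]
  refine Finset.sum_congr rfl fun j _ => ?_
  unfold Kf
  rw [coeff_mk]

/-- the quotients `κ_j / j` -/
noncomputable def θ (b : ℤ) (hb : b % 3 = 1) (j : ℕ) : ℤ_[3] :=
  if j = 0 then 0 else (exθ j b hb).choose

theorem θ_spec (b : ℤ) (hb : b % 3 = 1) (j : ℕ) : (j : ℤ_[3]) * θ b hb j = (κ b j : ℤ_[3]) := by
  unfold θ
  split_ifs with h
  · subst h; simp [κ_zero]
  · exact (exθ j b hb).choose_spec

theorem θ_zero (b : ℤ) (hb : b % 3 = 1) : θ b hb 0 = 0 := by unfold θ; simp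

/-- the quotient `T/n` -/
noncomputable def xx (b : ℤ) (hb : b % 3 = 1) (n : ℕ) : ℤ_[3] :=
  ∑ j ∈ Finset.range (n + 1), θ b hb j * (cc b n (n - j) : ℤ_[3])

theorem T_eq (b : ℤ) (hb : b % 3 = 1) (n : ℕ) (hn : 1 ≤ n) :
    (T b (n - 1) : ℤ_[3]) = n * xx b hb n := by
  rw [T_sum b n hn]
  unfold xx
  push_cast
  rw [Finset.mul_sum]
  refine Finset.sum_congr rfl fun j hj => ?_
  have hj := Finset.mem_range.1 hj
  rcases Nat.eq_zero_or_pos j with rfl | h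
  · rw [κ_zero, θ_zero]; simp
  · apply mul_left_cancel₀ (ncz (show 1 ≤ j by omega))
    have h1 := Dlem b n (n - j) j hn (by omega)
    have h2 : ((j : ℤ_[3])) * (coeff (n - j) (φ b ^ n) : ℤ) = n * (cc b n (n - j) : ℤ) := by
      exact_mod_cast congrArg (Int.cast (R := ℤ_[3])) h1
    have h3 := θ_spec b hb j
    linear_combination (κ b j : ℤ_[3]) * h2 - (n * (cc b n (n - j) : ℤ) : ℤ_[3]) * h3

end Pool.Agent.V11276.TT
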