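import Pool.Agent.V11276.TA

/-! 3-adic properties of generalized central trinomial coefficients, part 2. -/

namespace Pool.Agent.V11276.TT

open PowerSeries

/-- `1/(1-X)` -/
noncomputable def io : ℤ⟦X⟧ := mk fun _ => 1

theorem io_mul : (1 - X) * io = 1 := by
  unfold io
  ext n
  rw [sub_mul, one_mul, map_sub, coeff_mk, coeff_one]
  cases n with
  | zero => simp
  | succ n => rw [coeff_succ_X_mul, coeff_mk, if_neg (by omega)]; simp

/-- expansion by 3 -/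
noncomputable def ex3 : ℤ⟦X⟧ →ₐ[ℤ] ℤ⟦X⟧ := expand 3 (by norm_num)

theorem ex3_X : ex3 X = X ^ 3 := expand_X 3 (by norm_num)

theorem ex3_io : (1 - X ^ 3) * ex3 io = 1 := by
  have := congrArg ex3 io_mul
  rwa [map_mul, map_sub, map_one, ex3_X] at this

/-- coefficientwise divisibility -/
theorem coeff_dvd {M : ℤ} {f g : ℤ⟦X⟧} (h : (M : ℤ⟦X⟧) ∣ f - g) (n : ℕ) :
    M ∣ coeff n f - coeff n g := by
  obtain ⟨q, hq⟩ := h
  refine ⟨coeff n q, ?_⟩
  rw [← map_sub, hq, show (M : ℤ⟦X⟧) = C M by simp, coeff_C_mul]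

theorem φ_one_cube : ((3 : ℕ) : ℤ⟦X⟧) ∣ φ 1 ^ 3 - ex3 (φ 1) := by
  refine ⟨X + 2 * X ^ 2 + 2 * X ^ 3 + 2 * X ^ 4 + X ^ 5, ?_⟩
  unfold φ
  simp only [map_add, map_mul, map_pow, map_one, ex3_X]
  push_cast
  ring

theorem φ_pow_congr (a M : ℕ) :
    (((3 ^ (a + 1) : ℕ) : ℤ) : ℤ⟦X⟧) ∣ φ 1 ^ (3 * (3 ^ a * M)) - ex3 (φ 1 ^ (3 ^ a * M)) := by
  have h := dvd_sub_pow_of_dvd_sub φ_one_cube a
  have h2 := h.trans (sub_dvd_pow_sub_pow _ _ M)
  rw [← pow_mul, ← pow_mul, ← pow_mul, ← map_pow] at h2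
  push_cast at h2 ⊢
  exact h2

/-- `F = φ^N/(1-X)` -/
noncomputable def Ff (N : ℕ) : ℤ⟦X⟧ := φ 1 ^ N * io

theorem φ_shift (n : ℕ) (hn : 1 ≤ n) :
    φ 1 ^ (n - 1) * (1 - X ^ 2) = φ 1 ^ n * ex3 io * (1 - X - X ^ 2 + X ^ 3) := by
  obtain ⟨m, rfl⟩ := Nat.exists_eq_add_of_le' hn
  rw [Nat.add_sub_cancel, pow_succ (φ 1)]
  have h1 : φ 1 * (1 - X) = (1 : ℤ⟦X⟧) - X ^ 3 := by
    unfold φ; rw [map_one]; ring
  have h2 := ex3_io
  have h3 : (1 : ℤ⟦X⟧) - X - X ^ 2 + X ^ 3 = (1 - X) * (1 - X ^ 2) := by ring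
  rw [h3]
  linear_combination (-(φ 1 ^ m * (1 - X ^ 2) * ex3 io)) * h1 - φ 1 ^ m * (1 - X ^ 2) * h2

theorem cc_congr (a M i : ℕ) (hM : 1 ≤ M) :
    ((3 ^ (a + 1) : ℕ) : ℤ) ∣ cc 1 (3 * (3 ^ a * M)) i -
      coeff i (ex3 (Ff (3 ^ a * M)) * (1 - X - X ^ 2 + X ^ 3)) := by
  unfold cc
  apply coeff_dvd
  have h3 : 0 < 3 ^ a := by positivity
  rw [φ_shift _ (by
    have : 1 ≤ 3 ^ a * M := Nat.mul_pos h3 hM
    omega)]
  obtain ⟨q, hq⟩ := φ_pow_congr a M
  refine ⟨q * ex3 io * (1 - X - X ^ 2 + X ^ 3), ?_⟩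
  unfold Ff
  rw [map_mul]
  linear_combination (ex3 io * (1 - X - X ^ 2 + X ^ 3)) * hq

theorem co0 (F : ℤ⟦X⟧) (k : ℕ) : coeff (3 * k) (ex3 F * (1 - X - X ^ 2 + X ^ 3)) =
    coeff k (F * (1 + X)) := by
  have e : ex3 F * (1 - X - X ^ 2 + X ^ 3) = ex3 (F * (1 + X)) - X * ex3 F - X ^ 2 * ex3 F := by
    rw [map_mul, map_add, map_one, ex3_X]; ring
  rw [e, map_sub, map_sub]
  have h0 : coeff (3 * k) (ex3 (F * (1 + X))) = coeff k (F * (1 + X)) :=
    coeff_expand_mul 3 (by norm_num) _ k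
  have h1 : coeff (3 * k) (X * ex3 F) = 0 := by
    rcases k with _ | k
    · simp
    · rw [show 3 * (k + 1) = (3 * k + 2) + 1 by ring, coeff_succ_X_mul]
      exact coeff_expand_of_not_dvd 3 (by norm_num) F (by omega)
  have h2 : coeff (3 * k) (X ^ 2 * ex3 F) = 0 := by
    rw [coeff_X_pow_mul']
    split_ifs with h
    · exact coeff_expand_of_not_dvd 3 (by norm_num) F (by omega)
    · rfl
  rw [h0, h1, h2]; ring

theorem co1 (F : ℤ⟦X⟧) (k : ℕ) : coeff (3 * k + 1) (ex3 F * (1 - X - X ^ 2 + X ^ 3)) =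
    - coeff k F := by
  have e : ex3 F * (1 - X - X ^ 2 + X ^ 3) = ex3 (F * (1 + X)) - X * ex3 F - X ^ 2 * ex3 F := by
    rw [map_mul, map_add, map_one, ex3_X]; ring
  rw [e, map_sub, map_sub]
  have h0 : coeff (3 * k + 1) (ex3 (F * (1 + X))) = 0 :=
    coeff_expand_of_not_dvd 3 (by norm_num) _ (by omega)
  have h1 : coeff (3 * k + 1) (X * ex3 F) = coeff k F := by
    rw [coeff_succ_X_mul]
    exact coeff_expand_mul 3 (by norm_num) _ k
  have h2 : coeff (3 * k + 1) (X ^ 2 * ex3 F) = 0 := by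
    rw [coeff_X_pow_mul']
    split_ifs with h
    · exact coeff_expand_of_not_dvd 3 (by norm_num) F (by omega)
    · rfl
  rw [h0, h1, h2]; ring

theorem co2 (F : ℤ⟦X⟧) (k : ℕ) : coeff (3 * k + 2) (ex3 F * (1 - X - X ^ 2 + X ^ 3)) =
    - coeff k F := by
  have e : ex3 F * (1 - X - X ^ 2 + X ^ 3) = ex3 (F * (1 + X)) - X * ex3 F - X ^ 2 * ex3 F := by
    rw [map_mul, map_add, map_one, ex3_X]; ring
  rw [e, map_sub, map_sub]
  have h0 : coeff (3 * k + 2) (ex3 (F * (1 + X))) = 0 :=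
    coeff_expand_of_not_dvd 3 (by norm_num) _ (by omega)
  have h1 : coeff (3 * k + 2) (X * ex3 F) = 0 := by
    rw [coeff_succ_X_mul]
    exact coeff_expand_of_not_dvd 3 (by norm_num) _ (by omega)
  have h2 : coeff (3 * k + 2) (X ^ 2 * ex3 F) = coeff k F := by
    rw [coeff_X_pow_mul', if_pos (by omega), Nat.add_sub_cancel]
    exact coeff_expand_mul 3 (by norm_num) _ k
  rw [h0, h1, h2]; ring

/-! ### the Lipschitz lemma -/

theorem lip1 (M : ℕ) : ∀ f : ℕ → ℤ_[3],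
    (∀ i r, (3 : ℤ_[3]) ^ (i + 1) ∣ f (r + 3 ^ i) - f r) →
    ∃ g : ℤ_[3], ∑ r ∈ Finset.range M, f r = M * g := by
  induction M using Nat.strong_induction_on with
  | _ M ih =>
    intro f hf
    by_cases h3 : 3 ∣ M
    · obtain ⟨N, rfl⟩ := h3
      rcases Nat.eq_zero_or_pos N with rfl | hN
      · exact ⟨0, by simp⟩
      · have key : ∀ r, ∃ y : ℤ_[3], f (3 * r) + f (3 * r + 1) + f (3 * r + 2) = 3 * y := by
          intro r
          obtain ⟨x, hx⟩ := hf 0 (3 * r)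
          obtain ⟨y, hy⟩ := hf 0 (3 * r + 1)
          rw [pow_zero] at hx hy
          rw [show 3 * r + 1 + 1 = 3 * r + 2 by ring] at hy
          refine ⟨f (3 * r) + 2 * x + y, ?_⟩
          linear_combination 2 * hx + hy
        choose y hy using key
        obtain ⟨g, hg⟩ := ih N (by omega) y (by
          intro i r
          obtain ⟨a0, h0⟩ := hf (i + 1) (3 * r)
          obtain ⟨a1, h1⟩ := hf (i + 1) (3 * r + 1)
          obtain ⟨a2, h2⟩ := hf (i + 1) (3 * r + 2)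
          have e0 : 3 * r + 3 ^ (i + 1) = 3 * (r + 3 ^ i) := by ring
          have e1 : 3 * r + 1 + 3 ^ (i + 1) = 3 * (r + 3 ^ i) + 1 := by ring
          have e2 : 3 * r + 2 + 3 ^ (i + 1) = 3 * (r + 3 ^ i) + 2 := by ring
          rw [e0] at h0
          rw [e1] at h1
          rw [e2] at h2
          refine ⟨a0 + a1 + a2, ?_⟩
          have h3 : (3 : ℤ_[3]) ≠ 0 := by exact_mod_cast ncz (show 1 ≤ 3 by norm_num)
          apply mul_left_cancel₀ h3
          linear_combination hy r - hy (r + 3 ^ i) + h0 + h1 + h2)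
        refine ⟨g, ?_⟩
        have hs : ∀ K : ℕ, ∑ r ∈ Finset.range (3 * K), f r =
            ∑ r ∈ Finset.range K, (f (3 * r) + f (3 * r + 1) + f (3 * r + 2)) := by
          intro K
          induction K with
          | zero => simp
          | succ K ihK =>
            rw [show 3 * (K + 1) = 3 * K + 1 + 1 + 1 by ring, Finset.sum_range_succ,
              Finset.sum_range_succ, Finset.sum_range_succ, Finset.sum_range_succ, ihK]
            ring
        rw [hs, Finset.sum_congr rfl (fun r _ => hy r), ← Finset.mul_sum, hg]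
        push_cast; ring
    · obtain ⟨u, hu⟩ := unit3 M h3
      exact ⟨↑u⁻¹ * ∑ r ∈ Finset.range M, f r, by rw [← hu]; simp⟩

/-! ### the weights `w` -/

/-- `1/((3r+1)(3r+2))` -/
noncomputable def w (r : ℕ) : ℤ_[3] := θ 1 (by norm_num) (3 * r + 1) + θ 1 (by norm_num) (3 * r + 2)

theorem w_spec (r : ℕ) : (9 * (r : ℤ_[3]) ^ 2 + 9 * r + 2) * w r = 1 := by
  obtain ⟨_, h1, h2⟩ := κ_b_one r
  have e1 := θ_spec 1 (by norm_num) (3 * r + 1)
  have e2 := θ_spec 1 (by norm_num) (3 * r + 2)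
  rw [h1] at e1
  rw [h2] at e2
  unfold w
  push_cast at e1 e2
  linear_combination (3 * (r : ℤ_[3]) + 2) * e1 + (3 * (r : ℤ_[3]) + 1) * e2

/-- an inverse of `2` -/
noncomputable def hf : ℤ_[3] := ((unit3 2 (by norm_num)).unit⁻¹ : ℤ_[3]ˣ)

theorem hf_spec : 2 * hf = 1 := by
  have h := (unit3 2 (by norm_num)).mul_val_inv
  push_cast at h
  exact h

theorem W_spec (M : ℕ) : ∃ h : ℤ_[3], ∑ r ∈ Finset.range M, w r = M * h ∧
    (3 : ℤ_[3]) ∣ h + 1 := by
  obtain ⟨g, hg⟩ := lip1 M (fun r => 3 * (r * (r + 1)) * w r) (by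
    intro i r
    have h1 := w_spec r
    have h2 := w_spec (r + 3 ^ i)
    push_cast at h2 ⊢
    set s : ℤ_[3] := 3 ^ i
    set R : ℤ_[3] := (r : ℤ_[3])
    set a := w r
    set b := w (r + 3 ^ i)
    have h3 : b - a = - 9 * a * b * s * (2 * R + s + 1) := by
      linear_combination (-b) * h1 + a * h2
    refine ⟨(2 * R + s + 1) * b + R * (R + 1) * (- 9 * a * b * (2 * R + s + 1)), ?_⟩
    rw [pow_succ]
    linear_combination (3 * (R * (R + 1))) * h3)
  have hw : ∀ r : ℕ, w r = hf - 3 * hf * (3 * (r * (r + 1)) * w r) := by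
    intro r
    have h1 := w_spec r
    have h2 := hf_spec
    linear_combination hf * h1 - w r * h2
  refine ⟨hf - 3 * hf * g, ?_, ?_⟩
  · rw [Finset.sum_congr rfl (fun r _ => hw r), Finset.sum_sub_distrib, ← Finset.mul_sum, hg]
    simp only [Finset.sum_const, Finset.card_range, nsmul_eq_mul]
    ring
  · refine ⟨hf - hf * g, ?_⟩
    have h2 := hf_spec
    linear_combination (-1 : ℤ_[3]) * h2

end Pool.Agent.V11276.TT
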