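import Pool.Agent.V11276.TB

/-! 3-adic properties of generalized central trinomial coefficients, part 3. -/

namespace Pool.Agent.V11276.TT

open PowerSeries

theorem one_mod : (1 : ℤ) % 3 = 1 := by norm_num

theorem θ_one_three (i : ℕ) : θ 1 one_mod (3 * i) = 0 := by
  rcases Nat.eq_zero_or_pos i with rfl | hi
  · exact θ_zero 1 one_mod
  · have h := θ_spec 1 one_mod (3 * i)
    rw [(κ_b_one i).1] at h
    rcases mul_eq_zero.1 (h.trans (by simp)) with h1 | h1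
    · exact absurd h1 (ncz (by omega))
    · exact h1

theorem split3 (f : ℕ → ℤ_[3]) (N : ℕ) : ∑ j ∈ Finset.range (3 * N + 1), f j =
    f 0 + ∑ i ∈ Finset.range N, (f (3 * i + 1) + f (3 * i + 2) + f (3 * (i + 1))) := by
  induction N with
  | zero => simp
  | succ N ih =>
    rw [show 3 * (N + 1) + 1 = 3 * N + 1 + 1 + 1 + 1 by ring,
      Finset.sum_range_succ _ (3 * N + 1 + 1 + 1), Finset.sum_range_succ _ (3 * N + 1 + 1),
      Finset.sum_range_succ _ (3 * N + 1), ih, Finset.sum_range_succ _ N,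
      show 3 * N + 1 + 1 + 1 = 3 * (N + 1) by ring]
    ring

theorem xx_split (b : ℤ) (hb : b % 3 = 1) (N : ℕ) : xx b hb (3 * N) =
    ∑ i ∈ Finset.range N, (θ b hb (3 * i + 1) * (cc b (3 * N) (3 * (N - 1 - i) + 2) : ℤ_[3]) +
      θ b hb (3 * i + 2) * (cc b (3 * N) (3 * (N - 1 - i) + 1) : ℤ_[3]) +
      θ b hb (3 * (i + 1)) * (cc b (3 * N) (3 * (N - 1 - i)) : ℤ_[3])) := by
  unfold xx
  rw [split3, θ_zero, zero_mul, zero_add]
  refine Finset.sum_congr rfl fun i hi => ?_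
  have hi := Finset.mem_range.1 hi
  rw [show 3 * N - (3 * i + 1) = 3 * (N - 1 - i) + 2 by omega,
    show 3 * N - (3 * i + 2) = 3 * (N - 1 - i) + 1 by omega,
    show 3 * N - (3 * (i + 1)) = 3 * (N - 1 - i) by omega]

theorem castdvd {M : ℕ} {x : ℤ} (h : (M : ℤ) ∣ x) : (M : ℤ_[3]) ∣ (x : ℤ_[3]) := by
  obtain ⟨q, rfl⟩ := h
  exact ⟨q, by push_cast; ring⟩

theorem xx_one (a M : ℕ) (hM : 1 ≤ M) :
    (3 : ℤ_[3]) ^ (a + 1) ∣ xx 1 one_mod (3 * (3 ^ a * M)) +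
      ∑ i ∈ Finset.range (3 ^ a * M),
        w i * ((coeff (3 ^ a * M - 1 - i) (Ff (3 ^ a * M)) : ℤ) : ℤ_[3]) := by
  rw [xx_split, ← Finset.sum_add_distrib]
  refine Finset.dvd_sum fun i _ => ?_
  rw [θ_one_three, zero_mul, add_zero]
  have h1 := castdvd (cc_congr a M (3 * (3 ^ a * M - 1 - i) + 1) hM)
  have h2 := castdvd (cc_congr a M (3 * (3 ^ a * M - 1 - i) + 2) hM)
  rw [co1] at h1
  rw [co2] at h2
  obtain ⟨q1, hq1⟩ := h1
  obtain ⟨q2, hq2⟩ := h2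
  push_cast at hq1 hq2
  refine ⟨θ 1 one_mod (3 * i + 1) * q2 + θ 1 one_mod (3 * i + 2) * q1, ?_⟩
  unfold w
  linear_combination (θ 1 one_mod (3 * i + 1)) * hq2 + (θ 1 one_mod (3 * i + 2)) * hq1

/-! ### the power series part -/

/-- the cast to 3-adic power series -/
noncomputable def cp : ℤ⟦X⟧ →+* ℤ_[3]⟦X⟧ := PowerSeries.map (Int.castRingHom ℤ_[3])

theorem coeff_cp (n : ℕ) (f : ℤ⟦X⟧) : coeff n (cp f) = ((coeff n f : ℤ) : ℤ_[3]) := by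
  unfold cp; rw [coeff_map]; rfl

/-- quotients `W_M/M` -/
noncomputable def hq (M : ℕ) : ℤ_[3] := (W_spec M).choose

theorem hq_spec (M : ℕ) : ∑ r ∈ Finset.range M, w r = M * hq M := (W_spec M).choose_spec.1

theorem hq_mod (M : ℕ) : (3 : ℤ_[3]) ∣ hq M + 1 := (W_spec M).choose_spec.2

/-- the primitive -/
noncomputable def Hs : ℤ_[3]⟦X⟧ := mk fun i => if i = 0 then 0 else hq i

theorem dHs : d⁄dX ℤ_[3] Hs = mk w * cp io := by
  ext i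
  rw [coeff_derivative, coeff_mul, Finset.Nat.sum_antidiagonal_eq_sum_range_succ_mk]
  unfold Hs
  rw [coeff_mk, if_neg (by omega)]
  have h := hq_spec (i + 1)
  push_cast at h
  rw [mul_comm, ← h]
  refine Finset.sum_congr rfl fun r _ => ?_
  simp only [coeff_mk, coeff_cp, io]
  simp

/-- the polynomial over the 3-adics -/
noncomputable def φp : ℤ_[3]⟦X⟧ := cp (φ 1)

theorem φp_eq : φp = 1 + X + X ^ 2 := by
  unfold φp φ cp
  simp

theorem dφp : d⁄dX ℤ_[3] φp = 1 + 2 * X := by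
  rw [φp_eq]
  simp only [map_add, Derivation.leibniz_pow, smul_eq_mul, derivative_X]
  simp

/-- the number `z_N` -/
noncomputable def zz (N : ℕ) : ℤ_[3] :=
  coeff N (Hs * φp ^ N) - coeff (N - 1) (Hs * φp ^ (N - 1) * (1 + 2 * X))

theorem sum_w (N : ℕ) (hN : 1 ≤ N) :
    ∑ i ∈ Finset.range N, w i * ((coeff (N - 1 - i) (Ff N) : ℤ) : ℤ_[3]) = N * zz N := by
  obtain ⟨m, rfl⟩ := Nat.exists_eq_add_of_le' hN
  have h1 : ∑ i ∈ Finset.range (m + 1),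
      w i * ((coeff (m + 1 - 1 - i) (Ff (m + 1)) : ℤ) : ℤ_[3]) =
      coeff m (mk w * cp (Ff (m + 1))) := by
    rw [coeff_mul, Finset.Nat.sum_antidiagonal_eq_sum_range_succ_mk]
    refine Finset.sum_congr rfl fun r _ => ?_
    rw [coeff_mk, coeff_cp, Nat.add_sub_cancel]
  have h2 : mk w * cp (Ff (m + 1)) = d⁄dX ℤ_[3] (Hs * φp ^ (m + 1)) -
      C ((m + 1 : ℕ) : ℤ_[3]) * (Hs * φp ^ m * (1 + 2 * X)) := by
    unfold Ff
    rw [map_mul, map_pow, Derivation.leibniz, Derivation.leibniz_pow, dφp, dHs]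
    simp only [smul_eq_mul, nsmul_eq_mul, Nat.add_sub_cancel]
    rw [map_natCast]
    unfold φp
    ring
  rw [h1, h2, map_sub, coeff_derivative, coeff_C_mul]
  unfold zz
  rw [Nat.add_sub_cancel]
  push_cast
  ring

theorem xx_one' (a M : ℕ) (hM : 1 ≤ M) :
    (3 : ℤ_[3]) ^ (a + 1) ∣ xx 1 one_mod (3 * (3 ^ a * M)) +
      ((3 ^ a * M : ℕ) : ℤ_[3]) * zz (3 ^ a * M) := by
  have h := xx_one a M hM
  rwa [sum_w _ (Nat.mul_pos (by positivity) hM)] at h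

theorem xx_one_dvd (a M : ℕ) (hM : 1 ≤ M) :
    (3 : ℤ_[3]) ^ a ∣ xx 1 one_mod (3 * (3 ^ a * M)) := by
  obtain ⟨q, hq⟩ := xx_one' a M hM
  refine ⟨3 * q - M * zz (3 ^ a * M), ?_⟩
  push_cast at hq
  rw [pow_succ] at hq
  linear_combination hq

/-! ### comparison of `b` with `1` -/

theorem φ_congr (b M : ℤ) (h : M ∣ b - 1) : (M : ℤ⟦X⟧) ∣ φ b - φ 1 := by
  obtain ⟨q, hq⟩ := h
  refine ⟨C q * X, ?_⟩
  have h1 : (C b : ℤ⟦X⟧) = 1 + (M : ℤ⟦X⟧) * C q := by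
    rw [show b = 1 + M * q by linarith]
    simp
  unfold φ
  rw [h1, map_one]
  ring

theorem cc_congr1 (b M : ℤ) (h : M ∣ b - 1) (n i : ℕ) : M ∣ cc b n i - cc 1 n i := by
  unfold cc
  apply coeff_dvd
  obtain ⟨q, hq⟩ := (φ_congr b M h).trans (sub_dvd_pow_sub_pow _ _ (n - 1))
  exact ⟨q * (1 - X ^ 2), by linear_combination (1 - X ^ 2) * hq⟩

theorem θ_congr (b : ℤ) (hb : b % 3 = 1) (c : ℕ) (h : ((3 ^ c : ℕ) : ℤ) ∣ b - 1) (j : ℕ)
    (hj : ¬ 3 ∣ j) : (3 : ℤ_[3]) ^ c ∣ θ b hb j - θ 1 one_mod j := by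
  have h1 := castdvd (κ_congr b 1 _ h j)
  push_cast at h1
  rw [← θ_spec b hb j, ← θ_spec 1 one_mod j, ← mul_sub] at h1
  exact (unit3 j hj).dvd_mul_left.1 h1

theorem xx_compare (b : ℤ) (hb : b % 3 = 1) (c : ℕ) (h : ((3 ^ c : ℕ) : ℤ) ∣ b - 1) (N : ℕ) :
    (3 : ℤ_[3]) ^ c ∣ xx b hb (3 * N) - xx 1 one_mod (3 * N) -
      ∑ i ∈ Finset.range N, θ b hb (3 * (i + 1)) *
        (cc 1 (3 * N) (3 * (N - 1 - i)) : ℤ_[3]) := by
  rw [xx_split, xx_split, ← Finset.sum_sub_distrib, ← Finset.sum_sub_distrib]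
  refine Finset.dvd_sum fun i _ => ?_
  obtain ⟨a1, h1⟩ := θ_congr b hb c h (3 * i + 1) (by omega)
  obtain ⟨a2, h2⟩ := θ_congr b hb c h (3 * i + 2) (by omega)
  obtain ⟨a3, h3⟩ := castdvd (cc_congr1 b _ h (3 * N) (3 * (N - 1 - i)))
  obtain ⟨a4, h4⟩ := castdvd (cc_congr1 b _ h (3 * N) (3 * (N - 1 - i) + 1))
  obtain ⟨a5, h5⟩ := castdvd (cc_congr1 b _ h (3 * N) (3 * (N - 1 - i) + 2))
  push_cast at h3 h4 h5
  rw [θ_one_three]
  refine ⟨a1 * (cc b (3 * N) (3 * (N - 1 - i) + 2) : ℤ_[3]) +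
    θ 1 one_mod (3 * i + 1) * a5 + a2 * (cc b (3 * N) (3 * (N - 1 - i) + 1) : ℤ_[3]) +
    θ 1 one_mod (3 * i + 2) * a4 + θ b hb (3 * (i + 1)) * a3, ?_⟩
  linear_combination (cc b (3 * N) (3 * (N - 1 - i) + 2) : ℤ_[3]) * h1 +
    θ 1 one_mod (3 * i + 1) * h5 + (cc b (3 * N) (3 * (N - 1 - i) + 1) : ℤ_[3]) * h2 +
    θ 1 one_mod (3 * i + 2) * h4 + θ b hb (3 * (i + 1)) * h3

/-- Q1 in the essential case -/
theorem Q1core (b : ℤ) (hb : b % 3 = 1) (c M : ℕ) (h : ((3 ^ (c + 1) : ℕ) : ℤ) ∣ b - 1)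
    (hM : 1 ≤ M) : (3 : ℤ_[3]) ^ c ∣ xx b hb (3 * (3 ^ c * M)) := by
  have h1 := xx_one_dvd c M hM
  have h2 := (pow_dvd_pow (3 : ℤ_[3]) (Nat.le_succ c)).trans
    (xx_compare b hb (c + 1) h (3 ^ c * M))
  have h3 : (3 : ℤ_[3]) ^ c ∣ ∑ i ∈ Finset.range (3 ^ c * M), θ b hb (3 * (i + 1)) *
        (cc 1 (3 * (3 ^ c * M)) (3 * (3 ^ c * M - 1 - i)) : ℤ_[3]) := by
    refine Finset.dvd_sum fun i _ => ?_
    apply Dvd.dvd.mul_right
    obtain ⟨q, hq⟩ := h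
    obtain ⟨y, hy⟩ := θ_three (i + 1) (by omega) b (3 ^ c * q)
      (by push_cast at hq; rw [pow_succ] at hq; linear_combination hq) _
      (θ_spec b hb (3 * (i + 1)))
    rw [hy]
    push_cast
    exact ⟨q * (2 + 3 * (3 ^ c * q)) * (1 + 3 * y), by ring⟩
  have h4 := dvd_add (dvd_add h1 h2) h3
  convert h4 using 1
  ring

end Pool.Agent.V11276.TT
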