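import Pool.Agent.V11276.TC

/-! 3-adic properties of generalized central trinomial coefficients, part 4. -/

namespace Pool.Agent.V11276.TT

open PowerSeries

/-- reduction mod 3 -/
noncomputable def π3 : ℤ_[3] →+* ZMod 3 := PadicInt.toZMod

theorem π3_zero (x : ℤ_[3]) : π3 x = 0 ↔ (3 : ℤ_[3]) ∣ x := by
  unfold π3
  rw [← RingHom.mem_ker, PadicInt.ker_toZMod, PadicInt.maximalIdeal_eq_span_p,
    Ideal.mem_span_singleton]
  norm_cast

/-- reduction mod 3 of power series -/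
noncomputable def rd : ℤ_[3]⟦X⟧ →+* (ZMod 3)⟦X⟧ := PowerSeries.map π3

theorem coeff_rd (n : ℕ) (f : ℤ_[3]⟦X⟧) : coeff n (rd f) = π3 (coeff n f) := by
  unfold rd; rw [coeff_map]

theorem rd_X : rd X = X := by unfold rd; simp

/-- `1/(1-X)` mod 3 -/
noncomputable def jo : (ZMod 3)⟦X⟧ := mk fun _ => 1

theorem jo_mul : (1 - X) * jo = 1 := by
  unfold jo
  ext n
  rw [sub_mul, one_mul, map_sub, coeff_mk, coeff_one]
  cases n with
  | zero => simp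
  | succ n => rw [coeff_succ_X_mul, coeff_mk, if_neg (by omega)]; simp

theorem three0 : (3 : (ZMod 3)⟦X⟧) = 0 := by
  rw [← map_ofNat (C (R := ZMod 3)) 3, show (OfNat.ofNat 3 : ZMod 3) = 0 by decide, map_zero]

theorem frob (a : ℕ) : (1 - X : (ZMod 3)⟦X⟧) ^ (3 ^ a) = 1 - X ^ (3 ^ a) := by
  induction a with
  | zero => simp
  | succ a ih =>
    rw [pow_succ, pow_mul, ih, pow_mul]
    linear_combination ((X ^ (3 ^ a)) ^ 2 - X ^ (3 ^ a)) * three0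

theorem low (N k : ℕ) (h : k < N) (f : (ZMod 3)⟦X⟧) :
    coeff k ((1 - X ^ N) ^ 2 * f) = coeff k f := by
  have e : (1 - X ^ N) ^ 2 * f = f + X ^ N * ((X ^ N - 2) * f) := by ring
  rw [e, map_add, coeff_X_pow_mul', if_neg (by omega), add_zero]

theorem coeff_jo2 (k : ℕ) : coeff k (jo ^ 2) = (k : ZMod 3) + 1 := by
  rw [sq, coeff_mul]
  unfold jo
  simp

theorem rd_io : rd (cp io) = jo := by
  ext n
  rw [coeff_rd, coeff_cp]
  unfold io jo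
  simp

theorem rd_φp : rd φp = (1 - X) ^ 2 := by
  rw [φp_eq, map_add, map_add, map_one, map_pow, rd_X]
  linear_combination X * three0

theorem rd_Hs : rd Hs = X * (- jo) := by
  ext n
  rw [coeff_rd]
  unfold Hs jo
  cases n with
  | zero => simp
  | succ n =>
    rw [coeff_succ_X_mul, coeff_mk, if_neg (by omega), map_neg, coeff_mk]
    have h := (π3_zero _).2 (hq_mod (n + 1))
    rw [map_add, map_one] at h
    linear_combination h

theorem zcast (c : ℕ) : (((3 ^ (c + 1) : ℕ)) : ZMod 3) = 0 := by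
  rw [pow_succ]; push_cast
  rw [show (3 : ZMod 3) = 0 by decide]; simp

theorem zz_mod (c : ℕ) : (3 : ℤ_[3]) ∣ zz (3 ^ (c + 1)) - 1 := by
  rw [← π3_zero, map_sub, map_one]
  have hN : 3 ≤ 3 ^ (c + 1) := by
    rw [pow_succ]
    have : 0 < 3 ^ c := by positivity
    omega
  have hz := zcast c
  have hf := frob (c + 1)
  obtain ⟨K, hK⟩ : ∃ K, 3 ^ (c + 1) = K + 2 := ⟨3 ^ (c + 1) - 2, by omega⟩
  rw [hK] at hz hf ⊢
  unfold zz
  rw [map_sub, ← coeff_rd, ← coeff_rd, show K + 2 - 1 = K + 1 by omega]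
  have e1 : rd (Hs * φp ^ (K + 2)) = X * ((1 - X ^ (K + 2)) ^ 2 * (- jo)) := by
    rw [map_mul, map_pow, rd_φp, rd_Hs, ← hf]
    generalize (1 - X : (ZMod 3)⟦X⟧) = u
    ring
  have e2 : rd (Hs * φp ^ (K + 1) * (1 + 2 * X)) =
      X * ((1 - X ^ (K + 2)) ^ 2 * (- jo ^ 2)) := by
    rw [map_mul, map_mul, map_pow, rd_φp, rd_Hs, ← hf, map_add, map_mul, map_one, rd_X, map_ofNat]
    have h1 := jo_mul
    have h2 : (1 : (ZMod 3)⟦X⟧) + 2 * X = 1 - X := by linear_combination X * three0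
    rw [h2]
    generalize (1 - X : (ZMod 3)⟦X⟧) = u at *
    linear_combination (X * jo * u ^ (2 * K + 3)) * h1
  rw [e1, e2, coeff_succ_X_mul, coeff_succ_X_mul, low _ _ (by omega), low _ _ (by omega),
    map_neg, map_neg, coeff_jo2]
  unfold jo
  rw [coeff_mk]
  push_cast at hz
  have h9 : (3 : ZMod 3) = 0 := by decide
  linear_combination hz - h9

theorem Q2b_core (c : ℕ) :
    (3 : ℤ_[3]) ^ (c + 2) ∣ xx 1 one_mod (3 ^ (c + 2)) + 3 ^ (c + 1) := by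
  have h := xx_one' (c + 1) 1 le_rfl
  rw [mul_one, show 3 * 3 ^ (c + 1) = 3 ^ (c + 2) by ring] at h
  obtain ⟨q, hq⟩ := h
  obtain ⟨y, hy⟩ := zz_mod c
  refine ⟨q - y, ?_⟩
  push_cast at hq
  rw [show c + 1 + 1 = c + 2 by ring] at hq
  have e : (3 : ℤ_[3]) ^ (c + 2) = 3 ^ (c + 1) * 3 := by ring
  rw [e] at hq ⊢
  linear_combination hq - (3 : ℤ_[3]) ^ (c + 1) * hy

/-! ### the sum for Q2(a) -/

theorem sum_cc (c : ℕ) : (3 : ℤ_[3]) ∣ ∑ i ∈ Finset.range (3 ^ (c + 1)),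
    (cc 1 (3 * 3 ^ (c + 1)) (3 * (3 ^ (c + 1) - 1 - i)) : ℤ_[3]) - 2 := by
  have h1 : (3 : ℤ_[3]) ∣ ∑ i ∈ Finset.range (3 ^ (c + 1)),
    (cc 1 (3 * 3 ^ (c + 1)) (3 * (3 ^ (c + 1) - 1 - i)) : ℤ_[3]) -
      ∑ i ∈ Finset.range (3 ^ (c + 1)),
        ((coeff (3 ^ (c + 1) - 1 - i) (Ff (3 ^ (c + 1)) * (1 + X)) : ℤ) : ℤ_[3]) := by
    rw [← Finset.sum_sub_distrib]
    refine Finset.dvd_sum fun i _ => ?_
    have h := castdvd (cc_congr (c + 1) 1 (3 * (3 ^ (c + 1) - 1 - i)) le_rfl)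
    rw [co0, mul_one] at h
    push_cast at h
    exact (dvd_pow_self _ (by omega)).trans h
  have h2 : ∑ i ∈ Finset.range (3 ^ (c + 1)),
        ((coeff (3 ^ (c + 1) - 1 - i) (Ff (3 ^ (c + 1)) * (1 + X)) : ℤ) : ℤ_[3]) =
      coeff (3 ^ (c + 1) - 1) (cp (io * (Ff (3 ^ (c + 1)) * (1 + X)))) := by
    have h3 : 0 < 3 ^ (c + 1) := by positivity
    rw [coeff_cp, coeff_mul, Finset.Nat.sum_antidiagonal_eq_sum_range_succ_mk,
      Nat.succ_eq_add_one, show 3 ^ (c + 1) - 1 + 1 = 3 ^ (c + 1) by omega]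
    push_cast
    refine Finset.sum_congr rfl fun i _ => ?_
    unfold io
    rw [coeff_mk]; simp
  have h4 : (3 : ℤ_[3]) ∣ coeff (3 ^ (c + 1) - 1) (cp (io * (Ff (3 ^ (c + 1)) * (1 + X)))) - 2 := by
    rw [← π3_zero, map_sub, ← coeff_rd, map_ofNat]
    have hN : 3 ≤ 3 ^ (c + 1) := by
      rw [pow_succ]
      have : 0 < 3 ^ c := by positivity
      omega
    have hz := zcast c
    have hf := frob (c + 1)
    obtain ⟨K, hK⟩ : ∃ K, 3 ^ (c + 1) = K + 2 := ⟨3 ^ (c + 1) - 2, by omega⟩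
    rw [hK] at hz hf ⊢
    have e1 : rd (cp (io * (Ff (K + 2) * (1 + X)))) =
        (1 - X ^ (K + 2)) ^ 2 * (jo ^ 2 * (1 + X)) := by
      unfold Ff
      rw [map_mul, map_mul, map_mul, map_mul, map_mul, map_mul, rd_io, map_pow, map_pow,
        show rd (cp (φ 1)) = rd φp from rfl, rd_φp, map_add, map_add, map_one, map_one,
        show cp X = X by (unfold cp; simp), rd_X, ← hf]
      generalize (1 - X : (ZMod 3)⟦X⟧) = u
      ring
    rw [e1, low _ _ (by omega), show K + 2 - 1 = K + 1 by omega, mul_add, mul_one, map_add,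
      mul_comm (jo ^ 2) X, coeff_succ_X_mul, coeff_jo2, coeff_jo2]
    push_cast at hz ⊢
    have h9 : (3 : ZMod 3) = 0 := by decide
    linear_combination 2 * hz - h9
  have h5 := dvd_add h1 h4
  rw [h2] at h5
  convert h5 using 1
  ring

theorem Q2a_core (β : ℤ) (hb : (1 + 3 * β) % 3 = 1) (e c : ℕ)
    (h : ((3 ^ (e + 1) : ℕ) : ℤ) ∣ 3 * β) (hec : e ≤ c) :
    (3 : ℤ_[3]) ^ (e + 1) ∣ xx (1 + 3 * β) hb (3 ^ (c + 2)) - β := by
  have h1 := (pow_dvd_pow (3 : ℤ_[3]) (show e + 1 ≤ c + 1 by omega)).trans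
    (xx_one_dvd (c + 1) 1 le_rfl)
  have h2 := xx_compare (1 + 3 * β) hb (e + 1) (by rwa [show 1 + 3 * β - 1 = 3 * β by ring])
    (3 ^ (c + 1))
  rw [mul_one] at h1
  obtain ⟨q, hq⟩ := h
  have hβ : β = 3 ^ e * q := by
    push_cast at hq; rw [pow_succ] at hq
    linarith
  have h3 : (3 : ℤ_[3]) ^ (e + 1) ∣
      ∑ i ∈ Finset.range (3 ^ (c + 1)), θ (1 + 3 * β) hb (3 * (i + 1)) *
        (cc 1 (3 * 3 ^ (c + 1)) (3 * (3 ^ (c + 1) - 1 - i)) : ℤ_[3]) -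
      2 * β * ∑ i ∈ Finset.range (3 ^ (c + 1)),
        (cc 1 (3 * 3 ^ (c + 1)) (3 * (3 ^ (c + 1) - 1 - i)) : ℤ_[3]) := by
    rw [Finset.mul_sum, ← Finset.sum_sub_distrib]
    refine Finset.dvd_sum fun i _ => ?_
    rw [← sub_mul]
    apply Dvd.dvd.mul_right
    obtain ⟨y, hy⟩ := θ_three (i + 1) (by omega) (1 + 3 * β) β rfl _
      (θ_spec (1 + 3 * β) hb (3 * (i + 1)))
    rw [hy, hβ]
    push_cast
    exact ⟨q * (3 ^ e * q + 3 ^ e * q * 3 * y + 2 * y), by ring⟩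
  obtain ⟨s, hs⟩ := sum_cc c
  have h4 : (3 : ℤ_[3]) ^ (e + 1) ∣
      2 * β * ∑ i ∈ Finset.range (3 ^ (c + 1)),
        (cc 1 (3 * 3 ^ (c + 1)) (3 * (3 ^ (c + 1) - 1 - i)) : ℤ_[3]) - β := by
    rw [hβ]
    push_cast
    refine ⟨q * (2 * s + 1), ?_⟩
    linear_combination (2 * (3 ^ e * (q : ℤ_[3]))) * hs
  have h5 := dvd_add (dvd_add (dvd_add h1 h2) h3) h4
  rw [show (3 : ℕ) ^ (c + 2) = 3 * 3 ^ (c + 1) by ring]
  convert h5 using 1
  ring

/-! ### the sums `S_m(n)` -/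

theorem T_expand (m : ℤ) (N : ℕ) : T (2 - m) N =
    ∑ k ∈ Finset.range (N + 1), (N.choose k : ℤ) * ((2 * k).choose k : ℤ) * (-m) ^ (N - k) := by
  have h1 : φ (2 - m) = (1 + X) ^ 2 + C (-m) * X := by
    unfold φ
    rw [map_sub, map_neg, show (C (2 : ℤ) : ℤ⟦X⟧) = 2 by simp]
    ring
  unfold T
  rw [h1, add_pow, map_sum]
  refine Finset.sum_congr rfl fun k hk => ?_
  have hk : k ≤ N := by have := Finset.mem_range.1 hk; omega
  have h2 : ((1 + X : ℤ⟦X⟧) ^ 2) ^ k * (C (-m) * X) ^ (N - k) * (N.choose k : ℤ⟦X⟧) =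
      C ((N.choose k : ℤ) * (-m) ^ (N - k)) * (X ^ (N - k) * (1 + X) ^ (2 * k)) := by
    rw [map_mul, map_pow, mul_pow, ← pow_mul]
    simp
    ring
  rw [h2, coeff_C_mul, coeff_X_pow_mul', if_pos (by omega), show N - (N - k) = k by omega]
  have h3 : coeff k ((1 + X : ℤ⟦X⟧) ^ (2 * k)) = ((2 * k).choose k : ℤ) := by
    have := Polynomial.coeff_one_add_X_pow ℤ (2 * k) k
    rw [← this, ← Polynomial.coeff_coe]
    simp
  rw [h3]; ring

/-- the sum `S_m(n)` -/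
def S (m : ℤ) (n : ℕ) : ℚ :=
  ∑ k ∈ Finset.range n, (-1) ^ k * ((n - 1).choose k : ℚ) * ((2 * k).choose k : ℚ) / (m : ℚ) ^ k

theorem S_T (m : ℤ) (hm : m ≠ 0) (n : ℕ) (hn : 1 ≤ n) :
    S m n = (T (2 - m) (n - 1) : ℚ) / (-m : ℚ) ^ (n - 1) := by
  obtain ⟨N, rfl⟩ := Nat.exists_eq_add_of_le' hn
  have hm' : (m : ℚ) ≠ 0 := by exact_mod_cast hm
  rw [Nat.add_sub_cancel, T_expand]
  unfold S
  push_cast
  rw [Finset.sum_div]
  refine Finset.sum_congr rfl fun k hk => ?_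
  have hk : k ≤ N := by have := Finset.mem_range.1 hk; omega
  have h1 : (-m : ℚ) ^ N = (-m : ℚ) ^ (N - k) * (-1) ^ k * (m : ℚ) ^ k := by
    rw [mul_assoc, ← mul_pow, neg_one_mul, ← pow_add, Nat.sub_add_cancel hk]
  rw [h1]
  have h2 : (-m : ℚ) ^ (N - k) ≠ 0 := pow_ne_zero _ (neg_ne_zero.2 hm')
  have h3 : (m : ℚ) ^ k ≠ 0 := pow_ne_zero _ hm'
  have h4 : ((-1 : ℚ) ^ k) * (-1) ^ k = 1 := by rw [← mul_pow]; norm_num
  have h5 : ((-1 : ℚ) ^ k) ≠ 0 := pow_ne_zero _ (by norm_num)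
  field_simp
  linear_combination ((N.choose k : ℚ) * ((2 * k).choose k : ℚ)) * h4

end Pool.Agent.V11276.TT
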