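import Mathlib

/-! Powers of the Thue-Morse product: recurrences of the coefficients. -/

namespace Pool.Agent.V11276.TM

open PowerSeries

/-- partial products -/
noncomputable def PN (N : ℕ) : ℤ⟦X⟧ := ∏ i ∈ Finset.range N, (1 - X ^ (2 ^ i))

/-- `∏_{i ≥ 0} (1 - X ^ (2 ^ i))`: its `n`-th coefficient is that of the product of the factors with
`i ≤ n`. -/
noncomputable def F : ℤ⟦X⟧ := PowerSeries.mk fun n => coeff n (PN (n + 1))

/-- coefficients of the powers -/
noncomputable def t (m n : ℕ) : ℤ := coeff n (F ^ m)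

theorem PN_succ (N : ℕ) : PN (N + 1) = (1 - X) * expand 2 two_ne_zero (PN N) := by
  unfold PN
  rw [Finset.prod_range_succ', map_prod]
  rw [mul_comm]
  congr 1
  · simp
  · refine Finset.prod_congr rfl fun i _ => ?_
    rw [map_sub, map_one, map_pow, expand_X, ← pow_mul, pow_succ 2 i, mul_comm 2]

theorem coeff_PN_stable {n N M : ℕ} (h : n < 2 ^ N) (hM : N ≤ M) :
    coeff n (PN M) = coeff n (PN N) := by
  induction M, hM using Nat.le_induction with
  | base => rfl
  | succ M hM ih =>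
    have e : PN (M + 1) = PN M - X ^ (2 ^ M) * PN M := by
      unfold PN
      rw [Finset.prod_range_succ]; ring
    rw [e, map_sub, coeff_X_pow_mul', if_neg, sub_zero, ih]
    have : 2 ^ N ≤ 2 ^ M := Nat.pow_le_pow_right (by norm_num) hM
    omega

theorem coeff_F {n N : ℕ} (h : n < 2 ^ N) : coeff n F = coeff n (PN N) := by
  unfold F
  rw [coeff_mk]
  have h2 : n < 2 ^ (n + 1) := lt_trans n.lt_two_pow_self (Nat.pow_lt_pow_right (by norm_num) (by omega))
  rcases le_total N (n + 1) with h1 | h1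
  · exact coeff_PN_stable h h1
  · exact (coeff_PN_stable h2 h1).symm

theorem F_eq : F = (1 - X) * expand 2 two_ne_zero F := by
  ext n
  have h2 : n < 2 ^ (n + 1) := lt_trans n.lt_two_pow_self (Nat.pow_lt_pow_right (by norm_num) (by omega))
  have h3 : n < 2 ^ (n + 1 + 1) := lt_trans h2 (Nat.pow_lt_pow_right (by norm_num) (by omega))
  rw [coeff_F h3, PN_succ, coeff_mul, coeff_mul]
  refine Finset.sum_congr rfl fun x hx => ?_
  congr 1
  have := Finset.HasAntidiagonal.mem_antidiagonal.1 hx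
  rw [coeff_expand, coeff_expand]
  split_ifs
  · rw [coeff_F]
    have : x.2 / 2 ≤ x.2 := Nat.div_le_self _ _
    omega
  · rfl

theorem Fm_eq (m : ℕ) : F ^ m = (1 - X) ^ m * expand 2 two_ne_zero (F ^ m) := by
  conv_lhs => rw [F_eq]
  rw [mul_pow, map_pow]

theorem t_zero (m : ℕ) : t m 0 = 1 := by
  unfold t
  rw [coeff_zero_eq_constantCoeff_apply, map_pow, ← coeff_zero_eq_constantCoeff_apply,
    coeff_F (N := 0) (by norm_num)]
  simp [PN]

theorem t_rec (m N : ℕ) : t m N = ∑ i ∈ Finset.range (m + 1),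
    (-1) ^ i * (m.choose i : ℤ) * (if i ≤ N ∧ 2 ∣ (N - i) then t m ((N - i) / 2) else 0) := by
  have h : (1 - X : ℤ⟦X⟧) ^ m = ∑ i ∈ Finset.range (m + 1), C ((-1) ^ i * (m.choose i : ℤ)) * X ^ i := by
    have e : (1 - X : ℤ⟦X⟧) = -X + 1 := by ring
    rw [e, add_pow]
    refine Finset.sum_congr rfl fun i _ => ?_
    rw [one_pow, mul_one, neg_pow, map_mul, map_pow, map_neg, map_one, map_natCast]
    ring
  unfold t
  conv_lhs => rw [Fm_eq, h, Finset.sum_mul, map_sum]
  refine Finset.sum_congr rfl fun i _ => ?_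
  rw [mul_assoc, coeff_C_mul, coeff_X_pow_mul']
  congr 1
  by_cases h1 : i ≤ N
  · rw [if_pos h1, coeff_expand]
    by_cases h2 : 2 ∣ N - i
    · rw [if_pos h2, if_pos ⟨h1, h2⟩]
    · rw [if_neg h2, if_neg (fun h => h2 h.2)]
  · rw [if_neg h1, if_neg (fun h => h1 h.1)]

theorem sum_two (f : ℕ → ℤ) (n : ℕ) : ∑ i ∈ Finset.range (2 * n), f i =
    ∑ j ∈ Finset.range n, (f (2 * j) + f (2 * j + 1)) := by
  induction n with
  | zero => simp
  | succ n ih =>
    rw [show 2 * (n + 1) = 2 * n + 1 + 1 by ring, Finset.sum_range_succ, Finset.sum_range_succ, ih,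
      Finset.sum_range_succ, add_assoc]

theorem t_even (h q : ℕ) : t (2 * h + 1) (2 * (q + h)) =
    ∑ j ∈ Finset.range (h + 1), ((2 * h + 1).choose (2 * j) : ℤ) * t (2 * h + 1) (q + h - j) := by
  rw [t_rec, show 2 * h + 1 + 1 = 2 * (h + 1) by ring, sum_two]
  refine Finset.sum_congr rfl fun j hj => ?_
  have hj := Finset.mem_range.1 hj
  rw [if_pos ⟨by omega, by omega⟩, if_neg (by rintro ⟨h1, h2⟩; omega)]
  rw [show (2 * (q + h) - 2 * j) / 2 = q + h - j by omega, pow_mul]
  norm_num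

theorem t_odd (h q : ℕ) : t (2 * h + 1) (2 * (q + h) + 1) =
    - ∑ j ∈ Finset.range (h + 1), ((2 * h + 1).choose (2 * j + 1) : ℤ) *
      t (2 * h + 1) (q + h - j) := by
  rw [t_rec, show 2 * h + 1 + 1 = 2 * (h + 1) by ring, sum_two, ← Finset.sum_neg_distrib]
  refine Finset.sum_congr rfl fun j hj => ?_
  have hj := Finset.mem_range.1 hj
  rw [if_neg (by rintro ⟨h1, h2⟩; omega), if_pos ⟨by omega, by omega⟩]
  rw [show (2 * (q + h) + 1 - (2 * j + 1)) / 2 = q + h - j by omega, pow_succ, pow_mul]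
  norm_num

end Pool.Agent.V11276.TM
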