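import Pool.Agent.V11276.TM2

/-! The ninth power of the Thue-Morse product. -/

namespace Pool.Agent.V11276.TM

theorem t9e (q : ℕ) : t 9 (2 * q + 8) = t 9 (q + 4) + 36 * t 9 (q + 3) + 126 * t 9 (q + 2) +
    84 * t 9 (q + 1) + 9 * t 9 q := by
  have h := t_even 4 q
  rw [show 2 * (q + 4) = 2 * q + 8 by ring] at h
  norm_num [Finset.sum_range_succ, Nat.choose] at h
  rw [show q + 4 - 2 = q + 2 by omega, show q + 4 - 3 = q + 1 by omega] at h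
  rw [h]

theorem t9o (q : ℕ) : t 9 (2 * q + 9) = -(9 * t 9 (q + 4) + 84 * t 9 (q + 3) +
    126 * t 9 (q + 2) + 36 * t 9 (q + 1) + t 9 q) := by
  have h := t_odd 4 q
  rw [show 2 * (q + 4) + 1 = 2 * q + 9 by ring] at h
  norm_num [Finset.sum_range_succ, Nat.choose] at h
  rw [show q + 4 - 2 = q + 2 by omega, show q + 4 - 3 = q + 1 by omega] at h
  rw [h]; ring

theorem t9_1 : t 9 1 = -9 := by
  rw [t_rec]; norm_num [Finset.sum_range_succ, Nat.choose, t_zero]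

theorem t9_2 : t 9 2 = 27 := by
  rw [t_rec]; norm_num [Finset.sum_range_succ, Nat.choose, t_zero, t9_1]

theorem t9_3 : t 9 3 = -3 := by
  rw [t_rec]; norm_num [Finset.sum_range_succ, Nat.choose, t_zero, t9_1, t9_2]

theorem t9_4 : t 9 4 = -171 := by
  rw [t_rec]; norm_num [Finset.sum_range_succ, Nat.choose, t_zero, t9_1, t9_2, t9_3]

theorem t9_5 : t 9 5 = 387 := by
  rw [t_rec]; norm_num [Finset.sum_range_succ, Nat.choose, t_zero, t9_1, t9_2, t9_3, t9_4]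

theorem t9_6 : t 9 6 = -81 := by
  rw [t_rec]; norm_num [Finset.sum_range_succ, Nat.choose, t_zero, t9_1, t9_2, t9_3, t9_4, t9_5]

theorem t9_7 : t 9 7 = -1143 := by
  rw [t_rec]; norm_num [Finset.sum_range_succ, Nat.choose, t_zero, t9_1, t9_2, t9_3, t9_4, t9_5, t9_6]

/-- class of even blocks -/
def J0 (a0 a1 a2 a3 a4 a5 a6 a7 : ℤ) : Prop :=
  (a0 + a1 + 5 * a2 + 21 * a3 + 3 * a4 + 3 * a5 + 23 * a6 + 199 * a7) % 512 = 256 ∧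
  (a1 + 2 * a2 + 3 * a3 + 3 * a5 + 2 * a6 + 13 * a7) % 64 = 0 ∧
  (a2 + 5 * a7) % 16 = 8 ∧
  (a3 + 3 * a7) % 16 = 8 ∧
  (a4 + a5 + a6 + 17 * a7) % 64 = 32 ∧
  (a5 + 5 * a7) % 16 = 0 ∧
  (a6 + a7) % 16 = 8 ∧
  (a7) % 2 = 1

/-- class of odd blocks -/
def J1 (a0 a1 a2 a3 a4 a5 a6 a7 : ℤ) : Prop :=
  (a0 + a1 + 5 * a2 + 21 * a3 + 3 * a4 + 3 * a5 + 23 * a6 + 199 * a7) % 512 = 0 ∧
  (a1 + 2 * a2 + 3 * a3 + 3 * a5 + 2 * a6 + 13 * a7) % 64 = 0 ∧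
  (a2 + 5 * a7) % 16 = 0 ∧
  (a3 + 3 * a7) % 16 = 0 ∧
  (a4 + a5 + a6 + 17 * a7) % 64 = 0 ∧
  (a5 + 5 * a7) % 16 = 0 ∧
  (a6 + a7) % 16 = 0 ∧
  (a7) % 2 = 0

theorem J_odd_of0 {a0 a1 a2 a3 a4 a5 a6 a7 : ℤ} (h : J0 a0 a1 a2 a3 a4 a5 a6 a7) :
    J1 (a4 + 36 * a3 + 126 * a2 + 84 * a1 + 9 * a0) (-(9 * a4 + 84 * a3 + 126 * a2 + 36 * a1 + a0)) (a5 + 36 * a4 + 126 * a3 + 84 * a2 + 9 * a1) (-(9 * a5 + 84 * a4 + 126 * a3 + 36 * a2 + a1)) (a6 + 36 * a5 + 126 * a4 + 84 * a3 + 9 * a2) (-(9 * a6 + 84 * a5 + 126 * a4 + 36 * a3 + a2)) (a7 + 36 * a6 + 126 * a5 + 84 * a4 + 9 * a3) (-(9 * a7 + 84 * a6 + 126 * a5 + 36 * a4 + a3)) := by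
  unfold J0 J1 at *; omega

theorem J_odd_of1 {a0 a1 a2 a3 a4 a5 a6 a7 : ℤ} (h : J1 a0 a1 a2 a3 a4 a5 a6 a7) :
    J1 (a4 + 36 * a3 + 126 * a2 + 84 * a1 + 9 * a0) (-(9 * a4 + 84 * a3 + 126 * a2 + 36 * a1 + a0)) (a5 + 36 * a4 + 126 * a3 + 84 * a2 + 9 * a1) (-(9 * a5 + 84 * a4 + 126 * a3 + 36 * a2 + a1)) (a6 + 36 * a5 + 126 * a4 + 84 * a3 + 9 * a2) (-(9 * a6 + 84 * a5 + 126 * a4 + 36 * a3 + a2)) (a7 + 36 * a6 + 126 * a5 + 84 * a4 + 9 * a3) (-(9 * a7 + 84 * a6 + 126 * a5 + 36 * a4 + a3)) := by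
  unfold J1 at *; omega

theorem J_even_of01 {a0 a1 a2 a3 a4 a5 a6 a7 b0 b1 b2 b3 b4 b5 b6 b7 : ℤ} (h : J0 a0 a1 a2 a3 a4 a5 a6 a7) (h' : J1 b0 b1 b2 b3 b4 b5 b6 b7) :
    J0 (a0 + 36 * b7 + 126 * b6 + 84 * b5 + 9 * b4) (-(9 * a0 + 84 * b7 + 126 * b6 + 36 * b5 + b4)) (a1 + 36 * a0 + 126 * b7 + 84 * b6 + 9 * b5) (-(9 * a1 + 84 * a0 + 126 * b7 + 36 * b6 + b5)) (a2 + 36 * a1 + 126 * a0 + 84 * b7 + 9 * b6) (-(9 * a2 + 84 * a1 + 126 * a0 + 36 * b7 + b6)) (a3 + 36 * a2 + 126 * a1 + 84 * a0 + 9 * b7) (-(9 * a3 + 84 * a2 + 126 * a1 + 36 * a0 + b7)) := by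
  unfold J0 J1 at *; omega

theorem J_even_of10 {a0 a1 a2 a3 a4 a5 a6 a7 b0 b1 b2 b3 b4 b5 b6 b7 : ℤ} (h : J1 a0 a1 a2 a3 a4 a5 a6 a7) (h' : J0 b0 b1 b2 b3 b4 b5 b6 b7) :
    J0 (a0 + 36 * b7 + 126 * b6 + 84 * b5 + 9 * b4) (-(9 * a0 + 84 * b7 + 126 * b6 + 36 * b5 + b4)) (a1 + 36 * a0 + 126 * b7 + 84 * b6 + 9 * b5) (-(9 * a1 + 84 * a0 + 126 * b7 + 36 * b6 + b5)) (a2 + 36 * a1 + 126 * a0 + 84 * b7 + 9 * b6) (-(9 * a2 + 84 * a1 + 126 * a0 + 36 * b7 + b6)) (a3 + 36 * a2 + 126 * a1 + 84 * a0 + 9 * b7) (-(9 * a3 + 84 * a2 + 126 * a1 + 36 * a0 + b7)) := by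
  unfold J0 J1 at *; omega


theorem inv9 (N : ℕ) :
    (N % 2 = 0 → J0 (t 9 (8 * N)) (t 9 (8 * N + 1)) (t 9 (8 * N + 2)) (t 9 (8 * N + 3))
      (t 9 (8 * N + 4)) (t 9 (8 * N + 5)) (t 9 (8 * N + 6)) (t 9 (8 * N + 7))) ∧
    (N % 2 = 1 → J1 (t 9 (8 * N)) (t 9 (8 * N + 1)) (t 9 (8 * N + 2)) (t 9 (8 * N + 3))
      (t 9 (8 * N + 4)) (t 9 (8 * N + 5)) (t 9 (8 * N + 6)) (t 9 (8 * N + 7))) := by
  induction N using Nat.strong_induction_on with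
  | _ N ih =>
    rcases Nat.even_or_odd' N with ⟨M, h | h⟩
    · subst h
      refine ⟨fun _ => ?_, fun h => by omega⟩
      cases M with
      | zero =>
        norm_num [t_zero, t9_1, t9_2, t9_3, t9_4, t9_5, t9_6, t9_7, J0]
      | succ M =>
        have e0 : t 9 (8 * (2 * (M + 1))) = t 9 (8 * (M + 1)) + 36 * t 9 (8 * M + 7) + 126 * t 9 (8 * M + 6) + 84 * t 9 (8 * M + 5) + 9 * t 9 (8 * M + 4) := by
          have := t9e (8 * M + 4)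
          rw [show 8 * (2 * (M + 1)) = 2 * (8 * M + 4) + 8 by ring, this]
          rfl
        have e1 : t 9 (8 * (2 * (M + 1)) + 1) = -(9 * t 9 (8 * (M + 1)) + 84 * t 9 (8 * M + 7) + 126 * t 9 (8 * M + 6) + 36 * t 9 (8 * M + 5) + t 9 (8 * M + 4)) := by
          have := t9o (8 * M + 4)
          rw [show 8 * (2 * (M + 1)) + 1 = 2 * (8 * M + 4) + 9 by ring, this]
          rfl
        have e2 : t 9 (8 * (2 * (M + 1)) + 2) = t 9 (8 * (M + 1) + 1) + 36 * t 9 (8 * (M + 1)) + 126 * t 9 (8 * M + 7) + 84 * t 9 (8 * M + 6) + 9 * t 9 (8 * M + 5) := by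
          have := t9e (8 * M + 5)
          rw [show 8 * (2 * (M + 1)) + 2 = 2 * (8 * M + 5) + 8 by ring, this]
          rfl
        have e3 : t 9 (8 * (2 * (M + 1)) + 3) = -(9 * t 9 (8 * (M + 1) + 1) + 84 * t 9 (8 * (M + 1)) + 126 * t 9 (8 * M + 7) + 36 * t 9 (8 * M + 6) + t 9 (8 * M + 5)) := by
          have := t9o (8 * M + 5)
          rw [show 8 * (2 * (M + 1)) + 3 = 2 * (8 * M + 5) + 9 by ring, this]
          rfl
        have e4 : t 9 (8 * (2 * (M + 1)) + 4) = t 9 (8 * (M + 1) + 2) + 36 * t 9 (8 * (M + 1) + 1) + 126 * t 9 (8 * (M + 1)) + 84 * t 9 (8 * M + 7) + 9 * t 9 (8 * M + 6) := by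
          have := t9e (8 * M + 6)
          rw [show 8 * (2 * (M + 1)) + 4 = 2 * (8 * M + 6) + 8 by ring, this]
          rfl
        have e5 : t 9 (8 * (2 * (M + 1)) + 5) = -(9 * t 9 (8 * (M + 1) + 2) + 84 * t 9 (8 * (M + 1) + 1) + 126 * t 9 (8 * (M + 1)) + 36 * t 9 (8 * M + 7) + t 9 (8 * M + 6)) := by
          have := t9o (8 * M + 6)
          rw [show 8 * (2 * (M + 1)) + 5 = 2 * (8 * M + 6) + 9 by ring, this]
          rfl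
        have e6 : t 9 (8 * (2 * (M + 1)) + 6) = t 9 (8 * (M + 1) + 3) + 36 * t 9 (8 * (M + 1) + 2) + 126 * t 9 (8 * (M + 1) + 1) + 84 * t 9 (8 * (M + 1)) + 9 * t 9 (8 * M + 7) := by
          have := t9e (8 * M + 7)
          rw [show 8 * (2 * (M + 1)) + 6 = 2 * (8 * M + 7) + 8 by ring, this]
          rfl
        have e7 : t 9 (8 * (2 * (M + 1)) + 7) = -(9 * t 9 (8 * (M + 1) + 3) + 84 * t 9 (8 * (M + 1) + 2) + 126 * t 9 (8 * (M + 1) + 1) + 36 * t 9 (8 * (M + 1)) + t 9 (8 * M + 7)) := by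
          have := t9o (8 * M + 7)
          rw [show 8 * (2 * (M + 1)) + 7 = 2 * (8 * M + 7) + 9 by ring, this]
          rfl
        rw [e0, e1, e2, e3, e4, e5, e6, e7]
        have i1 := ih (M + 1) (by omega)
        have i2 := ih M (by omega)
        rcases Nat.mod_two_eq_zero_or_one M with hM | hM
        · exact J_even_of10 (i1.2 (by omega)) (i2.1 hM)
        · exact J_even_of01 (i1.1 (by omega)) (i2.2 hM)
    · subst h
      refine ⟨fun h => by omega, fun _ => ?_⟩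
      have e0 : t 9 (8 * (2 * M + 1)) = t 9 (8 * M + 4) + 36 * t 9 (8 * M + 3) + 126 * t 9 (8 * M + 2) + 84 * t 9 (8 * M + 1) + 9 * t 9 (8 * M) := by
        have := t9e (8 * M)
        rw [show 8 * (2 * M + 1) = 2 * (8 * M) + 8 by ring, this]
      have e1 : t 9 (8 * (2 * M + 1) + 1) = -(9 * t 9 (8 * M + 4) + 84 * t 9 (8 * M + 3) + 126 * t 9 (8 * M + 2) + 36 * t 9 (8 * M + 1) + t 9 (8 * M)) := by
        have := t9o (8 * M)
        rw [show 8 * (2 * M + 1) + 1 = 2 * (8 * M) + 9 by ring, this]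
      have e2 : t 9 (8 * (2 * M + 1) + 2) = t 9 (8 * M + 5) + 36 * t 9 (8 * M + 4) + 126 * t 9 (8 * M + 3) + 84 * t 9 (8 * M + 2) + 9 * t 9 (8 * M + 1) := by
        have := t9e (8 * M + 1)
        rw [show 8 * (2 * M + 1) + 2 = 2 * (8 * M + 1) + 8 by ring, this]
      have e3 : t 9 (8 * (2 * M + 1) + 3) = -(9 * t 9 (8 * M + 5) + 84 * t 9 (8 * M + 4) + 126 * t 9 (8 * M + 3) + 36 * t 9 (8 * M + 2) + t 9 (8 * M + 1)) := by
        have := t9o (8 * M + 1)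
        rw [show 8 * (2 * M + 1) + 3 = 2 * (8 * M + 1) + 9 by ring, this]
      have e4 : t 9 (8 * (2 * M + 1) + 4) = t 9 (8 * M + 6) + 36 * t 9 (8 * M + 5) + 126 * t 9 (8 * M + 4) + 84 * t 9 (8 * M + 3) + 9 * t 9 (8 * M + 2) := by
        have := t9e (8 * M + 2)
        rw [show 8 * (2 * M + 1) + 4 = 2 * (8 * M + 2) + 8 by ring, this]
      have e5 : t 9 (8 * (2 * M + 1) + 5) = -(9 * t 9 (8 * M + 6) + 84 * t 9 (8 * M + 5) + 126 * t 9 (8 * M + 4) + 36 * t 9 (8 * M + 3) + t 9 (8 * M + 2)) := by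
        have := t9o (8 * M + 2)
        rw [show 8 * (2 * M + 1) + 5 = 2 * (8 * M + 2) + 9 by ring, this]
      have e6 : t 9 (8 * (2 * M + 1) + 6) = t 9 (8 * M + 7) + 36 * t 9 (8 * M + 6) + 126 * t 9 (8 * M + 5) + 84 * t 9 (8 * M + 4) + 9 * t 9 (8 * M + 3) := by
        have := t9e (8 * M + 3)
        rw [show 8 * (2 * M + 1) + 6 = 2 * (8 * M + 3) + 8 by ring, this]
      have e7 : t 9 (8 * (2 * M + 1) + 7) = -(9 * t 9 (8 * M + 7) + 84 * t 9 (8 * M + 6) + 126 * t 9 (8 * M + 5) + 36 * t 9 (8 * M + 4) + t 9 (8 * M + 3)) := by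
        have := t9o (8 * M + 3)
        rw [show 8 * (2 * M + 1) + 7 = 2 * (8 * M + 3) + 9 by ring, this]
      rw [e0, e1, e2, e3, e4, e5, e6, e7]
      have i2 := ih M (by omega)
      rcases Nat.mod_two_eq_zero_or_one M with hM | hM
      · exact J_odd_of0 (i2.1 hM)
      · exact J_odd_of1 (i2.2 hM)

end Pool.Agent.V11276.TM
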