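import Pool.Agent.V11276.TM3

/-! The ninth power of the Thue-Morse product: valuations. -/

namespace Pool.Agent.V11276.TM

/-- normalised class, even level -/
def R0 (a0 a1 a2 a3 a4 a5 a6 a7 : ℤ) : Prop :=
  (a0 + a1 + 5 * a2 + 21 * a3 + 67 * a4 + 99 * a5 + 247 * a6 + 71 * a7) % 512 = 0 ∧
  (a1 + 2 * a2 + 3 * a3 + 12 * a4 + 7 * a5 + 18 * a6 + 21 * a7) % 64 = 0 ∧
  (a2 + 6 * a4 + 4 * a5 + a6 + 4 * a7) % 16 = 8 ∧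
  (a3 + 4 * a4 + 6 * a5 + 4 * a6 + a7) % 16 = 8 ∧
  (a4) % 2 = 1 ∧
  (a5) % 2 = 1 ∧
  (a6) % 2 = 1 ∧
  (a7) % 2 = 1

/-- normalised class, odd level -/
def R1 (a0 a1 a2 a3 a4 a5 a6 a7 : ℤ) : Prop :=
  (a0 + a1 + 5 * a2 + 21 * a3 + 67 * a4 + 99 * a5 + 119 * a6 + 71 * a7) % 256 = 128 ∧
  (a1 + 6 * a2 + 3 * a3 + 4 * a4 + 23 * a5 + 22 * a6 + 5 * a7) % 64 = 32 ∧
  (a2 + 2 * a4 + a6) % 8 = 0 ∧
  (a3 + 2 * a5 + a7) % 8 = 0 ∧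
  (a4) % 2 = 1 ∧
  (a5) % 2 = 1 ∧
  (a6) % 2 = 1 ∧
  (a7) % 2 = 1

theorem R0_of_J0 {a0 a1 a2 a3 a4 a5 a6 a7 : ℤ} (h : J0 a0 a1 a2 a3 a4 a5 a6 a7) : R0 a0 a1 a2 a3 a4 a5 a6 a7 := by
  unfold J0 R0 at *; omega

/-- all odd -/
def AllOdd (a0 a1 a2 a3 a4 a5 a6 a7 : ℤ) : Prop :=
  a0 % 2 = 1 ∧ a1 % 2 = 1 ∧ a2 % 2 = 1 ∧ a3 % 2 = 1 ∧ a4 % 2 = 1 ∧ a5 % 2 = 1 ∧ a6 % 2 = 1 ∧ a7 % 2 = 1

theorem R0_odd {a0 a1 a2 a3 a4 a5 a6 a7 : ℤ} (h : R0 a0 a1 a2 a3 a4 a5 a6 a7) : AllOdd a0 a1 a2 a3 a4 a5 a6 a7 := by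
  unfold R0 AllOdd at *; omega

theorem R1_odd {a0 a1 a2 a3 a4 a5 a6 a7 : ℤ} (h : R1 a0 a1 a2 a3 a4 a5 a6 a7) : AllOdd a0 a1 a2 a3 a4 a5 a6 a7 := by
  unfold R1 AllOdd at *; omega

theorem R0_step {a0 a1 a2 a3 a4 a5 a6 a7 : ℤ} (h : R0 a0 a1 a2 a3 a4 a5 a6 a7) : ∃ c0 c1 c2 c3 c4 c5 c6 c7 : ℤ,
    a4 + 36 * a3 + 126 * a2 + 84 * a1 + 9 * a0 = 8 * c0 ∧ -(9 * a4 + 84 * a3 + 126 * a2 + 36 * a1 + a0) = 8 * c1 ∧ a5 + 36 * a4 + 126 * a3 + 84 * a2 + 9 * a1 = 8 * c2 ∧ -(9 * a5 + 84 * a4 + 126 * a3 + 36 * a2 + a1) = 8 * c3 ∧ a6 + 36 * a5 + 126 * a4 + 84 * a3 + 9 * a2 = 8 * c4 ∧ -(9 * a6 + 84 * a5 + 126 * a4 + 36 * a3 + a2) = 8 * c5 ∧ a7 + 36 * a6 + 126 * a5 + 84 * a4 + 9 * a3 = 8 * c6 ∧ -(9 * a7 + 84 * a6 + 126 * a5 + 36 * a4 + a3) = 8 * c7 ∧ R1 c0 c1 c2 c3 c4 c5 c6 c7 := by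
  refine ⟨(a4 + 36 * a3 + 126 * a2 + 84 * a1 + 9 * a0) / 8, (-(9 * a4 + 84 * a3 + 126 * a2 + 36 * a1 + a0)) / 8, (a5 + 36 * a4 + 126 * a3 + 84 * a2 + 9 * a1) / 8, (-(9 * a5 + 84 * a4 + 126 * a3 + 36 * a2 + a1)) / 8, (a6 + 36 * a5 + 126 * a4 + 84 * a3 + 9 * a2) / 8, (-(9 * a6 + 84 * a5 + 126 * a4 + 36 * a3 + a2)) / 8, (a7 + 36 * a6 + 126 * a5 + 84 * a4 + 9 * a3) / 8, (-(9 * a7 + 84 * a6 + 126 * a5 + 36 * a4 + a3)) / 8, ?_⟩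
  unfold R0 R1 at *; omega

theorem R1_step {a0 a1 a2 a3 a4 a5 a6 a7 : ℤ} (h : R1 a0 a1 a2 a3 a4 a5 a6 a7) : ∃ c0 c1 c2 c3 c4 c5 c6 c7 : ℤ,
    a4 + 36 * a3 + 126 * a2 + 84 * a1 + 9 * a0 = 4 * c0 ∧ -(9 * a4 + 84 * a3 + 126 * a2 + 36 * a1 + a0) = 4 * c1 ∧ a5 + 36 * a4 + 126 * a3 + 84 * a2 + 9 * a1 = 4 * c2 ∧ -(9 * a5 + 84 * a4 + 126 * a3 + 36 * a2 + a1) = 4 * c3 ∧ a6 + 36 * a5 + 126 * a4 + 84 * a3 + 9 * a2 = 4 * c4 ∧ -(9 * a6 + 84 * a5 + 126 * a4 + 36 * a3 + a2) = 4 * c5 ∧ a7 + 36 * a6 + 126 * a5 + 84 * a4 + 9 * a3 = 4 * c6 ∧ -(9 * a7 + 84 * a6 + 126 * a5 + 36 * a4 + a3) = 4 * c7 ∧ R0 c0 c1 c2 c3 c4 c5 c6 c7 := by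
  refine ⟨(a4 + 36 * a3 + 126 * a2 + 84 * a1 + 9 * a0) / 4, (-(9 * a4 + 84 * a3 + 126 * a2 + 36 * a1 + a0)) / 4, (a5 + 36 * a4 + 126 * a3 + 84 * a2 + 9 * a1) / 4, (-(9 * a5 + 84 * a4 + 126 * a3 + 36 * a2 + a1)) / 4, (a6 + 36 * a5 + 126 * a4 + 84 * a3 + 9 * a2) / 4, (-(9 * a6 + 84 * a5 + 126 * a4 + 36 * a3 + a2)) / 4, (a7 + 36 * a6 + 126 * a5 + 84 * a4 + 9 * a3) / 4, (-(9 * a7 + 84 * a6 + 126 * a5 + 36 * a4 + a3)) / 4, ?_⟩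
  unfold R0 R1 at *; omega

/-- the exact valuation -/
def A9 (r : ℕ) : ℕ := 5 * ((r + 1) / 2) - 2 * (r % 2)

/-- scaled block -/
def B9 (n e : ℕ) (a0 a1 a2 a3 a4 a5 a6 a7 : ℤ) : Prop :=
  t 9 (8 * n) = 2 ^ e * a0 ∧ t 9 (8 * n + 1) = 2 ^ e * a1 ∧ t 9 (8 * n + 2) = 2 ^ e * a2 ∧ t 9 (8 * n + 3) = 2 ^ e * a3 ∧ t 9 (8 * n + 4) = 2 ^ e * a4 ∧ t 9 (8 * n + 5) = 2 ^ e * a5 ∧ t 9 (8 * n + 6) = 2 ^ e * a6 ∧ t 9 (8 * n + 7) = 2 ^ e * a7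

theorem B9_step {M e f : ℕ} {a0 a1 a2 a3 a4 a5 a6 a7 c0 c1 c2 c3 c4 c5 c6 c7 : ℤ} (h : B9 M e a0 a1 a2 a3 a4 a5 a6 a7)
    (h0 : a4 + 36 * a3 + 126 * a2 + 84 * a1 + 9 * a0 = 2 ^ f * c0) (h1 : -(9 * a4 + 84 * a3 + 126 * a2 + 36 * a1 + a0) = 2 ^ f * c1) (h2 : a5 + 36 * a4 + 126 * a3 + 84 * a2 + 9 * a1 = 2 ^ f * c2) (h3 : -(9 * a5 + 84 * a4 + 126 * a3 + 36 * a2 + a1) = 2 ^ f * c3) (h4 : a6 + 36 * a5 + 126 * a4 + 84 * a3 + 9 * a2 = 2 ^ f * c4) (h5 : -(9 * a6 + 84 * a5 + 126 * a4 + 36 * a3 + a2) = 2 ^ f * c5) (h6 : a7 + 36 * a6 + 126 * a5 + 84 * a4 + 9 * a3 = 2 ^ f * c6) (h7 : -(9 * a7 + 84 * a6 + 126 * a5 + 36 * a4 + a3) = 2 ^ f * c7) :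
    B9 (2 * M + 1) (e + f) c0 c1 c2 c3 c4 c5 c6 c7 := by
  obtain ⟨g0, g1, g2, g3, g4, g5, g6, g7⟩ := h
  refine ⟨?_, ?_, ?_, ?_, ?_, ?_, ?_, ?_⟩
  · have := t9e (8 * M)
    rw [show 8 * (2 * M + 1) = 2 * (8 * M) + 8 by ring, this]
    simp only [add_assoc, Nat.reduceAdd]
    rw [g0, g1, g2, g3, g4, pow_add, mul_assoc, ← h0]
    ring
  · have := t9o (8 * M)
    rw [show 8 * (2 * M + 1) + 1 = 2 * (8 * M) + 9 by ring, this]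
    simp only [add_assoc, Nat.reduceAdd]
    rw [g0, g1, g2, g3, g4, pow_add, mul_assoc, ← h1]
    ring
  · have := t9e (8 * M + 1)
    rw [show 8 * (2 * M + 1) + 2 = 2 * (8 * M + 1) + 8 by ring, this]
    simp only [add_assoc, Nat.reduceAdd]
    rw [g1, g2, g3, g4, g5, pow_add, mul_assoc, ← h2]
    ring
  · have := t9o (8 * M + 1)
    rw [show 8 * (2 * M + 1) + 3 = 2 * (8 * M + 1) + 9 by ring, this]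
    simp only [add_assoc, Nat.reduceAdd]
    rw [g1, g2, g3, g4, g5, pow_add, mul_assoc, ← h3]
    ring
  · have := t9e (8 * M + 2)
    rw [show 8 * (2 * M + 1) + 4 = 2 * (8 * M + 2) + 8 by ring, this]
    simp only [add_assoc, Nat.reduceAdd]
    rw [g2, g3, g4, g5, g6, pow_add, mul_assoc, ← h4]
    ring
  · have := t9o (8 * M + 2)
    rw [show 8 * (2 * M + 1) + 5 = 2 * (8 * M + 2) + 9 by ring, this]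
    simp only [add_assoc, Nat.reduceAdd]
    rw [g2, g3, g4, g5, g6, pow_add, mul_assoc, ← h5]
    ring
  · have := t9e (8 * M + 3)
    rw [show 8 * (2 * M + 1) + 6 = 2 * (8 * M + 3) + 8 by ring, this]
    simp only [add_assoc, Nat.reduceAdd]
    rw [g3, g4, g5, g6, g7, pow_add, mul_assoc, ← h6]
    ring
  · have := t9o (8 * M + 3)
    rw [show 8 * (2 * M + 1) + 7 = 2 * (8 * M + 3) + 9 by ring, this]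
    simp only [add_assoc, Nat.reduceAdd]
    rw [g3, g4, g5, g6, g7, pow_add, mul_assoc, ← h7]
    ring

theorem level9 (r : ℕ) : ∀ n o : ℕ, n + 1 = 2 ^ r * (2 * o + 1) →
    ∃ a0 a1 a2 a3 a4 a5 a6 a7 : ℤ, B9 n (A9 r) a0 a1 a2 a3 a4 a5 a6 a7 ∧ (r % 2 = 0 → R0 a0 a1 a2 a3 a4 a5 a6 a7) ∧
      (r % 2 = 1 → R1 a0 a1 a2 a3 a4 a5 a6 a7) := by
  induction r with
  | zero =>
    intro n o h
    have hn : n % 2 = 0 := by rw [pow_zero, one_mul] at h; omega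
    refine ⟨_, _, _, _, _, _, _, _, ⟨?_, ?_, ?_, ?_, ?_, ?_, ?_, ?_⟩,
      fun _ => R0_of_J0 ((inv9 n).1 hn), fun h => by omega⟩ <;>
    simp [A9]
  | succ r ih =>
    intro n o h
    obtain ⟨M, rfl⟩ : ∃ M, n = 2 * M + 1 := by
      rw [pow_succ] at h
      exact ⟨2 ^ r * (2 * o + 1) - 1, by
        have : 0 < 2 ^ r * (2 * o + 1) := by positivity
        have e : 2 ^ r * 2 * (2 * o + 1) = 2 * (2 ^ r * (2 * o + 1)) := by ring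
        omega⟩
    have hM : M + 1 = 2 ^ r * (2 * o + 1) := by
      rw [pow_succ] at h
      have e : 2 ^ r * 2 * (2 * o + 1) = 2 * (2 ^ r * (2 * o + 1)) := by ring
      omega
    obtain ⟨a0, a1, a2, a3, a4, a5, a6, a7, hB, hP0, hP1⟩ := ih M o hM
    rcases Nat.mod_two_eq_zero_or_one r with hr | hr
    · obtain ⟨c0, c1, c2, c3, c4, c5, c6, c7, h0, h1, h2, h3, h4, h5, h6, h7, hP⟩ := R0_step (hP0 hr)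
      refine ⟨c0, c1, c2, c3, c4, c5, c6, c7, ?_, fun h => by omega, fun _ => hP⟩
      have := B9_step (f := 3) hB h0 h1 h2 h3 h4 h5 h6 h7
      have e : A9 (r + 1) = A9 r + 3 := by unfold A9; omega
      rw [e]; exact this
    · obtain ⟨c0, c1, c2, c3, c4, c5, c6, c7, h0, h1, h2, h3, h4, h5, h6, h7, hP⟩ := R1_step (hP1 hr)
      refine ⟨c0, c1, c2, c3, c4, c5, c6, c7, ?_, fun _ => hP, fun h => by omega⟩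
      have := B9_step (f := 2) hB h0 h1 h2 h3 h4 h5 h6 h7
      have e : A9 (r + 1) = A9 r + 2 := by unfold A9; omega
      rw [e]; exact this

theorem val9 (n j : ℕ) (hj : j < 8) :
    emultiplicity (2 : ℤ) (t 9 (8 * n + j)) = (A9 (padicValNat 2 (n + 1)) : ℕ) := by
  obtain ⟨o, ho⟩ := exists_odd_part n
  obtain ⟨a0, a1, a2, a3, a4, a5, a6, a7, ⟨h0, h1, h2, h3, h4, h5, h6, h7⟩, hP0, hP1⟩ := level9 _ n o ho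
  have hodd : AllOdd a0 a1 a2 a3 a4 a5 a6 a7 := by
    rcases Nat.mod_two_eq_zero_or_one (padicValNat 2 (n + 1)) with hr | hr
    · exact R0_odd (hP0 hr)
    · exact R1_odd (hP1 hr)
  obtain ⟨k0, k1, k2, k3, k4, k5, k6, k7⟩ := hodd
  interval_cases j
  · exact emult_of_odd h0 k0
  · exact emult_of_odd h1 k1
  · exact emult_of_odd h2 k2
  · exact emult_of_odd h3 k3
  · exact emult_of_odd h4 k4
  · exact emult_of_odd h5 k5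
  · exact emult_of_odd h6 k6
  · exact emult_of_odd h7 k7

end Pool.Agent.V11276.TM
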