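import Pool.Agent.V11276.TM3b

/-! The seventeenth power of the Thue-Morse product: two coefficients. -/

namespace Pool.Agent.V11276.TM

/-- block transition -/
def stepF (l : ℕ → ℤ) (r : ℕ) : ℤ :=
  if r % 2 = 0 then ∑ j ∈ Finset.range 9, ((17).choose (2 * j) : ℤ) * l (r / 2 + 8 - j)
  else - ∑ j ∈ Finset.range 9, ((17).choose (2 * j + 1) : ℤ) * l (r / 2 + 8 - j)

theorem stepF_spec {M : ℕ} {l : ℕ → ℤ} (h : ∀ c < 16, t 17 (16 * M + c) = l c) :
    ∀ r < 16, t 17 (16 * (2 * M + 1) + r) = stepF l r := by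
  intro r hr
  unfold stepF
  split_ifs with h2
  · have h1 := t_even 8 (16 * M + r / 2)
    rw [show 2 * (16 * M + r / 2 + 8) = 16 * (2 * M + 1) + r by omega] at h1
    norm_num only at h1
    rw [h1]
    refine Finset.sum_congr rfl fun j hj => ?_
    have := Finset.mem_range.1 hj
    rw [show 16 * M + r / 2 + 8 - j = 16 * M + (r / 2 + 8 - j) by omega, h _ (by omega)]
  · have h1 := t_odd 8 (16 * M + r / 2)
    rw [show 2 * (16 * M + r / 2 + 8) + 1 = 16 * (2 * M + 1) + r by omega] at h1
    norm_num only at h1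
    rw [h1]
    congr 1
    refine Finset.sum_congr rfl fun j hj => ?_
    have := Finset.mem_range.1 hj
    rw [show 16 * M + r / 2 + 8 - j = 16 * M + (r / 2 + 8 - j) by omega, h _ (by omega)]

/-- list version of the transition -/
def stepL (l : List ℤ) : List ℤ := (List.range 16).map (stepF fun c => l.getD c 0)

theorem stepL_spec {M : ℕ} {l : List ℤ} (h : ∀ c < 16, t 17 (16 * M + c) = l.getD c 0) :
    ∀ r < 16, t 17 (16 * (2 * M + 1) + r) = (stepL l).getD r 0 := by
  intro r hr
  rw [stepF_spec h r hr]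
  unfold stepL
  rw [List.getD_eq_getElem _ _ (by simpa using hr)]
  simp

theorem t17_1 : t 17 1 = -17 := by
  rw [t_rec]; norm_num [Finset.sum_range_succ, Nat.choose, t_zero]

theorem t17_2 : t 17 2 = 119 := by
  rw [t_rec]; norm_num [Finset.sum_range_succ, Nat.choose, t_zero, t17_1]

theorem t17_3 : t 17 3 = -391 := by
  rw [t_rec]; norm_num [Finset.sum_range_succ, Nat.choose, t_zero, t17_1]

theorem t17_4 : t 17 4 = 187 := by
  rw [t_rec]; norm_num [Finset.sum_range_succ, Nat.choose, t_zero, t17_1, t17_2]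

theorem t17_5 : t 17 5 = 3349 := by
  rw [t_rec]; norm_num [Finset.sum_range_succ, Nat.choose, t_zero, t17_1, t17_2]

theorem t17_6 : t 17 6 = -12291 := by
  rw [t_rec]; norm_num [Finset.sum_range_succ, Nat.choose, t_zero, t17_1, t17_2, t17_3]

theorem t17_7 : t 17 7 = 11475 := by
  rw [t_rec]; norm_num [Finset.sum_range_succ, Nat.choose, t_zero, t17_1, t17_2, t17_3]

theorem t17_8 : t 17 8 = 44149 := by
  rw [t_rec]; norm_num [Finset.sum_range_succ, Nat.choose, t_zero, t17_1, t17_2, t17_3, t17_4]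

theorem t17_9 : t 17 9 = -167365 := by
  rw [t_rec]; norm_num [Finset.sum_range_succ, Nat.choose, t_zero, t17_1, t17_2, t17_3, t17_4]

theorem t17_10 : t 17 10 = 177123 := by
  rw [t_rec]; norm_num [Finset.sum_range_succ, Nat.choose, t_zero, t17_1, t17_2, t17_3, t17_4, t17_5]

theorem t17_11 : t 17 11 = 321997 := by
  rw [t_rec]; norm_num [Finset.sum_range_succ, Nat.choose, t_zero, t17_1, t17_2, t17_3, t17_4, t17_5]

theorem t17_12 : t 17 12 = -1382321 := by
  rw [t_rec]; norm_num [Finset.sum_range_succ, Nat.choose, t_zero, t17_1, t17_2, t17_3, t17_4, t17_5, t17_6]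

theorem t17_13 : t 17 13 = 1693761 := by
  rw [t_rec]; norm_num [Finset.sum_range_succ, Nat.choose, t_zero, t17_1, t17_2, t17_3, t17_4, t17_5, t17_6]

theorem t17_14 : t 17 14 = 1329417 := by
  rw [t_rec]; norm_num [Finset.sum_range_succ, Nat.choose, t_zero, t17_1, t17_2, t17_3, t17_4, t17_5, t17_6, t17_7]

theorem t17_15 : t 17 15 = -8124793 := by
  rw [t_rec]; norm_num [Finset.sum_range_succ, Nat.choose, t_zero, t17_1, t17_2, t17_3, t17_4, t17_5, t17_6, t17_7]

/-- the first block -/
def L0 : List ℤ := [1, -17, 119, -391, 187, 3349, -12291, 11475, 44149, -167365, 177123, 321997, -1382321, 1693761, 1329417, -8124793]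

theorem L0_spec : ∀ c < 16, t 17 (16 * 0 + c) = L0.getD c 0 := by
  intro c hc
  interval_cases c
  · norm_num [L0, t_zero]
  · norm_num [L0, t17_1]
  · norm_num [L0, t17_2]
  · norm_num [L0, t17_3]
  · norm_num [L0, t17_4]
  · norm_num [L0, t17_5]
  · norm_num [L0, t17_6]
  · norm_num [L0, t17_7]
  · norm_num [L0, t17_8]
  · norm_num [L0, t17_9]
  · norm_num [L0, t17_10]
  · norm_num [L0, t17_11]
  · norm_num [L0, t17_12]
  · norm_num [L0, t17_13]
  · norm_num [L0, t17_14]
  · norm_num [L0, t17_15]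

theorem L5_spec : ∀ c < 16, t 17 (16 * 31 + c) =
    (stepL (stepL (stepL (stepL (stepL L0))))).getD c 0 :=
  stepL_spec (M := 15) (stepL_spec (M := 7) (stepL_spec (M := 3) (stepL_spec (M := 1)
    (stepL_spec (M := 0) L0_spec))))

theorem t17_496 : t 17 496 = 405038508762146334834688 := by
  have h := L5_spec 0 (by norm_num)
  have h2 : (stepL (stepL (stepL (stepL (stepL L0))))).getD 0 0 = 405038508762146334834688 := by
    decide +kernel
  rw [h2] at h
  exact h

theorem t17_504 : t 17 504 = -98392455150140920430592 := by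
  have h := L5_spec 8 (by norm_num)
  have h2 : (stepL (stepL (stepL (stepL (stepL L0))))).getD 8 0 = -98392455150140920430592 := by
    decide +kernel
  rw [h2] at h
  exact h

theorem val496 : emultiplicity (2 : ℤ) (t 17 496) = (18 : ℕ) :=
  emult_of_odd (a := 1545099291847787227) (by rw [t17_496]; norm_num) (by norm_num)

theorem val504 : emultiplicity (2 : ℤ) (t 17 504) = (19 : ℕ) :=
  emult_of_odd (a := -187668714809686509) (by rw [t17_504]; norm_num) (by norm_num)

end Pool.Agent.V11276.TM
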