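import Mathlib

namespace Pool.Agent.V11276.Turan

open Polynomial Finset

variable {ι : Type*} [DecidableEq ι]

/-- product `∏ (1 + w_i X)` -/
noncomputable def fw (s : Finset ι) (w : ι → ℝ) : ℝ[X] := ∏ i ∈ s, (1 + C (w i) * X)

noncomputable def FF (s : Finset ι) (w : ι → ℝ) (t : ℝ) : ℝ := ∏ i ∈ s, (1 + w i * t)
noncomputable def AA (s : Finset ι) (w : ι → ℝ) (t : ℝ) : ℝ := ∑ i ∈ s, w i / (1 + w i * t)
noncomputable def BB (s : Finset ι) (w : ι → ℝ) (t : ℝ) : ℝ := ∑ i ∈ s, (w i / (1 + w i * t)) ^ 2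
noncomputable def GG (s : Finset ι) (w : ι → ℝ) (t : ℝ) : ℝ :=
  FF s w t * ((AA s w t) ^ 2 - BB s w t)

lemma derivs (s : Finset ι) (w : ι → ℝ) (t : ℝ) :
    (∀ i ∈ s, 1 + w i * t ≠ 0) →
    (fw s w).eval t = FF s w t ∧ (derivative (fw s w)).eval t = FF s w t * AA s w t ∧
      (derivative (derivative (fw s w))).eval t = GG s w t := by
  induction s using Finset.induction_on with
  | empty => intro _; simp [fw, FF, AA, BB, GG]
  | insert a s ha ih =>
    intro h
    obtain ⟨h0, h1, h2⟩ := ih (fun i hi => h i (Finset.mem_insert_of_mem hi))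
    have hane : 1 + w a * t ≠ 0 := h a (Finset.mem_insert_self _ _)
    have e : fw (insert a s) w = (1 + C (w a) * X) * fw s w := by
      unfold fw; rw [Finset.prod_insert ha]
    have eF : FF (insert a s) w t = (1 + w a * t) * FF s w t := by
      unfold FF; rw [Finset.prod_insert ha]
    have eA : AA (insert a s) w t = w a / (1 + w a * t) + AA s w t := by
      unfold AA; rw [Finset.sum_insert ha]
    have eB : BB (insert a s) w t = (w a / (1 + w a * t)) ^ 2 + BB s w t := by
      unfold BB; rw [Finset.sum_insert ha]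
    have hG : GG s w t = FF s w t * ((AA s w t) ^ 2 - BB s w t) := rfl
    have hG' : GG (insert a s) w t = FF (insert a s) w t *
      ((AA (insert a s) w t) ^ 2 - BB (insert a s) w t) := rfl
    rw [hG', eF, eA, eB, e]
    refine ⟨?_, ?_, ?_⟩
    · simp [h0]
    · simp only [derivative_mul, derivative_add, derivative_one, derivative_C, derivative_X,
        eval_add, eval_mul, eval_one, eval_C, eval_X, h0, h1, zero_mul, zero_add, mul_one, eval_zero]
      field_simp
    · simp only [derivative_mul, derivative_add, derivative_one, derivative_C, derivative_X,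
        eval_add, eval_mul, eval_one, eval_C, eval_X, h0, h1, h2, hG, zero_mul, zero_add, mul_one,
        eval_zero, add_zero]
      field_simp
      ring

/-- pair extraction -/
lemma pair (s : Finset ι) (w : ι → ℝ) (t : ℝ) (i j : ι) (hij : i ≠ j) (hi : i ∉ s) (hj : j ∉ s)
    (h1 : 1 + w i * t ≠ 0) (h2 : 1 + w j * t ≠ 0) :
    GG (insert i (insert j s)) w t = FF s w t * (2 * (w i * w j)
      + 2 * ((w i + w j) + 2 * (w i * w j) * t) * AA s w t
      + (1 + (w i + w j) * t + w i * w j * t ^ 2) * ((AA s w t) ^ 2 - BB s w t)) := by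
  have hi' : i ∉ insert j s := by simp [hij, hi]
  unfold GG
  have eF : FF (insert i (insert j s)) w t = (1 + w i * t) * ((1 + w j * t) * FF s w t) := by
    unfold FF; rw [Finset.prod_insert hi', Finset.prod_insert hj]
  have eA : AA (insert i (insert j s)) w t =
      w i / (1 + w i * t) + (w j / (1 + w j * t) + AA s w t) := by
    unfold AA; rw [Finset.sum_insert hi', Finset.sum_insert hj]
  have eB : BB (insert i (insert j s)) w t =
      (w i / (1 + w i * t)) ^ 2 + ((w j / (1 + w j * t)) ^ 2 + BB s w t) := by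
    unfold BB; rw [Finset.sum_insert hi', Finset.sum_insert hj]
  rw [eF, eA, eB]
  have hx : (1 + w i * t) * (w i / (1 + w i * t)) = w i := mul_div_cancel₀ _ h1
  have hy : (1 + w j * t) * (w j / (1 + w j * t)) = w j := mul_div_cancel₀ _ h2
  generalize w i / (1 + w i * t) = x at hx ⊢
  generalize w j / (1 + w j * t) = y at hy ⊢
  generalize AA s w t = A
  generalize BB s w t = B
  generalize FF s w t = F
  generalize w i = a at hx ⊢
  generalize w j = b at hy ⊢
  linear_combination (2 * F * ((1 + b * t) * y) + 2 * A * F * (1 + b * t)) * hx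
    + (2 * F * a + 2 * A * F * (1 + a * t)) * hy

omit [DecidableEq ι] in
lemma sum_sq_le (s : Finset ι) (a : ι → ℝ) (ha : ∀ i ∈ s, 0 ≤ a i) :
    ∑ i ∈ s, a i ^ 2 ≤ (∑ i ∈ s, a i) ^ 2 := by
  have : ∑ i ∈ s, a i ^ 2 ≤ ∑ i ∈ s, a i * (∑ j ∈ s, a j) := by
    apply Finset.sum_le_sum
    intro i hi
    have h1 : a i ≤ ∑ j ∈ s, a j := Finset.single_le_sum ha hi
    nlinarith [ha i hi]
  rw [← Finset.sum_mul] at this
  nlinarith

lemma Epos (s : Finset ι) (w : ι → ℝ) (t S : ℝ) (ht : 0 ≤ t) (htS : t * S < 1 / 3)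
    (hS : ∑ i ∈ s, max (-w i) 0 ≤ S) :
    0 < 2 + 4 * (t * AA s w t) + t ^ 2 * ((AA s w t) ^ 2 - BB s w t) := by
  have hS0 : 0 ≤ S := le_trans (Finset.sum_nonneg (fun i _ => le_max_right _ _)) hS
  have hw : ∀ i ∈ s, max (-w i) 0 ≤ S := fun i hi =>
    le_trans (Finset.single_le_sum (f := fun i => max (-w i) 0)
      (fun i _ => le_max_right _ _) hi) hS
  have hden : ∀ i ∈ s, 2 / 3 < 1 + w i * t := by
    intro i hi
    have h1 := hw i hi
    have h2 : -w i ≤ S := le_trans (le_max_left _ _) h1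
    nlinarith
  set α : ι → ℝ := fun i => t * w i / (1 + w i * t) with hα
  have htA : t * AA s w t = ∑ i ∈ s, α i := by
    unfold AA; rw [Finset.mul_sum]
    exact Finset.sum_congr rfl (fun i _ => by rw [hα]; ring)
  have htB : t ^ 2 * BB s w t = ∑ i ∈ s, α i ^ 2 := by
    unfold BB; rw [Finset.mul_sum]
    exact Finset.sum_congr rfl (fun i _ => by rw [hα]; ring)
  set P := ∑ i ∈ s, max (α i) 0 with hP
  set N := ∑ i ∈ s, max (-α i) 0 with hN
  have hP0 : 0 ≤ P := Finset.sum_nonneg (fun i _ => le_max_right _ _)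
  have hN0 : 0 ≤ N := Finset.sum_nonneg (fun i _ => le_max_right _ _)
  have hPN : ∑ i ∈ s, α i = P - N := by
    rw [hP, hN, ← Finset.sum_sub_distrib]
    apply Finset.sum_congr rfl
    intro i _
    rcases le_total (α i) 0 with h | h
    · rw [max_eq_right h, max_eq_left (by linarith)]; ring
    · rw [max_eq_left h, max_eq_right (by linarith)]; ring
  have hsq : ∑ i ∈ s, α i ^ 2 ≤ P ^ 2 + N ^ 2 := by
    have h1 := sum_sq_le s (fun i => max (α i) 0) (fun i _ => le_max_right _ _)
    have h2 := sum_sq_le s (fun i => max (-α i) 0) (fun i _ => le_max_right _ _)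
    have h3 : ∑ i ∈ s, α i ^ 2 = ∑ i ∈ s, (max (α i) 0) ^ 2 + ∑ i ∈ s, (max (-α i) 0) ^ 2 := by
      rw [← Finset.sum_add_distrib]
      apply Finset.sum_congr rfl
      intro i _
      rcases le_total (α i) 0 with h | h
      · rw [max_eq_right h, max_eq_left (by linarith)]; ring
      · rw [max_eq_left h, max_eq_right (by linarith)]; ring
    rw [h3]; linarith
  have hNlt : N < 1 / 2 := by
    have h1 : N ≤ ∑ i ∈ s, (3 / 2) * t * max (-w i) 0 := by
      rw [hN]
      apply Finset.sum_le_sum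
      intro i hi
      have hd := hden i hi
      have hd0 : 0 < 1 + w i * t := by linarith
      apply max_le
      · rw [hα]
        have h4 : -(t * w i / (1 + w i * t)) = t * (-w i) / (1 + w i * t) := by ring
        simp only []
        rw [h4, div_le_iff₀ hd0]
        have h5 : t * (-w i) ≤ t * max (-w i) 0 := mul_le_mul_of_nonneg_left (le_max_left _ _) ht
        have h6 : 0 ≤ t * max (-w i) 0 := mul_nonneg ht (le_max_right _ _)
        nlinarith
      · have h6 : 0 ≤ t * max (-w i) 0 := mul_nonneg ht (le_max_right _ _)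
        linarith
    rw [← Finset.mul_sum] at h1
    have h2 : (3 / 2) * t * ∑ i ∈ s, max (-w i) 0 ≤ (3 / 2) * t * S :=
      mul_le_mul_of_nonneg_left hS (by linarith)
    linarith
  have e : t ^ 2 * ((AA s w t) ^ 2 - BB s w t) = (t * AA s w t) ^ 2 - t ^ 2 * BB s w t := by ring
  rw [e, htA, htB, hPN]
  nlinarith [mul_nonneg hP0 hN0]

end Pool.Agent.V11276.Turan
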