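import Pool.Agent.V11276.Turan1

namespace Pool.Agent.V11276.Turan

open Polynomial Finset

variable {n : ℕ}

/-- the constraint set -/
def KK (L : Finset (Fin n)) (S : ℝ) : Set (Fin n → ℝ) :=
  {w | (∀ i ∈ L, 0 ≤ w i) ∧ (∀ i ∈ Lᶜ, w i ≤ 0) ∧ ∑ i ∈ L, w i = S ∧ ∑ i ∈ Lᶜ, w i = -S}

lemma negsum (L : Finset (Fin n)) (S : ℝ) (w : Fin n → ℝ) (hw : w ∈ KK L S) :
    ∑ i, max (-w i) 0 = S := by
  obtain ⟨h1, h2, h3, h4⟩ := hw
  rw [← Finset.sum_add_sum_compl L]
  have e1 : ∑ i ∈ L, max (-w i) 0 = 0 :=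
    Finset.sum_eq_zero (fun i hi => max_eq_right (by have := h1 i hi; linarith))
  have e2 : ∑ i ∈ Lᶜ, max (-w i) 0 = ∑ i ∈ Lᶜ, -w i :=
    Finset.sum_congr rfl (fun i hi => max_eq_left (by have := h2 i hi; linarith))
  rw [e1, e2, Finset.sum_neg_distrib, h4]; ring

lemma absle (L : Finset (Fin n)) (S : ℝ) (w : Fin n → ℝ) (hw : w ∈ KK L S) (i : Fin n) :
    -S ≤ w i ∧ w i ≤ S := by
  obtain ⟨h1, h2, h3, h4⟩ := hw
  have hS0 : 0 ≤ S := by rw [← h3]; exact Finset.sum_nonneg h1
  by_cases hi : i ∈ L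
  · have := Finset.single_le_sum h1 hi
    have h5 := h1 i hi
    rw [h3] at this
    exact ⟨by linarith, this⟩
  · have hi' : i ∈ Lᶜ := Finset.mem_compl.mpr hi
    have h6 := Finset.single_le_sum (f := fun i => -w i) (fun i hi => by have := h2 i hi; linarith) hi'
    rw [Finset.sum_neg_distrib, h4] at h6
    have h5 := h2 i hi'
    exact ⟨by linarith, by linarith⟩

lemma KKcompact (L : Finset (Fin n)) (S : ℝ) : IsCompact (KK L S) := by
  have h1 : IsCompact (Set.pi Set.univ (fun _ : Fin n => Set.Icc (-S) S)) :=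
    isCompact_univ_pi (fun _ => isCompact_Icc)
  apply h1.of_isClosed_subset
  · have e : KK L S = (⋂ i ∈ L, {w : Fin n → ℝ | 0 ≤ w i}) ∩ ((⋂ i ∈ Lᶜ, {w : Fin n → ℝ | w i ≤ 0}) ∩
        ({w : Fin n → ℝ | ∑ i ∈ L, w i = S} ∩ {w : Fin n → ℝ | ∑ i ∈ Lᶜ, w i = -S})) := by
      ext w; simp [KK]
    rw [e]
    refine IsClosed.inter ?_ (IsClosed.inter ?_ (IsClosed.inter ?_ ?_))
    · exact isClosed_biInter (fun i _ => isClosed_le continuous_const (continuous_apply i))
    · exact isClosed_biInter (fun i _ => isClosed_le (continuous_apply i) continuous_const)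
    · exact isClosed_eq (continuous_finset_sum _ (fun i _ => continuous_apply i)) continuous_const
    · exact isClosed_eq (continuous_finset_sum _ (fun i _ => continuous_apply i)) continuous_const
  · intro w hw i _
    exact absle L S w hw i

lemma denpos (L : Finset (Fin n)) (S t : ℝ) (ht : 0 ≤ t) (htS : t * S < 1 / 3)
    (w : Fin n → ℝ) (hw : w ∈ KK L S) (i : Fin n) : 0 < 1 + w i * t := by
  have := (absle L S w hw i).1
  nlinarith

lemma GGcont (L : Finset (Fin n)) (S t : ℝ) (ht : 0 ≤ t) (htS : t * S < 1 / 3) :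
    ContinuousOn (fun w : Fin n → ℝ => GG univ w t) (KK L S) := by
  unfold GG FF AA BB
  have hq : ∀ i : Fin n, ContinuousOn (fun w : Fin n → ℝ => w i / (1 + w i * t)) (KK L S) := by
    intro i
    apply ContinuousOn.div
    · exact (continuous_apply i).continuousOn
    · exact (continuous_const.add ((continuous_apply i).mul continuous_const)).continuousOn
    · intro w hw; exact (denpos L S t ht htS w hw i).ne'
  apply ContinuousOn.mul
  · apply Continuous.continuousOn
    exact continuous_finset_prod _ (fun i _ =>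
      continuous_const.add ((continuous_apply i).mul continuous_const))
  · apply ContinuousOn.sub
    · exact (continuousOn_finset_sum _ (fun i _ => hq i)).pow 2
    · exact continuousOn_finset_sum _ (fun i _ => (hq i).pow 2)

/-- replacing two coordinates of the same block by their average increases `GG` -/
lemma swap_lt (L : Finset (Fin n)) (S t : ℝ) (ht : 0 ≤ t) (htS : t * S < 1 / 3)
    (w : Fin n → ℝ) (hw : w ∈ KK L S) (i j : Fin n) (hij : i ≠ j) (hne : w i ≠ w j)
    (w' : Fin n → ℝ) (hw' : w' = fun l => if l = i ∨ l = j then (w i + w j) / 2 else w l) :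
    GG univ w t < GG univ w' t := by
  set s : Finset (Fin n) := (univ.erase i).erase j with hs
  have hi : i ∉ s := by simp [hs]
  have hj : j ∉ s := by simp [hs]
  have hu : (univ : Finset (Fin n)) = insert i (insert j s) := by
    rw [hs, Finset.insert_erase (by simp [Ne.symm hij]), Finset.insert_erase (Finset.mem_univ i)]
  have hns := negsum L S w hw
  have hsub : ∑ l ∈ s, max (-w l) 0 ≤ S := by
    rw [← hns]
    exact Finset.sum_le_sum_of_subset_of_nonneg (Finset.subset_univ _) (fun _ _ _ => le_max_right _ _)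
  have hE := Epos s w t S ht htS hsub
  have hdi := denpos L S t ht htS w hw i
  have hdj := denpos L S t ht htS w hw j
  have hw's : ∀ l ∈ s, w' l = w l := by
    intro l hl
    have h1 : l ≠ i := fun h => hi (h ▸ hl)
    have h2 : l ≠ j := fun h => hj (h ▸ hl)
    rw [hw']; simp [h1, h2]
  have hw'i : w' i = (w i + w j) / 2 := by rw [hw']; simp
  have hw'j : w' j = (w i + w j) / 2 := by rw [hw']; simp
  have eF : FF s w' t = FF s w t := Finset.prod_congr rfl (fun l hl => by rw [hw's l hl])
  have eA : AA s w' t = AA s w t := Finset.sum_congr rfl (fun l hl => by rw [hw's l hl])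
  have eB : BB s w' t = BB s w t := Finset.sum_congr rfl (fun l hl => by rw [hw's l hl])
  have hFpos : 0 < FF s w t := Finset.prod_pos (fun l _ => denpos L S t ht htS w hw l)
  have hdi' : 1 + w' i * t ≠ 0 := by rw [hw'i]; nlinarith
  have hdj' : 1 + w' j * t ≠ 0 := by rw [hw'j]; nlinarith
  rw [hu, pair s w t i j hij hi hj hdi.ne' hdj.ne', pair s w' t i j hij hi hj hdi' hdj', eF, eA, eB,
    hw'i, hw'j]
  have hsq : 0 < (w i - w j) ^ 2 := by
    have : w i - w j ≠ 0 := sub_ne_zero.mpr hne
    positivity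
  have key := mul_pos (mul_pos hFpos hE) hsq
  nlinarith [key]

lemma KKswap (L : Finset (Fin n)) (S : ℝ) 
    (w : Fin n → ℝ) (hw : w ∈ KK L S) (i j : Fin n) (hij : i ≠ j) (hL : (i ∈ L ↔ j ∈ L))
    (w' : Fin n → ℝ) (hw' : w' = fun l => if l = i ∨ l = j then (w i + w j) / 2 else w l) :
    w' ∈ KK L S := by
  obtain ⟨h1, h2, h3, h4⟩ := hw
  have hsumT : ∀ T : Finset (Fin n), (i ∈ T ↔ j ∈ T) → ∑ l ∈ T, w' l = ∑ l ∈ T, w l := by
    intro T hT
    by_cases hiT : i ∈ T
    · have hjT : j ∈ T := hT.mp hiT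
      have hj' : j ∈ T.erase i := by simp [hjT, Ne.symm hij]
      rw [← Finset.add_sum_erase T w' hiT, ← Finset.add_sum_erase T w hiT,
        ← Finset.add_sum_erase _ w' hj', ← Finset.add_sum_erase _ w hj']
      have e : ∑ l ∈ (T.erase i).erase j, w' l = ∑ l ∈ (T.erase i).erase j, w l := by
        apply Finset.sum_congr rfl
        intro l hl
        have hl2 : l ≠ j ∧ l ≠ i := by simp at hl; exact ⟨hl.1, hl.2.1⟩
        rw [hw']; simp [hl2.1, hl2.2]
      have hw'i : w' i = (w i + w j) / 2 := by rw [hw']; simp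
      have hw'j : w' j = (w i + w j) / 2 := by rw [hw']; simp
      rw [e, hw'i, hw'j]; ring
    · have hjT : j ∉ T := fun h => hiT (hT.mpr h)
      apply Finset.sum_congr rfl
      intro l hl
      have hl1 : l ≠ i := fun h => hiT (h ▸ hl)
      have hl2 : l ≠ j := fun h => hjT (h ▸ hl)
      rw [hw']; simp [hl1, hl2]
  refine ⟨?_, ?_, ?_, ?_⟩
  · intro l hl
    rw [hw']
    simp only []
    split_ifs with h
    · have hiL : i ∈ L := by
        rcases h with h | h
        · rw [← h]; exact hl
        · rw [hL, ← h]; exact hl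
      have := h1 i hiL; have := h1 j (hL.mp hiL); linarith
    · exact h1 l hl
  · intro l hl
    rw [hw']
    simp only []
    split_ifs with h
    · have hiL : i ∈ Lᶜ := by
        rw [Finset.mem_compl] at hl ⊢
        rcases h with h | h
        · rw [← h]; exact hl
        · rw [hL, ← h]; exact hl
      have hjL : j ∈ Lᶜ := by
        rw [Finset.mem_compl] at hiL ⊢; rw [← hL]; exact hiL
      have := h2 i hiL; have := h2 j hjL; linarith
    · exact h2 l hl
  · rw [hsumT L hL, h3]
  · rw [hsumT Lᶜ (by simp [hL]), h4]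

theorem smooth (L : Finset (Fin n)) (S t : ℝ) (ht : 0 ≤ t) (htS : t * S < 1 / 3)
    (w : Fin n → ℝ) (hw : w ∈ KK L S) (hL1 : 0 < L.card) (hL2 : 0 < Lᶜ.card) :
    GG univ w t ≤ GG univ (fun i => if i ∈ L then S / L.card else -S / Lᶜ.card) t := by
  obtain ⟨v, hv, hmax⟩ := (KKcompact L S).exists_isMaxOn ⟨w, hw⟩ (GGcont L S t ht htS)
  have hvw : GG univ w t ≤ GG univ v t := hmax hw
  have heq : ∀ i j, (i ∈ L ↔ j ∈ L) → v i = v j := by
    intro i j hL
    by_contra hne
    have hij : i ≠ j := fun h => hne (by rw [h])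
    have h1 := swap_lt L S t ht htS v hv i j hij hne _ rfl
    have h2 := KKswap L S v hv i j hij hL _ rfl
    have h3 := hmax h2
    simp only [Set.mem_setOf_eq] at h3
    exact absurd h1 (not_lt.mpr h3)
  have hve : v = (fun i => if i ∈ L then S / L.card else -S / Lᶜ.card) := by
    funext i
    have hcL : (0:ℝ) < L.card := by exact_mod_cast hL1
    have hcR : (0:ℝ) < Lᶜ.card := by exact_mod_cast hL2
    split_ifs with hi
    · have h1 : ∑ l ∈ L, v l = L.card * v i := by
        rw [Finset.sum_congr rfl (fun l hl => heq l i (by simp [hl, hi]))]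
        simp
      rw [hv.2.2.1] at h1
      rw [h1]; field_simp
    · have hi' : i ∈ Lᶜ := Finset.mem_compl.mpr hi
      have h1 : ∑ l ∈ Lᶜ, v l = Lᶜ.card * v i := by
        rw [Finset.sum_congr rfl (fun l hl => heq l i (by
          have := Finset.mem_compl.mp hl; simp [this, hi]))]
        simp
      rw [hv.2.2.2] at h1
      rw [h1]; field_simp
  rw [← hve]; exact hvw

end Pool.Agent.V11276.Turan
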