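import Mathlib

namespace Pool.Agent.V11276.Turan

lemma lobe1 (x : ℝ) (h1 : -1 ≤ x) (h2 : x ≤ 1) :
    (1 - x ^ 2) ^ 1 * (1 + x) * (7 * x ^ 2 - 2 * x - 1) ≤ 3072/2401 := by
  rcases le_total x (-1/2) with hx | hx
  · have hu : 0 ≤ x - (-1) := by linarith
    have hv : 0 ≤ (-1/2) - x := by linarith
    have e : 3072/2401 - (1 - x ^ 2) ^ 1 * (1 + x) * (7 * x ^ 2 - 2 * x - 1) =
        (98304/2401) * ((x - (-1)) ^ 0 * ((-1/2) - x) ^ 5)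
        + (491520/2401) * ((x - (-1)) ^ 1 * ((-1/2) - x) ^ 4)
        + (675712/2401) * ((x - (-1)) ^ 2 * ((-1/2) - x) ^ 3)
        + (445216/2401) * ((x - (-1)) ^ 3 * ((-1/2) - x) ^ 2)
        + (193796/2401) * ((x - (-1)) ^ 4 * ((-1/2) - x) ^ 1)
        + (47883/2401) * ((x - (-1)) ^ 5 * ((-1/2) - x) ^ 0) := by ring
    have hp : ∀ j k : ℕ, 0 ≤ (x - (-1)) ^ j * ((-1/2) - x) ^ k :=
      fun j k => mul_nonneg (pow_nonneg hu j) (pow_nonneg hv k)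
    linarith [hp 0 5, hp 1 4, hp 2 3, hp 3 2, hp 4 1, hp 5 0]
  rcases le_total x 0 with hx | hx
  · have hu : 0 ≤ x - (-1/2) := by linarith
    have hv : 0 ≤ (0) - x := by linarith
    have e : 3072/2401 - (1 - x ^ 2) ^ 1 * (1 + x) * (7 * x ^ 2 - 2 * x - 1) =
        (47883/2401) * ((x - (-1/2)) ^ 0 * ((0) - x) ^ 5)
        + (285034/2401) * ((x - (-1/2)) ^ 1 * ((0) - x) ^ 4)
        + (810168/2401) * ((x - (-1/2)) ^ 2 * ((0) - x) ^ 3)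
        + (1175120/2401) * ((x - (-1/2)) ^ 3 * ((0) - x) ^ 2)
        + (760432/2401) * ((x - (-1/2)) ^ 4 * ((0) - x) ^ 1)
        + (175136/2401) * ((x - (-1/2)) ^ 5 * ((0) - x) ^ 0) := by ring
    have hp : ∀ j k : ℕ, 0 ≤ (x - (-1/2)) ^ j * ((0) - x) ^ k :=
      fun j k => mul_nonneg (pow_nonneg hu j) (pow_nonneg hv k)
    linarith [hp 0 5, hp 1 4, hp 2 3, hp 3 2, hp 4 1, hp 5 0]
  rcases le_total x (1/2) with hx | hx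
  · have hu : 0 ≤ x - (0) := by linarith
    have hv : 0 ≤ (1/2) - x := by linarith
    have e : 3072/2401 - (1 - x ^ 2) ^ 1 * (1 + x) * (7 * x ^ 2 - 2 * x - 1) =
        (175136/2401) * ((x - (0)) ^ 0 * ((1/2) - x) ^ 5)
        + (990928/2401) * ((x - (0)) ^ 1 * ((1/2) - x) ^ 4)
        + (2097104/2401) * ((x - (0)) ^ 2 * ((1/2) - x) ^ 3)
        + (2001064/2401) * ((x - (0)) ^ 3 * ((1/2) - x) ^ 2)
        + (822858/2401) * ((x - (0)) ^ 4 * ((1/2) - x) ^ 1)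
        + (119913/2401) * ((x - (0)) ^ 5 * ((1/2) - x) ^ 0) := by ring
    have hp : ∀ j k : ℕ, 0 ≤ (x - (0)) ^ j * ((1/2) - x) ^ k :=
      fun j k => mul_nonneg (pow_nonneg hu j) (pow_nonneg hv k)
    linarith [hp 0 5, hp 1 4, hp 2 3, hp 3 2, hp 4 1, hp 5 0]
  rcases le_total x (3/4) with hx | hx
  · have hu : 0 ≤ x - (1/2) := by linarith
    have hv : 0 ≤ (3/4) - x := by linarith
    have e : 3072/2401 - (1 - x ^ 2) ^ 1 * (1 + x) * (7 * x ^ 2 - 2 * x - 1) =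
        (3837216/2401) * ((x - (1/2)) ^ 0 * ((3/4) - x) ^ 5)
        + (15613392/2401) * ((x - (1/2)) ^ 1 * ((3/4) - x) ^ 4)
        + (23351504/2401) * ((x - (1/2)) ^ 2 * ((3/4) - x) ^ 3)
        + (15418600/2401) * ((x - (1/2)) ^ 3 * ((3/4) - x) ^ 2)
        + (4266266/2401) * ((x - (1/2)) ^ 4 * ((3/4) - x) ^ 1)
        + (439801/2401) * ((x - (1/2)) ^ 5 * ((3/4) - x) ^ 0) := by ring
    have hp : ∀ j k : ℕ, 0 ≤ (x - (1/2)) ^ j * ((3/4) - x) ^ k :=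
      fun j k => mul_nonneg (pow_nonneg hu j) (pow_nonneg hv k)
    linarith [hp 0 5, hp 1 4, hp 2 3, hp 3 2, hp 4 1, hp 5 0]
  rcases le_total x (7/8) with hx | hx
  · have hu : 0 ≤ x - (3/4) := by linarith
    have hv : 0 ≤ (7/8) - x := by linarith
    have e : 3072/2401 - (1 - x ^ 2) ^ 1 * (1 + x) * (7 * x ^ 2 - 2 * x - 1) =
        (14073632/2401) * ((x - (3/4)) ^ 0 * ((7/8) - x) ^ 5)
        + (37291984/2401) * ((x - (3/4)) ^ 1 * ((7/8) - x) ^ 4)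
        + (30443984/2401) * ((x - (3/4)) ^ 2 * ((7/8) - x) ^ 3)
        + (15135208/2401) * ((x - (3/4)) ^ 3 * ((7/8) - x) ^ 2)
        + (18338490/2401) * ((x - (3/4)) ^ 4 * ((7/8) - x) ^ 1)
        + (10445721/2401) * ((x - (3/4)) ^ 5 * ((7/8) - x) ^ 0) := by ring
    have hp : ∀ j k : ℕ, 0 ≤ (x - (3/4)) ^ j * ((7/8) - x) ^ k :=
      fun j k => mul_nonneg (pow_nonneg hu j) (pow_nonneg hv k)
    linarith [hp 0 5, hp 1 4, hp 2 3, hp 3 2, hp 4 1, hp 5 0]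
  have hu : 0 ≤ x - (7/8) := by linarith
  have hv : 0 ≤ (1) - x := by linarith
  have e : 3072/2401 - (1 - x ^ 2) ^ 1 * (1 + x) * (7 * x ^ 2 - 2 * x - 1) =
      (10445721/2401) * ((x - (7/8)) ^ 0 * ((1) - x) ^ 5)
      + (86118720/2401) * ((x - (7/8)) ^ 1 * ((1) - x) ^ 4)
      + (286256128/2401) * ((x - (7/8)) ^ 2 * ((1) - x) ^ 3)
      + (455901184/2401) * ((x - (7/8)) ^ 3 * ((1) - x) ^ 2)
      + (345964544/2401) * ((x - (7/8)) ^ 4 * ((1) - x) ^ 1)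
      + (100663296/2401) * ((x - (7/8)) ^ 5 * ((1) - x) ^ 0) := by ring
  have hp : ∀ j k : ℕ, 0 ≤ (x - (7/8)) ^ j * ((1) - x) ^ k :=
    fun j k => mul_nonneg (pow_nonneg hu j) (pow_nonneg hv k)
  linarith [hp 0 5, hp 1 4, hp 2 3, hp 3 2, hp 4 1, hp 5 0]

lemma lobe2 (x : ℝ) (h1 : -1 ≤ x) (h2 : x ≤ 1) :
    (1 - x ^ 2) ^ 2 * (1 + x) * (9 * x ^ 2 - 2 * x - 1) ≤ 1 := by
  rcases le_total x (-1/2) with hx | hx
  · have hu : 0 ≤ x - (-1) := by linarith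
    have hv : 0 ≤ (-1/2) - x := by linarith
    have e : 1 - (1 - x ^ 2) ^ 2 * (1 + x) * (9 * x ^ 2 - 2 * x - 1) =
        128 * ((x - (-1)) ^ 0 * ((-1/2) - x) ^ 7)
        + 896 * ((x - (-1)) ^ 1 * ((-1/2) - x) ^ 6)
        + 2688 * ((x - (-1)) ^ 2 * ((-1/2) - x) ^ 5)
        + 3840 * ((x - (-1)) ^ 3 * ((-1/2) - x) ^ 4)
        + 2880 * ((x - (-1)) ^ 4 * ((-1/2) - x) ^ 3)
        + 1224 * ((x - (-1)) ^ 5 * ((-1/2) - x) ^ 2)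
        + 320 * ((x - (-1)) ^ 6 * ((-1/2) - x) ^ 1)
        + 47 * ((x - (-1)) ^ 7 * ((-1/2) - x) ^ 0) := by ring
    have hp : ∀ j k : ℕ, 0 ≤ (x - (-1)) ^ j * ((-1/2) - x) ^ k :=
      fun j k => mul_nonneg (pow_nonneg hu j) (pow_nonneg hv k)
    linarith [hp 0 7, hp 1 6, hp 2 5, hp 3 4, hp 4 3, hp 5 2, hp 6 1, hp 7 0]
  rcases le_total x 0 with hx | hx
  · have hu : 0 ≤ x - (-1/2) := by linarith
    have hv : 0 ≤ (0) - x := by linarith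
    have e : 1 - (1 - x ^ 2) ^ 2 * (1 + x) * (9 * x ^ 2 - 2 * x - 1) =
        47 * ((x - (-1/2)) ^ 0 * ((0) - x) ^ 7)
        + 338 * ((x - (-1/2)) ^ 1 * ((0) - x) ^ 6)
        + 1332 * ((x - (-1/2)) ^ 2 * ((0) - x) ^ 5)
        + 3320 * ((x - (-1/2)) ^ 3 * ((0) - x) ^ 4)
        + 4880 * ((x - (-1/2)) ^ 4 * ((0) - x) ^ 3)
        + 3936 * ((x - (-1/2)) ^ 5 * ((0) - x) ^ 2)
        + 1600 * ((x - (-1/2)) ^ 6 * ((0) - x) ^ 1)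
        + 256 * ((x - (-1/2)) ^ 7 * ((0) - x) ^ 0) := by ring
    have hp : ∀ j k : ℕ, 0 ≤ (x - (-1/2)) ^ j * ((0) - x) ^ k :=
      fun j k => mul_nonneg (pow_nonneg hu j) (pow_nonneg hv k)
    linarith [hp 0 7, hp 1 6, hp 2 5, hp 3 4, hp 4 3, hp 5 2, hp 6 1, hp 7 0]
  rcases le_total x (1/2) with hx | hx
  · have hu : 0 ≤ x - (0) := by linarith
    have hv : 0 ≤ (1/2) - x := by linarith
    have e : 1 - (1 - x ^ 2) ^ 2 * (1 + x) * (9 * x ^ 2 - 2 * x - 1) =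
        256 * ((x - (0)) ^ 0 * ((1/2) - x) ^ 7)
        + 1984 * ((x - (0)) ^ 1 * ((1/2) - x) ^ 6)
        + 6240 * ((x - (0)) ^ 2 * ((1/2) - x) ^ 5)
        + 10160 * ((x - (0)) ^ 3 * ((1/2) - x) ^ 4)
        + 9080 * ((x - (0)) ^ 4 * ((1/2) - x) ^ 3)
        + 4380 * ((x - (0)) ^ 5 * ((1/2) - x) ^ 2)
        + 1058 * ((x - (0)) ^ 6 * ((1/2) - x) ^ 1)
        + 101 * ((x - (0)) ^ 7 * ((1/2) - x) ^ 0) := by ring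
    have hp : ∀ j k : ℕ, 0 ≤ (x - (0)) ^ j * ((1/2) - x) ^ k :=
      fun j k => mul_nonneg (pow_nonneg hu j) (pow_nonneg hv k)
    linarith [hp 0 7, hp 1 6, hp 2 5, hp 3 4, hp 4 3, hp 5 2, hp 6 1, hp 7 0]
  rcases le_total x (3/4) with hx | hx
  · have hu : 0 ≤ x - (1/2) := by linarith
    have hv : 0 ≤ (3/4) - x := by linarith
    have e : 1 - (1 - x ^ 2) ^ 2 * (1 + x) * (9 * x ^ 2 - 2 * x - 1) =
        12928 * ((x - (1/2)) ^ 0 * ((3/4) - x) ^ 7)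
        + 68032 * ((x - (1/2)) ^ 1 * ((3/4) - x) ^ 6)
        + 141600 * ((x - (1/2)) ^ 2 * ((3/4) - x) ^ 5)
        + 147760 * ((x - (1/2)) ^ 3 * ((3/4) - x) ^ 4)
        + 83320 * ((x - (1/2)) ^ 4 * ((3/4) - x) ^ 3)
        + 29652 * ((x - (1/2)) ^ 5 * ((3/4) - x) ^ 2)
        + 9926 * ((x - (1/2)) ^ 6 * ((3/4) - x) ^ 1)
        + 2321 * ((x - (1/2)) ^ 7 * ((3/4) - x) ^ 0) := by ring
    have hp : ∀ j k : ℕ, 0 ≤ (x - (1/2)) ^ j * ((3/4) - x) ^ k :=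
      fun j k => mul_nonneg (pow_nonneg hu j) (pow_nonneg hv k)
    linarith [hp 0 7, hp 1 6, hp 2 5, hp 3 4, hp 4 3, hp 5 2, hp 6 1, hp 7 0]
  have hu : 0 ≤ x - (3/4) := by linarith
  have hv : 0 ≤ (1) - x := by linarith
  have e : 1 - (1 - x ^ 2) ^ 2 * (1 + x) * (9 * x ^ 2 - 2 * x - 1) =
      2321 * ((x - (3/4)) ^ 0 * ((1) - x) ^ 7)
      + 22568 * ((x - (3/4)) ^ 1 * ((1) - x) ^ 6)
      + 105504 * ((x - (3/4)) ^ 2 * ((1) - x) ^ 5)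
      + 267520 * ((x - (3/4)) ^ 3 * ((1) - x) ^ 4)
      + 378880 * ((x - (3/4)) ^ 4 * ((1) - x) ^ 3)
      + 294912 * ((x - (3/4)) ^ 5 * ((1) - x) ^ 2)
      + 114688 * ((x - (3/4)) ^ 6 * ((1) - x) ^ 1)
      + 16384 * ((x - (3/4)) ^ 7 * ((1) - x) ^ 0) := by ring
  have hp : ∀ j k : ℕ, 0 ≤ (x - (3/4)) ^ j * ((1) - x) ^ k :=
    fun j k => mul_nonneg (pow_nonneg hu j) (pow_nonneg hv k)
  linarith [hp 0 7, hp 1 6, hp 2 5, hp 3 4, hp 4 3, hp 5 2, hp 6 1, hp 7 0]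

lemma lobe3 (x : ℝ) (h1 : -1 ≤ x) (h2 : x ≤ 1) :
    (1 - x ^ 2) ^ 3 * (1 + x) * (11 * x ^ 2 - 2 * x - 1) ≤ 1 := by
  rcases le_total x (-1/2) with hx | hx
  · have hu : 0 ≤ x - (-1) := by linarith
    have hv : 0 ≤ (-1/2) - x := by linarith
    have e : 1 - (1 - x ^ 2) ^ 3 * (1 + x) * (11 * x ^ 2 - 2 * x - 1) =
        512 * ((x - (-1)) ^ 0 * ((-1/2) - x) ^ 9)
        + 4608 * ((x - (-1)) ^ 1 * ((-1/2) - x) ^ 8)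
        + 18432 * ((x - (-1)) ^ 2 * ((-1/2) - x) ^ 7)
        + 43008 * ((x - (-1)) ^ 3 * ((-1/2) - x) ^ 6)
        + 61440 * ((x - (-1)) ^ 4 * ((-1/2) - x) ^ 5)
        + 54528 * ((x - (-1)) ^ 5 * ((-1/2) - x) ^ 4)
        + 30208 * ((x - (-1)) ^ 6 * ((-1/2) - x) ^ 3)
        + 10368 * ((x - (-1)) ^ 7 * ((-1/2) - x) ^ 2)
        + 2124 * ((x - (-1)) ^ 8 * ((-1/2) - x) ^ 1)
        + 215 * ((x - (-1)) ^ 9 * ((-1/2) - x) ^ 0) := by ring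
    have hp : ∀ j k : ℕ, 0 ≤ (x - (-1)) ^ j * ((-1/2) - x) ^ k :=
      fun j k => mul_nonneg (pow_nonneg hu j) (pow_nonneg hv k)
    linarith [hp 0 9, hp 1 8, hp 2 7, hp 3 6, hp 4 5, hp 5 4, hp 6 3, hp 7 2, hp 8 1, hp 9 0]
  rcases le_total x 0 with hx | hx
  · have hu : 0 ≤ x - (-1/2) := by linarith
    have hv : 0 ≤ (0) - x := by linarith
    have e : 1 - (1 - x ^ 2) ^ 3 * (1 + x) * (11 * x ^ 2 - 2 * x - 1) =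
        215 * ((x - (-1/2)) ^ 0 * ((0) - x) ^ 9)
        + 1746 * ((x - (-1/2)) ^ 1 * ((0) - x) ^ 8)
        + 7344 * ((x - (-1/2)) ^ 2 * ((0) - x) ^ 7)
        + 21536 * ((x - (-1/2)) ^ 3 * ((0) - x) ^ 6)
        + 44832 * ((x - (-1/2)) ^ 4 * ((0) - x) ^ 5)
        + 62400 * ((x - (-1/2)) ^ 5 * ((0) - x) ^ 4)
        + 55040 * ((x - (-1/2)) ^ 6 * ((0) - x) ^ 3)
        + 29184 * ((x - (-1/2)) ^ 7 * ((0) - x) ^ 2)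
        + 8448 * ((x - (-1/2)) ^ 8 * ((0) - x) ^ 1)
        + 1024 * ((x - (-1/2)) ^ 9 * ((0) - x) ^ 0) := by ring
    have hp : ∀ j k : ℕ, 0 ≤ (x - (-1/2)) ^ j * ((0) - x) ^ k :=
      fun j k => mul_nonneg (pow_nonneg hu j) (pow_nonneg hv k)
    linarith [hp 0 9, hp 1 8, hp 2 7, hp 3 6, hp 4 5, hp 5 4, hp 6 3, hp 7 2, hp 8 1, hp 9 0]
  rcases le_total x (1/2) with hx | hx
  · have hu : 0 ≤ x - (0) := by linarith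
    have hv : 0 ≤ (1/2) - x := by linarith
    have e : 1 - (1 - x ^ 2) ^ 3 * (1 + x) * (11 * x ^ 2 - 2 * x - 1) =
        1024 * ((x - (0)) ^ 0 * ((1/2) - x) ^ 9)
        + 9984 * ((x - (0)) ^ 1 * ((1/2) - x) ^ 8)
        + 41472 * ((x - (0)) ^ 2 * ((1/2) - x) ^ 7)
        + 95488 * ((x - (0)) ^ 3 * ((1/2) - x) ^ 6)
        + 133056 * ((x - (0)) ^ 4 * ((1/2) - x) ^ 5)
        + 115296 * ((x - (0)) ^ 5 * ((1/2) - x) ^ 4)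
        + 61728 * ((x - (0)) ^ 6 * ((1/2) - x) ^ 3)
        + 19728 * ((x - (0)) ^ 7 * ((1/2) - x) ^ 2)
        + 3474 * ((x - (0)) ^ 8 * ((1/2) - x) ^ 1)
        + 269 * ((x - (0)) ^ 9 * ((1/2) - x) ^ 0) := by ring
    have hp : ∀ j k : ℕ, 0 ≤ (x - (0)) ^ j * ((1/2) - x) ^ k :=
      fun j k => mul_nonneg (pow_nonneg hu j) (pow_nonneg hv k)
    linarith [hp 0 9, hp 1 8, hp 2 7, hp 3 6, hp 4 5, hp 5 4, hp 6 3, hp 7 2, hp 8 1, hp 9 0]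
  have hu : 0 ≤ x - (1/2) := by linarith
  have hv : 0 ≤ (1) - x := by linarith
  have e : 1 - (1 - x ^ 2) ^ 3 * (1 + x) * (11 * x ^ 2 - 2 * x - 1) =
      269 * ((x - (1/2)) ^ 0 * ((1) - x) ^ 9)
      + 1368 * ((x - (1/2)) ^ 1 * ((1) - x) ^ 8)
      + 2880 * ((x - (1/2)) ^ 2 * ((1) - x) ^ 7)
      + 6144 * ((x - (1/2)) ^ 3 * ((1) - x) ^ 6)
      + 17664 * ((x - (1/2)) ^ 4 * ((1) - x) ^ 5)
      + 33792 * ((x - (1/2)) ^ 5 * ((1) - x) ^ 4)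
      + 34816 * ((x - (1/2)) ^ 6 * ((1) - x) ^ 3)
      + 18432 * ((x - (1/2)) ^ 7 * ((1) - x) ^ 2)
      + 4608 * ((x - (1/2)) ^ 8 * ((1) - x) ^ 1)
      + 512 * ((x - (1/2)) ^ 9 * ((1) - x) ^ 0) := by ring
  have hp : ∀ j k : ℕ, 0 ≤ (x - (1/2)) ^ j * ((1) - x) ^ k :=
    fun j k => mul_nonneg (pow_nonneg hu j) (pow_nonneg hv k)
  linarith [hp 0 9, hp 1 8, hp 2 7, hp 3 6, hp 4 5, hp 5 4, hp 6 3, hp 7 2, hp 8 1, hp 9 0]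
lemma Hineq1 (x z : ℝ) (h1 : -1 ≤ x) (h2 : x ≤ -1/2) (hz : 4 * x ^ 2 ≤ z) :
    0 ≤ 2 + 3 * x - 3 * x ^ 2 - 5 * x ^ 3 + z * (-1 - 2 * x + x ^ 2 / 2 + x ^ 4 / 3)
      + z ^ 2 * (1 / 2 + x ^ 2 / 2) + z ^ 3 / 6 := by
  have hz0 : 0 ≤ z := le_trans (by positivity) hz
  have hc : 0 ≤ 2 + 3 * x - 3 * x ^ 2 - 5 * x ^ 3 := by
    nlinarith [mul_nonneg (by linarith : (0:ℝ) ≤ x + 1) (sq_nonneg (x + 7/10)), sq_nonneg (x + 7/10)]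
  have hd : 0 ≤ -1 - 2 * x + x ^ 2 / 2 + x ^ 4 / 3 := by
    nlinarith [sq_nonneg (x ^ 2), sq_nonneg x]
  have := mul_nonneg hz0 hd
  positivity

lemma Hineq2 (x z : ℝ) (h1 : -1/2 ≤ x) (h2 : x ≤ 3/5) (hz : 4 * x ^ 2 ≤ z) :
    0 ≤ 2 + 3 * x - 3 * x ^ 2 - 5 * x ^ 3 + z * (-1 - 2 * x + x ^ 2 / 2 + x ^ 4 / 3)
      + z ^ 2 * (1 / 2 + x ^ 2 / 2) + z ^ 3 / 6 := by
  have hz0 : 0 ≤ z := le_trans (by positivity) hz
  have hz3 : 3 * z - 2 ≤ z ^ 3 := by nlinarith [mul_nonneg (by linarith : (0:ℝ) ≤ z + 2) (sq_nonneg (z - 1))]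
  have key : 0 ≤ (5 / 3 + 3 * x - 3 * x ^ 2 - 5 * x ^ 3) + z * (-1/2 - 2 * x + x ^ 2 / 2 + x ^ 4 / 3)
      + z ^ 2 * (1 / 2 + x ^ 2 / 2) := by
    rcases le_total x (-1/4) with hx | hx
    · have hu : 0 ≤ x + 1/2 := by linarith
      have hv : 0 ≤ -1/4 - x := by linarith
      have hc : 0 ≤ 5 / 3 + 3 * x - 3 * x ^ 2 - 5 * x ^ 3 := by
        nlinarith [mul_nonneg hu hv, mul_nonneg (mul_nonneg hu hv) hv, mul_nonneg (mul_nonneg hu hu) hv, mul_nonneg (mul_nonneg hu hu) hu]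
      have hb : 0 ≤ -1/2 - 2 * x + x ^ 2 / 2 + x ^ 4 / 3 := by
        nlinarith [sq_nonneg (x ^ 2), sq_nonneg x]
      have := mul_nonneg hz0 hb
      positivity
    · have hu : 0 ≤ x + 1/4 := by linarith
      have hv : 0 ≤ 3/5 - x := by linarith
      have hd : (-1/2 - 2 * x + x ^ 2 / 2 + x ^ 4 / 3) ^ 2 ≤ 2 * (1 + x ^ 2) * (5 / 3 + 3 * x - 3 * x ^ 2 - 5 * x ^ 3) := by
        have hp : ∀ j k : ℕ, 0 ≤ (x + 1/4) ^ j * (3/5 - x) ^ k :=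
          fun j k => mul_nonneg (pow_nonneg hu j) (pow_nonneg hv k)
        nlinarith [hp 0 8, hp 1 7, hp 2 6, hp 3 5, hp 4 4, hp 5 3, hp 6 2, hp 7 1, hp 8 0]
      have h4 : 0 ≤ 2 * (1 + x ^ 2) * ((5 / 3 + 3 * x - 3 * x ^ 2 - 5 * x ^ 3) + z * (-1/2 - 2 * x + x ^ 2 / 2 + x ^ 4 / 3)
        + z ^ 2 * (1 / 2 + x ^ 2 / 2)) := by
        nlinarith [sq_nonneg ((1 + x ^ 2) * z + (-1/2 - 2 * x + x ^ 2 / 2 + x ^ 4 / 3))]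
      have h5 : 0 < 2 * (1 + x ^ 2) := by positivity
      exact nonneg_of_mul_nonneg_right h4 h5
  nlinarith

lemma Hineq3 (x z : ℝ) (h1 : 3/5 ≤ x) (h2 : x ≤ 1) (hz : 4 * x ^ 2 ≤ z) :
    0 ≤ 2 + 3 * x - 3 * x ^ 2 - 5 * x ^ 3 + z * (-1 - 2 * x + x ^ 2 / 2 + x ^ 4 / 3)
      + z ^ 2 * (1 / 2 + x ^ 2 / 2) + z ^ 3 / 6 := by
  have hu : 0 ≤ x - 3/5 := by linarith
  have hv : 0 ≤ 1 - x := by linarith
  have hp : ∀ j k : ℕ, 0 ≤ (x - 3/5) ^ j * (1 - x) ^ k :=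
          fun j k => mul_nonneg (pow_nonneg hu j) (pow_nonneg hv k)
  obtain ⟨δ, hδ⟩ : ∃ δ, δ = z - 4 * x ^ 2 := ⟨_, rfl⟩
  have hδ0 : 0 ≤ δ := by linarith
  have hz' : z = 4 * x ^ 2 + δ := by linarith
  subst hz'
  have e0 : 0 ≤ 2 + 3 * x - 7 * x ^ 2 - 13 * x ^ 3 + 10 * x ^ 4 + 20 * x ^ 6 := by
    nlinarith [hp 0 6, hp 1 5, hp 2 4, hp 3 3, hp 4 2, hp 5 1, hp 6 0]
  have e1 : 0 ≤ -1 - 2 * x + x ^ 2 / 2 + x ^ 4 / 3 + 8 * x ^ 2 * (1 / 2 + x ^ 2 / 2) + 8 * x ^ 4 := by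
    nlinarith [hp 0 4, hp 1 3, hp 2 2, hp 3 1, hp 4 0]
  have e2 : 0 ≤ (1 / 2 + x ^ 2 / 2 + 2 * x ^ 2) * δ ^ 2 + δ ^ 3 / 6 := by positivity
  have e3 := mul_nonneg hδ0 e1
  nlinarith

lemma Hineq (x z : ℝ) (h1 : -1 ≤ x) (h2 : x ≤ 1) (hz : 4 * x ^ 2 ≤ z) :
    0 ≤ 2 + 3 * x - 3 * x ^ 2 - 5 * x ^ 3 + z * (-1 - 2 * x + x ^ 2 / 2 + x ^ 4 / 3)
      + z ^ 2 * (1 / 2 + x ^ 2 / 2) + z ^ 3 / 6 := by
  rcases le_total x (-1/2) with h | h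
  · exact Hineq1 x z h1 h hz
  · rcases le_total x (3/5) with h' | h'
    · exact Hineq2 x z h h' hz
    · exact Hineq3 x z h' h2 hz

lemma Tp (y : ℝ) (h0 : 0 ≤ y) (h1 : y ≤ 1) (p : ℕ) :
    (1 - y) ^ p * (1 + p * y + p * (p + 1) / 2 * y ^ 2 + p * (p + 1) * (p + 2) / 6 * y ^ 3) ≤ 1 := by
  induction p with
  | zero => simp
  | succ p ih =>
    have hy : 0 ≤ 1 - y := by linarith
    have h3 : 0 ≤ (1 - y) ^ p * (((p:ℝ) + 1) * (p + 2) * (p + 3) / 6 * y ^ 4) :=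
      mul_nonneg (pow_nonneg hy p) (by positivity)
    push_cast
    have e : (1 - y) ^ (p + 1) * (1 + ((p:ℝ) + 1) * y + ((p:ℝ) + 1) * ((p:ℝ) + 1 + 1) / 2 * y ^ 2
        + ((p:ℝ) + 1) * ((p:ℝ) + 1 + 1) * ((p:ℝ) + 1 + 2) / 6 * y ^ 3)
        = (1 - y) ^ p * (1 + p * y + p * (p + 1) / 2 * y ^ 2 + p * (p + 1) * (p + 2) / 6 * y ^ 3)
          - (1 - y) ^ p * (((p:ℝ) + 1) * (p + 2) * (p + 3) / 6 * y ^ 4) := by
      rw [pow_succ]; ring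
    rw [e]; linarith

lemma lobeBig (p : ℕ) (hp : 4 ≤ p) (x : ℝ) (h1 : -1 ≤ x) (h2 : x ≤ 1) :
    (1 - x ^ 2) ^ p * (1 + x) * ((2 * p + 5) * x ^ 2 - 2 * x - 1) ≤ 1 := by
  have hy1 : x ^ 2 ≤ 1 := by nlinarith
  have hy0 : 0 ≤ x ^ 2 := sq_nonneg x
  have hpos : 0 ≤ (1 - x ^ 2) ^ p := pow_nonneg (by linarith) p
  have hp' : (4:ℝ) ≤ p := by exact_mod_cast hp
  have hz : 4 * x ^ 2 ≤ p * x ^ 2 := mul_le_mul_of_nonneg_right hp' hy0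
  have hH := Hineq x (p * x ^ 2) h1 h2 hz
  have hT := Tp (x ^ 2) hy0 hy1 p
  have hN : (1 + x) * ((2 * p + 5) * x ^ 2 - 2 * x - 1) ≤
      1 + p * x ^ 2 + p * (p + 1) / 2 * (x ^ 2) ^ 2 + p * (p + 1) * (p + 2) / 6 * (x ^ 2) ^ 3 := by
    nlinarith [hH]
  calc (1 - x ^ 2) ^ p * (1 + x) * ((2 * p + 5) * x ^ 2 - 2 * x - 1)
      = (1 - x ^ 2) ^ p * ((1 + x) * ((2 * p + 5) * x ^ 2 - 2 * x - 1)) := by ring
    _ ≤ (1 - x ^ 2) ^ p * (1 + p * x ^ 2 + p * (p + 1) / 2 * (x ^ 2) ^ 2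
        + p * (p + 1) * (p + 2) / 6 * (x ^ 2) ^ 3) := mul_le_mul_of_nonneg_left hN hpos
    _ ≤ 1 := hT

lemma rhs_ge (p : ℕ) : 1 ≤ (1 - (1 / (2 * (p:ℝ) + 5)) ^ 2) ^ p * (1 + 1 / (2 * (p:ℝ) + 5)) ^ 2 := by
  set e : ℝ := 1 / (2 * (p:ℝ) + 5) with he
  have hp0 : (0:ℝ) ≤ p := Nat.cast_nonneg p
  have he0 : 0 < e := by positivity
  have he1 : (2 * (p:ℝ) + 5) * e = 1 := by rw [he]; field_simp
  have he5 : e ≤ 1 / 5 := by nlinarith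
  have hb : 1 + (p:ℝ) * (-(e ^ 2)) ≤ (1 + -(e ^ 2)) ^ p := one_add_mul_le_pow (by nlinarith) p
  have h1 : 1 - p * e ^ 2 ≤ (1 - e ^ 2) ^ p := by
    have : (1 - e ^ 2) = 1 + -(e ^ 2) := by ring
    rw [this]; linarith
  have h2 : p * e ^ 2 ≤ e / 2 := by nlinarith
  have h3 : 1 ≤ (1 - e / 2) * (1 + e) ^ 2 := by nlinarith [mul_pos he0 he0, mul_pos (mul_pos he0 he0) he0]
  have h4 : (1 - e / 2) * (1 + e) ^ 2 ≤ (1 - e ^ 2) ^ p * (1 + e) ^ 2 :=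
    mul_le_mul_of_nonneg_right (by linarith) (by positivity)
  linarith

theorem lobe (p : ℕ) (hp : 1 ≤ p) (x : ℝ) (h1 : -1 ≤ x) (h2 : x ≤ 1) :
    (1 - x ^ 2) ^ p * (1 + x) * ((2 * p + 5) * x ^ 2 - 2 * x - 1) ≤
      (1 - (1 / (2 * (p:ℝ) + 5)) ^ 2) ^ p * (1 + 1 / (2 * (p:ℝ) + 5)) ^ 2 := by
  rcases (by omega : p = 1 ∨ p = 2 ∨ p = 3 ∨ 4 ≤ p) with h | h | h | h
  · subst h
    have := lobe1 x h1 h2
    norm_num at this ⊢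
    linarith
  · refine le_trans ?_ (rhs_ge p)
    subst h
    have := lobe2 x h1 h2
    norm_num at this ⊢
    linarith
  · refine le_trans ?_ (rhs_ge p)
    subst h
    have := lobe3 x h1 h2
    norm_num at this ⊢
    linarith
  · exact le_trans (lobeBig p h x h1 h2) (rhs_ge p)

end Pool.Agent.V11276.Turan
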