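import Pool.Agent.V11276.Turan2
import Pool.Agent.V11276.Turan3

namespace Pool.Agent.V11276.Turan

open Set

noncomputable def Fp (p : ℕ) (y : ℝ) : ℝ :=
  (1 - y ^ 2) ^ p * (1 + y) * ((2 * p + 5) * y ^ 2 - 2 * y - 1)

lemma central (p : ℕ) (n e y : ℝ) (hn : n = 2 * p + 5) (he : e = 1 / n) (h1 : -1 ≤ y) (h2 : y ≤ 1) :
    - Fp p y ≤ (1 - e ^ 2) ^ p * (1 + e) ^ 2 *
      Real.exp (4 * (n * y - 1) / (n ^ 2 - 1) - (n * y - 1) ^ 2 / (n + 1)) := by
  have hp0 : (0:ℝ) ≤ p := Nat.cast_nonneg p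
  have hn5 : 5 ≤ n := by rw [hn]; linarith
  have hn0 : 0 < n := by linarith
  have he0 : 0 < e := by rw [he]; positivity
  have hne : n * e = 1 := by rw [he]; field_simp
  have he1 : e < 1 := by nlinarith
  have he2 : 0 < 1 - e ^ 2 := by nlinarith
  have hR0 : 0 ≤ (1 - e ^ 2) ^ p * (1 + e) ^ 2 *
      Real.exp (4 * (n * y - 1) / (n ^ 2 - 1) - (n * y - 1) ^ 2 / (n + 1)) := by positivity
  by_cases hc : 1 + 2 * y - n * y ^ 2 ≤ 0
  · refine le_trans ?_ hR0
    unfold Fp
    have ha : 0 ≤ (1 - y ^ 2) ^ p * (1 + y) :=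
      mul_nonneg (pow_nonneg (by nlinarith) p) (by linarith)
    have hb : 0 ≤ (2 * (p:ℝ) + 5) * y ^ 2 - 2 * y - 1 := by rw [← hn]; linarith
    have := mul_nonneg ha hb
    linarith
  · push Not at hc
    set s := y - e with hs
    have a1 : 1 + y ≤ (1 + e) * Real.exp (s / (1 + e)) := by
      have := Real.add_one_le_exp (s / (1 + e))
      have h3 : 1 + y = (1 + e) * (s / (1 + e) + 1) := by field_simp; ring
      rw [h3]; exact mul_le_mul_of_nonneg_left this (by linarith)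
    have h1e : (1 - e) ≠ 0 := by linarith
    have a2 : 1 - y ≤ (1 - e) * Real.exp (-s / (1 - e)) := by
      have := Real.add_one_le_exp (-s / (1 - e))
      have h3 : 1 - y = (1 - e) * (-s / (1 - e) + 1) := by field_simp; ring
      rw [h3]; exact mul_le_mul_of_nonneg_left this (by linarith)
    have a3 : 1 + 2 * y - n * y ^ 2 ≤ (1 + e) * Real.exp (-((n * y - 1) ^ 2 / (n + 1))) := by
      have := Real.add_one_le_exp (-((n * y - 1) ^ 2 / (n + 1)))
      have h3 : 1 + 2 * y - n * y ^ 2 = (1 + e) * (-((n * y - 1) ^ 2 / (n + 1)) + 1) := by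
        rw [he]; field_simp; ring
      rw [h3]; exact mul_le_mul_of_nonneg_left this (by linarith)
    have b1 : (1 + y) ^ (p + 1) ≤ ((1 + e) * Real.exp (s / (1 + e))) ^ (p + 1) :=
      pow_le_pow_left₀ (by linarith) a1 _
    have b2 : (1 - y) ^ p ≤ ((1 - e) * Real.exp (-s / (1 - e))) ^ p :=
      pow_le_pow_left₀ (by linarith) a2 _
    have hF : - Fp p y = (1 + y) ^ (p + 1) * (1 - y) ^ p * (1 + 2 * y - n * y ^ 2) := by
      unfold Fp
      have : (1 - y ^ 2) ^ p = (1 - y) ^ p * (1 + y) ^ p := by rw [← mul_pow]; congr 1; ring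
      rw [this, hn, pow_succ]; ring
    have c1 : (1 + y) ^ (p + 1) * (1 - y) ^ p * (1 + 2 * y - n * y ^ 2) ≤
        ((1 + e) * Real.exp (s / (1 + e))) ^ (p + 1) * ((1 - e) * Real.exp (-s / (1 - e))) ^ p *
          ((1 + e) * Real.exp (-((n * y - 1) ^ 2 / (n + 1)))) := by
      have h1e' : 0 < 1 - e := by linarith
      have hy1 : 0 ≤ 1 - y := by linarith
      apply mul_le_mul _ a3 hc.le (by positivity)
      apply mul_le_mul b1 b2 (by positivity) (by positivity)
    rw [hF]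
    refine le_trans c1 (le_of_eq ?_)
    rw [mul_pow, mul_pow, ← Real.exp_nat_mul, ← Real.exp_nat_mul]
    have e2 : (1 - e ^ 2) ^ p = (1 - e) ^ p * (1 + e) ^ p := by rw [← mul_pow]; congr 1; ring
    have e3 : 4 * (n * y - 1) / (n ^ 2 - 1) - (n * y - 1) ^ 2 / (n + 1) =
        ((p + 1 : ℕ) : ℝ) * (s / (1 + e)) + (p : ℝ) * (-s / (1 - e)) + -((n * y - 1) ^ 2 / (n + 1)) := by
      have hp : (p:ℝ) = (n - 5) / 2 := by rw [hn]; ring
      push_cast
      rw [hp, hs, he]
      have hn1 : n - 1 ≠ 0 := by linarith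
      have hn2 : n + 1 ≠ 0 := by linarith
      have hn3 : n ^ 2 - 1 ≠ 0 := by nlinarith
      have hn4 : n ^ 2 - 1 = (n - 1) * (n + 1) := by ring
      have hn6 : 1 - 1 / n = (n - 1) / n := by field_simp
      have hn7 : 1 + 1 / n = (n + 1) / n := by field_simp
      rw [hn6, hn7, hn4]
      field_simp
      ring
    rw [e3, Real.exp_add, Real.exp_add, e2, pow_succ]
    ring

lemma maxpt (p : ℕ) (hp : 1 ≤ p) (n e : ℝ) (hn : n = 2 * p + 5) (he : e = 1 / n) :
    ∃ y1, e ≤ y1 ∧ y1 < e + 4 / (n * (n - 1)) ∧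
      (∀ y ∈ Icc (-1:ℝ) 1, |Fp p y| ≤ - Fp p y1) ∧
      - Fp p y1 ≤ (1 - e ^ 2) ^ p * (1 + e) ^ 2 * Real.exp (16 / ((n - 1) * (n ^ 2 - 1))) ∧
      (1 - e ^ 2) ^ p * (1 + e) ^ 2 ≤ - Fp p y1 := by
  have hp0 : (1:ℝ) ≤ p := by exact_mod_cast hp
  have hn5 : 7 ≤ n := by rw [hn]; linarith
  have hn0 : 0 < n := by linarith
  have he0 : 0 < e := by rw [he]; positivity
  have hne : n * e = 1 := by rw [he]; field_simp
  have he1 : e ≤ 1 / 7 := by nlinarith
  have he2 : 0 < 1 - e ^ 2 := by nlinarith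
  set d := 4 / (n * (n - 1)) with hd
  have hd0 : 0 < d := by rw [hd]; have : 0 < n - 1 := by linarith
                         positivity
  have hnd : n * d = 4 / (n - 1) := by
    rw [hd]; have : n - 1 ≠ 0 := by linarith
    field_simp
  set M0 := (1 - e ^ 2) ^ p * (1 + e) ^ 2 with hM0
  have hM0pos : 0 < M0 := by positivity
  have hMe : - Fp p e = M0 := by
    unfold Fp
    have : (2 * (p:ℝ) + 5) * e ^ 2 - 2 * e - 1 = -(1 + e) := by
      rw [← hn]; nlinarith
    rw [this, hM0]; ring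
  have hcont : Continuous (fun y => - Fp p y) := by unfold Fp; fun_prop
  obtain ⟨ys, hys, hmax⟩ := (isCompact_Icc : IsCompact (Icc e (e + d))).exists_isMaxOn
    ⟨e, by constructor <;> linarith⟩ hcont.continuousOn
  have hge : M0 ≤ - Fp p ys := by
    rw [← hMe]; exact hmax (by constructor <;> linarith)
  have hn1 : 0 < n - 1 := by linarith
  have hn2 : 0 < n + 1 := by linarith
  have hn3 : 0 < n ^ 2 - 1 := by nlinarith
  -- exponent
  have hexp : ∀ y, 4 * (n * y - 1) / (n ^ 2 - 1) - (n * y - 1) ^ 2 / (n + 1)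
      = (n * y - 1) / (n + 1) * (4 / (n - 1) - (n * y - 1)) := by
    intro y
    have hn4 : n ^ 2 - 1 = (n - 1) * (n + 1) := by ring
    rw [hn4]; field_simp
  have hout : ∀ y, -1 ≤ y → y ≤ 1 → (y ≤ e ∨ e + d ≤ y) → - Fp p y ≤ M0 := by
    intro y h1 h2 h3
    have h4 := central p n e y hn he h1 h2
    refine le_trans h4 ?_
    have h5 : 4 * (n * y - 1) / (n ^ 2 - 1) - (n * y - 1) ^ 2 / (n + 1) ≤ 0 := by
      rw [hexp]
      rcases h3 with h3 | h3
      · have h6 : n * y - 1 ≤ 0 := by nlinarith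
        have h7 : (n * y - 1) / (n + 1) ≤ 0 := div_nonpos_of_nonpos_of_nonneg h6 hn2.le
        have h8 : 0 ≤ 4 / (n - 1) - (n * y - 1) := by
          have : 0 < 4 / (n - 1) := by positivity
          linarith
        exact mul_nonpos_of_nonpos_of_nonneg h7 h8
      · have h6 : 4 / (n - 1) ≤ n * y - 1 := by
          rw [← hnd]; nlinarith
        have h9 : 0 < 4 / (n - 1) := by positivity
        have h7 : 0 ≤ (n * y - 1) / (n + 1) := div_nonneg (by linarith) hn2.le
        exact mul_nonpos_of_nonneg_of_nonpos h7 (by linarith)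
    have h6 : Real.exp (4 * (n * y - 1) / (n ^ 2 - 1) - (n * y - 1) ^ 2 / (n + 1)) ≤ 1 :=
      Real.exp_le_one_iff.mpr h5
    calc M0 * _ ≤ M0 * 1 := mul_le_mul_of_nonneg_left h6 hM0pos.le
      _ = M0 := mul_one _
  have hlobe : ∀ y, -1 ≤ y → y ≤ 1 → Fp p y ≤ M0 := by
    intro y h1 h2
    have := lobe p hp y h1 h2
    unfold Fp
    rw [hM0, he, hn]
    exact this
  have hde : e + d ≤ 1 := by
    have : n * d ≤ 4 / 6 := by
      rw [hnd]; exact div_le_div_of_nonneg_left (by norm_num) (by norm_num) (by linarith)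
    nlinarith
  have hexpM : ∀ y ∈ Icc e (e + d), - Fp p y ≤ M0 * Real.exp (16 / ((n - 1) * (n ^ 2 - 1))) := by
    intro y hy
    have h4 := central p n e y hn he (by linarith [hy.1]) (by linarith [hy.2])
    refine le_trans h4 ?_
    apply mul_le_mul_of_nonneg_left _ hM0pos.le
    apply Real.exp_le_exp.mpr
    have h5 : 0 ≤ n * y - 1 := by have := hy.1; nlinarith
    have h6 : n * y - 1 ≤ 4 / (n - 1) := by
      rw [← hnd]; have := hy.2; nlinarith
    have h7 : 0 ≤ (n * y - 1) ^ 2 / (n + 1) := by positivity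
    have h8 : 4 * (n * y - 1) / (n ^ 2 - 1) ≤ 4 * (4 / (n - 1)) / (n ^ 2 - 1) := by
      apply div_le_div_of_nonneg_right _ hn3.le
      linarith
    have h9 : 4 * (4 / (n - 1)) / (n ^ 2 - 1) = 16 / ((n - 1) * (n ^ 2 - 1)) := by
      field_simp; norm_num
    linarith
  have hall : ∀ M, M0 ≤ M → (∀ y ∈ Icc e (e + d), - Fp p y ≤ M) → ∀ y ∈ Icc (-1:ℝ) 1, |Fp p y| ≤ M := by
    intro M hM hI y hy
    rw [abs_le]
    constructor
    · have : - Fp p y ≤ M := by
        by_cases h3 : y ≤ e ∨ e + d ≤ y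
        · exact le_trans (hout y hy.1 hy.2 h3) hM
        · push Not at h3
          exact hI y ⟨h3.1.le, h3.2.le⟩
      linarith
    · exact le_trans (hlobe y hy.1 hy.2) hM
  by_cases hlt : ys < e + d
  · exact ⟨ys, hys.1, hlt, hall _ hge (fun y hy => hmax hy), hexpM ys hys, hge⟩
  · have hys' : e + d ≤ ys := not_lt.mp hlt
    have h4 : - Fp p ys ≤ M0 := hout ys (by linarith) (by linarith [hys.2]) (Or.inr hys')
    refine ⟨e, le_refl _, by linarith, ?_, ?_, ?_⟩
    · rw [hMe]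
      exact hall M0 le_rfl (fun y hy => le_trans (hmax hy) h4)
    · exact hexpM e ⟨le_refl _, by linarith⟩
    · rw [hMe]

end Pool.Agent.V11276.Turan
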