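import Pool.Agent.V11276.Turan4

namespace Pool.Agent.V11276.Turan

open Polynomial Set

/-- sup norm on `[-1,1]` -/
noncomputable def nrm (f : ℝ[X]) : ℝ := sSup ((fun x => |f.eval x|) '' Icc (-1:ℝ) 1)

lemma nrm_bdd (f : ℝ[X]) : BddAbove ((fun x => |f.eval x|) '' Icc (-1:ℝ) 1) :=
  (isCompact_Icc.image_of_continuousOn (f.continuous.abs.continuousOn)).bddAbove

lemma le_nrm (f : ℝ[X]) {x : ℝ} (hx : x ∈ Icc (-1:ℝ) 1) : |f.eval x| ≤ nrm f :=
  le_csSup (nrm_bdd f) ⟨x, hx, rfl⟩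

lemma nrm_attained (f : ℝ[X]) : ∃ x ∈ Icc (-1:ℝ) 1, |f.eval x| = nrm f := by
  obtain ⟨x, hx, hmax⟩ := (isCompact_Icc : IsCompact (Icc (-1:ℝ) 1)).exists_isMaxOn
    ⟨0, by constructor <;> norm_num⟩ f.continuous.abs.continuousOn
  refine ⟨x, hx, le_antisymm (le_nrm f hx) ?_⟩
  unfold nrm
  apply csSup_le
  · exact ⟨_, ⟨x, hx, rfl⟩⟩
  · rintro _ ⟨y, hy, rfl⟩
    exact hmax hy

lemma nrm_eq (f : ℝ[X]) (M : ℝ) (x : ℝ) (hx : x ∈ Icc (-1:ℝ) 1) (h : |f.eval x| = M)
    (hM : ∀ y ∈ Icc (-1:ℝ) 1, |f.eval y| ≤ M) : nrm f = M := by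
  apply le_antisymm
  · obtain ⟨y, hy, e⟩ := nrm_attained f
    rw [← e]; exact hM y hy
  · rw [← h]; exact le_nrm f hx

lemma nrm_pos (f : ℝ[X]) (hf : f ≠ 0) : 0 < nrm f := by
  by_contra h
  push Not at h
  have h0 : ∀ x ∈ Icc (-1:ℝ) 1, f.eval x = 0 := by
    intro x hx
    have := le_nrm f hx
    exact abs_nonpos_iff.mp (le_trans this h)
  apply hf
  apply Polynomial.eq_zero_of_infinite_isRoot
  apply Set.Infinite.mono (s := Icc (-1:ℝ) 1)
  · intro x hx; exact h0 x hx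
  · exact Icc_infinite (by norm_num)

/-- The polynomials of degree exactly `n` all of whose zeros lie in `[-1,1]`. -/
def Pn (n : ℕ) : Set ℝ[X] :=
  {P | P.natDegree = n ∧ Multiset.card P.roots = n ∧ P ≠ 0 ∧ ∀ r ∈ P.roots, r ∈ Icc (-1:ℝ) 1}

lemma rep (n : ℕ) (P : ℝ[X]) (hP : P ∈ Pn n) : ∃ (a : ℝ) (r : Fin n → ℝ), a ≠ 0 ∧
    (∀ i, r i ∈ Icc (-1:ℝ) 1) ∧ P = C a * ∏ i, (X - C (r i)) := by
  obtain ⟨h1, h2, h0, h3⟩ := hP
  have h4 := Polynomial.C_leadingCoeff_mul_prod_multiset_X_sub_C (p := P) (by rw [h2, h1])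
  have h5 : ∀ (s : Multiset ℝ), ∃ r : Fin (Multiset.card s) → ℝ,
      s = (Finset.univ : Finset (Fin (Multiset.card s))).val.map r := by
    intro s
    refine Quotient.inductionOn s (fun l => ?_)
    refine ⟨fun i => l.get ⟨i.1, by simpa using i.2⟩, ?_⟩
    rw [Fin.univ_val_map]
    simp only [Multiset.quot_mk_to_coe]
    congr 1
    apply List.ext_get
    · simp
    · intro k hk1 hk2; simp
  obtain ⟨r, hr⟩ := h5 P.roots
  subst h2
  refine ⟨P.leadingCoeff, r, by simpa using h0, ?_, ?_⟩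
  · intro i
    apply h3
    rw [hr]
    exact Multiset.mem_map_of_mem r (Finset.mem_univ_val i)
  · conv_lhs => rw [← h4]
    congr 1
    conv_lhs => rw [hr]
    rw [Multiset.map_map]
    rfl

lemma shift {n : ℕ} (a : ℝ) (r : Fin n → ℝ) (x : ℝ) (hx : ∀ i, x ≠ r i) :
    (C a * ∏ i, (X - C (r i))).comp (X + C x) =
      C ((C a * ∏ i, (X - C (r i))).eval x) * fw Finset.univ (fun i => 1 / (x - r i)) := by
  unfold fw
  rw [mul_comp, C_comp, prod_comp, eval_mul, eval_C, eval_prod, C_mul, map_prod, mul_assoc,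
    ← Finset.prod_mul_distrib]
  congr 1
  apply Finset.prod_congr rfl
  intro i _
  have h1 : x - r i ≠ 0 := sub_ne_zero.mpr (hx i)
  simp only [sub_comp, X_comp, C_comp, eval_sub, eval_X, eval_C]
  rw [mul_add, mul_one, ← mul_assoc, ← C_mul, mul_one_div_cancel h1, C_1, one_mul, C_sub]
  ring

lemma dd_comp (P : ℝ[X]) (x : ℝ) : derivative (derivative (P.comp (X + C x))) =
    (derivative (derivative P)).comp (X + C x) := by
  simp [derivative_comp]

lemma shift_dd {n : ℕ} (P : ℝ[X]) (a : ℝ) (r : Fin n → ℝ) (hP : P = C a * ∏ i, (X - C (r i)))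
    (x t : ℝ) (hx : ∀ i, x ≠ r i) (w : Fin n → ℝ) (hw : w = fun i => 1 / (x - r i))
    (ht : ∀ i, 1 + w i * t ≠ 0) :
    (derivative (derivative P)).eval (x + t) = P.eval x * GG Finset.univ w t ∧
    (derivative P).eval (x + t) = P.eval x * (FF Finset.univ w t * AA Finset.univ w t) := by
  have h1 := shift a r x hx
  rw [← hP, ← hw] at h1
  have hd := derivs Finset.univ w t (fun i _ => ht i)
  constructor
  · have h2 := congrArg (fun f => (derivative (derivative f)).eval t) h1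
    simp only [dd_comp] at h2
    rw [eval_comp] at h2
    simp only [eval_add, eval_X, eval_C, derivative_mul, derivative_C, zero_mul, zero_add,
      eval_mul, hd.2.2] at h2
    rw [add_comm x t]; exact h2
  · have h2 := congrArg (fun f => (derivative f).eval t) h1
    simp only [derivative_comp] at h2
    simp only [eval_mul, eval_comp, eval_add, eval_X, eval_C, derivative_mul, derivative_C, zero_mul,
      zero_add, derivative_add, derivative_X, add_zero, eval_one, one_mul, hd.2.1] at h2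
    rw [add_comm x t]; exact h2

/-- the conjectured extremal polynomial -/
noncomputable def Q (m : ℕ) : ℝ[X] := (1 - X) ^ m * (1 + X) ^ (m + 1)

lemma Qdd (p : ℕ) (y : ℝ) : (derivative (derivative (Q (p + 2)))).eval y =
    2 * ((p:ℝ) + 2) * Fp p y := by
  have h1 : derivative (Q (p + 2)) = C ((p:ℝ) + 3) * ((1 - X) ^ (p + 2) * (1 + X) ^ (p + 2))
      - C ((p:ℝ) + 2) * ((1 - X) ^ (p + 1) * (1 + X) ^ (p + 3)) := by
    unfold Q
    rw [derivative_mul, derivative_pow, derivative_pow]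
    simp only [derivative_sub, derivative_add, derivative_one, derivative_X, zero_sub, zero_add]
    have e1 : ((p + 2 : ℕ) : ℝ) = (p:ℝ) + 2 := by push_cast; ring
    have e2 : ((p + 2 + 1 : ℕ) : ℝ) = (p:ℝ) + 3 := by push_cast; ring
    rw [e1, e2]
    have e3 : p + 2 - 1 = p + 1 := by omega
    have e4 : p + 2 + 1 - 1 = p + 2 := by omega
    rw [e3, e4]
    ring
  rw [h1]
  have e1 : ((p + 2 : ℕ) : ℝ) = (p:ℝ) + 2 := by push_cast; ring
  have e2 : ((p + 3 : ℕ) : ℝ) = (p:ℝ) + 3 := by push_cast; ring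
  have e5 : ((p + 1 : ℕ) : ℝ) = (p:ℝ) + 1 := by push_cast; ring
  simp only [derivative_sub, derivative_mul, derivative_pow, derivative_C, zero_mul, zero_add,
    derivative_add, derivative_one, derivative_X, zero_sub, eval_sub, eval_mul, eval_add, eval_C,
    eval_pow, eval_one, eval_X, eval_neg, e1, e2, e5]
  have e3 : p + 2 - 1 = p + 1 := by omega
  have e4 : p + 3 - 1 = p + 2 := by omega
  have e6 : p + 1 - 1 = p := by omega
  rw [e3, e4, e6]
  unfold Fp
  have e7 : (1 - y ^ 2) ^ p = (1 - y) ^ p * (1 + y) ^ p := by rw [← mul_pow]; congr 1; ring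
  rw [e7]
  ring

end Pool.Agent.V11276.Turan
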