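import Pool.Agent.V11276.Turan5

namespace Pool.Agent.V11276.Turan

open Polynomial Set

lemma GGscale {N : ℕ} (w : Fin N → ℝ) (c t : ℝ) :
    GG Finset.univ (fun i => c * w i) t = c ^ 2 * GG Finset.univ w (c * t) := by
  unfold GG
  have e1 : FF Finset.univ (fun i => c * w i) t = FF Finset.univ w (c * t) := by
    unfold FF; exact Finset.prod_congr rfl (fun i _ => by ring)
  have e2 : AA Finset.univ (fun i => c * w i) t = c * AA Finset.univ w (c * t) := by
    unfold AA; rw [Finset.mul_sum]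
    exact Finset.sum_congr rfl (fun i _ => by
      rw [show c * w i * t = w i * (c * t) by ring, mul_div_assoc])
  have e3 : BB Finset.univ (fun i => c * w i) t = c ^ 2 * BB Finset.univ w (c * t) := by
    unfold BB; rw [Finset.mul_sum]
    exact Finset.sum_congr rfl (fun i _ => by
      rw [show c * w i * t = w i * (c * t) by ring, mul_div_assoc, mul_pow])
  rw [e1, e2, e3]; ring

lemma prod_ite_two {N : ℕ} (L : Finset (Fin N)) (r : Fin N → ℝ) (a b : ℝ)
    (h1 : ∀ i ∈ L, r i = a) (h2 : ∀ i ∈ Lᶜ, r i = b) :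
    ∏ i, (X - C (r i)) = (X - C a) ^ L.card * (X - C b) ^ Lᶜ.card := by
  rw [← Finset.prod_mul_prod_compl L]
  rw [Finset.prod_congr rfl (fun i hi => by rw [h1 i hi]), Finset.prod_const,
    Finset.prod_congr rfl (fun i hi => by rw [h2 i hi]), Finset.prod_const]

lemma Q_eq (m : ℕ) : Q m = C ((-1:ℝ) ^ m) * ((X - C (-1)) ^ (m + 1) * (X - C 1) ^ m) := by
  unfold Q
  have : (1 - X : ℝ[X]) = C (-1) * (X - C 1) := by simp
  rw [this, mul_pow, ← C_pow]
  have h2 : (X - C (-1) : ℝ[X]) = 1 + X := by simp [add_comm]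
  rw [h2]; ring

lemma Q_rep {N : ℕ} (p : ℕ) (L : Finset (Fin N)) (hL : L.card = p + 3) (hLc : Lᶜ.card = p + 2) :
    Q (p + 2) = C ((-1:ℝ) ^ (p + 2)) * ∏ i, (X - C ((fun i => if i ∈ L then (-1:ℝ) else 1) i)) := by
  rw [prod_ite_two L _ (-1) 1 (fun i hi => by simp [hi]) (fun i hi => by
    have := Finset.mem_compl.mp hi; simp [this]), hL, hLc, Q_eq]

lemma Q_eval_e (p : ℕ) (e : ℝ) : (Q (p + 2)).eval e = (1 - e) ^ (p + 2) * (1 + e) ^ (p + 3) := by
  unfold Q; simp

lemma core {N : ℕ} (p : ℕ) (hp : 1 ≤ p) (n e y1 : ℝ) (hn : n = 2 * p + 5) (he : e = 1 / n)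
    (h1 : e ≤ y1) (h2 : y1 < e + 4 / (n * (n - 1)))
    (L : Finset (Fin N)) (hL : L.card = p + 3) (hLc : Lᶜ.card = p + 2) (S : ℝ) (hS : n / 2 ≤ S)
    (w : Fin N → ℝ) (hw : w ∈ KK L S) (t : ℝ) (ht : t = (y1 - e) * n / (2 * S)) :
    0 ≤ t ∧ t * S < 1 / 3 ∧ (2 * S / n) ^ 2 * (2 * (p + 2) * (- Fp p y1)) ≤
      - GG Finset.univ w t * ((1 - e) ^ (p + 2) * (1 + e) ^ (p + 3)) := by
  have hp0 : (1:ℝ) ≤ p := by exact_mod_cast hp
  have hn5 : 7 ≤ n := by rw [hn]; linarith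
  have hn0 : 0 < n := by linarith
  have he0 : 0 < e := by rw [he]; positivity
  have hne : n * e = 1 := by rw [he]; field_simp
  have he1 : e ≤ 1 / 7 := by nlinarith
  have hS0 : 0 < S := by linarith
  have hz0 : 0 ≤ y1 - e := by linarith
  have ht0 : 0 ≤ t := by rw [ht]; positivity
  have hn1 : 0 < n - 1 := by linarith
  have hnd : n * (4 / (n * (n - 1))) = 4 / (n - 1) := by field_simp
  have hnz : n * (y1 - e) < 4 / (n - 1) := by
    rw [← hnd]; exact mul_lt_mul_of_pos_left (by linarith) hn0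
  have h46 : 4 / (n - 1) ≤ 4 / 6 :=
    div_le_div_of_nonneg_left (by norm_num) (by norm_num) (by linarith)
  have htS : t * S < 1 / 3 := by
    have : t * S = n * (y1 - e) / 2 := by rw [ht]; field_simp
    rw [this]; linarith
  refine ⟨ht0, htS, ?_⟩
  have hsm := smooth L S t ht0 htS w hw (by omega) (by omega)
  set wq : Fin N → ℝ := fun i => 1 / (e - (fun i => if i ∈ L then (-1:ℝ) else 1) i) with hwq
  have hpe : (p:ℝ) = (n - 5) / 2 := by rw [hn]; ring
  have hsc : (fun i => if i ∈ L then S / (L.card : ℝ) else -S / (Lᶜ.card : ℝ)) =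
      fun i => (2 * S / n) * wq i := by
    funext i
    rw [hwq, hL, hLc]
    push_cast
    by_cases hi : i ∈ L
    · simp only [hi, if_true]
      rw [hpe, he]
      have : (1 / n - -1) = (n + 1) / n := by field_simp; ring
      rw [this]; 
      have h3 : (n - 5) / 2 + 3 = (n + 1) / 2 := by ring
      rw [h3]; field_simp
    · simp only [hi, if_false]
      rw [hpe, he]
      have h4 : n - 1 ≠ 0 := hn1.ne'
      have : (1 / n - 1) = -((n - 1) / n) := by field_simp; ring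
      rw [this]
      have h3 : (n - 5) / 2 + 2 = (n - 1) / 2 := by ring
      rw [h3]; field_simp
  rw [hsc, GGscale] at hsm
  have htz : 2 * S / n * t = y1 - e := by rw [ht]; field_simp
  rw [htz] at hsm
  have hQ := shift_dd (Q (p + 2)) _ _ (Q_rep p L hL hLc) e (y1 - e) (by
    intro i; by_cases hi : i ∈ L
    · simp only [hi, if_true]; linarith
    · simp only [hi, if_false]; linarith) wq hwq (by
    intro i
    rw [hwq]
    by_cases hi : i ∈ L
    · simp only [hi, if_true]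
      have : 0 < 1 / (e - -1) := by apply one_div_pos.mpr; linarith
      nlinarith [mul_nonneg this.le hz0]
    · simp only [hi, if_false]
      have h3 : e - 1 < 0 := by linarith
      have h4 : 1 / (e - 1) * (y1 - e) = - ((y1 - e) / (1 - e)) := by
        rw [show e - 1 = -(1 - e) by ring]; field_simp
      rw [h4]
      have h5 : (y1 - e) / (1 - e) < 1 := by
        rw [div_lt_one (by linarith)]
        nlinarith
      linarith)
  have hQ1 := hQ.1
  rw [show e + (y1 - e) = y1 by ring, Qdd, Q_eval_e] at hQ1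
  have hQe : 0 < (1 - e) ^ (p + 2) * (1 + e) ^ (p + 3) := by
    have : 0 < 1 - e := by linarith
    positivity
  have h6 : - ((2 * S / n) ^ 2 * GG Finset.univ wq (y1 - e)) ≤ - GG Finset.univ w t := by linarith
  calc (2 * S / n) ^ 2 * (2 * (p + 2) * (- Fp p y1))
      = - ((2 * S / n) ^ 2 * GG Finset.univ wq (y1 - e)) * ((1 - e) ^ (p + 2) * (1 + e) ^ (p + 3)) := by
        linear_combination (-(2 * S / n) ^ 2) * hQ1
    _ ≤ _ := mul_le_mul_of_nonneg_right h6 hQe.le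

lemma Ubound (p : ℕ) (hp : 1 ≤ p) (n e y1 : ℝ) (hn : n = 2 * p + 5) (he : e = 1 / n)
    (h : - Fp p y1 ≤ (1 - e ^ 2) ^ p * (1 + e) ^ 2 * Real.exp (16 / ((n - 1) * (n ^ 2 - 1)))) :
    2 * ((p:ℝ) + 2) * (- Fp p y1) < n ^ 3 / (n ^ 2 - 9) * ((1 - e) ^ (p + 2) * (1 + e) ^ (p + 3)) := by
  have hp0 : (1:ℝ) ≤ p := by exact_mod_cast hp
  have hn5 : 7 ≤ n := by rw [hn]; linarith
  have hn0 : 0 < n := by linarith
  have he0 : 0 < e := by rw [he]; positivity
  have hne : n * e = 1 := by rw [he]; field_simp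
  have he1 : e ≤ 1 / 7 := by nlinarith
  have hn1 : 0 < n - 1 := by linarith
  have hn3 : 0 < n ^ 2 - 1 := by nlinarith
  have hn9 : 0 < n ^ 2 - 9 := by nlinarith
  set M0 := (1 - e ^ 2) ^ p * (1 + e) ^ 2 with hM0
  have hM0pos : 0 < M0 := by
    have : 0 < 1 - e ^ 2 := by nlinarith
    positivity
  set Qe := (1 - e) ^ (p + 2) * (1 + e) ^ (p + 3) with hQe
  have e1 : 2 * ((p:ℝ) + 2) * M0 = n ^ 3 / (n ^ 2 - 1) * Qe := by
    have e2 : Qe = (1 - e ^ 2) ^ p * ((1 - e) ^ 2 * (1 + e) ^ 3) := by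
      have : (1 - e ^ 2) ^ p = (1 - e) ^ p * (1 + e) ^ p := by rw [← mul_pow]; congr 1; ring
      rw [hQe, this, pow_add, pow_add]; ring
    have e3 : 2 * ((p:ℝ) + 2) = n ^ 3 / (n ^ 2 - 1) * ((1 - e) ^ 2 * (1 + e)) := by
      have hpe : (p:ℝ) = (n - 5) / 2 := by rw [hn]; ring
      have h4 : n ^ 2 - 1 = (n - 1) * (n + 1) := by ring
      rw [hpe, he, h4]
      field_simp
      ring
    rw [e2, hM0, e3]; ring
  have hexp : Real.exp (16 / ((n - 1) * (n ^ 2 - 1))) * (n ^ 2 - 9) < n ^ 2 - 1 := by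
    set δ := 16 / ((n - 1) * (n ^ 2 - 1)) with hδ
    have h1 := Real.add_one_le_exp (-δ)
    have h2 : δ * (n ^ 2 - 1) = 16 / (n - 1) := by rw [hδ]; field_simp
    have h3 : 16 / (n - 1) ≤ 16 / 6 :=
      div_le_div_of_nonneg_left (by norm_num) (by norm_num) (by linarith)
    have h4 : Real.exp δ * Real.exp (-δ) = 1 := by rw [← Real.exp_add]; simp
    have h5 : n ^ 2 - 9 < (n ^ 2 - 1) * Real.exp (-δ) := by nlinarith
    have h6 : 0 < Real.exp δ := Real.exp_pos _
    calc Real.exp δ * (n ^ 2 - 9) < Real.exp δ * ((n ^ 2 - 1) * Real.exp (-δ)) :=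
          mul_lt_mul_of_pos_left h5 h6
      _ = (n ^ 2 - 1) * (Real.exp δ * Real.exp (-δ)) := by ring
      _ = n ^ 2 - 1 := by rw [h4, mul_one]
  have hQe0 : 0 < Qe := by
    have : 0 < 1 - e := by linarith
    positivity
  calc 2 * ((p:ℝ) + 2) * (- Fp p y1)
      ≤ 2 * ((p:ℝ) + 2) * (M0 * Real.exp (16 / ((n - 1) * (n ^ 2 - 1)))) :=
        mul_le_mul_of_nonneg_left h (by positivity)
    _ = (n ^ 3 / (n ^ 2 - 1) * Real.exp (16 / ((n - 1) * (n ^ 2 - 1)))) * Qe := by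
        rw [← mul_assoc, e1]; ring
    _ < n ^ 3 / (n ^ 2 - 9) * Qe := by
        apply mul_lt_mul_of_pos_right _ hQe0
        rw [div_mul_eq_mul_div, div_lt_div_iff₀ hn3 hn9]
        have : 0 < n ^ 3 := by positivity
        nlinarith

lemma endp {N : ℕ} (w : Fin N → ℝ) (h : ∀ i, 1 / 2 ≤ w i) :
    (N:ℝ) * (N - 1) / 4 ≤ (∑ i, w i) ^ 2 - ∑ i, w i ^ 2 := by
  have h1 : (∑ i, w i) ^ 2 - ∑ i, w i ^ 2 = ∑ i, w i * ((∑ j, w j) - w i) := by
    simp_rw [mul_sub, Finset.sum_sub_distrib, ← Finset.sum_mul]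
    rw [pow_two]; congr 1
    exact Finset.sum_congr rfl (fun i _ => pow_two _)
  rw [h1]
  have h2 : ∀ i ∈ (Finset.univ : Finset (Fin N)), ((N:ℝ) - 1) / 4 ≤ w i * ((∑ j, w j) - w i) := by
    intro i _
    have h3 : (∑ j, w j) - w i = ∑ j ∈ Finset.univ.erase i, w j := by
      rw [← Finset.add_sum_erase _ _ (Finset.mem_univ i)]; ring
    have h4 : ((N:ℝ) - 1) / 2 ≤ ∑ j ∈ Finset.univ.erase i, w j := by
      have h5 := Finset.card_nsmul_le_sum (Finset.univ.erase i) w (1 / 2) (fun j _ => h j)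
      rw [Finset.card_erase_of_mem (Finset.mem_univ i), Finset.card_fin, nsmul_eq_mul] at h5
      have hN : 1 ≤ N := by have := i.2; omega
      rw [Nat.cast_sub hN] at h5
      push_cast at h5
      linarith
    rw [h3]
    have hN : (1:ℝ) ≤ N := by have := i.2; exact_mod_cast (by omega : 1 ≤ N)
    have h6 := h i
    nlinarith
  have h7 := Finset.card_nsmul_le_sum Finset.univ _ _ h2
  rw [Finset.card_fin, nsmul_eq_mul] at h7
  linarith

lemma sumsq {N : ℕ} (T : Finset (Fin N)) (w : Fin N → ℝ) (hT : 0 < T.card) :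
    (∑ i ∈ T, w i) ^ 2 / T.card ≤ ∑ i ∈ T, w i ^ 2 := by
  have h := sq_sum_le_card_mul_sum_sq (s := T) (f := w)
  have : (0:ℝ) < T.card := by exact_mod_cast hT
  rw [div_le_iff₀ this]; linarith

end Pool.Agent.V11276.Turan
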