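import Pool.Agent.V11276.Turan6

namespace Pool.Agent.V11276.Turan

open Polynomial Set

lemma Qmax (p : ℕ) (n e : ℝ) (hn : n = 2 * p + 5) (he : e = 1 / n) (y : ℝ) (h1 : -1 ≤ y) (h2 : y ≤ 1) :
    |(Q (p + 2)).eval y| ≤ (1 - e) ^ (p + 2) * (1 + e) ^ (p + 3) := by
  have hp0 : (0:ℝ) ≤ p := Nat.cast_nonneg p
  have hn5 : 5 ≤ n := by rw [hn]; linarith
  have hn0 : 0 < n := by linarith
  have he0 : 0 < e := by rw [he]; positivity
  have hne : n * e = 1 := by rw [he]; field_simp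
  have he1 : e < 1 := by nlinarith
  have h1e : 0 < 1 - e := by linarith
  rw [Q_eval_e, abs_of_nonneg (mul_nonneg (pow_nonneg (by linarith) _) (pow_nonneg (by linarith) _))]
  set s := y - e with hs
  have a1 : 1 + y ≤ (1 + e) * Real.exp (s / (1 + e)) := by
    have := Real.add_one_le_exp (s / (1 + e))
    have h3 : 1 + y = (1 + e) * (s / (1 + e) + 1) := by field_simp; ring
    rw [h3]; exact mul_le_mul_of_nonneg_left this (by linarith)
  have a2 : 1 - y ≤ (1 - e) * Real.exp (-s / (1 - e)) := by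
    have := Real.add_one_le_exp (-s / (1 - e))
    have h3 : 1 - y = (1 - e) * (-s / (1 - e) + 1) := by field_simp; ring
    rw [h3]; exact mul_le_mul_of_nonneg_left this (by linarith)
  have b1 : (1 + y) ^ (p + 3) ≤ ((1 + e) * Real.exp (s / (1 + e))) ^ (p + 3) :=
    pow_le_pow_left₀ (by linarith) a1 _
  have b2 : (1 - y) ^ (p + 2) ≤ ((1 - e) * Real.exp (-s / (1 - e))) ^ (p + 2) :=
    pow_le_pow_left₀ (by linarith) a2 _
  have c1 : (1 - y) ^ (p + 2) * (1 + y) ^ (p + 3) ≤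
      ((1 - e) * Real.exp (-s / (1 - e))) ^ (p + 2) * ((1 + e) * Real.exp (s / (1 + e))) ^ (p + 3) :=
    mul_le_mul b2 b1 (pow_nonneg (by linarith) _) (by positivity)
  refine le_trans c1 (le_of_eq ?_)
  rw [mul_pow, mul_pow, ← Real.exp_nat_mul, ← Real.exp_nat_mul]
  have e3 : ((p + 2 : ℕ) : ℝ) * (-s / (1 - e)) + ((p + 3 : ℕ) : ℝ) * (s / (1 + e)) = 0 := by
    have hp : (p:ℝ) = (n - 5) / 2 := by rw [hn]; ring
    push_cast
    have hn1 : n - 1 ≠ 0 := by linarith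
    have hn6 : 1 - 1 / n = (n - 1) / n := by field_simp
    have hn7 : 1 + 1 / n = (n + 1) / n := by field_simp
    rw [hp, he, hn6, hn7]
    field_simp
    ring
  have : Real.exp (((p + 2 : ℕ) : ℝ) * (-s / (1 - e))) * Real.exp (((p + 3 : ℕ) : ℝ) * (s / (1 + e))) = 1 := by
    rw [← Real.exp_add, e3, Real.exp_zero]
  calc _ = (1 - e) ^ (p + 2) * (1 + e) ^ (p + 3) * (Real.exp (((p + 2 : ℕ) : ℝ) * (-s / (1 - e))) *
        Real.exp (((p + 3 : ℕ) : ℝ) * (s / (1 + e)))) := by ring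
    _ = _ := by rw [this, mul_one]

lemma deriv_zero_of_max (P : ℝ[X]) (x : ℝ) (h1 : -1 < x) (h2 : x < 1)
    (hmax : ∀ y ∈ Icc (-1:ℝ) 1, |P.eval y| ≤ |P.eval x|) : (derivative P).eval x = 0 := by
  have hnb : Icc (-1:ℝ) 1 ∈ nhds x := Icc_mem_nhds h1 h2
  rcases le_total 0 (P.eval x) with h | h
  · have hl : IsLocalMax (fun y => P.eval y) x := by
      filter_upwards [hnb] with y hy
      have := hmax y hy
      rw [abs_of_nonneg h] at this
      exact le_trans (le_abs_self _) this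
    have := hl.deriv_eq_zero
    rwa [Polynomial.deriv] at this
  · have hl : IsLocalMin (fun y => P.eval y) x := by
      filter_upwards [hnb] with y hy
      have := hmax y hy
      rw [abs_of_nonpos h] at this
      have h3 := neg_abs_le (P.eval y)
      linarith
    have := hl.deriv_eq_zero
    rwa [Polynomial.deriv] at this

lemma Qcomp_eq (m : ℕ) : (Q m).comp (-X) =
    C ((-1:ℝ) ^ (m + 1)) * ((X - C (-1)) ^ m * (X - C 1) ^ (m + 1)) := by
  unfold Q
  have h1 : (1 - X : ℝ[X]) = C (-1) * (X - C 1) := by simp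
  have h2 : (X - C (-1) : ℝ[X]) = 1 + X := by simp [add_comm]
  rw [mul_comp, pow_comp, pow_comp, sub_comp, add_comp, one_comp, X_comp, sub_neg_eq_add,
    ← sub_eq_add_neg, h1, mul_pow, ← C_pow, h2]
  ring

lemma finQ1 (m : ℕ) (a : ℝ) : C a * ((X - C (-1)) ^ (m + 1) * (X - C 1) ^ m) =
    C (a * (-1) ^ m) * Q m := by
  rw [Q_eq, C_mul, mul_assoc, ← mul_assoc (C ((-1) ^ m)) (C ((-1) ^ m)), ← C_mul, ← mul_pow]
  simp

lemma finQ2 (m : ℕ) (a : ℝ) : C a * ((X - C (-1)) ^ m * (X - C 1) ^ (m + 1)) =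
    C (a * (-1) ^ (m + 1)) * (Q m).comp (-X) := by
  rw [Qcomp_eq, C_mul, mul_assoc, ← mul_assoc (C ((-1) ^ (m + 1))) (C ((-1) ^ (m + 1))), ← C_mul,
    ← mul_pow]
  simp

lemma step {N : ℕ} (P : ℝ[X]) (a : ℝ) (r : Fin N → ℝ) (hrep : P = C a * ∏ i, (X - C (r i)))
    (x t : ℝ) (hx : ∀ i, x ≠ r i) (w : Fin N → ℝ) (hw : w = fun i => 1 / (x - r i))
    (ht : ∀ i, 1 + w i * t ≠ 0) (hxt : x + t ∈ Icc (-1:ℝ) 1) (hxm : |P.eval x| = nrm P)
    (Qe v : ℝ) (hQe : 0 < Qe) (hc : v ≤ - GG Finset.univ w t * Qe) :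
    nrm P * v ≤ nrm (derivative (derivative P)) * Qe := by
  have h1 := shift_dd P a r hrep x t hx w hw ht
  have h2 := le_nrm (derivative (derivative P)) hxt
  rw [h1.1, abs_mul, hxm] at h2
  have hnp : 0 ≤ nrm P := by rw [← hxm]; exact abs_nonneg _
  have h3 : nrm P * (- GG Finset.univ w t) ≤ nrm (derivative (derivative P)) :=
    le_trans (mul_le_mul_of_nonneg_left (neg_le_abs _) hnp) h2
  calc nrm P * v ≤ nrm P * (- GG Finset.univ w t * Qe) := mul_le_mul_of_nonneg_left hc hnp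
    _ = nrm P * (- GG Finset.univ w t) * Qe := by ring
    _ ≤ _ := mul_le_mul_of_nonneg_right h3 hQe.le

lemma kbound (p k : ℕ) (n l : ℝ) (hn : n = 2 * p + 5) (hl : (k:ℝ) + l = n) (h1 : k ≠ p + 3)
    (h2 : k ≠ p + 2) : (k:ℝ) * l ≤ (n ^ 2 - 9) / 4 := by
  have h1 : (k : ℝ) ≤ p + 1 ∨ (p:ℝ) + 4 ≤ k := by
    rcases (by omega : k ≤ p + 1 ∨ p + 4 ≤ k) with h | h
    · left; exact_mod_cast h
    · right; exact_mod_cast h
  have h2 : l = n - k := by linarith
  rw [h2, hn]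
  rcases h1 with h1 | h1 <;> nlinarith

lemma hsqL (S n : ℝ) (hn0 : 0 < n) (hSn : n / 2 ≤ S) (v : ℝ) (hv : 0 ≤ v) :
    v ≤ (2 * S / n) ^ 2 * v := by
  have h1 : 1 ≤ 2 * S / n := by rw [le_div_iff₀ hn0]; linarith
  have h2 : 1 ≤ (2 * S / n) ^ 2 := by nlinarith
  nlinarith

lemma hSeqL (S n : ℝ) (hn0 : 0 < n) (hSn : n / 2 ≤ S) (v : ℝ) (hv : 0 < v)
    (h : (2 * S / n) ^ 2 * v ≤ v) : S = n / 2 := by
  have h1 : 1 ≤ 2 * S / n := by rw [le_div_iff₀ hn0]; linarith
  have h2 : (2 * S / n) ^ 2 ≤ 1 := by nlinarith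
  have h3 : 2 * S / n ≤ 1 := by nlinarith
  rw [div_le_one hn0] at h3
  linarith

lemma lastL (S n k l : ℝ) (hn0 : 0 < n) (hn9 : 0 < n ^ 2 - 9) (hk0 : 0 < k) (hl0 : 0 < l)
    (hk : k * l ≤ (n ^ 2 - 9) / 4) (hkl : k + l = n) (hSn : n / 2 ≤ S) :
    n ^ 3 / (n ^ 2 - 9) ≤ S ^ 2 / k + (-S) ^ 2 / l := by
  have h4 : S ^ 2 / k + (-S) ^ 2 / l = S ^ 2 * n / (k * l) := by
    rw [← hkl]; field_simp; ring
  rw [h4, div_le_div_iff₀ hn9 (by positivity)]
  have h6 : n ^ 3 * (k * l) ≤ n ^ 3 * ((n ^ 2 - 9) / 4) :=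
    mul_le_mul_of_nonneg_left hk (by positivity)
  have h7 : n ^ 2 / 4 ≤ S ^ 2 := by
    have := pow_le_pow_left₀ (by linarith : (0:ℝ) ≤ n / 2) hSn 2
    linarith
  have h8 : n ^ 3 * ((n ^ 2 - 9) / 4) = n ^ 2 / 4 * (n * (n ^ 2 - 9)) := by ring
  have h9 : n ^ 2 / 4 * (n * (n ^ 2 - 9)) ≤ S ^ 2 * (n * (n ^ 2 - 9)) :=
    mul_le_mul_of_nonneg_right h7 (by positivity)
  linarith

theorem main_ineq (p : ℕ) (hp : 1 ≤ p) (P : ℝ[X]) (hP : P ∈ Pn (2 * (p + 2) + 1)) :
    nrm (derivative (derivative (Q (p + 2)))) * nrm P ≤ nrm (derivative (derivative P)) * nrm (Q (p + 2)) ∧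
    (nrm (derivative (derivative P)) * nrm (Q (p + 2)) =
      nrm (derivative (derivative (Q (p + 2)))) * nrm P →
      ∃ c : ℝ, c ≠ 0 ∧ (P = C c * Q (p + 2) ∨ P = C c * (Q (p + 2)).comp (-X))) := by
  obtain ⟨n, hn⟩ : ∃ n : ℝ, n = 2 * p + 5 := ⟨_, rfl⟩
  obtain ⟨e, he⟩ : ∃ e : ℝ, e = 1 / n := ⟨_, rfl⟩
  obtain ⟨y1, hy1, hy2, hall, hle, hge⟩ := maxpt p hp n e hn he
  have hp0 : (1:ℝ) ≤ p := by exact_mod_cast hp
  have hn7 : 7 ≤ n := by rw [hn]; linarith
  have hn0 : 0 < n := by linarith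
  have he0 : 0 < e := by rw [he]; positivity
  have hne : n * e = 1 := by rw [he]; field_simp
  have he1 : e ≤ 1 / 7 := by nlinarith
  have hn1 : 0 < n - 1 := by linarith
  have hn9 : 0 < n ^ 2 - 9 := by nlinarith
  obtain ⟨Qe, hQe⟩ : ∃ Qe : ℝ, Qe = (1 - e) ^ (p + 2) * (1 + e) ^ (p + 3) := ⟨_, rfl⟩
  have hQe0 : 0 < Qe := by
    have : 0 < 1 - e := by linarith
    rw [hQe]; positivity
  have hQn : nrm (Q (p + 2)) = Qe := by
    apply nrm_eq _ _ e ⟨by linarith, by linarith⟩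
    · rw [Q_eval_e, ← hQe]; exact abs_of_pos hQe0
    · intro y hy; rw [hQe]; exact Qmax p n e hn he y hy.1 hy.2
  obtain ⟨M1, hM1⟩ : ∃ M1 : ℝ, M1 = 2 * ((p:ℝ) + 2) * (- Fp p y1) := ⟨_, rfl⟩
  have hF0 : 0 < - Fp p y1 := by
    refine lt_of_lt_of_le ?_ hge
    have : 0 < 1 - e ^ 2 := by nlinarith
    positivity
  have hM10 : 0 < M1 := by rw [hM1]; positivity
  have hy1m : y1 ∈ Icc (-1:ℝ) 1 := by
    have h3 : 4 / (n * (n - 1)) ≤ 4 / (7 * 6) :=
      div_le_div_of_nonneg_left (by norm_num) (by norm_num) (by nlinarith)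
    constructor
    · linarith
    · linarith
  have hQd : nrm (derivative (derivative (Q (p + 2)))) = M1 := by
    apply nrm_eq _ _ y1 hy1m
    · rw [Qdd, show 2 * ((p:ℝ) + 2) * Fp p y1 = -(2 * ((p:ℝ) + 2) * (- Fp p y1)) by ring, abs_neg, ← hM1]
      exact abs_of_pos hM10
    · intro y hy
      rw [Qdd, abs_mul, abs_of_pos (by positivity : (0:ℝ) < 2 * ((p:ℝ) + 2)), hM1]
      exact mul_le_mul_of_nonneg_left (hall y hy) (by positivity)
  have hU := Ubound p hp n e y1 hn he hle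
  rw [← hM1, ← hQe] at hU
  rw [hQn, hQd]
  obtain ⟨a, r, ha, hr, hrep⟩ := rep _ P hP
  obtain ⟨x, hx, hxm⟩ := nrm_attained P
  have hnp : 0 < nrm P := nrm_pos P hP.2.2.1
  have hPx : P.eval x ≠ 0 := by
    intro h; rw [h, abs_zero] at hxm; linarith
  have hxr : ∀ i, x ≠ r i := by
    intro i hi
    apply hPx
    rw [hrep, eval_mul, eval_prod]
    rw [Finset.prod_eq_zero (Finset.mem_univ i) (by simp [hi]), mul_zero]
  obtain ⟨w, hw⟩ : ∃ w : Fin (2 * (p + 2) + 1) → ℝ, w = fun i => 1 / (x - r i) := ⟨_, rfl⟩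
  have hwi : ∀ i, w i * (x - r i) = 1 := by
    intro i; rw [hw]
    have : x - r i ≠ 0 := sub_ne_zero.mpr (hxr i)
    simp only []
    field_simp
  have h0 := shift_dd P a r hrep x 0 hxr w hw (by intro i; simp)
  rw [add_zero] at h0
  have hG0 : GG Finset.univ w 0 = (∑ i, w i) ^ 2 - ∑ i, w i ^ 2 := by
    unfold GG FF AA BB; simp
  have hA0 : FF Finset.univ w 0 * AA Finset.univ w 0 = ∑ i, w i := by
    unfold FF AA; simp
  rw [hG0, hA0] at h0
  have hNn : (((2 * (p + 2) + 1 : ℕ)) : ℝ) = n := by rw [hn]; push_cast; ring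
  -- strong bound suffices
  have strong : n ^ 3 / (n ^ 2 - 9) ≤ |(∑ i, w i) ^ 2 - ∑ i, w i ^ 2| →
      M1 * nrm P < nrm (derivative (derivative P)) * Qe := by
    intro h
    have h1 : nrm P * |(∑ i, w i) ^ 2 - ∑ i, w i ^ 2| ≤ nrm (derivative (derivative P)) := by
      have := le_nrm (derivative (derivative P)) hx
      rwa [h0.1, abs_mul, hxm] at this
    have h2 : nrm P * (n ^ 3 / (n ^ 2 - 9)) ≤ nrm (derivative (derivative P)) :=
      le_trans (mul_le_mul_of_nonneg_left h hnp.le) h1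
    calc M1 * nrm P < (n ^ 3 / (n ^ 2 - 9) * Qe) * nrm P := mul_lt_mul_of_pos_right hU hnp
      _ = nrm P * (n ^ 3 / (n ^ 2 - 9)) * Qe := by ring
      _ ≤ _ := mul_le_mul_of_nonneg_right h2 hQe0.le
  have fin : n ^ 3 / (n ^ 2 - 9) ≤ |(∑ i, w i) ^ 2 - ∑ i, w i ^ 2| →
      (M1 * nrm P ≤ nrm (derivative (derivative P)) * Qe ∧
      (nrm (derivative (derivative P)) * Qe = M1 * nrm P →
      ∃ c : ℝ, c ≠ 0 ∧ (P = C c * Q (p + 2) ∨ P = C c * (Q (p + 2)).comp (-X)))) := by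
    intro h
    have := strong h
    exact ⟨this.le, fun h' => by linarith⟩
  have hend : n ^ 3 / (n ^ 2 - 9) ≤ n * (n - 1) / 4 := by
    rw [div_le_div_iff₀ hn9 (by norm_num)]
    nlinarith [mul_nonneg (by linarith : (0:ℝ) ≤ n - 7) (by positivity : (0:ℝ) ≤ n * n)]
  rcases eq_or_lt_of_le hx.2 with hx1 | hx1
  · apply fin
    have h1 := endp w (by
      intro i
      have h2 := hwi i
      have h3 := hr i
      have h4 : 0 < x - r i := lt_of_le_of_ne (by linarith [h3.2]) (Ne.symm (sub_ne_zero.mpr (hxr i)))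
      have h5 : w i = 1 / (x - r i) := by rw [hw]
      rw [h5]
      apply one_div_le_one_div_of_le h4; linarith [h3.1])
    rw [hNn] at h1
    exact le_trans hend (le_trans h1 (le_abs_self _))
  rcases eq_or_lt_of_le hx.1 with hx2 | hx2
  · apply fin
    have h1 := endp (fun i => - w i) (by
      intro i
      have h2 := hwi i
      have h3 := hr i
      have h4 : 0 < r i - x := lt_of_le_of_ne (by linarith [h3.1]) (Ne.symm (sub_ne_zero.mpr (Ne.symm (hxr i))))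
      have h5 : - w i = 1 / (r i - x) := by
        rw [hw]; simp only []
        rw [show r i - x = -(x - r i) by ring, one_div_neg_eq_neg_one_div]
      rw [h5]
      apply one_div_le_one_div_of_le h4; linarith [h3.2])
    rw [hNn] at h1
    have h6 : (∑ i, - w i) ^ 2 - ∑ i, (- w i) ^ 2 = (∑ i, w i) ^ 2 - ∑ i, w i ^ 2 := by
      rw [Finset.sum_neg_distrib, neg_sq]
      simp
    rw [h6] at h1
    exact le_trans hend (le_trans h1 (le_abs_self _))
  -- interior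
  have hd0 := deriv_zero_of_max P x hx2 hx1 (by intro y hy; rw [hxm]; exact le_nrm P hy)
  have hsum0 : ∑ i, w i = 0 := by
    have := h0.2
    rw [hd0] at this
    rcases mul_eq_zero.mp this.symm with h | h
    · exact absurd h hPx
    · exact h
  have hwne : ∀ i, w i ≠ 0 := by
    intro i h
    have := hwi i
    rw [h, zero_mul] at this
    norm_num at this
  obtain ⟨L, hLdef⟩ : ∃ L : Finset (Fin (2 * (p + 2) + 1)), L = Finset.univ.filter (fun i => 0 < w i) := ⟨_, rfl⟩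
  have hLm : ∀ i, i ∈ L ↔ 0 < w i := by intro i; rw [hLdef]; simp
  have hLc : ∀ i, i ∈ Lᶜ ↔ w i < 0 := by
    intro i
    rw [Finset.mem_compl, hLm, not_lt]
    exact ⟨fun h => lt_of_le_of_ne h (hwne i), fun h => h.le⟩
  obtain ⟨S, hS⟩ : ∃ S : ℝ, S = ∑ i ∈ L, w i := ⟨_, rfl⟩
  have hSc : ∑ i ∈ Lᶜ, w i = -S := by
    have := Finset.sum_add_sum_compl L w
    rw [hsum0] at this
    rw [hS]; linarith
  have hKK : w ∈ KK L S := ⟨fun i hi => ((hLm i).mp hi).le, fun i hi => ((hLc i).mp hi).le, hS.symm, hSc⟩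
  have hcard : L.card + Lᶜ.card = 2 * (p + 2) + 1 := by
    rw [Finset.card_add_card_compl, Fintype.card_fin]
  have hcardR : (L.card : ℝ) + (Lᶜ.card : ℝ) = n := by
    have h := congrArg (Nat.cast : ℕ → ℝ) hcard
    push_cast at h
    linarith
  -- termwise
  have t1 : ∀ i ∈ L, 1 ≤ w i * (1 + x) := by
    intro i hi
    have h1 := hwi i; have h2 := (hLm i).mp hi; have h3 := hr i
    nlinarith [h3.1]
  have t2 : ∀ i ∈ Lᶜ, 1 ≤ - w i * (1 - x) := by
    intro i hi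
    have h1 := hwi i; have h2 := (hLc i).mp hi; have h3 := hr i
    nlinarith [h3.2]
  have s1 : (L.card : ℝ) ≤ S * (1 + x) := by
    have := Finset.card_nsmul_le_sum L _ 1 t1
    rw [nsmul_eq_mul, mul_one, ← Finset.sum_mul, ← hS] at this
    exact this
  have s2 : (Lᶜ.card : ℝ) ≤ S * (1 - x) := by
    have := Finset.card_nsmul_le_sum Lᶜ _ 1 t2
    rw [nsmul_eq_mul, mul_one, ← Finset.sum_mul, Finset.sum_neg_distrib, hSc, neg_neg] at this
    exact this
  have hSn : n / 2 ≤ S := by linarith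
  have hS0 : 0 < S := by linarith
  have hL0 : 0 < L.card := by
    rw [Finset.card_pos]
    by_contra h
    rw [Finset.not_nonempty_iff_eq_empty] at h
    rw [h, Finset.sum_empty] at hS
    linarith
  have hLc0 : 0 < Lᶜ.card := by
    rw [Finset.card_pos]
    by_contra h
    rw [Finset.not_nonempty_iff_eq_empty] at h
    rw [h, Finset.sum_empty] at hSc
    linarith
  -- equality analysis
  have heqr : S = n / 2 → (∀ i ∈ L, r i = -1) ∧ (∀ i ∈ Lᶜ, r i = 1) := by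
    intro hSeq
    have g1 : ∑ i ∈ L, (w i * (1 + x) - 1) = 0 := by
      have : ∑ i ∈ L, (w i * (1 + x) - 1) = S * (1 + x) - L.card := by
        rw [Finset.sum_sub_distrib, ← Finset.sum_mul, ← hS]; simp
      rw [this]; linarith
    have g2 : ∑ i ∈ Lᶜ, (- w i * (1 - x) - 1) = 0 := by
      have : ∑ i ∈ Lᶜ, (- w i * (1 - x) - 1) = S * (1 - x) - Lᶜ.card := by
        rw [Finset.sum_sub_distrib, ← Finset.sum_mul, Finset.sum_neg_distrib, hSc]; simp
      rw [this]; linarith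
    rw [Finset.sum_eq_zero_iff_of_nonneg (fun i hi => by have := t1 i hi; linarith)] at g1
    rw [Finset.sum_eq_zero_iff_of_nonneg (fun i hi => by have := t2 i hi; linarith)] at g2
    constructor
    · intro i hi
      have h1 := g1 i hi
      have h2 := hwi i
      have h3 : w i * (1 + r i) = 0 := by linarith
      rcases mul_eq_zero.mp h3 with h | h
      · exact absurd h (hwne i)
      · linarith
    · intro i hi
      have h1 := g2 i hi
      have h2 := hwi i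
      have h3 : w i * (1 - r i) = 0 := by linarith
      rcases mul_eq_zero.mp h3 with h | h
      · exact absurd h (hwne i)
      · linarith
  have hm1 : ((-1:ℝ) ^ (p + 2)) ≠ 0 := pow_ne_zero _ (by norm_num)
  have hm2 : ((-1:ℝ) ^ (p + 2 + 1)) ≠ 0 := pow_ne_zero _ (by norm_num)
  by_cases hk1 : L.card = p + 3
  · have hk2 : Lᶜ.card = p + 2 := by omega
    obtain ⟨ht0, htS, hc⟩ := core p hp n e y1 hn he hy1 hy2 L hk1 hk2 S hSn w hKK _ rfl
    obtain ⟨t, ht⟩ : ∃ t : ℝ, t = (y1 - e) * n / (2 * S) := ⟨_, rfl⟩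
    rw [← ht] at ht0 htS hc
    rw [← hM1, ← hQe] at hc
    have hxt : x + t ∈ Icc (-1:ℝ) 1 := by
      constructor
      · linarith
      · rw [hk2] at s2
        push_cast at s2
        have : t * S ≤ (1 - x) * S := by linarith
        have := le_of_mul_le_mul_right this hS0
        linarith
    have h4 := step P a r hrep x t hxr w hw (fun i => (denpos L S t ht0 htS w hKK i).ne') hxt hxm
      Qe _ hQe0 hc
    refine ⟨?_, ?_⟩
    · have := mul_le_mul_of_nonneg_left (hsqL S n hn0 hSn M1 hM10.le) hnp.le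
      linarith
    · intro heq
      rw [heq] at h4
      have h5 : (2 * S / n) ^ 2 * M1 ≤ M1 := by
        have : nrm P * ((2 * S / n) ^ 2 * M1) ≤ nrm P * M1 := by linarith
        exact le_of_mul_le_mul_left this hnp
      obtain ⟨hr1, hr2⟩ := heqr (hSeqL S n hn0 hSn M1 hM10 h5)
      refine ⟨a * (-1) ^ (p + 2), mul_ne_zero ha hm1, Or.inl ?_⟩
      rw [hrep, prod_ite_two L r (-1) 1 hr1 hr2, hk1, hk2]
      exact finQ1 (p + 2) a
  by_cases hk3 : L.card = p + 2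
  · have hk2 : Lᶜ.card = p + 3 := by omega
    have hKK' : (fun i => (-1) * w i) ∈ KK Lᶜ S := by
      refine ⟨fun i hi => by have := (hLc i).mp hi; linarith, fun i hi => ?_, ?_, ?_⟩
      · rw [compl_compl] at hi
        have := (hLm i).mp hi; linarith
      · rw [← Finset.mul_sum, hSc]; ring
      · rw [compl_compl, ← Finset.mul_sum, ← hS]; ring
    obtain ⟨ht0, htS, hc⟩ := core p hp n e y1 hn he hy1 hy2 Lᶜ hk2 (by rw [compl_compl]; exact hk3)
      S hSn _ hKK' _ rfl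
    obtain ⟨t, ht⟩ : ∃ t : ℝ, t = (y1 - e) * n / (2 * S) := ⟨_, rfl⟩
    rw [← ht] at ht0 htS hc
    rw [← hM1, ← hQe, GGscale, neg_one_sq, one_mul] at hc
    have hxt : x + (-1) * t ∈ Icc (-1:ℝ) 1 := by
      constructor
      · rw [hk3] at s1
        push_cast at s1
        have : t * S ≤ (1 + x) * S := by linarith
        have := le_of_mul_le_mul_right this hS0
        linarith
      · linarith
    have h4 := step P a r hrep x ((-1) * t) hxr w hw (fun i => by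
      have := (denpos Lᶜ S t ht0 htS _ hKK' i).ne'
      rw [show w i * (-1 * t) = (-1 * w i) * t by ring]; exact this) hxt hxm
      Qe _ hQe0 hc
    refine ⟨?_, ?_⟩
    · have := mul_le_mul_of_nonneg_left (hsqL S n hn0 hSn M1 hM10.le) hnp.le
      linarith
    · intro heq
      rw [heq] at h4
      have h5 : (2 * S / n) ^ 2 * M1 ≤ M1 := by
        have : nrm P * ((2 * S / n) ^ 2 * M1) ≤ nrm P * M1 := by linarith
        exact le_of_mul_le_mul_left this hnp
      obtain ⟨hr1, hr2⟩ := heqr (hSeqL S n hn0 hSn M1 hM10 h5)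
      refine ⟨a * (-1) ^ (p + 2 + 1), mul_ne_zero ha hm2, Or.inr ?_⟩
      rw [hrep, prod_ite_two L r (-1) 1 hr1 hr2, hk3, hk2]
      exact finQ2 (p + 2) a
  · apply fin
    rw [hsum0]
    have hk : (L.card : ℝ) * (Lᶜ.card : ℝ) ≤ (n ^ 2 - 9) / 4 :=
      kbound p L.card n _ hn hcardR hk1 hk3
    have hcL : (0:ℝ) < L.card := by exact_mod_cast hL0
    have hcR : (0:ℝ) < Lᶜ.card := by exact_mod_cast hLc0
    have h1 := sumsq L w hL0
    have h2 := sumsq Lᶜ w hLc0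
    rw [← hS] at h1
    rw [hSc] at h2
    have h3 : ∑ i, w i ^ 2 = ∑ i ∈ L, w i ^ 2 + ∑ i ∈ Lᶜ, w i ^ 2 := (Finset.sum_add_sum_compl L _).symm
    have h5 := lastL S n L.card Lᶜ.card hn0 hn9 hcL hcR hk hcardR hSn
    have h10 : n ^ 3 / (n ^ 2 - 9) ≤ ∑ i, w i ^ 2 := by
      rw [h3]; linarith
    have h11 : |(0:ℝ) ^ 2 - ∑ i, w i ^ 2| = ∑ i, w i ^ 2 := by
      rw [show (0:ℝ) ^ 2 - ∑ i, w i ^ 2 = -(∑ i, w i ^ 2) by ring, abs_neg]
      exact abs_of_nonneg (Finset.sum_nonneg (fun i _ => sq_nonneg _))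
    rw [h11]; exact h10

end Pool.Agent.V11276.Turan
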